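import Pool.Agent.Lib.MP_39df77_nt.TS.Defs
import Pool.Agent.Lib.MP_39df77_nt.U6.Defs

/-!
Definitions for the application of the cone theorem to the sixth moment.
-/

set_option autoImplicit false

namespace TS

open Finset Complex

/-- `θ = (√k₃ - √k₂)² - k₁` -/
noncomputable def th (k : ℕ × ℕ × ℕ) : ℝ := x0 k.2.1 k.2.2 - k.1

/-- the dyadic block `2^i ≤ k₁ < 2^{i+1}`, `2^j ≤ k₂ < 2^{j+1}` on the branch `q > 0`, `k₁ + k₂ < k₃` -/
def Bk (i j n : ℕ) : Finset (ℕ × ℕ × ℕ) :=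
  (U6.box n).filter (fun k => Nat.log 2 k.1 = i ∧ Nat.log 2 k.2.1 = j ∧ 0 < U6.q k ∧ k.1 + k.2.1 < k.2.2)

/-- `2π k₁ u v / q`, as a function of `(θ, u, v)`, `k₁ = x0 u v - θ` -/
noncomputable def t0r (θ u v : ℝ) : ℝ :=
  2 * Real.pi * (x0 u v - θ) * u * v / (θ ^ 2 + 4 * θ * √(u * v))

/-- amplitude, at most `1` -/
noncomputable def Amp (T G θ u v : ℝ) : ℝ :=
  √(t0r θ u v / T) * Real.exp (-√(t0r θ u v / T) - √(T / t0r θ u v) -
    G * √(2 * Real.pi) * (√(x0 u v - θ) + √u + √v) / √(t0r θ u v))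

/-- cut-off `= 1` on `[1,2]`, `= 0` outside `[1/2, 3]` -/
noncomputable def cut (y : ℝ) : ℝ := max 0 (min 1 (min (2 * y - 1) (3 - y)))

/-- the weight of the block `(K, R, L = 2^s)` -/
noncomputable def WW (T G K R : ℝ) (s : ℕ) (θ u v : ℝ) : ℂ :=
  open Classical in
  if 0 < θ ∧ u < v ∧ 0 < x0 u v - θ then
    ((tent (Real.logb 2 θ - (s + 1)) * cut (R * (x0 u v - θ) / K) * Amp T G θ u v : ℝ) : ℂ)
  else 0

end TS
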