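import Pool.Agent.Lib.MP_39df77_nt.TS.App

/-!
Row TS-Y1: the weight satisfies `Wt` with an absolute Lipschitz constant.
-/

set_option autoImplicit false

namespace TS

open Finset Complex

private theorem Y1_mul_exp (x : ℝ) (hx : 0 ≤ x) : x * Real.exp (-x) ≤ 1 := by
  rw [Real.exp_neg, ← div_eq_mul_inv, div_le_one (Real.exp_pos _)]
  linarith [Real.add_one_le_exp x]

/-- `0 ≤ Amp ≤ 1` -/
theorem Amp_le (T G θ u v : ℝ) (hG : 0 ≤ G) : 0 ≤ Amp T G θ u v ∧ Amp T G θ u v ≤ 1 := by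
  unfold Amp
  have hz : 0 ≤ √(t0r θ u v / T) := Real.sqrt_nonneg _
  have h1 : 0 ≤ √(T / t0r θ u v) := Real.sqrt_nonneg _
  have h2 : 0 ≤ G * √(2 * Real.pi) * (√(x0 u v - θ) + √u + √v) / √(t0r θ u v) := by positivity
  refine ⟨by positivity, ?_⟩
  refine le_trans ?_ (Y1_mul_exp _ hz)
  refine mul_le_mul_of_nonneg_left (Real.exp_le_exp.2 ?_) hz
  linarith

private theorem Y1_lip (φ φ' : ℝ → ℝ) (C : ℝ) (h : ∀ s, HasDerivAt φ (φ' s) s)
    (hb : ∀ s, |φ' s| ≤ C) (s t : ℝ) : |φ s - φ t| ≤ C * |s - t| := by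
  have h1 := Convex.norm_image_sub_le_of_norm_hasDerivWithin_le (f := φ) (f' := φ') (s := Set.univ)
    (x := t) (y := s) (fun x _ => (h x).hasDerivWithinAt) (fun x _ => hb x) convex_univ
    (Set.mem_univ _) (Set.mem_univ _)
  exact h1

private theorem Y1_g (z z' : ℝ) (hz : 0 < z) (hz' : 0 < z') :
    |z * Real.exp (-z - 1 / z) - z' * Real.exp (-z' - 1 / z')| ≤
      2 * |Real.log z - Real.log z'| := by
  have h := Y1_lip (fun s => Real.exp (s - Real.exp s - Real.exp (-s)))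
    (fun s => Real.exp (s - Real.exp s - Real.exp (-s)) * (1 - Real.exp s - Real.exp (-s) * (-1))) 2
    (fun s => by
      have h1 : HasDerivAt (fun s : ℝ => s - Real.exp s - Real.exp (-s))
          (1 - Real.exp s - Real.exp (-s) * (-1)) s :=
        ((hasDerivAt_id s).sub (Real.hasDerivAt_exp s)).sub ((hasDerivAt_neg s).exp)
      exact h1.exp)
    (fun s => by
      have hp : 0 < Real.exp s := Real.exp_pos s
      have hp' : 0 < Real.exp (-s) := Real.exp_pos _
      have hpp : Real.exp s * Real.exp (-s) = 1 := by rw [← Real.exp_add]; simp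
      rw [abs_mul, abs_of_pos (Real.exp_pos _)]
      have h2 : |1 - Real.exp s - Real.exp (-s) * (-1)| ≤ 1 + Real.exp s + Real.exp (-s) := by
        rw [abs_le]
        constructor <;> linarith
      have h3 : Real.exp (s - Real.exp s - Real.exp (-s)) =
          Real.exp s * Real.exp (-Real.exp s) * Real.exp (-Real.exp (-s)) := by
        rw [← Real.exp_add, ← Real.exp_add]
        congr 1
      have h4 : Real.exp (-Real.exp (-s)) ≤ 1 := by
        rw [Real.exp_le_one_iff]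
        linarith
      have h5 : 1 + Real.exp s + Real.exp s ^ 2 / 2 ≤ Real.exp (Real.exp s) :=
        Real.quadratic_le_exp_of_nonneg hp.le
      have h6 : (1 + Real.exp s + Real.exp s ^ 2) * Real.exp (-Real.exp s) ≤ 2 := by
        rw [Real.exp_neg, ← div_eq_mul_inv, div_le_iff₀ (Real.exp_pos _)]
        nlinarith
      calc Real.exp (s - Real.exp s - Real.exp (-s)) * |1 - Real.exp s - Real.exp (-s) * (-1)|
          ≤ (Real.exp s * Real.exp (-Real.exp s) * 1) * (1 + Real.exp s + Real.exp (-s)) := by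
            rw [h3]
            gcongr
        _ = (Real.exp s + Real.exp s ^ 2 + Real.exp s * Real.exp (-s)) *
            Real.exp (-Real.exp s) := by ring
        _ = (1 + Real.exp s + Real.exp s ^ 2) * Real.exp (-Real.exp s) := by rw [hpp]; ring
        _ ≤ 2 := h6)
    (Real.log z) (Real.log z')
  have e1 : ∀ z : ℝ, 0 < z → Real.exp (Real.log z - Real.exp (Real.log z) -
      Real.exp (-Real.log z)) = z * Real.exp (-z - 1 / z) := by
    intro z hz
    rw [Real.exp_log hz, Real.exp_neg, Real.exp_log hz]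
    have : Real.log z - z - z⁻¹ = Real.log z + (-z - 1 / z) := by rw [one_div]; ring
    rw [this, Real.exp_add, Real.exp_log hz]
  simp only [e1 z hz, e1 z' hz'] at h
  exact h

private theorem Y1_h (G q q' : ℝ) (hG : 0 ≤ G) (hq : 0 < q) (hq' : 0 < q') :
    |Real.exp (-(G * q)) - Real.exp (-(G * q'))| ≤ |Real.log q - Real.log q'| := by
  have h := Y1_lip (fun s => Real.exp (-(G * Real.exp s)))
    (fun s => Real.exp (-(G * Real.exp s)) * (-(G * Real.exp s))) 1
    (fun s => by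
      have h1 : HasDerivAt (fun s : ℝ => -(G * Real.exp s)) (-(G * Real.exp s)) s :=
        ((Real.hasDerivAt_exp s).const_mul G).neg
      exact h1.exp)
    (fun s => by
      have hx : 0 ≤ G * Real.exp s := by positivity
      rw [abs_mul, abs_of_pos (Real.exp_pos _), abs_neg, abs_of_nonneg hx, mul_comm]
      exact Y1_mul_exp _ hx)
    (Real.log q) (Real.log q')
  simp only [Real.exp_log hq, Real.exp_log hq', one_mul] at h
  exact h

private theorem Y1_ld (x x' m : ℝ) (hm : 0 < m) (hx : m ≤ x) (hx' : m ≤ x') :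
    |Real.log x - Real.log x'| ≤ |x - x'| / m := by
  have key : ∀ a b : ℝ, m ≤ a → m ≤ b → Real.log a - Real.log b ≤ |a - b| / m := by
    intro a b ha hb
    have ha0 : 0 < a := lt_of_lt_of_le hm ha
    have hb0 : 0 < b := lt_of_lt_of_le hm hb
    rw [← Real.log_div ha0.ne' hb0.ne']
    have h1 := Real.log_le_sub_one_of_pos (div_pos ha0 hb0)
    have h2 : a / b - 1 = (a - b) / b := by field_simp
    calc Real.log (a / b) ≤ (a - b) / b := by rw [← h2]; exact h1
      _ ≤ |a - b| / b := by gcongr; exact le_abs_self _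
      _ ≤ |a - b| / m := by gcongr
  rw [abs_le]
  constructor
  · have := key x' x hx' hx
    rw [abs_sub_comm] at this
    linarith
  · exact key x x' hx hx'

private theorem Y1_ldadd (x x' y y' : ℝ) (hx : 0 < x) (hx' : 0 < x') (hy : 0 < y) (hy' : 0 < y') :
    |Real.log (x + y) - Real.log (x' + y')| ≤
      |Real.log x - Real.log x'| + |Real.log y - Real.log y'| := by
  have key : ∀ a a' b b' : ℝ, 0 < a → 0 < a' → 0 < b → 0 < b' →
      Real.log (a + b) - Real.log (a' + b') ≤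
      |Real.log a - Real.log a'| + |Real.log b - Real.log b'| := by
    intro a a' b b' ha ha' hb hb'
    set m := |Real.log a - Real.log a'| + |Real.log b - Real.log b'| with hm
    have h1 : a ≤ a' * Real.exp m := by
      rw [← Real.log_le_log_iff ha (by positivity), Real.log_mul ha'.ne' (Real.exp_pos _).ne',
        Real.log_exp]
      have := le_abs_self (Real.log a - Real.log a')
      have := abs_nonneg (Real.log b - Real.log b')
      linarith
    have h2 : b ≤ b' * Real.exp m := by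
      rw [← Real.log_le_log_iff hb (by positivity), Real.log_mul hb'.ne' (Real.exp_pos _).ne',
        Real.log_exp]
      have := le_abs_self (Real.log b - Real.log b')
      have := abs_nonneg (Real.log a - Real.log a')
      linarith
    have h3 : a + b ≤ (a' + b') * Real.exp m := by
      have : (a' + b') * Real.exp m = a' * Real.exp m + b' * Real.exp m := by ring
      linarith
    have h4 := Real.log_le_log (by positivity) h3
    rw [Real.log_mul (by positivity) (Real.exp_pos _).ne', Real.log_exp] at h4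
    linarith
  rw [abs_le]
  constructor
  · have h := key x' x y' y hx' hx hy' hy
    rw [abs_sub_comm (Real.log x'), abs_sub_comm (Real.log y')] at h
    linarith
  · exact key x x' y y' hx hx' hy hy'

private theorem Y1_ldmul (x x' y y' : ℝ) (hx : 0 < x) (hx' : 0 < x') (hy : 0 < y) (hy' : 0 < y') :
    |Real.log (x * y) - Real.log (x' * y')| ≤
      |Real.log x - Real.log x'| + |Real.log y - Real.log y'| := by
  rw [Real.log_mul hx.ne' hy.ne', Real.log_mul hx'.ne' hy'.ne']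
  have : Real.log x + Real.log y - (Real.log x' + Real.log y') =
      (Real.log x - Real.log x') + (Real.log y - Real.log y') := by ring
  rw [this]
  exact abs_add_le _ _

private theorem Y1_lddiv (x x' y y' : ℝ) (hx : 0 < x) (hx' : 0 < x') (hy : 0 < y) (hy' : 0 < y') :
    |Real.log (x / y) - Real.log (x' / y')| ≤
      |Real.log x - Real.log x'| + |Real.log y - Real.log y'| := by
  rw [Real.log_div hx.ne' hy.ne', Real.log_div hx'.ne' hy'.ne']
  have : Real.log x - Real.log y - (Real.log x' - Real.log y') =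
      (Real.log x - Real.log x') - (Real.log y - Real.log y') := by ring
  rw [this]
  exact abs_sub _ _

private theorem Y1_ldsqrt (x x' : ℝ) (hx : 0 < x) (hx' : 0 < x') :
    |Real.log (√x) - Real.log (√x')| = |Real.log x - Real.log x'| / 2 := by
  rw [Real.log_sqrt hx.le, Real.log_sqrt hx'.le]
  rw [← sub_div, abs_div, abs_of_pos (by norm_num : (0 : ℝ) < 2)]

private theorem Y1_tent (a b : ℝ) : |tent a - tent b| ≤ |a - b| := by
  unfold tent
  refine (abs_max_sub_max_le_max _ _ _ _).trans ?_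
  simp only [sub_self, abs_zero]
  have h : |1 - |a| - (1 - |b|)| ≤ |a - b| := by
    have : 1 - |a| - (1 - |b|) = -(|a| - |b|) := by ring
    rw [this, abs_neg]
    exact abs_abs_sub_abs_le_abs_sub a b
  exact max_le (abs_nonneg _) h

private theorem Y1_cut (a b : ℝ) : |cut a - cut b| ≤ 2 * |a - b| := by
  unfold cut
  have h0 : 0 ≤ |a - b| := abs_nonneg _
  refine (abs_max_sub_max_le_max _ _ _ _).trans ?_
  simp only [sub_self, abs_zero]
  refine max_le (by linarith) ?_
  refine (abs_min_sub_min_le_max _ _ _ _).trans ?_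
  simp only [sub_self, abs_zero]
  refine max_le (by linarith) ?_
  refine (abs_min_sub_min_le_max _ _ _ _).trans ?_
  refine max_le ?_ ?_
  · have : 2 * a - 1 - (2 * b - 1) = 2 * (a - b) := by ring
    rw [this, abs_mul, abs_of_pos (by norm_num : (0 : ℝ) < 2)]
  · have : 3 - a - (3 - b) = -(a - b) := by ring
    rw [this, abs_neg]
    linarith

private theorem Y1_cut01 (y : ℝ) : 0 ≤ cut y ∧ cut y ≤ 1 := by
  unfold cut
  exact ⟨le_max_left _ _, max_le zero_le_one (min_le_left _ _)⟩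

private theorem Y1_cut_ne {y : ℝ} (h : cut y ≠ 0) : 1 / 2 < y ∧ y < 3 := by
  unfold cut at h
  have h1 : 0 < min 1 (min (2 * y - 1) (3 - y)) := by
    by_contra hc
    push Not at hc
    exact h (max_eq_left hc)
  rw [lt_min_iff, lt_min_iff] at h1
  constructor <;> linarith [h1.2.1, h1.2.2]

private theorem Y1_prod (a b c a' b' c' : ℝ) (ha : 0 ≤ a ∧ a ≤ 1) (hb : 0 ≤ b ∧ b ≤ 1)
    (hc : 0 ≤ c ∧ c ≤ 1) (ha' : 0 ≤ a' ∧ a' ≤ 1) (hb' : 0 ≤ b' ∧ b' ≤ 1) (hc' : 0 ≤ c' ∧ c' ≤ 1) :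
    |a * b * c - a' * b' * c'| ≤ |a - a'| + |b - b'| + |c - c'| := by
  have h1 : a * b * c - a' * b' * c' = (a - a') * (b * c) + (b - b') * (a' * c) +
      (c - c') * (a' * b') := by ring
  have e1 : |(a - a') * (b * c)| ≤ |a - a'| := by
    rw [abs_mul, abs_of_nonneg (mul_nonneg hb.1 hc.1)]
    exact mul_le_of_le_one_right (abs_nonneg _) (mul_le_one₀ hb.2 hc.1 hc.2)
  have e2 : |(b - b') * (a' * c)| ≤ |b - b'| := by
    rw [abs_mul, abs_of_nonneg (mul_nonneg ha'.1 hc.1)]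
    exact mul_le_of_le_one_right (abs_nonneg _) (mul_le_one₀ ha'.2 hc.1 hc.2)
  have e3 : |(c - c') * (a' * b')| ≤ |c - c'| := by
    rw [abs_mul, abs_of_nonneg (mul_nonneg ha'.1 hb'.1)]
    exact mul_le_of_le_one_right (abs_nonneg _) (mul_le_one₀ ha'.2 hb'.1 hb'.2)
  rw [h1]
  have t1 := abs_add_le ((a - a') * (b * c) + (b - b') * (a' * c)) ((c - c') * (a' * b'))
  have t2 := abs_add_le ((a - a') * (b * c)) ((b - b') * (a' * c))
  linarith

/-- the amplitude is Lipschitz -/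
private theorem Y1_Amp (T G θ u v θ' u' v' D : ℝ) (hT : 1 ≤ T) (hG : 0 ≤ G)
    (hθ : 0 < θ) (hθ' : 0 < θ') (hu : 0 < u) (hu' : 0 < u') (hv : 0 < v) (hv' : 0 < v')
    (hx : 0 < x0 u v - θ) (hx' : 0 < x0 u' v' - θ')
    (d1 : |Real.log θ - Real.log θ'| ≤ D) (d2 : |Real.log u - Real.log u'| ≤ D)
    (d3 : |Real.log v - Real.log v'| ≤ D)
    (d4 : |Real.log (x0 u v - θ) - Real.log (x0 u' v' - θ')| ≤ 12 * D) :
    |Amp T G θ u v - Amp T G θ' u' v'| ≤ 33 * D := by
  have hT0 : 0 < T := by linarith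
  have hD : 0 ≤ D := (abs_nonneg _).trans d1
  have huv : 0 < u * v := mul_pos hu hv
  have huv' : 0 < u' * v' := mul_pos hu' hv'
  have hs : 0 < √(u * v) := Real.sqrt_pos.2 huv
  have hs' : 0 < √(u' * v') := Real.sqrt_pos.2 huv'
  have hq : 0 < θ ^ 2 + 4 * θ * √(u * v) := by positivity
  have hq' : 0 < θ' ^ 2 + 4 * θ' * √(u' * v') := by positivity
  have ht : 0 < t0r θ u v := by
    unfold t0r
    exact div_pos (by have := Real.pi_pos; positivity) hq
  have ht' : 0 < t0r θ' u' v' := by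
    unfold t0r
    exact div_pos (by have := Real.pi_pos; positivity) hq'
  -- distance of `√(uv)`
  have e1 : |Real.log (√(u * v)) - Real.log (√(u' * v'))| ≤ D := by
    rw [Y1_ldsqrt _ _ huv huv']
    have := Y1_ldmul u u' v v' hu hu' hv hv'
    linarith
  have e2 : |Real.log (θ + 4 * √(u * v)) - Real.log (θ' + 4 * √(u' * v'))| ≤ 2 * D := by
    refine (Y1_ldadd θ θ' (4 * √(u * v)) (4 * √(u' * v')) hθ hθ' (by positivity)
      (by positivity)).trans ?_
    have := Y1_ldmul 4 4 (√(u * v)) (√(u' * v')) (by norm_num) (by norm_num) hs hs'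
    simp only [sub_self, abs_zero, zero_add] at this
    linarith
  have e3 : |Real.log (θ ^ 2 + 4 * θ * √(u * v)) - Real.log (θ' ^ 2 + 4 * θ' * √(u' * v'))| ≤
      3 * D := by
    have r1 : θ ^ 2 + 4 * θ * √(u * v) = θ * (θ + 4 * √(u * v)) := by ring
    have r2 : θ' ^ 2 + 4 * θ' * √(u' * v') = θ' * (θ' + 4 * √(u' * v')) := by ring
    rw [r1, r2]
    refine (Y1_ldmul θ θ' _ _ hθ hθ' (by positivity) (by positivity)).trans ?_
    linarith
  have e4 : |Real.log (t0r θ u v) - Real.log (t0r θ' u' v')| ≤ 17 * D := by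
    unfold t0r
    have hpi : 0 < 2 * Real.pi := by have := Real.pi_pos; positivity
    refine (Y1_lddiv _ _ _ _ (by positivity) (by positivity) hq hq').trans ?_
    have f1 := Y1_ldmul (2 * Real.pi * (x0 u v - θ) * u) (2 * Real.pi * (x0 u' v' - θ') * u') v v'
      (by positivity) (by positivity) hv hv'
    have f2 := Y1_ldmul (2 * Real.pi * (x0 u v - θ)) (2 * Real.pi * (x0 u' v' - θ')) u u'
      (by positivity) (by positivity) hu hu'
    have f3 := Y1_ldmul (2 * Real.pi) (2 * Real.pi) (x0 u v - θ) (x0 u' v' - θ')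
      hpi hpi hx hx'
    simp only [sub_self, abs_zero, zero_add] at f3
    linarith
  -- distance of the sum of the roots
  have g1 : |Real.log (√(x0 u v - θ) + √u + √v) - Real.log (√(x0 u' v' - θ') + √u' + √v')| ≤
      7 * D := by
    have a1 := Real.sqrt_pos.2 hx
    have a2 := Real.sqrt_pos.2 hx'
    have a3 := Real.sqrt_pos.2 hu
    have a4 := Real.sqrt_pos.2 hu'
    have a5 := Real.sqrt_pos.2 hv
    have a6 := Real.sqrt_pos.2 hv'
    have f1 := Y1_ldadd (√(x0 u v - θ) + √u) (√(x0 u' v' - θ') + √u') (√v) (√v')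
      (by positivity) (by positivity) a5 a6
    have f2 := Y1_ldadd (√(x0 u v - θ)) (√(x0 u' v' - θ')) (√u) (√u') a1 a2 a3 a4
    have f3 := Y1_ldsqrt _ _ hx hx'
    have f4 := Y1_ldsqrt _ _ hu hu'
    have f5 := Y1_ldsqrt _ _ hv hv'
    linarith
  have hst : 0 < √(t0r θ u v) := Real.sqrt_pos.2 ht
  have hst' : 0 < √(t0r θ' u' v') := Real.sqrt_pos.2 ht'
  have e5 : |Real.log (√(t0r θ u v)) - Real.log (√(t0r θ' u' v'))| ≤ 17 / 2 * D := by
    rw [Y1_ldsqrt _ _ ht ht']
    linarith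
  have hsp : 0 < √(2 * Real.pi) := Real.sqrt_pos.2 (by have := Real.pi_pos; positivity)
  have hS : 0 < √(x0 u v - θ) + √u + √v := by
    have := Real.sqrt_pos.2 hu
    positivity
  have hS' : 0 < √(x0 u' v' - θ') + √u' + √v' := by
    have := Real.sqrt_pos.2 hu'
    positivity
  have e6 : |Real.log (√(2 * Real.pi) * (√(x0 u v - θ) + √u + √v) / √(t0r θ u v)) -
      Real.log (√(2 * Real.pi) * (√(x0 u' v' - θ') + √u' + √v') / √(t0r θ' u' v'))| ≤
      31 / 2 * D := by
    refine (Y1_lddiv _ _ _ _ (by positivity) (by positivity) hst hst').trans ?_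
    have f1 := Y1_ldmul (√(2 * Real.pi)) (√(2 * Real.pi)) _ _ hsp hsp hS hS'
    simp only [sub_self, abs_zero, zero_add] at f1
    linarith
  have hz : 0 < √(t0r θ u v / T) := Real.sqrt_pos.2 (div_pos ht hT0)
  have hz' : 0 < √(t0r θ' u' v' / T) := Real.sqrt_pos.2 (div_pos ht' hT0)
  have e7 : |Real.log (√(t0r θ u v / T)) - Real.log (√(t0r θ' u' v' / T))| ≤ 17 / 2 * D := by
    rw [Y1_ldsqrt _ _ (div_pos ht hT0) (div_pos ht' hT0)]
    have := Y1_lddiv _ _ T T ht ht' hT0 hT0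
    simp only [sub_self, abs_zero, add_zero] at this
    linarith
  have eq : ∀ θ u v : ℝ, 0 < t0r θ u v → Amp T G θ u v =
      √(t0r θ u v / T) * Real.exp (-√(t0r θ u v / T) - 1 / √(t0r θ u v / T)) *
      Real.exp (-(G * (√(2 * Real.pi) * (√(x0 u v - θ) + √u + √v) / √(t0r θ u v)))) := by
    intro θ u v h
    unfold Amp
    conv_rhs => rw [mul_assoc, ← Real.exp_add]
    have h1 : √(T / t0r θ u v) = 1 / √(t0r θ u v / T) := by
      rw [← Real.sqrt_one, ← Real.sqrt_div (by norm_num), one_div_div]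
    rw [h1]
    congr 2
    ring
  rw [eq θ u v ht, eq θ' u' v' ht']
  have k1 := Y1_g _ _ hz hz'
  have k2 := Y1_h G _ _ hG (by positivity :
    0 < √(2 * Real.pi) * (√(x0 u v - θ) + √u + √v) / √(t0r θ u v)) (by positivity :
    0 < √(2 * Real.pi) * (√(x0 u' v' - θ') + √u' + √v') / √(t0r θ' u' v'))
  have b01 : ∀ z : ℝ, 0 < z → 0 ≤ z * Real.exp (-z - 1 / z) ∧ z * Real.exp (-z - 1 / z) ≤ 1 := by
    intro z hz
    refine ⟨by positivity, le_trans ?_ (Y1_mul_exp z hz.le)⟩
    refine mul_le_mul_of_nonneg_left (Real.exp_le_exp.2 ?_) hz.le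
    have : 0 < 1 / z := by positivity
    linarith
  have c01 : ∀ q : ℝ, 0 < q → 0 ≤ Real.exp (-(G * q)) ∧ Real.exp (-(G * q)) ≤ 1 := by
    intro q hq
    refine ⟨(Real.exp_pos _).le, ?_⟩
    rw [Real.exp_le_one_iff]
    have : 0 ≤ G * q := by positivity
    linarith
  have k3 := Y1_prod 1 _ _ 1 _ _ ⟨zero_le_one, le_rfl⟩ (b01 _ hz) (c01 _ (by positivity :
    0 < √(2 * Real.pi) * (√(x0 u v - θ) + √u + √v) / √(t0r θ u v))) ⟨zero_le_one, le_rfl⟩
    (b01 _ hz') (c01 _ (by positivity :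
    0 < √(2 * Real.pi) * (√(x0 u' v' - θ') + √u' + √v') / √(t0r θ' u' v')))
  simp only [one_mul, sub_self, abs_zero, zero_add] at k3
  linarith

private theorem Y1_WW (T G K R : ℝ) (s : ℕ) (θ u v : ℝ) (h : 0 < θ ∧ u < v ∧ 0 < x0 u v - θ) :
    WW T G K R s θ u v =
      ((tent (Real.logb 2 θ - (s + 1)) * cut (R * (x0 u v - θ) / K) * Amp T G θ u v : ℝ) : ℂ) := by
  unfold WW
  rw [if_pos h]

private theorem Y1_bd (T G K R : ℝ) (s : ℕ) (hG : 0 ≤ G) (θ u v : ℝ) :
    ‖WW T G K R s θ u v‖ ≤ 1 := by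
  by_cases h : 0 < θ ∧ u < v ∧ 0 < x0 u v - θ
  · rw [Y1_WW T G K R s θ u v h, Complex.norm_real, Real.norm_eq_abs, abs_of_nonneg]
    · have h1 := tent_nonneg (Real.logb 2 θ - (s + 1))
      have h2 := tent_le_one (Real.logb 2 θ - (s + 1))
      have h3 := Y1_cut01 (R * (x0 u v - θ) / K)
      have h4 := Amp_le T G θ u v hG
      exact mul_le_one₀ (mul_le_one₀ h2 h3.1 h3.2) h4.1 h4.2
    · have h1 := tent_nonneg (Real.logb 2 θ - (s + 1))
      have h3 := Y1_cut01 (R * (x0 u v - θ) / K)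
      have h4 := Amp_le T G θ u v hG
      exact mul_nonneg (mul_nonneg h1 h3.1) h4.1
  · unfold WW
    rw [if_neg h]
    simp

private theorem Y1_th (T G K R : ℝ) (s : ℕ) (hR : 1 ≤ R) (hK : 0 < K) (θ u v : ℝ)
    (h0 : WW T G K R s θ u v ≠ 0) : (((2 ^ s : ℕ) : ℝ)) ≤ θ ∧ θ ≤ 4 * ((2 ^ s : ℕ) : ℝ) ∧ u < v ∧
      K / (2 * R) ≤ x0 u v - θ ∧ x0 u v - θ ≤ 3 * K / R := by
  have h : 0 < θ ∧ u < v ∧ 0 < x0 u v - θ := by
    by_contra hc
    apply h0
    unfold WW
    rw [if_neg hc]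
  rw [Y1_WW T G K R s θ u v h] at h0
  have h1 : tent (Real.logb 2 θ - (s + 1)) * cut (R * (x0 u v - θ) / K) * Amp T G θ u v ≠ 0 := by
    intro h2
    apply h0
    rw [h2]
    simp
  have ht := tent_ne (left_ne_zero_of_mul (left_ne_zero_of_mul h1))
  have hc := Y1_cut_ne (right_ne_zero_of_mul (left_ne_zero_of_mul h1))
  rw [abs_lt] at ht
  have hR0 : 0 < R := by linarith
  have e1 : (s : ℝ) ≤ Real.logb 2 θ := by linarith
  have e2 : Real.logb 2 θ ≤ (s : ℝ) + 2 := by linarith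
  rw [Real.le_logb_iff_rpow_le (by norm_num) h.1] at e1
  rw [Real.logb_le_iff_le_rpow (by norm_num) h.1, Real.rpow_add (by norm_num)] at e2
  rw [Real.rpow_natCast] at e1 e2
  refine ⟨by push_cast; exact e1, ?_, h.2.1, ?_, ?_⟩
  · push_cast
    have : ((2 : ℝ) ^ (2 : ℝ)) = 4 := by norm_num
    rw [this] at e2
    linarith
  · rw [div_le_iff₀ (by positivity)]
    have := (lt_div_iff₀ hK).1 hc.1
    nlinarith
  · rw [le_div_iff₀ hR0]
    have := (div_lt_iff₀ hK).1 hc.2
    nlinarith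

private theorem Y1_sqrt (K u u' : ℝ) (hK : 0 < K) (hu : K / 2 ≤ u) (hu' : K / 2 ≤ u') :
    |√u - √u'| ≤ |u - u'| / √K := by
  have hu0 : 0 ≤ u := by linarith
  have hu0' : 0 ≤ u' := by linarith
  have h1 := Real.sq_sqrt hu0
  have h2 := Real.sq_sqrt hu0'
  have hsK : 0 < √K := Real.sqrt_pos.2 hK
  have hq : √K / 2 ≤ √u := by
    apply Real.le_sqrt_of_sq_le
    have := Real.sq_sqrt hK.le
    nlinarith
  have hq' : √K / 2 ≤ √u' := by
    apply Real.le_sqrt_of_sq_le
    have := Real.sq_sqrt hK.le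
    nlinarith
  rw [le_div_iff₀ hsK]
  have h3 : u - u' = (√u - √u') * (√u + √u') := by
    calc u - u' = √u ^ 2 - √u' ^ 2 := by rw [h1, h2]
      _ = _ := by ring
  rw [h3, abs_mul]
  refine mul_le_mul_of_nonneg_left ?_ (abs_nonneg _)
  rw [abs_of_nonneg (by positivity)]
  linarith

private theorem Y1_key (T G K R L : ℝ) (s : ℕ) (hL : L = ((2 ^ s : ℕ) : ℝ)) (hL1 : 1 ≤ L)
    (hT : 1 ≤ T) (hG : 0 ≤ G) (hR : 1 ≤ R) (hK : 0 < K) (hLR : 10 ^ 3 * (L * R) ≤ K)
    (θ θ' u u' v v' : ℝ) (hu1 : K / 2 ≤ u) (hu1' : K / 2 ≤ u')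
    (huv : u < v) (huv' : u' < v') (hW : WW T G K R s θ u v ≠ 0)
    (hd : |θ - θ'| / L + √R * (|u - u'| + |v - v'|) / K < 1 / 48) :
    ‖WW T G K R s θ u v - WW T G K R s θ' u' v'‖ ≤
      100 * (|θ - θ'| / L + √R * (|u - u'| + |v - v'|) / K) := by
  obtain ⟨t1, t2, _, t4, t5⟩ := Y1_th T G K R s hR hK θ u v hW
  rw [← hL] at t1 t2
  set d := |θ - θ'| / L + √R * (|u - u'| + |v - v'|) / K with hdd
  have hR0 : 0 < R := by linarith
  have hL0 : 0 < L := by linarith
  have hsR : 1 ≤ √R := by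
    rw [← Real.sqrt_one]
    exact Real.sqrt_le_sqrt hR
  have hsK : 0 < √K := Real.sqrt_pos.2 hK
  have a1 : 0 ≤ |θ - θ'| / L := by positivity
  have a2 : 0 ≤ √R * (|u - u'| + |v - v'|) / K := by positivity
  have hθd : |θ - θ'| / L ≤ d := by linarith
  have hθd' : |θ - θ'| ≤ L * d := by
    rw [div_le_iff₀ hL0] at hθd
    linarith
  have hΔ : √R * (|u - u'| + |v - v'|) / K ≤ d := by linarith
  have hd0 : 0 ≤ d := by linarith
  set X := K / R with hX
  have hX0 : 0 < X := div_pos hK hR0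
  have hLX : 10 ^ 3 * L ≤ X := by
    rw [hX, le_div_iff₀ hR0]
    linarith
  have t4' : X / 2 ≤ x0 u v - θ := by
    have : K / (2 * R) = X / 2 := by rw [hX]; field_simp
    rw [← this]
    exact t4
  have t5' : x0 u v - θ ≤ 3 * X := by
    have : 3 * K / R = 3 * X := by rw [hX]; ring
    rw [← this]
    exact t5
  -- displacement of the root of `x0`
  set r := √X with hr
  have hr0 : 0 < r := Real.sqrt_pos.2 hX0
  have hrr : r ^ 2 = X := Real.sq_sqrt hX0.le
  have hv1 : K / 2 ≤ v := by linarith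
  have hv1' : K / 2 ≤ v' := by linarith
  have b1 := Y1_sqrt K u u' hK hu1 hu1'
  have b2 := Y1_sqrt K v v' hK hv1 hv1'
  have b3 : (|u - u'| + |v - v'|) / √K ≤ d * r := by
    have h1 : r = √K / √R := by
      rw [hr, hX, Real.sqrt_div hK.le]
    rw [h1, div_le_iff₀ hsK]
    have h2 : √K * √K = K := Real.mul_self_sqrt hK.le
    have h3 : √R * (|u - u'| + |v - v'|) ≤ d * K := (div_le_iff₀ hK).1 hΔ
    have h4 : 0 < √R := by linarith
    have h5 : d * (√K / √R) * √K = d * K / √R := by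
      calc d * (√K / √R) * √K = d * (√K * √K) / √R := by ring
        _ = d * K / √R := by rw [h2]
    rw [h5, le_div_iff₀ h4]
    linarith
  have b4 : |(√v - √u) - (√v' - √u')| ≤ d * r := by
    have h1 : (√v - √u) - (√v' - √u') = (√v - √v') - (√u - √u') := by ring
    rw [h1]
    have h2 := abs_sub (√v - √v') (√u - √u')
    have h3 : (|u - u'| + |v - v'|) / √K = |u - u'| / √K + |v - v'| / √K := by ring
    linarith
  have c1 : 0 ≤ √v - √u := by
    have := Real.sqrt_le_sqrt huv.le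
    linarith
  have c1' : 0 ≤ √v' - √u' := by
    have := Real.sqrt_le_sqrt huv'.le
    linarith
  have c2 : √v - √u ≤ 2 * r := by
    have h1 : (√v - √u) ^ 2 ≤ 4 * X := by
      have : x0 u v = (√v - √u) ^ 2 := rfl
      rw [← this]
      linarith
    have h2 : (√v - √u) ^ 2 ≤ (2 * r) ^ 2 := by
      rw [mul_pow, hrr]
      linarith
    exact abs_le_of_sq_le_sq' h2 (by positivity) |>.2
  have hdr : d * r ≤ r := by
    have : d ≤ 1 := by linarith
    nlinarith
  have c3 : √v' - √u' ≤ 3 * r := by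
    have := (abs_le.1 b4).1
    linarith
  have b5 : |x0 u v - x0 u' v'| ≤ 5 * X * d := by
    have h1 : x0 u v - x0 u' v' = ((√v - √u) - (√v' - √u')) * ((√v - √u) + (√v' - √u')) := by
      unfold x0
      ring
    rw [h1, abs_mul, abs_of_nonneg (add_nonneg c1 c1')]
    calc |(√v - √u) - (√v' - √u')| * ((√v - √u) + (√v' - √u')) ≤ (d * r) * (5 * r) := by
          refine mul_le_mul b4 (by linarith) (add_nonneg c1 c1') (by positivity)
      _ = 5 * X * d := by rw [← hrr]; ring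
  have hLd : L * d ≤ X * d := by
    have : L ≤ X := by linarith
    exact mul_le_mul_of_nonneg_right this hd0
  have b6 : |(x0 u v - θ) - (x0 u' v' - θ')| ≤ 6 * X * d := by
    have h1 : (x0 u v - θ) - (x0 u' v' - θ') = (x0 u v - x0 u' v') - (θ - θ') := by ring
    rw [h1]
    have := abs_sub (x0 u v - x0 u' v') (θ - θ')
    linarith
  have b7 : X / 4 ≤ x0 u' v' - θ' := by
    have h1 := (abs_le.1 b6).2
    have h2 : X * d ≤ X * (1 / 48) := mul_le_mul_of_nonneg_left hd.le hX0.le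
    linarith
  have hθ' : L / 2 ≤ θ' := by
    have h1 := (abs_le.1 hθd').2
    have h2 : L * d ≤ L * (1 / 48) := mul_le_mul_of_nonneg_left hd.le hL0.le
    linarith
  have hu0 : 0 < u := by linarith
  have hu0' : 0 < u' := by linarith
  have hv0 : 0 < v := by linarith
  have hv0' : 0 < v' := by linarith
  have hθ0 : 0 < θ := by linarith
  have hθ0' : 0 < θ' := by linarith
  have hx0 : 0 < x0 u v - θ := by linarith
  have hx0' : 0 < x0 u' v' - θ' := by linarith
  -- logarithmic distances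
  have g1 : |Real.log θ - Real.log θ'| ≤ 2 * d := by
    refine (Y1_ld θ θ' (L / 2) (by positivity) (by linarith) hθ').trans ?_
    rw [div_le_iff₀ (by positivity)]
    linarith
  have hK2 : ∀ x : ℝ, 0 ≤ x → x ≤ |u - u'| + |v - v'| → x / (K / 2) ≤ 2 * d := by
    intro x hx hxx
    rw [div_le_iff₀ (by positivity)]
    have h3 : √R * (|u - u'| + |v - v'|) ≤ d * K := (div_le_iff₀ hK).1 hΔ
    have h4 : |u - u'| + |v - v'| ≤ √R * (|u - u'| + |v - v'|) :=
      le_mul_of_one_le_left (by positivity) hsR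
    linarith
  have g2 : |Real.log u - Real.log u'| ≤ 2 * d := by
    refine (Y1_ld u u' (K / 2) (by positivity) hu1 hu1').trans ?_
    exact hK2 _ (abs_nonneg _) (by linarith [abs_nonneg (v - v')])
  have g3 : |Real.log v - Real.log v'| ≤ 2 * d := by
    refine (Y1_ld v v' (K / 2) (by positivity) hv1 hv1').trans ?_
    exact hK2 _ (abs_nonneg _) (by linarith [abs_nonneg (u - u')])
  have g4 : |Real.log (x0 u v - θ) - Real.log (x0 u' v' - θ')| ≤ 12 * (2 * d) := by
    refine (Y1_ld _ _ (X / 4) (by positivity) (by linarith) b7).trans ?_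
    rw [div_le_iff₀ (by positivity)]
    linarith
  have k1 := Y1_Amp T G θ u v θ' u' v' (2 * d) hT hG hθ0 hθ0' hu0 hu0' hv0 hv0' hx0 hx0' g1 g2 g3 g4
  have k2 : |tent (Real.logb 2 θ - (s + 1)) - tent (Real.logb 2 θ' - (s + 1))| ≤ 3 * d := by
    refine (Y1_tent _ _).trans ?_
    have h1 : Real.logb 2 θ - (s + 1) - (Real.logb 2 θ' - (s + 1)) =
        (Real.log θ - Real.log θ') / Real.log 2 := by
      unfold Real.logb
      ring
    have h2 : 0.6931471803 < Real.log 2 := Real.log_two_gt_d9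
    have h3 : 0 < Real.log 2 := by linarith
    rw [h1, abs_div, abs_of_pos h3, div_le_iff₀ h3]
    have h4 : 2 ≤ 3 * Real.log 2 := by linarith
    have h5 : 2 * d ≤ 3 * Real.log 2 * d := mul_le_mul_of_nonneg_right h4 hd0
    linarith
  have k3 : |cut (R * (x0 u v - θ) / K) - cut (R * (x0 u' v' - θ') / K)| ≤ 12 * d := by
    refine (Y1_cut _ _).trans ?_
    have h1 : R * (x0 u v - θ) / K - R * (x0 u' v' - θ') / K =
        ((x0 u v - θ) - (x0 u' v' - θ')) / X := by
      rw [hX]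
      field_simp
    rw [h1, abs_div, abs_of_pos hX0]
    have h2 : |(x0 u v - θ) - (x0 u' v' - θ')| / X ≤ 6 * d := by
      rw [div_le_iff₀ hX0]
      linarith
    linarith
  rw [Y1_WW T G K R s θ u v ⟨hθ0, huv, hx0⟩, Y1_WW T G K R s θ' u' v' ⟨hθ0', huv', hx0'⟩,
    ← Complex.ofReal_sub, Complex.norm_real, Real.norm_eq_abs]
  refine (Y1_prod _ _ _ _ _ _ ⟨tent_nonneg _, tent_le_one _⟩ (Y1_cut01 _) (Amp_le T G θ u v hG)
    ⟨tent_nonneg _, tent_le_one _⟩ (Y1_cut01 _) (Amp_le T G θ' u' v' hG)).trans ?_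
  linarith

/-- Lipschitz estimate by logarithms. Let `d = |θ-θ'|/L + √R(|u-u'|+|v-v'|)/K`. If `d ≥ c₀` (small absolute constant)
trivial. Let `d < c₀` and let `W ≠ 0` at the first point (symmetric). Then at both points `θ ≍ L`, `x0 - θ ≍ K/R`,
`u, v ≍ K`, `u < v`; `|log f - log f'| ≤ C d` for `f = θ`, `u`, `v`, `x0` (`|√x0 - √x0'| ≤ (|u-u'|+|v-v'|)/√K`,
`√x0 ≥ c √(K/R)`), `x0 - θ` (`L ≤ K/R`), `θ² + 4θ√(uv)`, `t0r`, `√(x0-θ)+√u+√v`. With `z = √(t0r/T)` and
`w = G√(2π)(..)/√t0r`: `|Δ(z e^{-z-1/z})| ≤ C |Δ log z|`, `|Δ e^{-w}| ≤ |Δ log w|` (`w e^{-w} ≤ 1`); `tent`, `cut` are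
Lipschitz functions of `logb 2 θ` and of `R(x0-θ)/K`. -/
theorem weight_Wt : ∃ C : ℝ, 1 ≤ C ∧ ∀ (T G K R : ℝ) (s : ℕ), 1 ≤ T → 0 ≤ G → 1 ≤ R →
    10 ^ 48 * (((2 ^ s : ℕ) : ℝ) * R) ^ 11 ≤ K → Wt K R (2 ^ s) C (WW T G K R s) := by
  refine ⟨100, by norm_num, ?_⟩
  intro T G K R s hT hG hR hbig
  have hL1 : (1 : ℝ) ≤ ((2 ^ s : ℕ) : ℝ) := by exact_mod_cast Nat.one_le_two_pow
  have hLR : 1 ≤ ((2 ^ s : ℕ) : ℝ) * R := by nlinarith
  have h11 : ((2 ^ s : ℕ) : ℝ) * R ≤ (((2 ^ s : ℕ) : ℝ) * R) ^ 11 :=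
    le_self_pow₀ hLR (by norm_num)
  have hLRK : 10 ^ 3 * (((2 ^ s : ℕ) : ℝ) * R) ≤ K := by
    have : (10 : ℝ) ^ 3 * (((2 ^ s : ℕ) : ℝ) * R) ≤ 10 ^ 48 * (((2 ^ s : ℕ) : ℝ) * R) ^ 11 :=
      mul_le_mul (by norm_num) h11 (by linarith) (by norm_num)
    linarith
  have hK : 0 < K := by linarith
  refine ⟨fun θ u v => Y1_bd T G K R s hG θ u v, fun θ u v h => Y1_th T G K R s hR hK θ u v h, ?_⟩
  intro θ θ' u u' v v' h1 _ h1' _ huv _ huv' _
  have hb := Y1_bd T G K R s hG
  by_cases hd : |θ - θ'| / ((2 ^ s : ℕ) : ℝ) + √R * (|u - u'| + |v - v'|) / K < 1 / 48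
  · by_cases hW : WW T G K R s θ u v = 0
    · by_cases hW' : WW T G K R s θ' u' v' = 0
      · rw [hW, hW']
        simp only [sub_self, norm_zero]
        positivity
      · have e1 : |θ' - θ| = |θ - θ'| := abs_sub_comm _ _
        have e2 : |u' - u| = |u - u'| := abs_sub_comm _ _
        have e3 : |v' - v| = |v - v'| := abs_sub_comm _ _
        have := Y1_key T G K R _ s rfl hL1 hT hG hR hK hLRK θ' θ u' u v' v h1' h1 huv' huv hW'
          (by rw [e1, e2, e3]; exact hd)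
        rw [e1, e2, e3, norm_sub_rev] at this
        exact this
    · exact Y1_key T G K R _ s rfl hL1 hT hG hR hK hLRK θ θ' u u' v v' h1 h1' huv huv' hW hd
  · push Not at hd
    have h3 := norm_sub_le (WW T G K R s θ u v) (WW T G K R s θ' u' v')
    have h4 := hb θ u v
    have h5 := hb θ' u' v'
    linarith

end TS
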