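import Pool.Agent.Lib.MP_39df77_nt.TS.App

/-!
Row TS-Y2a: the terms of the third moment.
-/

set_option autoImplicit false

namespace TS

open Finset Complex

private theorem Y2a_qf (k : ℕ × ℕ × ℕ) : ((U6.q k : ℤ) : ℝ) = qf k.1 k.2.1 k.2.2 := by
  unfold U6.q qf
  push_cast
  ring

private theorem Y2a_th_pos (k : ℕ × ℕ × ℕ) (h1 : 1 ≤ k.1) (h2 : 1 ≤ k.2.1) (hq : 0 < U6.q k)
    (hb : k.1 + k.2.1 < k.2.2) : 0 < th k := by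
  have hq' : (0 : ℝ) < qf k.1 k.2.1 k.2.2 := by
    rw [← Y2a_qf]; exact_mod_cast hq
  have hb' : (k.1 : ℝ) + k.2.1 < k.2.2 := by exact_mod_cast hb
  have h1' : (1 : ℝ) ≤ k.1 := by exact_mod_cast h1
  have h2' : (1 : ℝ) ≤ k.2.1 := by exact_mod_cast h2
  have s1 := Real.sq_sqrt (show (0 : ℝ) ≤ (k.1 : ℝ) by linarith)
  have s2 := Real.sq_sqrt (show (0 : ℝ) ≤ (k.2.1 : ℝ) by linarith)
  have s3 := Real.sq_sqrt (show (0 : ℝ) ≤ (k.2.2 : ℝ) by linarith)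
  have p1 : 0 < √(k.1 : ℝ) := Real.sqrt_pos.2 (by linarith)
  have p2 : 0 < √(k.2.1 : ℝ) := Real.sqrt_pos.2 (by linarith)
  have p3 : 0 < √(k.2.2 : ℝ) := Real.sqrt_pos.2 (by linarith)
  unfold qf at hq'
  rw [← s1, ← s2, ← s3] at hq' hb'
  set x := √(k.1 : ℝ)
  set y := √(k.2.1 : ℝ)
  set z := √(k.2.2 : ℝ)
  have h3 : (2 * (x * y)) ^ 2 < (z ^ 2 - x ^ 2 - y ^ 2) ^ 2 := by nlinarith
  have h4 : 2 * (x * y) < z ^ 2 - x ^ 2 - y ^ 2 := lt_of_pow_lt_pow_left₀ 2 (by linarith) h3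
  have h5 : (x + y) ^ 2 < z ^ 2 := by nlinarith
  have h6 : x + y < z := lt_of_pow_lt_pow_left₀ 2 p3.le h5
  have h7 : x ^ 2 < (z - y) ^ 2 := by
    apply pow_lt_pow_left₀ _ p1.le (by norm_num)
    linarith
  unfold th x0
  change 0 < (z - y) ^ 2 - (k.1 : ℝ)
  have e1 : (k.1 : ℝ) = x ^ 2 := s1.symm
  rw [e1]
  linarith

/-- `cf · E3main` in terms of `Amp` (on the branch `q > 0`, `k₁+k₂ < k₃`, where `q = θ² + 4θ√(k₂k₃)`, `θ > 0`) -/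
theorem term_eq (T G : ℝ) (hT : 1 ≤ T) (k : ℕ × ℕ × ℕ) (h1 : 1 ≤ k.1) (h2 : 1 ≤ k.2.1) (hq : 0 < U6.q k)
    (hb : k.1 + k.2.1 < k.2.2) :
    0 < th k ∧ U6.t0 k = t0r (th k) k.2.1 k.2.2 ∧
    U6.cf k * U6.E3main T G k = ((√2 * (2 * Real.pi) ^ (-(1 / 4) : ℝ) * √T : ℝ) : ℂ) *
      cexp (-(I * (Real.pi / 4 : ℝ))) *
      (((-1) ^ k.1 * (U6.dv k.1 : ℂ) / (√(k.1 : ℝ) : ℂ)) * ((-1) ^ k.2.1 * (U6.dv k.2.1 : ℂ) / (√(k.2.1 : ℝ) : ℂ)) *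
        ((-1) ^ k.2.2 * (U6.dv k.2.2 : ℂ) / (√(k.2.2 : ℝ) : ℂ))) *
      ((Amp T G (th k) k.2.1 k.2.2 : ℝ) : ℂ) *
      (starRingEnd ℂ) (e (√(qf k.1 k.2.1 k.2.2) / 2)) := by
  have hth := Y2a_th_pos k h1 h2 hq hb
  have h1' : (1 : ℝ) ≤ k.1 := by exact_mod_cast h1
  have h2' : (1 : ℝ) ≤ k.2.1 := by exact_mod_cast h2
  have h3' : (1 : ℝ) ≤ k.2.2 := by
    have : (k.1 : ℝ) + k.2.1 < k.2.2 := by exact_mod_cast hb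
    linarith
  have hT0 : 0 < T := by linarith
  have hxt : x0 k.2.1 k.2.2 - th k = k.1 := by unfold th; ring
  have hqeq : ((U6.q k : ℤ) : ℝ) = th k ^ 2 + 4 * th k * √((k.2.1 : ℝ) * k.2.2) := by
    rw [Y2a_qf, qf_eq _ _ _ (by linarith) (by linarith)]
    rfl
  have ht0 : U6.t0 k = t0r (th k) k.2.1 k.2.2 := by
    unfold U6.t0 t0r
    rw [hqeq, hxt]
    congr 1
    ring
  refine ⟨hth, ht0, ?_⟩
  have hq0 : (0 : ℝ) < ((U6.q k : ℤ) : ℝ) := by exact_mod_cast hq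
  have ht0pos : 0 < U6.t0 k := by
    unfold U6.t0
    have : 0 < Real.pi := Real.pi_pos
    positivity
  -- amplitude
  have hAmp : √T * Amp T G (th k) k.2.1 k.2.2 = √(U6.t0 k) *
      Real.exp (-(√(U6.t0 k / T)) - √(T / U6.t0 k) - U6.ga G k / √(U6.t0 k)) := by
    unfold Amp U6.ga
    rw [← ht0, hxt, ← mul_assoc]
    congr 1
    rw [← Real.sqrt_mul hT0.le]
    congr 1
    field_simp
  have hpr : ((k.1 : ℝ) * k.2.1 * k.2.2) ^ (-(1 / 4) : ℝ) * ((k.1 : ℝ) * k.2.1 * k.2.2) ^ (-(1 / 4) : ℝ) =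
      (√(k.1 : ℝ))⁻¹ * (√(k.2.1 : ℝ))⁻¹ * (√(k.2.2 : ℝ))⁻¹ := by
    have hp : 0 < (k.1 : ℝ) * k.2.1 * k.2.2 := by positivity
    rw [← Real.rpow_add hp, show (-(1 / 4) + -(1 / 4) : ℝ) = -(1 / 2) by norm_num, Real.rpow_neg hp.le,
      ← Real.sqrt_eq_rpow, Real.sqrt_mul (by positivity), Real.sqrt_mul (by positivity), mul_inv, mul_inv]
  have hphase : cexp (-(I * ((Real.pi / 4 + Real.pi * √((U6.q k : ℤ) : ℝ) : ℝ) : ℂ))) =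
      cexp (-(I * (Real.pi / 4 : ℝ))) * (starRingEnd ℂ) (e (√(qf k.1 k.2.1 k.2.2) / 2)) := by
    rw [← e_neg, ← Y2a_qf]
    unfold e
    rw [← Complex.exp_add]
    congr 1
    push_cast
    ring
  unfold U6.cf U6.E3main
  rw [hphase]
  have e1 : ((√2 * (2 * Real.pi) ^ (-(1 / 4) : ℝ) * ((k.1 : ℝ) * k.2.1 * k.2.2) ^ (-(1 / 4) : ℝ) * √(U6.t0 k) *
      Real.exp (-(√(U6.t0 k / T)) - √(T / U6.t0 k) - U6.ga G k / √(U6.t0 k)) : ℝ)) =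
      (√2 * (2 * Real.pi) ^ (-(1 / 4) : ℝ) * √T) * Amp T G (th k) k.2.1 k.2.2 *
        ((k.1 : ℝ) * k.2.1 * k.2.2) ^ (-(1 / 4) : ℝ) := by
    calc _ = √2 * (2 * Real.pi) ^ (-(1 / 4) : ℝ) * ((k.1 : ℝ) * k.2.1 * k.2.2) ^ (-(1 / 4) : ℝ) *
          (√(U6.t0 k) * Real.exp (-(√(U6.t0 k / T)) - √(T / U6.t0 k) - U6.ga G k / √(U6.t0 k))) := by ring
      _ = _ := by rw [← hAmp]; ring
  rw [e1]
  have e2 : ((((k.1 : ℝ) * k.2.1 * k.2.2) ^ (-(1 / 4) : ℝ) : ℝ) : ℂ) *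
      ((((k.1 : ℝ) * k.2.1 * k.2.2) ^ (-(1 / 4) : ℝ) : ℝ) : ℂ) =
      (√(k.1 : ℝ) : ℂ)⁻¹ * (√(k.2.1 : ℝ) : ℂ)⁻¹ * (√(k.2.2 : ℝ) : ℂ)⁻¹ := by
    rw [← Complex.ofReal_mul, hpr]
    push_cast
    rfl
  rw [pow_add, pow_add]
  generalize cexp (-(I * (Real.pi / 4 : ℝ))) = c1
  generalize (starRingEnd ℂ) (e (√(qf k.1 k.2.1 k.2.2) / 2)) = c2
  generalize Amp T G (th k) k.2.1 k.2.2 = A
  generalize ((2 * Real.pi) ^ (-(1 / 4) : ℝ) : ℝ) = c3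
  generalize ((k.1 : ℝ) * k.2.1 * k.2.2) ^ (-(1 / 4) : ℝ) = c4 at e2 ⊢
  simp only [Complex.ofReal_mul, Nat.cast_mul, div_eq_mul_inv]
  linear_combination ((-1) ^ k.1 * (-1) ^ k.2.1 * (-1) ^ k.2.2 * ((U6.dv k.1 : ℂ) * U6.dv k.2.1 * U6.dv k.2.2) *
    ((√2 : ℝ) : ℂ) * (c3 : ℂ) * ((√T : ℝ) : ℂ) * ((A : ℝ) : ℂ) * c1 * c2) * e2

end TS
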