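import Pool.Agent.Lib.MP_39df77_nt.TS.Defs

/-!
Row TS-G1: support of the weights, number of regular triples.
-/

set_option autoImplicit false

namespace TS

open Finset

/-- the size conditions -/
private theorem G1_size {K R : ℝ} {L : ℕ} (hR : 1 ≤ R) (hL : 1 ≤ L)
    (hbig : 10 ^ 48 * ((L : ℝ) * R) ^ 11 ≤ K) : 10 ^ 48 * ((L : ℝ) * R) ≤ K ∧ 10 ^ 48 ≤ K := by
  have hL' : (1 : ℝ) ≤ L := by exact_mod_cast hL
  have h1 : 1 ≤ (L : ℝ) * R := by nlinarith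
  have h2 : (L : ℝ) * R ≤ ((L : ℝ) * R) ^ 11 := le_self_pow₀ h1 (by norm_num)
  have h3 : 10 ^ 48 * ((L : ℝ) * R) ≤ 10 ^ 48 * ((L : ℝ) * R) ^ 11 :=
    mul_le_mul_of_nonneg_left h2 (by norm_num)
  refine ⟨h3.trans hbig, ?_⟩
  nlinarith

/-- `√k₃ = √k₂ + √x0`, `K/2R ≤ x0 ≤ 3K/R + 4L ≤ 3.01 K/R` -/
theorem mem_Reg {K R Lam : ℝ} {L : ℕ} {W : ℝ → ℝ → ℝ → ℂ} (hR : 1 ≤ R) (hL : 1 ≤ L)
    (hbig : 10 ^ 48 * ((L : ℝ) * R) ^ 11 ≤ K) (hW : Wt K R L Lam W) {k1 k2 k3 : ℤ}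
    (hk2 : K ≤ k2) (hk2' : (k2 : ℝ) ≤ 2 * K) (hne : W (x0 k2 k3 - k1) k2 k3 ≠ 0) :
    (k1, k2, k3) ∈ Reg K R L := by
  obtain ⟨hs1, hs2⟩ := G1_size hR hL hbig
  obtain ⟨h1, h2, h3, h4, h5⟩ := hW.th _ _ _ hne
  have hL' : (1 : ℝ) ≤ L := by exact_mod_cast hL
  have hR0 : 0 < R := by linarith
  have hK0 : 0 < K := by linarith
  have h4' : K / (2 * R) ≤ k1 := by linarith
  have h5' : (k1 : ℝ) ≤ 3 * K / R := by linarith
  have hKR : K / R ≤ K := div_le_self hK0.le hR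
  have h3KR : 3 * K / R = 3 * (K / R) := by ring
  have h8KR : 8 * K / R = 8 * (K / R) := by ring
  have hK2R : K / (2 * R) = K / R / 2 := by
    rw [mul_comm, div_mul_eq_div_div]
  have hK4R : K / (4 * R) = K / R / 4 := by
    rw [mul_comm, div_mul_eq_div_div]
  have hKR0 : 0 < K / R := by positivity
  have hLKR : 4 * (L : ℝ) ≤ K / R / 100 := by
    rw [div_div, le_div_iff₀ (by positivity)]
    nlinarith
  have hx1 : x0 k2 k3 ≤ 3.01 * (K / R) := by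
    rw [h3KR] at h5'
    linarith
  have hx2 : K / R / 2 ≤ x0 k2 k3 := by
    rw [hK2R] at h4'
    linarith
  have hk20 : (0 : ℝ) ≤ k2 := by linarith
  have hk30 : (0 : ℝ) ≤ k3 := by linarith
  -- `k₃ ≤ 20K`
  have hk3 : (k3 : ℝ) ≤ 20 * K := by
    have e1 := Real.sq_sqrt hk20
    have e2 := Real.sq_sqrt hk30
    have hx3 : (√(k3 : ℝ) - √(k2 : ℝ)) ^ 2 ≤ 3.01 * K := by
      unfold x0 at hx1
      linarith
    -- `k₃ = (s + a)² ≤ 2 s² + 2 a²`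
    have : (k3 : ℝ) ≤ 2 * (√(k3 : ℝ) - √(k2 : ℝ)) ^ 2 + 2 * √(k2 : ℝ) ^ 2 := by
      nlinarith [sq_nonneg (√(k3 : ℝ) - 2 * √(k2 : ℝ))]
    linarith
  have h3' : k2 < k3 := by exact_mod_cast h3
  have hk1n : (0 : ℝ) ≤ k1 := by
    have : 0 ≤ K / (2 * R) := by positivity
    linarith
  unfold Reg ZZ
  rw [Finset.mem_filter]
  refine ⟨?_, by linarith, by linarith, h3', hk3, ?_, ?_, ?_, ?_⟩
  · rw [Finset.mem_product, Finset.mem_product, Finset.mem_Icc, Finset.mem_Icc, Finset.mem_Icc]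
    refine ⟨⟨by exact_mod_cast hk1n, Int.le_floor.2 ?_⟩, ⟨by exact_mod_cast hk20, Int.le_floor.2 ?_⟩,
      ⟨by exact_mod_cast hk30, Int.le_floor.2 ?_⟩⟩
    · rw [h3KR] at h5'
      show (k1 : ℝ) ≤ 25 * K
      linarith
    · show (k2 : ℝ) ≤ 25 * K
      linarith
    · show (k3 : ℝ) ≤ 25 * K
      linarith
  · show K / (4 * R) ≤ x0 k2 k3
    rw [hK4R]; linarith
  · show x0 k2 k3 ≤ 8 * K / R
    rw [h8KR]; linarith
  · show (L : ℝ) / 2 ≤ x0 k2 k3 - k1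
    linarith
  · show x0 k2 k3 - k1 ≤ 6 * L
    linarith

/-- `k₃ - k₂ = (√k₃-√k₂)(√k₃+√k₂) ≤ √(8K/R) · 2√(20K)`, `k₁` in an interval of length `6L` -/
theorem card_Reg : ∃ C : ℝ, 1 ≤ C ∧ ∀ (K R : ℝ) (L : ℕ), 1 ≤ R → 1 ≤ L → 10 ^ 48 * ((L : ℝ) * R) ^ 11 ≤ K →
    ((Reg K R L).card : ℝ) ≤ C * (K ^ 2 * L / √R) := by
  refine ⟨26 * 26 * 7, by norm_num, ?_⟩
  intro K R L hR hL hbig
  obtain ⟨hs1, hs2⟩ := G1_size hR hL hbig
  have hL' : (1 : ℝ) ≤ L := by exact_mod_cast hL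
  have hR0 : 0 < R := by linarith
  have hK0 : 0 < K := by linarith
  have hsR : 0 < √R := Real.sqrt_pos.2 hR0
  have hsR2 : √R ^ 2 = R := Real.sq_sqrt hR0.le
  set D : ℝ := 26 * K / √R with hD
  have hD0 : 0 < D := by positivity
  let A : Finset (ℤ × ℤ × ℤ) := Icc 0 ⌊25 * K⌋ ×ˢ Icc 1 ⌊D⌋ ×ˢ Icc 0 (6 * (L : ℤ))
  let g : ℤ × ℤ × ℤ → ℤ × ℤ × ℤ := fun t =>
    (⌊x0 (t.1 : ℝ) ((t.1 + t.2.1 : ℤ) : ℝ)⌋ - t.2.2, t.1, t.1 + t.2.1)
  have hsub : Reg K R L ⊆ A.image g := by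
    rintro ⟨k1, k2, k3⟩ hk
    unfold Reg at hk
    rw [Finset.mem_filter] at hk
    obtain ⟨hz, h1, h2, h3, h4, h5, h6, h7, h8⟩ := hk
    simp only at h1 h2 h3 h4 h5 h6 h7 h8
    rw [Finset.mem_product, Finset.mem_product] at hz
    have hz2 : k2 ∈ ZZ K := hz.2.1
    rw [Finset.mem_image]
    refine ⟨(k2, k3 - k2, ⌊x0 (k2 : ℝ) (k3 : ℝ)⌋ - k1), ?_, ?_⟩
    · show (k2, k3 - k2, ⌊x0 (k2 : ℝ) (k3 : ℝ)⌋ - k1) ∈ Icc 0 ⌊25 * K⌋ ×ˢ Icc 1 ⌊D⌋ ×ˢ Icc 0 (6 * (L : ℤ))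
      rw [Finset.mem_product, Finset.mem_product]
      refine ⟨hz2, ?_, ?_⟩
      · show k3 - k2 ∈ Icc 1 ⌊D⌋
        rw [Finset.mem_Icc]
        refine ⟨by omega, Int.le_floor.2 ?_⟩
        have hk20 : (0 : ℝ) ≤ k2 := by linarith
        have h3' : (k2 : ℝ) < k3 := by exact_mod_cast h3
        have hk30 : (0 : ℝ) ≤ k3 := by linarith
        have e1 := Real.sq_sqrt hk20
        have e2 := Real.sq_sqrt hk30
        have hs23 : √(k2 : ℝ) ≤ √(k3 : ℝ) := Real.sqrt_le_sqrt h3'.le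
        have hs2n : 0 ≤ √(k2 : ℝ) := Real.sqrt_nonneg _
        push_cast
        have e3 : (k3 : ℝ) - k2 = (√(k3 : ℝ) - √(k2 : ℝ)) * (√(k3 : ℝ) + √(k2 : ℝ)) := by
          nlinarith
        have h6' : (√(k3 : ℝ) - √(k2 : ℝ)) ^ 2 ≤ 8 * K / R := h6
        -- squares
        have e4 : ((k3 : ℝ) - k2) ^ 2 ≤ D ^ 2 := by
          have a1 : (√(k3 : ℝ) + √(k2 : ℝ)) ^ 2 ≤ 80 * K := by
            nlinarith [sq_nonneg (√(k3 : ℝ) - √(k2 : ℝ))]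
          have a2 : ((k3 : ℝ) - k2) ^ 2 = (√(k3 : ℝ) - √(k2 : ℝ)) ^ 2 * (√(k3 : ℝ) + √(k2 : ℝ)) ^ 2 := by
            rw [e3]; ring
          have a3 : D ^ 2 = 676 * K ^ 2 / R := by
            rw [hD, div_pow, hsR2]; ring
          rw [a2, a3]
          calc (√(k3 : ℝ) - √(k2 : ℝ)) ^ 2 * (√(k3 : ℝ) + √(k2 : ℝ)) ^ 2
              ≤ (8 * K / R) * (80 * K) := by
                apply mul_le_mul h6' a1 (sq_nonneg _) (by positivity)
            _ = 640 * K ^ 2 / R := by ring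
            _ ≤ 676 * K ^ 2 / R := by
                apply div_le_div_of_nonneg_right _ hR0.le
                nlinarith [sq_nonneg K]
        exact (pow_le_pow_iff_left₀ (by linarith) hD0.le (by norm_num)).1 e4
      · show ⌊x0 (k2 : ℝ) (k3 : ℝ)⌋ - k1 ∈ Icc 0 (6 * (L : ℤ))
        rw [Finset.mem_Icc]
        have e5 : ⌊x0 (k2 : ℝ) (k3 : ℝ)⌋ - k1 = ⌊x0 (k2 : ℝ) (k3 : ℝ) - k1⌋ := by
          rw [Int.floor_sub_intCast]
        rw [e5]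
        constructor
        · apply Int.floor_nonneg.2
          linarith
        · have : ((⌊x0 (k2 : ℝ) (k3 : ℝ) - k1⌋ : ℤ) : ℝ) ≤ ((6 * (L : ℤ) : ℤ) : ℝ) := by
            push_cast
            exact (Int.floor_le _).trans h8
          exact_mod_cast this
    · show (⌊x0 (k2 : ℝ) ((k2 + (k3 - k2) : ℤ) : ℝ)⌋ - (⌊x0 (k2 : ℝ) (k3 : ℝ)⌋ - k1), k2, k2 + (k3 - k2)) =
        (k1, k2, k3)
      have e6 : k2 + (k3 - k2) = k3 := by ring
      rw [e6]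
      have e7 : ⌊x0 (k2 : ℝ) (k3 : ℝ)⌋ - (⌊x0 (k2 : ℝ) (k3 : ℝ)⌋ - k1) = k1 := by ring
      rw [e7]
  have hcard : ((Reg K R L).card : ℝ) ≤ (A.card : ℝ) := by
    exact_mod_cast (Finset.card_le_card hsub).trans Finset.card_image_le
  have hA : (A.card : ℝ) = ((Icc (0 : ℤ) ⌊25 * K⌋).card : ℝ) * (((Icc (1 : ℤ) ⌊D⌋).card : ℝ) *
      ((Icc (0 : ℤ) (6 * (L : ℤ))).card : ℝ)) := by
    show (((Icc (0 : ℤ) ⌊25 * K⌋ ×ˢ Icc (1 : ℤ) ⌊D⌋ ×ˢ Icc (0 : ℤ) (6 * (L : ℤ))).card : ℕ) : ℝ) = _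
    rw [Finset.card_product, Finset.card_product]
    push_cast
    ring
  have b1 : ((Icc (0 : ℤ) ⌊25 * K⌋).card : ℝ) ≤ 26 * K := by
    rw [Int.card_Icc]
    have hfl : (0 : ℤ) ≤ ⌊25 * K⌋ := Int.floor_nonneg.2 (by positivity)
    have : (((⌊25 * K⌋ + 1 - 0).toNat : ℕ) : ℝ) = (⌊25 * K⌋ : ℝ) + 1 := by
      have : (((⌊25 * K⌋ + 1 - 0).toNat : ℕ) : ℤ) = ⌊25 * K⌋ + 1 := by
        rw [Int.toNat_of_nonneg (by linarith)]; ring
      exact_mod_cast this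
    rw [this]
    linarith [Int.floor_le (25 * K)]
  have b2 : ((Icc (1 : ℤ) ⌊D⌋).card : ℝ) ≤ D := by
    rw [Int.card_Icc]
    have hfl : (0 : ℤ) ≤ ⌊D⌋ := Int.floor_nonneg.2 hD0.le
    have : (((⌊D⌋ + 1 - 1).toNat : ℕ) : ℝ) = (⌊D⌋ : ℝ) := by
      have : (((⌊D⌋ + 1 - 1).toNat : ℕ) : ℤ) = ⌊D⌋ := by
        rw [Int.toNat_of_nonneg (by linarith)]; ring
      exact_mod_cast this
    rw [this]
    exact Int.floor_le D
  have b3 : ((Icc (0 : ℤ) (6 * (L : ℤ))).card : ℝ) ≤ 7 * L := by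
    rw [Int.card_Icc]
    have : (((6 * (L : ℤ) + 1 - 0).toNat : ℕ) : ℝ) = 6 * (L : ℝ) + 1 := by
      have : (((6 * (L : ℤ) + 1 - 0).toNat : ℕ) : ℤ) = 6 * (L : ℤ) + 1 := by
        rw [Int.toNat_of_nonneg (by omega)]; ring
      exact_mod_cast this
    rw [this]
    linarith
  calc ((Reg K R L).card : ℝ) ≤ (A.card : ℝ) := hcard
    _ = _ := hA
    _ ≤ 26 * K * (D * (7 * L)) := by
        apply mul_le_mul b1 _ (mul_nonneg (Nat.cast_nonneg _) (Nat.cast_nonneg _)) (by positivity)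
        exact mul_le_mul b2 b3 (Nat.cast_nonneg _) hD0.le
    _ = 26 * 26 * 7 * (K ^ 2 * L / √R) := by
        rw [hD]; ring

/-- `√(k₂+e₂) - √k₂ = (√(k₃+e₃) - √k₃) - (√x0' - √x0)`, `|x0' - x0| ≤ 3L`, `x0 ≥ K/2R` -/
theorem e2_small {K R Lam : ℝ} {L : ℕ} {W : ℝ → ℝ → ℝ → ℂ} (hR : 1 ≤ R) (hL : 1 ≤ L)
    (hbig : 10 ^ 48 * ((L : ℝ) * R) ^ 11 ≤ K) (hW : Wt K R L Lam W) {k1 k2 k3 e2 e3 : ℤ}
    (hk2 : K ≤ k2) (hk2' : (k2 : ℝ) ≤ 2 * K) (hk : K ≤ ((k2 + e2 : ℤ) : ℝ)) (hk' : ((k2 + e2 : ℤ) : ℝ) ≤ 2 * K)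
    (he3 : |(e3 : ℝ)| ≤ L) (hne : W (x0 k2 k3 - k1) k2 k3 ≠ 0)
    (hne' : W (x0 (k2 + e2 : ℤ) (k3 + e3 : ℤ) - k1) (k2 + e2 : ℤ) (k3 + e3 : ℤ) ≠ 0) :
    |(e2 : ℝ)| ≤ 10 * L * √R := by
  obtain ⟨hs1, hs2⟩ := G1_size hR hL hbig
  have hL' : (1 : ℝ) ≤ L := by exact_mod_cast hL
  have hR0 : 0 < R := by linarith
  have hK0 : 0 < K := by linarith
  obtain ⟨h1, h2, h3, h4, h5⟩ := hW.th _ _ _ hne
  obtain ⟨g1, g2, g3, g4, g5⟩ := hW.th _ _ _ hne'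
  have hsK : 0 < √K := Real.sqrt_pos.2 hK0
  have hsK2 : √K ^ 2 = K := Real.sq_sqrt hK0.le
  have hsR1 : 1 ≤ √R := by
    rw [Real.one_le_sqrt]; exact hR
  have hsR2 : √R ^ 2 = R := Real.sq_sqrt hR0.le
  set a : ℝ := √(k2 : ℝ) with ha
  set b : ℝ := √(k3 : ℝ) with hb
  set a' : ℝ := √((k2 + e2 : ℤ) : ℝ) with ha'
  set b' : ℝ := √((k3 + e3 : ℤ) : ℝ) with hb'
  have hk30 : K ≤ (k3 : ℝ) := by linarith
  have hk30' : K ≤ ((k3 + e3 : ℤ) : ℝ) := by linarith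
  have ea : a ^ 2 = k2 := Real.sq_sqrt (by linarith)
  have eb : b ^ 2 = k3 := Real.sq_sqrt (by linarith)
  have ea' : a' ^ 2 = k2 + e2 := by
    rw [ha', Real.sq_sqrt (by linarith)]; push_cast; ring
  have eb' : b' ^ 2 = k3 + e3 := by
    rw [hb', Real.sq_sqrt (by linarith)]; push_cast; ring
  have haK : √K ≤ a := Real.sqrt_le_sqrt hk2
  have hbK : √K ≤ b := Real.sqrt_le_sqrt hk30
  have haK' : √K ≤ a' := Real.sqrt_le_sqrt hk
  have hbK' : √K ≤ b' := Real.sqrt_le_sqrt hk30'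
  have hab : a < b := Real.sqrt_lt_sqrt (by linarith) h3
  have hab' : a' < b' := Real.sqrt_lt_sqrt (by linarith) g3
  have haU : a ≤ 1.4143 * √K := by
    have : a ^ 2 ≤ (1.4143 * √K) ^ 2 := by
      rw [ea, mul_pow, hsK2]; nlinarith
    exact (pow_le_pow_iff_left₀ (by positivity) (by positivity) (by norm_num)).1 this
  have haU' : a' ≤ 1.4143 * √K := by
    have : a' ^ 2 ≤ (1.4143 * √K) ^ 2 := by
      rw [ha', Real.sq_sqrt (by linarith), mul_pow, hsK2]; nlinarith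
    exact (pow_le_pow_iff_left₀ (by positivity) (by positivity) (by norm_num)).1 this
  have hx : x0 k2 k3 = (b - a) ^ 2 := rfl
  have hx' : x0 ((k2 + e2 : ℤ) : ℝ) ((k3 + e3 : ℤ) : ℝ) = (b' - a') ^ 2 := rfl
  rw [hx] at h1 h2 h4 h5
  rw [hx'] at g1 g2 g4 g5
  -- lower bound `b - a ≥ 0.7071 √K / √R`
  have hlow : K / (2 * R) ≤ (b - a) ^ 2 := by linarith
  have hlow' : K / (2 * R) ≤ (b' - a') ^ 2 := by linarith
  have hsq : (0.7071 * √K / √R) ^ 2 ≤ K / (2 * R) := by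
    rw [div_pow, mul_pow, hsK2, hsR2, div_le_div_iff₀ (by positivity) (by positivity)]
    have hKR0 : 0 ≤ K * R := by positivity
    calc 0.7071 ^ 2 * K * (2 * R) = (0.7071 ^ 2 * 2) * (K * R) := by ring
      _ ≤ 1 * (K * R) := mul_le_mul_of_nonneg_right (by norm_num) hKR0
      _ = K * R := by ring
  have hl1 : 0.7071 * √K / √R ≤ b - a :=
    (pow_le_pow_iff_left₀ (by positivity) (by linarith) (by norm_num)).1 (hsq.trans hlow)
  have hl2 : 0.7071 * √K / √R ≤ b' - a' :=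
    (pow_le_pow_iff_left₀ (by positivity) (by linarith) (by norm_num)).1 (hsq.trans hlow')
  -- `|(b'-a') - (b-a)| ≤ 3L / (1.4142 √K/√R)`
  have hd1 : |(b' - a') - (b - a)| * (1.4142 * √K / √R) ≤ 3 * L := by
    have e1 : |(b' - a') - (b - a)| * ((b' - a') + (b - a)) = |(b' - a') ^ 2 - (b - a) ^ 2| := by
      have e0 : (b' - a') ^ 2 - (b - a) ^ 2 = ((b' - a') - (b - a)) * ((b' - a') + (b - a)) := by ring
      rw [e0, abs_mul, abs_of_nonneg (show 0 ≤ (b' - a') + (b - a) by linarith)]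
    have e2 : |(b' - a') ^ 2 - (b - a) ^ 2| ≤ 3 * L := by
      rw [abs_le]; constructor <;> linarith
    have e3 : 1.4142 * √K / √R ≤ (b' - a') + (b - a) := by
      have : 1.4142 * √K / √R = 0.7071 * √K / √R + 0.7071 * √K / √R := by ring
      rw [this]; linarith
    calc |(b' - a') - (b - a)| * (1.4142 * √K / √R) ≤ |(b' - a') - (b - a)| * ((b' - a') + (b - a)) :=
          mul_le_mul_of_nonneg_left e3 (abs_nonneg _)
      _ = _ := e1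
      _ ≤ _ := e2
  have hd2 : |b' - b| * (2 * √K) ≤ L := by
    have e1 : |b' - b| * (b' + b) = |(e3 : ℝ)| := by
      have e0 : (e3 : ℝ) = (b' - b) * (b' + b) := by
        have : (b' - b) * (b' + b) = b' ^ 2 - b ^ 2 := by ring
        rw [this]; linarith
      rw [e0, abs_mul, abs_of_nonneg (show 0 ≤ b' + b by linarith)]
    calc |b' - b| * (2 * √K) ≤ |b' - b| * (b' + b) :=
          mul_le_mul_of_nonneg_left (by linarith) (abs_nonneg _)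
      _ = _ := e1
      _ ≤ _ := he3
  have hd3 : |a' - a| ≤ |b' - b| + |(b' - a') - (b - a)| := by
    have : a' - a = (b' - b) - ((b' - a') - (b - a)) := by ring
    rw [this]
    exact abs_sub _ _
  have hd4 : |(e2 : ℝ)| = |a' - a| * (a' + a) := by
    have e0 : (e2 : ℝ) = (a' - a) * (a' + a) := by
      have : (a' - a) * (a' + a) = a' ^ 2 - a ^ 2 := by ring
      rw [this]; linarith
    rw [e0, abs_mul, abs_of_nonneg (show 0 ≤ a' + a by linarith)]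
  have hd5 : |(e2 : ℝ)| ≤ |a' - a| * (2.8286 * √K) := by
    rw [hd4]
    exact mul_le_mul_of_nonneg_left (by linarith) (abs_nonneg _)
  have hd6 : |(b' - a') - (b - a)| * √K ≤ 2.1214 * L * √R := by
    have e1 : |(b' - a') - (b - a)| * (1.4142 * √K / √R) * √R ≤ 3 * L * √R :=
      mul_le_mul_of_nonneg_right hd1 (by positivity)
    have e2 : |(b' - a') - (b - a)| * (1.4142 * √K / √R) * √R =
        1.4142 * (|(b' - a') - (b - a)| * √K) := by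
      field_simp
    rw [e2] at e1
    have e3 : 0 ≤ (L : ℝ) * √R := by positivity
    linarith
  have hLR : (L : ℝ) ≤ L * √R := le_mul_of_one_le_right (by linarith) hsR1
  calc |(e2 : ℝ)| ≤ |a' - a| * (2.8286 * √K) := hd5
    _ ≤ (|b' - b| + |(b' - a') - (b - a)|) * (2.8286 * √K) :=
        mul_le_mul_of_nonneg_right hd3 (by positivity)
    _ = 1.4143 * (|b' - b| * (2 * √K)) + 2.8286 * (|(b' - a') - (b - a)| * √K) := by ring
    _ ≤ 1.4143 * L + 2.8286 * (2.1214 * L * √R) := by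
        apply add_le_add
        · exact mul_le_mul_of_nonneg_left hd2 (by norm_num)
        · exact mul_le_mul_of_nonneg_left hd6 (by norm_num)
    _ ≤ 10 * L * √R := by nlinarith

end TS
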