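import Pool.Agent.Lib.MP_39df77_nt.TS.CS
import Pool.Agent.Lib.MP_39df77_nt.TS.Geo1

/-!
Row TS-Z1: parameters; reduction to `Te`.
-/

set_option autoImplicit false

namespace TS

open Finset

namespace Z1

theorem basic {K R : ℝ} {L : ℕ} (hR : 1 ≤ R) (hL : 1 ≤ L) (hbig : 10 ^ 48 * ((L : ℝ) * R) ^ 11 ≤ K) :
    10 ^ 48 ≤ K ∧ 10 ^ 48 * (L * R) ≤ K ∧ (L : ℝ) ^ 3 ≤ K ∧ (L : ℝ) ≤ K ∧ R ≤ K := by
  have hL' : (1 : ℝ) ≤ L := by exact_mod_cast hL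
  have hLR : 1 ≤ (L : ℝ) * R := by nlinarith
  have h1 : (1 : ℝ) ≤ ((L : ℝ) * R) ^ 11 := one_le_pow₀ hLR
  have h2 : (L : ℝ) * R ≤ ((L : ℝ) * R) ^ 11 := le_self_pow₀ hLR (by norm_num)
  have h3 : ((L : ℝ) * R) ^ 3 ≤ ((L : ℝ) * R) ^ 11 := pow_le_pow_right₀ hLR (by norm_num)
  have h4 : (L : ℝ) ^ 3 ≤ ((L : ℝ) * R) ^ 3 := by
    apply pow_le_pow_left₀ (by positivity)
    nlinarith
  have h5 : (L : ℝ) ≤ (L : ℝ) * R := by nlinarith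
  have h6 : R ≤ (L : ℝ) * R := by nlinarith
  refine ⟨by nlinarith, by nlinarith, by nlinarith, by nlinarith, by nlinarith⟩

end Z1

/-- parameters exist: `M = ⌈K^{1/4} L^{-3/4}⌉`, `B = ⌊K^{3/4} L^{-1/4} R^{-1/2} / 1000⌋` -/
theorem exists_par {K R : ℝ} {L : ℕ} (hR : 1 ≤ R) (hL : 1 ≤ L) (hbig : 10 ^ 48 * ((L : ℝ) * R) ^ 11 ≤ K) :
    ∃ M B : ℕ, Par K R L M B := by
  obtain ⟨hK48, hKLR, hK3, hLK, hRK⟩ := Z1.basic hR hL hbig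
  have hL' : (1 : ℝ) ≤ L := by exact_mod_cast hL
  have hK1 : 1 ≤ K := by linarith [show (1 : ℝ) ≤ 10 ^ 48 by norm_num]
  have hsL : 1 ≤ √(L : ℝ) := by rw [Real.one_le_sqrt]; exact hL'
  have hsK : 10 ^ 24 ≤ √K := by
    apply Real.le_sqrt_of_sq_le
    norm_num at hK48 ⊢
    exact hK48
  have hLL : √(L : ℝ) * √(L : ℝ) = L := Real.mul_self_sqrt (by linarith)
  -- M
  set t : ℝ := √(√K / (L * √(L : ℝ))) with ht
  have hden : 0 < (L : ℝ) * √(L : ℝ) := by positivity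
  have ht2 : t ^ 2 = √K / (L * √(L : ℝ)) := Real.sq_sqrt (by positivity)
  have ht2' : L * √(L : ℝ) * t ^ 2 = √K := by
    rw [ht2]; field_simp
  have hLsK : (L : ℝ) * √(L : ℝ) ≤ √K := by
    apply Real.le_sqrt_of_sq_le
    calc ((L : ℝ) * √(L : ℝ)) ^ 2 = L ^ 2 * (√(L : ℝ) * √(L : ℝ)) := by ring
      _ = (L : ℝ) ^ 3 := by rw [hLL]; ring
      _ ≤ K := hK3
  have ht1 : 1 ≤ t := by
    rw [ht, Real.one_le_sqrt, one_le_div hden]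
    exact hLsK
  -- B
  have hden2 : 0 < 10 ^ 6 * (√(L : ℝ) * R) := by positivity
  set s : ℝ := √(K * √K / (10 ^ 6 * (√(L : ℝ) * R))) with hs
  have hs2 : s ^ 2 = K * √K / (10 ^ 6 * (√(L : ℝ) * R)) := Real.sq_sqrt (by positivity)
  have hs2' : 10 ^ 6 * (s ^ 2 * √(L : ℝ) * R) = K * √K := by
    rw [hs2]; field_simp
  have hsLL : √(L : ℝ) ≤ L := by nlinarith
  have hs1 : 2 ≤ s := by
    rw [hs]
    apply Real.le_sqrt_of_sq_le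
    rw [le_div_iff₀ hden2]
    have h1 : √(L : ℝ) * R ≤ L * R := mul_le_mul_of_nonneg_right hsLL (by linarith)
    have h2 : K ≤ K * √K := by nlinarith
    nlinarith
  refine ⟨⌈t⌉₊, ⌊s⌋₊, hR, hL, hbig, ?_, ?_, ?_, ?_⟩
  · rw [← ht2']
    have h1 : t ≤ (⌈t⌉₊ : ℝ) := Nat.le_ceil t
    have h2 : t ^ 2 ≤ (⌈t⌉₊ : ℝ) ^ 2 := pow_le_pow_left₀ (by linarith) h1 2
    exact mul_le_mul_of_nonneg_left h2 hden.le
  · rw [← ht2']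
    have h1 : (⌈t⌉₊ : ℝ) ≤ 2 * t := by
      have := (Nat.ceil_lt_add_one (by linarith : (0 : ℝ) ≤ t)).le
      linarith
    have h2 : (⌈t⌉₊ : ℝ) ^ 2 ≤ (2 * t) ^ 2 := pow_le_pow_left₀ (by positivity) h1 2
    have h3 := mul_le_mul_of_nonneg_left h2 hden.le
    calc (L : ℝ) * √(L : ℝ) * (⌈t⌉₊ : ℝ) ^ 2 ≤ L * √(L : ℝ) * (2 * t) ^ 2 := h3
      _ = 4 * (L * √(L : ℝ) * t ^ 2) := by ring
  · rw [← hs2']
    have h1 : (⌊s⌋₊ : ℝ) ≤ s := Nat.floor_le (by linarith)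
    have h2 : (⌊s⌋₊ : ℝ) ^ 2 ≤ s ^ 2 := pow_le_pow_left₀ (by positivity) h1 2
    have h3 : (⌊s⌋₊ : ℝ) ^ 2 * √(L : ℝ) * R ≤ s ^ 2 * √(L : ℝ) * R := by gcongr
    linarith
  · rw [← hs2']
    have h1 : s / 2 ≤ (⌊s⌋₊ : ℝ) := by
      have := (Nat.lt_floor_add_one s).le
      linarith
    have h2 : (s / 2) ^ 2 ≤ (⌊s⌋₊ : ℝ) ^ 2 := pow_le_pow_left₀ (by linarith) h1 2
    have h3 : (s / 2) ^ 2 * √(L : ℝ) * R ≤ (⌊s⌋₊ : ℝ) ^ 2 * √(L : ℝ) * R := by gcongr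
    have h4 : 0 ≤ s ^ 2 * √(L : ℝ) * R := by positivity
    nlinarith

/-- Cauchy-Schwarz: `cs_abs` with `Z1 = {k₁ ∈ ZZ K : k₁ ≤ 3K/R}` (`W ≠ 0` implies `k₁ ≤ 3K/R`), `Z2 = Z3 = ZZ K`,
`nb ≤ 26K/L + 1`; then the sum over `Z1` is `Te`; the terms with `|e₂| > 10L√R` vanish (`e2_small`). -/
theorem reduce : ∃ C : ℝ, 1 ≤ C ∧ ∀ (K R Lam : ℝ) (L : ℕ) (a b c : ℤ → ℂ) (W : ℝ → ℝ → ℝ → ℂ), 1 ≤ R → 1 ≤ L →
    10 ^ 48 * ((L : ℝ) * R) ^ 11 ≤ K → Wt K R L Lam W → (∀ k, ‖a k‖ ≤ 1) → (∀ k, ‖b k‖ ≤ 1) →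
    (∀ k, ‖c k‖ ≤ 1) → (∀ k : ℤ, b k ≠ 0 → K ≤ k ∧ (k : ℝ) ≤ 2 * K) →
    ∃ β γ : ℤ × ℤ → ℤ → ℂ, (∀ z k, ‖β z k‖ ≤ 1) ∧ (∀ z k, ‖γ z k‖ ≤ 1) ∧
      (∀ z (k : ℤ), β z k ≠ 0 → K ≤ k ∧ (k : ℝ) ≤ 2 * K ∧ K ≤ ((k + z.1 : ℤ) : ℝ) ∧
        ((k + z.1 : ℤ) : ℝ) ≤ 2 * K) ∧
      ‖∑ k1 ∈ ZZ K, ∑ k2 ∈ ZZ K, ∑ k3 ∈ ZZ K, a k1 * b k2 * c k3 *
        (W (x0 k2 k3 - k1) k2 k3 * e (√(qf k1 k2 k3) / 2))‖ ^ 2 ≤
        C * (K ^ 2 / (R * L)) * ∑ z ∈ E2 R L ×ˢ E3s L, ‖Te K W (β z) (γ z) z.1 z.2‖ := by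
  classical
  refine ⟨104, by norm_num, ?_⟩
  intro K R Lam L a b c W hR hL hbig hW ha hb hc hbs
  obtain ⟨hK48, hKLR, hK3, hLK, hRK⟩ := Z1.basic hR hL hbig
  have hL' : (1 : ℝ) ≤ L := by exact_mod_cast hL
  have hL0 : (0 : ℤ) < L := by exact_mod_cast hL
  have hK1 : 1 ≤ K := by linarith [show (1 : ℝ) ≤ 10 ^ 48 by norm_num]
  set N : ℤ := ⌊25 * K⌋ with hN
  have hN0 : 0 ≤ N := Int.floor_nonneg.mpr (by linarith)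
  have hNK : (N : ℝ) ≤ 25 * K := Int.floor_le _
  set Z1s : Finset ℤ := (ZZ K).filter (fun k => (k : ℝ) ≤ 3 * K / R) with hZ1s
  set Φ : ℤ → ℤ → ℤ → ℂ := fun k1 k2 k3 => W (x0 k2 k3 - k1) k2 k3 * e (√(qf k1 k2 k3) / 2) with hΦ
  -- support of `W`
  have hsup : ∀ k1 k2 k3 : ℤ, W (x0 k2 k3 - k1) k2 k3 ≠ 0 → (k1 : ℝ) ≤ 3 * K / R := by
    intro k1 k2 k3 hne
    have := (hW.th _ _ _ hne).2.2.2.2
    linarith
  -- number of classes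
  have hnbc : ((ZZ K).image (fun k => k / (L : ℤ))).card ≤ (N / (L : ℤ) + 1).toNat := by
    have hsub : (ZZ K).image (fun k => k / (L : ℤ)) ⊆ Icc 0 (N / (L : ℤ)) := by
      intro x hx
      rw [Finset.mem_image] at hx
      obtain ⟨k, hk, rfl⟩ := hx
      unfold ZZ at hk
      rw [Finset.mem_Icc] at hk ⊢
      exact ⟨Int.ediv_nonneg hk.1 hL0.le, Int.ediv_le_ediv hL0 hk.2⟩
    refine (Finset.card_le_card hsub).trans ?_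
    rw [Int.card_Icc]
    apply le_of_eq
    congr 1
    ring
  have hD : ∀ k ∈ ZZ K, ∀ k' ∈ ZZ K, k' - k ∈ Icc (-N) N := by
    intro k hk k' hk'
    unfold ZZ at hk hk'
    rw [Finset.mem_Icc] at hk hk' ⊢
    constructor <;> omega
  obtain ⟨β, γ, hβ, hγ, hβs, hmain⟩ := cs_abs Z1s (ZZ K) (ZZ K) (Icc (-N) N) L (N / (L : ℤ) + 1).toNat hL
    hnbc hD a b c ha hb hc Φ
  have hβs' : ∀ (z : ℤ × ℤ) (k : ℤ), β z k ≠ 0 → K ≤ k ∧ (k : ℝ) ≤ 2 * K ∧ K ≤ ((k + z.1 : ℤ) : ℝ) ∧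
        ((k + z.1 : ℤ) : ℝ) ≤ 2 * K := by
    intro z k hne
    obtain ⟨h1, h2⟩ := hβs z k hne
    obtain ⟨h3, h4⟩ := hbs k h1
    obtain ⟨h5, h6⟩ := hbs _ h2
    exact ⟨h3, h4, h5, h6⟩
  refine ⟨β, γ, hβ, hγ, hβs', ?_⟩
  -- left side
  have hleft : ∑ k1 ∈ ZZ K, ∑ k2 ∈ ZZ K, ∑ k3 ∈ ZZ K, a k1 * b k2 * c k3 *
        (W (x0 k2 k3 - k1) k2 k3 * e (√(qf k1 k2 k3) / 2)) =
      ∑ k1 ∈ Z1s, ∑ k2 ∈ ZZ K, ∑ k3 ∈ ZZ K, a k1 * b k2 * c k3 * Φ k1 k2 k3 := by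
    rw [hZ1s, Finset.sum_filter]
    refine Finset.sum_congr rfl fun k1 _ => ?_
    split_ifs with h
    · rfl
    · refine Finset.sum_eq_zero fun k2 _ => Finset.sum_eq_zero fun k3 _ => ?_
      have : W (x0 k2 k3 - k1) k2 k3 = 0 := by
        by_contra hne
        exact h (hsup k1 k2 k3 hne)
      rw [this]
      ring
  rw [hleft]
  -- right side
  have hright : ∀ z : ℤ × ℤ, ∑ k1 ∈ Z1s, ∑ k2 ∈ ZZ K, ∑ k3 ∈ ZZ K, β z k2 * γ z k3 *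
            (Φ k1 k2 k3 * (starRingEnd ℂ) (Φ k1 (k2 + z.1) (k3 + z.2))) =
      Te K W (β z) (γ z) z.1 z.2 := by
    intro z
    unfold Te
    rw [hZ1s, Finset.sum_filter]
    refine Finset.sum_congr rfl fun k1 _ => ?_
    split_ifs with h
    · rfl
    · symm
      refine Finset.sum_eq_zero fun k2 _ => Finset.sum_eq_zero fun k3 _ => ?_
      have : W (x0 k2 k3 - k1) k2 k3 = 0 := by
        by_contra hne
        exact h (hsup k1 k2 k3 hne)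
      rw [this]
      ring
  have hsum : ∑ z ∈ Icc (-N) N ×ˢ Ioo (-(L : ℤ)) L,
          ‖∑ k1 ∈ Z1s, ∑ k2 ∈ ZZ K, ∑ k3 ∈ ZZ K, β z k2 * γ z k3 *
            (Φ k1 k2 k3 * (starRingEnd ℂ) (Φ k1 (k2 + z.1) (k3 + z.2)))‖ ≤
      ∑ z ∈ E2 R L ×ˢ E3s L, ‖Te K W (β z) (γ z) z.1 z.2‖ := by
    have h1 : ∑ z ∈ Icc (-N) N ×ˢ Ioo (-(L : ℤ)) L,
          ‖∑ k1 ∈ Z1s, ∑ k2 ∈ ZZ K, ∑ k3 ∈ ZZ K, β z k2 * γ z k3 *
            (Φ k1 k2 k3 * (starRingEnd ℂ) (Φ k1 (k2 + z.1) (k3 + z.2)))‖ =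
        ∑ z ∈ Icc (-N) N ×ˢ Ioo (-(L : ℤ)) L, ‖Te K W (β z) (γ z) z.1 z.2‖ :=
      Finset.sum_congr rfl fun z _ => by rw [hright z]
    rw [h1]
    have hfil : ∀ z ∈ Icc (-N) N ×ˢ Ioo (-(L : ℤ)) L, ‖Te K W (β z) (γ z) z.1 z.2‖ ≠ 0 →
        z ∈ E2 R L ×ˢ E3s L := ?_
    · rw [← Finset.sum_filter_of_ne hfil]
      refine Finset.sum_le_sum_of_subset_of_nonneg ?_ (fun _ _ _ => norm_nonneg _)
      intro z hz
      exact (Finset.mem_filter.mp hz).2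
    intro z hz hne
    rw [Finset.mem_product, Finset.mem_Ioo] at hz
    rw [Finset.mem_product]
    have hz2 : z.2 ∈ E3s L := by
      unfold E3s
      rw [Finset.mem_Ioo]
      exact hz.2
    refine ⟨?_, hz2⟩
    have hne' : Te K W (β z) (γ z) z.1 z.2 ≠ 0 := norm_ne_zero_iff.mp hne
    unfold Te at hne'
    obtain ⟨k1, _, h2⟩ := Finset.exists_ne_zero_of_sum_ne_zero hne'
    obtain ⟨k2, _, h3⟩ := Finset.exists_ne_zero_of_sum_ne_zero h2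
    obtain ⟨k3, _, h4⟩ := Finset.exists_ne_zero_of_sum_ne_zero h3
    have hβne : β z k2 ≠ 0 := by
      intro h; apply h4; rw [h]; ring
    have hW1 : W (x0 k2 k3 - k1) k2 k3 ≠ 0 := by
      intro h; apply h4; rw [h]; ring
    have hW2 : W (x0 (k2 + z.1 : ℤ) (k3 + z.2 : ℤ) - k1) (k2 + z.1 : ℤ) (k3 + z.2 : ℤ) ≠ 0 := by
      intro h; apply h4; rw [h]; simp
    obtain ⟨h5, h6, h7, h8⟩ := hβs' z k2 hβne
    have he3 : |((z.2 : ℤ) : ℝ)| ≤ L := by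
      rw [abs_le]
      constructor
      · have := hz.2.1.le
        exact_mod_cast this
      · have := hz.2.2.le
        exact_mod_cast this
    have hb2 := e2_small hR hL hbig hW h5 h6 h7 h8 he3 hW1 hW2
    unfold E2
    rw [Finset.mem_Icc]
    rw [abs_le] at hb2
    constructor
    · have : -z.1 ≤ ⌊10 * (L : ℝ) * √R⌋ := by
        rw [Int.le_floor]
        push_cast
        linarith
      omega
    · rw [Int.le_floor]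
      exact hb2.2
  -- cardinalities
  have hc1 : (Z1s.card : ℝ) ≤ 4 * (K / R) := by
    have hR0 : 0 < R := by linarith
    have hKR : 1 ≤ K / R := by rw [one_le_div hR0]; exact hRK
    have hsub : Z1s ⊆ Icc 0 ⌊3 * K / R⌋ := by
      intro x hx
      rw [hZ1s, Finset.mem_filter] at hx
      unfold ZZ at hx
      rw [Finset.mem_Icc] at hx ⊢
      exact ⟨hx.1.1, Int.le_floor.mpr hx.2⟩
    have h1 := Finset.card_le_card hsub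
    rw [Int.card_Icc] at h1
    have hfl0 : 0 ≤ ⌊3 * K / R⌋ := Int.floor_nonneg.mpr (by positivity)
    have h2 : ((⌊3 * K / R⌋ + 1 - 0).toNat : ℝ) = (⌊3 * K / R⌋ : ℝ) + 1 := by
      have : ((⌊3 * K / R⌋ + 1 - 0).toNat : ℤ) = ⌊3 * K / R⌋ + 1 := by
        rw [Int.toNat_of_nonneg (by omega)]; ring
      exact_mod_cast this
    have h3 : (Z1s.card : ℝ) ≤ ((⌊3 * K / R⌋ + 1 - 0).toNat : ℝ) := by exact_mod_cast h1
    have h4 : (⌊3 * K / R⌋ : ℝ) ≤ 3 * K / R := Int.floor_le _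
    have h5 : 3 * K / R = 3 * (K / R) := by ring
    linarith
  have hc2 : (((N / (L : ℤ) + 1).toNat : ℕ) : ℝ) ≤ 26 * (K / L) := by
    have hKL : 1 ≤ K / L := by rw [one_le_div (by linarith)]; exact hLK
    have h0 : 0 ≤ N / (L : ℤ) := Int.ediv_nonneg hN0 hL0.le
    have h1 : (((N / (L : ℤ) + 1).toNat : ℕ) : ℝ) = ((N / (L : ℤ) : ℤ) : ℝ) + 1 := by
      have : (((N / (L : ℤ) + 1).toNat : ℕ) : ℤ) = N / (L : ℤ) + 1 := Int.toNat_of_nonneg (by omega)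
      exact_mod_cast this
    have h2 : ((N / (L : ℤ) : ℤ) : ℝ) ≤ 25 * (K / L) := by
      have h3 : N / (L : ℤ) * L ≤ N := Int.ediv_mul_le N hL0.ne'
      have h4 : ((N / (L : ℤ) : ℤ) : ℝ) * L ≤ N := by exact_mod_cast h3
      have h5 : ((N / (L : ℤ) : ℤ) : ℝ) * L ≤ 25 * K := h4.trans hNK
      rw [← le_div_iff₀ (by linarith)] at h5
      calc ((N / (L : ℤ) : ℤ) : ℝ) ≤ 25 * K / L := h5
        _ = 25 * (K / L) := by ring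
    linarith
  have hprod : (Z1s.card : ℝ) * (((N / (L : ℤ) + 1).toNat : ℕ) : ℝ) ≤ 104 * (K ^ 2 / (R * L)) := by
    have h1 : (Z1s.card : ℝ) * (((N / (L : ℤ) + 1).toNat : ℕ) : ℝ) ≤ (4 * (K / R)) * (26 * (K / L)) :=
      mul_le_mul hc1 hc2 (by positivity) (by positivity)
    have h2 : (4 * (K / R)) * (26 * (K / L)) = 104 * (K ^ 2 / (R * L)) := by
      field_simp
      ring
    linarith
  have hnn : 0 ≤ ∑ z ∈ E2 R L ×ˢ E3s L, ‖Te K W (β z) (γ z) z.1 z.2‖ :=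
    Finset.sum_nonneg fun _ _ => norm_nonneg _
  calc _ ≤ (Z1s.card : ℝ) * (((N / (L : ℤ) + 1).toNat : ℕ) : ℝ) * _ := hmain
    _ ≤ (Z1s.card : ℝ) * (((N / (L : ℤ) + 1).toNat : ℕ) : ℝ) *
        ∑ z ∈ E2 R L ×ˢ E3s L, ‖Te K W (β z) (γ z) z.1 z.2‖ :=
      mul_le_mul_of_nonneg_left hsum (by positivity)
    _ ≤ 104 * (K ^ 2 / (R * L)) * ∑ z ∈ E2 R L ×ˢ E3s L, ‖Te K W (β z) (γ z) z.1 z.2‖ :=
      mul_le_mul_of_nonneg_right hprod hnn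

end TS
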