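import Pool.Agent.Lib.MP_39df77_nt.TS.Defs

/-!
Row TS-X: triples with small `|x|`.
-/

set_option autoImplicit false

namespace TS

open Finset

private theorem TSX_sq {a b : ℝ} (h : a ^ 2 ≤ b ^ 2) (hb : 0 ≤ b) : a ≤ b :=
  (le_abs_self a).trans (abs_le_of_sq_le_sq h hb)

private theorem TSX_diam (T : Finset ℤ) (d : ℝ) (hd : 0 ≤ d)
    (h : ∀ a ∈ T, ∀ b ∈ T, (b : ℝ) - a ≤ d) : (T.card : ℝ) ≤ d + 1 := by
  rcases T.eq_empty_or_nonempty with rfl | hT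
  · simp
    linarith
  · have h1 : T ⊆ Icc (T.min' hT) (T.min' hT + ⌊d⌋) := by
      intro b hb
      rw [Finset.mem_Icc]
      refine ⟨T.min'_le b hb, ?_⟩
      have h2 := h _ (T.min'_mem hT) b hb
      have h3 : b - T.min' hT ≤ ⌊d⌋ := by
        apply Int.le_floor.2
        push_cast
        exact h2
      omega
    have h2 := Finset.card_le_card h1
    rw [Int.card_Icc] at h2
    have h3 : (T.min' hT + ⌊d⌋ + 1 - T.min' hT).toNat = ⌊d⌋.toNat + 1 := by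
      have := Int.floor_nonneg.2 hd
      omega
    rw [h3] at h2
    have h4 : ((⌊d⌋.toNat : ℕ) : ℝ) ≤ d := by
      have h5 : ((⌊d⌋.toNat : ℕ) : ℤ) = ⌊d⌋ := Int.toNat_of_nonneg (Int.floor_nonneg.2 hd)
      have h6 : ((⌊d⌋.toNat : ℕ) : ℝ) = ((⌊d⌋ : ℤ) : ℝ) := by exact_mod_cast h5
      rw [h6]
      exact Int.floor_le d
    have h5 : (T.card : ℝ) ≤ (⌊d⌋.toNat : ℕ) + 1 := by exact_mod_cast h2
    linarith

private theorem TSX_fib {α β : Type*} [DecidableEq β] (S : Finset α) (f : α → β) (n : ℝ)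
    (hn : ∀ b ∈ S.image f, (((S.filter (fun x => f x = b)).card : ℕ) : ℝ) ≤ n) :
    (S.card : ℝ) ≤ ((S.image f).card : ℝ) * n := by
  rw [Finset.card_eq_sum_card_image f S]
  push_cast
  calc ∑ b ∈ S.image f, (((S.filter (fun x => f x = b)).card : ℕ) : ℝ)
      ≤ ∑ b ∈ S.image f, n := Finset.sum_le_sum hn
    _ = _ := by rw [Finset.sum_const, nsmul_eq_mul]

/-- the analysis of one triple -/
private theorem TSX_core {K R u v e2 e3 : ℝ} {L : ℕ} (hR : 1 ≤ R) (hL : 1 ≤ L) (hK : 0 < K)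
    (u1 : K / 2 ≤ u) (u2 : u ≤ 3 * K) (huv : u < v) (v2 : v ≤ 20 * K) (y1 : K / (4 * R) ≤ x0 u v)
    (y2 : x0 u v ≤ 8 * K / R) (hx : |xt e2 e3 u v| ≤ 2 * xi R L) :
    |e3 - e2 * (√v / √u)| ≤ 18 / (10 ^ 4 * (L * √R)) ∧ 1 / (4 * √R) ≤ √v / √u - 1 ∧
      √v / √u - 1 ≤ 4 / √R := by
  have hR0 : 0 < R := by linarith
  have hρ1 : 1 ≤ √R := Real.one_le_sqrt.2 hR
  have hρ0 : 0 < √R := by linarith
  have hρ2 : √R ^ 2 = R := Real.sq_sqrt hR0.le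
  have hL1 : (1 : ℝ) ≤ L := by exact_mod_cast hL
  have hu0 : 0 < u := by linarith
  have hv0 : 0 < v := by linarith
  obtain ⟨a, ha⟩ : ∃ a, a = √u := ⟨_, rfl⟩
  obtain ⟨b, hb⟩ : ∃ b, b = √v := ⟨_, rfl⟩
  obtain ⟨ρ, hρ⟩ : ∃ ρ, ρ = √R := ⟨_, rfl⟩
  have ha2 : a ^ 2 = u := by rw [ha]; exact Real.sq_sqrt hu0.le
  have hb2 : b ^ 2 = v := by rw [hb]; exact Real.sq_sqrt hv0.le
  have ha0 : 0 < a := by rw [ha]; exact Real.sqrt_pos.2 hu0
  have hab : a < b := by rw [ha, hb]; exact Real.sqrt_lt_sqrt hu0.le huv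
  have hb0 : 0 < b := by linarith
  rw [← hρ] at hρ1 hρ0 hρ2 ⊢
  unfold xt at hx
  unfold x0 at y1 y2
  unfold xi at hx
  rw [← ha, ← hb] at hx y1 y2
  rw [← ha, ← hb]
  obtain ⟨D, hD⟩ : ∃ D, D = b - a := ⟨_, rfl⟩
  rw [← hD] at hx y1 y2
  have hD0 : 0 < D := by rw [hD]; linarith
  have hs : b / a - 1 = D / a := by rw [hD]; field_simp
  -- b ≤ 9 ρ D
  have hbD : b ≤ 9 * ρ * D := by
    apply TSX_sq _ (by positivity)
    rw [mul_pow, mul_pow, hρ2]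
    have h1 : K ≤ 4 * R * D ^ 2 := by
      rw [div_le_iff₀ (by positivity)] at y1
      linarith
    rw [hb2]
    nlinarith
  refine ⟨?_, ?_, ?_⟩
  · have h1 : e3 - e2 * (b / a) = (D * (e3 / b - e2 / a)) * (b / D) := by
      field_simp
    rw [h1, abs_mul, abs_of_pos (div_pos hb0 hD0)]
    have h2 : b / D ≤ 9 * ρ := by
      rw [div_le_iff₀ hD0]
      exact hbD
    calc |D * (e3 / b - e2 / a)| * (b / D) ≤ (2 * (1 / (10 ^ 4 * (L * R)))) * (9 * ρ) :=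
          mul_le_mul hx h2 (div_pos hb0 hD0).le (by positivity)
      _ = 18 / (10 ^ 4 * (L * ρ)) := by
          rw [← hρ2]
          field_simp
          norm_num
  · rw [hs, div_le_div_iff₀ (by positivity) ha0, one_mul]
    apply TSX_sq _ (by positivity)
    have h1 : K ≤ 4 * R * D ^ 2 := by
      rw [div_le_iff₀ (by positivity)] at y1
      linarith
    rw [ha2, mul_pow, mul_pow, hρ2]
    nlinarith
  · rw [hs, div_le_div_iff₀ ha0 hρ0]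
    apply TSX_sq _ (by positivity)
    have h1 : R * D ^ 2 ≤ 8 * K := by
      rw [le_div_iff₀ hR0] at y2
      linarith
    rw [mul_pow, mul_pow, hρ2, ha2]
    nlinarith

/-- the consequences for `e₂`, `e₃` -/
private theorem TSX_int {ρ s : ℝ} {L : ℕ} {e2 e3 : ℤ} (hρ : 1 ≤ ρ) (hL : 1 ≤ L)
    (h1 : |(e3 : ℝ) - e2 * s| ≤ 18 / (10 ^ 4 * (L * ρ))) (h2 : 1 / (4 * ρ) ≤ s - 1) (h3 : s - 1 ≤ 4 / ρ)
    (h4 : -(L : ℤ) < e3) (h5 : e3 < L) (hne : ¬ (e2 = 0 ∧ e3 = 0)) :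
    e2 ≠ 0 ∧ |(e2 : ℝ)| ≤ 2 * L ∧ |(e3 : ℝ) - e2| ≤ 5 * |(e2 : ℝ)| / ρ ∧ 1 ≤ 5 * |(e2 : ℝ)| / ρ := by
  have hL1 : (1 : ℝ) ≤ L := by exact_mod_cast hL
  have hρ0 : 0 < ρ := by linarith
  have hη : 18 / (10 ^ 4 * (L * ρ)) ≤ 1 / 500 / ρ := by
    rw [div_div, div_le_div_iff₀ (by positivity) (by positivity)]
    nlinarith
  have hη2 : 1 / 500 / ρ ≤ 1 / 500 := div_le_self (by norm_num) hρ
  have hs1 : 1 < s := by
    have : 0 < 1 / (4 * ρ) := by positivity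
    linarith
  have he2 : e2 ≠ 0 := by
    intro h
    rw [h, Int.cast_zero, zero_mul, sub_zero] at h1
    have h6 : |(e3 : ℝ)| < 1 := by linarith
    have h7 : |e3| < 1 := by exact_mod_cast h6
    exact hne ⟨h, Int.abs_lt_one_iff.1 h7⟩
  have he23 : e3 ≠ e2 := by
    intro h
    rw [h] at h1
    have h6 : (e2 : ℝ) - e2 * s = -(e2 * (s - 1)) := by ring
    rw [h6, abs_neg, abs_mul, abs_of_pos (by linarith : 0 < s - 1)] at h1
    have h7 : (1 : ℝ) ≤ |(e2 : ℝ)| := by exact_mod_cast Int.one_le_abs he2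
    have h8 : 1 / (4 * ρ) ≤ |(e2 : ℝ)| * (s - 1) := by nlinarith
    have h9 : 1 / 500 / ρ < 1 / (4 * ρ) := by
      rw [div_div, div_lt_div_iff₀ (by positivity) (by positivity)]
      linarith
    linarith
  have hd1 : (1 : ℝ) ≤ |(e3 : ℝ) - e2| := by
    have h6 : (1 : ℤ) ≤ |e3 - e2| := Int.one_le_abs (sub_ne_zero.2 he23)
    exact_mod_cast h6
  have hd2 : |(e3 : ℝ) - e2| ≤ 1 / 500 / ρ + 4 * |(e2 : ℝ)| / ρ := by
    have h6 : (e3 : ℝ) - e2 = (e3 - e2 * s) + e2 * (s - 1) := by ring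
    rw [h6]
    refine (abs_add_le _ _).trans (add_le_add (h1.trans hη) ?_)
    rw [abs_mul, abs_of_pos (by linarith : 0 < s - 1)]
    calc |(e2 : ℝ)| * (s - 1) ≤ |(e2 : ℝ)| * (4 / ρ) := mul_le_mul_of_nonneg_left h3 (abs_nonneg _)
      _ = 4 * |(e2 : ℝ)| / ρ := by ring
  have hd3 : 1 - 1 / 500 ≤ 4 * |(e2 : ℝ)| / ρ := by linarith
  have hd4 : 4 * |(e2 : ℝ)| / ρ = 4 / 5 * (5 * |(e2 : ℝ)| / ρ) := by ring
  refine ⟨he2, ?_, ?_, ?_⟩
  · have h6 : |(e2 : ℝ)| ≤ |(e2 : ℝ) * s| := by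
      rw [abs_mul, abs_of_pos (by linarith : 0 < s)]
      have := abs_nonneg (e2 : ℝ)
      nlinarith
    have h7 : |(e2 : ℝ) * s| ≤ |(e3 : ℝ)| + |(e3 : ℝ) - e2 * s| := by
      have h8 : (e2 : ℝ) * s = e3 - (e3 - e2 * s) := by ring
      rw [h8]
      have h9 := abs_sub (e3 : ℝ) (e3 - e2 * s)
      have h10 : (e3 : ℝ) - (e3 - e2 * s) = e2 * s := by ring
      rw [h10] at h9 ⊢
      exact h9
    have h8 : |(e3 : ℝ)| ≤ L := by
      rw [abs_le]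
      constructor
      · have : (-(L : ℤ) : ℤ) ≤ e3 := h4.le
        exact_mod_cast this
      · exact_mod_cast h5.le
    linarith
  · have h7 : 1 / 500 / ρ ≤ |(e2 : ℝ)| / ρ := by
      apply div_le_div_of_nonneg_right _ hρ0.le
      have h7 : (1 : ℝ) ≤ |(e2 : ℝ)| := by exact_mod_cast Int.one_le_abs he2
      linarith
    have h8 : 5 * |(e2 : ℝ)| / ρ = |(e2 : ℝ)| / ρ + 4 * |(e2 : ℝ)| / ρ := by ring
    linarith
  · linarith

/-- the spread of `k₃` for given `k₂` -/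
private theorem TSX_spread {K η u v v' e2 e3 : ℝ} (hK : 0 < K)
    (hu0 : 0 < u) (u2 : u ≤ 3 * K) (hv0 : 0 < v) (v2 : v ≤ 20 * K) (hv0' : 0 < v') (v2' : v' ≤ 20 * K)
    (he2 : e2 ≠ 0) (h1 : |e3 - e2 * (√v / √u)| ≤ η) (h2 : |e3 - e2 * (√v' / √u)| ≤ η) :
    v' - v ≤ 32 * K * η / |e2| := by
  obtain ⟨a, ha⟩ : ∃ a, a = √u := ⟨_, rfl⟩
  obtain ⟨b, hb⟩ : ∃ b, b = √v := ⟨_, rfl⟩
  obtain ⟨b', hb'⟩ : ∃ b', b' = √v' := ⟨_, rfl⟩
  have ha2 : a ^ 2 = u := by rw [ha]; exact Real.sq_sqrt hu0.le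
  have hb2 : b ^ 2 = v := by rw [hb]; exact Real.sq_sqrt hv0.le
  have hb2' : b' ^ 2 = v' := by rw [hb']; exact Real.sq_sqrt hv0'.le
  have ha0 : 0 < a := by rw [ha]; exact Real.sqrt_pos.2 hu0
  have hb0 : 0 < b := by rw [hb]; exact Real.sqrt_pos.2 hv0
  have hb0' : 0 < b' := by rw [hb']; exact Real.sqrt_pos.2 hv0'
  rw [← ha, ← hb] at h1
  rw [← ha, ← hb'] at h2
  have hη : 0 ≤ η := (abs_nonneg _).trans h1
  have he : 0 < |e2| := abs_pos.2 he2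
  have h3 : |e2| * |b' - b| ≤ 2 * η * a := by
    have h4 : e2 * (b' - b) = ((e3 - e2 * (b / a)) - (e3 - e2 * (b' / a))) * a := by
      field_simp
      ring
    rw [← abs_mul, h4, abs_mul, abs_of_pos ha0]
    apply mul_le_mul_of_nonneg_right _ ha0.le
    have h5 := abs_sub (e3 - e2 * (b / a)) (e3 - e2 * (b' / a))
    linarith
  have hb_le : a * (b + b') ≤ 16 * K := by
    have c1 : a * b ≤ 8 * K := by
      apply TSX_sq _ (by positivity)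
      rw [mul_pow, ha2, hb2]
      nlinarith
    have c2 : a * b' ≤ 8 * K := by
      apply TSX_sq _ (by positivity)
      rw [mul_pow, ha2, hb2']
      nlinarith
    linarith
  rw [le_div_iff₀ he]
  have h6 : v' - v = (b' - b) * (b' + b) := by rw [← hb2, ← hb2']; ring
  rw [h6]
  calc (b' - b) * (b' + b) * |e2| ≤ |b' - b| * (b' + b) * |e2| := by
        apply mul_le_mul_of_nonneg_right _ he.le
        apply mul_le_mul_of_nonneg_right (le_abs_self _) (by linarith)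
    _ = (|e2| * |b' - b|) * (b' + b) := by ring
    _ ≤ (2 * η * a) * (b' + b) := mul_le_mul_of_nonneg_right h3 (by linarith)
    _ = 2 * η * (a * (b + b')) := by ring
    _ ≤ 2 * η * (16 * K) := mul_le_mul_of_nonneg_left hb_le (by linarith)
    _ = 32 * K * η := by ring

/-- the number of triples for one pair `e` -/
private theorem TSX_card {K R : ℝ} {L : ℕ} (hR : 1 ≤ R) (hL : 1 ≤ L)
    (hKb : 10 ^ 48 * ((L : ℝ) * R) ^ 11 ≤ K) (z : ℤ × ℤ) (hz0 : z ≠ (0, 0)) (hz : z.2 ∈ E3s L)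
    (hne : ((Reg K R L).filter (fun k => |xt z.1 z.2 k.2.1 k.2.2| ≤ 2 * xi R L)).Nonempty) :
    (z.1 ≠ 0 ∧ |(z.1 : ℝ)| ≤ 2 * L ∧ |(z.2 : ℝ) - z.1| ≤ 5 * |(z.1 : ℝ)| / √R ∧
      1 ≤ 5 * |(z.1 : ℝ)| / √R) ∧
    (((Reg K R L).filter (fun k => |xt z.1 z.2 k.2.1 k.2.2| ≤ 2 * xi R L)).card : ℝ) ≤
      3 * K * ((32 * K * (18 / (10 ^ 4 * (L * √R))) / |(z.1 : ℝ)| + 1) * (7 * L)) := by
  classical
  have hL1 : (1 : ℝ) ≤ L := by exact_mod_cast hL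
  have hρ1 : 1 ≤ √R := Real.one_le_sqrt.2 hR
  have hLR : 1 ≤ (L : ℝ) * R := by nlinarith
  have hKbig : 10 ^ 48 ≤ K := by
    have h1 : (1 : ℝ) ≤ ((L : ℝ) * R) ^ 11 := one_le_pow₀ hLR
    nlinarith
  have hK : 0 < K := by linarith
  obtain ⟨S, hS⟩ : ∃ S, S = (Reg K R L).filter (fun k => |xt z.1 z.2 k.2.1 k.2.2| ≤ 2 * xi R L) :=
    ⟨_, rfl⟩
  rw [← hS] at hne ⊢
  have hmem : ∀ k ∈ S, (K / 2 ≤ (k.2.1 : ℝ) ∧ (k.2.1 : ℝ) ≤ 3 * K ∧ k.2.1 < k.2.2 ∧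
    (k.2.2 : ℝ) ≤ 20 * K ∧ K / (4 * R) ≤ x0 k.2.1 k.2.2 ∧ x0 k.2.1 k.2.2 ≤ 8 * K / R ∧
    (L : ℝ) / 2 ≤ x0 k.2.1 k.2.2 - k.1 ∧ x0 k.2.1 k.2.2 - k.1 ≤ 6 * L) ∧
    |xt z.1 z.2 k.2.1 k.2.2| ≤ 2 * xi R L := by
    intro k hk
    rw [hS, Finset.mem_filter] at hk
    refine ⟨?_, hk.2⟩
    have h1 := hk.1
    unfold Reg at h1
    rw [Finset.mem_filter] at h1
    exact h1.2
  have hcore : ∀ k ∈ S, |(z.2 : ℝ) - z.1 * (√(k.2.2 : ℝ) / √(k.2.1 : ℝ))| ≤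
      18 / (10 ^ 4 * (L * √R)) ∧ 1 / (4 * √R) ≤ √(k.2.2 : ℝ) / √(k.2.1 : ℝ) - 1 ∧
      √(k.2.2 : ℝ) / √(k.2.1 : ℝ) - 1 ≤ 4 / √R := by
    intro k hk
    obtain ⟨⟨a1, a2, a3, a4, a5, a6, a7, a8⟩, a9⟩ := hmem k hk
    exact TSX_core hR hL hK a1 a2 (by exact_mod_cast a3) a4 a5 a6 a9
  have hcond : z.1 ≠ 0 ∧ |(z.1 : ℝ)| ≤ 2 * L ∧ |(z.2 : ℝ) - z.1| ≤ 5 * |(z.1 : ℝ)| / √R ∧
      1 ≤ 5 * |(z.1 : ℝ)| / √R := by
    obtain ⟨k, hk⟩ := hne
    obtain ⟨b1, b2, b3⟩ := hcore k hk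
    unfold E3s at hz
    rw [Finset.mem_Ioo] at hz
    refine TSX_int hρ1 hL b1 b2 b3 hz.1 hz.2 ?_
    rintro ⟨c1, c2⟩
    exact hz0 (Prod.ext c1 c2)
  refine ⟨hcond, ?_⟩
  have he2 : (z.1 : ℝ) ≠ 0 := by exact_mod_cast hcond.1
  have hepos : 0 < |(z.1 : ℝ)| := abs_pos.2 he2
  -- the values of `k₂`
  have hk2 : ((S.image (fun k => k.2.1)).card : ℝ) ≤ 3 * K := by
    have h1 := TSX_diam (S.image (fun k => k.2.1)) (5 / 2 * K) (by positivity) (by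
      intro a ha b hb
      rw [Finset.mem_image] at ha hb
      obtain ⟨k, hk, rfl⟩ := ha
      obtain ⟨k', hk', rfl⟩ := hb
      have c1 := (hmem k hk).1.1
      have c2 := (hmem k' hk').1.2.1
      linarith)
    linarith
  refine (TSX_fib S (fun k => k.2.1) ((32 * K * (18 / (10 ^ 4 * (L * √R))) / |(z.1 : ℝ)| + 1) *
    (7 * L)) ?_).trans (mul_le_mul_of_nonneg_right hk2 (by positivity))
  intro b hb
  obtain ⟨T, hT⟩ : ∃ T, T = S.filter (fun k => k.2.1 = b) := ⟨_, rfl⟩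
  rw [← hT]
  have hTS : ∀ k ∈ T, k ∈ S ∧ k.2.1 = b := fun k hk => by
    rw [hT, Finset.mem_filter] at hk
    exact hk
  have hk3 : ((T.image (fun k => k.2.2)).card : ℝ) ≤
      32 * K * (18 / (10 ^ 4 * (L * √R))) / |(z.1 : ℝ)| + 1 := by
    apply TSX_diam
    · positivity
    · intro a ha c hc
      rw [Finset.mem_image] at ha hc
      obtain ⟨k, hk, rfl⟩ := ha
      obtain ⟨k', hk', rfl⟩ := hc
      obtain ⟨hkS, hkb⟩ := hTS k hk
      obtain ⟨hkS', hkb'⟩ := hTS k' hk'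
      obtain ⟨⟨a1, a2, a3, a4, -⟩, -⟩ := hmem k hkS
      obtain ⟨⟨a1', a2', a3', a4', -⟩, -⟩ := hmem k' hkS'
      have b1 := (hcore k hkS).1
      have b1' := (hcore k' hkS').1
      rw [hkb] at b1 a1 a2 a3
      rw [hkb'] at b1' a1' a2' a3'
      have p0 : (0 : ℝ) < b := by linarith
      have p1 : (b : ℝ) < k.2.2 := by exact_mod_cast a3
      have p2 : (b : ℝ) < k'.2.2 := by exact_mod_cast a3'
      exact TSX_spread hK p0 a2 (by linarith) a4 (by linarith) a4' he2 b1 b1'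
  refine (TSX_fib T (fun k => k.2.2) (7 * L) ?_).trans
    (mul_le_mul_of_nonneg_right hk3 (by positivity))
  intro c hc
  obtain ⟨U, hU⟩ : ∃ U, U = T.filter (fun k => k.2.2 = c) := ⟨_, rfl⟩
  rw [← hU]
  have hUT : ∀ k ∈ U, k ∈ S ∧ k.2.1 = b ∧ k.2.2 = c := fun k hk => by
    rw [hU, Finset.mem_filter] at hk
    exact ⟨(hTS k hk.1).1, (hTS k hk.1).2, hk.2⟩
  have hinj : Set.InjOn (fun k : ℤ × ℤ × ℤ => k.1) U := by
    intro k hk k' hk' h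
    obtain ⟨-, d1, d2⟩ := hUT k hk
    obtain ⟨-, d1', d2'⟩ := hUT k' hk'
    exact Prod.ext h (Prod.ext (d1.trans d1'.symm) (d2.trans d2'.symm))
  rw [← Finset.card_image_of_injOn hinj]
  have h1 := TSX_diam (U.image (fun k => k.1)) (11 / 2 * L) (by positivity) (by
    intro a ha a' ha'
    rw [Finset.mem_image] at ha ha'
    obtain ⟨k, hk, rfl⟩ := ha
    obtain ⟨k', hk', rfl⟩ := ha'
    obtain ⟨hkS, d1, d2⟩ := hUT k hk
    obtain ⟨hkS', d1', d2'⟩ := hUT k' hk'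
    have c1 := (hmem k hkS).1.2.2.2.2.2.2
    have c2 := (hmem k' hkS').1.2.2.2.2.2.2
    rw [d1, d2] at c1
    rw [d1', d2'] at c2
    linarith [c1.2, c2.1])
  linarith

/-- `|xt| ≤ 2 xi` means `|e₃ - e₂ s| ≤ 2 xi √k₃/(√k₃-√k₂) ≤ 20 xi √R`, `s = √(k₃/k₂)`,
`s - 1 = √x0/√k₂ ∈ [0.28 R^{-1/2}, 4 R^{-1/2}]`, `20 xi √R = 1/(500 L √R)`. So `e₂ ≠ 0` (otherwise `|e₃| < 1`),
`|e₂| ≤ 2L`, `e₃ ≠ e₂` (`|e₂|(s-1) ≥ 0.28 R^{-1/2} > 1/(500 L√R)`), `|e₂| ≥ √R/8`, at most `20|e₂|/√R` values of `e₃`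
for given `e₂`; for given `e` and `k₂` the `√k₃` lie in an interval of length `√k₂ · 40 xi √R/|e₂|`, at most
`C K xi √R/|e₂| + 1` values of `k₃`, and `6L+1` values of `k₁`. -/
theorem small_x : ∃ C : ℝ, 1 ≤ C ∧ ∀ (K R : ℝ) (L : ℕ), 1 ≤ R → 1 ≤ L → 10 ^ 48 * ((L : ℝ) * R) ^ 11 ≤ K →
    ∑ z ∈ (E2 R L ×ˢ E3s L).erase (0, 0),
      (((Reg K R L).filter (fun k => |xt z.1 z.2 k.2.1 k.2.2| ≤ 2 * xi R L)).card : ℝ) ≤ C * (K ^ 2 * L) := by
  classical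
  refine ⟨1000, by norm_num, ?_⟩
  intro K R L hR hL hKb
  have hL1 : (1 : ℝ) ≤ L := by exact_mod_cast hL
  have hρ1 : 1 ≤ √R := Real.one_le_sqrt.2 hR
  have hρ0 : 0 < √R := by linarith
  have hLR : 1 ≤ (L : ℝ) * R := by nlinarith
  have hKbig : 10 ^ 48 * (L : ℝ) ^ 2 ≤ K := by
    have h1 : ((L : ℝ)) ^ 2 ≤ ((L : ℝ) * R) ^ 11 := by
      calc ((L : ℝ)) ^ 2 ≤ ((L : ℝ) * R) ^ 2 := by
            apply pow_le_pow_left₀ (by linarith)
            nlinarith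
        _ ≤ ((L : ℝ) * R) ^ 11 := pow_le_pow_right₀ hLR (by norm_num)
    nlinarith
  have hK : 0 < K := by
    have : 0 < 10 ^ 48 * (L : ℝ) ^ 2 := by positivity
    linarith
  obtain ⟨f, hf⟩ : ∃ f : ℤ × ℤ → ℝ, f = fun z =>
    (((Reg K R L).filter (fun k => |xt z.1 z.2 k.2.1 k.2.2| ≤ 2 * xi R L)).card : ℝ) := ⟨_, rfl⟩
  obtain ⟨S, hS⟩ : ∃ S : Finset (ℤ × ℤ), S = ((E2 R L ×ˢ E3s L).erase (0, 0)).filter
    (fun z => ((Reg K R L).filter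
      (fun k => |xt z.1 z.2 k.2.1 k.2.2| ≤ 2 * xi R L)).Nonempty) := ⟨_, rfl⟩
  have hsum : ∑ z ∈ (E2 R L ×ˢ E3s L).erase (0, 0), f z = ∑ z ∈ S, f z := by
    rw [hS]
    symm
    apply Finset.sum_filter_of_ne
    intro z _ hz
    rw [Finset.nonempty_iff_ne_empty]
    intro h
    apply hz
    rw [hf]
    change ((((Reg K R L).filter (fun k => |xt z.1 z.2 k.2.1 k.2.2| ≤ 2 * xi R L)).card : ℕ) : ℝ) = 0
    rw [h, Finset.card_empty, Nat.cast_zero]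
  have hSm : ∀ z ∈ S, (z.1 ≠ 0 ∧ |(z.1 : ℝ)| ≤ 2 * L ∧ |(z.2 : ℝ) - z.1| ≤ 5 * |(z.1 : ℝ)| / √R ∧
      1 ≤ 5 * |(z.1 : ℝ)| / √R) ∧ f z ≤
      3 * K * ((32 * K * (18 / (10 ^ 4 * (L * √R))) / |(z.1 : ℝ)| + 1) * (7 * L)) := by
    intro z hz
    rw [hS, Finset.mem_filter, Finset.mem_erase, Finset.mem_product] at hz
    rw [hf]
    exact TSX_card hR hL hKb z hz.1.1 hz.1.2.2 hz.2
  change ∑ z ∈ (E2 R L ×ˢ E3s L).erase (0, 0),
    (((Reg K R L).filter (fun k => |xt z.1 z.2 k.2.1 k.2.2| ≤ 2 * xi R L)).card : ℝ) ≤ _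
  have hsum' : ∑ z ∈ (E2 R L ×ˢ E3s L).erase (0, 0),
    (((Reg K R L).filter (fun k => |xt z.1 z.2 k.2.1 k.2.2| ≤ 2 * xi R L)).card : ℝ) =
      ∑ z ∈ S, f z := by rw [← hsum, hf]
  rw [hsum', ← Finset.sum_fiberwise_of_maps_to (t := S.image Prod.fst) (g := Prod.fst)
    (fun z hz => Finset.mem_image_of_mem _ hz)]
  have hcard : ((S.image Prod.fst).card : ℝ) ≤ 5 * L := by
    have h1 := TSX_diam (S.image Prod.fst) (4 * L) (by positivity) (by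
      intro a ha b hb
      rw [Finset.mem_image] at ha hb
      obtain ⟨z, hz, rfl⟩ := ha
      obtain ⟨z', hz', rfl⟩ := hb
      have c1 := (abs_le.1 (hSm z hz).1.2.1).1
      have c2 := (abs_le.1 (hSm z' hz').1.2.1).2
      linarith)
    linarith
  have hfib : ∀ b ∈ S.image Prod.fst, ∑ z ∈ S.filter (fun z => z.1 = b), f z ≤
      20 * K ^ 2 + 700 * (K * (L : ℝ) ^ 2) := by
    intro b hb
    rw [Finset.mem_image] at hb
    obtain ⟨z0, hz0, hb0⟩ := hb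
    obtain ⟨⟨q1, q2, q3, q4⟩, -⟩ := hSm z0 hz0
    rw [hb0] at q1 q2 q4
    have hbpos : (0 : ℝ) < |(b : ℝ)| := abs_pos.2 (by exact_mod_cast q1)
    obtain ⟨T, hT⟩ : ∃ T, T = S.filter (fun z : ℤ × ℤ => z.1 = b) := ⟨_, rfl⟩
    rw [← hT]
    have hTm : ∀ z ∈ T, z ∈ S ∧ z.1 = b := fun z hz => by
      rw [hT, Finset.mem_filter] at hz
      exact hz
    have hTc : (T.card : ℝ) ≤ 15 * |(b : ℝ)| / √R := by
      have hinj : Set.InjOn (Prod.snd : ℤ × ℤ → ℤ) T := by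
        intro z hz z' hz' h
        exact Prod.ext ((hTm z hz).2.trans (hTm z' hz').2.symm) h
      rw [← Finset.card_image_of_injOn hinj]
      have h1 := TSX_diam (T.image Prod.snd) (10 * |(b : ℝ)| / √R) (by positivity) (by
        intro a ha c hc
        rw [Finset.mem_image] at ha hc
        obtain ⟨z, hz, rfl⟩ := ha
        obtain ⟨z', hz', rfl⟩ := hc
        obtain ⟨hz1, hz2⟩ := hTm z hz
        obtain ⟨hz1', hz2'⟩ := hTm z' hz'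
        have c1 := (abs_le.1 (hSm z hz1).1.2.2.1).1
        have c2 := (abs_le.1 (hSm z' hz1').1.2.2.1).2
        rw [hz2] at c1
        rw [hz2'] at c2
        have h3 : 10 * |(b : ℝ)| / √R = 2 * (5 * |(b : ℝ)| / √R) := by ring
        linarith)
      have h3 : 10 * |(b : ℝ)| / √R = 2 * (5 * |(b : ℝ)| / √R) := by ring
      have h4 : 15 * |(b : ℝ)| / √R = 3 * (5 * |(b : ℝ)| / √R) := by ring
      linarith
    have hbound : ∀ z ∈ T, f z ≤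
        3 * K * ((32 * K * (18 / (10 ^ 4 * (L * √R))) / |(b : ℝ)| + 1) * (7 * L)) := by
      intro z hz
      obtain ⟨hz1, hz2⟩ := hTm z hz
      have h1 := (hSm z hz1).2
      rw [hz2] at h1
      exact h1
    calc ∑ z ∈ T, f z
        ≤ ∑ z ∈ T, 3 * K * ((32 * K * (18 / (10 ^ 4 * (L * √R))) / |(b : ℝ)| + 1) * (7 * L)) :=
          Finset.sum_le_sum hbound
      _ = (T.card : ℝ) *
          (3 * K * ((32 * K * (18 / (10 ^ 4 * (L * √R))) / |(b : ℝ)| + 1) * (7 * L))) := by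
          rw [Finset.sum_const, nsmul_eq_mul]
      _ ≤ (15 * |(b : ℝ)| / √R) *
          (3 * K * ((32 * K * (18 / (10 ^ 4 * (L * √R))) / |(b : ℝ)| + 1) * (7 * L))) :=
          mul_le_mul_of_nonneg_right hTc (by positivity)
      _ = 315 * 32 * 18 / 10 ^ 4 * K ^ 2 / (√R * √R) + 315 * K * L * (|(b : ℝ)| / √R) := by
          field_simp
          ring
      _ ≤ 20 * K ^ 2 + 700 * (K * (L : ℝ) ^ 2) := by
          apply add_le_add
          · have h1 : 315 * 32 * 18 / 10 ^ 4 * K ^ 2 / (√R * √R) ≤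
                315 * 32 * 18 / 10 ^ 4 * K ^ 2 := by
              apply div_le_self (by positivity)
              nlinarith
            nlinarith [sq_nonneg K]
          · have h1 : |(b : ℝ)| / √R ≤ 2 * L := (div_le_self hbpos.le hρ1).trans q2
            calc 315 * K * L * (|(b : ℝ)| / √R) ≤ 315 * K * L * (2 * L) :=
                  mul_le_mul_of_nonneg_left h1 (by positivity)
              _ = 630 * (K * (L : ℝ) ^ 2) := by ring
              _ ≤ 700 * (K * (L : ℝ) ^ 2) := by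
                  apply mul_le_mul_of_nonneg_right (by norm_num) (by positivity)
  calc ∑ b ∈ S.image Prod.fst, ∑ z ∈ S.filter (fun z => z.1 = b), f z
      ≤ ∑ b ∈ S.image Prod.fst, (20 * K ^ 2 + 700 * (K * (L : ℝ) ^ 2)) := Finset.sum_le_sum hfib
    _ = ((S.image Prod.fst).card : ℝ) * (20 * K ^ 2 + 700 * (K * (L : ℝ) ^ 2)) := by
        rw [Finset.sum_const, nsmul_eq_mul]
    _ ≤ (5 * L) * (20 * K ^ 2 + 700 * (K * (L : ℝ) ^ 2)) :=
        mul_le_mul_of_nonneg_right hcard (by positivity)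
    _ = 100 * (K ^ 2 * L) + 3500 * (L : ℝ) ^ 2 * (K * L) := by ring
    _ ≤ 100 * (K ^ 2 * L) + K * (K * L) := by
        apply add_le_add le_rfl
        apply mul_le_mul_of_nonneg_right _ (by positivity)
        have : 0 ≤ (L : ℝ) ^ 2 := by positivity
        nlinarith
    _ = 101 * (K ^ 2 * L) := by ring
    _ ≤ 1000 * (K ^ 2 * L) := by
        apply mul_le_mul_of_nonneg_right (by norm_num) (by positivity)

end TS
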