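import Pool.Agent.Lib.MP_39df77_nt.TS.Defs

/-!
Row TS-W: the centre frequencies of the cells are well spaced.
-/

set_option autoImplicit false

namespace TS

open Finset

private theorem W_Fp (P x θ : ℝ) (h1 : 0 < θ) (h2 : 0 < θ + x) :
    Fp P x θ = P / 2 * (x / (√θ * √(θ + x) * (√θ + √(θ + x)))) := by
  have s := Real.sqrt_pos.2 h1
  have t := Real.sqrt_pos.2 h2
  have e1 := Real.sq_sqrt h1.le
  have e2 := Real.sq_sqrt h2.le
  have e3 : 1 / √θ - 1 / √(θ + x) = x / (√θ * √(θ + x) * (√θ + √(θ + x))) := by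
    rw [div_sub_div _ _ s.ne' t.ne', div_eq_div_iff (by positivity) (by positivity)]
    have : x = √(θ + x) ^ 2 - √θ ^ 2 := by rw [e1, e2]; ring
    generalize √(θ + x) = b at *
    generalize √θ = a at *
    rw [this]
    ring
  rw [Fp, e3]

private theorem W_lo {L θ : ℝ} (hL : 0 ≤ L) (h1 : L / 2 ≤ θ) : 7 / 10 * √L ≤ √θ := by
  refine Real.le_sqrt_of_sq_le ?_
  rw [mul_pow, Real.sq_sqrt hL]
  linarith

private theorem W_hi {L θ a : ℝ} (hL : 0 ≤ L) (ha : 0 ≤ a) (h1 : θ ≤ a ^ 2 * L) : √θ ≤ a * √L := by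
  refine Real.sqrt_le_iff.2 ⟨by positivity, ?_⟩
  rw [mul_pow, Real.sq_sqrt hL]
  exact h1

private theorem W_cube {L : ℝ} (hL : 0 ≤ L) : L * √L = √L ^ 3 := by
  have := Real.sq_sqrt hL
  calc L * √L = √L ^ 2 * √L := by rw [this]
    _ = √L ^ 3 := by ring

/-- bounds for `s t (s + t)` -/
private theorem W_D {l s t : ℝ} (hl : 0 < l) (s1 : 7 / 10 * l ≤ s) (s2 : s ≤ 224 / 100 * l)
    (t1 : 7 / 10 * l ≤ t) (t2 : t ≤ 3163 / 1000 * l) :
    68 / 100 * l ^ 3 ≤ s * t * (s + t) ∧ s * t * (s + t) ≤ 383 / 10 * l ^ 3 := by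
  have hs : 0 < s := by linarith
  have ht : 0 < t := by linarith
  constructor
  · have a1 : 49 / 100 * l ^ 2 ≤ s * t := by
      calc 49 / 100 * l ^ 2 = (7 / 10 * l) * (7 / 10 * l) := by ring
        _ ≤ s * t := mul_le_mul s1 t1 (by positivity) hs.le
    have a2 : 14 / 10 * l ≤ s + t := by linarith
    calc 68 / 100 * l ^ 3 ≤ (49 / 100 * l ^ 2) * (14 / 10 * l) := by
          have : 0 < l ^ 3 := by positivity
          nlinarith
      _ ≤ s * t * (s + t) := mul_le_mul a1 a2 (by positivity) (by positivity)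
  · have a1 : s * t ≤ (224 / 100 * l) * (3163 / 1000 * l) := mul_le_mul s2 t2 ht.le (by positivity)
    have a2 : s + t ≤ 5403 / 1000 * l := by linarith
    calc s * t * (s + t) ≤ ((224 / 100 * l) * (3163 / 1000 * l)) * (5403 / 1000 * l) :=
          mul_le_mul a1 a2 (by positivity) (by positivity)
      _ ≤ 383 / 10 * l ^ 3 := by
          have : 0 < l ^ 3 := by positivity
          nlinarith

/-- `H = √K |x| / (L√L)`: `H / 154 ≤ |Fp|` -/
private theorem W_bdlo {K : ℝ} {L : ℝ} {P x θ : ℝ} (hL : 1 ≤ L) (hK : L ≤ K) (P1 : √K / 2 ≤ P)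
    (h1 : L / 2 ≤ θ) (h2 : θ ≤ 5 * L) (h3 : L / 2 ≤ θ + x) (h4 : θ + x ≤ 10 * L) :
    √K * |x| / (L * √L) / 154 ≤ |Fp P x θ| := by
  have hL0 : 0 ≤ L := by linarith
  have hl : 0 < √L := Real.sqrt_pos.2 (by linarith)
  have hk : 0 < √K := Real.sqrt_pos.2 (by linarith)
  have hθ : 0 < θ := by linarith
  have hθ' : 0 < θ + x := by linarith
  obtain ⟨d1, d2⟩ := W_D hl (W_lo hL0 h1) (W_hi hL0 (by norm_num) (by nlinarith))
    (W_lo hL0 h3) (W_hi hL0 (by norm_num) (by nlinarith))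
  have hD : 0 < √θ * √(θ + x) * (√θ + √(θ + x)) := lt_of_lt_of_le (by positivity) d1
  have hP : 0 < P := by linarith
  have hP2 : |P / 2| = P / 2 := abs_of_pos (by positivity)
  rw [W_Fp P x θ hθ hθ', abs_mul, hP2, abs_div, abs_of_pos hD, W_cube hL0]
  generalize √θ * √(θ + x) * (√θ + √(θ + x)) = D at *
  have hx := abs_nonneg x
  have hl3 : 0 < √L ^ 3 := by positivity
  rw [div_div, div_le_iff₀ (by positivity)]
  have e1 : |x| / (383 / 10 * √L ^ 3) ≤ |x| / D := div_le_div_of_nonneg_left hx hD d2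
  have e2 : √K / 4 * (|x| / (383 / 10 * √L ^ 3)) ≤ P / 2 * (|x| / D) :=
    mul_le_mul (by linarith) e1 (by positivity) (by positivity)
  calc √K * |x| ≤ √K / 4 * (|x| / (383 / 10 * √L ^ 3)) * (√L ^ 3 * 154) := by
        have : √K / 4 * (|x| / (383 / 10 * √L ^ 3)) * (√L ^ 3 * 154) = √K * |x| * (154 / (4 * (383 / 10))) := by
          field_simp
        rw [this]
        have : 0 ≤ √K * |x| := by positivity
        nlinarith
    _ ≤ P / 2 * (|x| / D) * (√L ^ 3 * 154) := mul_le_mul_of_nonneg_right e2 (by positivity)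

/-- `|Fp| ≤ 2.21 H` -/
private theorem W_bdhi {K : ℝ} {L : ℝ} {P x θ : ℝ} (hL : 1 ≤ L) (hK : L ≤ K) (P1 : √K / 2 ≤ P) (P2 : P ≤ 3 * √K)
    (h1 : L / 2 ≤ θ) (h2 : θ ≤ 5 * L) (h3 : L / 2 ≤ θ + x) (h4 : θ + x ≤ 10 * L) :
    |Fp P x θ| ≤ 221 / 100 * (√K * |x| / (L * √L)) := by
  have hL0 : 0 ≤ L := by linarith
  have hl : 0 < √L := Real.sqrt_pos.2 (by linarith)
  have hk : 0 < √K := Real.sqrt_pos.2 (by linarith)
  have hθ : 0 < θ := by linarith
  have hθ' : 0 < θ + x := by linarith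
  obtain ⟨d1, d2⟩ := W_D hl (W_lo hL0 h1) (W_hi hL0 (by norm_num) (by nlinarith))
    (W_lo hL0 h3) (W_hi hL0 (by norm_num) (by nlinarith))
  have hD : 0 < √θ * √(θ + x) * (√θ + √(θ + x)) := lt_of_lt_of_le (by positivity) d1
  have hP : 0 < P := by linarith
  have hP2 : |P / 2| = P / 2 := abs_of_pos (by positivity)
  rw [W_Fp P x θ hθ hθ', abs_mul, hP2, abs_div, abs_of_pos hD, W_cube hL0]
  generalize √θ * √(θ + x) * (√θ + √(θ + x)) = D at *
  have hx := abs_nonneg x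
  have hl3 : 0 < √L ^ 3 := by positivity
  have e1 : |x| / D ≤ |x| / (68 / 100 * √L ^ 3) := div_le_div_of_nonneg_left hx (by positivity) d1
  calc P / 2 * (|x| / D) ≤ (3 * √K / 2) * (|x| / (68 / 100 * √L ^ 3)) :=
        mul_le_mul (by linarith) e1 (by positivity) (by positivity)
    _ = √K * |x| / √L ^ 3 * (3 / 2 * (100 / 68)) := by field_simp
    _ ≤ 221 / 100 * (√K * |x| / √L ^ 3) := by
        have : 0 ≤ √K * |x| / √L ^ 3 := by positivity
        nlinarith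

/-- spacing -/
private theorem W_sp {K : ℝ} {L : ℝ} {P x θ φ : ℝ} (hL : 1 ≤ L) (hK : L ≤ K) (P1 : √K / 2 ≤ P)
    (h1 : L / 2 ≤ θ) (h2 : θ ≤ 5 * L) (h3 : L / 2 ≤ θ + x) (h4 : θ + x ≤ 10 * L)
    (g1 : L / 2 ≤ φ) (g2 : φ ≤ 5 * L) (g3 : L / 2 ≤ φ + x) (g4 : φ + x ≤ 10 * L) (hle : θ ≤ φ) :
    √K * |x| / (L * √L) / L / 17000 * (φ - θ) ≤ |Fp P x θ - Fp P x φ| := by
  have hL0 : 0 ≤ L := by linarith
  have hl : 0 < √L := Real.sqrt_pos.2 (by linarith)
  have hk : 0 < √K := Real.sqrt_pos.2 (by linarith)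
  obtain ⟨d1, d2⟩ := W_D hl (W_lo hL0 h1) (W_hi hL0 (by norm_num) (by nlinarith))
    (W_lo hL0 h3) (W_hi hL0 (by norm_num) (by nlinarith))
  obtain ⟨c1, c2⟩ := W_D hl (W_lo hL0 g1) (W_hi hL0 (by norm_num) (by nlinarith))
    (W_lo hL0 g3) (W_hi hL0 (by norm_num) (by nlinarith))
  have hD : 0 < √θ * √(θ + x) * (√θ + √(θ + x)) := lt_of_lt_of_le (by positivity) d1
  have hC : 0 < √φ * √(φ + x) * (√φ + √(φ + x)) := lt_of_lt_of_le (by positivity) c1
  have hP : 0 < P := by linarith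
  -- the difference of the denominators
  have key : 7 / 20 * √L * (φ - θ) ≤
      √φ * √(φ + x) * (√φ + √(φ + x)) - √θ * √(θ + x) * (√θ + √(θ + x)) := by
    have s1 : √θ ≤ √φ := Real.sqrt_le_sqrt hle
    have t1 : √(θ + x) ≤ √(φ + x) := Real.sqrt_le_sqrt (by linarith)
    have t0 := W_lo hL0 h3
    have s0 : 0 < √θ := Real.sqrt_pos.2 (by linarith)
    have e1 : √θ ^ 2 = θ := Real.sq_sqrt (by linarith)
    have e2 : √φ ^ 2 = φ := Real.sq_sqrt (by linarith)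
    have e3 : φ - θ = (√φ - √θ) * (√φ + √θ) := by
      calc φ - θ = √φ ^ 2 - √θ ^ 2 := by rw [e1, e2]
        _ = _ := by ring
    rw [e3]
    generalize √θ = s at *
    generalize √φ = s' at *
    generalize √(θ + x) = t at *
    generalize √(φ + x) = t' at *
    generalize √L = l at *
    have ht : 0 < t := by linarith
    have a1 : t * (s' - s) ≤ s' * t' - s * t := by nlinarith
    have a2 : (s' + s) / 2 ≤ s' + t' := by linarith
    have a3 : t * (s' - s) * ((s' + s) / 2) ≤ (s' * t' - s * t) * (s' + t') :=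
      mul_le_mul a1 a2 (by linarith) (le_trans (mul_nonneg ht.le (by linarith)) a1)
    have a4 : (s' * t' - s * t) * (s' + t') ≤ s' * t' * (s' + t') - s * t * (s + t) := by
      have : 0 ≤ s * t * ((s' - s) + (t' - t)) := by
        have : 0 ≤ (s' - s) + (t' - t) := by linarith
        positivity
      nlinarith
    have a5 : 7 / 20 * l * ((s' - s) * (s' + s)) ≤ t * (s' - s) * ((s' + s) / 2) := by
      have : 0 ≤ (s' - s) * (s' + s) := mul_nonneg (by linarith) (by linarith)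
      nlinarith
    linarith
  rw [W_Fp P x θ (by linarith) (by linarith), W_Fp P x φ (by linarith) (by linarith), W_cube hL0]
  have e : P / 2 * (x / (√θ * √(θ + x) * (√θ + √(θ + x)))) - P / 2 * (x / (√φ * √(φ + x) * (√φ + √(φ + x)))) =
      P / 2 * x * ((√φ * √(φ + x) * (√φ + √(φ + x)) - √θ * √(θ + x) * (√θ + √(θ + x))) /
        ((√θ * √(θ + x) * (√θ + √(θ + x))) * (√φ * √(φ + x) * (√φ + √(φ + x))))) := by
    generalize √θ * √(θ + x) * (√θ + √(θ + x)) = D at *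
    generalize √φ * √(φ + x) * (√φ + √(φ + x)) = C at *
    field_simp
  rw [e]
  generalize √θ * √(θ + x) * (√θ + √(θ + x)) = D at *
  generalize √φ * √(φ + x) * (√φ + √(φ + x)) = C at *
  have hd : 0 ≤ φ - θ := by linarith
  have hk2 : 0 ≤ 7 / 20 * √L * (φ - θ) := by positivity
  rw [abs_mul, abs_mul, abs_of_pos (by positivity : 0 < P / 2),
    abs_of_nonneg (div_nonneg (le_trans hk2 key) (by positivity) : 0 ≤ (C - D) / (D * C))]
  have f1 : 7 / 20 * √L * (φ - θ) / ((383 / 10 * √L ^ 3) * (383 / 10 * √L ^ 3)) ≤ (C - D) / (D * C) :=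
    div_le_div₀ (le_trans hk2 key) key (by positivity) (mul_le_mul d2 c2 hC.le (by positivity))
  have f2 : √K / 4 * |x| * (7 / 20 * √L * (φ - θ) / ((383 / 10 * √L ^ 3) * (383 / 10 * √L ^ 3))) ≤
      P / 2 * |x| * ((C - D) / (D * C)) :=
    mul_le_mul (mul_le_mul_of_nonneg_right (by linarith) (abs_nonneg x)) f1 (by positivity) (by positivity)
  refine le_trans ?_ f2
  have hL2 : L = √L ^ 2 := (Real.sq_sqrt hL0).symm
  have f3 : √K * |x| / √L ^ 3 / L / 17000 * (φ - θ) = √K * |x| * (φ - θ) / √L ^ 5 * (1 / 17000) := by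
    have : √K * |x| / √L ^ 3 / L = √K * |x| / √L ^ 5 := by
      rw [div_div]
      congr 1
      calc √L ^ 3 * L = √L ^ 3 * √L ^ 2 := by rw [← hL2]
        _ = √L ^ 5 := by ring
    rw [this]
    ring
  have f4 : √K / 4 * |x| * (7 / 20 * √L * (φ - θ) / ((383 / 10 * √L ^ 3) * (383 / 10 * √L ^ 3))) =
      √K * |x| * (φ - θ) / √L ^ 5 * (7 / 80 / ((383 / 10) * (383 / 10))) := by
    field_simp
    ring
  rw [f3, f4]
  exact mul_le_mul_of_nonneg_left (by norm_num) (by positivity)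

/-- the sum over an interval of integers -/
private theorem W_sum {a : ℝ} (ha : 0 < a) (N : ℕ) :
    ∑ n ∈ Icc (-(N : ℤ)) N, 1 / (1 + (a * (n : ℝ)) ^ 2) ≤ 1 + 4 / a * (1 - 1 / (1 + a * N)) := by
  induction N with
  | zero => simp
  | succ N ih =>
    have hI : Icc (-((N + 1 : ℕ) : ℤ)) ((N + 1 : ℕ) : ℤ) =
        insert (-((N : ℤ) + 1)) (insert ((N : ℤ) + 1) (Icc (-(N : ℤ)) N)) := by
      ext n
      simp only [mem_Icc, mem_insert]
      push_cast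
      omega
    rw [hI, sum_insert (by simp only [mem_insert, mem_Icc]; omega), sum_insert (by simp only [mem_Icc]; omega)]
    have hN : (0 : ℝ) ≤ N := Nat.cast_nonneg N
    have e1 : 1 / (1 + (a * ((N : ℝ) + 1)) ^ 2) ≤ 2 / a * (1 / (1 + a * N) - 1 / (1 + a * (N + 1))) := by
      have e2 : 2 / a * (1 / (1 + a * N) - 1 / (1 + a * (N + 1))) = 2 / ((1 + a * N) * (1 + a * (N + 1))) := by
        field_simp
        ring
      rw [e2, div_le_div_iff₀ (by positivity) (by positivity)]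
      nlinarith [sq_nonneg (a * (N + 1) - 1), mul_nonneg ha.le hN]
    have e3 : (((-((N : ℤ) + 1) : ℤ) : ℝ)) = -((N : ℝ) + 1) := by push_cast; ring
    have e4 : ((((N : ℤ) + 1 : ℤ) : ℝ)) = (N : ℝ) + 1 := by push_cast; ring
    rw [e3, e4]
    have e5 : (a * -((N : ℝ) + 1)) ^ 2 = (a * ((N : ℝ) + 1)) ^ 2 := by ring
    rw [e5]
    push_cast
    have : 4 / a * (1 - 1 / (1 + a * ((N : ℝ) + 1))) = 4 / a * (1 - 1 / (1 + a * N)) +
        2 * (2 / a * (1 / (1 + a * N) - 1 / (1 + a * (N + 1)))) := by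
      ring
    linarith

private theorem W_sum' {a : ℝ} (ha : 0 < a) (S : Finset ℤ) (c0 : ℤ) :
    ∑ c ∈ S, 1 / (1 + (a * ((c : ℝ) - c0)) ^ 2) ≤ 1 + 4 / a := by
  classical
  obtain ⟨N, hN⟩ : ∃ N : ℕ, ∀ c ∈ S, |c - c0| ≤ N := by
    refine ⟨(S.sup fun c => (c - c0).natAbs), fun c hc => ?_⟩
    have := Finset.le_sup (f := fun c : ℤ => (c - c0).natAbs) hc
    have h2 : (c - c0).natAbs ≤ S.sup (fun c : ℤ => (c - c0).natAbs) := this
    rw [Int.abs_eq_natAbs]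
    exact_mod_cast h2
  have h1 : ∑ c ∈ S, 1 / (1 + (a * ((c : ℝ) - c0)) ^ 2) ≤ ∑ n ∈ Icc (-(N : ℤ)) N, 1 / (1 + (a * (n : ℝ)) ^ 2) := by
    have e : ∑ c ∈ S, 1 / (1 + (a * ((c : ℝ) - c0)) ^ 2) =
        ∑ n ∈ S.image (fun c => c - c0), 1 / (1 + (a * (n : ℝ)) ^ 2) := by
      rw [sum_image (fun x _ y _ h => by simpa using h)]
      refine sum_congr rfl (fun c _ => ?_)
      push_cast
      rfl
    rw [e]
    refine sum_le_sum_of_subset_of_nonneg ?_ (fun _ _ _ => by positivity)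
    intro n hn
    obtain ⟨c, hc, rfl⟩ := mem_image.1 hn
    have := abs_le.1 (hN c hc)
    exact mem_Icc.2 this
  refine h1.trans ((W_sum ha N).trans ?_)
  have : 0 ≤ 4 / a * (1 / (1 + a * N)) := by positivity
  nlinarith

/-- points with spacing `δ` -/
private theorem W_space {M δ : ℝ} (hM : 0 < M) (hδ : 0 < δ) (S : Finset ℤ) (y : ℤ → ℝ)
    (hy : ∀ c ∈ S, ∀ d ∈ S, δ * |(c : ℝ) - d| ≤ |y c - y d|) (h : ℝ) :
    ∑ c ∈ S, wt M (h - y c) ≤ 1 + 8 * M / δ := by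
  rcases S.eq_empty_or_nonempty with rfl | hS
  · simp only [sum_empty]
    positivity
  obtain ⟨c0, hc0, hmin⟩ := S.exists_min_image (fun c => |h - y c|) hS
  have h1 : ∀ c ∈ S, wt M (h - y c) ≤ 1 / (1 + (δ / (2 * M) * ((c : ℝ) - c0)) ^ 2) := by
    intro c hc
    unfold wt
    apply one_div_le_one_div_of_le (by positivity)
    have h2 := hy c hc c0 hc0
    have h3 : |y c - y c0| ≤ 2 * |h - y c| := by
      calc |y c - y c0| = |(h - y c0) - (h - y c)| := by ring_nf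
        _ ≤ |h - y c0| + |h - y c| := abs_sub _ _
        _ ≤ 2 * |h - y c| := by linarith [hmin c hc]
    have h4 : |δ / (2 * M) * ((c : ℝ) - c0)| ≤ |(h - y c) / M| := by
      rw [abs_mul, abs_of_pos (by positivity : 0 < δ / (2 * M)), abs_div, abs_of_pos hM, div_mul_eq_mul_div,
        div_le_div_iff₀ (by positivity) hM]
      nlinarith
    have h5 := sq_le_sq.2 h4
    linarith
  refine (sum_le_sum h1).trans ((W_sum' (by positivity) S c0).trans (le_of_eq ?_))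
  field_simp
  ring

/-- rounding costs a factor two -/
private theorem W_round {M : ℝ} (hM : 1 ≤ M) (h y : ℝ) : wt M (h - (round y : ℝ)) ≤ 2 * wt M (h - y) := by
  have h1 := abs_sub_round y
  unfold wt
  have h2 : ((h - y) / M) ^ 2 ≤ 2 * ((h - (round y : ℝ)) / M) ^ 2 + 1 / 2 := by
    have e : (h - y) / M = (h - (round y : ℝ)) / M + ((round y : ℝ) - y) / M := by ring
    have h3 : (((round y : ℝ) - y) / M) ^ 2 ≤ 1 / 4 := by
      have : |((round y : ℝ) - y) / M| ≤ 1 / 2 := by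
        rw [abs_div, abs_sub_comm, abs_of_pos (by linarith : 0 < M)]
        calc |y - (round y : ℝ)| / M ≤ |y - (round y : ℝ)| / 1 :=
              div_le_div_of_nonneg_left (abs_nonneg _) one_pos hM
          _ ≤ 1 / 2 := by rw [div_one]; exact h1
      have := sq_le_sq' (by linarith [(abs_le.1 this).1]) (abs_le.1 this).2
      linarith
    rw [e]
    nlinarith [sq_nonneg ((h - (round y : ℝ)) / M - ((round y : ℝ) - y) / M)]
  rw [mul_one_div, div_le_div_iff₀ (by positivity) (by positivity)]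
  nlinarith [sq_nonneg ((h - (round y : ℝ)) / M)]

/-- `|h - j| ≥ D` for all cells -/
private theorem W_far {L M D : ℝ} (hM : 0 < M) (hD : 0 < D) {S : Finset ℤ} (j : ℤ → ℝ) (h : ℝ)
    (hn : (S.card : ℝ) ≤ 6 * (L * M)) (hj : ∀ c ∈ S, D ≤ |h - j c|) :
    ∑ c ∈ S, wt M (h - j c) ≤ 6 * M ^ 2 * (L * M / D ^ 2) := by
  have h1 : ∀ c ∈ S, wt M (h - j c) ≤ M ^ 2 / D ^ 2 := by
    intro c hc
    unfold wt
    have h2 : D ^ 2 ≤ (h - j c) ^ 2 := by
      rw [← sq_abs (h - j c)]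
      exact pow_le_pow_left₀ hD.le (hj c hc) 2
    rw [div_pow, div_le_div_iff₀ (by positivity) (by positivity), mul_add]
    have : M ^ 2 * ((h - j c) ^ 2 / M ^ 2) = (h - j c) ^ 2 := by field_simp
    rw [this]
    nlinarith [sq_nonneg M]
  calc ∑ c ∈ S, wt M (h - j c) ≤ ∑ c ∈ S, M ^ 2 / D ^ 2 := sum_le_sum h1
    _ = S.card * (M ^ 2 / D ^ 2) := by rw [sum_const, nsmul_eq_mul]
    _ ≤ 6 * (L * M) * (M ^ 2 / D ^ 2) := mul_le_mul_of_nonneg_right hn (by positivity)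
    _ = _ := by ring

private theorem W_card {L M : ℕ} (hL : 1 ≤ L) (hM : 1 ≤ M) {S : Finset ℤ}
    (hS : ∀ c ∈ S, (L : ℝ) / 2 ≤ (c : ℝ) / M ∧ (c : ℝ) / M ≤ 5 * L) : (S.card : ℝ) ≤ 6 * ((L : ℝ) * M) := by
  have hM0 : (0 : ℝ) < M := by exact_mod_cast hM
  have h1 : S ⊆ Icc 1 (5 * (L * M) : ℤ) := by
    intro c hc
    obtain ⟨a, b⟩ := hS c hc
    rw [le_div_iff₀ hM0] at a
    rw [div_le_iff₀ hM0] at b
    rw [mem_Icc]
    constructor
    · have : (0 : ℝ) < c := lt_of_lt_of_le (by positivity) a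
      have : 0 < c := by exact_mod_cast this
      omega
    · have : (c : ℝ) ≤ ((5 * (L * M) : ℤ) : ℝ) := by push_cast; linarith
      exact_mod_cast this
  have h2 := card_le_card h1
  rw [Int.card_Icc] at h2
  have h3 : (5 * ((L : ℤ) * M) + 1 - 1).toNat = 5 * (L * M) := by
    push_cast
    omega
  rw [h3] at h2
  have h4 : (S.card : ℝ) ≤ ((5 * (L * M) : ℕ) : ℝ) := by exact_mod_cast h2
  push_cast at h4
  nlinarith [mul_nonneg (Nat.cast_nonneg (α := ℝ) L) (Nat.cast_nonneg (α := ℝ) M)]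

/-- `|Fp| ≤ P/2 · √(2/L) ≤ 2.2 √(K/L)` -/
theorem js_upper : ∀ (K : ℝ) (L : ℕ) (P x θ : ℝ), 1 ≤ L → (L : ℝ) ≤ K → 0 ≤ P → P ≤ 3 * √K →
    (L : ℝ) / 2 ≤ θ → (L : ℝ) / 2 ≤ θ + x → |(round (Fp P x θ) : ℝ)| ≤ 4 * √(K / L) := by
  intro K L P x θ hL hK hP0 hP h1 h2
  have hL1 : (1 : ℝ) ≤ L := by exact_mod_cast hL
  have hL0 : (0 : ℝ) ≤ L := by linarith
  have hl : 0 < √(L : ℝ) := Real.sqrt_pos.2 (by linarith)
  have s1 := W_lo hL0 h1
  have t1 := W_lo hL0 h2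
  have hs : 0 < √θ := by linarith
  have ht : 0 < √(θ + x) := by linarith
  have e1 : 1 / √θ ≤ 1 / (7 / 10 * √(L : ℝ)) := one_div_le_one_div_of_le (by positivity) s1
  have e2 : 1 / √(θ + x) ≤ 1 / (7 / 10 * √(L : ℝ)) := one_div_le_one_div_of_le (by positivity) t1
  have e3 : |1 / √θ - 1 / √(θ + x)| ≤ 1 / (7 / 10 * √(L : ℝ)) := by
    have a1 : 0 < 1 / √θ := by positivity
    have a2 : 0 < 1 / √(θ + x) := by positivity
    rw [abs_le]
    constructor <;> linarith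
  have hk : √K / √(L : ℝ) = √(K / L) := (Real.sqrt_div' K hL0).symm
  have e4 : |Fp P x θ| ≤ 22 / 10 * √(K / L) := by
    rw [Fp, abs_mul, abs_of_nonneg (by linarith : 0 ≤ P / 2), ← hk]
    calc P / 2 * |1 / √θ - 1 / √(θ + x)| ≤ (3 * √K / 2) * (1 / (7 / 10 * √(L : ℝ))) :=
          mul_le_mul (by linarith) e3 (abs_nonneg _) (by positivity)
      _ = √K / √(L : ℝ) * (15 / 7) := by field_simp; ring
      _ ≤ 22 / 10 * (√K / √(L : ℝ)) := by
          have : 0 ≤ √K / √(L : ℝ) := by positivity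
          nlinarith
  have e5 : 1 ≤ √(K / L) := by
    rw [Real.one_le_sqrt, le_div_iff₀ (by linarith)]
    linarith
  have e6 := abs_sub_round (Fp P x θ)
  calc |(round (Fp P x θ) : ℝ)| = |Fp P x θ - (Fp P x θ - round (Fp P x θ))| := by ring_nf
    _ ≤ |Fp P x θ| + |Fp P x θ - round (Fp P x θ)| := abs_sub _ _
    _ ≤ 4 * √(K / L) := by linarith

/-- `|Fp| = P|x| / (2 √θ √(θ+x) (√θ+√(θ+x))) ≥ √K |x| / (153 L√L)` -/
theorem js_lower : ∀ (K : ℝ) (L : ℕ) (P x Jm θ : ℝ), 1 ≤ L → (L : ℝ) ≤ K → √K / 2 ≤ P →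
    1 ≤ Jm → 400 * ((L : ℝ) * √(L : ℝ) * Jm) ≤ √K * |x| →
    (L : ℝ) / 2 ≤ θ → θ ≤ 5 * L → (L : ℝ) / 2 ≤ θ + x → θ + x ≤ 10 * L →
    2 * Jm ≤ |(round (Fp P x θ) : ℝ)| := by
  intro K L P x Jm θ hL hK P1 hJ hx h1 h2 h3 h4
  have hL1 : (1 : ℝ) ≤ L := by exact_mod_cast hL
  have hl : 0 < √(L : ℝ) := Real.sqrt_pos.2 (by linarith)
  have e1 := W_bdlo hL1 hK P1 h1 h2 h3 h4
  have e2 : 400 * Jm ≤ √K * |x| / ((L : ℝ) * √(L : ℝ)) := by
    rw [le_div_iff₀ (by positivity)]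
    linarith
  have e3 := abs_sub_round (Fp P x θ)
  have e4 : |Fp P x θ| ≤ |(round (Fp P x θ) : ℝ)| + 1 / 2 := by
    calc |Fp P x θ| = |(round (Fp P x θ) : ℝ) + (Fp P x θ - round (Fp P x θ))| := by ring_nf
      _ ≤ |(round (Fp P x θ) : ℝ)| + |Fp P x θ - round (Fp P x θ)| := abs_add_le _ _
      _ ≤ _ := by linarith
  linarith

/-- `H0 := √K |x| / (153 L√L) ≤ |Fp| ≤ H1 := 2.2 √K |x| / (L√L)`, `|Fp| ≤ 2.2 √(K/L)`,
`|Fp'(θ)| ≥ c √K |x| / (L² √L)` (`Fp' = -P/4 (θ^{-3/2} - (θ+x)^{-3/2})`, one sign).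
* `|h| < Jm`: `|h - js| ≥ H0/4`; * `|h| > 8√(K/L)`: `|h - js| ≥ |h|/2`; both: number of cells `≤ 6LM`.
* `Jm ≤ |h| ≤ 8√(K/L)`: if `|h| ≥ 2H1+2` or `|h| ≤ H0/2` the same; otherwise the points `Fp(c/M)` are spaced by
  `δ = c √K |x|/(L²√L M)`: `∑ wt ≤ C (1 + M/δ) ≤ C L/|x| ≤ C M² L/|h|`. -/
theorem cells : ∃ C : ℝ, 1 ≤ C ∧ ∀ (K : ℝ) (L M : ℕ) (P x Jm : ℝ), 1 ≤ L → (L : ℝ) ≤ K → 1 ≤ M →
    √K ≤ (L : ℝ) * √(L : ℝ) * (M : ℝ) ^ 2 → (L : ℝ) * √(L : ℝ) * (M : ℝ) ^ 2 ≤ 4 * √K →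
    √K / 2 ≤ P → P ≤ 3 * √K → (M : ℝ) ≤ Jm → 400 * ((L : ℝ) * √(L : ℝ) * Jm) ≤ √K * |x| → |x| ≤ 10 * L →
    ∀ S : Finset ℤ, (∀ c ∈ S, (L : ℝ) / 2 ≤ (c : ℝ) / M ∧ (c : ℝ) / M ≤ 5 * L ∧
      (L : ℝ) / 2 ≤ (c : ℝ) / M + x ∧ (c : ℝ) / M + x ≤ 10 * L) →
    ∀ h : ℤ, ∑ c ∈ S, wt M (h - round (Fp P x ((c : ℝ) / M))) ≤ C * (M : ℝ) ^ 2 * Om K L M Jm h := by
  refine ⟨2 * 10 ^ 6, by norm_num, ?_⟩
  intro K L M P x Jm hL hK hM M1 _ P1 P2 hJ hx hxL S hS h
  have hL1 : (1 : ℝ) ≤ L := by exact_mod_cast hL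
  have hM1 : (1 : ℝ) ≤ M := by exact_mod_cast hM
  have hM0 : (0 : ℝ) < M := by linarith
  have hl : 0 < √(L : ℝ) := Real.sqrt_pos.2 (by linarith)
  have hk : 0 < √K := Real.sqrt_pos.2 (by linarith)
  have hJ0 : 0 < Jm := by linarith
  have hcard := W_card hL hM (fun c hc => ⟨(hS c hc).1, (hS c hc).2.1⟩)
  have hlow : ∀ c ∈ S, 2 * Jm ≤ |(round (Fp P x ((c : ℝ) / M)) : ℝ)| := fun c hc =>
    js_lower K L P x Jm _ hL hK P1 (by linarith) hx (hS c hc).1 (hS c hc).2.1 (hS c hc).2.2.1 (hS c hc).2.2.2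
  have hup : ∀ c ∈ S, |(round (Fp P x ((c : ℝ) / M)) : ℝ)| ≤ 4 * √(K / L) := fun c hc =>
    js_upper K L P x _ hL hK (by linarith) P2 (hS c hc).1 (hS c hc).2.2.1
  have hM2 : 0 ≤ (M : ℝ) ^ 2 := by positivity
  -- the far case
  have far : ∀ D : ℝ, 0 < D → (∀ c ∈ S, D ≤ |(h : ℝ) - (round (Fp P x ((c : ℝ) / M)) : ℝ)|) →
      ∑ c ∈ S, wt M (h - round (Fp P x ((c : ℝ) / M))) ≤ 6 * (M : ℝ) ^ 2 * (L * M / D ^ 2) :=
    fun D hD hj => W_far hM0 hD (fun c => (round (Fp P x ((c : ℝ) / M)) : ℝ)) h hcard hj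
  rw [Om]
  split_ifs with c1 c2
  · refine (far Jm hJ0 (fun c hc => ?_)).trans ?_
    · have e1 := hlow c hc
      have e2 := abs_sub_abs_le_abs_sub (round (Fp P x ((c : ℝ) / M)) : ℝ) h
      rw [abs_sub_comm] at e2
      linarith
    · have : 0 ≤ (M : ℝ) ^ 2 * (L * M / Jm ^ 2) := by positivity
      nlinarith
  · push Not at c1
    have hh : 0 < |(h : ℝ)| := by linarith
    set H : ℝ := √K * |x| / ((L : ℝ) * √(L : ℝ)) with hH
    have hH4 : 400 * Jm ≤ H := by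
      rw [hH, le_div_iff₀ (by positivity)]
      linarith
    have hH0 : 0 < H := by linarith
    rcases le_or_gt (5 * H + 2) |(h : ℝ)| with hc | hc
    · refine (far (|(h : ℝ)| / 2) (by positivity) (fun c hc' => ?_)).trans ?_
      · have e1 := W_bdhi hL1 hK P1 P2 (hS c hc').1 (hS c hc').2.1 (hS c hc').2.2.1 (hS c hc').2.2.2
        rw [← hH] at e1
        have e3 := abs_sub_round (Fp P x ((c : ℝ) / M))
        have e4 : |(round (Fp P x ((c : ℝ) / M)) : ℝ)| ≤ |Fp P x ((c : ℝ) / M)| + 1 / 2 := by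
          calc |(round (Fp P x ((c : ℝ) / M)) : ℝ)|
              = |Fp P x ((c : ℝ) / M) - (Fp P x ((c : ℝ) / M) - round (Fp P x ((c : ℝ) / M)))| := by ring_nf
            _ ≤ |Fp P x ((c : ℝ) / M)| + |Fp P x ((c : ℝ) / M) - round (Fp P x ((c : ℝ) / M))| := abs_sub _ _
            _ ≤ _ := by linarith
        have e5 := abs_sub_abs_le_abs_sub (h : ℝ) (round (Fp P x ((c : ℝ) / M)) : ℝ)
        linarith
      · have e1 : (L : ℝ) * M / (|(h : ℝ)| / 2) ^ 2 = 4 * (M / |(h : ℝ)|) * (L / |(h : ℝ)|) := by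
          field_simp
          ring
        have e2 : (M : ℝ) / |(h : ℝ)| ≤ 1 := by
          rw [div_le_one hh]
          linarith
        have e3 : 0 ≤ (L : ℝ) / |(h : ℝ)| := by positivity
        rw [e1]
        have e4 : 4 * ((M : ℝ) / |(h : ℝ)|) * (L / |(h : ℝ)|) ≤ 4 * 1 * (L / |(h : ℝ)|) :=
          mul_le_mul_of_nonneg_right (by linarith) e3
        have e5 : 0 ≤ (M : ℝ) ^ 2 * (L / |(h : ℝ)|) := by positivity
        nlinarith
    · -- the near case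
      have sp : ∀ c ∈ S, ∀ d ∈ S, c ≤ d → H / (17000 * L * M) * |(c : ℝ) - d| ≤
          |Fp P x ((c : ℝ) / M) - Fp P x ((d : ℝ) / M)| := by
        intro c hc' d hd hcd
        have hcd' : (c : ℝ) ≤ d := by exact_mod_cast hcd
        have e1 := W_sp hL1 hK P1 (hS c hc').1 (hS c hc').2.1 (hS c hc').2.2.1 (hS c hc').2.2.2
          (hS d hd).1 (hS d hd).2.1 (hS d hd).2.2.1 (hS d hd).2.2.2 (div_le_div_of_nonneg_right hcd' hM0.le)
        refine le_trans (le_of_eq ?_) e1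
        rw [← hH, abs_sub_comm, abs_of_nonneg (by linarith : 0 ≤ (d : ℝ) - c)]
        field_simp
      have hL0 : (0 : ℝ) < L := by linarith
      have e2 := W_space hM0 (by positivity : 0 < H / (17000 * L * M)) S (fun c => Fp P x ((c : ℝ) / M)) (by
        intro c hc' d hd
        rcases le_total c d with hcd | hcd
        · exact sp c hc' d hd hcd
        · have := sp d hd c hc' hcd
          rwa [abs_sub_comm, abs_sub_comm (Fp P x ((d : ℝ) / M))] at this) h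
      have e3 : ∑ c ∈ S, wt M (h - round (Fp P x ((c : ℝ) / M))) ≤
          2 * ∑ c ∈ S, wt M (h - Fp P x ((c : ℝ) / M)) := by
        rw [mul_sum]
        exact sum_le_sum (fun c _ => W_round hM1 h _)
      have e4 : 1 + 8 * (M : ℝ) / (H / (17000 * L * M)) = 1 + 136000 * (L * (M : ℝ) ^ 2 / H) := by
        field_simp
        ring
      rw [e4] at e2
      have hH1 : 5 * H + 2 ≤ 501 / 100 * H := by linarith
      have e5 : (L : ℝ) * (M : ℝ) ^ 2 / H ≤ 501 / 100 * ((M : ℝ) ^ 2 * (L / |(h : ℝ)|)) := by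
        rw [div_le_iff₀ hH0]
        have : 501 / 100 * ((M : ℝ) ^ 2 * (L / |(h : ℝ)|)) * H = L * (M : ℝ) ^ 2 * (501 / 100 * H / |(h : ℝ)|) := by
          field_simp
        rw [this]
        have h1 : 1 ≤ 501 / 100 * H / |(h : ℝ)| := by
          rw [le_div_iff₀ hh]
          linarith
        have h2 : 0 ≤ (L : ℝ) * (M : ℝ) ^ 2 := by positivity
        nlinarith
      have e6 : 1 / 10 ≤ (L : ℝ) * (M : ℝ) ^ 2 / H := by
        rw [hH, le_div_iff₀ (by rw [← hH]; exact hH0), mul_div_assoc', div_le_iff₀ (by positivity)]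
        have h1 : √K * |x| ≤ ((L : ℝ) * √(L : ℝ) * (M : ℝ) ^ 2) * (10 * L) :=
          mul_le_mul M1 hxL (abs_nonneg x) (by positivity)
        nlinarith
      have e7 : 0 ≤ (M : ℝ) ^ 2 * (L / |(h : ℝ)|) := by positivity
      have e8 : 2 * 10 ^ 6 * (M : ℝ) ^ 2 * (L / |(h : ℝ)|) = 2 * 10 ^ 6 * ((M : ℝ) ^ 2 * (L / |(h : ℝ)|)) := by ring
      rw [e8]
      linarith
  · push Not at c1 c2
    have hh : 0 < |(h : ℝ)| := by linarith
    refine (far (|(h : ℝ)| / 2) (by positivity) (fun c hc' => ?_)).trans ?_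
    · have e1 := hup c hc'
      have e5 := abs_sub_abs_le_abs_sub (h : ℝ) (round (Fp P x ((c : ℝ) / M)) : ℝ)
      linarith
    · have e1 : (|(h : ℝ)| / 2) ^ 2 = (h : ℝ) ^ 2 / 4 := by
        rw [div_pow, sq_abs]
        norm_num
      have h0 : (h : ℝ) ≠ 0 := abs_pos.1 hh
      have e2 : (L : ℝ) * M / ((h : ℝ) ^ 2 / 4) = 4 * (L * M / (h : ℝ) ^ 2) := by
        field_simp
      rw [e1, e2]
      have e5 : 0 ≤ (M : ℝ) ^ 2 * (L * M / (h : ℝ) ^ 2) := by positivity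
      nlinarith

end TS
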