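import Pool.Agent.Lib.MP_39df77_nt.TS.WCount
import Pool.Agent.Lib.MP_39df77_nt.TS.Cells

/-!
Row TS-A3: sum over all cells and pairs of blocks with `|x| ≥ xi`.
-/

set_option autoImplicit false

namespace TS

open Finset

/-- the basic consequence of `big` -/
theorem a3_big {K R : ℝ} {L M B : ℕ} (hp : Par K R L M B) :
    10 ^ 24 * ((L : ℝ) ^ 5 * √(L : ℝ) * R ^ 5) ≤ √K := by
  have hR := hp.hR
  have hL : (1 : ℝ) ≤ L := by exact_mod_cast hp.hL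
  have hl : √(L : ℝ) ^ 2 = L := Real.sq_sqrt (by linarith)
  have hl1 : 1 ≤ √(L : ℝ) := Real.one_le_sqrt.2 hL
  have hR0 : 0 < R := by linarith
  refine (Real.le_sqrt' (by positivity)).2 ?_
  refine le_trans ?_ hp.big
  have e1 : (10 ^ 24 * ((L : ℝ) ^ 5 * √(L : ℝ) * R ^ 5)) ^ 2 = 10 ^ 48 * ((L : ℝ) ^ 11 * R ^ 10) := by
    calc (10 ^ 24 * ((L : ℝ) ^ 5 * √(L : ℝ) * R ^ 5)) ^ 2
        = 10 ^ 48 * ((L : ℝ) ^ 10 * √(L : ℝ) ^ 2 * R ^ 10) := by ring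
      _ = _ := by rw [hl]; ring
  rw [e1, mul_pow]
  have : R ^ 10 ≤ R ^ 11 := pow_le_pow_right₀ hR (by norm_num)
  gcongr

/-- `Jm` -/
noncomputable def a3J (K R : ℝ) (L : ℕ) : ℝ := √K / (4 * 10 ^ 6 * ((L : ℝ) ^ 2 * √(L : ℝ) * R))

theorem a3_J_eq {K R : ℝ} {L M B : ℕ} (hp : Par K R L M B) :
    400 * ((L : ℝ) * √(L : ℝ) * a3J K R L) = √K * xi R L := by
  have hR := hp.hR
  have hL : (1 : ℝ) ≤ L := by exact_mod_cast hp.hL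
  have hl1 : 1 ≤ √(L : ℝ) := Real.one_le_sqrt.2 hL
  have hR0 : 0 < R := by linarith
  have : 0 < √(L : ℝ) := by linarith
  have : (0 : ℝ) < L := by linarith
  unfold a3J xi
  field_simp
  ring

/-- all the size conditions -/
theorem a3_params {K R : ℝ} {L M B : ℕ} (hp : Par K R L M B) :
    (10 : ℝ) ^ 48 ≤ K ∧ (L : ℝ) ≤ K ∧ 1 ≤ M ∧ 1 ≤ B ∧ (L : ℝ) * M ≤ a3J K R L ∧ (M : ℝ) ≤ a3J K R L ∧
    K ≤ B * a3J K R L ∧ K ≤ (B : ℝ) ^ 2 ∧ (B : ℝ) ≤ K ∧ (M : ℝ) ≤ 2 * √(√K) ∧ (L : ℝ) ^ 4 ≤ K := by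
  have hR := hp.hR
  have hL : (1 : ℝ) ≤ L := by exact_mod_cast hp.hL
  have hl : √(L : ℝ) ^ 2 = L := Real.sq_sqrt (by linarith)
  have hl1 : 1 ≤ √(L : ℝ) := Real.one_le_sqrt.2 hL
  have hR0 : 0 < R := by linarith
  have hL0 : (0 : ℝ) < L := by linarith
  have hl0 : 0 < √(L : ℝ) := by linarith
  have hA := a3_big hp
  have hLR : 1 ≤ (L : ℝ) * R := one_le_mul_of_one_le_of_one_le hL hR
  have hK : (10 : ℝ) ^ 48 ≤ K := by
    have : (1 : ℝ) ≤ ((L : ℝ) * R) ^ 11 := one_le_pow₀ hLR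
    have := hp.big
    nlinarith
  have hK0 : 0 < K := by linarith [show (0 : ℝ) < 10 ^ 48 by norm_num]
  have hK1 : 1 ≤ K := by linarith [show (1 : ℝ) < 10 ^ 48 by norm_num]
  have ha : √K ^ 2 = K := Real.sq_sqrt hK0.le
  have ha0 : 0 < √K := Real.sqrt_pos.2 hK0
  have hak : √K ≤ K := by nlinarith [Real.one_le_sqrt.2 hK1]
  have hL4 : (L : ℝ) ^ 4 ≤ K := by
    have h1 : (L : ℝ) ^ 4 ≤ ((L : ℝ) * R) ^ 11 := by
      calc (L : ℝ) ^ 4 ≤ (L : ℝ) ^ 11 := pow_le_pow_right₀ hL (by norm_num)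
        _ ≤ ((L : ℝ) * R) ^ 11 := by
            apply pow_le_pow_left₀ hL0.le
            nlinarith
    have h2 : ((L : ℝ) * R) ^ 11 ≤ 10 ^ 48 * ((L : ℝ) * R) ^ 11 := by
      have : 0 ≤ ((L : ℝ) * R) ^ 11 := by positivity
      nlinarith
    linarith [hp.big]
  have hLK : (L : ℝ) ≤ K := by
    have : (L : ℝ) ≤ (L : ℝ) ^ 4 := by
      calc (L : ℝ) = (L : ℝ) ^ 1 := (pow_one _).symm
        _ ≤ _ := pow_le_pow_right₀ hL (by norm_num)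
    linarith
  have hM : 1 ≤ M := by
    by_contra hc
    have : M = 0 := by omega
    have h1 := hp.M1
    rw [this] at h1
    simp at h1
    linarith
  have hM' : (1 : ℝ) ≤ M := by exact_mod_cast hM
  -- M ^ 2
  have hM2 : (M : ℝ) ^ 2 * (L * √(L : ℝ)) ≤ 4 * √K := by
    have := hp.M2; nlinarith
  have hMsq : (M : ℝ) ^ 2 ≤ 4 * √K := by
    have h1 : 1 ≤ (L : ℝ) * √(L : ℝ) := one_le_mul_of_one_le_of_one_le hL hl1
    nlinarith [sq_nonneg (M : ℝ)]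
  have hMle : (M : ℝ) ≤ 2 * √(√K) := by
    have h1 : (M : ℝ) ≤ √(4 * √K) := Real.le_sqrt_of_sq_le hMsq
    have h2 : √(4 * √K) = 2 * √(√K) := by
      rw [Real.sqrt_mul (by norm_num), show (4 : ℝ) = 2 ^ 2 by norm_num, Real.sqrt_sq (by norm_num)]
    linarith
  have hB : 1 ≤ B := by
    by_contra hc
    have : B = 0 := by omega
    have h1 := hp.B2
    rw [this] at h1
    simp at h1
    nlinarith [mul_pos hK0 ha0]
  have hB' : (1 : ℝ) ≤ B := by exact_mod_cast hB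
  -- powers of L and R
  have hx : ∀ (i j : ℕ), i ≤ 5 → j ≤ 5 → (L : ℝ) ^ i * √(L : ℝ) * R ^ j ≤ (L : ℝ) ^ 5 * √(L : ℝ) * R ^ 5 := by
    intro i j hi hj
    have h1 : (L : ℝ) ^ i ≤ (L : ℝ) ^ 5 := pow_le_pow_right₀ hL hi
    have h2 : R ^ j ≤ R ^ 5 := pow_le_pow_right₀ hR hj
    gcongr
  have hJ0 : 0 < a3J K R L := by unfold a3J; positivity
  have hLM : (L : ℝ) * M ≤ a3J K R L := by
    refine abs_le_of_sq_le_sq' ?_ hJ0.le |>.2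
    unfold a3J
    rw [div_pow, le_div_iff₀ (by positivity), ha]
    have e1 : ((L : ℝ) * M) ^ 2 * (4 * 10 ^ 6 * ((L : ℝ) ^ 2 * √(L : ℝ) * R)) ^ 2
        = (M : ℝ) ^ 2 * (L * √(L : ℝ)) * (16 * 10 ^ 12 * ((L : ℝ) ^ 5 * √(L : ℝ) * R ^ 2)) := by ring
    rw [e1]
    have h1 := hx 5 2 (by norm_num) (by norm_num)
    calc (M : ℝ) ^ 2 * (L * √(L : ℝ)) * (16 * 10 ^ 12 * ((L : ℝ) ^ 5 * √(L : ℝ) * R ^ 2))
        ≤ (4 * √K) * (16 * 10 ^ 12 * ((L : ℝ) ^ 5 * √(L : ℝ) * R ^ 2)) := by gcongr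
      _ ≤ √K * √K := by
          have : 4 * (16 * 10 ^ 12 * ((L : ℝ) ^ 5 * √(L : ℝ) * R ^ 2)) ≤ √K := by
            have h3 : 0 ≤ (L : ℝ) ^ 5 * √(L : ℝ) * R ^ 2 := by positivity
            nlinarith
          nlinarith
      _ = K := by rw [← sq, ha]
  have hMJ : (M : ℝ) ≤ a3J K R L := by
    refine le_trans ?_ hLM
    nlinarith
  have hB2 := hp.B2
  have hB1 := hp.B1
  have hKBJ : K ≤ B * a3J K R L := by
    have hpos : 0 ≤ (B : ℝ) * a3J K R L := by positivity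
    refine abs_le_of_sq_le_sq' ?_ hpos |>.2
    unfold a3J
    rw [mul_pow, div_pow, ha, mul_div_assoc', le_div_iff₀ (by positivity)]
    have h1 := hx 5 3 (by norm_num) (by norm_num)
    have h2 : 16 * 10 ^ 19 * ((L : ℝ) ^ 5 * √(L : ℝ) * R ^ 3) ≤ √K := by
      have h3 : 0 ≤ (L : ℝ) ^ 5 * √(L : ℝ) * R ^ 3 := by positivity
      nlinarith
    calc K ^ 2 * (4 * 10 ^ 6 * ((L : ℝ) ^ 2 * √(L : ℝ) * R)) ^ 2
        = K ^ 2 * (16 * 10 ^ 12 * ((L : ℝ) ^ 4 * √(L : ℝ) ^ 2 * R ^ 2)) := by ring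
      _ = K ^ 2 * (16 * 10 ^ 12 * ((L : ℝ) ^ 5 * R ^ 2)) := by rw [hl]; ring
      _ ≤ (B : ℝ) ^ 2 * K := by
          have h4 : K * √K * (K * (16 * 10 ^ 12 * ((L : ℝ) ^ 5 * R ^ 2))) ≤
              10 ^ 7 * ((B : ℝ) ^ 2 * √(L : ℝ) * R) * (K * (16 * 10 ^ 12 * ((L : ℝ) ^ 5 * R ^ 2))) := by
            gcongr
          have h5 : 10 ^ 7 * ((B : ℝ) ^ 2 * √(L : ℝ) * R) * (K * (16 * 10 ^ 12 * ((L : ℝ) ^ 5 * R ^ 2)))
              = ((B : ℝ) ^ 2 * K) * (16 * 10 ^ 19 * ((L : ℝ) ^ 5 * √(L : ℝ) * R ^ 3)) := by ring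
          have h6 : ((B : ℝ) ^ 2 * K) * (16 * 10 ^ 19 * ((L : ℝ) ^ 5 * √(L : ℝ) * R ^ 3)) ≤
              ((B : ℝ) ^ 2 * K) * √K := by gcongr
          have h7 : (K ^ 2 * (16 * 10 ^ 12 * ((L : ℝ) ^ 5 * R ^ 2))) * √K ≤ ((B : ℝ) ^ 2 * K) * √K := by
            calc _ = K * √K * (K * (16 * 10 ^ 12 * ((L : ℝ) ^ 5 * R ^ 2))) := by ring
              _ ≤ _ := h4
              _ = _ := h5
              _ ≤ _ := h6
          exact le_of_mul_le_mul_right h7 ha0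
  have hKB2 : K ≤ (B : ℝ) ^ 2 := by
    have h1 := hx 0 1 (by norm_num) (by norm_num)
    have h2 : 10 ^ 7 * (√(L : ℝ) * R) ≤ √K := by
      have h3 : 0 ≤ √(L : ℝ) * R := by positivity
      rw [pow_zero, pow_one, one_mul] at h1
      nlinarith
    have h3 : K * √K ≤ (B : ℝ) ^ 2 * √K := by
      calc K * √K ≤ 10 ^ 7 * ((B : ℝ) ^ 2 * √(L : ℝ) * R) := hB2
        _ = (B : ℝ) ^ 2 * (10 ^ 7 * (√(L : ℝ) * R)) := by ring
        _ ≤ _ := by gcongr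
    exact le_of_mul_le_mul_right h3 ha0
  have hBK : (B : ℝ) ≤ K := by
    refine abs_le_of_sq_le_sq' ?_ hK0.le |>.2
    have h1 : (B : ℝ) ^ 2 ≤ 10 ^ 6 * ((B : ℝ) ^ 2 * √(L : ℝ) * R) := by
      have : 1 ≤ √(L : ℝ) * R := one_le_mul_of_one_le_of_one_le hl1 hR
      have : (B : ℝ) ^ 2 * 1 ≤ (B : ℝ) ^ 2 * (√(L : ℝ) * R) := by gcongr
      nlinarith [sq_nonneg (B : ℝ)]
    nlinarith
  exact ⟨hK, hLK, hM, hB, hLM, hMJ, hKBJ, hKB2, hBK, hMle, hL4⟩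

/-- grouping -/
theorem a3_group {A : Finset (ℤ × ℤ × ℤ)} (f : ℤ → ℤ × ℤ → ℝ) (ν : ℤ → ℝ) (hν : ∀ i, 0 ≤ ν i) (D w : ℝ)
    (hD : 0 ≤ D) (h1 : ∀ q ∈ A.image Prod.snd, ∑ c ∈ (A.filter (fun z => z.2 = q)).image Prod.fst, f c q ≤ D)
    (h2 : ∀ i3 : ℤ, (((A.image Prod.snd).filter (fun q => q.2 = i3)).card : ℝ) ≤ w) :
    ∑ z ∈ A, f z.1 z.2 * ν z.2.2 ≤ D * (w * ∑ i3 ∈ (A.image Prod.snd).image Prod.snd, ν i3) := by
  classical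
  have e1 : ∑ z ∈ A, f z.1 z.2 * ν z.2.2 =
      ∑ q ∈ A.image Prod.snd, ∑ z ∈ A.filter (fun z => z.2 = q), f z.1 z.2 * ν z.2.2 :=
    (Finset.sum_fiberwise_of_maps_to (fun z hz => Finset.mem_image_of_mem _ hz) _).symm
  rw [e1]
  have e2 : ∀ q ∈ A.image Prod.snd, ∑ z ∈ A.filter (fun z => z.2 = q), f z.1 z.2 * ν z.2.2 ≤ D * ν q.2 := by
    intro q hq
    have e3 : ∑ z ∈ A.filter (fun z => z.2 = q), f z.1 z.2 * ν z.2.2 =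
        (∑ c ∈ (A.filter (fun z => z.2 = q)).image Prod.fst, f c q) * ν q.2 := by
      rw [Finset.sum_image, Finset.sum_mul]
      · apply Finset.sum_congr rfl
        intro z hz
        have := (Finset.mem_filter.1 hz).2
        rw [this]
      · intro z hz z' hz' heq
        have h3 := (Finset.mem_filter.1 (Finset.mem_coe.1 hz)).2
        have h4 := (Finset.mem_filter.1 (Finset.mem_coe.1 hz')).2
        exact Prod.ext heq (h3.trans h4.symm)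
    rw [e3]
    exact mul_le_mul_of_nonneg_right (h1 q hq) (hν _)
  refine (Finset.sum_le_sum e2).trans ?_
  rw [← Finset.mul_sum]
  refine mul_le_mul_of_nonneg_left ?_ hD
  have e4 : ∑ q ∈ A.image Prod.snd, ν q.2 = ∑ i3 ∈ (A.image Prod.snd).image Prod.snd,
      ∑ q ∈ (A.image Prod.snd).filter (fun q => q.2 = i3), ν q.2 :=
    (Finset.sum_fiberwise_of_maps_to (fun z hz => Finset.mem_image_of_mem _ hz) _).symm
  rw [e4, Finset.mul_sum]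
  refine Finset.sum_le_sum (fun i3 _ => ?_)
  have e5 : ∑ q ∈ (A.image Prod.snd).filter (fun q => q.2 = i3), ν q.2 =
      (((A.image Prod.snd).filter (fun q => q.2 = i3)).card : ℝ) * ν i3 := by
    rw [← nsmul_eq_mul, ← Finset.sum_const]
    apply Finset.sum_congr rfl
    intro q hq
    rw [(Finset.mem_filter.1 hq).2]
  rw [e5]
  exact mul_le_mul_of_nonneg_right (h2 i3) (hν _)

theorem a3_dist {K R : ℝ} {L M B : ℕ} {e2 e3 c i2 i3 : ℤ} (hR : 1 ≤ R) (hB : 1 ≤ B) (hK : 1 ≤ K)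
    (h : Good K R L M B e2 e3 c i2 i3) :
    1 ≤ i3 - i2 ∧ ((i3 - i2 : ℤ) : ℝ) ≤ 26 * K / (√R * B) := by
  have hB' : (0 : ℝ) < B := by exact_mod_cast hB
  have hr : 0 < √R := Real.sqrt_pos.2 (by linarith)
  have hr2 : √R ^ 2 = R := Real.sq_sqrt (by linarith)
  have huv := h.uv
  have hu1 := h.u1
  have hv2 := h.v2
  have hy2 := h.y2
  unfold x0 at hy2
  set u0 : ℝ := ((i2 * B : ℤ) : ℝ) with hu
  set v0 : ℝ := ((i3 * B : ℤ) : ℝ) with hv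
  have hu0 : 0 ≤ u0 := by linarith
  have hv0 : 0 ≤ v0 := by linarith
  have hsu := Real.sq_sqrt hu0
  have hsv := Real.sq_sqrt hv0
  have hle : √u0 ≤ √v0 := Real.sqrt_le_sqrt huv.le
  have hsu0 := Real.sqrt_nonneg u0
  have e1 : v0 - u0 = (√v0 - √u0) * (√v0 + √u0) := by linear_combination hsu - hsv
  have e2 : (v0 - u0) ^ 2 ≤ (26 * K / √R) ^ 2 := by
    rw [e1, mul_pow, div_pow, hr2]
    have h3 : (√v0 + √u0) ^ 2 ≤ 80 * K := by nlinarith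
    calc (√v0 - √u0) ^ 2 * (√v0 + √u0) ^ 2 ≤ (8 * K / R) * (80 * K) := by gcongr
      _ = 640 * K ^ 2 / R := by ring
      _ ≤ (26 * K) ^ 2 / R := by
          gcongr
          nlinarith
  have e3 : v0 - u0 ≤ 26 * K / √R := (abs_le_of_sq_le_sq' e2 (by positivity)).2
  have e4 : v0 - u0 = ((i3 - i2 : ℤ) : ℝ) * B := by rw [hu, hv]; push_cast; ring
  constructor
  · have h5 : (0 : ℝ) < ((i3 - i2 : ℤ) : ℝ) * B := by rw [← e4]; linarith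
    have h6 : (0 : ℝ) < ((i3 - i2 : ℤ) : ℝ) := by
      by_contra hc
      push Not at hc
      nlinarith
    have : 0 < i3 - i2 := by exact_mod_cast h6
    omega
  · rw [← div_div, le_div_iff₀ hB', ← e4]
    exact e3

theorem a3_card_Icc {x : ℝ} (hx : 0 ≤ x) : ((Icc (1 : ℤ) ⌊x⌋).card : ℝ) ≤ x := by
  rw [Int.card_Icc]
  have h0 : 0 ≤ ⌊x⌋ := Int.floor_nonneg.2 hx
  have : ((⌊x⌋ + 1 - 1).toNat : ℝ) = (⌊x⌋ : ℝ) := by
    have h1 : (((⌊x⌋ + 1 - 1).toNat : ℤ) : ℝ) = (⌊x⌋ : ℝ) := by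
      rw [Int.toNat_of_nonneg (by omega)]
      push_cast; ring
    exact_mod_cast h1
  rw [this]
  exact Int.floor_le x

theorem a3_i3 {K R : ℝ} {L M B : ℕ} {e2 e3 c i2 i3 : ℤ} (hB : 1 ≤ B) (hK : 1 ≤ K)
    (h : Good K R L M B e2 e3 c i2 i3) : 1 ≤ i3 ∧ (i3 : ℝ) ≤ 20 * K / B := by
  have hB' : (0 : ℝ) < B := by exact_mod_cast hB
  have huv := h.uv
  have hu1 := h.u1
  have hv2 := h.v2
  have e : ((i3 * B : ℤ) : ℝ) = (i3 : ℝ) * B := by push_cast; ring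
  rw [e] at hv2 huv
  constructor
  · have h6 : (0 : ℝ) < (i3 : ℝ) := by
      by_contra hc
      push Not at hc
      nlinarith
    have : 0 < i3 := by exact_mod_cast h6
    omega
  · rw [le_div_iff₀ hB']; exact hv2

theorem a3_c {K R : ℝ} {L M B : ℕ} {e2 e3 c i2 i3 : ℤ} (hL : 1 ≤ L) (hM : 1 ≤ M)
    (h : Good K R L M B e2 e3 c i2 i3) : 1 ≤ c ∧ (c : ℝ) ≤ 5 * L * M := by
  have hM' : (0 : ℝ) < M := by exact_mod_cast hM
  have hL' : (1 : ℝ) ≤ L := by exact_mod_cast hL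
  have h1 := h.θ1
  have h2 := h.θ2
  rw [le_div_iff₀ hM'] at h1
  rw [div_le_iff₀ hM'] at h2
  constructor
  · have h6 : (0 : ℝ) < (c : ℝ) := by nlinarith
    have : 0 < c := by exact_mod_cast h6
    omega
  · exact h2

theorem a3_card {K R : ℝ} {L M B : ℕ} {e2 e3 : ℤ} {A : Finset (ℤ × ℤ × ℤ)} (hR : 1 ≤ R) (hL : 1 ≤ L)
    (hM : 1 ≤ M) (hB : 1 ≤ B) (hK : 1 ≤ K)
    (hA : ∀ z ∈ A, Good K R L M B e2 e3 z.1 z.2.1 z.2.2) :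
    (A.card : ℝ) ≤ (5 * L * M) * ((20 * K / B) * (26 * K / (√R * B))) := by
  classical
  have hB' : (0 : ℝ) < B := by exact_mod_cast hB
  have hr : 0 < √R := Real.sqrt_pos.2 (by linarith)
  have h1 : A.card ≤ (Icc (1 : ℤ) ⌊(5 * L * M : ℝ)⌋ ×ˢ (Icc (1 : ℤ) ⌊20 * K / B⌋ ×ˢ
      Icc (1 : ℤ) ⌊26 * K / (√R * B)⌋)).card := by
    refine Finset.card_le_card_of_injOn (fun z => (z.1, z.2.2, z.2.2 - z.2.1)) ?_ ?_
    · intro z hz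
      have hz := hA z (Finset.mem_coe.1 hz)
      have q1 := a3_c hL hM hz
      have q2 := a3_i3 hB hK hz
      have q3 := a3_dist hR hB hK hz
      simp only [Finset.coe_product, Set.mem_prod, Finset.coe_Icc, Set.mem_Icc]
      exact ⟨⟨q1.1, Int.le_floor.2 q1.2⟩, ⟨q2.1, Int.le_floor.2 q2.2⟩, ⟨q3.1, Int.le_floor.2 q3.2⟩⟩
    · intro z _ z' _ heq
      simp only [Prod.mk.injEq] at heq
      obtain ⟨g1, g2, g3⟩ := heq
      refine Prod.ext g1 (Prod.ext ?_ g2)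
      omega
  have h2 : (A.card : ℝ) ≤ ((Icc (1 : ℤ) ⌊(5 * L * M : ℝ)⌋).card : ℝ) * (((Icc (1 : ℤ) ⌊20 * K / B⌋).card : ℝ) *
      ((Icc (1 : ℤ) ⌊26 * K / (√R * B)⌋).card : ℝ)) := by
    have : (A.card : ℝ) ≤ ((Icc (1 : ℤ) ⌊(5 * L * M : ℝ)⌋ ×ˢ (Icc (1 : ℤ) ⌊20 * K / B⌋ ×ˢ
      Icc (1 : ℤ) ⌊26 * K / (√R * B)⌋)).card : ℝ) := by exact_mod_cast h1
    rw [Finset.card_product, Finset.card_product] at this
    push_cast at this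
    exact this
  refine h2.trans ?_
  have k1 := a3_card_Icc (x := 5 * L * M) (by positivity)
  have k2 := a3_card_Icc (x := 20 * K / B) (by positivity)
  have k3 := a3_card_Icc (x := 26 * K / (√R * B)) (by positivity)
  gcongr

theorem a3_card_fib {K R : ℝ} {L M B : ℕ} {e2 e3 : ℤ} {A : Finset (ℤ × ℤ × ℤ)} (hR : 1 ≤ R)
    (hB : 1 ≤ B) (hK : 1 ≤ K)
    (hA : ∀ z ∈ A, Good K R L M B e2 e3 z.1 z.2.1 z.2.2) (i3 : ℤ) :
    (((A.image Prod.snd).filter (fun q => q.2 = i3)).card : ℝ) ≤ 26 * K / (√R * B) := by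
  classical
  have hB' : (0 : ℝ) < B := by exact_mod_cast hB
  have hr : 0 < √R := Real.sqrt_pos.2 (by linarith)
  have h1 : ((A.image Prod.snd).filter (fun q => q.2 = i3)).card ≤ (Icc (1 : ℤ) ⌊26 * K / (√R * B)⌋).card := by
    refine Finset.card_le_card_of_injOn (fun q => q.2 - q.1) ?_ ?_
    · intro q hq
      obtain ⟨hq1, hq2⟩ := Finset.mem_filter.1 (Finset.mem_coe.1 hq)
      obtain ⟨z, hz, rfl⟩ := Finset.mem_image.1 hq1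
      have q3 := a3_dist hR hB hK (hA z hz)
      simp only [Finset.coe_Icc, Set.mem_Icc]
      exact ⟨q3.1, Int.le_floor.2 q3.2⟩
    · intro q hq q' hq' heq
      have g1 := (Finset.mem_filter.1 (Finset.mem_coe.1 hq)).2
      have g2 := (Finset.mem_filter.1 (Finset.mem_coe.1 hq')).2
      simp only at heq
      refine Prod.ext ?_ ?_ <;> omega
  have h2 : (((A.image Prod.snd).filter (fun q => q.2 = i3)).card : ℝ) ≤
      ((Icc (1 : ℤ) ⌊26 * K / (√R * B)⌋).card : ℝ) := by exact_mod_cast h1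
  exact h2.trans (a3_card_Icc (by positivity))

theorem a3_Om_nonneg {K : ℝ} {L M : ℕ} {Jm : ℝ} (h : ℤ) : 0 ≤ Om K L M Jm h := by
  unfold Om
  split_ifs <;> positivity

theorem a3_nu_nonneg {K : ℝ} {B : ℕ} (i3 : ℤ) (J2 : ℕ) (h : ℤ) : 0 ≤ nu K B i3 J2 h := by
  unfold nu
  positivity

/-- bounds for `P` and `x` -/
theorem a3_Px {K R : ℝ} {L M B : ℕ} {e2 e3 c i2 i3 : ℤ} (hK : 1 ≤ K)
    (h : Good K R L M B e2 e3 c i2 i3) :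
    √K / 2 ≤ √(√(((i2 * B : ℤ) : ℝ) * ((i3 * B : ℤ) : ℝ))) ∧
    √(√(((i2 * B : ℤ) : ℝ) * ((i3 * B : ℤ) : ℝ))) ≤ 3 * √K ∧
    |xt e2 e3 ((i2 * B : ℤ) : ℝ) ((i3 * B : ℤ) : ℝ)| ≤ 10 * L := by
  have huv := h.uv
  have hu1 := h.u1
  have hu2 := h.u2
  have hv2 := h.v2
  have hθ1 := h.θ1
  have hθ2 := h.θ2
  have ht1 := h.t1
  have ht2 := h.t2
  set u0 : ℝ := ((i2 * B : ℤ) : ℝ) with hu
  set v0 : ℝ := ((i3 * B : ℤ) : ℝ) with hv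
  have hK0 : 0 < K := by linarith
  have ha : √K ^ 2 = K := Real.sq_sqrt hK0.le
  have ha0 : 0 < √K := Real.sqrt_pos.2 hK0
  have hL : (0 : ℝ) ≤ L := Nat.cast_nonneg _
  refine ⟨?_, ?_, ?_⟩
  · refine Real.le_sqrt_of_sq_le ?_
    have : (√K / 2) ^ 2 = K / 4 := by rw [div_pow, ha]; norm_num
    rw [this]
    refine Real.le_sqrt_of_sq_le ?_
    nlinarith
  · refine Real.sqrt_le_iff.2 ⟨by positivity, ?_⟩
    have : (3 * √K) ^ 2 = 9 * K := by rw [mul_pow, ha]; norm_num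
    rw [this]
    refine Real.sqrt_le_iff.2 ⟨by positivity, ?_⟩
    have h1 : u0 * v0 ≤ (3 * K) * (20 * K) := by
      have : 0 ≤ v0 := by linarith
      gcongr
    nlinarith
  · rw [abs_le]
    constructor <;> linarith

/-- the double sum -/
theorem a3_double {C1 C2 E K R : ℝ} {L M B J2 : ℕ} {e2 e3 : ℤ} {A : Finset (ℤ × ℤ × ℤ)} {Jm : ℝ}
    (hC1 : 1 ≤ C1)
    (hcells : ∀ q ∈ A.image Prod.snd, ∀ h : ℤ, ∑ c ∈ (A.filter (fun z => z.2 = q)).image Prod.fst,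
      wt M (h - js M B e2 e3 c q.1 q.2) ≤ C1 * (M : ℝ) ^ 2 * Om K L M Jm h)
    (hfib : ∀ i3 : ℤ, (((A.image Prod.snd).filter (fun q => q.2 = i3)).card : ℝ) ≤ 26 * K / (√R * B))
    (hw : ∑ h ∈ HH J2, Om K L M Jm h * ∑ i3 ∈ (A.image Prod.snd).image Prod.snd, nu K B i3 J2 h ≤
      C2 * E * (L * K)) (hK : 0 ≤ K) :
    ∑ z ∈ A, ∑ h ∈ HH J2, wt M (h - js M B e2 e3 z.1 z.2.1 z.2.2) * nu K B z.2.2 J2 h ≤
      C1 * (M : ℝ) ^ 2 * (26 * K / (√R * B)) * (C2 * E * (L * K)) := by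
  classical
  rw [Finset.sum_comm]
  have h1 : ∀ h ∈ HH J2, ∑ z ∈ A, wt M (h - js M B e2 e3 z.1 z.2.1 z.2.2) * nu K B z.2.2 J2 h ≤
      (C1 * (M : ℝ) ^ 2 * (26 * K / (√R * B))) * (Om K L M Jm h *
        ∑ i3 ∈ (A.image Prod.snd).image Prod.snd, nu K B i3 J2 h) := by
    intro h _
    have h2 := a3_group (A := A) (fun c q => wt M (h - js M B e2 e3 c q.1 q.2)) (fun i3 => nu K B i3 J2 h)
      (fun i => a3_nu_nonneg i J2 h) (C1 * (M : ℝ) ^ 2 * Om K L M Jm h) (26 * K / (√R * B))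
      (by have := a3_Om_nonneg (K := K) (L := L) (M := M) (Jm := Jm) h; positivity)
      (fun q hq => hcells q hq h) hfib
    refine h2.trans (le_of_eq ?_)
    ring
  refine (Finset.sum_le_sum h1).trans ?_
  rw [← Finset.mul_sum]
  exact mul_le_mul_of_nonneg_left hw (by positivity)

theorem a3_power {ε K R : ℝ} {L M B : ℕ} (hp : Par K R L M B) (hε : 0 < ε)
    (hLR : ((L : ℝ) * R) ^ 11 ≤ K ^ (1 - ε)) :
    (L : ℝ) ^ 4 * (M : ℝ) ^ 2 * K ^ (ε / 100) ≤ 12650 * B := by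
  obtain ⟨hK, hLK, hM, hB, hLM, hMJ, hKBJ, hKB2, hBK, hMle, hL4⟩ := a3_params hp
  have hR := hp.hR
  have hL : (1 : ℝ) ≤ L := by exact_mod_cast hp.hL
  have hl : √(L : ℝ) ^ 2 = L := Real.sq_sqrt (by linarith)
  have hl1 : 1 ≤ √(L : ℝ) := Real.one_le_sqrt.2 hL
  have hR0 : 0 < R := by linarith
  have hL0 : (0 : ℝ) < L := by linarith
  have hl0 : 0 < √(L : ℝ) := by linarith
  have hK0 : 0 < K := by linarith [show (0 : ℝ) < 10 ^ 48 by norm_num]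
  have hK1 : 1 ≤ K := by linarith [show (1 : ℝ) < 10 ^ 48 by norm_num]
  have ha : √K ^ 2 = K := Real.sq_sqrt hK0.le
  have ha0 : 0 < √K := Real.sqrt_pos.2 hK0
  have hB' : (1 : ℝ) ≤ B := by exact_mod_cast hB
  set E := K ^ (ε / 100) with hE
  have hE0 : 0 < E := Real.rpow_pos_of_pos hK0 _
  have hE4 : E ^ 4 ≤ K ^ ε := by
    rw [hE, ← Real.rpow_natCast, ← Real.rpow_mul hK0.le]
    apply Real.rpow_le_rpow_of_exponent_le hK1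
    push_cast
    linarith
  -- L ^ 5 l R E ^ 2 ≤ √K
  have h1 : (L : ℝ) ^ 5 * √(L : ℝ) * R * E ^ 2 ≤ √K := by
    refine Real.le_sqrt_of_sq_le ?_
    calc ((L : ℝ) ^ 5 * √(L : ℝ) * R * E ^ 2) ^ 2 = (L : ℝ) ^ 10 * √(L : ℝ) ^ 2 * R ^ 2 * E ^ 4 := by ring
      _ = (L : ℝ) ^ 11 * R ^ 2 * E ^ 4 := by rw [hl]; ring
      _ ≤ (L : ℝ) ^ 11 * R ^ 11 * E ^ 4 := by
          have : R ^ 2 ≤ R ^ 11 := pow_le_pow_right₀ hR (by norm_num)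
          gcongr
      _ = ((L : ℝ) * R) ^ 11 * E ^ 4 := by rw [mul_pow]
      _ ≤ K ^ (1 - ε) * K ^ ε := by gcongr
      _ = K := by rw [← Real.rpow_add hK0]; simp
  have hM2 := hp.M2
  -- L ^ 8 M ^ 4 ≤ 16 K L ^ 5
  have h2 : (L : ℝ) ^ 8 * (M : ℝ) ^ 4 ≤ 16 * K * (L : ℝ) ^ 5 := by
    have h3 : ((L : ℝ) * √(L : ℝ) * (M : ℝ) ^ 2) ^ 2 ≤ (4 * √K) ^ 2 := by
      apply pow_le_pow_left₀ (by positivity) hM2
    have h4 : ((L : ℝ) * √(L : ℝ) * (M : ℝ) ^ 2) ^ 2 = (L : ℝ) ^ 3 * (M : ℝ) ^ 4 := by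
      calc _ = (L : ℝ) ^ 2 * √(L : ℝ) ^ 2 * (M : ℝ) ^ 4 := by ring
        _ = _ := by rw [hl]; ring
    have h5 : (4 * √K) ^ 2 = 16 * K := by rw [mul_pow, ha]; norm_num
    rw [h4, h5] at h3
    calc (L : ℝ) ^ 8 * (M : ℝ) ^ 4 = (L : ℝ) ^ 5 * ((L : ℝ) ^ 3 * (M : ℝ) ^ 4) := by ring
      _ ≤ (L : ℝ) ^ 5 * (16 * K) := by gcongr
      _ = _ := by ring
  have hpos : (0 : ℝ) ≤ 12650 * B := by positivity
  refine (abs_le_of_sq_le_sq' ?_ hpos).2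
  have h6 : ((L : ℝ) ^ 4 * (M : ℝ) ^ 2 * E) ^ 2 * (10 ^ 7 * (√(L : ℝ) * R)) ≤
      (12650 * B) ^ 2 * (10 ^ 7 * (√(L : ℝ) * R)) := by
    calc ((L : ℝ) ^ 4 * (M : ℝ) ^ 2 * E) ^ 2 * (10 ^ 7 * (√(L : ℝ) * R))
        = ((L : ℝ) ^ 8 * (M : ℝ) ^ 4) * (E ^ 2 * (10 ^ 7 * (√(L : ℝ) * R))) := by ring
      _ ≤ (16 * K * (L : ℝ) ^ 5) * (E ^ 2 * (10 ^ 7 * (√(L : ℝ) * R))) := by gcongr
      _ = 16 * 10 ^ 7 * K * ((L : ℝ) ^ 5 * √(L : ℝ) * R * E ^ 2) := by ring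
      _ ≤ 16 * 10 ^ 7 * K * √K := by gcongr
      _ = 16 * 10 ^ 7 * (K * √K) := by ring
      _ ≤ 16 * 10 ^ 7 * (10 ^ 7 * ((B : ℝ) ^ 2 * √(L : ℝ) * R)) := by
          have := hp.B2
          gcongr
      _ ≤ (12650 * B) ^ 2 * (10 ^ 7 * (√(L : ℝ) * R)) := by
          have : 0 ≤ (B : ℝ) ^ 2 * √(L : ℝ) * R := by positivity
          nlinarith
  exact le_of_mul_le_mul_right h6 (by positivity)

theorem a3_alg1 {L M K r B C1 C2 E R : ℝ} (hr : r ^ 2 = R) (hr0 : 0 < r) (hL : 0 < L) (hM : 0 < M)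
    (hB : 0 < B) :
    2600 * L * M * K ^ 2 / (r * B ^ 2) * (B ^ 2 / M * (C1 * M ^ 2 * (26 * K / (r * B)) * (C2 * E * (L * K)))) =
      (67600 * (C1 * C2) * K ^ 4 / (R * B * L ^ 2)) * (L ^ 4 * M ^ 2 * E) := by
  subst hr
  field_simp
  ring

theorem a3_alg2 {L K r C R : ℝ} (hr : r ^ 2 = R) :
    C ^ 2 * (K ^ 4 / (R * L ^ 2)) = (C * (K ^ 2 / (r * L))) ^ 2 := by
  subst hr
  rw [mul_pow, div_pow, mul_pow]
  ring

/-- `Jm = √K xi / (400 L√L)`. `M ≤ Jm` and `K ≤ B Jm` and `LM ≤ Jm` by `Par.big`. Number of blocks `i₂` for given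
`i₃`: `n ≤ 30K/(√R B)` (`0 < √v₀ - √u₀ ≤ √(8K/R)`); number of cells `≤ 6LM`; number of `i₃`: `≤ 21K/B`.
Main term: Cauchy-Schwarz over `A`, then `∑_c wt ≤ C M² Om(h)` (`cells`), `∑_{i₂} ≤ n`, `wcount` (`ε/100`):
`≤ C K^{ε/200} (LM (K/B) n)^{1/2} (B² M n L K)^{1/2} = C K^{ε/200} K² L M /(√R √B)` and
`L² M/√B ≤ C (L^{11} R²/K)^{1/8} ≤ C K^{-ε/8}`.
`h = 0`: `wt ≤ (M/Jm)² ≤ L^{-2}`, number of terms `6LM (21K/B) n`. Tail: `L² M²/J2 ≤ 1`. -/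
theorem sum_cells (ε : ℝ) (hε : 0 < ε) : ∃ C K₀ : ℝ, 1 ≤ C ∧ 1 ≤ K₀ ∧
    ∀ (K R : ℝ) (L M B J2 : ℕ) (e2 e3 : ℤ) (A : Finset (ℤ × ℤ × ℤ)), K₀ ≤ K → Par K R L M B →
    ((L : ℝ) * R) ^ 11 ≤ K ^ (1 - ε) → K ^ (5 / 8 : ℝ) ≤ 2 * J2 → (J2 : ℝ) ≤ K ^ (5 / 8 : ℝ) →
    (∀ z ∈ A, Good K R L M B e2 e3 z.1 z.2.1 z.2.2 ∧
      xi R L ≤ |xt e2 e3 ((z.2.1 * B : ℤ) : ℝ) ((z.2.2 * B : ℤ) : ℝ)|) →
    ∑ z ∈ A, (√((B : ℝ) ^ 2 / M * ∑ h ∈ HH J2, wt M (h - js M B e2 e3 z.1 z.2.1 z.2.2) * nu K B z.2.2 J2 h) +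
        (B : ℝ) ^ 2 / M * wt M (js M B e2 e3 z.1 z.2.1 z.2.2) + (M : ℝ) / J2 * (B : ℝ) ^ 2) ≤
      C * (K ^ 2 / (√R * L)) := by
  classical
  obtain ⟨C1, hC1, hcells⟩ := cells
  obtain ⟨C2, K₀, hC2, hK₀, hwc⟩ := wcount (ε / 100) (by positivity)
  refine ⟨10 ^ 9 * (C1 * C2) + 2600 + 20800, K₀, by nlinarith, hK₀, ?_⟩
  intro K R L M B J2 e2 e3 A hKK hp hLR hJ1 hJ2 hA
  obtain ⟨hK, hLK, hM, hB, hLM, hMJ, hKBJ, hKB2, hBK, hMle, hL4⟩ := a3_params hp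
  have hR := hp.hR
  have hLn := hp.hL
  have hL : (1 : ℝ) ≤ L := by exact_mod_cast hp.hL
  have hl : √(L : ℝ) ^ 2 = L := Real.sq_sqrt (by linarith)
  have hl1 : 1 ≤ √(L : ℝ) := Real.one_le_sqrt.2 hL
  have hR0 : 0 < R := by linarith
  have hL0 : (0 : ℝ) < L := by linarith
  have hl0 : 0 < √(L : ℝ) := by linarith
  have hK0 : 0 < K := by linarith [show (0 : ℝ) < 10 ^ 48 by norm_num]
  have hK1 : 1 ≤ K := by linarith [show (1 : ℝ) < 10 ^ 48 by norm_num]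
  have ha : √K ^ 2 = K := Real.sq_sqrt hK0.le
  have ha0 : 0 < √K := Real.sqrt_pos.2 hK0
  have hr0 : 0 < √R := Real.sqrt_pos.2 hR0
  have hr2 : √R ^ 2 = R := Real.sq_sqrt hR0.le
  have hB' : (0 : ℝ) < B := by exact_mod_cast hB
  have hM' : (0 : ℝ) < M := by exact_mod_cast hM
  have hM1 : (1 : ℝ) ≤ M := by exact_mod_cast hM
  set Jm := a3J K R L with hJm
  have hJ0 : 0 < Jm := lt_of_lt_of_le hM' hMJ
  have hJ1' : 1 ≤ Jm := le_trans hM1 hMJ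
  have hJeq : 400 * ((L : ℝ) * √(L : ℝ) * Jm) = √K * xi R L := a3_J_eq hp
  have hAg : ∀ z ∈ A, Good K R L M B e2 e3 z.1 z.2.1 z.2.2 := fun z hz => (hA z hz).1
  have hcard := a3_card hR hLn hM hB hK1 hAg
  have hfib := a3_card_fib hR hB hK1 hAg
  have hbig : ∀ z ∈ A, 400 * ((L : ℝ) * √(L : ℝ) * Jm) ≤
      √K * |xt e2 e3 ((z.2.1 * B : ℤ) : ℝ) ((z.2.2 * B : ℤ) : ℝ)| := by
    intro z hz
    rw [hJeq]
    exact mul_le_mul_of_nonneg_left (hA z hz).2 ha0.le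
  -- J2
  have hK8 : K ^ (5 / 8 : ℝ) * K ^ (3 / 8 : ℝ) = K := by
    rw [← Real.rpow_add hK0]; norm_num
  have hJ2pos : 0 < (J2 : ℝ) := by
    have : 0 < K ^ (5 / 8 : ℝ) := Real.rpow_pos_of_pos hK0 _
    linarith
  -- the cells
  have hcl : ∀ q ∈ A.image Prod.snd, ∀ h : ℤ, ∑ c ∈ (A.filter (fun z => z.2 = q)).image Prod.fst,
      wt M (h - js M B e2 e3 c q.1 q.2) ≤ C1 * (M : ℝ) ^ 2 * Om K L M Jm h := by
    intro q hq h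
    obtain ⟨z0, hz0, hz0q⟩ := Finset.mem_image.1 hq
    have hg0 := a3_Px hK1 (hAg z0 hz0)
    have hb0 := hbig z0 hz0
    rw [hz0q] at hg0 hb0
    refine hcells K L M (√(√(((q.1 * B : ℤ) : ℝ) * ((q.2 * B : ℤ) : ℝ))))
      (xt e2 e3 ((q.1 * B : ℤ) : ℝ) ((q.2 * B : ℤ) : ℝ)) Jm hLn hLK hM hp.M1 hp.M2 hg0.1 hg0.2.1 hMJ hb0
      hg0.2.2 ((A.filter (fun z => z.2 = q)).image Prod.fst) ?_ h
    intro c hc
    obtain ⟨z, hz, rfl⟩ := Finset.mem_image.1 hc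
    obtain ⟨hz1, hz2⟩ := Finset.mem_filter.1 hz
    have hg := hAg z hz1
    rw [hz2] at hg
    exact ⟨hg.θ1, hg.θ2, hg.t1, hg.t2⟩
  have hMJ2 : (M : ℝ) * J2 ≤ K := by
    have e1 : √(√K) = K ^ (1 / 4 : ℝ) := by
      rw [Real.sqrt_eq_rpow, Real.sqrt_eq_rpow, ← Real.rpow_mul hK0.le]; norm_num
    have e2 : (2 : ℝ) ≤ K ^ (1 / 8 : ℝ) := by
      have h1 : ((2 : ℝ) ^ (8 : ℝ)) ^ (1 / 8 : ℝ) ≤ K ^ (1 / 8 : ℝ) := by
        apply Real.rpow_le_rpow (by positivity) _ (by norm_num)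
        refine le_trans ?_ hK
        norm_num
      rw [← Real.rpow_mul (by norm_num)] at h1
      norm_num at h1
      exact h1
    calc (M : ℝ) * J2 ≤ (2 * √(√K)) * K ^ (5 / 8 : ℝ) := by gcongr
      _ ≤ (K ^ (1 / 8 : ℝ) * K ^ (1 / 4 : ℝ)) * K ^ (5 / 8 : ℝ) := by rw [e1]; gcongr
      _ = K := by rw [← Real.rpow_add hK0, ← Real.rpow_add hK0]; norm_num
  have hw := hwc K Jm L M B J2 ((A.image Prod.snd).image Prod.snd) hKK hLn hLK hM hMJ hKBJ hKB2 hBK hMJ2 (by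
    intro i hi
    obtain ⟨q, hq, rfl⟩ := Finset.mem_image.1 hi
    obtain ⟨z, hz, rfl⟩ := Finset.mem_image.1 hq
    have hg := hAg z hz
    exact ⟨by linarith [hg.u1, hg.uv], hg.v2⟩)
  have hdouble := a3_double (C1 := C1) (C2 := C2) (E := K ^ (ε / 100)) (R := R) hC1 hcl hfib hw hK0.le
  have hpow := a3_power hp hε hLR
  set E := K ^ (ε / 100) with hE
  have hE0 : 0 < E := Real.rpow_pos_of_pos hK0 _
  set X : ℤ × ℤ × ℤ → ℝ := fun z => ∑ h ∈ HH J2, wt M (h - js M B e2 e3 z.1 z.2.1 z.2.2) * nu K B z.2.2 J2 h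
    with hX
  have hX0 : ∀ z, 0 ≤ X z := by
    intro z
    refine Finset.sum_nonneg (fun h _ => mul_nonneg (wt_pos _ _).le (a3_nu_nonneg _ _ _))
  -- the number of terms
  set N : ℝ := 2600 * L * M * K ^ 2 / (√R * (B : ℝ) ^ 2) with hN
  have hcardN : (A.card : ℝ) ≤ N := by
    refine hcard.trans (le_of_eq ?_)
    rw [hN]; field_simp; ring
  -- main term
  have hT1 : ∑ z ∈ A, √((B : ℝ) ^ 2 / M * X z) ≤ 10 ^ 9 * (C1 * C2) * (K ^ 2 / (√R * L)) := by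
    have hsq : (∑ z ∈ A, √((B : ℝ) ^ 2 / M * X z)) ^ 2 ≤ (10 ^ 9 * (C1 * C2) * (K ^ 2 / (√R * L))) ^ 2 := by
      calc (∑ z ∈ A, √((B : ℝ) ^ 2 / M * X z)) ^ 2
          ≤ (A.card : ℝ) * ∑ z ∈ A, (√((B : ℝ) ^ 2 / M * X z)) ^ 2 := sq_sum_le_card_mul_sum_sq
        _ = (A.card : ℝ) * ((B : ℝ) ^ 2 / M * ∑ z ∈ A, X z) := by
            congr 1
            rw [Finset.mul_sum]
            refine Finset.sum_congr rfl (fun z _ => Real.sq_sqrt ?_)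
            exact mul_nonneg (by positivity) (hX0 z)
        _ ≤ N * ((B : ℝ) ^ 2 / M * (C1 * (M : ℝ) ^ 2 * (26 * K / (√R * B)) * (C2 * E * (L * K)))) := by
            have : 0 ≤ ∑ z ∈ A, X z := Finset.sum_nonneg (fun z _ => hX0 z)
            gcongr
        _ = (67600 * (C1 * C2) * K ^ 4 / (R * B * (L : ℝ) ^ 2)) * ((L : ℝ) ^ 4 * (M : ℝ) ^ 2 * E) := by
            rw [hN]; exact a3_alg1 hr2 hr0 hL0 hM' hB'
        _ ≤ (67600 * (C1 * C2) * K ^ 4 / (R * B * (L : ℝ) ^ 2)) * (12650 * B) := by gcongr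
        _ = (67600 * 12650) * (C1 * C2) * (K ^ 4 / (R * (L : ℝ) ^ 2)) := by field_simp
        _ ≤ (10 ^ 9 * (C1 * C2)) ^ 2 * (K ^ 4 / (R * (L : ℝ) ^ 2)) := by
            gcongr
            have hC : 1 ≤ C1 * C2 := one_le_mul_of_one_le_of_one_le hC1 hC2
            nlinarith
        _ = _ := a3_alg2 hr2
    exact (abs_le_of_sq_le_sq' hsq (by positivity)).2
  -- zero frequency
  have hT2 : ∑ z ∈ A, (B : ℝ) ^ 2 / M * wt M (js M B e2 e3 z.1 z.2.1 z.2.2) ≤ 2600 * (K ^ 2 / (√R * L)) := by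
    have h1 : ∀ z ∈ A, (B : ℝ) ^ 2 / M * wt M (js M B e2 e3 z.1 z.2.1 z.2.2) ≤
        (B : ℝ) ^ 2 / M * ((M : ℝ) ^ 2 / Jm ^ 2) := by
      intro z hz
      have hg := a3_Px hK1 (hAg z hz)
      have h2 := js_lower K L (√(√(((z.2.1 * B : ℤ) : ℝ) * ((z.2.2 * B : ℤ) : ℝ))))
        (xt e2 e3 ((z.2.1 * B : ℤ) : ℝ) ((z.2.2 * B : ℤ) : ℝ)) Jm ((z.1 : ℝ) / M) hLn hLK hg.1 hJ1' (hbig z hz)
        (hAg z hz).θ1 (hAg z hz).θ2 (hAg z hz).t1 (hAg z hz).t2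
      have h3 : 2 * Jm ≤ |((js M B e2 e3 z.1 z.2.1 z.2.2 : ℤ) : ℝ)| := h2
      apply mul_le_mul_of_nonneg_left _ (by positivity)
      unfold wt
      rw [div_le_div_iff₀ (by positivity) (by positivity), one_mul]
      have h4 : Jm ^ 2 ≤ ((js M B e2 e3 z.1 z.2.1 z.2.2 : ℤ) : ℝ) ^ 2 := by
        rw [← sq_abs (((js M B e2 e3 z.1 z.2.1 z.2.2 : ℤ) : ℝ))]
        apply pow_le_pow_left₀ hJ0.le
        linarith
      have h5 : (M : ℝ) ^ 2 * (1 + (((js M B e2 e3 z.1 z.2.1 z.2.2 : ℤ) : ℝ) / M) ^ 2) =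
          (M : ℝ) ^ 2 + ((js M B e2 e3 z.1 z.2.1 z.2.2 : ℤ) : ℝ) ^ 2 := by field_simp
      rw [h5]
      nlinarith [sq_nonneg (M : ℝ)]
    calc _ ≤ ∑ z ∈ A, (B : ℝ) ^ 2 / M * ((M : ℝ) ^ 2 / Jm ^ 2) := Finset.sum_le_sum h1
      _ = (A.card : ℝ) * ((B : ℝ) ^ 2 / M * ((M : ℝ) ^ 2 / Jm ^ 2)) := by
          rw [Finset.sum_const, nsmul_eq_mul]
      _ ≤ N * ((B : ℝ) ^ 2 / M * ((M : ℝ) ^ 2 / Jm ^ 2)) := by gcongr
      _ = 2600 * (K ^ 2 / (√R * L)) * (((L : ℝ) * M) ^ 2 / Jm ^ 2) := by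
          rw [hN]; field_simp
      _ ≤ 2600 * (K ^ 2 / (√R * L)) * 1 := by
          have : ((L : ℝ) * M) ^ 2 / Jm ^ 2 ≤ 1 := by
            rw [div_le_one (by positivity)]
            exact pow_le_pow_left₀ (by positivity) hLM 2
          gcongr
      _ = _ := by ring
  -- tail
  have hT3 : ∑ z ∈ A, (M : ℝ) / J2 * (B : ℝ) ^ 2 ≤ 20800 * (K ^ 2 / (√R * L)) := by
    have h1 : (L : ℝ) ^ 2 * (M : ℝ) ^ 2 ≤ 8 * J2 := by
      have h2 : (L : ℝ) ^ 2 * (M : ℝ) ^ 2 ≤ 4 * √K * √(L : ℝ) := by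
        have h3 := hp.M2
        calc (L : ℝ) ^ 2 * (M : ℝ) ^ 2 = ((L : ℝ) * √(L : ℝ) ^ 2) * (M : ℝ) ^ 2 := by rw [hl]; ring
          _ = ((L : ℝ) * √(L : ℝ) * (M : ℝ) ^ 2) * √(L : ℝ) := by ring
          _ ≤ 4 * √K * √(L : ℝ) := by gcongr
      have h4 : √(L : ℝ) ≤ K ^ (1 / 8 : ℝ) := by
        have h5 : √(L : ℝ) = ((L : ℝ) ^ (4 : ℕ)) ^ (1 / 8 : ℝ) := by
          rw [Real.sqrt_eq_rpow, ← Real.rpow_natCast, ← Real.rpow_mul hL0.le]; norm_num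
        rw [h5]
        exact Real.rpow_le_rpow (by positivity) hL4 (by norm_num)
      have h6 : √K * K ^ (1 / 8 : ℝ) = K ^ (5 / 8 : ℝ) := by
        rw [Real.sqrt_eq_rpow, ← Real.rpow_add hK0]; norm_num
      calc (L : ℝ) ^ 2 * (M : ℝ) ^ 2 ≤ 4 * √K * √(L : ℝ) := h2
        _ ≤ 4 * √K * K ^ (1 / 8 : ℝ) := by gcongr
        _ = 4 * K ^ (5 / 8 : ℝ) := by rw [mul_assoc, h6]
        _ ≤ 8 * J2 := by linarith
    calc _ = (A.card : ℝ) * ((M : ℝ) / J2 * (B : ℝ) ^ 2) := by rw [Finset.sum_const, nsmul_eq_mul]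
      _ ≤ N * ((M : ℝ) / J2 * (B : ℝ) ^ 2) := by gcongr
      _ = 2600 * (K ^ 2 / (√R * L)) * ((L : ℝ) ^ 2 * (M : ℝ) ^ 2 / J2) := by
          rw [hN]; field_simp
      _ ≤ 2600 * (K ^ 2 / (√R * L)) * 8 := by
          have : (L : ℝ) ^ 2 * (M : ℝ) ^ 2 / J2 ≤ 8 := by
            rw [div_le_iff₀ hJ2pos]; exact h1
          gcongr
      _ = _ := by ring
  rw [Finset.sum_add_distrib, Finset.sum_add_distrib]
  calc _ ≤ 10 ^ 9 * (C1 * C2) * (K ^ 2 / (√R * L)) + 2600 * (K ^ 2 / (√R * L)) + 20800 * (K ^ 2 / (√R * L)) := by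
        gcongr
    _ = _ := by ring

end TS
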