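import Pool.Agent.Lib.MP_39df77_nt.TS.Geo

/-!
Row TS-E1: the phase `Ft`.
-/

set_option autoImplicit false

namespace TS

open Finset

/-- `|e x - e y| ≤ 2π|x - y|` -/
theorem e1_norm_sub (x y : ℝ) : ‖e x - e y‖ ≤ 2 * Real.pi * |x - y| := by
  have h : e x - e y = e y * (e (x - y) - 1) := by
    have : e x = e y * e (x - y) := by rw [← e_add]; congr 1; ring
    rw [this]; ring
  rw [h, norm_mul, norm_e, one_mul]
  have h2 : e (x - y) = Complex.exp (Complex.I * ((2 * Real.pi * (x - y) : ℝ) : ℂ)) := by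
    unfold e; push_cast; ring_nf
  rw [h2]
  have h3 := Real.norm_exp_I_mul_ofReal_sub_one_le (x := 2 * Real.pi * (x - y))
  refine h3.trans ?_
  rw [Real.norm_eq_abs, abs_mul, abs_of_pos (by positivity : (0 : ℝ) < 2 * Real.pi)]

theorem e1_conj (x y : ℝ) : e x * (starRingEnd ℂ) (e y) = e (x - y) := by
  rw [← e_neg, ← e_add]; rfl

/-- one term -/
theorem e1_term (b g w w' : ℂ) (x y z δ : ℝ) (hb : ‖b‖ ≤ 1) (hg : ‖g‖ ≤ 1) (hw : ‖w‖ ≤ 1) (hw' : ‖w'‖ ≤ 1)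
    (hδ : |x - y - z| ≤ δ) :
    ‖b * g * (w * e x * (starRingEnd ℂ) (w' * e y)) - b * g * (w * (starRingEnd ℂ) w' * e z)‖ ≤
      2 * Real.pi * δ := by
  have h : b * g * (w * e x * (starRingEnd ℂ) (w' * e y)) - b * g * (w * (starRingEnd ℂ) w' * e z) =
      b * g * (w * (starRingEnd ℂ) w') * (e (x - y) - e z) := by
    rw [← e1_conj, map_mul]; ring
  rw [h, norm_mul, norm_mul, norm_mul, norm_mul, Complex.norm_conj]
  have h1 : ‖b‖ * ‖g‖ * (‖w‖ * ‖w'‖) ≤ 1 := by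
    have a1 : ‖b‖ * ‖g‖ ≤ 1 := mul_le_one₀ hb (norm_nonneg _) hg
    have a2 : ‖w‖ * ‖w'‖ ≤ 1 := mul_le_one₀ hw (norm_nonneg _) hw'
    exact mul_le_one₀ a1 (by positivity) a2
  calc ‖b‖ * ‖g‖ * (‖w‖ * ‖w'‖) * ‖e (x - y) - e z‖ ≤ 1 * (2 * Real.pi * |x - y - z|) :=
        mul_le_mul h1 (e1_norm_sub _ _) (norm_nonneg _) (by norm_num)
    _ ≤ 2 * Real.pi * δ := by
        rw [one_mul]
        exact mul_le_mul_of_nonneg_left hδ (by positivity)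

/-- the size of the total error -/
theorem e1_size {K R : ℝ} {L : ℕ} (hR : 1 ≤ R) (hL : 1 ≤ L) (hbig : 10 ^ 48 * ((L : ℝ) * R) ^ 11 ≤ K) :
    K ^ 2 * L / √R * ((L : ℝ) * √(L : ℝ) * R / √K) ≤ K ^ 2 / (√R * L) := by
  have hL' : (1 : ℝ) ≤ L := by exact_mod_cast hL
  have hLR : 1 ≤ (L : ℝ) * R := by nlinarith
  have hK : 0 < K := by
    have : (0 : ℝ) < 10 ^ 48 * ((L : ℝ) * R) ^ 11 := by positivity
    linarith
  have hsK : 0 < √K := Real.sqrt_pos.2 hK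
  have hsR : 0 < √R := Real.sqrt_pos.2 (by linarith)
  have hsL : 0 < √(L : ℝ) := Real.sqrt_pos.2 (by linarith)
  have key : (L : ℝ) ^ 3 * √(L : ℝ) * R ≤ √K := by
    apply Real.le_sqrt_of_sq_le
    have h1 : ((L : ℝ) ^ 3 * √(L : ℝ) * R) ^ 2 = (L : ℝ) ^ 7 * R ^ 2 := by
      have := Real.sq_sqrt (by linarith : (0 : ℝ) ≤ (L : ℝ))
      calc ((L : ℝ) ^ 3 * √(L : ℝ) * R) ^ 2 = (L : ℝ) ^ 6 * (√(L : ℝ)) ^ 2 * R ^ 2 := by ring
        _ = _ := by rw [this]; ring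
    rw [h1]
    have h2 : (L : ℝ) ^ 7 * R ^ 2 ≤ ((L : ℝ) * R) ^ 11 := by
      have a : (L : ℝ) ^ 7 ≤ (L : ℝ) ^ 11 := pow_le_pow_right₀ hL' (by norm_num)
      have b : R ^ 2 ≤ R ^ 11 := pow_le_pow_right₀ hR (by norm_num)
      calc (L : ℝ) ^ 7 * R ^ 2 ≤ (L : ℝ) ^ 11 * R ^ 11 := mul_le_mul a b (by positivity) (by positivity)
        _ = _ := by ring
    have h3 : (0 : ℝ) ≤ ((L : ℝ) * R) ^ 11 := by positivity
    nlinarith
  have e1 : K ^ 2 * L / √R * ((L : ℝ) * √(L : ℝ) * R / √K) =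
      K ^ 2 / (√R * L) * (((L : ℝ) ^ 3 * √(L : ℝ) * R) / √K) := by
    field_simp
  rw [e1]
  have h4 : ((L : ℝ) ^ 3 * √(L : ℝ) * R) / √K ≤ 1 := by
    rw [div_le_one hsK]; exact key
  have h5 : 0 ≤ K ^ 2 / (√R * L) := by positivity
  calc K ^ 2 / (√R * L) * (((L : ℝ) ^ 3 * √(L : ℝ) * R) / √K) ≤ K ^ 2 / (√R * L) * 1 :=
        mul_le_mul_of_nonneg_left h4 h5
    _ = _ := mul_one _

/-- `|e x - e y| ≤ 2π|x - y|`, `phase_approx`, and the number of terms (`mem_Reg`, `card_Reg`):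
`(K²L/√R) L√L R/√K ≤ K²/(√R L)` -/
theorem te_phase : ∃ C : ℝ, 1 ≤ C ∧ ∀ (K R Lam : ℝ) (L : ℕ) (W : ℝ → ℝ → ℝ → ℂ) (e2 e3 : ℤ) (β γ : ℤ → ℂ),
    1 ≤ R → 1 ≤ L → 10 ^ 48 * ((L : ℝ) * R) ^ 11 ≤ K → Wt K R L Lam W → |(e3 : ℝ)| ≤ L →
    (∀ k, ‖β k‖ ≤ 1) → (∀ k, ‖γ k‖ ≤ 1) →
    (∀ k : ℤ, β k ≠ 0 → K ≤ k ∧ (k : ℝ) ≤ 2 * K ∧ K ≤ ((k + e2 : ℤ) : ℝ) ∧ ((k + e2 : ℤ) : ℝ) ≤ 2 * K) →
    ‖Te K W β γ e2 e3 - Tt K W β γ e2 e3‖ ≤ C * (K ^ 2 / (√R * L)) := by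
  classical
  obtain ⟨C1, hC1, H1⟩ := phase_approx
  obtain ⟨C2, hC2, H2⟩ := card_Reg
  refine ⟨2 * Real.pi * C1 * C2, ?_, ?_⟩
  · have hpi : (3 : ℝ) < Real.pi := Real.pi_gt_three
    have h1 : (1 : ℝ) ≤ C1 * C2 := by nlinarith
    nlinarith
  intro K R Lam L W e2 e3 β γ hR hL hbig hW he3 hβ hγ hsup
  set δ : ℝ := C1 * ((L : ℝ) * √(L : ℝ) * R / √K) with hδ
  have hδ0 : 0 ≤ δ := by
    have : 0 ≤ R := by linarith
    positivity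
  have hterm : ∀ k1 k2 k3 : ℤ,
      ‖β k2 * γ k3 *
        (W (x0 k2 k3 - k1) k2 k3 * e (√(qf k1 k2 k3) / 2) *
          (starRingEnd ℂ) (W (x0 (k2 + e2 : ℤ) (k3 + e3 : ℤ) - k1) (k2 + e2 : ℤ) (k3 + e3 : ℤ) *
            e (√(qf k1 (k2 + e2 : ℤ) (k3 + e3 : ℤ)) / 2))) -
        β k2 * γ k3 *
        (W (x0 k2 k3 - k1) k2 k3 *
          (starRingEnd ℂ) (W (x0 (k2 + e2 : ℤ) (k3 + e3 : ℤ) - k1) (k2 + e2 : ℤ) (k3 + e3 : ℤ)) *
          e (Ft e2 e3 (x0 k2 k3 - k1) k2 k3))‖ ≤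
        if (k1, k2, k3) ∈ Reg K R L then 2 * Real.pi * δ else 0 := by
    intro k1 k2 k3
    by_cases hb : β k2 = 0
    · rw [hb]
      simp only [zero_mul, sub_zero, norm_zero]
      split_ifs
      · positivity
      · exact le_rfl
    obtain ⟨g1, g2, g3, g4⟩ := hsup k2 hb
    by_cases hw : W (x0 k2 k3 - k1) k2 k3 = 0
    · rw [hw]
      simp only [zero_mul, mul_zero, sub_zero, norm_zero]
      split_ifs
      · positivity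
      · exact le_rfl
    by_cases hw' : W (x0 (k2 + e2 : ℤ) (k3 + e3 : ℤ) - k1) (k2 + e2 : ℤ) (k3 + e3 : ℤ) = 0
    · rw [hw']
      simp only [zero_mul, mul_zero, sub_zero, norm_zero, map_zero]
      split_ifs
      · positivity
      · exact le_rfl
    have hreg := mem_Reg hR hL hbig hW (k1 := k1) (k2 := k2) (k3 := k3) g1 g2 hw
    rw [if_pos hreg]
    exact e1_term _ _ _ _ _ _ _ _ (hβ _) (hγ _) (hW.bd _ _ _) (hW.bd _ _ _)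
      (H1 K R Lam L W k1 k2 k3 e2 e3 hR hL hbig hW g1 g2 g3 g4 he3 hw hw')
  have hsub : Te K W β γ e2 e3 - Tt K W β γ e2 e3 = ∑ k ∈ ZZ K ×ˢ ZZ K ×ˢ ZZ K,
      (β k.2.1 * γ k.2.2 *
        (W (x0 k.2.1 k.2.2 - k.1) k.2.1 k.2.2 * e (√(qf k.1 k.2.1 k.2.2) / 2) *
          (starRingEnd ℂ) (W (x0 (k.2.1 + e2 : ℤ) (k.2.2 + e3 : ℤ) - k.1) (k.2.1 + e2 : ℤ) (k.2.2 + e3 : ℤ) *
            e (√(qf k.1 (k.2.1 + e2 : ℤ) (k.2.2 + e3 : ℤ)) / 2))) -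
        β k.2.1 * γ k.2.2 *
        (W (x0 k.2.1 k.2.2 - k.1) k.2.1 k.2.2 *
          (starRingEnd ℂ) (W (x0 (k.2.1 + e2 : ℤ) (k.2.2 + e3 : ℤ) - k.1) (k.2.1 + e2 : ℤ) (k.2.2 + e3 : ℤ)) *
          e (Ft e2 e3 (x0 k.2.1 k.2.2 - k.1) k.2.1 k.2.2))) := by
    rw [Finset.sum_product]
    unfold Te Tt
    rw [← Finset.sum_sub_distrib]
    refine Finset.sum_congr rfl fun k1 _ => ?_
    rw [Finset.sum_product, ← Finset.sum_sub_distrib]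
    refine Finset.sum_congr rfl fun k2 _ => ?_
    rw [← Finset.sum_sub_distrib]
  rw [hsub]
  refine (norm_sum_le _ _).trans ?_
  refine (Finset.sum_le_sum fun k _ => hterm k.1 k.2.1 k.2.2).trans ?_
  have hsum : ∑ k ∈ ZZ K ×ˢ ZZ K ×ˢ ZZ K, (if (k.1, k.2.1, k.2.2) ∈ Reg K R L then 2 * Real.pi * δ else 0) ≤
      (Reg K R L).card * (2 * Real.pi * δ) := by
    rw [← Finset.sum_filter, Finset.sum_const, nsmul_eq_mul]
    refine mul_le_mul_of_nonneg_right ?_ (by positivity)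
    have : (ZZ K ×ˢ ZZ K ×ˢ ZZ K).filter (fun k => (k.1, k.2.1, k.2.2) ∈ Reg K R L) ⊆ Reg K R L := by
      intro k hk
      exact (Finset.mem_filter.1 hk).2
    exact_mod_cast Finset.card_le_card this
  refine hsum.trans ?_
  have hcard := H2 K R L hR hL hbig
  have hsz := e1_size hR hL hbig
  calc ((Reg K R L).card : ℝ) * (2 * Real.pi * δ) ≤ C2 * (K ^ 2 * L / √R) * (2 * Real.pi * δ) :=
        mul_le_mul_of_nonneg_right hcard (by positivity)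
    _ = 2 * Real.pi * C1 * C2 * (K ^ 2 * L / √R * ((L : ℝ) * √(L : ℝ) * R / √K)) := by
        rw [hδ]; ring
    _ ≤ 2 * Real.pi * C1 * C2 * (K ^ 2 / (√R * L)) := by
        refine mul_le_mul_of_nonneg_left hsz ?_
        have : 0 ≤ C1 := by linarith
        have : 0 ≤ C2 := by linarith
        positivity

end TS
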