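import Pool.Agent.Lib.MP_39df77_nt.TS.TeLeA

/-!
Row TS-E2: from `Tt` to the cells.
-/

set_option autoImplicit false

namespace TS

open Finset

/-- product of the two weights -/
private noncomputable def E2_w (W : ℝ → ℝ → ℝ → ℂ) (e2 e3 : ℤ) (k : ℤ × ℤ × ℤ) : ℂ :=
  W (x0 k.2.1 k.2.2 - k.1) k.2.1 k.2.2 *
    (starRingEnd ℂ) (W (x0 (k.2.1 + e2 : ℤ) (k.2.2 + e3 : ℤ) - k.1) (k.2.1 + e2 : ℤ) (k.2.2 + e3 : ℤ))

private noncomputable def E2_h (β γ : ℤ → ℂ) (e2 e3 : ℤ) (k : ℤ × ℤ × ℤ) : ℂ :=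
  β k.2.1 * γ k.2.2 * e (Ft e2 e3 (x0 k.2.1 k.2.2 - k.1) k.2.1 k.2.2)

private theorem E2_Tt_eq (K : ℝ) (W : ℝ → ℝ → ℝ → ℂ) (β γ : ℤ → ℂ) (e2 e3 : ℤ) :
    Tt K W β γ e2 e3 = ∑ k ∈ ZZ K ×ˢ ZZ K ×ˢ ZZ K, E2_w W e2 e3 k * E2_h β γ e2 e3 k := by
  unfold Tt
  rw [Finset.sum_product]
  refine Finset.sum_congr rfl (fun k1 _ => ?_)
  rw [Finset.sum_product]
  refine Finset.sum_congr rfl (fun k2 _ => Finset.sum_congr rfl (fun k3 _ => ?_))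
  unfold E2_w E2_h
  ring

private theorem E2_bl_eq {K : ℝ} {B : ℕ} (hB : 1 ≤ B) {i : ℤ} (h : ∀ k ∈ bl B i, k ∈ ZZ K) :
    bl B i = (ZZ K).filter (fun k => i = k / (B : ℤ)) := by
  ext k
  rw [Finset.mem_filter]
  constructor
  · intro hk
    exact ⟨h k hk, (E2_bl_iff hB).1 hk⟩
  · intro hk
    exact (E2_bl_iff hB).2 hk.2

private theorem E2_Sc_eq {K : ℝ} {M B : ℕ} (hB : 1 ≤ B) (β γ : ℤ → ℂ) (e2 e3 : ℤ) (z : ℤ × ℤ × ℤ)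
    (h2 : ∀ k ∈ bl B z.2.1, k ∈ ZZ K) (h3 : ∀ k ∈ bl B z.2.2, k ∈ ZZ K) :
    Sc M B β γ (ZZ K) e2 e3 z.1 z.2.1 z.2.2 =
      ∑ k ∈ ZZ K ×ˢ ZZ K ×ˢ ZZ K, ((E2_t M B z k : ℝ) : ℂ) * E2_h β γ e2 e3 k := by
  unfold Sc
  rw [Finset.sum_product]
  refine Finset.sum_congr rfl (fun k1 _ => ?_)
  rw [Finset.sum_product, E2_bl_eq hB h2, E2_bl_eq hB h3, Finset.sum_filter]
  refine Finset.sum_congr rfl (fun k2 _ => ?_)
  unfold E2_t E2_h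
  dsimp only
  by_cases hk2 : z.2.1 = k2 / (B : ℤ)
  · rw [if_pos hk2, Finset.sum_filter]
    refine Finset.sum_congr rfl (fun k3 _ => ?_)
    by_cases hk3 : z.2.2 = k3 / (B : ℤ)
    · rw [if_pos hk3, if_pos hk2, if_pos hk3]
      push_cast
      ring
    · rw [if_neg hk3, if_neg hk3]
      push_cast
      ring
  · rw [if_neg hk2]
    symm
    apply Finset.sum_eq_zero
    intro k3 _
    rw [if_neg hk2]
    push_cast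
    ring

private theorem E2_near {M B : ℕ} (hM : 0 < (M : ℝ)) (hB : 1 ≤ B) {z k : ℤ × ℤ × ℤ} (h : E2_t M B z k ≠ 0) :
    ((z.2.1 * B : ℤ) : ℝ) ≤ k.2.1 ∧ (k.2.1 : ℝ) ≤ ((z.2.1 * B : ℤ) : ℝ) + B ∧
    ((z.2.2 * B : ℤ) : ℝ) ≤ k.2.2 ∧ (k.2.2 : ℝ) ≤ ((z.2.2 * B : ℤ) : ℝ) + B ∧
    |M * (x0 k.2.1 k.2.2 - k.1) - M * ((z.1 : ℝ) / M)| ≤ 1 := by
  obtain ⟨h1, h2, h3⟩ := E2_t_ne h
  have h4 := E2_mem_bl.1 ((E2_bl_iff hB).2 h2)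
  have h5 := E2_mem_bl.1 ((E2_bl_iff hB).2 h3)
  have c1 : ((z.2.1 * B : ℤ) : ℝ) ≤ k.2.1 := by exact_mod_cast h4.1
  have c2 : (k.2.1 : ℝ) ≤ ((z.2.1 * B : ℤ) : ℝ) + B := by exact_mod_cast h4.2.le
  have c3 : ((z.2.2 * B : ℤ) : ℝ) ≤ k.2.2 := by exact_mod_cast h5.1
  have c4 : (k.2.2 : ℝ) ≤ ((z.2.2 * B : ℤ) : ℝ) + B := by exact_mod_cast h5.2.le
  refine ⟨c1, c2, c3, c4, ?_⟩
  rw [mul_div_cancel₀ _ hM.ne']
  exact (tent_ne h1).le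

private theorem E2_active {K R Lam κ : ℝ} {L M B : ℕ} {W : ℝ → ℝ → ℝ → ℂ} (P : E2_P K R κ L M B)
    (hW : Wt K R L Lam W) (hB : 1 ≤ B) {e2 e3 : ℤ} (he2 : |(e2 : ℝ)| ≤ 10 * L * √R) (he3 : |(e3 : ℝ)| ≤ L)
    {z k : ℤ × ℤ × ℤ} (h1 : K ≤ k.2.1) (h2 : (k.2.1 : ℝ) ≤ 2 * K) (h3 : K ≤ ((k.2.1 + e2 : ℤ) : ℝ))
    (h4 : ((k.2.1 + e2 : ℤ) : ℝ) ≤ 2 * K) (ht : E2_t M B z k ≠ 0) (hw : E2_w W e2 e3 k ≠ 0) :
    E2_B K R κ L M B e2 e3 ((z.1 : ℝ) / M) ((z.2.1 * B : ℤ) : ℝ) ((z.2.2 * B : ℤ) : ℝ) := by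
  obtain ⟨c1, c2, c3, c4, c5⟩ := E2_near P.Mpos hB ht
  unfold E2_w at hw
  have hw1 := left_ne_zero_of_mul hw
  have hw2 : W (x0 (k.2.1 + e2 : ℤ) (k.2.2 + e3 : ℤ) - k.1) (k.2.1 + e2 : ℤ) (k.2.2 + e3 : ℤ) ≠ 0 := by
    intro h0
    apply right_ne_zero_of_mul hw
    rw [h0, map_zero]
  have e1 : ((k.2.1 + e2 : ℤ) : ℝ) = (k.2.1 : ℝ) + e2 := by push_cast; ring
  have e1' : ((k.2.2 + e3 : ℤ) : ℝ) = (k.2.2 : ℝ) + e3 := by push_cast; ring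
  rw [e1, e1'] at hw2
  rw [e1] at h3 h4
  exact E2_base P hW he2 he3 h1 h2 h3 h4 hw1 hw2 c1 c2 c3 c4 c5

private theorem E2_point {K R κ : ℝ} {L M B : ℕ} (P : E2_P K R κ L M B) (hB : 1 ≤ B) {e2 e3 : ℤ}
    {z k : ℤ × ℤ × ℤ}
    (b : E2_B K R κ L M B e2 e3 ((z.1 : ℝ) / M) ((z.2.1 * B : ℤ) : ℝ) ((z.2.2 * B : ℤ) : ℝ))
    (ht : E2_t M B z k ≠ 0) : E2_K K R L M ((z.1 : ℝ) / M) k.1 k.2.1 k.2.2 := by
  obtain ⟨c1, c2, c3, c4, c5⟩ := E2_near P.Mpos hB ht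
  exact E2_pt P b c1 c2 c3 c4 c5

private theorem E2_inReg {K R κ : ℝ} {L M B : ℕ} (P : E2_P K R κ L M B) {θ₀ : ℝ} {k : ℤ × ℤ × ℤ}
    (hk : k ∈ ZZ K ×ˢ ZZ K ×ˢ ZZ K) (p : E2_K K R L M θ₀ k.1 k.2.1 k.2.2) : k ∈ Reg K R L := by
  obtain ⟨p1, p2, p3, p4, p5, p6, p7, p8, p9, p10, p11⟩ := p
  have hK0 := P.K0
  have hR := P.hR
  have hsR := P.sR
  have hKR0 : 0 < K / √R := by positivity
  have hKR : 0 < K / R := by positivity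
  unfold Reg
  rw [Finset.mem_filter]
  refine ⟨hk, by linarith, by linarith, ?_, by linarith, p5, ?_, p7, p8⟩
  · have : (k.2.1 : ℝ) < k.2.2 := by linarith
    exact_mod_cast this
  · refine p6.trans ?_
    have e1 : 4 * K / R = 4 * (K / R) := by ring
    have e2 : 8 * K / R = 8 * (K / R) := by ring
    rw [e1, e2]
    linarith

private theorem E2_Good {K R κ : ℝ} {L M B : ℕ} (P : E2_P K R κ L M B) {e2 e3 : ℤ} {z : ℤ × ℤ × ℤ}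
    (b : E2_B K R κ L M B e2 e3 ((z.1 : ℝ) / M) ((z.2.1 * B : ℤ) : ℝ) ((z.2.2 * B : ℤ) : ℝ)) :
    Good K R L M B e2 e3 z.1 z.2.1 z.2.2 := by
  obtain ⟨b1, b2, b3, b4, b5, b6, b7, b8, b9, b10, b11, b12⟩ := b
  have hK0 := P.K0
  have hR := P.hR
  have hL := P.hL
  have hsR := P.sR
  have hKR0 : 0 < K / √R := by positivity
  have hKR : 0 < K / R := by positivity
  have hs0 := P.s0
  have hs2 := P.s2
  obtain ⟨s, hs⟩ : ∃ s : ℝ, s = κ ^ 2 / √R := ⟨_, rfl⟩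
  rw [← hs] at hs0 hs2 b7 b8
  have hx1 : 4761 / 10000 * (K / R) ≤ x0 ((z.2.1 * B : ℤ) : ℝ) ((z.2.2 * B : ℤ) : ℝ) := by
    have := pow_le_pow_left₀ (by positivity) b7 2
    rw [mul_pow, hs2] at this
    unfold x0
    linarith
  have hx2 : x0 ((z.2.1 * B : ℤ) : ℝ) ((z.2.2 * B : ℤ) : ℝ) ≤ 324 / 100 * (K / R) := by
    have := pow_le_pow_left₀ (by linarith) b8 2
    rw [mul_pow, hs2] at this
    unfold x0
    linarith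
  exact
    { θ1 := by linarith
      θ2 := by linarith
      t1 := by linarith
      t2 := by linarith
      u1 := by linarith
      u2 := by linarith
      uv := by linarith
      v2 := by linarith
      y1 := by
        have : K / (4 * R) = 1 / 4 * (K / R) := by field_simp
        rw [this]
        linarith
      y2 := by
        have : 8 * K / R = 8 * (K / R) := by ring
        rw [this]
        linarith }

private theorem E2_memZZ {K : ℝ} {k : ℤ} (h0 : (0 : ℝ) ≤ k) (h1 : (k : ℝ) ≤ 25 * K) : k ∈ ZZ K := by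
  unfold ZZ
  rw [Finset.mem_Icc]
  exact ⟨by exact_mod_cast h0, Int.le_floor.2 h1⟩

private theorem E2_blZZ {K R κ : ℝ} {L M B : ℕ} (P : E2_P K R κ L M B) {i : ℤ}
    (h0 : (0 : ℝ) ≤ ((i * B : ℤ) : ℝ)) (h1 : ((i * B : ℤ) : ℝ) ≤ 20 * K) : ∀ k ∈ bl B i, k ∈ ZZ K := by
  intro k hk
  have h2 := E2_mem_bl.1 hk
  have h3 : ((i * B : ℤ) : ℝ) ≤ k := by exact_mod_cast h2.1
  have h4 : (k : ℝ) ≤ ((i * B : ℤ) : ℝ) + B := by exact_mod_cast h2.2.le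
  have h5 := P.BK
  have h6 := P.K0
  exact E2_memZZ (by linarith) (by linarith)

/-- the weight at the base point -/
private noncomputable def E2_om (M B : ℕ) (W : ℝ → ℝ → ℝ → ℂ) (e2 e3 : ℤ) (z : ℤ × ℤ × ℤ) : ℂ :=
  W ((z.1 : ℝ) / M) ((z.2.1 * B : ℤ) : ℝ) ((z.2.2 * B : ℤ) : ℝ) *
    (starRingEnd ℂ) (W (x0 (((z.2.1 * B : ℤ) : ℝ) + e2) (((z.2.2 * B : ℤ) : ℝ) + e3) -
      x0 ((z.2.1 * B : ℤ) : ℝ) ((z.2.2 * B : ℤ) : ℝ) + (z.1 : ℝ) / M)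
      (((z.2.1 * B : ℤ) : ℝ) + e2) (((z.2.2 * B : ℤ) : ℝ) + e3))

private theorem E2_om_le {K R Lam : ℝ} {L M B : ℕ} {W : ℝ → ℝ → ℝ → ℂ}
    (hW : Wt K R L Lam W) (e2 e3 : ℤ) (z : ℤ × ℤ × ℤ) : ‖E2_om M B W e2 e3 z‖ ≤ 1 := by
  unfold E2_om
  rw [norm_mul, RCLike.norm_conj]
  exact mul_le_one₀ (hW.bd _ _ _) (norm_nonneg _) (hW.bd _ _ _)

private theorem E2_w_le {K R Lam : ℝ} {L : ℕ} {W : ℝ → ℝ → ℝ → ℂ}
    (hW : Wt K R L Lam W) (e2 e3 : ℤ) (k : ℤ × ℤ × ℤ) : ‖E2_w W e2 e3 k‖ ≤ 1 := by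
  unfold E2_w
  rw [norm_mul, RCLike.norm_conj]
  exact mul_le_one₀ (hW.bd _ _ _) (norm_nonneg _) (hW.bd _ _ _)

open Classical in
private noncomputable def E2_b (β : ℤ → ℂ) (k : ℤ × ℤ × ℤ) : ℝ := if β k.2.1 = 0 then 0 else 1

private theorem E2_b0 (β : ℤ → ℂ) (k : ℤ × ℤ × ℤ) : 0 ≤ E2_b β k := by
  unfold E2_b; split_ifs <;> norm_num

private theorem E2_b1 (β : ℤ → ℂ) (k : ℤ × ℤ × ℤ) : E2_b β k ≤ 1 := by
  unfold E2_b; split_ifs <;> norm_num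

private theorem E2_h_le {β γ : ℤ → ℂ} (hβ : ∀ k, ‖β k‖ ≤ 1) (hγ : ∀ k, ‖γ k‖ ≤ 1) (e2 e3 : ℤ) (k : ℤ × ℤ × ℤ) :
    ‖E2_h β γ e2 e3 k‖ ≤ E2_b β k := by
  unfold E2_h E2_b
  split_ifs with h
  · rw [h]; simp
  · rw [norm_mul, norm_e, mul_one, norm_mul]
    exact mul_le_one₀ (hβ _) (norm_nonneg _) (hγ _)

/-- one cell -/
private theorem E2_cell {K R Lam κ : ℝ} {L M B : ℕ} {W : ℝ → ℝ → ℝ → ℂ} (P : E2_P K R κ L M B) (hLam : 1 ≤ Lam)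
    (hW : Wt K R L Lam W) (hB : 1 ≤ B) {e2 e3 : ℤ} {β γ : ℤ → ℂ} (he2 : |(e2 : ℝ)| ≤ 10 * L * √R)
    (he3 : |(e3 : ℝ)| ≤ L) (hβ : ∀ k, ‖β k‖ ≤ 1) (hγ : ∀ k, ‖γ k‖ ≤ 1)
    (hβK : ∀ k : ℤ, β k ≠ 0 → K ≤ k ∧ (k : ℝ) ≤ 2 * K ∧ K ≤ ((k + e2 : ℤ) : ℝ) ∧ ((k + e2 : ℤ) : ℝ) ≤ 2 * K)
    {z : ℤ × ℤ × ℤ}
    (b : E2_B K R κ L M B e2 e3 ((z.1 : ℝ) / M) ((z.2.1 * B : ℤ) : ℝ) ((z.2.2 * B : ℤ) : ℝ)) :
    ‖∑ k ∈ ZZ K ×ˢ ZZ K ×ˢ ZZ K, ((E2_t M B z k : ℝ) : ℂ) * (E2_w W e2 e3 k * E2_h β γ e2 e3 k)‖ ≤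
      ‖Sc M B β γ (ZZ K) e2 e3 z.1 z.2.1 z.2.2‖ +
      Lam * (2 / (M * L) + 1204 * (√R * B / K)) * ∑ k ∈ ZZ K ×ˢ ZZ K ×ˢ ZZ K, E2_t M B z k * E2_b β k := by
  have hK0 := P.K0
  have hz1 : (0 : ℝ) ≤ ((z.2.1 * B : ℤ) : ℝ) := by have := b.u1; linarith
  have hsR := P.sR
  have hKR0 : 0 < K / √R := by positivity
  have hz2 : (0 : ℝ) ≤ ((z.2.2 * B : ℤ) : ℝ) := by have := b.gap; linarith
  rw [E2_Sc_eq hB β γ e2 e3 z (E2_blZZ P hz1 (by have := b.u2; linarith)) (E2_blZZ P hz2 (by have := b.v2; linarith))]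
  have e1 : ∑ k ∈ ZZ K ×ˢ ZZ K ×ˢ ZZ K, ((E2_t M B z k : ℝ) : ℂ) * (E2_w W e2 e3 k * E2_h β γ e2 e3 k) =
      E2_om M B W e2 e3 z * ∑ k ∈ ZZ K ×ˢ ZZ K ×ˢ ZZ K, ((E2_t M B z k : ℝ) : ℂ) * E2_h β γ e2 e3 k +
      ∑ k ∈ ZZ K ×ˢ ZZ K ×ˢ ZZ K, ((E2_t M B z k : ℝ) : ℂ) *
        ((E2_w W e2 e3 k - E2_om M B W e2 e3 z) * E2_h β γ e2 e3 k) := by
    rw [Finset.mul_sum, ← Finset.sum_add_distrib]
    refine Finset.sum_congr rfl (fun k _ => ?_)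
    ring
  rw [e1]
  refine (norm_add_le _ _).trans (add_le_add ?_ ?_)
  · rw [norm_mul]
    exact mul_le_of_le_one_left (norm_nonneg _) (E2_om_le hW e2 e3 z)
  · rw [Finset.mul_sum]
    refine (norm_sum_le _ _).trans (Finset.sum_le_sum (fun k _ => ?_))
    by_cases ht : E2_t M B z k = 0
    · rw [ht]; simp
    by_cases hb : β k.2.1 = 0
    · unfold E2_h E2_b
      rw [hb]
      simp
    obtain ⟨c1, c2, c3, c4, c5⟩ := E2_near P.Mpos hB ht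
    obtain ⟨d1, d2, d3, d4⟩ := hβK _ hb
    have e2' : ((k.2.1 + e2 : ℤ) : ℝ) = (k.2.1 : ℝ) + e2 := by push_cast; ring
    have e3' : ((k.2.2 + e3 : ℤ) : ℝ) = (k.2.2 : ℝ) + e3 := by push_cast; ring
    rw [e2'] at d3 d4
    have hw := E2_wt P hLam hW he2 he3 b c1 c2 c3 c4 c5 d3 d4
    have hw' : ‖E2_w W e2 e3 k - E2_om M B W e2 e3 z‖ ≤ Lam * (2 / (M * L) + 1204 * (√R * B / K)) := by
      unfold E2_w E2_om
      rw [e2', e3']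
      exact hw
    rw [norm_mul, norm_mul, Complex.norm_real, Real.norm_of_nonneg (E2_t_nonneg M B z k)]
    have h5 := mul_le_mul hw' (E2_h_le hβ hγ e2 e3 k) (norm_nonneg _) ((norm_nonneg _).trans hw')
    calc E2_t M B z k * (‖E2_w W e2 e3 k - E2_om M B W e2 e3 z‖ * ‖E2_h β γ e2 e3 k‖) ≤
        E2_t M B z k * (Lam * (2 / (M * L) + 1204 * (√R * B / K)) * E2_b β k) :=
          mul_le_mul_of_nonneg_left h5 (E2_t_nonneg M B z k)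
      _ = _ := by ring

/-- trivial bound of one cell -/
private theorem E2_triv {K R Lam : ℝ} {L M B : ℕ} {W : ℝ → ℝ → ℝ → ℂ} (hW : Wt K R L Lam W)
    {e2 e3 : ℤ} {β γ : ℤ → ℂ} (hβ : ∀ k, ‖β k‖ ≤ 1) (hγ : ∀ k, ‖γ k‖ ≤ 1) (z : ℤ × ℤ × ℤ) (Z : Finset (ℤ × ℤ × ℤ)) :
    ‖∑ k ∈ Z, ((E2_t M B z k : ℝ) : ℂ) * (E2_w W e2 e3 k * E2_h β γ e2 e3 k)‖ ≤
      ∑ k ∈ Z, E2_t M B z k * E2_b β k := by
  refine (norm_sum_le _ _).trans (Finset.sum_le_sum (fun k _ => ?_))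
  rw [norm_mul, norm_mul, Complex.norm_real, Real.norm_of_nonneg (E2_t_nonneg M B z k)]
  apply mul_le_mul_of_nonneg_left _ (E2_t_nonneg M B z k)
  calc ‖E2_w W e2 e3 k‖ * ‖E2_h β γ e2 e3 k‖ ≤ ‖E2_h β γ e2 e3 k‖ :=
        mul_le_of_le_one_left (norm_nonneg _) (E2_w_le hW e2 e3 k)
    _ ≤ _ := E2_h_le hβ hγ e2 e3 k

private theorem E2_delta {K R κ : ℝ} {L M B : ℕ} (P : E2_P K R κ L M B) {Lam C0 N : ℝ} (hLam : 1 ≤ Lam)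
    (hC0 : 0 ≤ C0) (hN : N ≤ C0 * (K ^ 2 * L / √R)) :
    Lam * (2 / (M * L) + 1204 * (√R * B / K)) * N ≤ C0 * (Lam * (K ^ 2 / (√R * L))) := by
  have hK0 := P.K0
  have hL := P.hL
  have hR := P.hR
  have hsR := P.sR
  have hMpos := P.Mpos
  have hB0 := P.B0
  have hκ := P.hκ
  have h1 : (L : ℝ) ^ 2 * (2 / (M * L)) ≤ 1 / 100 := by
    have e1 : (L : ℝ) ^ 2 * (2 / (M * L)) = 2 * L / M := by field_simp
    rw [e1, div_le_iff₀ hMpos]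
    have h2 := P.LR2κ
    have h3 := P.hM
    have h4 : (L : ℝ) * L ≤ (L * R) ^ 2 := by
      rw [sq]
      have : (L : ℝ) * 1 ≤ L * R := mul_le_mul_of_nonneg_left hR (by linarith)
      rw [mul_one] at this
      exact mul_le_mul this this (by linarith) (by linarith)
    -- `10^12 L² ≤ κ ≤ L M`
    have h5 : (L : ℝ) * (10 ^ 12 * L) ≤ L * M := by linarith
    have h6 : 10 ^ 12 * (L : ℝ) ≤ M := le_of_mul_le_mul_left h5 (by linarith)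
    linarith
  have h2 : (L : ℝ) ^ 2 * (1204 * (√R * B / K)) ≤ 1 / 100 := by
    have h3 := E2_small P
    have h4 : (L : ℝ) ^ 2 * (√R * B / K) ≤ L * (√R * B) / K * (L * R) := by
      have e1 : L * (√R * B) / K * (L * R) = ((L : ℝ) ^ 2 * (√R * B / K)) * R := by ring
      rw [e1]
      exact le_mul_of_one_le_right (by positivity) hR
    linarith
  have h3 : (0 : ℝ) ≤ Lam * (2 / (M * L) + 1204 * (√R * B / K)) := by positivity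
  refine (mul_le_mul_of_nonneg_left hN h3).trans ?_
  have e2 : Lam * (2 / (M * L) + 1204 * (√R * B / K)) * (C0 * (K ^ 2 * L / √R)) =
      (C0 * (Lam * (K ^ 2 / (√R * L)))) * ((L : ℝ) ^ 2 * (2 / (M * L)) + (L : ℝ) ^ 2 * (1204 * (√R * B / K))) := by
    field_simp
  rw [e2]
  apply mul_le_of_le_one_right (by positivity)
  linarith

/-- 1. `1 = ∑_c tent(Mθ - c)`, `c ∈ [0, 6LM]`; `1 = ∑_{i₂,i₃} 1[k₂ ∈ bl i₂, k₃ ∈ bl i₃]`, `i ∈ [0, 30K/B]`. `A₀` = the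
`(c,i₂,i₃)` for which some term with `tent ≠ 0`, `β k₂ ≠ 0` and both `W ≠ 0` exists: `Good` holds (`xt_approx`,
`xt_lip` for `t1`, `t2`).
2. On such a cell x block (all `k₁` with `tent ≠ 0`, `β k₂ ≠ 0`) both weights are within
`C Lam (1/(ML) + √R B/K) ≤ C Lam K^{-1/4} L^{-1/4}` of their values at `(c/M, i₂B, i₃B)` (`Wt.lip`, `xt_lip`), and the
triples are in `Reg` (`card_Reg`): total error `C Lam K²/(√R L)`.
3. `A` = the elements of `A₀` with `|x| ≥ xi`; the others: `‖Sc‖ ≤ ∑ tent`, triples of `Reg` with `|xt| ≤ 2 xi`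
(`xt_lip`: `C L√R B/K ≤ xi`). -/
theorem te_le : ∃ C : ℝ, 1 ≤ C ∧ ∀ (K R Lam : ℝ) (L M B : ℕ) (W : ℝ → ℝ → ℝ → ℂ) (e2 e3 : ℤ) (β γ : ℤ → ℂ),
    Par K R L M B → 1 ≤ Lam → Wt K R L Lam W → |(e2 : ℝ)| ≤ 10 * L * √R → |(e3 : ℝ)| ≤ L →
    (∀ k, ‖β k‖ ≤ 1) → (∀ k, ‖γ k‖ ≤ 1) →
    (∀ k : ℤ, β k ≠ 0 → K ≤ k ∧ (k : ℝ) ≤ 2 * K ∧ K ≤ ((k + e2 : ℤ) : ℝ) ∧ ((k + e2 : ℤ) : ℝ) ≤ 2 * K) →
    ∃ A : Finset (ℤ × ℤ × ℤ),
      (∀ z ∈ A, Good K R L M B e2 e3 z.1 z.2.1 z.2.2 ∧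
        xi R L ≤ |xt e2 e3 ((z.2.1 * B : ℤ) : ℝ) ((z.2.2 * B : ℤ) : ℝ)| ∧
        ∀ k1 k2 k3 : ℤ, k2 ∈ bl B z.2.1 → k3 ∈ bl B z.2.2 →
          tent (M * (x0 k2 k3 - k1) - z.1) ≠ 0 → k1 ∈ ZZ K) ∧
      ‖Tt K W β γ e2 e3‖ ≤ ∑ z ∈ A, ‖Sc M B β γ (ZZ K) e2 e3 z.1 z.2.1 z.2.2‖ +
        C * (Lam * (K ^ 2 / (√R * L))) +
        ((Reg K R L).filter (fun k => |xt e2 e3 k.2.1 k.2.2| ≤ 2 * xi R L)).card := by
  classical
  obtain ⟨C0, hC0, hReg⟩ := card_Reg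
  refine ⟨C0, hC0, ?_⟩
  intro K R Lam L M B W e2 e3 β γ hPar hLam hW he2 he3 hβ hγ hβK
  obtain ⟨κ, P⟩ := E2_mkP hPar
  have hK0 := P.K0
  have hL := P.hL
  have hR := P.hR
  have hMpos := P.Mpos
  have hB : 1 ≤ B := by
    by_contra hc
    have hc0 : B = 0 := by omega
    have h1 := hPar.B2
    rw [hc0] at h1
    have h2 : 0 < K * √K := mul_pos hK0 (Real.sqrt_pos.2 hK0)
    norm_num at h1
    linarith
  set Z := ZZ K ×ˢ ZZ K ×ˢ ZZ K with hZ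
  obtain ⟨Q, hQ⟩ : ∃ Q : Finset (ℤ × ℤ × ℤ), Q = Icc (0 : ℤ) ((6 * L * M : ℕ) : ℤ) ×ˢ ZZ K ×ˢ ZZ K := ⟨_, rfl⟩
  obtain ⟨A₀, hA₀⟩ : ∃ A₀ : Finset (ℤ × ℤ × ℤ), A₀ = Q.filter
      (fun z => ∃ k ∈ Z, E2_t M B z k ≠ 0 ∧ β k.2.1 ≠ 0 ∧ E2_w W e2 e3 k ≠ 0) := ⟨_, rfl⟩
  have hbase : ∀ z ∈ A₀,
      E2_B K R κ L M B e2 e3 ((z.1 : ℝ) / M) ((z.2.1 * B : ℤ) : ℝ) ((z.2.2 * B : ℤ) : ℝ) := by
    intro z hz
    rw [hA₀, Finset.mem_filter] at hz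
    obtain ⟨_, k, hk, h1, h2, h3⟩ := hz
    obtain ⟨d1, d2, d3, d4⟩ := hβK _ h2
    exact E2_active P hW hB he2 he3 d1 d2 d3 d4 h1 h3
  -- the partition of unity
  have hpart : Tt K W β γ e2 e3 =
      ∑ z ∈ Q, ∑ k ∈ Z, ((E2_t M B z k : ℝ) : ℂ) * (E2_w W e2 e3 k * E2_h β γ e2 e3 k) := by
    rw [E2_Tt_eq, Finset.sum_comm]
    refine Finset.sum_congr rfl (fun k hk => ?_)
    rw [← Finset.sum_mul]
    by_cases h0 : E2_w W e2 e3 k = 0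
    · rw [h0]; ring
    have h1 : ∑ z ∈ Q, E2_t M B z k = 1 := by
      rw [hQ, E2_t_sum]
      unfold E2_w at h0
      obtain ⟨w1, w2, w3, w4, w5⟩ := hW.th _ _ _ (left_ne_zero_of_mul h0)
      rw [Finset.mem_product, Finset.mem_product] at hk
      obtain ⟨_, hk2, hk3⟩ := hk
      have hm : ∀ j ∈ ZZ K, j / (B : ℤ) ∈ ZZ K := by
        intro j hj
        unfold ZZ at hj ⊢
        rw [Finset.mem_Icc] at hj ⊢
        exact ⟨Int.ediv_nonneg hj.1 (by positivity), (Int.ediv_le_self _ hj.1).trans hj.2⟩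
      rw [if_pos (hm _ hk2), if_pos (hm _ hk3), mul_one, mul_one]
      apply E2_tent_sum
      · exact mul_nonneg hMpos.le (by linarith)
      · push_cast
        have h5 : (M : ℝ) * (x0 k.2.1 k.2.2 - k.1) ≤ M * (4 * L) := mul_le_mul_of_nonneg_left w2 hMpos.le
        have h6 : 0 < (L : ℝ) * M := by positivity
        linarith
    have h2 : ∑ z ∈ Q, ((E2_t M B z k : ℝ) : ℂ) = 1 := by
      rw [← Complex.ofReal_sum, h1, Complex.ofReal_one]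
    rw [h2, one_mul]
  have hzero : ∀ z ∈ Q, z ∉ A₀ →
      ∑ k ∈ Z, ((E2_t M B z k : ℝ) : ℂ) * (E2_w W e2 e3 k * E2_h β γ e2 e3 k) = 0 := by
    intro z hz hzA
    apply Finset.sum_eq_zero
    intro k hk
    by_contra hc
    apply hzA
    rw [hA₀, Finset.mem_filter]
    have h1 := left_ne_zero_of_mul hc
    have h2 := right_ne_zero_of_mul hc
    have h3 := left_ne_zero_of_mul h2
    have h4 := right_ne_zero_of_mul h2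
    unfold E2_h at h4
    refine ⟨hz, k, hk, ?_, left_ne_zero_of_mul (left_ne_zero_of_mul h4), h3⟩
    intro h0
    apply h1
    rw [h0, Complex.ofReal_zero]
  have hsub : A₀ ⊆ Q := by rw [hA₀]; exact Finset.filter_subset _ _
  have hpart2 : Tt K W β γ e2 e3 =
      ∑ z ∈ A₀, ∑ k ∈ Z, ((E2_t M B z k : ℝ) : ℂ) * (E2_w W e2 e3 k * E2_h β γ e2 e3 k) := by
    rw [hpart]
    symm
    exact Finset.sum_subset hsub hzero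
  -- the set `A`
  obtain ⟨A, hA⟩ : ∃ A : Finset (ℤ × ℤ × ℤ), A = A₀.filter
      (fun z => xi R L ≤ |xt e2 e3 ((z.2.1 * B : ℤ) : ℝ) ((z.2.2 * B : ℤ) : ℝ)|) := ⟨_, rfl⟩
  obtain ⟨A', hA'⟩ : ∃ A' : Finset (ℤ × ℤ × ℤ), A' = A₀.filter
      (fun z => ¬ xi R L ≤ |xt e2 e3 ((z.2.1 * B : ℤ) : ℝ) ((z.2.2 * B : ℤ) : ℝ)|) := ⟨_, rfl⟩
  have hAA : A ⊆ A₀ := by rw [hA]; exact Finset.filter_subset _ _
  have hAA' : A' ⊆ A₀ := by rw [hA']; exact Finset.filter_subset _ _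
  refine ⟨A, ?_, ?_⟩
  · intro z hz
    have hz' := hz
    rw [hA, Finset.mem_filter] at hz'
    have b := hbase z hz'.1
    refine ⟨E2_Good P b, hz'.2, ?_⟩
    intro k1 k2 k3 h2 h3 ht
    have ht' : E2_t M B z (k1, k2, k3) ≠ 0 := by
      unfold E2_t
      dsimp only
      rw [if_pos ((E2_bl_iff hB).1 h2), if_pos ((E2_bl_iff hB).1 h3), mul_one, mul_one]
      exact ht
    have p := E2_point P hB b ht'
    exact E2_memZZ p.k0 p.k25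
  -- the bound
  have hS : ∀ z ∈ A, ∀ k ∈ Z, E2_t M B z k ≠ 0 → E2_b β k ≠ 0 → k ∈ Reg K R L := by
    intro z hz k hk ht _
    exact E2_inReg P hk (E2_point P hB (hbase z (hAA hz)) ht)
  have hN := E2_comb M B _ _ _ A Z (by rw [← hQ]; exact hAA.trans hsub) (E2_b β) (E2_b0 β) (E2_b1 β) _ hS
  have hS' : ∀ z ∈ A', ∀ k ∈ Z, E2_t M B z k ≠ 0 → E2_b β k ≠ 0 →
      k ∈ (Reg K R L).filter (fun k => |xt e2 e3 k.2.1 k.2.2| ≤ 2 * xi R L) := by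
    intro z hz k hk ht _
    have hz' := hz
    rw [hA', Finset.mem_filter] at hz'
    have b := hbase z hz'.1
    have p := E2_point P hB b ht
    rw [Finset.mem_filter]
    refine ⟨E2_inReg P hk p, ?_⟩
    obtain ⟨c1, c2, c3, c4, c5⟩ := E2_near hMpos hB ht
    obtain ⟨b1, b2, b3, b4, b5, b6, b7, b8, b9, b10, b11, b12⟩ := b
    obtain ⟨p1, p2, p3, p4, p5, p6, p7, p8, p9, p10, p11⟩ := p
    have hsR := P.sR
    have hKR0 : 0 < K / √R := by positivity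
    have hB0 := P.B0
    have hn := E2_xt_near P he2 he3 (u := (k.2.1 : ℝ)) (v := (k.2.2 : ℝ)) (u' := ((z.2.1 * B : ℤ) : ℝ))
      (v' := ((z.2.2 * B : ℤ) : ℝ)) (by linarith) (by linarith) (by linarith) (by linarith) (by linarith)
      (by linarith) (by linarith) (by linarith) (by rw [abs_le]; constructor <;> linarith)
      (by rw [abs_le]; constructor <;> linarith)
    have hxi : 600 * (L * (√R * B) / K) ≤ xi R L := by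
      unfold xi
      have h5 := E2_small P
      have hLR : 0 < (L : ℝ) * R := by positivity
      rw [le_div_iff₀ (by positivity)]
      linarith
    have h6 := not_le.1 hz'.2
    have h7 : |xt e2 e3 k.2.1 k.2.2| ≤ |xt e2 e3 k.2.1 k.2.2 - xt e2 e3 ((z.2.1 * B : ℤ) : ℝ) ((z.2.2 * B : ℤ) : ℝ)| +
        |xt e2 e3 ((z.2.1 * B : ℤ) : ℝ) ((z.2.2 * B : ℤ) : ℝ)| := by
      refine le_trans (le_of_eq ?_) (abs_add_le _ _)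
      congr 1; ring
    linarith
  have hN' := E2_comb M B _ _ _ A' Z (by rw [← hQ]; exact hAA'.trans hsub) (E2_b β) (E2_b0 β) (E2_b1 β) _ hS'
  have hcard := hReg K R L hR hPar.hL hPar.big
  have hδ := E2_delta P hLam (by linarith) (hN.trans hcard)
  rw [hpart2, ← Finset.sum_filter_add_sum_filter_not A₀
    (fun z => xi R L ≤ |xt e2 e3 ((z.2.1 * B : ℤ) : ℝ) ((z.2.2 * B : ℤ) : ℝ)|), ← hA, ← hA']
  refine (norm_add_le _ _).trans (add_le_add ?_ ?_)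
  · refine (norm_sum_le _ _).trans ?_
    refine (Finset.sum_le_sum (fun z hz =>
      E2_cell P hLam hW hB he2 he3 hβ hγ hβK (hbase z (hAA hz)))).trans ?_
    rw [Finset.sum_add_distrib, ← Finset.mul_sum]
    exact add_le_add le_rfl hδ
  · refine (norm_sum_le _ _).trans ?_
    refine (Finset.sum_le_sum (fun z _ => E2_triv hW hβ hγ z Z)).trans ?_
    exact hN'

end TS
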