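import Pool.Agent.Lib.MP_39df77_nt.TS.CellBound
import Pool.Agent.Lib.MP_39df77_nt.TS.SumCells
import Pool.Agent.Lib.MP_39df77_nt.TS.Cone1
import Pool.Agent.Lib.MP_39df77_nt.TS.SmallX
import Pool.Agent.Lib.MP_39df77_nt.TS.Te1
import Pool.Agent.Lib.MP_39df77_nt.TS.TeLe

/-!
Row TS-Z2: the cone theorem for thick shells.
-/

set_option autoImplicit false

namespace TS

open Finset

/-- trivial bound for `Te` -/
theorem z2_Te_triv {K R Lam : ℝ} {L : ℕ} {W : ℝ → ℝ → ℝ → ℂ} (hR : 1 ≤ R) (hL : 1 ≤ L)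
    (hbig : 10 ^ 48 * ((L : ℝ) * R) ^ 11 ≤ K) (hW : Wt K R L Lam W) (e2 e3 : ℤ) (β γ : ℤ → ℂ)
    (hβ : ∀ k, ‖β k‖ ≤ 1) (hγ : ∀ k, ‖γ k‖ ≤ 1)
    (hs : ∀ k : ℤ, β k ≠ 0 → K ≤ k ∧ (k : ℝ) ≤ 2 * K) :
    ‖Te K W β γ e2 e3‖ ≤ ((Reg K R L).card : ℝ) := by
  classical
  have key : ∀ k1 k2 k3 : ℤ, ‖β k2 * γ k3 *
      (W (x0 k2 k3 - k1) k2 k3 * e (√(qf k1 k2 k3) / 2) *
        (starRingEnd ℂ) (W (x0 (k2 + e2 : ℤ) (k3 + e3 : ℤ) - k1) (k2 + e2 : ℤ) (k3 + e3 : ℤ) *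
          e (√(qf k1 (k2 + e2 : ℤ) (k3 + e3 : ℤ)) / 2)))‖ ≤
      if (k1, k2, k3) ∈ Reg K R L then (1 : ℝ) else 0 := by
    intro k1 k2 k3
    split_ifs with h
    · rw [norm_mul, norm_mul, norm_mul, norm_mul, RCLike.norm_conj, norm_mul, norm_e, norm_e]
      have h1 := hβ k2
      have h2 := hγ k3
      have h3 := hW.bd (x0 k2 k3 - k1) k2 k3
      have h4 := hW.bd (x0 (k2 + e2 : ℤ) (k3 + e3 : ℤ) - k1) (k2 + e2 : ℤ) (k3 + e3 : ℤ)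
      have h5 : ‖β k2‖ * ‖γ k3‖ ≤ 1 := mul_le_one₀ h1 (norm_nonneg _) h2
      have h6 : ‖W (x0 k2 k3 - k1) k2 k3‖ * 1 *
          (‖W (x0 (k2 + e2 : ℤ) (k3 + e3 : ℤ) - k1) (k2 + e2 : ℤ) (k3 + e3 : ℤ)‖ * 1) ≤ 1 := by
        rw [mul_one, mul_one]
        exact mul_le_one₀ h3 (norm_nonneg _) h4
      exact mul_le_one₀ h5 (by positivity) h6
    · by_cases hb : β k2 = 0
      · rw [hb]; simp
      · by_cases hw : W (x0 k2 k3 - k1) k2 k3 = 0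
        · rw [hw]; simp
        · exact absurd (mem_Reg hR hL hbig hW (hs k2 hb).1 (hs k2 hb).2 hw) h
  have hsub : Reg K R L ⊆ ZZ K ×ˢ ZZ K ×ˢ ZZ K := by
    unfold Reg
    exact Finset.filter_subset _ _
  calc ‖Te K W β γ e2 e3‖ ≤ ∑ k1 ∈ ZZ K, ∑ k2 ∈ ZZ K, ∑ k3 ∈ ZZ K,
        (if (k1, k2, k3) ∈ Reg K R L then (1 : ℝ) else 0) := by
        unfold Te
        refine (norm_sum_le _ _).trans (Finset.sum_le_sum fun k1 _ => ?_)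
        refine (norm_sum_le _ _).trans (Finset.sum_le_sum fun k2 _ => ?_)
        refine (norm_sum_le _ _).trans (Finset.sum_le_sum fun k3 _ => ?_)
        exact key k1 k2 k3
    _ = ∑ k ∈ ZZ K ×ˢ ZZ K ×ˢ ZZ K, (if k ∈ Reg K R L then (1 : ℝ) else 0) := by
        rw [Finset.sum_product]
        refine Finset.sum_congr rfl fun k1 _ => ?_
        rw [Finset.sum_product]
    _ = ((Reg K R L).card : ℝ) := by
        rw [Finset.sum_ite_mem, Finset.inter_eq_right.mpr hsub]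
        simp

/-- number of `z` -/
theorem z2_card {R : ℝ} {L : ℕ} (hR : 1 ≤ R) (hL : 1 ≤ L) :
    (((E2 R L ×ˢ E3s L).card : ℕ) : ℝ) ≤ 42 * ((L : ℝ) ^ 2 * √R) := by
  have hs : 1 ≤ √R := by rw [Real.one_le_sqrt]; exact hR
  have hL' : (1 : ℝ) ≤ L := by exact_mod_cast hL
  have hLs : 1 ≤ (L : ℝ) * √R := by nlinarith
  have hn : 0 ≤ ⌊10 * (L : ℝ) * √R⌋ := Int.floor_nonneg.mpr (by positivity)
  have h1 : ((E2 R L).card : ℝ) ≤ 21 * (L * √R) := by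
    unfold E2
    rw [Int.card_Icc]
    have : (((⌊10 * (L : ℝ) * √R⌋ + 1 - -⌊10 * (L : ℝ) * √R⌋).toNat : ℤ) : ℝ) ≤ 21 * (L * √R) := by
      rw [Int.toNat_of_nonneg (by omega)]
      push_cast
      have := Int.floor_le (10 * (L : ℝ) * √R)
      nlinarith
    exact_mod_cast this
  have h2 : ((E3s L).card : ℝ) ≤ 2 * L := by
    unfold E3s
    rw [Int.card_Ioo]
    have : ((((L : ℤ) - -(L : ℤ) - 1).toNat : ℤ) : ℝ) ≤ 2 * L := by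
      rw [Int.toNat_of_nonneg (by omega)]
      push_cast
      linarith
    exact_mod_cast this
  rw [Finset.card_product]
  push_cast
  calc ((E2 R L).card : ℝ) * (E3s L).card ≤ (21 * (L * √R)) * (2 * L) := by gcongr
    _ = 42 * ((L : ℝ) ^ 2 * √R) := by ring

/-- size of `K` -/
theorem z2_big (ε : ℝ) (hε : 0 < ε) {K R : ℝ} {L : ℕ} (hK : ((10 : ℝ) ^ 48) ^ (1 / ε) ≤ K) (hK1 : 1 ≤ K)
    (h : ((L : ℝ) * R) ^ 11 ≤ K ^ (1 - ε)) : 10 ^ 48 * ((L : ℝ) * R) ^ 11 ≤ K := by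
  have hK0 : 0 < K := by linarith
  have h1 : (10 : ℝ) ^ 48 ≤ K ^ ε := by
    have := Real.rpow_le_rpow (by positivity) hK hε.le
    rw [← Real.rpow_mul (by positivity)] at this
    rw [one_div_mul_cancel hε.ne', Real.rpow_one] at this
    exact this
  have h2 : 0 ≤ K ^ (1 - ε) := (Real.rpow_pos_of_pos hK0 _).le
  calc 10 ^ 48 * ((L : ℝ) * R) ^ 11 ≤ 10 ^ 48 * K ^ (1 - ε) := mul_le_mul_of_nonneg_left h (by positivity)
    _ ≤ K ^ ε * K ^ (1 - ε) := mul_le_mul_of_nonneg_right h1 h2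
    _ = K := by
      rw [← Real.rpow_add hK0]
      simp

/-- the number `J2 = ⌊K^{5/8}⌋` -/
theorem z2_J2 {K R : ℝ} {L M B : ℕ} (hP : Par K R L M B) :
    K ^ (5 / 8 : ℝ) ≤ 2 * (⌊K ^ (5 / 8 : ℝ)⌋₊ : ℝ) ∧ ((⌊K ^ (5 / 8 : ℝ)⌋₊ : ℕ) : ℝ) ≤ K ^ (5 / 8 : ℝ) ∧
      8 * √(K / L) ≤ (⌊K ^ (5 / 8 : ℝ)⌋₊ : ℝ) ∧ (M : ℝ) ≤ (⌊K ^ (5 / 8 : ℝ)⌋₊ : ℝ) := by
  have hL' : (1 : ℝ) ≤ L := by exact_mod_cast hP.hL
  have hR := hP.hR
  have hLR : 1 ≤ (L : ℝ) * R := by nlinarith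
  have hK48 : (10 : ℝ) ^ 48 ≤ K := by
    have : (1 : ℝ) ≤ ((L : ℝ) * R) ^ 11 := one_le_pow₀ hLR
    have := hP.big
    nlinarith
  have hK0 : 0 < K := by
    have : (0 : ℝ) < 10 ^ 48 := by positivity
    linarith
  have hK1 : 1 ≤ K := by
    have : (1 : ℝ) ≤ 10 ^ 48 := by norm_num
    linarith
  set Y := K ^ (1 / 8 : ℝ) with hY
  have hYK : Y ^ 8 = K := by
    rw [hY, ← Real.rpow_natCast, ← Real.rpow_mul hK0.le]
    norm_num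
  have hY0 : 0 < Y := Real.rpow_pos_of_pos hK0 _
  have hY6 : (10 : ℝ) ^ 6 ≤ Y := by
    by_contra hc
    push Not at hc
    have : Y ^ 8 < ((10 : ℝ) ^ 6) ^ 8 := by gcongr
    rw [hYK] at this
    have : K < 10 ^ 48 := by
      calc K < ((10 : ℝ) ^ 6) ^ 8 := this
        _ = 10 ^ 48 := by norm_num
    linarith
  have hX : K ^ (5 / 8 : ℝ) = Y ^ 5 := by
    rw [hY, ← Real.rpow_natCast, ← Real.rpow_mul hK0.le]
    norm_num
  have hsK : √K = Y ^ 4 := by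
    rw [← hYK, show Y ^ 8 = (Y ^ 4) ^ 2 by ring, Real.sqrt_sq (by positivity)]
  rw [hX]
  have hY1 : (1 : ℝ) ≤ Y := by
    have : (1 : ℝ) ≤ 10 ^ 6 := by norm_num
    linarith
  have hY5 : (1 : ℝ) ≤ Y ^ 5 := one_le_pow₀ hY1
  have hfl : Y ^ 5 < (⌊Y ^ 5⌋₊ : ℝ) + 1 := Nat.lt_floor_add_one _
  have hfl1 : (1 : ℝ) ≤ (⌊Y ^ 5⌋₊ : ℝ) := by
    have : 1 ≤ ⌊Y ^ 5⌋₊ := Nat.le_floor (by exact_mod_cast hY5)
    exact_mod_cast this
  have hhalf : Y ^ 5 ≤ 2 * (⌊Y ^ 5⌋₊ : ℝ) := by linarith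
  have hY4 : 0 < Y ^ 4 := by positivity
  have hY54 : (10 : ℝ) ^ 6 * Y ^ 4 ≤ Y ^ 5 := by
    calc (10 : ℝ) ^ 6 * Y ^ 4 ≤ Y * Y ^ 4 := by gcongr
      _ = Y ^ 5 := by ring
  refine ⟨hhalf, Nat.floor_le (by positivity), ?_, ?_⟩
  · have h1 : √(K / L) ≤ √K := Real.sqrt_le_sqrt (div_le_self hK0.le hL')
    rw [hsK] at h1
    nlinarith
  · have h1 := hP.M2
    rw [hsK] at h1
    have hsL : 1 ≤ √(L : ℝ) := by rw [Real.one_le_sqrt]; exact hL'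
    have h2 : (1 : ℝ) ≤ (L : ℝ) * √(L : ℝ) := by nlinarith
    have h3 : (M : ℝ) ^ 2 ≤ 4 * Y ^ 4 := by
      have : (M : ℝ) ^ 2 ≤ (L : ℝ) * √(L : ℝ) * (M : ℝ) ^ 2 := by
        nlinarith [sq_nonneg (M : ℝ)]
      linarith
    have h4 : (M : ℝ) ≤ 2 * Y ^ 2 := by
      apply le_of_sq_le_sq _ (by positivity)
      calc (M : ℝ) ^ 2 ≤ 4 * Y ^ 4 := h3
        _ = (2 * Y ^ 2) ^ 2 := by ring
    have h5 : Y ^ 2 ≤ Y ^ 4 := pow_le_pow_right₀ hY1 (by norm_num)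
    nlinarith

/-- **Cone theorem for thick shells.** `z = (0,0)`: `‖Te‖ ≤ card Reg`. The others: `te_phase`, `te_le`, `cell_bound`, `sum_cells`
(`J2 = ⌊K^{5/8}⌋`), number of `z`: at most `21 L√R · 2L`; `small_x`. -/
theorem cone (ε : ℝ) (hε : 0 < ε) : ∃ C K₀ : ℝ, 1 ≤ C ∧ 1 ≤ K₀ ∧
    ∀ (K R Lam : ℝ) (L : ℕ) (a b c : ℤ → ℂ) (W : ℝ → ℝ → ℝ → ℂ), K₀ ≤ K → 1 ≤ R → 1 ≤ L → 1 ≤ Lam →
    ((L : ℝ) * R) ^ 11 ≤ K ^ (1 - ε) → Wt K R L Lam W → (∀ k, ‖a k‖ ≤ 1) → (∀ k, ‖b k‖ ≤ 1) →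
    (∀ k, ‖c k‖ ≤ 1) → (∀ k : ℤ, b k ≠ 0 → K ≤ k ∧ (k : ℝ) ≤ 2 * K) →
    ‖∑ k1 ∈ ZZ K, ∑ k2 ∈ ZZ K, ∑ k3 ∈ ZZ K, a k1 * b k2 * c k3 *
      (W (x0 k2 k3 - k1) k2 k3 * e (√(qf k1 k2 k3) / 2))‖ ≤ C * Lam * (K ^ 2 / √R) := by
  obtain ⟨Cb, hCb, hcell⟩ := cell_bound
  obtain ⟨Cs, K1, hCs, hK1, hsum⟩ := sum_cells ε hε
  obtain ⟨Cr, hCr, hred⟩ := reduce
  obtain ⟨Cx, hCx, hx⟩ := small_x
  obtain ⟨Cp, hCp, hph⟩ := te_phase
  obtain ⟨Cl, hCl, hle⟩ := te_le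
  obtain ⟨Cg, hCg, hreg⟩ := card_Reg
  have hC1 : 1 ≤ Cr * (42 * (Cp + Cb * Cs + Cl) + Cx + Cg) := by
    have : 1 ≤ 42 * (Cp + Cb * Cs + Cl) + Cx + Cg := by nlinarith
    nlinarith
  refine ⟨Cr * (42 * (Cp + Cb * Cs + Cl) + Cx + Cg), max K1 (((10 : ℝ) ^ 48) ^ (1 / ε)), hC1,
    le_max_of_le_left hK1, ?_⟩
  intro K R Lam L a b c W hK hR hL hLam hLR hW ha hb hc hbs
  have hKK1 : K1 ≤ K := (le_max_left _ _).trans hK
  have hK1' : 1 ≤ K := hK1.trans hKK1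
  have hbig := z2_big ε hε ((le_max_right _ _).trans hK) hK1' hLR
  have hK0 : 0 < K := by linarith
  have hR0 : 0 < R := by linarith
  have hs : 1 ≤ √R := by rw [Real.one_le_sqrt]; exact hR
  have hs0 : 0 < √R := by linarith
  have hL' : (1 : ℝ) ≤ L := by exact_mod_cast hL
  have hL0 : (0 : ℝ) < L := by linarith
  obtain ⟨M, B, hP⟩ := exists_par hR hL hbig
  obtain ⟨hJ1, hJ2, hJ3, hJ4⟩ := z2_J2 hP
  set J2 := ⌊K ^ (5 / 8 : ℝ)⌋₊ with hJdef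
  obtain ⟨β, γ, hβ, hγ, hβs, hS⟩ := hred K R Lam L a b c W hR hL hbig hW ha hb hc hbs
  -- one z
  have hone : ∀ z ∈ (E2 R L ×ˢ E3s L).erase (0, 0), ‖Te K W (β z) (γ z) z.1 z.2‖ ≤
      (Cp + Cb * Cs + Cl) * Lam * (K ^ 2 / (√R * L)) +
        (((Reg K R L).filter (fun k => |xt z.1 z.2 k.2.1 k.2.2| ≤ 2 * xi R L)).card : ℝ) := by
    intro z hz
    have hz1 := Finset.mem_of_mem_erase hz
    rw [Finset.mem_product] at hz1
    obtain ⟨hz2, hz3⟩ := hz1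
    have he2 : |(z.1 : ℝ)| ≤ 10 * L * √R := by
      unfold E2 at hz2
      rw [Finset.mem_Icc] at hz2
      have hf := Int.floor_le (10 * (L : ℝ) * √R)
      rw [abs_le]
      constructor
      · have : ((-⌊10 * (L : ℝ) * √R⌋ : ℤ) : ℝ) ≤ z.1 := by exact_mod_cast hz2.1
        push_cast at this
        linarith
      · have : (z.1 : ℝ) ≤ ((⌊10 * (L : ℝ) * √R⌋ : ℤ) : ℝ) := by exact_mod_cast hz2.2
        linarith
    have he3 : |(z.2 : ℝ)| ≤ L := by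
      unfold E3s at hz3
      rw [Finset.mem_Ioo] at hz3
      rw [abs_le]
      constructor
      · have : ((-(L : ℤ) : ℤ) : ℝ) < z.2 := by exact_mod_cast hz3.1
        push_cast at this
        linarith
      · have : (z.2 : ℝ) < ((L : ℤ) : ℝ) := by exact_mod_cast hz3.2
        push_cast at this
        linarith
    have he3' : |(z.2 : ℝ)| ≤ 10 * L * √R := by
      have : (L : ℝ) ≤ 10 * L * √R := by nlinarith
      linarith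
    have h1 := hph K R Lam L W z.1 z.2 (β z) (γ z) hR hL hbig hW he3 (hβ z) (hγ z) (hβs z)
    obtain ⟨A, hA, h2⟩ := hle K R Lam L M B W z.1 z.2 (β z) (γ z) hP hLam hW he2 he3 (hβ z) (hγ z) (hβs z)
    have h3 : ∑ y ∈ A, ‖Sc M B (β z) (γ z) (ZZ K) z.1 z.2 y.1 y.2.1 y.2.2‖ ≤
        Cb * (Cs * (K ^ 2 / (√R * L))) := by
      have h4 := hsum K R L M B J2 z.1 z.2 A hKK1 hP hLR hJ1 hJ2 (fun y hy => ⟨(hA y hy).1, (hA y hy).2.1⟩)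
      calc ∑ y ∈ A, ‖Sc M B (β z) (γ z) (ZZ K) z.1 z.2 y.1 y.2.1 y.2.2‖
          ≤ ∑ y ∈ A, Cb * (√((B : ℝ) ^ 2 / M * ∑ h ∈ HH J2, wt M (h - js M B z.1 z.2 y.1 y.2.1 y.2.2) *
              nu K B y.2.2 J2 h) + (B : ℝ) ^ 2 / M * wt M (js M B z.1 z.2 y.1 y.2.1 y.2.2) +
              (M : ℝ) / J2 * (B : ℝ) ^ 2) := by
            refine Finset.sum_le_sum fun y hy => ?_
            exact hcell K R L M B J2 z.1 z.2 y.1 y.2.1 y.2.2 (β z) (γ z) (ZZ K) hP hJ3 hJ4 he2 he3'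
              (hA y hy).1 (hβ z) (hγ z) (hA y hy).2.2
        _ ≤ Cb * (Cs * (K ^ 2 / (√R * L))) := by
            rw [← Finset.mul_sum]
            exact mul_le_mul_of_nonneg_left h4 (by linarith)
    have h5 : ‖Te K W (β z) (γ z) z.1 z.2‖ ≤ ‖Te K W (β z) (γ z) z.1 z.2 - Tt K W (β z) (γ z) z.1 z.2‖ +
        ‖Tt K W (β z) (γ z) z.1 z.2‖ := by
      have := norm_add_le (Te K W (β z) (γ z) z.1 z.2 - Tt K W (β z) (γ z) z.1 z.2)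
        (Tt K W (β z) (γ z) z.1 z.2)
      rwa [sub_add_cancel] at this
    have hq : 0 ≤ K ^ 2 / (√R * L) := by positivity
    have h6 : Cp * (K ^ 2 / (√R * L)) ≤ Cp * Lam * (K ^ 2 / (√R * L)) := by
      have : Cp ≤ Cp * Lam := by nlinarith
      exact mul_le_mul_of_nonneg_right this hq
    have h7 : Cb * (Cs * (K ^ 2 / (√R * L))) ≤ Cb * Cs * Lam * (K ^ 2 / (√R * L)) := by
      have h0 : 0 ≤ Cb * Cs := by nlinarith
      have : Cb * Cs ≤ Cb * Cs * Lam := by nlinarith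
      calc Cb * (Cs * (K ^ 2 / (√R * L))) = Cb * Cs * (K ^ 2 / (√R * L)) := by ring
        _ ≤ _ := mul_le_mul_of_nonneg_right this hq
    calc ‖Te K W (β z) (γ z) z.1 z.2‖ ≤ _ := h5
      _ ≤ Cp * (K ^ 2 / (√R * L)) + (∑ y ∈ A, ‖Sc M B (β z) (γ z) (ZZ K) z.1 z.2 y.1 y.2.1 y.2.2‖ +
          Cl * (Lam * (K ^ 2 / (√R * L))) +
          ((Reg K R L).filter (fun k => |xt z.1 z.2 k.2.1 k.2.2| ≤ 2 * xi R L)).card) := add_le_add h1 h2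
      _ ≤ _ := by
          nlinarith [h3, h6, h7]
  -- the sum over z
  have hzero : ‖Te K W (β (0, 0)) (γ (0, 0)) 0 0‖ ≤ Cg * (K ^ 2 * L) := by
    have h1 := z2_Te_triv hR hL hbig hW 0 0 (β (0, 0)) (γ (0, 0)) (hβ _) (hγ _)
      (fun k hk => ⟨(hβs (0, 0) k hk).1, (hβs (0, 0) k hk).2.1⟩)
    have h2 := hreg K R L hR hL hbig
    have h3 : K ^ 2 * L / √R ≤ K ^ 2 * L := div_le_self (by positivity) hs
    have h4 : Cg * (K ^ 2 * L / √R) ≤ Cg * (K ^ 2 * L) := mul_le_mul_of_nonneg_left h3 (by linarith)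
    exact h1.trans (h2.trans h4)
  have hQ0 : 0 ≤ (Cp + Cb * Cs + Cl) * Lam * (K ^ 2 / (√R * L)) := by
    have : 0 ≤ Cp + Cb * Cs + Cl := by nlinarith
    positivity
  have htot : ∑ z ∈ E2 R L ×ˢ E3s L, ‖Te K W (β z) (γ z) z.1 z.2‖ ≤
      (42 * (Cp + Cb * Cs + Cl) + Cx + Cg) * Lam * (K ^ 2 * L) := by
    have hmem : ((0, 0) : ℤ × ℤ) ∈ E2 R L ×ˢ E3s L := by
      rw [Finset.mem_product]
      constructor
      · unfold E2
        rw [Finset.mem_Icc]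
        have hn : 0 ≤ ⌊10 * (L : ℝ) * √R⌋ := Int.floor_nonneg.mpr (by positivity)
        exact ⟨by simpa using hn, hn⟩
      · unfold E3s
        rw [Finset.mem_Ioo]
        constructor
        · have : (0 : ℤ) < L := by exact_mod_cast hL
          simpa using this
        · have : (0 : ℤ) < L := by exact_mod_cast hL
          exact this
    rw [← Finset.add_sum_erase _ _ hmem]
    have h1 : ∑ z ∈ (E2 R L ×ˢ E3s L).erase (0, 0), ‖Te K W (β z) (γ z) z.1 z.2‖ ≤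
        42 * (Cp + Cb * Cs + Cl) * Lam * (K ^ 2 * L) + Cx * (K ^ 2 * L) := by
      calc ∑ z ∈ (E2 R L ×ˢ E3s L).erase (0, 0), ‖Te K W (β z) (γ z) z.1 z.2‖
          ≤ ∑ z ∈ (E2 R L ×ˢ E3s L).erase (0, 0), ((Cp + Cb * Cs + Cl) * Lam * (K ^ 2 / (√R * L)) +
        (((Reg K R L).filter (fun k => |xt z.1 z.2 k.2.1 k.2.2| ≤ 2 * xi R L)).card : ℝ)) :=
            Finset.sum_le_sum hone
        _ = (((E2 R L ×ˢ E3s L).erase (0, 0)).card : ℝ) * ((Cp + Cb * Cs + Cl) * Lam * (K ^ 2 / (√R * L))) +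
            ∑ z ∈ (E2 R L ×ˢ E3s L).erase (0, 0),
              (((Reg K R L).filter (fun k => |xt z.1 z.2 k.2.1 k.2.2| ≤ 2 * xi R L)).card : ℝ) := by
            rw [Finset.sum_add_distrib, Finset.sum_const, nsmul_eq_mul]
        _ ≤ 42 * ((L : ℝ) ^ 2 * √R) * ((Cp + Cb * Cs + Cl) * Lam * (K ^ 2 / (√R * L))) + Cx * (K ^ 2 * L) := by
            refine add_le_add ?_ (hx K R L hR hL hbig)
            refine mul_le_mul_of_nonneg_right ?_ hQ0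
            refine le_trans ?_ (z2_card hR hL)
            exact_mod_cast Finset.card_le_card (Finset.erase_subset _ _)
        _ = 42 * (Cp + Cb * Cs + Cl) * Lam * (K ^ 2 * L) + Cx * (K ^ 2 * L) := by
            field_simp
    have hq : 0 ≤ K ^ 2 * (L : ℝ) := by positivity
    have h2 : Cx * (K ^ 2 * L) ≤ Cx * Lam * (K ^ 2 * L) := by
      have : Cx ≤ Cx * Lam := by nlinarith
      exact mul_le_mul_of_nonneg_right this hq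
    have h3 : Cg * (K ^ 2 * L) ≤ Cg * Lam * (K ^ 2 * L) := by
      have : Cg ≤ Cg * Lam := by nlinarith
      exact mul_le_mul_of_nonneg_right this hq
    calc _ ≤ Cg * (K ^ 2 * L) + (42 * (Cp + Cb * Cs + Cl) * Lam * (K ^ 2 * L) + Cx * (K ^ 2 * L)) :=
          add_le_add hzero h1
      _ ≤ Cg * Lam * (K ^ 2 * L) + (42 * (Cp + Cb * Cs + Cl) * Lam * (K ^ 2 * L) + Cx * Lam * (K ^ 2 * L)) := by
          gcongr
      _ = _ := by ring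
  -- conclusion
  set C0 := 42 * (Cp + Cb * Cs + Cl) + Cx + Cg with hC0
  have hC0' : 1 ≤ Cr * C0 * Lam := by nlinarith
  apply le_of_sq_le_sq _ (by positivity)
  calc _ ≤ Cr * (K ^ 2 / (R * L)) * ∑ z ∈ E2 R L ×ˢ E3s L, ‖Te K W (β z) (γ z) z.1 z.2‖ := hS
    _ ≤ Cr * (K ^ 2 / (R * L)) * (C0 * Lam * (K ^ 2 * L)) :=
        mul_le_mul_of_nonneg_left htot (by positivity)
    _ = (Cr * C0 * Lam) * (K ^ 4 / R) := by
        field_simp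
    _ ≤ (Cr * C0 * Lam) * (Cr * C0 * Lam) * (K ^ 4 / R) := by
        have : 0 ≤ K ^ 4 / R := by positivity
        have h1 : Cr * C0 * Lam ≤ (Cr * C0 * Lam) * (Cr * C0 * Lam) := by nlinarith
        exact mul_le_mul_of_nonneg_right h1 this
    _ = (Cr * C0 * Lam * (K ^ 2 / √R)) ^ 2 := by
        have h1 : √R ^ 2 = R := Real.sq_sqrt hR0.le
        rw [mul_pow, div_pow, h1]
        ring

end TS
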