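import Pool.Agent.Lib.MP_39df77_nt.TS.App1
import Pool.Agent.Lib.MP_39df77_nt.TS.App2a
import Pool.Agent.Lib.MP_39df77_nt.TS.Geo1
import Pool.Agent.Lib.MP_39df77_nt.TS.Cone
import Pool.Agent.Lib.MP_39df77_nt.U6.A09

/-!
Row TS-Y2: one dyadic block, `θ ≍ 2^s`, by the cone theorem.
-/

set_option autoImplicit false

namespace TS

open Finset Complex

/-- normalised coefficient -/
private noncomputable def Y2_co (lo hi s D : ℝ) (k : ℤ) : ℂ :=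
  open Classical in
  if lo ≤ (k : ℝ) ∧ (k : ℝ) < hi then
    ((-1) ^ k.toNat * (U6.dv k.toNat : ℂ) / (√(k : ℝ) : ℂ)) * ((√s / D : ℝ) : ℂ)
  else 0

private theorem Y2_co_norm {lo hi s D : ℝ} (hlo : 1 ≤ lo) (hslo : s ≤ lo) (hD : 0 < D)
    (hd : ∀ k : ℕ, 1 ≤ k → (k : ℝ) < hi → (U6.dv k : ℝ) ≤ D) (k : ℤ) : ‖Y2_co lo hi s D k‖ ≤ 1 := by
  unfold Y2_co
  split_ifs with h
  · have hk1 : (1 : ℝ) ≤ (k : ℝ) := hlo.trans h.1
    have hk0 : 1 ≤ k := by exact_mod_cast hk1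
    have hkn : ((k.toNat : ℕ) : ℝ) = (k : ℝ) := by
      have : ((k.toNat : ℕ) : ℤ) = k := Int.toNat_of_nonneg (by omega)
      exact_mod_cast congrArg (fun z : ℤ => (z : ℝ)) this
    have hdk : (U6.dv k.toNat : ℝ) ≤ D := hd _ (by omega) (by rw [hkn]; exact h.2)
    have hsk : 0 < √(k : ℝ) := Real.sqrt_pos.2 (by linarith)
    rw [norm_mul, norm_div, norm_mul, norm_pow, norm_neg, norm_one, one_pow, one_mul,
      Complex.norm_natCast, Complex.norm_real, Complex.norm_real, Real.norm_eq_abs,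
      Real.norm_eq_abs, abs_of_pos hsk, abs_of_nonneg (by positivity)]
    have h1 : √s ≤ √(k : ℝ) := Real.sqrt_le_sqrt (hslo.trans h.1)
    calc (U6.dv k.toNat : ℝ) / √(k : ℝ) * (√s / D) ≤ D / √(k : ℝ) * (√(k : ℝ) / D) := by gcongr
      _ = 1 := by field_simp
  · simp

private theorem Y2_co_conj (lo hi s D : ℝ) (k : ℤ) :
    (starRingEnd ℂ) (Y2_co lo hi s D k) = Y2_co lo hi s D k := by
  unfold Y2_co
  split_ifs with h
  · simp only [map_mul, map_div₀, map_pow, map_neg, map_one, map_natCast, Complex.conj_ofReal]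
  · simp

private theorem Y2_num (η ε T : ℝ) (i j s : ℕ) (hη : 0 < η) (hη1 : η < 1 / 84) (hε : 0 < ε)
    (hε1 : ε ≤ (1 / 84 - η) / 100) (hT : 16 ≤ T)
    (hj : (2 : ℝ) ^ j ≤ T ^ (1 / 2 + 2 * η + 5 * ε))
    (hs : (2 : ℝ) ^ s * 2 ^ (j - i) ≤ ((2 : ℝ) ^ j) ^ 2 * T ^ (-1 + 30 * ε)) :
    T ^ (1 / 4 : ℝ) ≤ 2 ^ j ∧ 2 * (2 : ℝ) ^ j ≤ T ∧ (2 : ℝ) ^ s ≤ 2 ^ j / 2 ∧
    ((2 : ℝ) ^ s * 2 ^ (j - i)) ^ 11 ≤ ((2 : ℝ) ^ j) ^ (1 - 20 * (1 / 84 - η)) := by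
  have hT0 : 0 < T := by linarith
  have hT1 : 1 ≤ T := by linarith
  set K : ℝ := (2 : ℝ) ^ j with hK
  have hK0 : 0 < K := by positivity
  have hK1 : 1 ≤ K := one_le_pow₀ (by norm_num)
  have hs1 : (1 : ℝ) ≤ 2 ^ s := one_le_pow₀ (by norm_num)
  have hr1 : (1 : ℝ) ≤ 2 ^ (j - i) := one_le_pow₀ (by norm_num)
  have h2T : 2 ≤ T ^ (1 / 4 : ℝ) := by
    have h1 : (16 : ℝ) ^ (1 / 4 : ℝ) ≤ T ^ (1 / 4 : ℝ) := Real.rpow_le_rpow (by norm_num) hT (by norm_num)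
    have h2 : (16 : ℝ) ^ (1 / 4 : ℝ) = 2 := by
      rw [show (16 : ℝ) = 2 ^ (4 : ℝ) by norm_num, ← Real.rpow_mul (by norm_num)]
      norm_num
    rwa [h2] at h1
  have hε2 : ε ≤ 1 / 8400 := by linarith
  refine ⟨?_, ?_, ?_, ?_⟩
  · have h1 : (1 : ℝ) ≤ K ^ 2 * T ^ (-1 + 30 * ε) := by
      refine le_trans ?_ hs
      nlinarith
    have h2 : T ^ (1 - 30 * ε) ≤ K ^ 2 := by
      have h3 : T ^ (1 - 30 * ε) * 1 ≤ T ^ (1 - 30 * ε) * (K ^ 2 * T ^ (-1 + 30 * ε)) := by gcongr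
      have h4 : T ^ (1 - 30 * ε) * T ^ (-1 + 30 * ε) = 1 := by
        rw [← Real.rpow_add hT0]
        norm_num
      calc T ^ (1 - 30 * ε) = T ^ (1 - 30 * ε) * 1 := by ring
        _ ≤ T ^ (1 - 30 * ε) * (K ^ 2 * T ^ (-1 + 30 * ε)) := h3
        _ = (T ^ (1 - 30 * ε) * T ^ (-1 + 30 * ε)) * K ^ 2 := by ring
        _ = K ^ 2 := by rw [h4, one_mul]
    have h5 : (T ^ (1 / 4 : ℝ)) ^ 2 ≤ K ^ 2 := by
      calc (T ^ (1 / 4 : ℝ)) ^ 2 = T ^ (1 / 2 : ℝ) := by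
            rw [← Real.rpow_natCast, ← Real.rpow_mul hT0.le]; norm_num
        _ ≤ T ^ (1 - 30 * ε) := Real.rpow_le_rpow_of_exponent_le hT1 (by linarith)
        _ ≤ K ^ 2 := h2
    exact le_of_sq_le_sq h5 hK0.le
  · calc 2 * K ≤ T ^ (1 / 4 : ℝ) * T ^ (1 / 2 + 2 * η + 5 * ε) := by gcongr
      _ = T ^ (1 / 4 + (1 / 2 + 2 * η + 5 * ε)) := (Real.rpow_add hT0 _ _).symm
      _ ≤ T ^ (1 : ℝ) := Real.rpow_le_rpow_of_exponent_le hT1 (by linarith)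
      _ = T := Real.rpow_one T
  · have h1 : (2 : ℝ) ^ s ≤ K ^ 2 * T ^ (-1 + 30 * ε) := by
      refine le_trans ?_ hs
      nlinarith
    have h2 : K * T ^ (-1 + 30 * ε) ≤ T ^ (-(1 / 4) : ℝ) := by
      calc K * T ^ (-1 + 30 * ε) ≤ T ^ (1 / 2 + 2 * η + 5 * ε) * T ^ (-1 + 30 * ε) := by gcongr
        _ = T ^ ((1 / 2 + 2 * η + 5 * ε) + (-1 + 30 * ε)) := (Real.rpow_add hT0 _ _).symm
        _ ≤ _ := Real.rpow_le_rpow_of_exponent_le hT1 (by linarith)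
    have h3 : T ^ (-(1 / 4) : ℝ) ≤ 1 / 2 := by
      rw [Real.rpow_neg hT0.le, ← one_div]
      exact one_div_le_one_div_of_le (by norm_num) h2T
    calc (2 : ℝ) ^ s ≤ K ^ 2 * T ^ (-1 + 30 * ε) := h1
      _ = K * (K * T ^ (-1 + 30 * ε)) := by ring
      _ ≤ K * (1 / 2) := by gcongr; exact h2.trans h3
      _ = K / 2 := by ring
  · set δ : ℝ := 1 / 84 - η with hδ
    have hδ0 : 0 < δ := by linarith
    have hη2 : η = 1 / 84 - δ := by linarith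
    have h1 : K ^ (21 + 20 * δ) ≤ T ^ (11 - 330 * ε) := by
      calc K ^ (21 + 20 * δ) ≤ (T ^ (1 / 2 + 2 * η + 5 * ε)) ^ (21 + 20 * δ) :=
            Real.rpow_le_rpow hK0.le hj (by positivity)
        _ = T ^ ((1 / 2 + 2 * η + 5 * ε) * (21 + 20 * δ)) := (Real.rpow_mul hT0.le _ _).symm
        _ ≤ T ^ (11 - 330 * ε) := by
            apply Real.rpow_le_rpow_of_exponent_le hT1
            rw [hη2]
            nlinarith
    calc ((2 : ℝ) ^ s * 2 ^ (j - i)) ^ 11 ≤ (K ^ 2 * T ^ (-1 + 30 * ε)) ^ 11 := by gcongr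
      _ = K ^ (22 : ℝ) * T ^ (-(11 - 330 * ε)) := by
          rw [mul_pow, ← pow_mul, ← Real.rpow_natCast (T ^ (-1 + 30 * ε)), ← Real.rpow_mul hT0.le,
            ← Real.rpow_natCast K]
          have e1 : (-1 + 30 * ε) * ((11 : ℕ) : ℝ) = -(11 - 330 * ε) := by push_cast; ring
          have e2 : ((2 * 11 : ℕ) : ℝ) = 22 := by norm_num
          rw [e1, e2]
      _ = K ^ (1 - 20 * δ) * (K ^ (21 + 20 * δ) * T ^ (-(11 - 330 * ε))) := by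
          rw [← mul_assoc, ← Real.rpow_add hK0]
          congr 2
          ring
      _ ≤ K ^ (1 - 20 * δ) * 1 := by
          gcongr
          rw [Real.rpow_neg hT0.le, ← div_eq_mul_inv]
          exact div_le_one_of_le₀ h1 (by positivity)
      _ = _ := by ring

/-- on the branch of `WW` -/
private theorem Y2_branch {k1 u v : ℝ} (hu : 0 ≤ u) (hv : 0 ≤ v) (hθ : 0 < x0 u v - k1)
    (huv : u < v) : k1 + u < v ∧ 0 < qf k1 u v := by
  constructor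
  · have hp := Real.sqrt_nonneg u
    have hpq : √u < √v := Real.sqrt_lt_sqrt hu huv
    have e1 := Real.sq_sqrt hu
    have e2 := Real.sq_sqrt hv
    unfold x0 at hθ
    nlinarith [mul_nonneg hp (sub_nonneg.2 hpq.le)]
  · rw [qf_eq k1 u v hu hv]
    positivity

private theorem Y2_cut {y : ℝ} (h1 : 1 ≤ y) (h2 : y ≤ 2) : cut y = 1 := by
  unfold cut
  rw [min_eq_left, max_eq_right zero_le_one]
  rw [le_min_iff]
  constructor <;> linarith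

/-- the summand of the cone sum -/
private noncomputable def Y2_F (T G K R : ℝ) (s : ℕ) (a b c : ℤ → ℂ) (x : ℤ × ℤ × ℤ) : ℂ :=
  a x.1 * b x.2.1 * c x.2.2 *
    (WW T G K R s (x0 x.2.1 x.2.2 - x.1) x.2.1 x.2.2 * e (√(qf x.1 x.2.1 x.2.2) / 2))

private noncomputable def Y2_ka (T D : ℝ) (i j : ℕ) : ℂ :=
  ((√2 * (2 * Real.pi) ^ (-(1 / 4) : ℝ) * √T : ℝ) : ℂ) * cexp (-(I * (Real.pi / 4 : ℝ))) *
    ((D ^ 3 / (√((2 : ℝ) ^ i) * 2 ^ j) : ℝ) : ℂ)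

private theorem Y2_term (T G D : ℝ) (i j s n : ℕ) (hT : 1 ≤ T) (hD : D ≠ 0) (hij : i ≤ j)
    (k : ℕ × ℕ × ℕ) (hk : k ∈ Bk i j n) :
    (tent (Real.logb 2 (th k) - (s + 1)) : ℂ) * (U6.cf k * U6.E3main T G k) =
      Y2_ka T D i j * (starRingEnd ℂ) (Y2_F T G (2 ^ j) (2 ^ (j - i)) s
        (Y2_co (2 ^ i) (2 ^ (i + 1)) (2 ^ i) D) (Y2_co (2 ^ j) (2 ^ (j + 1)) (2 ^ j) D)
        (Y2_co (2 ^ j) n (2 ^ j) D) ((k.1 : ℤ), (k.2.1 : ℤ), (k.2.2 : ℤ))) := by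
  rw [Bk, mem_filter, U6.box, mem_product, mem_product, mem_Ico, mem_Ico, mem_Ico] at hk
  obtain ⟨⟨⟨h1, h1n⟩, ⟨h2, h2n⟩, ⟨h3, h3n⟩⟩, hi, hj, hq, hb⟩ := hk
  obtain ⟨hθ, ht0, heq⟩ := term_eq T G hT k h1 h2 hq hb
  rw [heq]
  have r1 : (2 : ℝ) ^ i ≤ (k.1 : ℝ) ∧ (k.1 : ℝ) < 2 ^ (i + 1) := by
    constructor
    · have := Nat.pow_log_le_self 2 (x := k.1) (by omega)
      rw [hi] at this
      exact_mod_cast this
    · have := Nat.lt_pow_succ_log_self (b := 2) (by norm_num) k.1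
      rw [hi] at this
      exact_mod_cast this
  have r2 : (2 : ℝ) ^ j ≤ (k.2.1 : ℝ) ∧ (k.2.1 : ℝ) < 2 ^ (j + 1) := by
    constructor
    · have := Nat.pow_log_le_self 2 (x := k.2.1) (by omega)
      rw [hj] at this
      exact_mod_cast this
    · have := Nat.lt_pow_succ_log_self (b := 2) (by norm_num) k.2.1
      rw [hj] at this
      exact_mod_cast this
  have r23 : (k.2.1 : ℝ) < (k.2.2 : ℝ) := by
    have : k.2.1 < k.2.2 := by omega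
    exact_mod_cast this
  have r3 : (2 : ℝ) ^ j ≤ (k.2.2 : ℝ) ∧ (k.2.2 : ℝ) < (n : ℝ) :=
    ⟨r2.1.trans r23.le, by exact_mod_cast h3n⟩
  have v1 : Y2_co (2 ^ i) (2 ^ (i + 1)) (2 ^ i) D (k.1 : ℤ) =
      ((-1) ^ k.1 * (U6.dv k.1 : ℂ) / (√(k.1 : ℝ) : ℂ)) * ((√((2 : ℝ) ^ i) / D : ℝ) : ℂ) := by
    unfold Y2_co
    rw [if_pos (by rw [Int.cast_natCast]; exact r1), Int.toNat_natCast, Int.cast_natCast]
  have v2 : Y2_co (2 ^ j) (2 ^ (j + 1)) (2 ^ j) D (k.2.1 : ℤ) =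
      ((-1) ^ k.2.1 * (U6.dv k.2.1 : ℂ) / (√(k.2.1 : ℝ) : ℂ)) * ((√((2 : ℝ) ^ j) / D : ℝ) : ℂ) := by
    unfold Y2_co
    rw [if_pos (by rw [Int.cast_natCast]; exact r2), Int.toNat_natCast, Int.cast_natCast]
  have v3 : Y2_co (2 ^ j) n (2 ^ j) D (k.2.2 : ℤ) =
      ((-1) ^ k.2.2 * (U6.dv k.2.2 : ℂ) / (√(k.2.2 : ℝ) : ℂ)) * ((√((2 : ℝ) ^ j) / D : ℝ) : ℂ) := by
    unfold Y2_co
    rw [if_pos (by rw [Int.cast_natCast]; exact r3), Int.toNat_natCast, Int.cast_natCast]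
  have hth : x0 (k.2.1 : ℝ) (k.2.2 : ℝ) - (k.1 : ℝ) = th k := rfl
  have hk1 : x0 (k.2.1 : ℝ) (k.2.2 : ℝ) - th k = (k.1 : ℝ) := by rw [← hth]; ring
  have hcut : cut ((2 : ℝ) ^ (j - i) * (k.1 : ℝ) / 2 ^ j) = 1 := by
    have hpow : (2 : ℝ) ^ j = 2 ^ (j - i) * 2 ^ i := by
      rw [← pow_add]
      congr 1
      omega
    have he : (2 : ℝ) ^ (j - i) * (k.1 : ℝ) / 2 ^ j = (k.1 : ℝ) / 2 ^ i := by
      rw [hpow]
      field_simp
    rw [he]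
    apply Y2_cut
    · rw [le_div_iff₀ (by positivity), one_mul]
      exact r1.1
    · rw [div_le_iff₀ (by positivity)]
      have := r1.2.le
      rw [pow_succ] at this
      linarith
  have vW : WW T G (2 ^ j) (2 ^ (j - i)) s (x0 (k.2.1 : ℝ) (k.2.2 : ℝ) - (k.1 : ℝ)) (k.2.1 : ℝ) (k.2.2 : ℝ) =
      ((tent (Real.logb 2 (th k) - (s + 1)) * 1 * Amp T G (th k) k.2.1 k.2.2 : ℝ) : ℂ) := by
    rw [hth]
    unfold WW
    rw [if_pos ⟨hθ, r23, by rw [hk1]; exact_mod_cast h1⟩, hk1, hcut]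
  unfold Y2_F Y2_ka
  simp only [Int.cast_natCast]
  rw [vW, map_mul, map_mul, map_mul, map_mul, Y2_co_conj, Y2_co_conj, Y2_co_conj, Complex.conj_ofReal,
    v1, v2, v3]
  have hone : ((D ^ 3 / (√((2 : ℝ) ^ i) * 2 ^ j) : ℝ) : ℂ) * ((√((2 : ℝ) ^ i) / D : ℝ) : ℂ) *
      ((√((2 : ℝ) ^ j) / D : ℝ) : ℂ) * ((√((2 : ℝ) ^ j) / D : ℝ) : ℂ) = 1 := by
    rw [← Complex.ofReal_mul, ← Complex.ofReal_mul, ← Complex.ofReal_mul]
    have h5 : √((2 : ℝ) ^ i) ≠ 0 := (Real.sqrt_pos.2 (by positivity)).ne'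
    have h6 : √((2 : ℝ) ^ j) * √((2 : ℝ) ^ j) = 2 ^ j := Real.mul_self_sqrt (by positivity)
    have h7 : D ^ 3 / (√((2 : ℝ) ^ i) * 2 ^ j) * (√((2 : ℝ) ^ i) / D) * (√((2 : ℝ) ^ j) / D) *
        (√((2 : ℝ) ^ j) / D) = 1 := by
      calc D ^ 3 / (√((2 : ℝ) ^ i) * 2 ^ j) * (√((2 : ℝ) ^ i) / D) * (√((2 : ℝ) ^ j) / D) *
        (√((2 : ℝ) ^ j) / D) = (√((2 : ℝ) ^ j) * √((2 : ℝ) ^ j)) / 2 ^ j := by field_simp
        _ = 1 := by rw [h6]; exact div_self (by positivity)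
    rw [h7, Complex.ofReal_one]
  rw [Complex.ofReal_mul (tent _ * 1), mul_one]
  generalize ((-1) ^ k.1 * (U6.dv k.1 : ℂ) / (√(k.1 : ℝ) : ℂ)) = A1
  generalize ((-1) ^ k.2.1 * (U6.dv k.2.1 : ℂ) / (√(k.2.1 : ℝ) : ℂ)) = A2
  generalize ((-1) ^ k.2.2 * (U6.dv k.2.2 : ℂ) / (√(k.2.2 : ℝ) : ℂ)) = A3
  generalize ((D ^ 3 / (√((2 : ℝ) ^ i) * 2 ^ j) : ℝ) : ℂ) = B0 at hone ⊢
  generalize ((√((2 : ℝ) ^ i) / D : ℝ) : ℂ) = B1 at hone ⊢
  generalize ((√((2 : ℝ) ^ j) / D : ℝ) : ℂ) = B2 at hone ⊢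
  generalize ((√2 * (2 * Real.pi) ^ (-(1 / 4) : ℝ) * √T : ℝ) : ℂ) = B3
  generalize cexp (-(I * (Real.pi / 4 : ℝ))) = B4
  generalize ((Amp T G (th k) k.2.1 k.2.2 : ℝ) : ℂ) = B5
  generalize (starRingEnd ℂ) (e (√(qf k.1 k.2.1 k.2.2) / 2)) = B6
  generalize ((tent (Real.logb 2 (th k) - (s + 1)) : ℝ) : ℂ) = B7
  linear_combination (-(B7 * B3 * B4 * A1 * A2 * A3 * B5 * B6)) * hone

/-- `K = 2^j`, `R = 2^{j-i}`, `L = 2^s`, `W = WW`, `cone` with `ε' = 20(1/84 - η)`; `K ≥ T^{1/4}` (because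
`1 ≤ 2^s R ≤ K² T^{-1+30ε}`); conjugate the sum; `a(k₁) = (-1)^{k₁} d(k₁) √(2^i/k₁)/D` for `2^i ≤ k₁ < 2^{i+1}`, and
so on, `D = C T^{ε}` (`U6.dv_le`); `tent · cut = tent` on the block. -/
theorem block_cone (η ε : ℝ) (hη : 0 < η) (hη1 : η < 1 / 84) (hε : 0 < ε) (hε1 : ε ≤ (1 / 84 - η) / 100) :
    ∃ C T₀ : ℝ, 1 ≤ C ∧ 1 ≤ T₀ ∧ ∀ (T : ℝ) (i j s : ℕ), T₀ ≤ T → i ≤ j →
    (2 : ℝ) ^ j ≤ T ^ (1 / 2 + 2 * η + 5 * ε) →
    (2 : ℝ) ^ s * 2 ^ (j - i) ≤ ((2 : ℝ) ^ j) ^ 2 * T ^ (-1 + 30 * ε) →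
    ‖∑ k ∈ Bk i j (U6.KK η ε T), (tent (Real.logb 2 (th k) - (s + 1)) : ℂ) *
      (U6.cf k * U6.E3main T (U6.GG η T) k)‖ ≤ C * T ^ (1 / 2 + 4 * ε) * √((2 : ℝ) ^ j) := by
  classical
  obtain ⟨Cd, hCd, hdv⟩ := U6.dv_le ε hε
  obtain ⟨Cw, hCw, hW⟩ := weight_Wt
  have hδ0 : 0 < 1 / 84 - η := by linarith
  obtain ⟨Cc, K₀, hCc, hK₀, hcone⟩ := cone (20 * (1 / 84 - η)) (by positivity)
  set c0 : ℝ := √2 * (2 * Real.pi) ^ (-(1 / 4) : ℝ) with hc0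
  have hc0p : 0 < c0 := by positivity
  refine ⟨max 1 (c0 * Cd ^ 3 * Cc * Cw), max (max 16 (K₀ ^ 4)) (((10 : ℝ) ^ 48) ^ (1 / (5 * (1 / 84 - η)))),
    le_max_left _ _, (by norm_num : (1 : ℝ) ≤ 16).trans ((le_max_left _ _).trans (le_max_left _ _)), ?_⟩
  intro T i j s hT hij hj hs
  have hT16 : 16 ≤ T := ((le_max_left _ _).trans (le_max_left _ _)).trans hT
  have hTK : K₀ ^ 4 ≤ T := ((le_max_right _ _).trans (le_max_left _ _)).trans hT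
  have hTδ : ((10 : ℝ) ^ 48) ^ (1 / (5 * (1 / 84 - η))) ≤ T := (le_max_right _ _).trans hT
  have hT0 : 0 < T := by linarith
  have hT1 : 1 ≤ T := by linarith
  obtain ⟨n1, n2, n3, n4⟩ := Y2_num η ε T i j s hη hη1 hε hε1 hT16 hj hs
  have hK1 : (1 : ℝ) ≤ 2 ^ j := one_le_pow₀ (by norm_num)
  have hR1 : (1 : ℝ) ≤ 2 ^ (j - i) := one_le_pow₀ (by norm_num)
  have hK₀K : K₀ ≤ 2 ^ j := by
    refine le_trans ?_ n1
    have h1 : K₀ = (K₀ ^ 4) ^ (1 / 4 : ℝ) := by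
      rw [← Real.rpow_natCast, ← Real.rpow_mul (by linarith)]
      norm_num
    rw [h1]
    exact Real.rpow_le_rpow (by positivity) hTK (by norm_num)
  have h48 : (10 : ℝ) ^ 48 ≤ ((2 : ℝ) ^ j) ^ (20 * (1 / 84 - η)) := by
    calc (10 : ℝ) ^ 48 = (((10 : ℝ) ^ 48) ^ (1 / (5 * (1 / 84 - η)))) ^ (5 * (1 / 84 - η)) := by
          rw [← Real.rpow_mul (by positivity), one_div_mul_cancel (by positivity), Real.rpow_one]
      _ ≤ T ^ (5 * (1 / 84 - η)) := Real.rpow_le_rpow (by positivity) hTδ (by positivity)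
      _ = (T ^ (1 / 4 : ℝ)) ^ (20 * (1 / 84 - η)) := by
          rw [← Real.rpow_mul hT0.le]
          congr 1
          ring
      _ ≤ _ := Real.rpow_le_rpow (by positivity) n1 (by positivity)
  have hbig : 10 ^ 48 * (((2 ^ s : ℕ) : ℝ) * 2 ^ (j - i)) ^ 11 ≤ (2 : ℝ) ^ j := by
    push_cast
    calc (10 : ℝ) ^ 48 * ((2 : ℝ) ^ s * 2 ^ (j - i)) ^ 11
        ≤ ((2 : ℝ) ^ j) ^ (20 * (1 / 84 - η)) * ((2 : ℝ) ^ j) ^ (1 - 20 * (1 / 84 - η)) := by gcongr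
      _ = (2 : ℝ) ^ j := by
          rw [← Real.rpow_add (by positivity)]
          rw [show 20 * (1 / 84 - η) + (1 - 20 * (1 / 84 - η)) = 1 by ring, Real.rpow_one]
  have hWt := hW T (U6.GG η T) (2 ^ j) (2 ^ (j - i)) s hT1 (by unfold U6.GG; positivity) hR1 hbig
  set D : ℝ := Cd * T ^ ε with hD
  have hD0 : 0 < D := by positivity
  have hdD : ∀ k : ℕ, 1 ≤ k → (k : ℝ) < T → (U6.dv k : ℝ) ≤ D := by
    intro k hk hkT
    refine (hdv k hk).trans ?_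
    rw [hD]
    gcongr
  have hpi : (2 : ℝ) ^ (i + 1) ≤ 2 ^ (j + 1) := pow_le_pow_right₀ (by norm_num) (by omega)
  have hpj : (2 : ℝ) ^ (j + 1) ≤ T := by rw [pow_succ]; linarith
  have hKK : ∀ k : ℕ, (k : ℝ) < (U6.KK η ε T : ℝ) → (k : ℝ) < T := by
    intro k hk
    have h1 : k < U6.KK η ε T := by exact_mod_cast hk
    rw [U6.KK, Nat.lt_ceil] at h1
    refine h1.trans_le ?_
    calc T ^ (1 / 2 + 2 * η + 4 * ε) ≤ T ^ (1 : ℝ) :=
          Real.rpow_le_rpow_of_exponent_le hT1 (by linarith)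
      _ = T := Real.rpow_one T
  have hi1 : (1 : ℝ) ≤ 2 ^ i := one_le_pow₀ (by norm_num)
  set a := Y2_co (2 ^ i) (2 ^ (i + 1)) (2 ^ i) D with ha
  set b := Y2_co (2 ^ j) (2 ^ (j + 1)) (2 ^ j) D with hb
  set c := Y2_co (2 ^ j) (U6.KK η ε T) (2 ^ j) D with hc
  have hconeb := hcone (2 ^ j) (2 ^ (j - i)) Cw (2 ^ s) a b c (WW T (U6.GG η T) (2 ^ j) (2 ^ (j - i)) s)
    hK₀K hR1 (Nat.one_le_two_pow) hCw (by push_cast; exact n4) hWt
    (Y2_co_norm hi1 le_rfl hD0 (fun k hk hkT => hdD k hk (hkT.trans_le (hpi.trans hpj))))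
    (Y2_co_norm hK1 le_rfl hD0 (fun k hk hkT => hdD k hk (hkT.trans_le hpj)))
    (Y2_co_norm hK1 le_rfl hD0 (fun k hk hkT => hdD k hk (hKK k hkT)))
    (by
      intro k hk
      rw [hb] at hk
      unfold Y2_co at hk
      split_ifs at hk with h
      · refine ⟨h.1, ?_⟩
        have := h.2.le
        rw [pow_succ] at this
        linarith
      · exact absurd rfl hk)
  have hsum : ∑ k ∈ Bk i j (U6.KK η ε T), (tent (Real.logb 2 (th k) - (s + 1)) : ℂ) *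
      (U6.cf k * U6.E3main T (U6.GG η T) k) =
      ∑ x ∈ ZZ (2 ^ j) ×ˢ ZZ (2 ^ j) ×ˢ ZZ (2 ^ j), Y2_ka T D i j *
        (starRingEnd ℂ) (Y2_F T (U6.GG η T) (2 ^ j) (2 ^ (j - i)) s a b c x) := by
    refine Finset.sum_bij_ne_zero (fun k _ _ => ((k.1 : ℤ), (k.2.1 : ℤ), (k.2.2 : ℤ))) ?_ ?_ ?_ ?_
    · intro k hk hne
      have hk' := hk
      rw [Bk, mem_filter, U6.box, mem_product, mem_product, mem_Ico, mem_Ico, mem_Ico] at hk'
      obtain ⟨⟨⟨h1, h1n⟩, ⟨h2, h2n⟩, ⟨h3, h3n⟩⟩, hi, hj', hq, hbb⟩ := hk'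
      obtain ⟨hθ, -, -⟩ := term_eq T (U6.GG η T) hT1 k h1 h2 hq hbb
      have ht : tent (Real.logb 2 (th k) - (s + 1)) ≠ 0 := by
        intro h0
        apply hne
        rw [h0]
        simp
      have ht' := (abs_lt.1 (tent_ne ht)).2
      have hθ4 : th k < 4 * 2 ^ s := by
        have h5 : Real.logb 2 (th k) < (s : ℝ) + 2 := by linarith
        rw [Real.logb_lt_iff_lt_rpow (by norm_num) hθ] at h5
        have h6 : (2 : ℝ) ^ ((s : ℝ) + 2) = 4 * 2 ^ s := by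
          rw [Real.rpow_add (by norm_num), Real.rpow_natCast]
          norm_num
          ring
        rwa [h6] at h5
      have r1 : (k.1 : ℝ) < 2 ^ (i + 1) := by
        have := Nat.lt_pow_succ_log_self (b := 2) (by norm_num) k.1
        rw [hi] at this
        exact_mod_cast this
      have r2 : (k.2.1 : ℝ) < 2 ^ (j + 1) := by
        have := Nat.lt_pow_succ_log_self (b := 2) (by norm_num) k.2.1
        rw [hj'] at this
        exact_mod_cast this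
      rw [pow_succ] at r2
      have r1' : (k.1 : ℝ) < 2 ^ j * 2 := by
        have := r1.trans_le hpi
        rwa [pow_succ] at this
      have r3 : (k.2.2 : ℝ) ≤ 25 * 2 ^ j := by
        have h7 : x0 (k.2.1 : ℝ) (k.2.2 : ℝ) = th k + k.1 := by unfold th; ring
        unfold x0 at h7
        set S := √((2 : ℝ) ^ j) with hS
        have hS0 : 0 ≤ S := Real.sqrt_nonneg _
        have hSS : S ^ 2 = 2 ^ j := Real.sq_sqrt (by positivity)
        set p := √(k.2.1 : ℝ) with hp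
        set q := √(k.2.2 : ℝ) with hq'
        have hp2 : p ^ 2 = k.2.1 := Real.sq_sqrt (by positivity)
        have hq2 : q ^ 2 = k.2.2 := Real.sq_sqrt (by positivity)
        have hp0 : 0 ≤ p := Real.sqrt_nonneg _
        have hq0 : 0 ≤ q := Real.sqrt_nonneg _
        have h8 : (q - p) ^ 2 ≤ (2 * S) ^ 2 := by
          rw [h7, mul_pow, hSS]
          linarith
        have h9 : q - p ≤ 2 * S := by
          exact abs_le_of_sq_le_sq' h8 (by positivity) |>.2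
        have h10 : p ≤ 2 * S := by
          have : p ^ 2 ≤ (2 * S) ^ 2 := by
            rw [hp2, mul_pow, hSS]
            linarith
          exact le_of_sq_le_sq this (by positivity)
        have h11 : q ≤ 4 * S := by linarith
        calc (k.2.2 : ℝ) = q ^ 2 := hq2.symm
          _ ≤ (4 * S) ^ 2 := pow_le_pow_left₀ hq0 h11 2
          _ = 16 * 2 ^ j := by rw [mul_pow, hSS]; norm_num
          _ ≤ 25 * 2 ^ j := by linarith
      rw [mem_product, mem_product]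
      unfold ZZ
      rw [mem_Icc, mem_Icc, mem_Icc]
      refine ⟨⟨by positivity, ?_⟩, ⟨by positivity, ?_⟩, ⟨by positivity, ?_⟩⟩
      · rw [Int.le_floor]
        push_cast
        linarith
      · rw [Int.le_floor]
        push_cast
        linarith
      · rw [Int.le_floor]
        push_cast
        exact r3
    · intro k _ _ k' _ _ h
      simp only [Prod.mk.injEq, Nat.cast_inj] at h
      exact Prod.ext h.1 (Prod.ext h.2.1 h.2.2)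
    · intro x hx hne
      have hF : Y2_F T (U6.GG η T) (2 ^ j) (2 ^ (j - i)) s a b c x ≠ 0 := by
        intro h0
        apply hne
        rw [h0]
        simp
      unfold Y2_F at hF
      have f4 := left_ne_zero_of_mul (right_ne_zero_of_mul hF)
      have f3 := right_ne_zero_of_mul (left_ne_zero_of_mul hF)
      have f2 := right_ne_zero_of_mul (left_ne_zero_of_mul (left_ne_zero_of_mul hF))
      have f1 := left_ne_zero_of_mul (left_ne_zero_of_mul (left_ne_zero_of_mul hF))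
      have g1 : (2 : ℝ) ^ i ≤ (x.1 : ℝ) ∧ (x.1 : ℝ) < 2 ^ (i + 1) := by
        by_contra h
        apply f1
        rw [ha]
        unfold Y2_co
        rw [if_neg h]
      have g2 : (2 : ℝ) ^ j ≤ (x.2.1 : ℝ) ∧ (x.2.1 : ℝ) < 2 ^ (j + 1) := by
        by_contra h
        apply f2
        rw [hb]
        unfold Y2_co
        rw [if_neg h]
      have g3 : (2 : ℝ) ^ j ≤ (x.2.2 : ℝ) ∧ (x.2.2 : ℝ) < (U6.KK η ε T : ℝ) := by
        by_contra h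
        apply f3
        rw [hc]
        unfold Y2_co
        rw [if_neg h]
      have g4 : 0 < x0 (x.2.1 : ℝ) (x.2.2 : ℝ) - (x.1 : ℝ) ∧ (x.2.1 : ℝ) < (x.2.2 : ℝ) := by
        by_contra h
        apply f4
        unfold WW
        rw [if_neg]
        rintro ⟨h1, h2, h3⟩
        exact h ⟨h1, h2⟩
      obtain ⟨g5, g6⟩ := Y2_branch (k1 := (x.1 : ℝ)) (u := (x.2.1 : ℝ)) (v := (x.2.2 : ℝ))
        (by linarith) (by linarith) g4.1 g4.2
      have z1 : 1 ≤ x.1 := by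
        have : (1 : ℝ) ≤ (x.1 : ℝ) := hi1.trans g1.1
        exact_mod_cast this
      have z2 : 1 ≤ x.2.1 := by
        have : (1 : ℝ) ≤ (x.2.1 : ℝ) := hK1.trans g2.1
        exact_mod_cast this
      have z3 : 1 ≤ x.2.2 := by
        have : (1 : ℝ) ≤ (x.2.2 : ℝ) := hK1.trans g3.1
        exact_mod_cast this
      obtain ⟨m1, hm1⟩ := Int.eq_ofNat_of_zero_le (show 0 ≤ x.1 by omega)
      obtain ⟨m2, hm2⟩ := Int.eq_ofNat_of_zero_le (show 0 ≤ x.2.1 by omega)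
      obtain ⟨m3, hm3⟩ := Int.eq_ofNat_of_zero_le (show 0 ≤ x.2.2 by omega)
      rw [hm1] at g1 g5 g6 z1
      rw [hm2] at g2 g5 g6 z2
      rw [hm3] at g3 g5 g6 z3
      simp only [Int.cast_natCast] at g1 g2 g3 g5 g6
      have hx' : (((m1 : ℤ), (m2 : ℤ), (m3 : ℤ)) : ℤ × ℤ × ℤ) = x := by
        rw [← hm1, ← hm2, ← hm3]
      have w3 : m3 < U6.KK η ε T := by exact_mod_cast g3.2
      have w5 : m1 + m2 < m3 := by exact_mod_cast g5
      have w1 : 1 ≤ m1 := by exact_mod_cast z1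
      have w2 : 1 ≤ m2 := by exact_mod_cast z2
      have w4 : 1 ≤ m3 := by omega
      have w6 : m1 < U6.KK η ε T := by omega
      have w7 : m2 < U6.KK η ε T := by omega
      have hmem : ((m1, m2, m3) : ℕ × ℕ × ℕ) ∈ Bk i j (U6.KK η ε T) := by
        rw [Bk, mem_filter, U6.box, mem_product, mem_product, mem_Ico, mem_Ico, mem_Ico]
        refine ⟨⟨⟨w1, w6⟩, ⟨w2, w7⟩, ⟨w4, w3⟩⟩, ?_, ?_, ?_, w5⟩
        · rw [Nat.log_eq_iff (Or.inr ⟨by norm_num, Nat.one_le_iff_ne_zero.1 w1⟩)]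
          exact ⟨by exact_mod_cast g1.1, by exact_mod_cast g1.2⟩
        · rw [Nat.log_eq_iff (Or.inr ⟨by norm_num, Nat.one_le_iff_ne_zero.1 w2⟩)]
          exact ⟨by exact_mod_cast g2.1, by exact_mod_cast g2.2⟩
        · have h8 : ((U6.q (m1, m2, m3) : ℤ) : ℝ) = qf (m1 : ℝ) (m2 : ℝ) (m3 : ℝ) := by
            unfold U6.q qf
            push_cast
            ring
          have h9 : (0 : ℝ) < ((U6.q (m1, m2, m3) : ℤ) : ℝ) := by rw [h8]; exact g6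
          exact_mod_cast h9
      refine ⟨(m1, m2, m3), hmem, ?_, hx'⟩
      have ht := Y2_term T (U6.GG η T) D i j s (U6.KK η ε T) hT1 hD0.ne' hij (m1, m2, m3) hmem
      rw [ht]
      simp only
      rw [hx']
      exact hne
    · intro k hk _
      exact Y2_term T (U6.GG η T) D i j s (U6.KK η ε T) hT1 hD0.ne' hij k hk
  rw [hsum, ← Finset.mul_sum, ← map_sum, norm_mul, RCLike.norm_conj]
  have hF : ∑ x ∈ ZZ (2 ^ j) ×ˢ ZZ (2 ^ j) ×ˢ ZZ (2 ^ j), Y2_F T (U6.GG η T) (2 ^ j) (2 ^ (j - i)) s a b c x =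
      ∑ k1 ∈ ZZ ((2 : ℝ) ^ j), ∑ k2 ∈ ZZ ((2 : ℝ) ^ j), ∑ k3 ∈ ZZ ((2 : ℝ) ^ j), a k1 * b k2 * c k3 *
      (WW T (U6.GG η T) (2 ^ j) (2 ^ (j - i)) s (x0 k2 k3 - k1) k2 k3 * e (√(qf k1 k2 k3) / 2)) := by
    rw [Finset.sum_product]
    refine Finset.sum_congr rfl fun k1 _ => ?_
    rw [Finset.sum_product]
    rfl
  rw [hF]
  have hka : ‖Y2_ka T D i j‖ = c0 * √T * (D ^ 3 / (√((2 : ℝ) ^ i) * 2 ^ j)) := by
    unfold Y2_ka
    rw [norm_mul, norm_mul, Complex.norm_real, Complex.norm_real, Real.norm_eq_abs, Real.norm_eq_abs,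
      abs_of_nonneg (by positivity), abs_of_nonneg (by positivity)]
    have : ‖cexp (-(I * (Real.pi / 4 : ℝ)))‖ = 1 := by
      rw [show -(I * ((Real.pi / 4 : ℝ) : ℂ)) = ((-(Real.pi / 4) : ℝ) : ℂ) * I by push_cast; ring]
      exact Complex.norm_exp_ofReal_mul_I _
    rw [this, mul_one]
  rw [hka]
  have hpow : (2 : ℝ) ^ j = 2 ^ (j - i) * 2 ^ i := by
    rw [← pow_add]
    congr 1
    omega
  have hsq : √((2 : ℝ) ^ j) = √((2 : ℝ) ^ (j - i)) * √((2 : ℝ) ^ i) := by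
    rw [hpow, Real.sqrt_mul (by positivity)]
  have hsj : √((2 : ℝ) ^ j) * √((2 : ℝ) ^ j) = 2 ^ j := Real.mul_self_sqrt (by positivity)
  have hsr0 : 0 < √((2 : ℝ) ^ (j - i)) := Real.sqrt_pos.2 (by positivity)
  have hsi0 : 0 < √((2 : ℝ) ^ i) := Real.sqrt_pos.2 (by positivity)
  have hsj0 : 0 < √((2 : ℝ) ^ j) := Real.sqrt_pos.2 (by positivity)
  calc c0 * √T * (D ^ 3 / (√((2 : ℝ) ^ i) * 2 ^ j)) * _
      ≤ c0 * √T * (D ^ 3 / (√((2 : ℝ) ^ i) * 2 ^ j)) *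
        (Cc * Cw * (((2 : ℝ) ^ j) ^ 2 / √((2 : ℝ) ^ (j - i)))) := by gcongr
    _ = c0 * √T * D ^ 3 * Cc * Cw * (2 ^ j / (√((2 : ℝ) ^ (j - i)) * √((2 : ℝ) ^ i))) := by
        field_simp
    _ = c0 * √T * D ^ 3 * Cc * Cw * √((2 : ℝ) ^ j) := by
        rw [← hsq]
        congr 1
        rw [div_eq_iff hsj0.ne', hsj]
    _ = (c0 * Cd ^ 3 * Cc * Cw) * (√T * (T ^ ε) ^ 3) * √((2 : ℝ) ^ j) := by
        rw [hD]
        ring
    _ ≤ (max 1 (c0 * Cd ^ 3 * Cc * Cw)) * T ^ (1 / 2 + 4 * ε) * √((2 : ℝ) ^ j) := by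
        gcongr
        · exact le_max_right _ _
        · rw [Real.sqrt_eq_rpow, ← Real.rpow_natCast, ← Real.rpow_mul hT0.le, ← Real.rpow_add hT0]
          apply Real.rpow_le_rpow_of_exponent_le hT1
          push_cast
          linarith

end TS
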