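import Pool.Agent.Lib.MP_39df77_nt.TS.App
import Pool.Agent.Lib.MP_39df77_nt.U6.A09
import Pool.Agent.Lib.MP_39df77_nt.U6.B10

/-!
Row TS-Y3: the part `θ ≤ 2` of a dyadic block.
-/

set_option autoImplicit false

namespace TS

open Finset Complex

private theorem Y3_q (k : ℕ × ℕ × ℕ) : (U6.q k : ℝ) = qf k.1 k.2.1 k.2.2 := by
  unfold U6.q qf
  push_cast
  ring

/-- `θ > 0` on the branch `q > 0`, `k₁ + k₂ < k₃` -/
private theorem Y3_th_pos (k : ℕ × ℕ × ℕ) (hq : 0 < U6.q k) (hk : k.1 + k.2.1 < k.2.2) :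
    0 < th k := by
  have h1 : (0 : ℝ) < qf k.1 k.2.1 k.2.2 := by
    rw [← Y3_q]
    exact_mod_cast hq
  have h2 : (k.1 : ℝ) + k.2.1 < k.2.2 := by exact_mod_cast hk
  have a0 : (0 : ℝ) ≤ k.1 := Nat.cast_nonneg _
  have b0 : (0 : ℝ) ≤ k.2.1 := Nat.cast_nonneg _
  have c0 : (0 : ℝ) ≤ k.2.2 := Nat.cast_nonneg _
  set a : ℝ := (k.1 : ℝ) with ha
  set b : ℝ := (k.2.1 : ℝ) with hb
  set c : ℝ := (k.2.2 : ℝ) with hc
  have sa := Real.sq_sqrt a0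
  have sb := Real.sq_sqrt b0
  have sc := Real.sq_sqrt c0
  have pa := Real.sqrt_nonneg a
  have pb := Real.sqrt_nonneg b
  have pc := Real.sqrt_nonneg c
  have h3 : (2 * (√a * √b)) ^ 2 < (c - a - b) ^ 2 := by
    have e1 : (2 * (√a * √b)) ^ 2 = 4 * (√a ^ 2 * √b ^ 2) := by ring
    rw [e1, sa, sb]
    unfold qf at h1
    linarith
  have h4 : 2 * (√a * √b) < c - a - b := by
    have := abs_lt_of_sq_lt_sq h3 (by linarith)
    exact (le_abs_self _).trans_lt this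
  have h5 : (√a + √b) ^ 2 < √c ^ 2 := by
    have e1 : (√a + √b) ^ 2 = √a ^ 2 + √b ^ 2 + 2 * (√a * √b) := by ring
    rw [e1, sa, sb, sc]
    linarith
  have h6 : √a + √b < √c := by
    have := abs_lt_of_sq_lt_sq h5 pc
    exact (le_abs_self _).trans_lt this
  have h7 : √a ^ 2 < (√c - √b) ^ 2 := by
    apply sq_lt_sq'
    · linarith
    · linarith
  unfold th x0
  rw [← hb, ← hc, ← ha]
  rw [sa] at h7
  linarith

/-- bounds for `k₃` and `q` -/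
private theorem Y3_bounds (k : ℕ × ℕ × ℕ) (hq : 0 < U6.q k) (hk : k.1 + k.2.1 < k.2.2)
    (hth : th k ≤ 2) (J : ℝ) (hJ : 1 ≤ J) (h1 : (k.1 : ℝ) ≤ 2 * J) (h2 : (k.2.1 : ℝ) ≤ 2 * J) :
    (k.2.2 : ℝ) ≤ 12 * J ∧ |(U6.q k : ℝ)| ≤ 44 * J := by
  have hθ := Y3_th_pos k hq hk
  have a0 : (0 : ℝ) ≤ k.1 := Nat.cast_nonneg _
  have b0 : (0 : ℝ) ≤ k.2.1 := Nat.cast_nonneg _
  have c0 : (0 : ℝ) ≤ k.2.2 := Nat.cast_nonneg _
  have hq2 := qf_eq k.1 k.2.1 k.2.2 b0 c0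
  have hq3 := Y3_q k
  have hthd : th k = x0 k.2.1 k.2.2 - k.1 := rfl
  rw [← hthd] at hq2
  have hx : (√(k.2.2 : ℝ) - √(k.2.1 : ℝ)) ^ 2 ≤ 4 * J := by
    have : (√(k.2.2 : ℝ) - √(k.2.1 : ℝ)) ^ 2 = th k + k.1 := by
      rw [hthd]
      unfold x0
      ring
    rw [this]
    linarith
  set c : ℝ := (k.2.2 : ℝ) with hc
  set b : ℝ := (k.2.1 : ℝ) with hb
  have sc := Real.sq_sqrt c0
  have sb := Real.sq_sqrt b0
  have pJ : 0 ≤ √J := Real.sqrt_nonneg J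
  have sJ := Real.sq_sqrt (by linarith : (0 : ℝ) ≤ J)
  have pb := Real.sqrt_nonneg b
  have pc := Real.sqrt_nonneg c
  have h4 : √c - √b ≤ 2 * √J := by
    have h5 : (√c - √b) ^ 2 ≤ (2 * √J) ^ 2 := by
      rw [mul_pow, sJ]
      linarith
    exact (abs_le_of_sq_le_sq' h5 (by positivity)).2
  have h6 : √b ≤ 1.4143 * √J := by
    have h5 : √b ^ 2 ≤ (1.4143 * √J) ^ 2 := by
      rw [mul_pow, sJ, sb]
      nlinarith
    exact (abs_le_of_sq_le_sq' h5 (by positivity)).2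
  have h7 : √c ≤ 3.4143 * √J := by linarith
  have h8 : c ≤ 12 * J := by
    rw [← sc]
    calc √c ^ 2 ≤ (3.4143 * √J) ^ 2 := by gcongr
      _ = 3.4143 ^ 2 * J := by rw [mul_pow, sJ]
      _ ≤ 12 * J := by nlinarith
  refine ⟨h8, ?_⟩
  have h9 : √(b * c) ≤ 4.9 * J := by
    rw [Real.sqrt_mul b0]
    calc √b * √c ≤ (1.4143 * √J) * (3.4143 * √J) := by gcongr
      _ = 1.4143 * 3.4143 * (√J ^ 2) := by ring
      _ = 1.4143 * 3.4143 * J := by rw [sJ]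
      _ ≤ 4.9 * J := by nlinarith
  rw [abs_of_pos (by exact_mod_cast hq), hq3, hq2]
  have h10 : th k ^ 2 ≤ 4 := by nlinarith
  have h11 : 4 * th k * √(b * c) ≤ 4 * 2 * (4.9 * J) := by
    gcongr
  linarith

/-- the size of one term -/
private theorem Y3_term (Cd e η T : ℝ) (he : 0 < e)
    (hd : ∀ k : ℕ, 1 ≤ k → (U6.dv k : ℝ) ≤ Cd * (k : ℝ) ^ e) (hCd : 0 < Cd) (hT : 1 ≤ T)
    (k : ℕ × ℕ × ℕ) (h1 : 1 ≤ k.1) (h2 : 1 ≤ k.2.1) (h3 : 1 ≤ k.2.2) (g1 : (k.1 : ℝ) ≤ T)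
    (g2 : (k.2.1 : ℝ) ≤ T) (g3 : (k.2.2 : ℝ) ≤ T) (hq : 0 < U6.q k) (I0 J : ℝ) (hI : 0 < I0)
    (hJ : 0 < J) (b1 : I0 ≤ k.1) (b2 : J ≤ k.2.1) (b3 : J ≤ k.2.2) :
    ‖U6.cf k * U6.E3main T (U6.GG η T) k‖ ≤ 2 * Cd ^ 3 * T ^ (3 * e) * √T * (1 / (√I0 * J)) := by
  have a0 : (0 : ℝ) < k.1 := by exact_mod_cast h1
  have b0 : (0 : ℝ) < k.2.1 := by exact_mod_cast h2
  have c0 : (0 : ℝ) < k.2.2 := by exact_mod_cast h3
  have hP : (0 : ℝ) < (k.1 : ℝ) * k.2.1 * k.2.2 := by positivity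
  have hq0 : (0 : ℝ) < (U6.q k : ℝ) := by exact_mod_cast hq
  have ht0 : 0 < U6.t0 k := by
    unfold U6.t0
    positivity
  have hT0 : 0 < T := by linarith
  -- the coefficient
  have hcf : ‖U6.cf k‖ ≤ Cd ^ 3 * T ^ (3 * e) * ((k.1 : ℝ) * k.2.1 * k.2.2) ^ (-(1 / 4) : ℝ) := by
    have e1 : ‖U6.cf k‖ = ((U6.dv k.1 : ℝ) * U6.dv k.2.1 * U6.dv k.2.2) *
        ((k.1 : ℝ) * k.2.1 * k.2.2) ^ (-(1 / 4) : ℝ) := by
      unfold U6.cf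
      rw [norm_mul, norm_mul, norm_pow, norm_neg, norm_one, one_pow, one_mul, Complex.norm_natCast,
        Complex.norm_real, Real.norm_of_nonneg (by positivity)]
      push_cast
      ring
    rw [e1]
    refine mul_le_mul_of_nonneg_right ?_ (by positivity)
    have d1 := hd k.1 h1
    have d2 := hd k.2.1 h2
    have d3 := hd k.2.2 h3
    have p1 : (k.1 : ℝ) ^ e ≤ T ^ e := Real.rpow_le_rpow a0.le g1 he.le
    have p2 : (k.2.1 : ℝ) ^ e ≤ T ^ e := Real.rpow_le_rpow b0.le g2 he.le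
    have p3 : (k.2.2 : ℝ) ^ e ≤ T ^ e := Real.rpow_le_rpow c0.le g3 he.le
    have q1 : (U6.dv k.1 : ℝ) ≤ Cd * T ^ e := d1.trans (by gcongr)
    have q2 : (U6.dv k.2.1 : ℝ) ≤ Cd * T ^ e := d2.trans (by gcongr)
    have q3 : (U6.dv k.2.2 : ℝ) ≤ Cd * T ^ e := d3.trans (by gcongr)
    calc (U6.dv k.1 : ℝ) * U6.dv k.2.1 * U6.dv k.2.2 ≤ (Cd * T ^ e) * (Cd * T ^ e) * (Cd * T ^ e) := by
          gcongr
      _ = Cd ^ 3 * (T ^ e) ^ 3 := by ring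
      _ = Cd ^ 3 * T ^ (3 * e) := by
          rw [← Real.rpow_natCast (T ^ e) 3, ← Real.rpow_mul hT0.le]
          congr 2
          push_cast
          ring
  -- the main term
  have hE : ‖U6.E3main T (U6.GG η T) k‖ ≤
      2 * ((k.1 : ℝ) * k.2.1 * k.2.2) ^ (-(1 / 4) : ℝ) * √T := by
    unfold U6.E3main
    rw [norm_mul]
    have e2 : ‖cexp (-(I * ((Real.pi / 4 + Real.pi * Real.sqrt (U6.q k : ℝ) : ℝ) : ℂ)))‖ = 1 := by
      rw [show (-(Complex.I * ((Real.pi / 4 + Real.pi * Real.sqrt (U6.q k : ℝ) : ℝ) : ℂ))) =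
        ((-(Real.pi / 4 + Real.pi * Real.sqrt (U6.q k : ℝ)) : ℝ) : ℂ) * Complex.I by
          push_cast; ring]
      exact Complex.norm_exp_ofReal_mul_I _
    rw [e2, mul_one, Complex.norm_real, Real.norm_of_nonneg (by positivity)]
    have hc1 : √2 * (2 * Real.pi) ^ (-(1 / 4) : ℝ) ≤ 2 := by
      have u1 : √2 ≤ 2 := by
        rw [Real.sqrt_le_left (by norm_num)]
        norm_num
      have u2 : (2 * Real.pi) ^ (-(1 / 4) : ℝ) ≤ 1 :=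
        Real.rpow_le_one_of_one_le_of_nonpos (by linarith [Real.pi_gt_three]) (by norm_num)
      have u3 : 0 ≤ (2 * Real.pi) ^ (-(1 / 4) : ℝ) := by positivity
      nlinarith [Real.sqrt_nonneg 2]
    have hs : √(U6.t0 k) = √T * √(U6.t0 k / T) := by
      rw [← Real.sqrt_mul hT0.le]
      congr 1
      field_simp
    have hx : √(U6.t0 k / T) * Real.exp (-(Real.sqrt (U6.t0 k / T)) - Real.sqrt (T / U6.t0 k) -
        U6.ga (U6.GG η T) k / Real.sqrt (U6.t0 k)) ≤ 1 := by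
      have v1 : Real.exp (-(Real.sqrt (U6.t0 k / T)) - Real.sqrt (T / U6.t0 k) -
          U6.ga (U6.GG η T) k / Real.sqrt (U6.t0 k)) ≤ Real.exp (-(Real.sqrt (U6.t0 k / T))) := by
        apply Real.exp_le_exp.2
        have v2 : 0 ≤ U6.ga (U6.GG η T) k / Real.sqrt (U6.t0 k) := by
          unfold U6.ga U6.GG
          positivity
        have v3 := Real.sqrt_nonneg (T / U6.t0 k)
        linarith
      have v4 : √(U6.t0 k / T) ≤ Real.exp (Real.sqrt (U6.t0 k / T)) := by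
        have := Real.add_one_le_exp (√(U6.t0 k / T))
        linarith
      calc √(U6.t0 k / T) * Real.exp (-(Real.sqrt (U6.t0 k / T)) - Real.sqrt (T / U6.t0 k) -
            U6.ga (U6.GG η T) k / Real.sqrt (U6.t0 k))
          ≤ Real.exp (Real.sqrt (U6.t0 k / T)) * Real.exp (-(Real.sqrt (U6.t0 k / T))) := by
            apply mul_le_mul v4 v1 (Real.exp_pos _).le (Real.exp_pos _).le
        _ = 1 := by
            rw [← Real.exp_add]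
            simp
    set P4 : ℝ := ((k.1 : ℝ) * k.2.1 * k.2.2) ^ (-(1 / 4) : ℝ) with hP4
    have hP40 : 0 ≤ P4 := by positivity
    set X : ℝ := Real.exp (-(Real.sqrt (U6.t0 k / T)) - Real.sqrt (T / U6.t0 k) -
        U6.ga (U6.GG η T) k / Real.sqrt (U6.t0 k)) with hX
    calc √2 * (2 * Real.pi) ^ (-(1 / 4) : ℝ) * P4 * √(U6.t0 k) * X
        = (√2 * (2 * Real.pi) ^ (-(1 / 4) : ℝ)) * P4 * √T * (√(U6.t0 k / T) * X) := by
          rw [hs]; ring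
      _ ≤ 2 * P4 * √T * 1 := by
          gcongr
      _ = 2 * P4 * √T := by ring
  have hPP : ((k.1 : ℝ) * k.2.1 * k.2.2) ^ (-(1 / 4) : ℝ) *
      ((k.1 : ℝ) * k.2.1 * k.2.2) ^ (-(1 / 4) : ℝ) ≤ 1 / (√I0 * J) := by
    rw [← Real.rpow_add hP, show (-(1 / 4) + -(1 / 4) : ℝ) = -(1 / 2) by norm_num,
      Real.rpow_neg hP.le, ← Real.sqrt_eq_rpow, ← one_div]
    have w1 : √I0 * J ≤ √((k.1 : ℝ) * k.2.1 * k.2.2) := by
      rw [show √I0 * J = √(I0 * (J * J)) by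
        rw [Real.sqrt_mul hI.le, Real.sqrt_mul_self hJ.le], mul_assoc]
      apply Real.sqrt_le_sqrt
      gcongr
    exact one_div_le_one_div_of_le (by positivity) w1
  rw [norm_mul]
  set P4 : ℝ := ((k.1 : ℝ) * k.2.1 * k.2.2) ^ (-(1 / 4) : ℝ) with hP4
  have hP40 : 0 ≤ P4 := by positivity
  calc ‖U6.cf k‖ * ‖U6.E3main T (U6.GG η T) k‖
      ≤ (Cd ^ 3 * T ^ (3 * e) * P4) * (2 * P4 * √T) := by
        apply mul_le_mul hcf hE (norm_nonneg _) (by positivity)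
    _ = 2 * Cd ^ 3 * T ^ (3 * e) * √T * (P4 * P4) := by ring
    _ ≤ 2 * Cd ^ 3 * T ^ (3 * e) * √T * (1 / (√I0 * J)) := by
        gcongr

/-- `|cf E3main| ≤ C T^{3ε} √T (k₁k₂k₃)^{-1/2}` (`√(t₀/T) exp(-√(t₀/T)) ≤ 1`), `k₃ ≥ k₂`, and `0 < q = θ² + 4θ√(k₂k₃) ≤
4 + 8√(k₂k₃) ≤ C 2^j` (`k₃ ≤ C 2^j` because `θ ≤ 2`); number of terms by `U6.count_q`:
`C T^{ε} √(2^i 2^j) 2^j`. -/
theorem block_low (η ε : ℝ) (hη : 0 < η) (hη1 : η < 1 / 84) (hε : 0 < ε) (hε1 : ε ≤ (1 / 84 - η) / 100) :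
    ∃ C T₀ : ℝ, 1 ≤ C ∧ 1 ≤ T₀ ∧ ∀ (T : ℝ) (i j : ℕ), T₀ ≤ T → i ≤ j →
    ∑ k ∈ (Bk i j (U6.KK η ε T)).filter (fun k => th k ≤ 2),
      ‖U6.cf k * U6.E3main T (U6.GG η T) k‖ ≤ C * T ^ (1 / 2 + 4 * ε) * √((2 : ℝ) ^ j) := by
  obtain ⟨Cd, hCd, hd⟩ := U6.dv_le (ε / 2) (by positivity)
  obtain ⟨C, hC, hc⟩ := U6.count_q (ε / 2) (by positivity)
  refine ⟨1 + 792 * C * (176 : ℝ) ^ (ε / 2) * Cd ^ 3, 1, ?_, le_refl _, ?_⟩
  · have : 0 ≤ 792 * C * (176 : ℝ) ^ (ε / 2) * Cd ^ 3 := by positivity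
    linarith
  intro T i j hT hij
  have hT0 : 0 < T := by linarith
  set S := (Bk i j (U6.KK η ε T)).filter (fun k => th k ≤ 2) with hS
  have hI1 : (1 : ℝ) ≤ (2 : ℝ) ^ i := one_le_pow₀ (by norm_num)
  have hJ1 : (1 : ℝ) ≤ (2 : ℝ) ^ j := one_le_pow₀ (by norm_num)
  have hIJ : (2 : ℝ) ^ i ≤ (2 : ℝ) ^ j := pow_le_pow_right₀ (by norm_num) hij
  have hfac : ∀ k ∈ S, 1 ≤ k.1 ∧ 1 ≤ k.2.1 ∧ 1 ≤ k.2.2 ∧ (k.1 : ℝ) ≤ T ∧ (k.2.1 : ℝ) ≤ T ∧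
      (k.2.2 : ℝ) ≤ T ∧ 0 < U6.q k ∧ k.1 + k.2.1 < k.2.2 ∧ (2 : ℝ) ^ i ≤ k.1 ∧
      (2 : ℝ) ^ j ≤ k.2.1 ∧ (k.1 : ℝ) ≤ 2 * 2 ^ i ∧ (k.2.1 : ℝ) ≤ 2 * 2 ^ j ∧ th k ≤ 2 := by
    intro k hk
    rw [hS, Finset.mem_filter] at hk
    obtain ⟨hk, ht⟩ := hk
    unfold Bk at hk
    rw [Finset.mem_filter] at hk
    obtain ⟨hb, l1, l2, l3, l4⟩ := hk
    unfold U6.box at hb
    rw [Finset.mem_product, Finset.mem_product, Finset.mem_Ico, Finset.mem_Ico,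
      Finset.mem_Ico] at hb
    obtain ⟨⟨m1, m2⟩, ⟨m3, m4⟩, ⟨m5, m6⟩⟩ := hb
    have hTp : T ^ (1 / 2 + 2 * η + 4 * ε) ≤ T := by
      calc T ^ (1 / 2 + 2 * η + 4 * ε) ≤ T ^ (1 : ℝ) :=
            Real.rpow_le_rpow_of_exponent_le hT (by linarith)
        _ = T := Real.rpow_one T
    exact ⟨m1, m3, m5, ((U6.KK_lt η ε T _ m2).le.trans hTp), ((U6.KK_lt η ε T _ m4).le.trans hTp),
      ((U6.KK_lt η ε T _ m6).le.trans hTp), l3, l4, U6.B10_low _ _ m1 l1, U6.B10_low _ _ m3 l2,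
      U6.B10_up _ _ l1, U6.B10_up _ _ l2, ht⟩
  have hpos : 0 ≤ (1 + 792 * C * (176 : ℝ) ^ (ε / 2) * Cd ^ 3) * T ^ (1 / 2 + 4 * ε) *
      √((2 : ℝ) ^ j) := by positivity
  rcases S.eq_empty_or_nonempty with hSe | ⟨k0, hk0⟩
  · rw [hSe, Finset.sum_empty]
    exact hpos
  obtain ⟨-, -, -, t1, t2, -, -, -, t3, t4, -, -, -⟩ := hfac k0 hk0
  have hiT : (2 : ℝ) ^ i ≤ T := t3.trans t1
  have hjT : (2 : ℝ) ^ j ≤ T := t4.trans t2
  -- the count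
  have hcard : (S.card : ℝ) ≤ C * ((176 : ℝ) ^ (ε / 2) * T ^ (3 * (ε / 2))) *
      (9 * (√((2 : ℝ) ^ i) * √((2 : ℝ) ^ j))) * (44 * 2 ^ j) := by
    have hsub : S ⊆ (Finset.Icc 1 (2 ^ (i + 1)) ×ˢ Finset.Icc 1 (2 ^ (j + 1)) ×ˢ
        Finset.Icc 1 (12 * 2 ^ j)).filter (fun k => |(U6.q k : ℝ)| ≤ 44 * (2 : ℝ) ^ j) := by
      intro k hk
      obtain ⟨s1, s2, s3, -, -, -, s4, s5, -, -, s6, s7, s8⟩ := hfac k hk
      obtain ⟨r1, r2⟩ := Y3_bounds k s4 s5 s8 (2 ^ j) hJ1 (by linarith) s7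
      rw [Finset.mem_filter, Finset.mem_product, Finset.mem_product, Finset.mem_Icc,
        Finset.mem_Icc, Finset.mem_Icc]
      refine ⟨⟨⟨s1, ?_⟩, ⟨s2, ?_⟩, ⟨s3, ?_⟩⟩, r2⟩
      · have : (k.1 : ℝ) ≤ ((2 ^ (i + 1) : ℕ) : ℝ) := by
          push_cast
          rw [pow_succ]
          linarith
        exact_mod_cast this
      · have : (k.2.1 : ℝ) ≤ ((2 ^ (j + 1) : ℕ) : ℝ) := by
          push_cast
          rw [pow_succ]
          linarith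
        exact_mod_cast this
      · have : (k.2.2 : ℝ) ≤ ((12 * 2 ^ j : ℕ) : ℝ) := by
          push_cast
          linarith
        exact_mod_cast this
    have h1 : (S.card : ℝ) ≤ (((Finset.Icc 1 (2 ^ (i + 1)) ×ˢ Finset.Icc 1 (2 ^ (j + 1)) ×ˢ
        Finset.Icc 1 (12 * 2 ^ j)).filter (fun k => |(U6.q k : ℝ)| ≤ 44 * (2 : ℝ) ^ j)).card : ℝ) := by
      exact_mod_cast Finset.card_le_card hsub
    have h2 := hc (2 ^ (i + 1)) (2 ^ (j + 1)) (12 * 2 ^ j) (44 * (2 : ℝ) ^ j) Nat.one_le_two_pow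
      Nat.one_le_two_pow (by have := Nat.one_le_two_pow (n := j); omega) (by linarith)
    refine h1.trans (h2.trans ?_)
    have h3 : (((2 ^ (i + 1) : ℕ) : ℝ) * ((2 ^ (j + 1) : ℕ) : ℝ)) = 4 * ((2 : ℝ) ^ i * 2 ^ j) := by
      push_cast
      rw [pow_succ, pow_succ]
      ring
    rw [h3]
    have h4 : (4 * ((2 : ℝ) ^ i * 2 ^ j) * (44 * 2 ^ j)) ^ (ε / 2) ≤
        (176 : ℝ) ^ (ε / 2) * T ^ (3 * (ε / 2)) := by
      have h5 : 4 * ((2 : ℝ) ^ i * 2 ^ j) * (44 * 2 ^ j) ≤ 176 * T ^ 3 := by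
        calc 4 * ((2 : ℝ) ^ i * 2 ^ j) * (44 * 2 ^ j) ≤ 4 * (T * T) * (44 * T) := by gcongr
          _ = 176 * T ^ 3 := by ring
      calc (4 * ((2 : ℝ) ^ i * 2 ^ j) * (44 * 2 ^ j)) ^ (ε / 2) ≤ (176 * T ^ 3) ^ (ε / 2) :=
            Real.rpow_le_rpow (by positivity) h5 (by positivity)
        _ = (176 : ℝ) ^ (ε / 2) * T ^ (3 * (ε / 2)) := by
            rw [Real.mul_rpow (by norm_num) (by positivity), ← Real.rpow_natCast T 3,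
              ← Real.rpow_mul hT0.le]
            norm_num
    have h6 : √(4 * ((2 : ℝ) ^ i * 2 ^ j)) + √(44 * (2 : ℝ) ^ j) ≤
        9 * (√((2 : ℝ) ^ i) * √((2 : ℝ) ^ j)) := by
      have u1 : √(4 * ((2 : ℝ) ^ i * 2 ^ j)) = 2 * (√((2 : ℝ) ^ i) * √((2 : ℝ) ^ j)) := by
        rw [Real.sqrt_mul (by norm_num), Real.sqrt_mul (by positivity),
          show (4 : ℝ) = 2 ^ 2 by norm_num, Real.sqrt_sq (by norm_num)]
      have u2 : √(44 * (2 : ℝ) ^ j) ≤ 7 * √((2 : ℝ) ^ j) := by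
        rw [Real.sqrt_mul (by norm_num)]
        have : √(44 : ℝ) ≤ 7 := by
          rw [Real.sqrt_le_left (by norm_num)]
          norm_num
        gcongr
      have u3 : 1 ≤ √((2 : ℝ) ^ i) := by
        rw [Real.one_le_sqrt]
        exact hI1
      have u4 := Real.sqrt_nonneg ((2 : ℝ) ^ j)
      nlinarith
    gcongr
  -- the terms
  have hterm : ∀ k ∈ S, ‖U6.cf k * U6.E3main T (U6.GG η T) k‖ ≤
      2 * Cd ^ 3 * T ^ (3 * (ε / 2)) * √T * (1 / (√((2 : ℝ) ^ i) * 2 ^ j)) := by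
    intro k hk
    obtain ⟨s1, s2, s3, s4, s5, s6, s7, s8, s9, s10, -, -, -⟩ := hfac k hk
    have s11 : (k.2.1 : ℝ) ≤ k.2.2 := by
      have : k.2.1 ≤ k.2.2 := by omega
      exact_mod_cast this
    exact Y3_term Cd (ε / 2) η T (by positivity) hd hCd hT k s1 s2 s3 s4 s5 s6 s7 _ _
      (by positivity) (by positivity) s9 s10 (s10.trans s11)
  have hsum := Finset.sum_le_card_nsmul S _ _ hterm
  rw [nsmul_eq_mul] at hsum
  refine hsum.trans ?_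
  have hq0 : 0 < √((2 : ℝ) ^ i) := by positivity
  have hTT : T ^ (3 * (ε / 2)) * T ^ (3 * (ε / 2)) * √T ≤ T ^ (1 / 2 + 4 * ε) := by
    rw [Real.sqrt_eq_rpow, ← Real.rpow_add hT0, ← Real.rpow_add hT0]
    exact Real.rpow_le_rpow_of_exponent_le hT (by linarith)
  calc (S.card : ℝ) * (2 * Cd ^ 3 * T ^ (3 * (ε / 2)) * √T * (1 / (√((2 : ℝ) ^ i) * 2 ^ j)))
      ≤ (C * ((176 : ℝ) ^ (ε / 2) * T ^ (3 * (ε / 2))) *
      (9 * (√((2 : ℝ) ^ i) * √((2 : ℝ) ^ j))) * (44 * 2 ^ j)) *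
        (2 * Cd ^ 3 * T ^ (3 * (ε / 2)) * √T * (1 / (√((2 : ℝ) ^ i) * 2 ^ j))) := by
        gcongr
    _ = (792 * C * (176 : ℝ) ^ (ε / 2) * Cd ^ 3) *
        (T ^ (3 * (ε / 2)) * T ^ (3 * (ε / 2)) * √T) * √((2 : ℝ) ^ j) := by
        field_simp
        ring
    _ ≤ (1 + 792 * C * (176 : ℝ) ^ (ε / 2) * Cd ^ 3) * T ^ (1 / 2 + 4 * ε) * √((2 : ℝ) ^ j) := by
        gcongr
        linarith

end TS
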