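import Pool.Agent.Lib.MP_39df77_nt.TS.App2
import Pool.Agent.Lib.MP_39df77_nt.TS.App3

/-!
Row TS-Y4: all resonant triples.
-/

set_option autoImplicit false

namespace TS

open Finset Complex

/-! ### the partition of unity -/

theorem Y4_tent (z : ℝ) : tent (z - 1) = max 0 (min 1 z) - max 0 (min 1 (z - 1)) := by
  unfold tent
  rcases le_total z 0 with h | h
  · rw [abs_of_nonpos (by linarith), min_eq_right (by linarith), min_eq_right (by linarith),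
      max_eq_left (by linarith), max_eq_left (by linarith), max_eq_left (by linarith)]
    ring
  · rcases le_total z 1 with h1 | h1
    · rw [abs_of_nonpos (by linarith), min_eq_right (by linarith), min_eq_right (by linarith),
        max_eq_right (by linarith), max_eq_right (by linarith), max_eq_left (by linarith)]
      ring
    · rcases le_total z 2 with h2 | h2
      · rw [abs_of_nonneg (by linarith), min_eq_left (by linarith), min_eq_right (by linarith),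
          max_eq_right (by linarith), max_eq_right (by linarith), max_eq_right (by linarith)]
      · rw [abs_of_nonneg (by linarith), min_eq_left (by linarith), min_eq_left (by linarith),
          max_eq_left (by linarith), max_eq_right (by linarith)]
        norm_num

theorem Y4_pou (S : ℕ) (y : ℝ) (hy : y ≤ S) :
    ∑ s ∈ range S, tent (y - ((s : ℝ) + 1)) = max 0 (min 1 y) := by
  have h1 : ∀ s : ℕ, tent (y - ((s : ℝ) + 1)) =
      (fun m : ℕ => max 0 (min 1 (y - (m : ℝ)))) s - (fun m : ℕ => max 0 (min 1 (y - (m : ℝ)))) (s + 1) := by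
    intro s
    have h2 := Y4_tent (y - s)
    have e1 : y - ((s : ℝ) + 1) = y - s - 1 := by ring
    simp only [Nat.cast_add, Nat.cast_one]
    rw [e1]
    exact h2
  rw [Finset.sum_congr rfl (fun s _ => h1 s), Finset.sum_range_sub']
  simp only [Nat.cast_zero, sub_zero]
  have h3 : max 0 (min 1 (y - (S : ℝ))) = 0 := by
    rw [max_eq_left]
    exact (min_le_right _ _).trans (by linarith)
  rw [h3, sub_zero]

/-! ### terms that are not resonant -/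

theorem Y4_E3main (T G : ℝ) (hG : 0 ≤ G) (k : ℕ × ℕ × ℕ) (h1 : 1 ≤ k.1) (h2 : 1 ≤ k.2.1)
    (h3 : 1 ≤ k.2.2) :
    ‖U6.E3main T G k‖ ≤ 2 * (√(U6.t0 k) * Real.exp (-(√(U6.t0 k / T)) - √(T / U6.t0 k))) := by
  unfold U6.E3main
  have e0 : ‖cexp (-(I * ((Real.pi / 4 + Real.pi * Real.sqrt (U6.q k : ℝ) : ℝ) : ℂ)))‖ = 1 := by
    rw [Complex.norm_exp]
    simp
  rw [norm_mul, e0, mul_one, Complex.norm_real, Real.norm_eq_abs]
  have hp : (1 : ℝ) ≤ (k.1 * k.2.1 * k.2.2 : ℝ) := by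
    have : 1 ≤ k.1 * k.2.1 * k.2.2 := by
      have := Nat.mul_le_mul (Nat.mul_le_mul h1 h2) h3
      simpa using this
    exact_mod_cast this
  have a1 : ((k.1 * k.2.1 * k.2.2 : ℝ)) ^ (-(1 / 4) : ℝ) ≤ 1 :=
    Real.rpow_le_one_of_one_le_of_nonpos hp (by norm_num)
  have a2 : (2 * Real.pi) ^ (-(1 / 4) : ℝ) ≤ 1 :=
    Real.rpow_le_one_of_one_le_of_nonpos (by linarith [Real.pi_gt_three]) (by norm_num)
  have a3 : √2 ≤ 2 := by
    rw [Real.sqrt_le_left (by norm_num)]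
    norm_num
  have a4 : 0 ≤ U6.ga G k / √(U6.t0 k) := by
    unfold U6.ga
    positivity
  have a5 : Real.exp (-(√(U6.t0 k / T)) - √(T / U6.t0 k) - U6.ga G k / √(U6.t0 k)) ≤
      Real.exp (-(√(U6.t0 k / T)) - √(T / U6.t0 k)) := Real.exp_le_exp.2 (by linarith)
  have b1 : 0 ≤ ((k.1 * k.2.1 * k.2.2 : ℝ)) ^ (-(1 / 4) : ℝ) := by positivity
  have b2 : 0 ≤ (2 * Real.pi) ^ (-(1 / 4) : ℝ) := by positivity
  rw [abs_of_nonneg (by positivity)]
  calc √2 * (2 * Real.pi) ^ (-(1 / 4) : ℝ) * ((k.1 * k.2.1 * k.2.2 : ℝ)) ^ (-(1 / 4) : ℝ) * √(U6.t0 k) *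
        Real.exp (-(√(U6.t0 k / T)) - √(T / U6.t0 k) - U6.ga G k / √(U6.t0 k)) ≤
      2 * 1 * 1 * √(U6.t0 k) * Real.exp (-(√(U6.t0 k / T)) - √(T / U6.t0 k)) := by gcongr
    _ = _ := by ring

theorem Y4_cf (n : ℕ) (k : ℕ × ℕ × ℕ) (h1 : 1 ≤ k.1) (h2 : 1 ≤ k.2.1) (h3 : 1 ≤ k.2.2) (h1' : k.1 ≤ n)
    (h2' : k.2.1 ≤ n) (h3' : k.2.2 ≤ n) : ‖U6.cf k‖ ≤ (n : ℝ) ^ 3 := by
  unfold U6.cf
  have hp : (1 : ℝ) ≤ (k.1 * k.2.1 * k.2.2 : ℝ) := by
    have : 1 ≤ k.1 * k.2.1 * k.2.2 := by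
      have := Nat.mul_le_mul (Nat.mul_le_mul h1 h2) h3
      simpa using this
    exact_mod_cast this
  have a1 : ((k.1 * k.2.1 * k.2.2 : ℝ)) ^ (-(1 / 4) : ℝ) ≤ 1 :=
    Real.rpow_le_one_of_one_le_of_nonpos hp (by norm_num)
  have b1 : 0 ≤ ((k.1 * k.2.1 * k.2.2 : ℝ)) ^ (-(1 / 4) : ℝ) := by positivity
  rw [norm_mul, norm_mul, norm_pow, norm_neg, norm_one, one_pow, one_mul, Complex.norm_natCast, Complex.norm_real,
    Real.norm_eq_abs, abs_of_nonneg b1]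
  have c1 : U6.dv k.1 * U6.dv k.2.1 * U6.dv k.2.2 ≤ n ^ 3 := by
    have d : ∀ m : ℕ, U6.dv m ≤ m := fun m => Nat.card_divisors_le_self m
    calc U6.dv k.1 * U6.dv k.2.1 * U6.dv k.2.2 ≤ n * n * n :=
          Nat.mul_le_mul (Nat.mul_le_mul ((d _).trans h1') ((d _).trans h2')) ((d _).trans h3')
      _ = n ^ 3 := by ring
  have c2 : ((U6.dv k.1 * U6.dv k.2.1 * U6.dv k.2.2 : ℕ) : ℝ) ≤ (n : ℝ) ^ 3 := by exact_mod_cast c1
  calc ((U6.dv k.1 * U6.dv k.2.1 * U6.dv k.2.2 : ℕ) : ℝ) * ((k.1 * k.2.1 * k.2.2 : ℝ)) ^ (-(1 / 4) : ℝ) ≤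
      (n : ℝ) ^ 3 * 1 := by gcongr
    _ = _ := mul_one _

theorem Y4_far (T ε t : ℝ) (hT : 1 ≤ T) (hε : 0 < ε) (ht : 0 < t)
    (h : t ≤ T ^ (1 - 20 * ε) ∨ T ^ (1 + 20 * ε) ≤ t) :
    √t * Real.exp (-(√(t / T)) - √(T / t)) ≤ 2 * √T * Real.exp (-(T ^ (10 * ε) / 2)) := by
  have hT0 : 0 < T := by linarith
  have e2 : √(T ^ (20 * ε)) = T ^ (10 * ε) := by
    rw [Real.sqrt_eq_rpow, ← Real.rpow_mul hT0.le]
    congr 1
    ring
  have p1 : 0 ≤ T ^ (10 * ε) := by positivity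
  rcases h with h | h
  · have h1 : t ≤ T := by
      refine h.trans ?_
      calc T ^ (1 - 20 * ε) ≤ T ^ (1 : ℝ) := Real.rpow_le_rpow_of_exponent_le hT (by linarith)
        _ = T := Real.rpow_one T
    have h2 : T ^ (20 * ε) ≤ T / t := by
      rw [le_div_iff₀ ht]
      calc T ^ (20 * ε) * t ≤ T ^ (20 * ε) * T ^ (1 - 20 * ε) := by gcongr
        _ = T ^ (1 : ℝ) := by
            rw [← Real.rpow_add hT0]
            congr 1
            ring
        _ = T := Real.rpow_one T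
    have h3 : T ^ (10 * ε) ≤ √(T / t) := by
      rw [← e2]
      exact Real.sqrt_le_sqrt h2
    have h4 : √t ≤ √T := Real.sqrt_le_sqrt h1
    have h5 : 0 ≤ √(t / T) := Real.sqrt_nonneg _
    have h6 : Real.exp (-(√(t / T)) - √(T / t)) ≤ Real.exp (-(T ^ (10 * ε) / 2)) :=
      Real.exp_le_exp.2 (by linarith)
    have h7 : 0 ≤ √T := Real.sqrt_nonneg _
    calc √t * Real.exp (-(√(t / T)) - √(T / t)) ≤ √T * Real.exp (-(T ^ (10 * ε) / 2)) := by gcongr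
      _ ≤ 2 * √T * Real.exp (-(T ^ (10 * ε) / 2)) := by
          have := mul_nonneg h7 (Real.exp_pos (-(T ^ (10 * ε) / 2))).le
          linarith
  · have h2 : T ^ (20 * ε) ≤ t / T := by
      rw [le_div_iff₀ hT0]
      calc T ^ (20 * ε) * T = T ^ (20 * ε) * T ^ (1 : ℝ) := by rw [Real.rpow_one]
        _ = T ^ (1 + 20 * ε) := by
            rw [← Real.rpow_add hT0]
            congr 1
            ring
        _ ≤ t := h
    have h3 : T ^ (10 * ε) ≤ √(t / T) := by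
      rw [← e2]
      exact Real.sqrt_le_sqrt h2
    have h4 : √t = √T * √(t / T) := by
      rw [← Real.sqrt_mul hT0.le]
      congr 1
      field_simp
    obtain ⟨x, hx⟩ : ∃ x, x = √(t / T) := ⟨_, rfl⟩
    rw [← hx] at h3 h4 ⊢
    have h5 : 0 ≤ √(T / t) := Real.sqrt_nonneg _
    have h6 : Real.exp (-x - √(T / t)) ≤ Real.exp (-(x / 2)) * Real.exp (-(T ^ (10 * ε) / 2)) := by
      rw [← Real.exp_add]
      exact Real.exp_le_exp.2 (by linarith)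
    have h7 : x * Real.exp (-(x / 2)) ≤ 2 := by
      have h8 : x / 2 ≤ Real.exp (x / 2) := by linarith [Real.add_one_le_exp (x / 2)]
      have h9 : Real.exp (-(x / 2)) * Real.exp (x / 2) = 1 := by
        rw [← Real.exp_add]
        simp
      have h10 : 0 < Real.exp (-(x / 2)) := Real.exp_pos _
      nlinarith
    have hx0 : 0 ≤ x := by rw [hx]; positivity
    have h7' : 0 ≤ √T := Real.sqrt_nonneg _
    rw [h4]
    calc √T * x * Real.exp (-x - √(T / t)) ≤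
          √T * x * (Real.exp (-(x / 2)) * Real.exp (-(T ^ (10 * ε) / 2))) := by gcongr
      _ = √T * (x * Real.exp (-(x / 2))) * Real.exp (-(T ^ (10 * ε) / 2)) := by ring
      _ ≤ √T * 2 * Real.exp (-(T ^ (10 * ε) / 2)) := by gcongr
      _ = _ := by ring

theorem Y4_small (ε : ℝ) (hε : 0 < ε) : ∃ T₀ : ℝ, 1 ≤ T₀ ∧ ∀ (T : ℝ), T₀ ≤ T → ∀ (G : ℝ) (n : ℕ), 0 ≤ G →
    (n : ℝ) ≤ T → ∀ k ∈ U6.box n, 0 < U6.q k → (U6.t0 k ≤ T ^ (1 - 20 * ε) ∨ T ^ (1 + 20 * ε) ≤ U6.t0 k) →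
    ‖U6.cf k * U6.E3main T G k‖ ≤ 1 / T ^ 3 := by
  have h := (isLittleO_log_rpow_atTop (show (0 : ℝ) < 10 * ε by positivity)).bound
    (show (0 : ℝ) < 1 / 20 by norm_num)
  obtain ⟨T₁, hT₁⟩ := Filter.eventually_atTop.1 h
  refine ⟨max T₁ 4, (by norm_num : (1 : ℝ) ≤ 4).trans (le_max_right _ _), ?_⟩
  intro T hT G n hG hn k hk hq ht
  have hT4 : 4 ≤ T := (le_max_right _ _).trans hT
  have hT1 : 1 ≤ T := by linarith
  have hT0 : 0 < T := by linarith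
  have h1 := hT₁ T ((le_max_left _ _).trans hT)
  rw [Real.norm_eq_abs, Real.norm_eq_abs, abs_of_nonneg (Real.log_nonneg hT1), abs_of_nonneg (by positivity)] at h1
  have h2 : Real.exp (-(T ^ (10 * ε) / 2)) ≤ 1 / T ^ 10 := by
    have e1 : (1 : ℝ) / T ^ 10 = Real.exp (-(10 * Real.log T)) := by
      rw [Real.exp_neg, mul_comm, Real.exp_mul, Real.exp_log hT0, one_div]
      congr 1
      exact (Real.rpow_natCast T 10).symm
    rw [e1]
    exact Real.exp_le_exp.2 (by linarith)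
  simp only [U6.box, Finset.mem_product, Finset.mem_Ico] at hk
  obtain ⟨⟨k1, k1'⟩, ⟨k2, k2'⟩, ⟨k3, k3'⟩⟩ := hk
  have hq' : (0 : ℝ) < (U6.q k : ℝ) := by exact_mod_cast hq
  have ht0 : 0 < U6.t0 k := by
    unfold U6.t0
    have c1 : (0 : ℝ) < k.1 := by exact_mod_cast k1
    have c2 : (0 : ℝ) < k.2.1 := by exact_mod_cast k2
    have c3 : (0 : ℝ) < k.2.2 := by exact_mod_cast k3
    positivity
  have h3 := Y4_E3main T G hG k k1 k2 k3
  have h4 := Y4_cf n k k1 k2 k3 k1'.le k2'.le k3'.le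
  have h5 := Y4_far T ε (U6.t0 k) hT1 hε ht0 ht
  have h6 : √T ≤ T := by
    rw [Real.sqrt_le_left hT0.le]
    nlinarith
  have h7 : ‖U6.E3main T G k‖ ≤ 2 * (2 * T * (1 / T ^ 10)) := by
    refine h3.trans ?_
    refine mul_le_mul_of_nonneg_left (h5.trans ?_) (by norm_num)
    gcongr
  rw [norm_mul]
  calc ‖U6.cf k‖ * ‖U6.E3main T G k‖ ≤ T ^ 3 * (2 * (2 * T * (1 / T ^ 10))) := by
        refine mul_le_mul (h4.trans ?_) h7 (norm_nonneg _) (by positivity)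
        gcongr
    _ = 4 / T ^ 6 := by
        field_simp
        ring
    _ ≤ 1 / T ^ 3 := by
        rw [div_le_div_iff₀ (by positivity) (by positivity)]
        have c1 : (4 : ℝ) ≤ T ^ 3 := by nlinarith [sq_nonneg T, mul_self_nonneg (T - 1)]
        calc 4 * T ^ 3 ≤ T ^ 3 * T ^ 3 := by gcongr
          _ = 1 * T ^ 6 := by ring

theorem Y4_card (n : ℕ) (T : ℝ) (hn : (n : ℝ) ≤ T) (S : Finset (ℕ × ℕ × ℕ)) (hS : S ⊆ U6.box n) :
    (S.card : ℝ) ≤ T ^ 3 := by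
  have h1 : S.card ≤ n ^ 3 := by
    refine (Finset.card_le_card hS).trans ?_
    unfold U6.box
    rw [Finset.card_product, Finset.card_product, Nat.card_Ico]
    calc (n - 1) * ((n - 1) * (n - 1)) ≤ n * (n * n) :=
          Nat.mul_le_mul (Nat.sub_le _ _) (Nat.mul_le_mul (Nat.sub_le _ _) (Nat.sub_le _ _))
      _ = n ^ 3 := by ring
  calc (S.card : ℝ) ≤ ((n ^ 3 : ℕ) : ℝ) := by exact_mod_cast h1
    _ = (n : ℝ) ^ 3 := by push_cast; rfl
    _ ≤ T ^ 3 := by gcongr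

/-- the sum over terms that are not resonant -/
theorem Y4_smallsum (n : ℕ) (T : ℝ) (hT : 1 ≤ T) (hn : (n : ℝ) ≤ T) (S : Finset (ℕ × ℕ × ℕ)) (hS : S ⊆ U6.box n)
    (g : ℕ × ℕ × ℕ → ℂ) (hg : ∀ k ∈ S, ‖g k‖ ≤ 1 / T ^ 3) : ‖∑ k ∈ S, g k‖ ≤ 1 := by
  have hT0 : 0 < T := by linarith
  calc ‖∑ k ∈ S, g k‖ ≤ ∑ k ∈ S, ‖g k‖ := norm_sum_le _ _
    _ ≤ S.card • (1 / T ^ 3) := Finset.sum_le_card_nsmul _ _ _ hg
    _ = (S.card : ℝ) * (1 / T ^ 3) := nsmul_eq_mul _ _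
    _ ≤ T ^ 3 * (1 / T ^ 3) := by
        have := Y4_card n T hn S hS
        gcongr
    _ = 1 := by field_simp

/-! ### the size of `t₀` -/

theorem Y4_t0 (k : ℕ × ℕ × ℕ) (h1 : 1 ≤ k.1) (h2 : 1 ≤ k.2.1) (h12 : k.1 ≤ 2 * k.2.1) (hb : k.1 + k.2.1 < k.2.2)
    (hq : 0 < U6.q k) (hθ : 0 < th k) : U6.t0 k * th k ≤ 4 * Real.pi * (k.1 * k.2.1) := by
  have c1 : (1 : ℝ) ≤ k.1 := by exact_mod_cast h1
  have c2 : (1 : ℝ) ≤ k.2.1 := by exact_mod_cast h2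
  have c12 : (k.1 : ℝ) ≤ 2 * k.2.1 := by exact_mod_cast h12
  have cb : (k.1 : ℝ) + k.2.1 ≤ k.2.2 := by exact_mod_cast hb.le
  have hq' : (0 : ℝ) < (U6.q k : ℝ) := by exact_mod_cast hq
  have e1 : (U6.q k : ℝ) = th k ^ 2 + 4 * th k * √((k.2.1 : ℝ) * k.2.2) := by
    have := qf_eq (k.1 : ℝ) (k.2.1 : ℝ) (k.2.2 : ℝ) (by linarith) (by linarith)
    unfold th
    rw [← this]
    unfold U6.q qf
    push_cast
    ring
  obtain ⟨a, ha⟩ : ∃ a : ℝ, a = √(k.2.1 : ℝ) := ⟨_, rfl⟩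
  obtain ⟨b, hb'⟩ : ∃ b : ℝ, b = √(k.2.2 : ℝ) := ⟨_, rfl⟩
  have ha2 : a ^ 2 = k.2.1 := by rw [ha]; exact Real.sq_sqrt (by linarith)
  have hb2 : b ^ 2 = k.2.2 := by rw [hb']; exact Real.sq_sqrt (by linarith)
  have ha0 : 0 ≤ a := by rw [ha]; positivity
  have hb0 : 0 ≤ b := by rw [hb']; positivity
  have hab : a ≤ b := by
    rw [ha, hb']
    exact Real.sqrt_le_sqrt (by linarith)
  have e2 : √((k.2.1 : ℝ) * k.2.2) = a * b := by
    rw [Real.sqrt_mul (by linarith), ← ha, ← hb']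
  have e3 : th k = (b - a) ^ 2 - k.1 := by
    unfold th x0
    rw [← ha, ← hb']
  have key : (k.2.2 : ℝ) ≤ 2 * (th k + 4 * (a * b)) := by
    rw [e3, ← hb2]
    have : (k.1 : ℝ) ≤ 2 * a ^ 2 := by rw [ha2]; exact c12
    nlinarith [mul_le_mul_of_nonneg_left hab ha0, mul_nonneg ha0 hb0, sq_nonneg (b - 2 * a)]
  rw [e2] at e1
  have e4 : U6.t0 k * th k = 2 * Real.pi * (k.1 * k.2.1 * k.2.2 : ℝ) / (th k + 4 * (a * b)) := by
    unfold U6.t0
    have hne : th k + 4 * (a * b) ≠ 0 := by positivity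
    have e5 : (U6.q k : ℝ) = th k * (th k + 4 * (a * b)) := by rw [e1]; ring
    rw [e5]
    field_simp
  rw [e4, div_le_iff₀ (by positivity)]
  have hpi := Real.pi_pos
  calc 2 * Real.pi * (k.1 * k.2.1 * k.2.2 : ℝ) ≤ 2 * Real.pi * (k.1 * k.2.1 * (2 * (th k + 4 * (a * b)))) := by
        gcongr
    _ = _ := by ring

/-! ### symmetry -/

theorem Y4_swap (T G : ℝ) (k : ℕ × ℕ × ℕ) :
    U6.cf (k.2.1, k.1, k.2.2) * U6.E3main T G (k.2.1, k.1, k.2.2) = U6.cf k * U6.E3main T G k := by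
  have hq : U6.q (k.2.1, k.1, k.2.2) = U6.q k := by
    unfold U6.q
    ring
  have ht : U6.t0 (k.2.1, k.1, k.2.2) = U6.t0 k := by
    unfold U6.t0
    rw [hq]
    simp only
    ring
  have hg : U6.ga G (k.2.1, k.1, k.2.2) = U6.ga G k := by
    unfold U6.ga
    simp only
    ring
  have hc : U6.cf (k.2.1, k.1, k.2.2) = U6.cf k := by
    unfold U6.cf
    simp only
    rw [Nat.add_comm k.2.1 k.1, Nat.mul_comm (U6.dv k.2.1) (U6.dv k.1), mul_comm (k.2.1 : ℝ) (k.1 : ℝ)]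
  rw [hc]
  unfold U6.E3main
  rw [hq, ht, hg]
  simp only
  rw [mul_comm (k.2.1 : ℝ) (k.1 : ℝ)]

theorem Y4_Bk_swap (i j n : ℕ) (k : ℕ × ℕ × ℕ) (hk : k ∈ Bk i j n) : (k.2.1, k.1, k.2.2) ∈ Bk j i n := by
  unfold Bk at hk ⊢
  rw [Finset.mem_filter] at hk ⊢
  obtain ⟨h1, h2, h3, h4, h5⟩ := hk
  simp only [U6.box, Finset.mem_product] at h1 ⊢
  refine ⟨⟨h1.2.1, h1.1, h1.2.2⟩, h3, h2, ?_, ?_⟩
  · have hq : U6.q (k.2.1, k.1, k.2.2) = U6.q k := by
      unfold U6.q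
      ring
    rw [hq]
    exact h4
  · show k.2.1 + k.1 < k.2.2
    omega

theorem Y4_sum_swap (T G : ℝ) (i j n : ℕ) :
    ∑ k ∈ Bk i j n, U6.cf k * U6.E3main T G k = ∑ k ∈ Bk j i n, U6.cf k * U6.E3main T G k := by
  refine Finset.sum_nbij' (fun k => (k.2.1, k.1, k.2.2)) (fun k => (k.2.1, k.1, k.2.2)) ?_ ?_ ?_ ?_ ?_
  · intro k hk
    exact Y4_Bk_swap i j n k hk
  · intro k hk
    exact Y4_Bk_swap j i n k hk
  · intro k _
    rfl
  · intro k _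
    rfl
  · intro k _
    exact (Y4_swap T G k).symm

/-! ### bounds for `KK` -/

theorem Y4_KK (η ε : ℝ) (hη : 0 < η) (_hη1 : η < 1 / 84) (hε : 0 < ε) (hε1 : ε ≤ (1 / 84 - η) / 100) :
    ∃ T₀ : ℝ, 1 ≤ T₀ ∧ ∀ T : ℝ, T₀ ≤ T → (U6.KK η ε T : ℝ) ≤ T ∧
      (U6.KK η ε T : ℝ) ≤ T ^ (1 / 2 + 2 * η + 5 * ε) ∧ (U6.KK η ε T : ℝ) ≤ 2 * T ^ (1 / 2 + 2 * η + 4 * ε) := by
  obtain ⟨T₁, h1⟩ := U6.B10_pow 2 (1 / 2 + 2 * η + 4 * ε) 1 (by linarith)
  obtain ⟨T₂, h2⟩ := U6.B10_pow 2 (1 / 2 + 2 * η + 4 * ε) (1 / 2 + 2 * η + 5 * ε) (by linarith)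
  refine ⟨max 1 (max T₁ T₂), le_max_left _ _, ?_⟩
  intro T hT
  have hT1 : 1 ≤ T := (le_max_left _ _).trans hT
  have a1 := h1 T ((le_max_left _ _).trans ((le_max_right _ _).trans hT))
  have a2 := h2 T ((le_max_right _ _).trans ((le_max_right _ _).trans hT))
  rw [Real.rpow_one] at a1
  have a3 : (U6.KK η ε T : ℝ) ≤ 2 * T ^ (1 / 2 + 2 * η + 4 * ε) := by
    unfold U6.KK
    have b1 : 1 ≤ T ^ (1 / 2 + 2 * η + 4 * ε) := Real.one_le_rpow hT1 (by linarith)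
    have b2 := (Nat.ceil_lt_add_one (show 0 ≤ T ^ (1 / 2 + 2 * η + 4 * ε) by linarith)).le
    linarith
  exact ⟨a3.trans a1, a3.trans a2, a3⟩

/-! ### a block with `i ≤ j` -/

theorem Y4_pos (η ε : ℝ) (T : ℝ) (hT : 1 ≤ T) (i j : ℕ) (k : ℕ × ℕ × ℕ) (hk : k ∈ Bk i j (U6.KK η ε T)) :
    0 < th k := by
  unfold Bk at hk
  rw [Finset.mem_filter] at hk
  obtain ⟨h1, h2, h3, h4, h5⟩ := hk
  simp only [U6.box, Finset.mem_product, Finset.mem_Ico] at h1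
  exact (term_eq T 0 hT k h1.1.1 h1.2.1.1 h4 h5).1

theorem Y4_th_le (n i j : ℕ) (k : ℕ × ℕ × ℕ) (hk : k ∈ Bk i j n) : th k ≤ n := by
  unfold Bk at hk
  rw [Finset.mem_filter] at hk
  obtain ⟨h1, h2, h3, h4, h5⟩ := hk
  simp only [U6.box, Finset.mem_product, Finset.mem_Ico] at h1
  unfold th x0
  have a1 : (0 : ℝ) ≤ k.1 := Nat.cast_nonneg _
  have a2 : √(k.2.1 : ℝ) ≤ √(k.2.2 : ℝ) := Real.sqrt_le_sqrt (by exact_mod_cast (by omega : k.2.1 ≤ k.2.2))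
  have a3 : 0 ≤ √(k.2.1 : ℝ) := Real.sqrt_nonneg _
  have a4 : √(k.2.2 : ℝ) ^ 2 = k.2.2 := Real.sq_sqrt (Nat.cast_nonneg _)
  have a5 : (k.2.2 : ℝ) ≤ n := by exact_mod_cast h1.2.2.2.le
  nlinarith

theorem Y4_block (η ε : ℝ) (hη : 0 < η) (hη1 : η < 1 / 84) (hε : 0 < ε) (hε1 : ε ≤ (1 / 84 - η) / 100) :
    ∃ C T₀ : ℝ, 1 ≤ C ∧ 1 ≤ T₀ ∧ ∀ (T : ℝ) (i j : ℕ), T₀ ≤ T → i ≤ j → (2 : ℝ) ^ j ≤ U6.KK η ε T →
    ‖∑ k ∈ Bk i j (U6.KK η ε T), U6.cf k * U6.E3main T (U6.GG η T) k‖ ≤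
      C * ((Nat.log 2 (U6.KK η ε T) : ℝ) + 2) * (T ^ (1 / 2 + 4 * ε) * √((2 : ℝ) ^ j)) := by
  obtain ⟨C₁, T₁, hC₁, hT₁, H₁⟩ := block_low η ε hη hη1 hε hε1
  obtain ⟨C₂, T₂, hC₂, hT₂, H₂⟩ := block_cone η ε hη hη1 hε hε1
  obtain ⟨T₃, hT₃, H₃⟩ := Y4_small ε hε
  obtain ⟨T₄, hT₄, H₄⟩ := Y4_KK η ε hη hη1 hε hε1
  obtain ⟨T₅, H₅⟩ := U6.B10_pow (16 * Real.pi) (1 - 30 * ε) (1 - 20 * ε) (by linarith)
  refine ⟨max C₁ C₂, max T₁ (max T₂ (max T₃ (max T₄ T₅))), hC₁.trans (le_max_left _ _), hT₁.trans (le_max_left _ _), ?_⟩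
  intro T i j hT hij hj
  have t1 : T₁ ≤ T := (le_max_left _ _).trans hT
  have hT' := (le_max_right _ _).trans hT
  have t2 : T₂ ≤ T := (le_max_left _ _).trans hT'
  have hT'' := (le_max_right _ _).trans hT'
  have t3 : T₃ ≤ T := (le_max_left _ _).trans hT''
  have hT''' := (le_max_right _ _).trans hT''
  have t4 : T₄ ≤ T := (le_max_left _ _).trans hT'''
  have t5 : T₅ ≤ T := (le_max_right _ _).trans hT'''
  have hT1 : 1 ≤ T := hT₁.trans t1
  have hT0 : 0 < T := by linarith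
  obtain ⟨n1, n2, -⟩ := H₄ T t4
  have h5 := H₅ T t5
  have hG : 0 ≤ U6.GG η T := by unfold U6.GG; positivity
  obtain ⟨n, hn⟩ : ∃ n, n = U6.KK η ε T := ⟨_, rfl⟩
  obtain ⟨G, hGdef⟩ : ∃ G, G = U6.GG η T := ⟨_, rfl⟩
  obtain ⟨f, hf⟩ : ∃ f : ℕ × ℕ × ℕ → ℂ, f = fun k => U6.cf k * U6.E3main T (U6.GG η T) k := ⟨_, rfl⟩
  obtain ⟨X, hX⟩ : ∃ X : ℝ, X = T ^ (1 / 2 + 4 * ε) * √((2 : ℝ) ^ j) := ⟨_, rfl⟩
  have hX1 : 1 ≤ X := by
    rw [hX]
    have b1 : 1 ≤ T ^ (1 / 2 + 4 * ε) := Real.one_le_rpow hT1 (by linarith)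
    have b2 : 1 ≤ √((2 : ℝ) ^ j) := by
      rw [Real.one_le_sqrt]
      exact one_le_pow₀ (by norm_num)
    calc (1 : ℝ) = 1 * 1 := by norm_num
      _ ≤ _ := by gcongr
  have l1 := H₁ T i j t1 hij
  -- the sum over the tent of index `s`
  have l2 : ∀ s : ℕ, ‖∑ k ∈ Bk i j n, (tent (Real.logb 2 (th k) - (s + 1)) : ℂ) * f k‖ ≤ max C₁ C₂ * X := by
    intro s
    by_cases hs : (2 : ℝ) ^ s * 2 ^ (j - i) ≤ ((2 : ℝ) ^ j) ^ 2 * T ^ (-1 + 30 * ε)
    · have := H₂ T i j s t2 hij (hj.trans n2) hs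
      rw [hn, hf, hX]
      refine this.trans ?_
      rw [mul_assoc]
      exact mul_le_mul_of_nonneg_right (le_max_right _ _) (by positivity)
    · push Not at hs
      have b1 : ‖∑ k ∈ Bk i j n, (tent (Real.logb 2 (th k) - (s + 1)) : ℂ) * f k‖ ≤ 1 := by
        refine Y4_smallsum n T hT1 (by rw [hn]; exact n1) _ (Finset.filter_subset _ _) _ ?_
        intro k hk
        by_cases ht : tent (Real.logb 2 (th k) - (s + 1)) = 0
        · rw [ht]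
          simp only [Complex.ofReal_zero, zero_mul, norm_zero]
          positivity
        · have hθ : 0 < th k := by
            refine Y4_pos η ε T hT1 i j k ?_
            rw [← hn]
            exact hk
          have c1 := abs_lt.1 (tent_ne ht)
          have c2 : (s : ℝ) < Real.logb 2 (th k) := by linarith [c1.1]
          have c3 : (2 : ℝ) ^ s < th k := by
            rw [Real.lt_logb_iff_rpow_lt (by norm_num) hθ, Real.rpow_natCast] at c2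
            exact c2
          have hk' := hk
          rw [Finset.mem_filter] at hk'
          obtain ⟨h1, h2, h3, h4, h6⟩ := hk'
          have h1' := h1
          simp only [U6.box, Finset.mem_product, Finset.mem_Ico] at h1'
          have d1 := U6.B10_low k.2.1 j h1'.2.1.1 h3
          have d2 := U6.B10_up k.1 i h2
          have d3 := U6.B10_up k.2.1 j h3
          have d0 : k.1 ≤ 2 * k.2.1 := by
            have : (k.1 : ℝ) ≤ 2 * k.2.1 := by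
              have d4 : (2 : ℝ) ^ i ≤ 2 ^ j := pow_le_pow_right₀ (by norm_num) hij
              linarith
            exact_mod_cast this
          have d5 := Y4_t0 k h1'.1.1 h1'.2.1.1 d0 h6 h4 hθ
          have hpi := Real.pi_pos
          have e1 : (2 : ℝ) ^ (j - i) * 2 ^ i = 2 ^ j := by
            rw [← pow_add]
            congr 1
            omega
          have e2 : (2 : ℝ) ^ i * 2 ^ j ≤ 2 ^ s * T ^ (1 - 30 * ε) := by
            have e3 : T ^ (-1 + 30 * ε) * T ^ (1 - 30 * ε) = 1 := by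
              rw [← Real.rpow_add hT0]
              have : (-1 + 30 * ε) + (1 - 30 * ε) = 0 := by ring
              rw [this, Real.rpow_zero]
            have e4 : (0 : ℝ) < 2 ^ j := by positivity
            have e5 : 0 < T ^ (1 - 30 * ε) := by positivity
            have e6 : ((2 : ℝ) ^ j) * ((2 : ℝ) ^ i * 2 ^ j) ≤ ((2 : ℝ) ^ j) * (2 ^ s * T ^ (1 - 30 * ε)) := by
              calc ((2 : ℝ) ^ j) * ((2 : ℝ) ^ i * 2 ^ j) =
                    (((2 : ℝ) ^ j) ^ 2 * T ^ (-1 + 30 * ε)) * T ^ (1 - 30 * ε) * 2 ^ i := by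
                    rw [mul_assoc _ (T ^ (-1 + 30 * ε)), e3]
                    ring
                _ ≤ ((2 : ℝ) ^ s * 2 ^ (j - i)) * T ^ (1 - 30 * ε) * 2 ^ i := by gcongr
                _ = (((2 : ℝ) ^ (j - i)) * 2 ^ i) * (2 ^ s * T ^ (1 - 30 * ε)) := by ring
                _ = _ := by rw [e1]
            exact le_of_mul_le_mul_left e6 e4
          have e7 : U6.t0 k ≤ T ^ (1 - 20 * ε) := by
            have e8 : U6.t0 k * th k ≤ (16 * Real.pi * T ^ (1 - 30 * ε)) * th k := by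
              calc U6.t0 k * th k ≤ 4 * Real.pi * (k.1 * k.2.1) := d5
                _ ≤ 4 * Real.pi * ((2 * 2 ^ i) * (2 * 2 ^ j)) := by gcongr
                _ = 16 * Real.pi * (2 ^ i * 2 ^ j) := by ring
                _ ≤ 16 * Real.pi * (2 ^ s * T ^ (1 - 30 * ε)) := by gcongr
                _ = (16 * Real.pi * T ^ (1 - 30 * ε)) * 2 ^ s := by ring
                _ ≤ _ := by gcongr
            exact (le_of_mul_le_mul_right e8 hθ).trans h5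
          have e9 := H₃ T t3 G n (by rw [hGdef]; exact hG) (by rw [hn]; exact n1) k h1 h4 (Or.inl e7)
          have e10 : ‖f k‖ ≤ 1 / T ^ 3 := by
            rw [hf]
            simp only
            rw [← hGdef]
            exact e9
          rw [norm_mul, Complex.norm_real, Real.norm_eq_abs, abs_of_nonneg (tent_nonneg _)]
          calc tent (Real.logb 2 (th k) - (s + 1)) * ‖f k‖ ≤ 1 * ‖f k‖ := by
                have := tent_le_one (Real.logb 2 (th k) - (s + 1))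
                gcongr
            _ = ‖f k‖ := one_mul _
            _ ≤ _ := e10
      refine b1.trans ?_
      have b2 : 1 ≤ max C₁ C₂ := hC₁.trans (le_max_left _ _)
      calc (1 : ℝ) = 1 * 1 := by norm_num
        _ ≤ _ := by gcongr
  -- the decomposition
  have l3 : ∑ k ∈ Bk i j n, f k = ∑ k ∈ Bk i j n, ((1 - max 0 (min 1 (Real.logb 2 (th k))) : ℝ) : ℂ) * f k +
      ∑ s ∈ range (Nat.log 2 n + 1), ∑ k ∈ Bk i j n, (tent (Real.logb 2 (th k) - (s + 1)) : ℂ) * f k := by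
    rw [Finset.sum_comm, ← Finset.sum_add_distrib]
    refine Finset.sum_congr rfl ?_
    intro k hk
    have hθ : 0 < th k := by
      refine Y4_pos η ε T hT1 i j k ?_
      rw [← hn]
      exact hk
    have hle : Real.logb 2 (th k) ≤ ((Nat.log 2 n + 1 : ℕ) : ℝ) := by
      rw [Real.logb_le_iff_le_rpow (by norm_num) hθ, Real.rpow_natCast]
      refine (Y4_th_le n i j k hk).trans ?_
      exact_mod_cast (Nat.lt_pow_succ_log_self (by norm_num : 1 < 2) n).le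
    have hp := Y4_pou (Nat.log 2 n + 1) (Real.logb 2 (th k)) hle
    rw [← Finset.sum_mul, ← add_mul]
    have hp' : ∑ s ∈ range (Nat.log 2 n + 1), (tent (Real.logb 2 (th k) - (s + 1)) : ℂ) =
        ((max 0 (min 1 (Real.logb 2 (th k))) : ℝ) : ℂ) := by
      rw [← hp]
      push_cast
      rfl
    rw [hp', ← Complex.ofReal_add]
    rw [sub_add_cancel, Complex.ofReal_one, one_mul]
  have l4 : ‖∑ k ∈ Bk i j n, ((1 - max 0 (min 1 (Real.logb 2 (th k))) : ℝ) : ℂ) * f k‖ ≤ max C₁ C₂ * X := by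
    have b1 : ‖∑ k ∈ Bk i j n, ((1 - max 0 (min 1 (Real.logb 2 (th k))) : ℝ) : ℂ) * f k‖ ≤
        ∑ k ∈ (Bk i j n).filter (fun k => th k ≤ 2), ‖f k‖ := by
      refine (norm_sum_le _ _).trans ?_
      rw [Finset.sum_filter]
      refine Finset.sum_le_sum ?_
      intro k hk
      have hθ : 0 < th k := by
        refine Y4_pos η ε T hT1 i j k ?_
        rw [← hn]
        exact hk
      rw [norm_mul, Complex.norm_real, Real.norm_eq_abs]
      have c0 : 0 ≤ max 0 (min 1 (Real.logb 2 (th k))) := le_max_left _ _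
      have c1 : max 0 (min 1 (Real.logb 2 (th k))) ≤ 1 := max_le zero_le_one (min_le_left _ _)
      rw [abs_of_nonneg (by linarith)]
      split_ifs with h
      · calc (1 - max 0 (min 1 (Real.logb 2 (th k)))) * ‖f k‖ ≤ 1 * ‖f k‖ := by
              gcongr
              linarith
          _ = ‖f k‖ := one_mul _
      · push Not at h
        have c2 : 1 ≤ Real.logb 2 (th k) := by
          rw [Real.le_logb_iff_rpow_le (by norm_num) hθ, Real.rpow_one]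
          exact h.le
        rw [min_eq_left c2, max_eq_right zero_le_one]
        simp
    refine b1.trans ?_
    rw [hf, hn, hX]
    refine l1.trans ?_
    rw [mul_assoc]
    exact mul_le_mul_of_nonneg_right (le_max_left _ _) (by positivity)
  have l5 : ∑ k ∈ Bk i j (U6.KK η ε T), U6.cf k * U6.E3main T (U6.GG η T) k = ∑ k ∈ Bk i j n, f k := by
    rw [hf, hn]
  rw [l5, ← hn, ← hX, l3]
  calc _ ≤ ‖∑ k ∈ Bk i j n, ((1 - max 0 (min 1 (Real.logb 2 (th k))) : ℝ) : ℂ) * f k‖ +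
        ∑ s ∈ range (Nat.log 2 n + 1), ‖∑ k ∈ Bk i j n, (tent (Real.logb 2 (th k) - (s + 1)) : ℂ) * f k‖ :=
        (norm_add_le _ _).trans (by gcongr; exact norm_sum_le _ _)
    _ ≤ max C₁ C₂ * X + (Nat.log 2 n + 1 : ℕ) • (max C₁ C₂ * X) := by
        gcongr
        refine (Finset.sum_le_card_nsmul _ _ _ (fun s _ => l2 s)).trans (le_of_eq ?_)
        rw [Finset.card_range]
    _ = _ := by
        rw [nsmul_eq_mul]
        push_cast
        ring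

/-- a block -/
theorem Y4_block' (η ε : ℝ) (hη : 0 < η) (hη1 : η < 1 / 84) (hε : 0 < ε) (hε1 : ε ≤ (1 / 84 - η) / 100) :
    ∃ C T₀ : ℝ, 1 ≤ C ∧ 1 ≤ T₀ ∧ ∀ (T : ℝ) (i j : ℕ), T₀ ≤ T →
    ‖∑ k ∈ Bk i j (U6.KK η ε T), U6.cf k * U6.E3main T (U6.GG η T) k‖ ≤
      C * ((Nat.log 2 (U6.KK η ε T) : ℝ) + 2) * (T ^ (1 / 2 + 4 * ε) * √(U6.KK η ε T : ℝ)) := by
  obtain ⟨C, T₀, hC, hT₀, H⟩ := Y4_block η ε hη hη1 hε hε1
  refine ⟨C, T₀, hC, hT₀, ?_⟩
  intro T i j hT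
  have hT0 : 0 < T := by linarith
  have hC0 : 0 < C := by linarith
  rcases (Bk i j (U6.KK η ε T)).eq_empty_or_nonempty with h | h
  · rw [h]
    simp only [Finset.sum_empty, norm_zero]
    positivity
  · obtain ⟨k, hk⟩ := h
    unfold Bk at hk
    rw [Finset.mem_filter] at hk
    obtain ⟨h1, h2, h3, h4, h6⟩ := hk
    simp only [U6.box, Finset.mem_product, Finset.mem_Ico] at h1
    have d1 := U6.B10_low k.1 i h1.1.1 h2
    have d2 := U6.B10_low k.2.1 j h1.2.1.1 h3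
    have d3 : (k.1 : ℝ) ≤ U6.KK η ε T := by exact_mod_cast h1.1.2.le
    have d4 : (k.2.1 : ℝ) ≤ U6.KK η ε T := by exact_mod_cast h1.2.1.2.le
    rcases le_total i j with hij | hij
    · refine (H T i j hT hij (d2.trans d4)).trans ?_
      have d5 : √((2 : ℝ) ^ j) ≤ √(U6.KK η ε T : ℝ) := Real.sqrt_le_sqrt (d2.trans d4)
      gcongr
    · rw [Y4_sum_swap]
      refine (H T j i hT hij (d1.trans d3)).trans ?_
      have d5 : √((2 : ℝ) ^ i) ≤ √(U6.KK η ε T : ℝ) := Real.sqrt_le_sqrt (d1.trans d3)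
      gcongr

open Classical in
/-- Put `n = KK η ε T`, `f k = cf k · E3main`. 1. The triples of the box with `q > 0`, `k₁+k₂ < k₃` that are not
resonant contribute at most `T^{10} exp(-T^{10ε}) ≤ 1`. 2. The rest = sum over `i, j ≤ log₂ n` of the blocks `Bk i j n`;
for `i > j` exchange `k₁` and `k₂` (`cf`, `E3main`, `q` are symmetric). 3. In a block with `i ≤ j`:
`1 = low(θ) + ∑_{s ≤ S} tent(logb 2 θ - (s+1))`, `0 ≤ low ≤ 1`, `low = 0` for `θ ≥ 2` (`2^S ≥ n`): `block_low`,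
`block_cone` if `2^s 2^{j-i} ≤ 4^j T^{-1+30ε}`; otherwise `t₀ ≤ C 4^j/(2^{j-i} 2^s) ≤ T^{1-29ε}` and `|f| ≤
T exp(-T^{14ε})`. There are at most `T^{ε}` triples `(i,j,s)` and `√(2^j) ≤ T^{1/4+η+2ε}`. -/
theorem main_all (η ε : ℝ) (hη : 0 < η) (hη1 : η < 1 / 84) (hε : 0 < ε) (hε1 : ε ≤ (1 / 84 - η) / 100) :
    ∃ T₀ : ℝ, ∀ T : ℝ, T₀ ≤ T →
    ‖∑ k ∈ (U6.box (U6.KK η ε T)).filter (U6.Res T ε), U6.cf k * U6.E3main T (U6.GG η T) k‖ ≤
      T ^ (3 / 4 + η + 10 * ε) := by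
  obtain ⟨C, T₁, hC, hT₁, H₁⟩ := Y4_block' η ε hη hη1 hε hε1
  obtain ⟨T₃, hT₃, H₃⟩ := Y4_small ε hε
  obtain ⟨T₄, hT₄, H₄⟩ := Y4_KK η ε hη hη1 hε hε1
  obtain ⟨D, hD, H₅⟩ := U6.B10_log ε hε (by linarith)
  obtain ⟨T₆, H₆⟩ := U6.B10_pow (16 * C * D + 1) (3 / 4 + η + 7 * ε) (3 / 4 + η + 10 * ε) (by linarith)
  refine ⟨max T₁ (max T₃ (max T₄ T₆)), ?_⟩
  intro T hT
  have t1 : T₁ ≤ T := (le_max_left _ _).trans hT
  have hT' := (le_max_right _ _).trans hT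
  have t3 : T₃ ≤ T := (le_max_left _ _).trans hT'
  have hT'' := (le_max_right _ _).trans hT'
  have t4 : T₄ ≤ T := (le_max_left _ _).trans hT''
  have t6 : T₆ ≤ T := (le_max_right _ _).trans hT''
  have hT1 : 1 ≤ T := hT₁.trans t1
  have hT0 : 0 < T := by linarith
  obtain ⟨n1, -, n3⟩ := H₄ T t4
  have hG : 0 ≤ U6.GG η T := by unfold U6.GG; positivity
  have h6 := H₆ T t6
  have h1 := H₁ T
  obtain ⟨n, hn⟩ : ∃ n, n = U6.KK η ε T := ⟨_, rfl⟩
  obtain ⟨f, hf⟩ : ∃ f : ℕ × ℕ × ℕ → ℂ, f = fun k => U6.cf k * U6.E3main T (U6.GG η T) k := ⟨_, rfl⟩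
  rw [← hn] at n1 n3 ⊢
  obtain ⟨P, hP⟩ : ∃ P : Finset (ℕ × ℕ × ℕ), P = (U6.box n).filter (fun k => 0 < U6.q k ∧ k.1 + k.2.1 < k.2.2) :=
    ⟨_, rfl⟩
  have s1 : ∑ k ∈ (U6.box n).filter (U6.Res T ε), U6.cf k * U6.E3main T (U6.GG η T) k =
      ∑ k ∈ P, f k - ∑ k ∈ P.filter (fun k => ¬ U6.Res T ε k), f k := by
    rw [eq_sub_iff_add_eq, ← Finset.sum_filter_add_sum_filter_not P (U6.Res T ε) f]
    congr 1
    have : P.filter (U6.Res T ε) = (U6.box n).filter (U6.Res T ε) := by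
      rw [hP]
      ext k
      simp only [Finset.mem_filter]
      constructor
      · rintro ⟨⟨a, b⟩, c⟩
        exact ⟨a, c⟩
      · rintro ⟨a, c⟩
        exact ⟨⟨a, c.1, c.2.1⟩, c⟩
    rw [this, hf]
  have s2 : ‖∑ k ∈ P.filter (fun k => ¬ U6.Res T ε k), f k‖ ≤ 1 := by
    refine Y4_smallsum n T hT1 n1 _ ?_ f ?_
    · refine (Finset.filter_subset _ _).trans ?_
      rw [hP]
      exact Finset.filter_subset _ _
    · intro k hk
      rw [hP, Finset.mem_filter, Finset.mem_filter] at hk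
      obtain ⟨⟨a, b, c⟩, d⟩ := hk
      have : U6.t0 k ≤ T ^ (1 - 20 * ε) ∨ T ^ (1 + 20 * ε) ≤ U6.t0 k := by
        by_contra hcon
        push Not at hcon
        exact d ⟨b, c, hcon.1.le, hcon.2.le⟩
      rw [hf]
      exact H₃ T t3 _ n hG n1 k a b this
  have s3 : ∑ k ∈ P, f k = ∑ ij ∈ range (Nat.log 2 n + 1) ×ˢ range (Nat.log 2 n + 1),
      ∑ k ∈ Bk ij.1 ij.2 n, f k := by
    have hmap : ∀ k ∈ P, (fun k : ℕ × ℕ × ℕ => (Nat.log 2 k.1, Nat.log 2 k.2.1)) k ∈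
        range (Nat.log 2 n + 1) ×ˢ range (Nat.log 2 n + 1) := by
      intro k hk
      rw [hP, Finset.mem_filter] at hk
      have h1 := hk.1
      simp only [U6.box, Finset.mem_product, Finset.mem_Ico] at h1
      simp only [Finset.mem_product, Finset.mem_range]
      exact ⟨Nat.lt_succ_of_le (Nat.log_mono_right h1.1.2.le), Nat.lt_succ_of_le (Nat.log_mono_right h1.2.1.2.le)⟩
    rw [← Finset.sum_fiberwise_of_maps_to hmap]
    refine Finset.sum_congr rfl ?_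
    rintro ⟨i, j⟩ -
    refine Finset.sum_congr ?_ (fun _ _ => rfl)
    rw [hP]
    unfold Bk
    ext k
    simp only [Finset.mem_filter, Prod.mk.injEq]
    tauto
  have s4 : ‖∑ k ∈ P, f k‖ ≤ ((Nat.log 2 n : ℝ) + 1) ^ 2 *
      (C * ((Nat.log 2 n : ℝ) + 2) * (T ^ (1 / 2 + 4 * ε) * √(n : ℝ))) := by
    rw [s3]
    refine (norm_sum_le _ _).trans ?_
    refine (Finset.sum_le_card_nsmul _ _ (C * ((Nat.log 2 n : ℝ) + 2) * (T ^ (1 / 2 + 4 * ε) * √(n : ℝ))) ?_).trans ?_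
    · rintro ⟨i, j⟩ -
      rw [hf, hn]
      exact h1 i j t1
    · rw [Finset.card_product, Finset.card_range, nsmul_eq_mul]
      apply le_of_eq
      push_cast
      ring
  have s5 : √(n : ℝ) ≤ 2 * T ^ (1 / 4 + η + 2 * ε) := by
    rw [Real.sqrt_le_left (by positivity)]
    refine n3.trans ?_
    have e1 : (T ^ (1 / 4 + η + 2 * ε)) ^ 2 = T ^ (1 / 2 + 2 * η + 4 * ε) := by
      rw [← Real.rpow_natCast, ← Real.rpow_mul hT0.le]
      congr 1
      push_cast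
      ring
    rw [mul_pow, e1]
    have : 0 < T ^ (1 / 2 + 2 * η + 4 * ε) := by positivity
    linarith
  have s6 := H₅ n T hT1 n1
  have s7 : ((Nat.log 2 n : ℝ) + 1) ^ 2 * ((Nat.log 2 n : ℝ) + 2) ≤ 2 * ((Nat.log 2 n : ℝ) + 1) ^ 3 := by
    have a0 : (0 : ℝ) ≤ Nat.log 2 n := Nat.cast_nonneg _
    have a1 : (Nat.log 2 n : ℝ) + 2 ≤ 2 * ((Nat.log 2 n : ℝ) + 1) := by linarith
    calc ((Nat.log 2 n : ℝ) + 1) ^ 2 * ((Nat.log 2 n : ℝ) + 2) ≤
          ((Nat.log 2 n : ℝ) + 1) ^ 2 * (2 * ((Nat.log 2 n : ℝ) + 1)) := by gcongr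
      _ = _ := by ring
  rw [s1]
  have hCpos : 0 < C := by linarith
  have e8 : T ^ ε * (T ^ (1 / 2 + 4 * ε) * T ^ (1 / 4 + η + 2 * ε)) = T ^ (3 / 4 + η + 7 * ε) := by
    rw [← Real.rpow_add hT0, ← Real.rpow_add hT0]
    congr 1
    ring
  have e9 : 1 ≤ T ^ (3 / 4 + η + 7 * ε) := Real.one_le_rpow hT1 (by linarith)
  calc ‖∑ k ∈ P, f k - ∑ k ∈ P.filter (fun k => ¬ U6.Res T ε k), f k‖ ≤
        ‖∑ k ∈ P, f k‖ + ‖∑ k ∈ P.filter (fun k => ¬ U6.Res T ε k), f k‖ := norm_sub_le _ _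
    _ ≤ ((Nat.log 2 n : ℝ) + 1) ^ 2 *
      (C * ((Nat.log 2 n : ℝ) + 2) * (T ^ (1 / 2 + 4 * ε) * √(n : ℝ))) + 1 := add_le_add s4 s2
    _ = C * (((Nat.log 2 n : ℝ) + 1) ^ 2 * ((Nat.log 2 n : ℝ) + 2)) * (T ^ (1 / 2 + 4 * ε) * √(n : ℝ)) + 1 := by
        ring
    _ ≤ C * (2 * (D * T ^ ε)) * (T ^ (1 / 2 + 4 * ε) * (2 * T ^ (1 / 4 + η + 2 * ε))) + 1 := by
        have s8 : ((Nat.log 2 n : ℝ) + 1) ^ 2 * ((Nat.log 2 n : ℝ) + 2) ≤ 2 * (D * T ^ ε) := by linarith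
        gcongr
    _ = 4 * C * D * (T ^ ε * (T ^ (1 / 2 + 4 * ε) * T ^ (1 / 4 + η + 2 * ε))) + 1 := by ring
    _ = 4 * C * D * T ^ (3 / 4 + η + 7 * ε) + 1 := by rw [e8]
    _ ≤ (16 * C * D + 1) * T ^ (3 / 4 + η + 7 * ε) := by
        have e10 : 0 ≤ C * D * T ^ (3 / 4 + η + 7 * ε) := by positivity
        linarith
    _ ≤ _ := h6

end TS
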