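import Pool.Agent.Lib.MP_39df77_nt.TS.Defs

/-!
Row TS-D: one Cauchy-Schwarz, in general form.
-/

set_option autoImplicit false

namespace TS

open Finset

private theorem D_shift (A D : Finset ℤ) (k : ℤ) (h : ∀ k' ∈ A, k' - k ∈ D) (G : ℤ → ℂ) :
    ∑ k' ∈ A, G k' = ∑ e ∈ D, if k + e ∈ A then G (k + e) else 0 := by
  rw [← Finset.sum_filter]
  refine Finset.sum_nbij' (fun k' => k' - k) (fun e => k + e) ?_ ?_ ?_ ?_ ?_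
  · intro k' hk'
    rw [Finset.mem_filter]
    exact ⟨h k' hk', by simpa using hk'⟩
  · intro e he
    exact (Finset.mem_filter.1 he).2
  · intro k' _
    simp
  · intro e _
    simp
  · intro k' _
    simp

private theorem D_class (L : ℕ) (hL : 1 ≤ L) (k k' : ℤ) (h : k' / (L : ℤ) = k / (L : ℤ)) :
    k' - k ∈ Ioo (-(L : ℤ)) L := by
  have hL' : (0 : ℤ) < L := by exact_mod_cast hL
  rw [Finset.mem_Ioo]
  have h1 := Int.mul_ediv_add_emod k (L : ℤ)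
  have h2 := Int.mul_ediv_add_emod k' (L : ℤ)
  have h3 := Int.emod_nonneg k hL'.ne'
  have h4 := Int.emod_nonneg k' hL'.ne'
  have h5 := Int.emod_lt_of_pos k hL'
  have h6 := Int.emod_lt_of_pos k' hL'
  rw [h] at h2
  constructor <;> linarith

private theorem D_expand (Z2 Z3 D2 : Finset ℤ) (L : ℕ) (hL : 1 ≤ L)
    (hD : ∀ k ∈ Z2, ∀ k' ∈ Z2, k' - k ∈ D2) (F : ℤ → ℤ → ℂ) :
    ∑ j ∈ Z3.image (fun k => k / (L : ℤ)),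
      (∑ k2 ∈ Z2, ∑ k3 ∈ Z3 with k3 / (L : ℤ) = j, F k2 k3) *
        (starRingEnd ℂ) (∑ k2 ∈ Z2, ∑ k3 ∈ Z3 with k3 / (L : ℤ) = j, F k2 k3) =
    ∑ z ∈ D2 ×ˢ Ioo (-(L : ℤ)) L, ∑ k2 ∈ Z2, ∑ k3 ∈ Z3,
      if k2 + z.1 ∈ Z2 ∧ k3 + z.2 ∈ Z3 ∧ k3 / (L : ℤ) = (k3 + z.2) / (L : ℤ) then
        F k2 k3 * (starRingEnd ℂ) (F (k2 + z.1) (k3 + z.2)) else 0 := by
  set T : ℤ → ℂ := fun j => ∑ k2 ∈ Z2, ∑ k3 ∈ Z3 with k3 / (L : ℤ) = j, F k2 k3 with hT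
  have h1 : ∀ j ∈ Z3.image (fun k => k / (L : ℤ)), T j * (starRingEnd ℂ) (T j) =
      ∑ k3 ∈ Z3 with k3 / (L : ℤ) = j, ∑ k2 ∈ Z2, F k2 k3 * (starRingEnd ℂ) (T (k3 / (L : ℤ))) := by
    intro j _
    have h2 : T j = ∑ k3 ∈ Z3 with k3 / (L : ℤ) = j, ∑ k2 ∈ Z2, F k2 k3 := by
      rw [hT]
      exact Finset.sum_comm
    conv_lhs => rw [h2]
    rw [← h2, h2, Finset.sum_mul]
    refine Finset.sum_congr rfl fun k3 hk3 => ?_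
    rw [Finset.sum_mul]
    refine Finset.sum_congr rfl fun k2 _ => ?_
    rw [(Finset.mem_filter.1 hk3).2, ← h2]
  rw [Finset.sum_congr rfl h1]
  rw [Finset.sum_fiberwise_of_maps_to (s := Z3) (t := Z3.image (fun k => k / (L : ℤ)))
    (g := fun k => k / (L : ℤ)) (fun x hx => Finset.mem_image_of_mem _ hx)
    (fun k3 => ∑ k2 ∈ Z2, F k2 k3 * (starRingEnd ℂ) (T (k3 / (L : ℤ))))]
  rw [Finset.sum_comm, Finset.sum_comm (s := D2 ×ˢ Ioo (-(L : ℤ)) L)]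
  refine Finset.sum_congr rfl fun k2 hk2 => ?_
  rw [Finset.sum_comm (s := D2 ×ˢ Ioo (-(L : ℤ)) L)]
  refine Finset.sum_congr rfl fun k3 _ => ?_
  have h3 : (starRingEnd ℂ) (T (k3 / (L : ℤ))) = ∑ e2 ∈ D2, ∑ e3 ∈ Ioo (-(L : ℤ)) L,
      if k2 + e2 ∈ Z2 ∧ k3 + e3 ∈ Z3 ∧ k3 / (L : ℤ) = (k3 + e3) / (L : ℤ) then
        (starRingEnd ℂ) (F (k2 + e2) (k3 + e3)) else 0 := by
    rw [hT]
    simp only
    rw [map_sum, D_shift Z2 D2 k2 (hD k2 hk2)]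
    refine Finset.sum_congr rfl fun e2 _ => ?_
    by_cases h4 : k2 + e2 ∈ Z2
    · rw [if_pos h4, map_sum, D_shift _ (Ioo (-(L : ℤ)) L) k3
        (fun k' hk' => D_class L hL k3 k' (Finset.mem_filter.1 hk').2)]
      refine Finset.sum_congr rfl fun e3 _ => ?_
      have h5 : (k3 + e3 ∈ Z3.filter (fun x => x / (L : ℤ) = k3 / (L : ℤ))) ↔
          (k2 + e2 ∈ Z2 ∧ k3 + e3 ∈ Z3 ∧ k3 / (L : ℤ) = (k3 + e3) / (L : ℤ)) := by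
        rw [Finset.mem_filter]
        exact ⟨fun h => ⟨h4, h.1, h.2.symm⟩, fun h => ⟨h.2.1, h.2.2.symm⟩⟩
      by_cases h6 : k3 + e3 ∈ Z3.filter (fun x => x / (L : ℤ) = k3 / (L : ℤ))
      · rw [if_pos h6, if_pos (h5.1 h6)]
      · rw [if_neg h6, if_neg (fun h => h6 (h5.2 h))]
    · rw [if_neg h4]
      symm
      refine Finset.sum_eq_zero fun e3 _ => ?_
      rw [if_neg (fun h => h4 h.1)]
  rw [h3, Finset.mul_sum, Finset.sum_product]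
  refine Finset.sum_congr rfl fun e2 _ => ?_
  rw [Finset.mul_sum]
  refine Finset.sum_congr rfl fun e3 _ => ?_
  rw [mul_ite, mul_zero]

/-- Split `Z3` into the classes `k₃ / L = const` (at most `nb`). Cauchy-Schwarz over `(k₁, class)`; expand the square:
pairs `(k₂,k₃)`, `(k₂',k₃')`, `e₂ = k₂' - k₂`, `e₃ = k₃' - k₃`, `|e₃| < L`;
`β z k₂ = b k₂ conj (b (k₂+z.1))` if `k₂ + z.1 ∈ Z2`, else `0`;
`γ z k₃ = c k₃ conj (c (k₃+z.2))` if `k₃ + z.2 ∈ Z3` and `k₃ / L = (k₃+z.2) / L`, else `0`. -/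
theorem cs_abs (Z1 Z2 Z3 D2 : Finset ℤ) (L nb : ℕ) (hL : 1 ≤ L) (hnb : (Z3.image (fun k => k / (L : ℤ))).card ≤ nb)
    (hD : ∀ k ∈ Z2, ∀ k' ∈ Z2, k' - k ∈ D2) (a b c : ℤ → ℂ) (ha : ∀ k, ‖a k‖ ≤ 1) (hb : ∀ k, ‖b k‖ ≤ 1)
    (hc : ∀ k, ‖c k‖ ≤ 1) (Φ : ℤ → ℤ → ℤ → ℂ) :
    ∃ β γ : ℤ × ℤ → ℤ → ℂ, (∀ z k, ‖β z k‖ ≤ 1) ∧ (∀ z k, ‖γ z k‖ ≤ 1) ∧
      (∀ z k, β z k ≠ 0 → b k ≠ 0 ∧ b (k + z.1) ≠ 0) ∧
      ‖∑ k1 ∈ Z1, ∑ k2 ∈ Z2, ∑ k3 ∈ Z3, a k1 * b k2 * c k3 * Φ k1 k2 k3‖ ^ 2 ≤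
        (Z1.card : ℝ) * nb * ∑ z ∈ D2 ×ˢ Ioo (-(L : ℤ)) L,
          ‖∑ k1 ∈ Z1, ∑ k2 ∈ Z2, ∑ k3 ∈ Z3, β z k2 * γ z k3 *
            (Φ k1 k2 k3 * (starRingEnd ℂ) (Φ k1 (k2 + z.1) (k3 + z.2)))‖ := by
  classical
  have hnorm : ∀ u v : ℂ, ‖u‖ ≤ 1 → ‖v‖ ≤ 1 → ‖u * (starRingEnd ℂ) v‖ ≤ 1 := by
    intro u v hu hv
    rw [norm_mul, RCLike.norm_conj]
    exact mul_le_one₀ hu (norm_nonneg _) hv
  set β : ℤ × ℤ → ℤ → ℂ := fun z k => if k + z.1 ∈ Z2 then b k * (starRingEnd ℂ) (b (k + z.1)) else 0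
    with hβ
  set γ : ℤ × ℤ → ℤ → ℂ := fun z k => if k + z.2 ∈ Z3 ∧ k / (L : ℤ) = (k + z.2) / (L : ℤ) then
    c k * (starRingEnd ℂ) (c (k + z.2)) else 0 with hγ
  refine ⟨β, γ, ?_, ?_, ?_, ?_⟩
  · intro z k
    simp only [hβ]
    split_ifs
    · exact hnorm _ _ (hb _) (hb _)
    · simp
  · intro z k
    simp only [hγ]
    split_ifs
    · exact hnorm _ _ (hc _) (hc _)
    · simp
  · intro z k hk
    simp only [hβ] at hk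
    split_ifs at hk with h1
    · refine ⟨left_ne_zero_of_mul hk, fun h => ?_⟩
      rw [h, map_zero, mul_zero] at hk
      exact hk rfl
    · exact absurd rfl hk
  set J := Z3.image (fun k => k / (L : ℤ)) with hJ
  set T : ℤ → ℤ → ℂ := fun k1 j => ∑ k2 ∈ Z2, ∑ k3 ∈ Z3 with k3 / (L : ℤ) = j,
    b k2 * c k3 * Φ k1 k2 k3 with hT
  have hsum : ∑ k1 ∈ Z1, ∑ k2 ∈ Z2, ∑ k3 ∈ Z3, a k1 * b k2 * c k3 * Φ k1 k2 k3 =
      ∑ k1 ∈ Z1, ∑ j ∈ J, a k1 * T k1 j := by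
    refine Finset.sum_congr rfl fun k1 _ => ?_
    rw [← Finset.mul_sum, hT]
    simp only
    rw [Finset.sum_comm (s := J), Finset.mul_sum]
    refine Finset.sum_congr rfl fun k2 _ => ?_
    rw [Finset.sum_fiberwise_of_maps_to (s := Z3) (t := J) (g := fun k => k / (L : ℤ))
      (fun x hx => Finset.mem_image_of_mem _ hx), Finset.mul_sum]
    refine Finset.sum_congr rfl fun k3 _ => ?_
    ring
  have hle : ‖∑ k1 ∈ Z1, ∑ j ∈ J, a k1 * T k1 j‖ ≤ ∑ x ∈ Z1 ×ˢ J, ‖T x.1 x.2‖ := by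
    rw [← Finset.sum_product']
    refine (norm_sum_le _ _).trans (Finset.sum_le_sum fun x _ => ?_)
    rw [norm_mul]
    exact mul_le_of_le_one_left (norm_nonneg _) (ha _)
  have hsq : ‖∑ k1 ∈ Z1, ∑ j ∈ J, a k1 * T k1 j‖ ^ 2 ≤
      ((Z1.card : ℝ) * nb) * ∑ x ∈ Z1 ×ˢ J, ‖T x.1 x.2‖ ^ 2 := by
    calc ‖∑ k1 ∈ Z1, ∑ j ∈ J, a k1 * T k1 j‖ ^ 2 ≤ (∑ x ∈ Z1 ×ˢ J, ‖T x.1 x.2‖) ^ 2 :=
          pow_le_pow_left₀ (norm_nonneg _) hle 2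
      _ ≤ ((Z1 ×ˢ J).card : ℝ) * ∑ x ∈ Z1 ×ˢ J, ‖T x.1 x.2‖ ^ 2 := sq_sum_le_card_mul_sum_sq
      _ ≤ ((Z1.card : ℝ) * nb) * ∑ x ∈ Z1 ×ˢ J, ‖T x.1 x.2‖ ^ 2 := by
          refine mul_le_mul_of_nonneg_right ?_ (Finset.sum_nonneg fun x _ => by positivity)
          rw [Finset.card_product]
          push_cast
          exact mul_le_mul_of_nonneg_left (by exact_mod_cast hnb) (by positivity)
  rw [hsum]
  refine hsq.trans (mul_le_mul_of_nonneg_left ?_ (by positivity))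
  have hkey : ((∑ x ∈ Z1 ×ˢ J, ‖T x.1 x.2‖ ^ 2 : ℝ) : ℂ) =
      ∑ z ∈ D2 ×ˢ Ioo (-(L : ℤ)) L, ∑ k1 ∈ Z1, ∑ k2 ∈ Z2, ∑ k3 ∈ Z3, β z k2 * γ z k3 *
        (Φ k1 k2 k3 * (starRingEnd ℂ) (Φ k1 (k2 + z.1) (k3 + z.2))) := by
    rw [Finset.sum_comm (s := D2 ×ˢ Ioo (-(L : ℤ)) L), Finset.sum_product]
    push_cast
    refine Finset.sum_congr rfl fun k1 _ => ?_
    have h1 := D_expand Z2 Z3 D2 L hL hD (fun k2 k3 => b k2 * c k3 * Φ k1 k2 k3)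
    have h2 : ∀ j ∈ J, ((‖T k1 j‖ : ℂ)) ^ 2 = T k1 j * (starRingEnd ℂ) (T k1 j) := by
      intro j _
      rw [Complex.mul_conj, Complex.normSq_eq_norm_sq]
      push_cast
      rfl
    rw [Finset.sum_congr rfl h2]
    refine h1.trans ?_
    refine Finset.sum_congr rfl fun z _ => Finset.sum_congr rfl fun k2 _ =>
      Finset.sum_congr rfl fun k3 _ => ?_
    simp only [hβ, hγ]
    by_cases h3 : k2 + z.1 ∈ Z2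
    · by_cases h4 : k3 + z.2 ∈ Z3 ∧ k3 / (L : ℤ) = (k3 + z.2) / (L : ℤ)
      · rw [if_pos ⟨h3, h4⟩, if_pos h3, if_pos h4]
        simp only [map_mul]
        ring
      · rw [if_neg (fun h => h4 h.2), if_neg h4]
        ring
    · rw [if_neg (fun h => h3 h.1), if_neg h3]
      ring
  have h0 : (0 : ℝ) ≤ ∑ x ∈ Z1 ×ˢ J, ‖T x.1 x.2‖ ^ 2 := Finset.sum_nonneg fun x _ => by positivity
  calc ∑ x ∈ Z1 ×ˢ J, ‖T x.1 x.2‖ ^ 2 = ‖((∑ x ∈ Z1 ×ˢ J, ‖T x.1 x.2‖ ^ 2 : ℝ) : ℂ)‖ := by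
        rw [Complex.norm_real, Real.norm_of_nonneg h0]
    _ ≤ _ := by
        rw [hkey]
        exact norm_sum_le _ _

end TS
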