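import Pool.Agent.Lib.MP_39df77_nt.TS.Sieve1

/-!
Row TS-S2: large sieve in `√k₂`, close pairs in `(h, k₃)`.
-/

set_option autoImplicit false

namespace TS

open Finset

private lemma S2_deriv (y x : ℝ) :
    HasDerivAt (fun u : ℝ => e (y * u)) ((2 * Real.pi * Complex.I * y) * e (y * x)) x := by
  unfold e
  have h1 : HasDerivAt (fun u : ℝ => ((y * u : ℝ) : ℂ)) (y : ℂ) x := by
    have := ((hasDerivAt_id x).const_mul y).ofReal_comp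
    simpa using this
  have h2 := (h1.const_mul (2 * Real.pi * Complex.I)).cexp
  convert h2 using 1
  ring

private lemma S2_cont (y : ℝ) : Continuous (fun u : ℝ => e (y * u)) := by
  unfold e
  fun_prop

private lemma S2_quad {ι : Type} (s : Finset ι) (a T : ι → ℝ) (E : ι → ι → ℝ) (hE : ∀ i j, 0 ≤ E i j)
    (hs : ∀ i j, E i j = E j i) (hT : ∀ i ∈ s, a i ^ 2 ≤ T i) :
    ∑ i ∈ s, ∑ j ∈ s, a i * a j * E i j ≤ ∑ i ∈ s, T i * ∑ j ∈ s, E i j := by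
  have h1 : ∑ i ∈ s, ∑ j ∈ s, a i * a j * E i j ≤
      ∑ i ∈ s, ∑ j ∈ s, (a i ^ 2 * E i j / 2 + a j ^ 2 * E i j / 2) := by
    refine sum_le_sum fun i _ => sum_le_sum fun j _ => ?_
    nlinarith [mul_nonneg (sq_nonneg (a i - a j)) (hE i j)]
  have h2 : ∑ i ∈ s, ∑ j ∈ s, a j ^ 2 * E i j / 2 = ∑ i ∈ s, ∑ j ∈ s, a i ^ 2 * E i j / 2 := by
    rw [sum_comm]
    refine sum_congr rfl fun i _ => sum_congr rfl fun j _ => ?_
    rw [hs]
  calc ∑ i ∈ s, ∑ j ∈ s, a i * a j * E i j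
      ≤ ∑ i ∈ s, ∑ j ∈ s, (a i ^ 2 * E i j / 2 + a j ^ 2 * E i j / 2) := h1
    _ = ∑ i ∈ s, ∑ j ∈ s, a i ^ 2 * E i j / 2 + ∑ i ∈ s, ∑ j ∈ s, a j ^ 2 * E i j / 2 := by
        simp only [sum_add_distrib]
    _ = ∑ i ∈ s, a i ^ 2 * ∑ j ∈ s, E i j := by
        rw [h2, ← sum_add_distrib]
        refine sum_congr rfl fun i _ => ?_
        rw [mul_sum, ← sum_add_distrib]
        exact sum_congr rfl fun j _ => by ring
    _ ≤ ∑ i ∈ s, T i * ∑ j ∈ s, E i j :=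
        sum_le_sum fun i hi => mul_le_mul_of_nonneg_right (hT i hi) (sum_nonneg fun j _ => hE i j)

private lemma S2_mean {ι : Type} (s : Finset ι) (g : ι → ℂ) (y : ι → ℝ) (uc Δ : ℝ) (T : ι → ℝ)
    (hΔ : 0 < Δ) (hT : ∀ i ∈ s, ‖g i‖ ^ 2 ≤ T i) :
    ∫ u in (uc - Δ)..(uc + Δ), ‖∑ i ∈ s, g i * e (y i * u)‖ ^ 2 ≤
      6 * Δ * ∑ i ∈ s, T i * ∑ j ∈ s, Real.exp (-(Real.pi ^ 2 * Δ ^ 2 * (y i - y j) ^ 2)) := by
  refine (gauss_mean s g y uc Δ hΔ).trans ?_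
  refine mul_le_mul_of_nonneg_left ?_ (by positivity)
  refine S2_quad s (fun i => ‖g i‖) T
    (fun i j => Real.exp (-(Real.pi ^ 2 * Δ ^ 2 * (y i - y j) ^ 2))) ?_ ?_ hT
  · intro i j
    exact (Real.exp_pos _).le
  · intro i j
    have : (y i - y j) ^ 2 = (y j - y i) ^ 2 := by ring
    simp only [this]

private lemma S2_abs {ι : Type} (s : Finset ι) (g : ι → ℂ) (y : ι → ℝ) (uc Δ δ P : ℝ)
    (S : Finset ℤ) (u : ℤ → ℝ) (T T' : ι → ℝ)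
    (hΔ : 0 < Δ) (hδ : 0 < δ) (hP : 0 < P)
    (hu : ∀ k ∈ S, uc - Δ ≤ u k - δ ∧ u k + δ ≤ uc + Δ)
    (hd : ∀ k ∈ S, ∀ l ∈ S, k < l → u k + δ ≤ u l - δ)
    (hT : ∀ i ∈ s, ‖g i‖ ^ 2 ≤ T i) (hT' : ∀ i ∈ s, (2 * Real.pi * |y i| * ‖g i‖) ^ 2 ≤ T' i) :
    ∑ k ∈ S, ‖∑ i ∈ s, g i * e (y i * u k)‖ ^ 2 ≤
      (1 / (2 * δ) + P) * (6 * Δ * ∑ i ∈ s, T i *
        ∑ j ∈ s, Real.exp (-(Real.pi ^ 2 * Δ ^ 2 * (y i - y j) ^ 2))) +
      1 / P * (6 * Δ * ∑ i ∈ s, T' i *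
        ∑ j ∈ s, Real.exp (-(Real.pi ^ 2 * Δ ^ 2 * (y i - y j) ^ 2))) := by
  set G : ℝ → ℂ := fun x => ∑ i ∈ s, g i * e (y i * x) with hG
  set G' : ℝ → ℂ := fun x => ∑ i ∈ s, (g i * (2 * Real.pi * Complex.I * y i)) * e (y i * x) with hG'
  have hder : ∀ x, HasDerivAt G (G' x) x := by
    intro x
    rw [hG, hG']
    refine HasDerivAt.fun_sum fun i _ => ?_
    exact ((S2_deriv (y i) x).const_mul (g i)).congr_deriv (by ring)
  have hc : Continuous G := by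
    rw [hG]
    exact continuous_finsetSum _ fun i _ => continuous_const.mul (S2_cont (y i))
  have hc' : Continuous G' := by
    rw [hG']
    exact continuous_finsetSum _ fun i _ => continuous_const.mul (S2_cont (y i))
  have h1 := gallagher' S u G G' δ (uc - Δ) (uc + Δ) hδ (by linarith) hder hc' hu hd
  have h2 : ∫ x in (uc - Δ)..(uc + Δ), ‖G x‖ * ‖G' x‖ ≤
      ∫ x in (uc - Δ)..(uc + Δ), (P / 2 * ‖G x‖ ^ 2 + 1 / (2 * P) * ‖G' x‖ ^ 2) := by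
    apply intervalIntegral.integral_mono_on (by linarith)
    · exact (hc.norm.mul hc'.norm).intervalIntegrable _ _
    · exact ((continuous_const.mul (hc.norm.pow 2)).add
        (continuous_const.mul (hc'.norm.pow 2))).intervalIntegrable _ _
    · intro x _
      have : P / 2 * ‖G x‖ ^ 2 + 1 / (2 * P) * ‖G' x‖ ^ 2 - ‖G x‖ * ‖G' x‖ =
          1 / (2 * P) * (P * ‖G x‖ - ‖G' x‖) ^ 2 := by
        field_simp
        ring
      have h3 : 0 ≤ 1 / (2 * P) * (P * ‖G x‖ - ‖G' x‖) ^ 2 := by positivity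
      linarith
  have h3 : ∫ x in (uc - Δ)..(uc + Δ), (P / 2 * ‖G x‖ ^ 2 + 1 / (2 * P) * ‖G' x‖ ^ 2) =
      P / 2 * (∫ x in (uc - Δ)..(uc + Δ), ‖G x‖ ^ 2) +
        1 / (2 * P) * ∫ x in (uc - Δ)..(uc + Δ), ‖G' x‖ ^ 2 := by
    rw [intervalIntegral.integral_add, intervalIntegral.integral_const_mul,
      intervalIntegral.integral_const_mul]
    · exact (continuous_const.mul (hc.norm.pow 2)).intervalIntegrable _ _
    · exact (continuous_const.mul (hc'.norm.pow 2)).intervalIntegrable _ _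
  have h4 : ∫ x in (uc - Δ)..(uc + Δ), ‖G x‖ ^ 2 ≤ 6 * Δ * ∑ i ∈ s, T i *
        ∑ j ∈ s, Real.exp (-(Real.pi ^ 2 * Δ ^ 2 * (y i - y j) ^ 2)) :=
    S2_mean s g y uc Δ T hΔ hT
  have h5 : ∫ x in (uc - Δ)..(uc + Δ), ‖G' x‖ ^ 2 ≤ 6 * Δ * ∑ i ∈ s, T' i *
        ∑ j ∈ s, Real.exp (-(Real.pi ^ 2 * Δ ^ 2 * (y i - y j) ^ 2)) := by
    refine S2_mean s (fun i => g i * (2 * Real.pi * Complex.I * y i)) y uc Δ T' hΔ fun i hi => ?_
    have h6 : ‖g i * (2 * Real.pi * Complex.I * y i)‖ = 2 * Real.pi * |y i| * ‖g i‖ := by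
      rw [norm_mul, norm_mul, norm_mul, norm_mul, Complex.norm_I, Complex.norm_real, Complex.norm_real,
        Real.norm_eq_abs, Real.norm_eq_abs, abs_of_pos Real.pi_pos]
      norm_num
      ring
    rw [h6]
    exact hT' i hi
  have h6 : 0 ≤ 1 / (2 * δ) + P := by positivity
  calc ∑ k ∈ S, ‖∑ i ∈ s, g i * e (y i * u k)‖ ^ 2
      ≤ 1 / (2 * δ) * (∫ x in (uc - Δ)..(uc + Δ), ‖G x‖ ^ 2) +
        2 * ∫ x in (uc - Δ)..(uc + Δ), ‖G x‖ * ‖G' x‖ := h1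
    _ ≤ 1 / (2 * δ) * (∫ x in (uc - Δ)..(uc + Δ), ‖G x‖ ^ 2) +
        2 * (P / 2 * (∫ x in (uc - Δ)..(uc + Δ), ‖G x‖ ^ 2) +
        1 / (2 * P) * ∫ x in (uc - Δ)..(uc + Δ), ‖G' x‖ ^ 2) := by
        rw [← h3]
        linarith
    _ = (1 / (2 * δ) + P) * (∫ x in (uc - Δ)..(uc + Δ), ‖G x‖ ^ 2) +
        1 / P * ∫ x in (uc - Δ)..(uc + Δ), ‖G' x‖ ^ 2 := by
        have : 2 * (1 / (2 * P)) = 1 / P := by field_simp
        rw [← this]
        ring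
    _ ≤ _ := add_le_add (mul_le_mul_of_nonneg_left h4 h6) (mul_le_mul_of_nonneg_left h5 (by positivity))

/-- `|√x - √y| ≤ |x - y| / (1.4 √K)` -/
private lemma S2_sqrt {K x y : ℝ} (hK : 1 ≤ K) (hx : K / 2 ≤ x) (hy : K / 2 ≤ y) :
    |√x - √y| * (1.4 * √K) ≤ |x - y| := by
  have hs : 0 < √K := Real.sqrt_pos.2 (by linarith)
  have hss : √K * √K = K := Real.mul_self_sqrt (by linarith)
  have hx0 : 0 ≤ x := by linarith
  have hy0 : 0 ≤ y := by linarith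
  have h1 : 0.7 * √K ≤ √x := by
    apply Real.le_sqrt_of_sq_le
    nlinarith
  have h2 : 0.7 * √K ≤ √y := by
    apply Real.le_sqrt_of_sq_le
    nlinarith
  have h3 : |x - y| = |√x - √y| * (√x + √y) := by
    have : x - y = (√x - √y) * (√x + √y) := by
      have e1 := Real.mul_self_sqrt hx0
      have e2 := Real.mul_self_sqrt hy0
      linarith [e1, e2, show (√x - √y) * (√x + √y) = √x * √x - √y * √y by ring]
    rw [this, abs_mul, abs_of_nonneg (by positivity : 0 ≤ √x + √y)]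
  rw [h3]
  exact mul_le_mul_of_nonneg_left (by linarith) (abs_nonneg _)

private lemma S2_nu (K : ℝ) (M B J2 : ℕ) (i3 j0 : ℤ) (hK : 1 ≤ K) (y0 : ℝ) :
    ∑ p ∈ HH J2 ×ˢ bl B i3, wt M (p.1 - j0) * ∑ q ∈ HH J2 ×ˢ bl B i3,
      Real.exp (-(Real.pi ^ 2 * ((B : ℝ) / √K) ^ 2 *
        ((-2 * (p.1 : ℝ) * √(p.2 : ℝ) - y0) - (-2 * (q.1 : ℝ) * √(q.2 : ℝ) - y0)) ^ 2)) ≤
    ∑ h ∈ HH J2, wt M (h - j0) * nu K B i3 J2 h := by
  rw [sum_product]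
  refine sum_le_sum fun h _ => ?_
  unfold nu
  rw [mul_sum]
  refine sum_le_sum fun k _ => ?_
  refine mul_le_mul_of_nonneg_left ?_ (wt_pos _ _).le
  rw [sum_product]
  refine sum_le_sum fun h' _ => sum_le_sum fun k' _ => ?_
  apply Real.exp_le_exp.2
  have hss : √K ^ 2 = K := Real.sq_sqrt (by linarith)
  have hpi : 1 ≤ Real.pi ^ 2 * 4 := by nlinarith [Real.pi_gt_three]
  have h1 : Real.pi ^ 2 * ((B : ℝ) / √K) ^ 2 *
        ((-2 * (h : ℝ) * √(k : ℝ) - y0) - (-2 * (h' : ℝ) * √(k' : ℝ) - y0)) ^ 2 =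
      Real.pi ^ 2 * 4 * ((B : ℝ) ^ 2 / K * ((h : ℝ) * √(k : ℝ) - (h' : ℝ) * √(k' : ℝ)) ^ 2) := by
    rw [div_pow, hss]
    ring
  have h2 : 0 ≤ (B : ℝ) ^ 2 / K * ((h : ℝ) * √(k : ℝ) - (h' : ℝ) * √(k' : ℝ)) ^ 2 := by
    have : 0 ≤ K := by linarith
    positivity
  have h3 := mul_le_mul_of_nonneg_right hpi h2
  simp only
  rw [h1]
  linarith

private lemma S2_wt (M : ℕ) (hM : 1 ≤ M) (t : ℝ) : (1 + |t| / M) ^ 2 * wt M t ^ 2 ≤ 2 * wt M t := by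
  have hM0 : (0 : ℝ) < M := by exact_mod_cast hM
  have h1 : (t / M) ^ 2 = (|t| / M) ^ 2 := by
    rw [div_pow, div_pow, sq_abs]
  unfold wt
  rw [h1]
  have h2 : 0 < 1 + (|t| / M) ^ 2 := by positivity
  rw [div_pow, one_pow, mul_one_div, mul_one_div, div_le_div_iff₀ (by positivity) h2]
  have h3 : (1 + |t| / M) ^ 2 ≤ 2 * (1 + (|t| / M) ^ 2) := by nlinarith [sq_nonneg (1 - |t| / M)]
  nlinarith

private lemma S2_mem {B : ℕ} {i k : ℤ} (hk : k ∈ bl B i) :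
    ((i * B : ℤ) : ℝ) ≤ k ∧ (k : ℝ) + 1 ≤ ((i * B : ℤ) : ℝ) + B := by
  unfold bl at hk
  rw [mem_Ico] at hk
  constructor
  · exact_mod_cast hk.1
  · have : k + 1 ≤ i * B + B := hk.2
    exact_mod_cast this

/-- `|D|² ≤ B ∑_{k₂} |G(√k₂)|²`, `G(u) = ∑_{h,k₃} w_h γ e((-2h√k₃ - y₀)u)`, `y₀ = -2 j₀ √(i₃B)`
(`e(h x0 k₂ k₃) = e(-2h√k₂√k₃)`); spacing of `√k₂`: `δ = c/√K`; `|y - y₀| ≤ C √K (|h - j₀| + M)`;
`2‖G‖‖G'‖ ≤ √K M ‖G‖² + ‖G'‖²/(√K M)`, `gauss_mean` with `Δ = B/√K` for both, `ab ≤ (a²+b²)/2` and symmetry,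
`(1+s)² wt² ≤ 2 wt` -/
theorem large_sieve : ∃ C : ℝ, 1 ≤ C ∧ ∀ (K : ℝ) (M B J2 : ℕ) (i2 i3 j0 : ℤ) (β γ w : ℤ → ℂ),
    1 ≤ K → 1 ≤ M → 1 ≤ B → (B : ℝ) ≤ K →
    K / 2 ≤ ((i2 * B : ℤ) : ℝ) → ((i2 * B : ℤ) : ℝ) ≤ 3 * K →
    K / 2 ≤ ((i3 * B : ℤ) : ℝ) → ((i3 * B : ℤ) : ℝ) ≤ 20 * K → |(j0 : ℝ)| * B ≤ 10 * (K * M) →
    (∀ k, ‖β k‖ ≤ 1) → (∀ k, ‖γ k‖ ≤ 1) → (∀ h : ℤ, ‖w h‖ ≤ wt M (h - j0) / M) →
    ‖∑ h ∈ HH J2, w h * ∑ k2 ∈ bl B i2, ∑ k3 ∈ bl B i3, β k2 * γ k3 * e (h * x0 k2 k3)‖ ^ 2 ≤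
      C * ((B : ℝ) ^ 2 / M * ∑ h ∈ HH J2, wt M (h - j0) * nu K B i3 J2 h) := by
  refine ⟨200000, by norm_num, ?_⟩
  intro K M B J2 i2 i3 j0 β γ w hK hM hB hBK h21 h22 h31 h32 hj hβ hγ hw
  have hK0 : 0 < K := by linarith
  have hM1 : (1 : ℝ) ≤ M := by exact_mod_cast hM
  have hB1 : (1 : ℝ) ≤ B := by exact_mod_cast hB
  have hM0 : (0 : ℝ) < M := by linarith
  have hB0 : (0 : ℝ) < B := by linarith
  set r := √K with hr
  have hr0 : 0 < r := Real.sqrt_pos.2 hK0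
  have hrr : r * r = K := Real.mul_self_sqrt hK0.le
  set y0 : ℝ := -2 * j0 * √((i3 * B : ℤ) : ℝ) with hy0
  set s := HH J2 ×ˢ bl B i3 with hs
  set g : ℤ × ℤ → ℂ := fun p => w p.1 * γ p.2 with hg
  set y : ℤ × ℤ → ℝ := fun p => -2 * (p.1 : ℝ) * √(p.2 : ℝ) - y0 with hy
  set N : ℝ := ∑ h ∈ HH J2, wt M (h - j0) * nu K B i3 J2 h with hN
  have hnu0 : ∀ h : ℤ, 0 ≤ nu K B i3 J2 h := fun h =>
    sum_nonneg fun _ _ => sum_nonneg fun _ _ => sum_nonneg fun _ _ => (Real.exp_pos _).le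
  have hN0 : 0 ≤ N := sum_nonneg fun h _ => mul_nonneg (wt_pos _ _).le (hnu0 h)
  -- Step 1: Cauchy-Schwarz in `k₂`
  have hstep1 : ‖∑ h ∈ HH J2, w h * ∑ k2 ∈ bl B i2, ∑ k3 ∈ bl B i3,
      β k2 * γ k3 * e (h * x0 k2 k3)‖ ^ 2 ≤
      B * ∑ k ∈ bl B i2, ‖∑ p ∈ s, g p * e (y p * √(k : ℝ))‖ ^ 2 := by
    have e1 : ∑ h ∈ HH J2, w h * ∑ k2 ∈ bl B i2, ∑ k3 ∈ bl B i3,
        β k2 * γ k3 * e (h * x0 k2 k3) =
        ∑ k ∈ bl B i2, (β k * e (y0 * √(k : ℝ))) * ∑ p ∈ s, g p * e (y p * √(k : ℝ)) := by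
      simp_rw [mul_sum]
      rw [sum_comm]
      refine sum_congr rfl fun k hk => ?_
      rw [hs, sum_product]
      refine sum_congr rfl fun h _ => sum_congr rfl fun k3 hk3 => ?_
      have hk0 : (0 : ℝ) ≤ k := by linarith [(S2_mem hk).1]
      have hk30 : (0 : ℝ) ≤ k3 := by linarith [(S2_mem hk3).1]
      have e2 : (h : ℝ) * x0 k k3 = (y0 * √(k : ℝ) + y (h, k3) * √(k : ℝ)) + ((h * (k + k3) : ℤ) : ℝ) := by
        simp only [hy, x0]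
        have a1 := Real.sq_sqrt hk0
        have a2 := Real.sq_sqrt hk30
        push_cast
        have : (√(k3 : ℝ) - √(k : ℝ)) ^ 2 = k3 + k - 2 * (√(k3 : ℝ) * √(k : ℝ)) := by
          calc (√(k3 : ℝ) - √(k : ℝ)) ^ 2 = √(k3 : ℝ) ^ 2 + √(k : ℝ) ^ 2 - 2 * (√(k3 : ℝ) * √(k : ℝ)) := by ring
            _ = _ := by rw [a1, a2]
        rw [this]
        ring
      rw [e2, e_add_int, e_add]
      simp only [hg]
      ring
    rw [e1]
    have e3 : ‖∑ k ∈ bl B i2, (β k * e (y0 * √(k : ℝ))) * ∑ p ∈ s, g p * e (y p * √(k : ℝ))‖ ≤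
        ∑ k ∈ bl B i2, 1 * ‖∑ p ∈ s, g p * e (y p * √(k : ℝ))‖ := by
      refine (norm_sum_le _ _).trans (sum_le_sum fun k _ => ?_)
      rw [norm_mul, norm_mul, norm_e, mul_one]
      exact mul_le_mul_of_nonneg_right (hβ k) (norm_nonneg _)
    have e4 := sum_mul_sq_le_sq_mul_sq (bl B i2) (fun _ : ℤ => (1 : ℝ))
      (fun k => ‖∑ p ∈ s, g p * e (y p * √(k : ℝ))‖)
    have e5 : ∑ k ∈ bl B i2, (1 : ℝ) ^ 2 = B := by
      simp [bl]
    rw [e5] at e4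
    exact (pow_le_pow_left₀ (norm_nonneg _) e3 2).trans e4
  -- Step 2: the abstract inequality
  have hmem3 : ∀ k ∈ bl B i3, K / 2 ≤ (k : ℝ) ∧ (k : ℝ) ≤ 21 * K := fun k hk => by
    have := S2_mem hk
    constructor <;> linarith [this.1, this.2]
  have hmem2 : ∀ k ∈ bl B i2, K / 2 ≤ (k : ℝ) ∧ (k : ℝ) + 1 ≤ 4 * K := fun k hk => by
    have := S2_mem hk
    constructor <;> linarith [this.1, this.2]
  have hy1 : ∀ p ∈ s, |y p| ≤ 15 * r * (M * (1 + |(p.1 : ℝ) - j0| / M)) := by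
    intro p hp
    rw [hs, mem_product] at hp
    have hk := hmem3 p.2 hp.2
    have a1 : y p = -2 * (((p.1 : ℝ) - j0) * √(p.2 : ℝ)) - 2 * (j0 * (√(p.2 : ℝ) - √((i3 * B : ℤ) : ℝ))) := by
      simp only [hy, hy0]
      ring
    have a2 : √(p.2 : ℝ) ≤ 4.6 * r := by
      apply Real.sqrt_le_iff.2
      constructor
      · positivity
      · nlinarith
    have a3 : |√(p.2 : ℝ) - √((i3 * B : ℤ) : ℝ)| * (1.4 * r) ≤ B := by
      refine (S2_sqrt hK hk.1 h31).trans ?_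
      have := S2_mem hp.2
      rw [abs_le]
      constructor <;> linarith [this.1, this.2]
    have a4 : |(j0 : ℝ)| * |√(p.2 : ℝ) - √((i3 * B : ℤ) : ℝ)| ≤ 7.2 * (r * M) := by
      have b1 : (|(j0 : ℝ)| * |√(p.2 : ℝ) - √((i3 * B : ℤ) : ℝ)|) * (1.4 * r) ≤ (7.2 * (r * M)) * (1.4 * r) := by
        calc (|(j0 : ℝ)| * |√(p.2 : ℝ) - √((i3 * B : ℤ) : ℝ)|) * (1.4 * r)
            = |(j0 : ℝ)| * (|√(p.2 : ℝ) - √((i3 * B : ℤ) : ℝ)| * (1.4 * r)) := by ring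
          _ ≤ |(j0 : ℝ)| * B := mul_le_mul_of_nonneg_left a3 (abs_nonneg _)
          _ ≤ 10 * (K * M) := hj
          _ = 10 * ((r * r) * M) := by rw [hrr]
          _ ≤ (7.2 * (r * M)) * (1.4 * r) := by
              have : 0 ≤ r * r * M := by positivity
              nlinarith
      exact le_of_mul_le_mul_right b1 (by positivity)
    have a5 : |(p.1 : ℝ) - j0| * √(p.2 : ℝ) ≤ 4.6 * (r * |(p.1 : ℝ) - j0|) := by
      calc |(p.1 : ℝ) - j0| * √(p.2 : ℝ) ≤ |(p.1 : ℝ) - j0| * (4.6 * r) :=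
            mul_le_mul_of_nonneg_left a2 (abs_nonneg _)
        _ = _ := by ring
    have a6 : 15 * r * (M * (1 + |(p.1 : ℝ) - j0| / M)) = 15 * (r * M) + 15 * (r * |(p.1 : ℝ) - j0|) := by
      field_simp
    rw [a1, a6]
    have a7 : 0 ≤ r * |(p.1 : ℝ) - j0| := by positivity
    have a8 : 0 ≤ r * M := by positivity
    calc |-2 * (((p.1 : ℝ) - j0) * √(p.2 : ℝ)) - 2 * (j0 * (√(p.2 : ℝ) - √((i3 * B : ℤ) : ℝ)))|
        ≤ |-2 * (((p.1 : ℝ) - j0) * √(p.2 : ℝ))| + |2 * (j0 * (√(p.2 : ℝ) - √((i3 * B : ℤ) : ℝ)))| := abs_sub _ _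
      _ = 2 * (|(p.1 : ℝ) - j0| * √(p.2 : ℝ)) + 2 * (|(j0 : ℝ)| * |√(p.2 : ℝ) - √((i3 * B : ℤ) : ℝ)|) := by
          rw [abs_mul, abs_mul, abs_mul, abs_mul, abs_neg, abs_two, abs_of_nonneg (Real.sqrt_nonneg (p.2 : ℝ))]
      _ ≤ _ := by linarith
  have hg1 : ∀ p ∈ s, ‖g p‖ ≤ wt M (p.1 - j0) / M := by
    intro p _
    simp only [hg]
    rw [norm_mul]
    calc ‖w p.1‖ * ‖γ p.2‖ ≤ ‖w p.1‖ * 1 := mul_le_mul_of_nonneg_left (hγ _) (norm_nonneg _)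
      _ = ‖w p.1‖ := mul_one _
      _ ≤ _ := hw _
  have hT : ∀ p ∈ s, ‖g p‖ ^ 2 ≤ 1 / M ^ 2 * wt M (p.1 - j0) := by
    intro p hp
    have b0 := (wt_pos M ((p.1 : ℝ) - j0)).le
    calc ‖g p‖ ^ 2 ≤ (wt M (p.1 - j0) / M) ^ 2 := pow_le_pow_left₀ (norm_nonneg _) (hg1 p hp) 2
      _ = 1 / M ^ 2 * (wt M (p.1 - j0) * wt M (p.1 - j0)) := by ring
      _ ≤ 1 / M ^ 2 * (wt M (p.1 - j0) * 1) := by
          refine mul_le_mul_of_nonneg_left ?_ (by positivity)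
          exact mul_le_mul_of_nonneg_left (wt_le_one _ _) b0
      _ = _ := by rw [mul_one]
  have hT' : ∀ p ∈ s, (2 * Real.pi * |y p| * ‖g p‖) ^ 2 ≤ 18050 * K * wt M (p.1 - j0) := by
    intro p hp
    have b0 := (wt_pos M ((p.1 : ℝ) - j0)).le
    have b1 : 2 * Real.pi * |y p| * ‖g p‖ ≤ 95 * r * ((1 + |(p.1 : ℝ) - j0| / M) * wt M (p.1 - j0)) := by
      have c1 := hy1 p hp
      have c2 := hg1 p hp
      have c3 : 2 * Real.pi ≤ 6.3 := by linarith [Real.pi_lt_d2]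
      have c4 : 0 ≤ 15 * r * (M * (1 + |(p.1 : ℝ) - j0| / M)) := by positivity
      calc 2 * Real.pi * |y p| * ‖g p‖ ≤ 6.3 * (15 * r * (M * (1 + |(p.1 : ℝ) - j0| / M))) *
            (wt M (p.1 - j0) / M) := by
            refine mul_le_mul ?_ c2 (norm_nonneg _) (by positivity)
            exact mul_le_mul c3 c1 (abs_nonneg _) (by norm_num)
        _ = 94.5 * (r * ((1 + |(p.1 : ℝ) - j0| / M) * wt M (p.1 - j0))) := by
            field_simp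
            ring
        _ ≤ 95 * (r * ((1 + |(p.1 : ℝ) - j0| / M) * wt M (p.1 - j0))) := by
            refine mul_le_mul_of_nonneg_right (by norm_num) ?_
            positivity
        _ = _ := by ring
    have b2 : 0 ≤ 2 * Real.pi * |y p| * ‖g p‖ := by
      have := Real.pi_pos
      positivity
    calc (2 * Real.pi * |y p| * ‖g p‖) ^ 2 ≤ (95 * r * ((1 + |(p.1 : ℝ) - j0| / M) * wt M (p.1 - j0))) ^ 2 :=
          pow_le_pow_left₀ b2 b1 2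
      _ = 9025 * (r * r) * ((1 + |(p.1 : ℝ) - j0| / M) ^ 2 * wt M (p.1 - j0) ^ 2) := by ring
      _ ≤ 9025 * (r * r) * (2 * wt M (p.1 - j0)) :=
          mul_le_mul_of_nonneg_left (S2_wt M hM _) (by positivity)
      _ = _ := by rw [hrr]; ring
  have hu : ∀ k ∈ bl B i2, √((i2 * B : ℤ) : ℝ) - B / r ≤ √(k : ℝ) - 1 / (8 * r) ∧
      √(k : ℝ) + 1 / (8 * r) ≤ √((i2 * B : ℤ) : ℝ) + B / r := by
    intro k hk
    have b1 := S2_mem hk
    have b2 := S2_sqrt hK (hmem2 k hk).1 h21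
    have b3 : |(k : ℝ) - ((i2 * B : ℤ) : ℝ)| ≤ B := by
      rw [abs_le]
      constructor <;> linarith [b1.1, b1.2]
    have b4 : |√(k : ℝ) - √((i2 * B : ℤ) : ℝ)| ≤ (5 / 7 * B) / r := by
      rw [le_div_iff₀ hr0]
      have := b2.trans b3
      have e1 : |√(k : ℝ) - √((i2 * B : ℤ) : ℝ)| * (1.4 * r) =
        1.4 * (|√(k : ℝ) - √((i2 * B : ℤ) : ℝ)| * r) := by ring
      rw [e1] at this
      linarith
    have b5 : (5 / 7 * B) / r + 1 / (8 * r) ≤ B / r := by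
      have : (5 / 7 * B) / r + 1 / (8 * r) = (5 / 7 * B + 1 / 8) / r := by
        field_simp
      rw [this]
      apply div_le_div_of_nonneg_right _ hr0.le
      linarith
    have b6 := abs_le.1 b4
    constructor <;> linarith [b6.1, b6.2]
  have hd : ∀ k ∈ bl B i2, ∀ l ∈ bl B i2, k < l →
      √(k : ℝ) + 1 / (8 * r) ≤ √(l : ℝ) - 1 / (8 * r) := by
    intro k hk l hl hkl
    have b1 := (hmem2 k hk)
    have b2 := (hmem2 l hl)
    have b3 : (k : ℝ) + 1 ≤ l := by exact_mod_cast hkl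
    have hk0 : (0 : ℝ) ≤ k := by linarith
    have hl0 : (0 : ℝ) ≤ l := by linarith
    have c1 : √(l : ℝ) ≤ 2 * r := by
      apply Real.sqrt_le_iff.2
      constructor
      · positivity
      · nlinarith
    have c2 : √(k : ℝ) ≤ 2 * r := by
      apply Real.sqrt_le_iff.2
      constructor
      · positivity
      · nlinarith
    have c3 : √(k : ℝ) < √(l : ℝ) := Real.sqrt_lt_sqrt hk0 (by linarith)
    have c4 : (√(l : ℝ) - √(k : ℝ)) * (√(l : ℝ) + √(k : ℝ)) = l - k := by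
      have e1 := Real.mul_self_sqrt hk0
      have e2 := Real.mul_self_sqrt hl0
      linarith [show (√(l : ℝ) - √(k : ℝ)) * (√(l : ℝ) + √(k : ℝ)) =
        √(l : ℝ) * √(l : ℝ) - √(k : ℝ) * √(k : ℝ) by ring]
    have c5 : 1 ≤ (√(l : ℝ) - √(k : ℝ)) * (4 * r) := by
      have : (√(l : ℝ) - √(k : ℝ)) * (√(l : ℝ) + √(k : ℝ)) ≤ (√(l : ℝ) - √(k : ℝ)) * (4 * r) :=
        mul_le_mul_of_nonneg_left (by linarith) (by linarith)
      linarith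
    have c6 : 1 / (4 * r) ≤ √(l : ℝ) - √(k : ℝ) := by
      rw [div_le_iff₀ (by positivity)]
      exact c5
    have c7 : 1 / (4 * r) = 1 / (8 * r) + 1 / (8 * r) := by
      field_simp
      norm_num
    linarith
  have hmain := S2_abs s g y (√((i2 * B : ℤ) : ℝ)) (B / r) (1 / (8 * r)) (r * M) (bl B i2)
    (fun k => √(k : ℝ)) (fun p => 1 / M ^ 2 * wt M (p.1 - j0)) (fun p => 18050 * K * wt M (p.1 - j0))
    (by positivity) (by positivity) (by positivity) hu hd hT hT'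
  have hnu := S2_nu K M B J2 i3 j0 hK y0
  have hsum : ∀ c : ℝ, 0 ≤ c → ∑ p ∈ s, c * wt M (p.1 - j0) *
      ∑ q ∈ s, Real.exp (-(Real.pi ^ 2 * ((B : ℝ) / r) ^ 2 * (y p - y q) ^ 2)) ≤ c * N := by
    intro c hc
    have e1 : ∑ p ∈ s, c * wt M (p.1 - j0) *
      ∑ q ∈ s, Real.exp (-(Real.pi ^ 2 * ((B : ℝ) / r) ^ 2 * (y p - y q) ^ 2)) =
        c * ∑ p ∈ s, wt M (p.1 - j0) *
      ∑ q ∈ s, Real.exp (-(Real.pi ^ 2 * ((B : ℝ) / r) ^ 2 * (y p - y q) ^ 2)) := by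
      rw [mul_sum]
      exact sum_congr rfl fun p _ => by ring
    rw [e1]
    exact mul_le_mul_of_nonneg_left hnu hc
  have hs1 := hsum (1 / M ^ 2) (by positivity)
  have hs2 := hsum (18050 * K) (by positivity)
  calc ‖∑ h ∈ HH J2, w h * ∑ k2 ∈ bl B i2, ∑ k3 ∈ bl B i3, β k2 * γ k3 * e (h * x0 k2 k3)‖ ^ 2
      ≤ B * ∑ k ∈ bl B i2, ‖∑ p ∈ s, g p * e (y p * √(k : ℝ))‖ ^ 2 := hstep1
    _ ≤ B * ((1 / (2 * (1 / (8 * r))) + r * M) * (6 * (B / r) * (1 / M ^ 2 * N)) +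
          1 / (r * M) * (6 * (B / r) * (18050 * K * N))) := by
        refine mul_le_mul_of_nonneg_left (hmain.trans ?_) hB0.le
        refine add_le_add ?_ ?_
        · refine mul_le_mul_of_nonneg_left ?_ (by positivity)
          exact mul_le_mul_of_nonneg_left hs1 (by positivity)
        · refine mul_le_mul_of_nonneg_left ?_ (by positivity)
          exact mul_le_mul_of_nonneg_left hs2 (by positivity)
    _ = (24 / M + 6 + 108300) * ((B : ℝ) ^ 2 / M * N) := by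
        rw [← hrr]
        field_simp
        ring
    _ ≤ 200000 * ((B : ℝ) ^ 2 / M * N) := by
        refine mul_le_mul_of_nonneg_right ?_ (by positivity)
        have : 24 / (M : ℝ) ≤ 24 := by
          rw [div_le_iff₀ hM0]
          linarith
        linarith

end TS
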