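import Pool.Agent.Lib.MP_39df77_nt.TS.Fourier
import Pool.Agent.Lib.MP_39df77_nt.TS.Sieve

/-!
Row TS-A1: the bound for one test function on one cell and one pair of blocks.
-/

set_option autoImplicit false

namespace TS

open Finset

theorem A1_card_bl (B : ℕ) (i : ℤ) : (bl B i).card = B := by
  unfold bl
  rw [Int.card_Ico]
  simp

theorem A1_wt_neg (M t : ℝ) : wt M (-t) = wt M t := by
  unfold wt
  rw [neg_div, neg_sq]

theorem A1_wt_le {M t : ℝ} (hM : 0 < M) (ht : t ≠ 0) : wt M t ≤ M ^ 2 / t ^ 2 := by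
  unfold wt
  have h1 : 0 < t ^ 2 := by positivity
  rw [div_le_div_iff₀ (by positivity) h1, div_pow]
  have : M ^ 2 * (1 + t ^ 2 / M ^ 2) = M ^ 2 + t ^ 2 := by
    field_simp
  rw [this]
  nlinarith [sq_nonneg M]

theorem A1_nu_nonneg (K : ℝ) (B : ℕ) (i3 : ℤ) (J2 : ℕ) (h : ℤ) : 0 ≤ nu K B i3 J2 h := by
  unfold nu
  exact Finset.sum_nonneg fun _ _ => Finset.sum_nonneg fun _ _ => Finset.sum_nonneg fun _ _ =>
    (Real.exp_pos _).le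

/-- `∑ 1/h² ≤ 2/J` over integers with `|h| > J` -/
theorem A1_tail {J : ℕ} (hJ : 0 < J) (T : Finset ℤ) (hT : ∀ h ∈ T, (J : ℝ) < |(h : ℝ)|) :
    ∑ h ∈ T, 1 / (h : ℝ) ^ 2 ≤ 2 / (J : ℝ) := by
  classical
  -- bound the set
  obtain ⟨N, hN⟩ : ∃ N : ℕ, ∀ h ∈ T, h.natAbs ≤ N :=
    ⟨T.sup Int.natAbs, fun h hh => Finset.le_sup (f := Int.natAbs) hh⟩
  set S1 : Finset ℤ := (Finset.Ioc J N).image (fun m : ℕ => (m : ℤ)) with hS1
  set S2 : Finset ℤ := (Finset.Ioc J N).image (fun m : ℕ => -(m : ℤ)) with hS2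
  have hsub : T ⊆ S1 ∪ S2 := by
    intro h hh
    have h1 := hT h hh
    have h2 := hN h hh
    have h3 : J < h.natAbs := by
      have : ((h.natAbs : ℕ) : ℝ) = |(h : ℝ)| := by
        rw [Nat.cast_natAbs]
        push_cast
        rfl
      rw [← this] at h1
      exact_mod_cast h1
    rw [Finset.mem_union]
    rcases Int.natAbs_eq h with h4 | h4
    · left
      exact Finset.mem_image.2 ⟨h.natAbs, Finset.mem_Ioc.2 ⟨h3, h2⟩, h4.symm⟩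
    · right
      exact Finset.mem_image.2 ⟨h.natAbs, Finset.mem_Ioc.2 ⟨h3, h2⟩, h4.symm⟩
  have hnat : ∑ m ∈ Finset.Ioc J N, 1 / (m : ℝ) ^ 2 ≤ 1 / (J : ℝ) := by
    rcases Nat.lt_or_ge J N with h5 | h5
    · have := sum_Ioc_inv_sq_le_sub (α := ℝ) (k := J) (n := N) hJ.ne' h5.le
      have e1 : ∑ m ∈ Finset.Ioc J N, 1 / (m : ℝ) ^ 2 = ∑ m ∈ Finset.Ioc J N, ((m : ℝ) ^ 2)⁻¹ :=
        Finset.sum_congr rfl fun m _ => one_div _
      rw [e1, one_div]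
      have h6 : (0 : ℝ) ≤ ((N : ℝ))⁻¹ := by positivity
      linarith
    · rw [Finset.Ioc_eq_empty (by omega), Finset.sum_empty]
      positivity
  have i1 : ∑ h ∈ S1, 1 / (h : ℝ) ^ 2 = ∑ m ∈ Finset.Ioc J N, 1 / (m : ℝ) ^ 2 := by
    rw [hS1, Finset.sum_image (by
      intro a _ b _ hab
      have h9 : (a : ℤ) = b := hab
      exact_mod_cast h9)]
    exact Finset.sum_congr rfl fun m _ => by push_cast; rfl
  have i2 : ∑ h ∈ S2, 1 / (h : ℝ) ^ 2 = ∑ m ∈ Finset.Ioc J N, 1 / (m : ℝ) ^ 2 := by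
    rw [hS2, Finset.sum_image (by
      intro a _ b _ hab
      have h9 : -(a : ℤ) = -b := hab
      exact_mod_cast neg_injective h9)]
    refine Finset.sum_congr rfl fun m _ => ?_
    push_cast
    rw [neg_sq]
  calc ∑ h ∈ T, 1 / (h : ℝ) ^ 2 ≤ ∑ h ∈ S1 ∪ S2, 1 / (h : ℝ) ^ 2 :=
        Finset.sum_le_sum_of_subset_of_nonneg hsub fun _ _ _ => by positivity
    _ ≤ ∑ h ∈ S1, 1 / (h : ℝ) ^ 2 + ∑ h ∈ S2, 1 / (h : ℝ) ^ 2 := by
        have := Finset.sum_union_inter (s₁ := S1) (s₂ := S2) (f := fun h : ℤ => 1 / (h : ℝ) ^ 2)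
        have h7 : 0 ≤ ∑ h ∈ S1 ∩ S2, 1 / (h : ℝ) ^ 2 := Finset.sum_nonneg fun _ _ => by positivity
        linarith
    _ ≤ 1 / (J : ℝ) + 1 / (J : ℝ) := by rw [i1, i2]; linarith
    _ = 2 / (J : ℝ) := by ring

/-- bound for one test function `(τ/2)^n`, `τ = Mθ - c`, `θ = x0 k₂ k₃ - k₁`: insert `tent_fourier` with
`y = x0 k₂ k₃` (the sum over `k₁` is finite) and `e(j₀ (θ - c/M)) = e(-j₀c/M) e(j₀ x0)` (`k₁` integer):
`∑_h w_h ∑_{k₂,k₃} β γ e(h x0)`, `w_h = e(-j₀c/M) pc_{h-j₀}`, `‖w_h‖ ≤ C wt(h - j₀)/M`.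
`h ∈ HH J2`: `large_sieve`; `h = 0`: `C B²/M wt(j₀)`; `|h| > J2`: `C B²/M ∑ wt(h - j₀) ≤ C B² M/J2`
(`|h - j₀| ≥ |h|/2`). -/
theorem test_bound : ∃ C : ℝ, 1 ≤ C ∧ ∀ (K : ℝ) (M B J2 n : ℕ) (c i2 i3 j0 : ℤ) (β γ : ℤ → ℂ) (Zb : Finset ℤ),
    1 ≤ K → 1 ≤ M → 1 ≤ B → (B : ℝ) ≤ K →
    K / 2 ≤ ((i2 * B : ℤ) : ℝ) → ((i2 * B : ℤ) : ℝ) ≤ 3 * K →
    K / 2 ≤ ((i3 * B : ℤ) : ℝ) → ((i3 * B : ℤ) : ℝ) ≤ 20 * K → |(j0 : ℝ)| * B ≤ 10 * (K * M) →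
    2 * |(j0 : ℝ)| ≤ J2 → (M : ℝ) ≤ J2 →
    (∀ k, ‖β k‖ ≤ 1) → (∀ k, ‖γ k‖ ≤ 1) →
    (∀ k1 k2 k3 : ℤ, k2 ∈ bl B i2 → k3 ∈ bl B i3 → tent (M * (x0 k2 k3 - k1) - c) ≠ 0 → k1 ∈ Zb) →
    ‖∑ k1 ∈ Zb, ∑ k2 ∈ bl B i2, ∑ k3 ∈ bl B i3,
      (tent (M * (x0 k2 k3 - k1) - c) : ℂ) * β k2 * γ k3 * e (j0 * (x0 k2 k3 - k1 - c / M)) *
        (((M * (x0 k2 k3 - k1) - c) / 2 : ℝ) : ℂ) ^ n‖ ≤
      C * (√((B : ℝ) ^ 2 / M * ∑ h ∈ HH J2, wt M (h - j0) * nu K B i3 J2 h) +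
        (B : ℝ) ^ 2 / M * wt M j0 + (M : ℝ) / J2 * (B : ℝ) ^ 2) := by
  obtain ⟨C1, hC1, hF⟩ := tent_fourier
  obtain ⟨C2, hC2, hS⟩ := large_sieve
  have hs2 : 0 ≤ √C2 := Real.sqrt_nonneg _
  have hC10 : 0 < C1 := by linarith
  refine ⟨C1 * (√C2 + 8), by nlinarith, ?_⟩
  intro K M B J2 n c i2 i3 j0 β γ Zb hK hM hB hBK h2a h2b h3a h3b hj hj2 hMJ hβ hγ hZ
  obtain ⟨pc, hpc, hsum⟩ := hF M c n hM
  have hM0 : (0 : ℝ) < M := by exact_mod_cast hM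
  have hJ0 : (0 : ℝ) < J2 := hM0.trans_le hMJ
  have hJ : 0 < J2 := by exact_mod_cast hJ0
  set G : ℤ → ℂ := fun h => ∑ k2 ∈ bl B i2, ∑ k3 ∈ bl B i3, β k2 * γ k3 * e (h * x0 k2 k3) with hG
  set w : ℤ → ℂ := fun h => e (-(j0 * (c / M))) * pc (h - j0) with hw
  have hwn : ∀ h : ℤ, ‖w h‖ ≤ C1 / M * wt M (h - j0) := by
    intro h
    simp only [hw]
    rw [norm_mul, norm_e, one_mul]
    have := hpc (h - j0)
    push_cast at this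
    exact this
  have hGn : ∀ h : ℤ, ‖G h‖ ≤ (B : ℝ) ^ 2 := by
    intro h
    simp only [hG]
    calc ‖∑ k2 ∈ bl B i2, ∑ k3 ∈ bl B i3, β k2 * γ k3 * e (h * x0 k2 k3)‖ ≤
        ∑ k2 ∈ bl B i2, ∑ k3 ∈ bl B i3, (1 : ℝ) := by
          refine (norm_sum_le _ _).trans (Finset.sum_le_sum fun k2 _ => ?_)
          refine (norm_sum_le _ _).trans (Finset.sum_le_sum fun k3 _ => ?_)
          rw [norm_mul, norm_mul, norm_e, mul_one]
          calc ‖β k2‖ * ‖γ k3‖ ≤ 1 * 1 := mul_le_mul (hβ k2) (hγ k3) (norm_nonneg _) zero_le_one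
            _ = 1 := one_mul 1
      _ = (B : ℝ) ^ 2 := by
          rw [Finset.sum_const, Finset.sum_const, A1_card_bl, A1_card_bl]
          simp
          ring
  -- the whole sum as a series
  have hmain : HasSum (fun h : ℤ => w h * G h) (∑ k1 ∈ Zb, ∑ k2 ∈ bl B i2, ∑ k3 ∈ bl B i3,
      (tent (M * (x0 k2 k3 - k1) - c) : ℂ) * β k2 * γ k3 * e (j0 * (x0 k2 k3 - k1 - c / M)) *
        (((M * (x0 k2 k3 - k1) - c) / 2 : ℝ) : ℂ) ^ n) := by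
    have h1 : HasSum (fun j : ℤ => ∑ k2 ∈ bl B i2, ∑ k3 ∈ bl B i3,
        (β k2 * γ k3 * e (j0 * x0 k2 k3) * e (-(j0 * (c / M)))) * (pc j * e (j * x0 k2 k3)))
        (∑ k2 ∈ bl B i2, ∑ k3 ∈ bl B i3, (β k2 * γ k3 * e (j0 * x0 k2 k3) * e (-(j0 * (c / M)))) *
          ∑ k1 ∈ Zb, (tent (M * (x0 k2 k3 - k1) - c) : ℂ) *
            (((M * (x0 k2 k3 - k1) - c) / 2 : ℝ) : ℂ) ^ n) := by
      refine hasSum_sum fun k2 hk2 => hasSum_sum fun k3 hk3 => ?_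
      exact (hsum (x0 k2 k3) Zb fun k1 hk1 => hZ k1 k2 k3 hk2 hk3 hk1).mul_left _
    have e1 : (∑ k2 ∈ bl B i2, ∑ k3 ∈ bl B i3,
        (β k2 * γ k3 * e (j0 * x0 k2 k3) * e (-(j0 * (c / M)))) *
          ∑ k1 ∈ Zb, (tent (M * (x0 k2 k3 - k1) - c) : ℂ) *
            (((M * (x0 k2 k3 - k1) - c) / 2 : ℝ) : ℂ) ^ n) =
        ∑ k1 ∈ Zb, ∑ k2 ∈ bl B i2, ∑ k3 ∈ bl B i3,
      (tent (M * (x0 k2 k3 - k1) - c) : ℂ) * β k2 * γ k3 * e (j0 * (x0 k2 k3 - k1 - c / M)) *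
        (((M * (x0 k2 k3 - k1) - c) / 2 : ℝ) : ℂ) ^ n := by
      rw [Finset.sum_comm (s := Zb)]
      refine Finset.sum_congr rfl fun k2 _ => ?_
      rw [Finset.sum_comm (s := Zb)]
      refine Finset.sum_congr rfl fun k3 _ => ?_
      rw [Finset.mul_sum]
      refine Finset.sum_congr rfl fun k1 _ => ?_
      have e2 : e (j0 * (x0 k2 k3 - k1 - c / M)) = e (j0 * x0 k2 k3) * e (-(j0 * (c / M))) := by
        rw [← e_add, ← e_add_int (j0 * x0 k2 k3 + -(j0 * (c / M))) (-(j0 * k1))]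
        congr 1
        push_cast
        ring
      rw [e2]
      ring
    rw [e1] at h1
    have e3 : (fun j : ℤ => ∑ k2 ∈ bl B i2, ∑ k3 ∈ bl B i3,
        (β k2 * γ k3 * e (j0 * x0 k2 k3) * e (-(j0 * (c / M)))) * (pc j * e (j * x0 k2 k3))) =
        (fun h : ℤ => w h * G h) ∘ (Equiv.addRight j0) := by
      funext j
      simp only [Function.comp, Equiv.coe_addRight, hw, hG, add_sub_cancel_right]
      rw [Finset.mul_sum]
      refine Finset.sum_congr rfl fun k2 _ => ?_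
      rw [Finset.mul_sum]
      refine Finset.sum_congr rfl fun k3 _ => ?_
      have e4 : e (((j + j0 : ℤ) : ℝ) * x0 k2 k3) = e (j * x0 k2 k3) * e (j0 * x0 k2 k3) := by
        rw [← e_add]
        congr 1
        push_cast
        ring
      rw [e4]
      ring
    rw [e3] at h1
    exact (Equiv.addRight j0).hasSum_iff.1 h1
  -- the three parts
  set X : ℝ := (B : ℝ) ^ 2 / M * ∑ h ∈ HH J2, wt M (h - j0) * nu K B i3 J2 h with hX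
  have hX0 : 0 ≤ X := by
    rw [hX]
    refine mul_nonneg (by positivity) (Finset.sum_nonneg fun h _ => ?_)
    exact mul_nonneg (wt_pos _ _).le (A1_nu_nonneg _ _ _ _ _)
  have part1 : ‖∑ h ∈ HH J2, w h * G h‖ ≤ C1 * (√C2 * √X) := by
    have h1 := hS K M B J2 i2 i3 j0 β γ (fun h => w h / C1) hK hM hB hBK h2a h2b h3a h3b hj hβ hγ
      (by
        intro h
        rw [norm_div, Complex.norm_real, Real.norm_of_nonneg hC10.le, div_le_iff₀ hC10]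
        refine (hwn h).trans (le_of_eq ?_)
        ring)
    have e1 : ∑ h ∈ HH J2, w h * G h = (C1 : ℂ) * ∑ h ∈ HH J2, (w h / C1) * G h := by
      rw [Finset.mul_sum]
      refine Finset.sum_congr rfl fun h _ => ?_
      have : (C1 : ℂ) ≠ 0 := by exact_mod_cast hC10.ne'
      field_simp
    rw [e1, norm_mul, Complex.norm_real, Real.norm_of_nonneg hC10.le]
    refine mul_le_mul_of_nonneg_left ?_ hC10.le
    rw [← Real.sqrt_mul (by linarith : 0 ≤ C2)]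
    exact Real.le_sqrt_of_sq_le h1
  have part2 : ‖w 0 * G 0‖ ≤ C1 * ((B : ℝ) ^ 2 / M * wt M j0) := by
    rw [norm_mul]
    have h1 := hwn 0
    have h2 := hGn 0
    have e1 : wt M (((0 : ℤ) : ℝ) - j0) = wt M j0 := by
      rw [Int.cast_zero, zero_sub, A1_wt_neg]
    rw [e1] at h1
    have h3 : 0 ≤ C1 / M * wt M j0 := mul_nonneg (by positivity) (wt_pos _ _).le
    calc ‖w 0‖ * ‖G 0‖ ≤ (C1 / M * wt M j0) * (B : ℝ) ^ 2 :=
          mul_le_mul h1 h2 (norm_nonneg _) h3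
      _ = _ := by ring
  have part3 : ∀ T : Finset ℤ, (∀ h ∈ T, (J2 : ℝ) < |(h : ℝ)|) →
      ‖∑ h ∈ T, w h * G h‖ ≤ C1 * (8 * ((M : ℝ) / J2 * (B : ℝ) ^ 2)) := by
    intro T hT
    have h1 : ∀ h ∈ T, ‖w h * G h‖ ≤ 4 * C1 * M * (B : ℝ) ^ 2 * (1 / (h : ℝ) ^ 2) := by
      intro h hh
      have h2 := hT h hh
      have hh0 : (0 : ℝ) < |(h : ℝ)| := hJ0.trans h2
      have h3 : |(h : ℝ)| / 2 ≤ |(h : ℝ) - j0| := by
        have := abs_sub_abs_le_abs_sub (h : ℝ) (j0 : ℝ)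
        linarith
      have h4 : 0 < |(h : ℝ) - j0| := by linarith
      have h5 : (h : ℝ) - j0 ≠ 0 := abs_pos.1 h4
      have h6 := A1_wt_le hM0 h5
      have h7 : (h : ℝ) ^ 2 / 4 ≤ ((h : ℝ) - j0) ^ 2 := by
        rw [← sq_abs (h : ℝ), ← sq_abs ((h : ℝ) - j0)]
        nlinarith
      have hh2 : 0 < (h : ℝ) ^ 2 := by rw [← sq_abs]; positivity
      have h8 : wt M ((h : ℝ) - j0) ≤ (M : ℝ) ^ 2 * (4 / (h : ℝ) ^ 2) := by
        refine h6.trans ?_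
        rw [div_eq_mul_inv, ← one_div]
        refine mul_le_mul_of_nonneg_left ?_ (by positivity)
        rw [div_le_div_iff₀ (by positivity) hh2]
        linarith
      rw [norm_mul]
      have h9 : 0 ≤ C1 / M * wt M ((h : ℝ) - j0) := mul_nonneg (by positivity) (wt_pos _ _).le
      calc ‖w h‖ * ‖G h‖ ≤ (C1 / M * wt M ((h : ℝ) - j0)) * (B : ℝ) ^ 2 :=
            mul_le_mul (hwn h) (hGn h) (norm_nonneg _) h9
        _ ≤ (C1 / M * ((M : ℝ) ^ 2 * (4 / (h : ℝ) ^ 2))) * (B : ℝ) ^ 2 := by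
            refine mul_le_mul_of_nonneg_right ?_ (by positivity)
            exact mul_le_mul_of_nonneg_left h8 (by positivity)
        _ = _ := by
            field_simp
    calc ‖∑ h ∈ T, w h * G h‖ ≤ ∑ h ∈ T, 4 * C1 * M * (B : ℝ) ^ 2 * (1 / (h : ℝ) ^ 2) :=
          (norm_sum_le _ _).trans (Finset.sum_le_sum h1)
      _ = 4 * C1 * M * (B : ℝ) ^ 2 * ∑ h ∈ T, 1 / (h : ℝ) ^ 2 := by rw [Finset.mul_sum]
      _ ≤ 4 * C1 * M * (B : ℝ) ^ 2 * (2 / J2) :=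
          mul_le_mul_of_nonneg_left (A1_tail hJ T hT) (by positivity)
      _ = _ := by ring
  have hfin : ∀ T : Finset ℤ, insert 0 (HH J2) ⊆ T → ‖∑ h ∈ T, w h * G h‖ ≤
      C1 * (√C2 * √X) + C1 * ((B : ℝ) ^ 2 / M * wt M j0) +
        C1 * (8 * ((M : ℝ) / J2 * (B : ℝ) ^ 2)) := by
    intro T hT
    have h0 : (0 : ℤ) ∉ HH J2 := fun h => (mem_HH.1 h).1 rfl
    rw [← Finset.sum_sdiff hT, Finset.sum_insert h0]
    have q3 := part3 (T \ insert 0 (HH J2)) (by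
      intro h hh
      rw [Finset.mem_sdiff, Finset.mem_insert, not_or] at hh
      by_contra hcon
      exact hh.2.2 (mem_HH.2 ⟨hh.2.1, not_lt.1 hcon⟩))
    calc ‖∑ h ∈ T \ insert 0 (HH J2), w h * G h + (w 0 * G 0 + ∑ h ∈ HH J2, w h * G h)‖ ≤
        ‖∑ h ∈ T \ insert 0 (HH J2), w h * G h‖ + (‖w 0 * G 0‖ + ‖∑ h ∈ HH J2, w h * G h‖) :=
          (norm_add_le _ _).trans (add_le_add le_rfl (norm_add_le _ _))
      _ ≤ _ := by linarith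
  have hlim := le_of_tendsto (hmain.norm) (Filter.eventually_atTop.2 ⟨insert 0 (HH J2), hfin⟩)
  refine hlim.trans ?_
  have y1 : 0 ≤ √X := Real.sqrt_nonneg _
  have y2 : 0 ≤ (B : ℝ) ^ 2 / M * wt M j0 := mul_nonneg (by positivity) (wt_pos _ _).le
  have y3 : 0 ≤ (M : ℝ) / J2 * (B : ℝ) ^ 2 := by positivity
  have z1 : √C2 * √X ≤ (√C2 + 8) * √X := by nlinarith
  have z2 : (B : ℝ) ^ 2 / M * wt M j0 ≤ (√C2 + 8) * ((B : ℝ) ^ 2 / M * wt M j0) := by nlinarith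
  have z3 : 8 * ((M : ℝ) / J2 * (B : ℝ) ^ 2) ≤ (√C2 + 8) * ((M : ℝ) / J2 * (B : ℝ) ^ 2) := by
    nlinarith
  calc C1 * (√C2 * √X) + C1 * ((B : ℝ) ^ 2 / M * wt M j0) +
        C1 * (8 * ((M : ℝ) / J2 * (B : ℝ) ^ 2)) =
      C1 * (√C2 * √X + (B : ℝ) ^ 2 / M * wt M j0 + 8 * ((M : ℝ) / J2 * (B : ℝ) ^ 2)) := by ring
    _ ≤ C1 * ((√C2 + 8) * √X + (√C2 + 8) * ((B : ℝ) ^ 2 / M * wt M j0) +
        (√C2 + 8) * ((M : ℝ) / J2 * (B : ℝ) ^ 2)) := mul_le_mul_of_nonneg_left (by linarith) hC10.le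
    _ = _ := by ring

end TS
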