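import Pool.Agent.Lib.MP_39df77_nt.TS.Phase
import Pool.Agent.Lib.MP_39df77_nt.TS.CellBound1
import Pool.Agent.Lib.MP_39df77_nt.TS.Cells

/-!
Row TS-A2: the bound for one cell and one pair of blocks.
-/

set_option autoImplicit false

namespace TS

open Finset

namespace A2

/-- elementary consequences of `Par` -/
theorem par_basic {K R : ℝ} {L M B : ℕ} (h : Par K R L M B) :
    1 ≤ K ∧ (L : ℝ) ≤ K ∧ 1 ≤ M ∧ 1 ≤ B ∧ (B : ℝ) ≤ K := by
  have hL : (1 : ℝ) ≤ L := by exact_mod_cast h.hL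
  have hR := h.hR
  have hLR : 1 ≤ (L : ℝ) * R := by nlinarith
  have hLR2 : (L : ℝ) ≤ (L : ℝ) * R := by nlinarith
  have hp : (L : ℝ) * R ≤ ((L : ℝ) * R) ^ 11 := le_self_pow₀ hLR (by norm_num)
  have hK1 : 10 ^ 48 ≤ K := by
    have := h.big
    nlinarith [one_le_pow₀ hLR (n := 11)]
  have hK : 1 ≤ K := by linarith [show (1 : ℝ) ≤ 10 ^ 48 by norm_num]
  have hLK : (L : ℝ) ≤ K := by
    have := h.big
    nlinarith [one_le_pow₀ hLR (n := 11)]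
  have hsK : 1 ≤ √K := by rw [Real.one_le_sqrt]; exact hK
  have hsL : 1 ≤ √(L : ℝ) := by rw [Real.one_le_sqrt]; exact hL
  refine ⟨hK, hLK, ?_, ?_, ?_⟩
  · by_contra hc
    have hM : M = 0 := by omega
    have := h.M1
    rw [hM] at this
    norm_num at this
    linarith
  · by_contra hc
    have hB : B = 0 := by omega
    have := h.B2
    rw [hB] at this
    norm_num at this
    nlinarith
  · have h1 := h.B1
    have hBsq : (B : ℝ) ^ 2 ≤ K ^ 2 := by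
      have h2 : (B : ℝ) ^ 2 ≤ (B : ℝ) ^ 2 * √(L : ℝ) * R := by
        have : 1 ≤ √(L : ℝ) * R := by nlinarith
        nlinarith [sq_nonneg (B : ℝ)]
      have h3 : K * √K ≤ K ^ 2 := by
        have : √K ≤ K := by
          rw [Real.sqrt_le_left (by linarith)]
          nlinarith
        nlinarith
      have h4 : (0 : ℝ) ≤ (B : ℝ) ^ 2 * √(L : ℝ) * R := by positivity
      nlinarith
    exact (sq_le_sq₀ (by positivity) (by linarith)).mp hBsq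

theorem js_B {K R : ℝ} {L M B : ℕ} (h : Par K R L M B) {j : ℝ} (hj : |j| ≤ 4 * √(K / L)) :
    |j| * B ≤ 10 * (K * M) := by
  obtain ⟨hK, hLK, hM, hB, hBK⟩ := par_basic h
  have hL : (1 : ℝ) ≤ L := by exact_mod_cast h.hL
  have hR := h.hR
  have hsK : 1 ≤ √K := by rw [Real.one_le_sqrt]; exact hK
  have hsL : 1 ≤ √(L : ℝ) := by rw [Real.one_le_sqrt]; exact hL
  have hKK : √K * √K = K := Real.mul_self_sqrt (by linarith)
  have hLL : √(L : ℝ) * √(L : ℝ) = L := Real.mul_self_sqrt (by linarith)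
  have h0 : (4 * √(K / L) * B) ^ 2 ≤ (10 * (K * M)) ^ 2 := by
    have e1 : (4 * √(K / L) * B) ^ 2 = 16 * (K / L) * B ^ 2 := by
      rw [mul_pow, mul_pow, Real.sq_sqrt (by positivity)]
      ring
    rw [e1]
    -- 10^6 B² √L ≤ K √K, √K ≤ L √L M²
    have b1 : 10 ^ 6 * ((B : ℝ) ^ 2 * √(L : ℝ)) ≤ K * √K := by
      have := h.B1
      have h5 : (B : ℝ) ^ 2 * √(L : ℝ) ≤ (B : ℝ) ^ 2 * √(L : ℝ) * R := by
        have : (0 : ℝ) ≤ (B : ℝ) ^ 2 * √(L : ℝ) := by positivity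
        nlinarith
      linarith
    have m1 := h.M1
    have key : (B : ℝ) ^ 2 ≤ K * L * (M : ℝ) ^ 2 := by
      have h6 : 10 ^ 6 * ((B : ℝ) ^ 2 * √(L : ℝ)) ≤ K * ((L : ℝ) * √(L : ℝ) * (M : ℝ) ^ 2) :=
        b1.trans (mul_le_mul_of_nonneg_left m1 (by linarith))
      have h7 : 10 ^ 6 * (B : ℝ) ^ 2 * √(L : ℝ) ≤ (K * L * (M : ℝ) ^ 2) * √(L : ℝ) := by linarith
      have h8 : 10 ^ 6 * (B : ℝ) ^ 2 ≤ K * L * (M : ℝ) ^ 2 :=
        le_of_mul_le_mul_right h7 (by linarith)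
      nlinarith [sq_nonneg (B : ℝ)]
    have h9 : 16 * (K / L) * (B : ℝ) ^ 2 ≤ 16 * (K / L) * (K * L * (M : ℝ) ^ 2) :=
      mul_le_mul_of_nonneg_left key (by positivity)
    have h10 : 16 * (K / L) * (K * L * (M : ℝ) ^ 2) = 16 * (K * M) ^ 2 := by
      field_simp
    have h11 : 0 ≤ (K * (M : ℝ)) ^ 2 := sq_nonneg _
    calc 16 * (K / L) * (B : ℝ) ^ 2 ≤ 16 * (K * M) ^ 2 := by rw [← h10]; exact h9
      _ ≤ (10 * (K * M)) ^ 2 := by nlinarith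
  have h1 : 4 * √(K / L) * B ≤ 10 * (K * M) := by
    have hnn : (0 : ℝ) ≤ 10 * (K * M) := by positivity
    exact (sq_le_sq₀ (by positivity) hnn).mp h0
  calc |j| * B ≤ 4 * √(K / L) * B := mul_le_mul_of_nonneg_right hj (by positivity)
    _ ≤ _ := h1

/-- the linear factor is Nice -/
theorem lin_nice {ι : Type} (X : Finset ι) (τ : ι → ℝ) (p r : ι → ℤ) (g : ℝ) (M : ℕ) (hM : 1 ≤ M)
    (hg : |g| ≤ 1 / 2) : Nice X τ p r (Real.exp (2 * Real.pi)) (fun x => e (g / M * τ x)) := by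
  have hM' : (1 : ℝ) ≤ M := by exact_mod_cast hM
  have h1 : Nice X τ p r (‖(2 * Real.pi * Complex.I * ((g / M : ℝ) : ℂ))‖ * 2)
      (fun x => (2 * Real.pi * Complex.I * ((g / M : ℝ) : ℂ)) * (τ x : ℂ)) := Nice.smul _ Nice.tau
  have h2 : ‖(2 * Real.pi * Complex.I * ((g / M : ℝ) : ℂ))‖ * 2 ≤ 2 * Real.pi := by
    rw [norm_mul, norm_mul, norm_mul, Complex.norm_I, Complex.norm_real, Complex.norm_real]
    have hp := Real.pi_pos
    rw [Real.norm_eq_abs, Real.norm_eq_abs, abs_of_pos hp, abs_div, Nat.abs_cast]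
    have h3 : |g| / (M : ℝ) ≤ 1 / 2 := by
      calc |g| / (M : ℝ) ≤ |g| := div_le_self (abs_nonneg _) hM'
        _ ≤ 1 / 2 := hg
    have h4 : ‖(2 : ℂ)‖ = 2 := by simp
    rw [h4]
    nlinarith
  have h3 := (h1.mono h2)
  have h4 := Nice.exp (by positivity : (0 : ℝ) ≤ 2 * Real.pi) h3
  refine h4.congr ?_
  intro x _
  unfold e
  congr 1
  push_cast
  ring

end A2

/-- `X` = the triples `(k₁,k₂,k₃)` in `Zb × blocks` with `tent ≠ 0`, `τ = Mθ - c`, `p = k₂`, `r = k₃`;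
`phase_nice` with `θ₀ = c/M`, `u₀ = i₂B`, `v₀ = i₃B`; `e(Gτ) = e(j₀ τ/M) e((G - j₀/M) τ)` with
`|G - j₀/M| ≤ 1/(2M)`, the last factor is Nice with constant `exp(2π)` (`Nice.tau`, `Nice.exp`); `j₀ = js ...`;
`ψ = tent β e(f2) γ e(f3) e(j₀ τ/M)`; `test_bound` (the phases `f2`, `f3`, `u`, `v` go into `β`, `γ`). -/
theorem cell_bound : ∃ C : ℝ, 1 ≤ C ∧ ∀ (K R : ℝ) (L M B J2 : ℕ) (e2 e3 c i2 i3 : ℤ) (β γ : ℤ → ℂ)
    (Zb : Finset ℤ), Par K R L M B → 8 * √(K / L) ≤ J2 → (M : ℝ) ≤ J2 →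
    |(e2 : ℝ)| ≤ 10 * L * √R → |(e3 : ℝ)| ≤ 10 * L * √R → Good K R L M B e2 e3 c i2 i3 →
    (∀ k, ‖β k‖ ≤ 1) → (∀ k, ‖γ k‖ ≤ 1) →
    (∀ k1 k2 k3 : ℤ, k2 ∈ bl B i2 → k3 ∈ bl B i3 → tent (M * (x0 k2 k3 - k1) - c) ≠ 0 → k1 ∈ Zb) →
    ‖Sc M B β γ Zb e2 e3 c i2 i3‖ ≤
      C * (√((B : ℝ) ^ 2 / M * ∑ h ∈ HH J2, wt M (h - js M B e2 e3 c i2 i3) * nu K B i3 J2 h) +
        (B : ℝ) ^ 2 / M * wt M (js M B e2 e3 c i2 i3) + (M : ℝ) / J2 * (B : ℝ) ^ 2) := by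
  obtain ⟨C₀, hC₀, hph⟩ := phase_nice
  obtain ⟨C₁, hC₁, htb⟩ := test_bound
  refine ⟨C₁ * (C₀ * Real.exp (2 * Real.pi)), ?_, ?_⟩
  · have h1 : 1 ≤ Real.exp (2 * Real.pi) := Real.one_le_exp (by positivity)
    have h2 : 1 ≤ C₀ * Real.exp (2 * Real.pi) := by nlinarith
    nlinarith
  intro K R L M B J2 e2 e3 c i2 i3 β γ Zb hP hJ2 hMJ he2 he3 hG hβ hγ hZb
  obtain ⟨hK, hLK, hM, hB, hBK⟩ := A2.par_basic hP
  have hM0 : (M : ℝ) ≠ 0 := by
    have : (1 : ℝ) ≤ M := by exact_mod_cast hM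
    linarith
  have hL1 : 1 ≤ L := hP.hL
  set u₀ : ℝ := ((i2 * B : ℤ) : ℝ) with hu₀
  set v₀ : ℝ := ((i3 * B : ℤ) : ℝ) with hv₀
  set θ₀ : ℝ := (c : ℝ) / M with hθ₀
  set G : ℝ := Fp (√(√(u₀ * v₀))) (xt e2 e3 u₀ v₀) θ₀ with hGdef
  set j0 : ℤ := js M B e2 e3 c i2 i3 with hj0
  have hj0' : j0 = round G := by rw [hj0, hGdef]; rfl
  -- the set of points
  classical
  set X : Finset (ℤ × ℤ × ℤ) := (Zb ×ˢ bl B i2 ×ˢ bl B i3).filter
    (fun k => tent (M * (x0 k.2.1 k.2.2 - k.1) - c) ≠ 0) with hX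
  set τ : ℤ × ℤ × ℤ → ℝ := fun k => M * (x0 k.2.1 k.2.2 - k.1) - c with hτ
  have hXm : ∀ x ∈ X, |τ x| ≤ 1 ∧ u₀ ≤ (x.2.1 : ℤ) ∧ ((x.2.1 : ℤ) : ℝ) ≤ u₀ + B ∧ v₀ ≤ (x.2.2 : ℤ) ∧
      ((x.2.2 : ℤ) : ℝ) ≤ v₀ + B := by
    intro x hx
    rw [hX, Finset.mem_filter, Finset.mem_product, Finset.mem_product] at hx
    obtain ⟨⟨_, h2, h3⟩, h4⟩ := hx
    unfold bl at h2 h3
    rw [Finset.mem_Ico] at h2 h3
    refine ⟨(tent_ne h4).le, ?_, ?_, ?_, ?_⟩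
    · rw [hu₀]; exact_mod_cast h2.1
    · rw [hu₀]
      have := h2.2.le
      exact_mod_cast this
    · rw [hv₀]; exact_mod_cast h3.1
    · rw [hv₀]
      have := h3.2.le
      exact_mod_cast this
  obtain ⟨f2, f3, hN⟩ := hph K R L M B hP e2 e3 θ₀ u₀ v₀ he2 he3 hG.θ1 hG.θ2 hG.t1 hG.t2 hG.u1 hG.u2
    hG.uv hG.v2 X τ (fun x => x.2.1) (fun x => x.2.2) hXm
  have hlin : Nice X τ (fun x => x.2.1) (fun x => x.2.2) (Real.exp (2 * Real.pi))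
      (fun x => e ((G - j0) / M * τ x)) :=
    A2.lin_nice X τ _ _ (G - j0) M hM (by rw [hj0']; exact abs_sub_round G)
  have hNice := hN.mul hlin
  set b1 : ℤ → ℂ := fun k => β k * e (f2 k) with hb1
  set g1 : ℤ → ℂ := fun k => γ k * e (f3 k) with hg1
  set ψ : ℤ × ℤ × ℤ → ℂ := fun x => (tent (τ x) : ℂ) * b1 x.2.1 * g1 x.2.2 *
    e (j0 * (x0 x.2.1 x.2.2 - x.1 - c / M)) with hψ
  set T : ℝ := C₁ * (√((B : ℝ) ^ 2 / M * ∑ h ∈ HH J2, wt M (h - j0) * nu K B i3 J2 h) +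
        (B : ℝ) ^ 2 / M * wt M j0 + (M : ℝ) / J2 * (B : ℝ) ^ 2) with hT
  have hPle : √(√(u₀ * v₀)) ≤ 3 * √K := by
    have h1 : u₀ * v₀ ≤ 60 * K ^ 2 := by
      have hu := hG.u2
      have hv := hG.v2
      have hu1 := hG.u1
      have huv := hG.uv
      rw [← hu₀] at hu hu1 huv
      rw [← hv₀] at hv huv
      nlinarith
    have h2 : √(u₀ * v₀) ≤ 9 * K := by
      rw [Real.sqrt_le_left (by linarith)]
      nlinarith
    rw [Real.sqrt_le_left (by positivity), mul_pow, Real.sq_sqrt (by linarith)]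
    linarith
  have hjs : |(j0 : ℝ)| ≤ 4 * √(K / L) := by
    rw [hj0']
    exact js_upper K L _ _ _ hL1 hLK (Real.sqrt_nonneg _) hPle hG.θ1 hG.t1
  have hfun : ∀ (n : ℕ) (u v : ℤ → ℂ), (∀ k, ‖u k‖ ≤ 1) → (∀ k, ‖v k‖ ≤ 1) →
      ‖∑ x ∈ X, ψ x * (((τ x / 2 : ℝ) : ℂ) ^ n * u x.2.1 * v x.2.2)‖ ≤ T := by
    intro n u v hu hv
    have h1 := htb K M B J2 n c i2 i3 j0 (fun k => b1 k * u k) (fun k => g1 k * v k) Zb hK hM hB hBK
      hG.u1 hG.u2 (hG.u1.trans hG.uv.le) hG.v2 (A2.js_B hP hjs) (by linarith) hMJ ?_ ?_ hZb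
    · refine le_trans (le_of_eq ?_) h1
      congr 1
      rw [hX, Finset.sum_filter]
      rw [Finset.sum_product]
      refine Finset.sum_congr rfl fun k1 _ => ?_
      rw [Finset.sum_product]
      refine Finset.sum_congr rfl fun k2 _ => Finset.sum_congr rfl fun k3 _ => ?_
      split_ifs with h
      · simp only [hψ, hτ]
        ring
      · push Not at h
        simp only [h]
        simp
    · intro k
      rw [norm_mul, hb1, norm_mul, norm_e, mul_one]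
      calc ‖β k‖ * ‖u k‖ ≤ 1 * 1 := mul_le_mul (hβ k) (hu k) (norm_nonneg _) zero_le_one
        _ = 1 := one_mul 1
    · intro k
      rw [norm_mul, hg1, norm_mul, norm_e, mul_one]
      calc ‖γ k‖ * ‖v k‖ ≤ 1 * 1 := mul_le_mul (hγ k) (hv k) (norm_nonneg _) zero_le_one
        _ = 1 := one_mul 1
  have hmain := hNice ψ T hfun
  have hSc : Sc M B β γ Zb e2 e3 c i2 i3 = ∑ x ∈ X, ψ x * (e (Ft e2 e3 (θ₀ + τ x / M) x.2.1 x.2.2 - f2 x.2.1 -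
      f3 x.2.2 - G / M * τ x) * e ((G - j0) / M * τ x)) := by
    unfold Sc
    rw [hX, Finset.sum_filter, Finset.sum_product]
    refine Finset.sum_congr rfl fun k1 _ => ?_
    rw [Finset.sum_product]
    refine Finset.sum_congr rfl fun k2 _ => Finset.sum_congr rfl fun k3 _ => ?_
    split_ifs with h
    · simp only [hψ, hτ, hb1, hg1]
      have e1 : θ₀ + (M * (x0 k2 k3 - k1) - c) / M = x0 k2 k3 - k1 := by
        rw [hθ₀]; field_simp; ring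
      rw [e1]
      have e2' : e (Ft e2 e3 (x0 k2 k3 - k1) k2 k3) = e (f2 k2) * e (f3 k3) *
          e (j0 * (x0 k2 k3 - k1 - c / M)) *
          (e (Ft e2 e3 (x0 k2 k3 - k1) k2 k3 - f2 k2 - f3 k3 - G / M * (M * (x0 k2 k3 - k1) - c)) *
          e ((G - j0) / M * (M * (x0 k2 k3 - k1) - c))) := by
        rw [← e_add, ← e_add, ← e_add, ← e_add]
        congr 1
        field_simp
        ring
      rw [e2']
      ring
    · push Not at h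
      rw [h]
      simp
  rw [hSc]
  calc _ ≤ T * (C₀ * Real.exp (2 * Real.pi)) := hmain
    _ = _ := by rw [hT]; ring

end TS
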