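import Pool.Agent.Lib.MP_39df77_nt.TS.Defs
import Pool.Agent.Lib.MP_39df77_nt.U6.A09

/-!
Row TS-C: the number of close pairs.
-/

set_option autoImplicit false

namespace TS

open Finset

/-- residue classes in an interval -/
private lemma C_modEq (a b m v : ℤ) (hm : 0 < m) (hab : a ≤ b) :
    (((Icc a b).filter (fun x => x ≡ v [ZMOD m])).card : ℝ) ≤ ((b : ℝ) - a) / m + 2 := by
  have h0 : Icc a b = Ioc (a - 1) b := by
    ext x
    simp only [mem_Icc, mem_Ioc]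
    omega
  have hm' : (0 : ℝ) < m := by exact_mod_cast hm
  rw [h0]
  have h1 := Int.Ioc_filter_modEq_card (a - 1) b hm v
  have h2 : (((Ioc (a - 1) b).filter (fun x => x ≡ v [ZMOD m])).card : ℤ) =
      max (⌊((b : ℚ) - v) / m⌋ - ⌊(((a - 1 : ℤ) : ℚ) - v) / m⌋) 0 := by
    rw [← h1]
  have h3 : ((((Ioc (a - 1) b).filter (fun x => x ≡ v [ZMOD m])).card : ℤ) : ℝ) ≤
      ((b : ℝ) - a) / m + 2 := by
    rw [h2]
    push_cast
    apply max_le
    · have e1 : (⌊((b : ℚ) - v) / m⌋ : ℝ) ≤ ((b : ℝ) - v) / m := by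
        have := Int.floor_le (((b : ℚ) - v) / m)
        have h : ((⌊((b : ℚ) - v) / m⌋ : ℚ) : ℝ) ≤ ((((b : ℚ) - v) / m : ℚ) : ℝ) := by exact_mod_cast this
        push_cast at h
        exact h
      have e2 : (((a : ℝ) - 1) - v) / m - 1 ≤ (⌊((a : ℚ) - 1 - v) / m⌋ : ℝ) := by
        have := (Int.sub_one_lt_floor (((a : ℚ) - 1 - v) / m)).le
        have h : (((((a : ℚ) - 1 - v) / m - 1 : ℚ)) : ℝ) ≤ ((⌊((a : ℚ) - 1 - v) / m⌋ : ℚ) : ℝ) := by
          exact_mod_cast this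
        push_cast at h
        exact h
      have e3 : ((b : ℝ) - v) / m - ((((a : ℝ) - 1) - v) / m - 1) = ((b : ℝ) - a) / m + 1 / m + 1 := by
        field_simp
        ring
      have e4 : 1 / (m : ℝ) ≤ 1 := by
        rw [div_le_one hm']
        exact_mod_cast hm
      linarith
    · have : (0 : ℝ) ≤ (b : ℝ) - a := by
        have : (a : ℝ) ≤ b := by exact_mod_cast hab
        linarith
      positivity
  exact_mod_cast h3

/-- naturals near a given one -/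
private lemma C_near (s : Finset ℕ) (k : ℕ) (Y : ℝ) (hY : 0 ≤ Y) :
    ((s.filter (fun x => x ≠ k ∧ |(x : ℝ) - k| ≤ Y)).card : ℝ) ≤ 2 * Y := by
  have h1 : (s.filter (fun x => x ≠ k ∧ |(x : ℝ) - k| ≤ Y)).card ≤
      ((Icc (-(⌊Y⌋₊ : ℤ)) ⌊Y⌋₊).erase 0).card := by
    apply Finset.card_le_card_of_injOn (fun x : ℕ => (x : ℤ) - k)
    · intro x hx
      have hx' := (Finset.mem_filter.1 (Finset.mem_coe.1 hx)).2
      obtain ⟨h2, h3⟩ := hx'
      simp only [Finset.coe_erase, Set.mem_sdiff, Finset.mem_coe, mem_Icc, Set.mem_singleton_iff]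
      have h4 : |((x : ℤ) - k : ℤ)| ≤ (⌊Y⌋₊ : ℤ) := by
        have h5 : ((|((x : ℤ) - k : ℤ)|.toNat : ℕ) : ℝ) ≤ Y := by
          have : ((|((x : ℤ) - k : ℤ)|.toNat : ℕ) : ℤ) = |((x : ℤ) - k : ℤ)| :=
            Int.toNat_of_nonneg (abs_nonneg _)
          have h6 : ((|((x : ℤ) - k : ℤ)|.toNat : ℕ) : ℝ) = |(x : ℝ) - k| := by
            have : (((|((x : ℤ) - k : ℤ)|.toNat : ℕ) : ℤ) : ℝ) = ((|((x : ℤ) - k : ℤ)| : ℤ) : ℝ) := by
              rw [this]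
            push_cast at this
            exact_mod_cast this
          rw [h6]
          exact h3
        have h7 := Nat.le_floor h5
        have : |((x : ℤ) - k : ℤ)| = ((|((x : ℤ) - k : ℤ)|.toNat : ℕ) : ℤ) :=
          (Int.toNat_of_nonneg (abs_nonneg _)).symm
        rw [this]
        exact_mod_cast h7
      rw [abs_le] at h4
      refine ⟨h4, ?_⟩
      intro h8
      apply h2
      omega
    · intro x _ y _ hxy
      simp only at hxy
      omega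
  have h2 : ((Icc (-(⌊Y⌋₊ : ℤ)) ⌊Y⌋₊).erase 0).card = 2 * ⌊Y⌋₊ := by
    rw [Finset.card_erase_of_mem (by simp), Int.card_Icc]
    omega
  have h3 : ((⌊Y⌋₊ : ℕ) : ℝ) ≤ Y := Nat.floor_le hY
  calc ((s.filter (fun x => x ≠ k ∧ |(x : ℝ) - k| ≤ Y)).card : ℝ) ≤ ((2 * ⌊Y⌋₊ : ℕ) : ℝ) := by
        rw [h2] at h1
        exact_mod_cast h1
    _ = 2 * ⌊Y⌋₊ := by push_cast; ring
    _ ≤ 2 * Y := by linarith

/-- given `h`, `h'`: the pairs `(k, k')` with `0 < |h² k - h'² k'| ≤ V` -/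
private lemma C_pairs (h h' K1 K2 : ℕ) (hh : 1 ≤ h) (hh' : 1 ≤ h') (hK : K1 ≤ K2) (V : ℝ) (hV : 0 ≤ V) :
    (((Icc K1 K2 ×ˢ Icc K1 K2).filter (fun p : ℕ × ℕ => h ^ 2 * p.1 ≠ h' ^ 2 * p.2 ∧
      |(h : ℝ) ^ 2 * p.1 - (h' : ℝ) ^ 2 * p.2| ≤ V)).card : ℝ) ≤
      2 * V * (((K2 : ℝ) - K1) / (h' : ℝ) ^ 2 + 2) := by
  obtain ⟨a, b, hab, ha, hb⟩ := Nat.exists_coprime h h'
  set g := Nat.gcd h h' with hg
  have hg1 : 1 ≤ g := Nat.gcd_pos_of_pos_left _ hh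
  have ha1 : 1 ≤ a := by
    rcases Nat.eq_zero_or_pos a with h0 | h0
    · rw [h0] at ha; omega
    · exact h0
  have hb1 : 1 ≤ b := by
    rcases Nat.eq_zero_or_pos b with h0 | h0
    · rw [h0] at hb; omega
    · exact h0
  set S := (Icc K1 K2 ×ˢ Icc K1 K2).filter (fun p : ℕ × ℕ => h ^ 2 * p.1 ≠ h' ^ 2 * p.2 ∧
      |(h : ℝ) ^ 2 * p.1 - (h' : ℝ) ^ 2 * p.2| ≤ V) with hS
  have hgR : (1 : ℝ) ≤ g := by exact_mod_cast hg1
  have hbR : (1 : ℝ) ≤ b := by exact_mod_cast hb1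
  set W := ⌊V / (g : ℝ) ^ 2⌋₊ with hW
  have hWle : (W : ℝ) ≤ V / (g : ℝ) ^ 2 := Nat.floor_le (by positivity)
  have hK' : (0 : ℝ) ≤ (K2 : ℝ) - K1 := by
    have : (K1 : ℝ) ≤ K2 := by exact_mod_cast hK
    linarith
  have hR0 : 0 ≤ ((K2 : ℝ) - K1) / (b : ℝ) ^ 2 + 2 := by positivity
  have hfib : S.card ≤ ⌊((K2 : ℝ) - K1) / (b : ℝ) ^ 2 + 2⌋₊ * ((Icc (-(W : ℤ)) W).erase 0).card := by
    apply Finset.card_le_mul_card_image_of_maps_to
      (f := fun p : ℕ × ℕ => (a : ℤ) ^ 2 * p.1 - (b : ℤ) ^ 2 * p.2)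
    · intro p hp
      obtain ⟨h1, h2, h3⟩ := Finset.mem_filter.1 hp
      have e1 : (h : ℝ) ^ 2 * p.1 - (h' : ℝ) ^ 2 * p.2 =
          (g : ℝ) ^ 2 * (((a : ℤ) ^ 2 * p.1 - (b : ℤ) ^ 2 * p.2 : ℤ) : ℝ) := by
        rw [ha, hb]
        push_cast
        ring
      have e2 : |(((a : ℤ) ^ 2 * p.1 - (b : ℤ) ^ 2 * p.2 : ℤ) : ℝ)| ≤ V / (g : ℝ) ^ 2 := by
        rw [e1, abs_mul, abs_of_nonneg (by positivity : (0 : ℝ) ≤ (g : ℝ) ^ 2)] at h3
        rw [le_div_iff₀ (by positivity)]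
        linarith
      have e3 : |((a : ℤ) ^ 2 * p.1 - (b : ℤ) ^ 2 * p.2 : ℤ)| ≤ (W : ℤ) := by
        have e4 : ((|((a : ℤ) ^ 2 * p.1 - (b : ℤ) ^ 2 * p.2 : ℤ)|.toNat : ℕ) : ℝ) ≤ V / (g : ℝ) ^ 2 := by
          have e5 : ((|((a : ℤ) ^ 2 * p.1 - (b : ℤ) ^ 2 * p.2 : ℤ)|.toNat : ℕ) : ℤ) =
            |((a : ℤ) ^ 2 * p.1 - (b : ℤ) ^ 2 * p.2 : ℤ)| := Int.toNat_of_nonneg (abs_nonneg _)
          have e6 : (((|((a : ℤ) ^ 2 * p.1 - (b : ℤ) ^ 2 * p.2 : ℤ)|.toNat : ℕ) : ℤ) : ℝ) =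
            ((|((a : ℤ) ^ 2 * p.1 - (b : ℤ) ^ 2 * p.2 : ℤ)| : ℤ) : ℝ) := by rw [e5]
          rw [Int.cast_natCast, Int.cast_abs] at e6
          rw [e6]
          exact e2
        have e7 := Nat.le_floor e4
        have e8 : |((a : ℤ) ^ 2 * p.1 - (b : ℤ) ^ 2 * p.2 : ℤ)| =
            ((|((a : ℤ) ^ 2 * p.1 - (b : ℤ) ^ 2 * p.2 : ℤ)|.toNat : ℕ) : ℤ) :=
          (Int.toNat_of_nonneg (abs_nonneg _)).symm
        rw [e8]
        exact Int.ofNat_le.2 e7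
      rw [Finset.mem_erase, Finset.mem_Icc]
      refine ⟨?_, abs_le.1 e3⟩
      intro h0
      apply h2
      have h5 : (a : ℤ) ^ 2 * p.1 = (b : ℤ) ^ 2 * p.2 := by linarith
      have h6 : a ^ 2 * p.1 = b ^ 2 * p.2 := by exact_mod_cast h5
      rw [ha, hb]
      calc (a * g) ^ 2 * p.1 = g ^ 2 * (a ^ 2 * p.1) := by ring
        _ = g ^ 2 * (b ^ 2 * p.2) := by rw [h6]
        _ = (b * g) ^ 2 * p.2 := by ring
    · intro w _
      apply Nat.le_floor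
      -- the class of `k`
      have hcop : IsCoprime ((a : ℤ) ^ 2) ((b : ℤ) ^ 2) :=
        (Nat.isCoprime_iff_coprime.2 hab).pow
      obtain ⟨u, v, huv⟩ := hcop
      have h1 : (S.filter (fun p : ℕ × ℕ => (a : ℤ) ^ 2 * p.1 - (b : ℤ) ^ 2 * p.2 = w)).card ≤
          ((Icc (K1 : ℤ) K2).filter (fun x => x ≡ u * w [ZMOD (b : ℤ) ^ 2])).card := by
        apply Finset.card_le_card_of_injOn (fun p : ℕ × ℕ => (p.1 : ℤ))
        · intro p hp
          obtain ⟨h2, h3⟩ := Finset.mem_filter.1 (Finset.mem_coe.1 hp)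
          have h4 := (Finset.mem_filter.1 h2).1
          rw [Finset.mem_product, Finset.mem_Icc] at h4
          rw [Finset.mem_coe, Finset.mem_filter, Finset.mem_Icc]
          refine ⟨⟨Int.ofNat_le.2 h4.1.1, Int.ofNat_le.2 h4.1.2⟩, ?_⟩
          apply Int.ModEq.symm
          rw [Int.modEq_iff_dvd]
          refine ⟨v * p.1 + u * p.2, ?_⟩
          have h5 : (p.1 : ℤ) = (u * (a : ℤ) ^ 2 + v * (b : ℤ) ^ 2) * p.1 := by rw [huv, one_mul]
          rw [← h3]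
          calc (p.1 : ℤ) - u * ((a : ℤ) ^ 2 * p.1 - (b : ℤ) ^ 2 * p.2)
              = (u * (a : ℤ) ^ 2 + v * (b : ℤ) ^ 2) * p.1 - u * ((a : ℤ) ^ 2 * p.1 - (b : ℤ) ^ 2 * p.2) := by
                rw [← h5]
            _ = (b : ℤ) ^ 2 * (v * p.1 + u * p.2) := by ring
        · intro p hp q hq hpq
          obtain ⟨h2, h3⟩ := Finset.mem_filter.1 (Finset.mem_coe.1 hp)
          obtain ⟨h4, h5⟩ := Finset.mem_filter.1 (Finset.mem_coe.1 hq)
          simp only at hpq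
          have h6 : p.1 = q.1 := by exact_mod_cast hpq
          have h7 : (b : ℤ) ^ 2 * p.2 = (b : ℤ) ^ 2 * q.2 := by
            rw [hpq] at h3
            linarith
          have h8 : (b : ℤ) ^ 2 ≠ 0 := by positivity
          have h9 : (p.2 : ℤ) = q.2 := mul_left_cancel₀ h8 h7
          exact Prod.ext h6 (by exact_mod_cast h9)
      have h2 := C_modEq (K1 : ℤ) K2 ((b : ℤ) ^ 2) (u * w) (by positivity) (by exact_mod_cast hK)
      push_cast at h2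
      refine le_trans ?_ h2
      exact_mod_cast h1
  have hcard : ((Icc (-(W : ℤ)) W).erase 0).card = 2 * W := by
    rw [Finset.card_erase_of_mem (by simp), Int.card_Icc]
    omega
  rw [hcard] at hfib
  have h1 : (S.card : ℝ) ≤ (⌊((K2 : ℝ) - K1) / (b : ℝ) ^ 2 + 2⌋₊ : ℝ) * (2 * W) := by
    exact_mod_cast hfib
  have h2 : (⌊((K2 : ℝ) - K1) / (b : ℝ) ^ 2 + 2⌋₊ : ℝ) ≤ ((K2 : ℝ) - K1) / (b : ℝ) ^ 2 + 2 := Nat.floor_le hR0
  have h3 : (S.card : ℝ) ≤ (((K2 : ℝ) - K1) / (b : ℝ) ^ 2 + 2) * (2 * (V / (g : ℝ) ^ 2)) := by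
    refine h1.trans ?_
    gcongr
  refine h3.trans ?_
  have h4 : (h' : ℝ) = b * g := by rw [hb]; push_cast; ring
  rw [h4]
  have h5 : (((K2 : ℝ) - K1) / (b : ℝ) ^ 2 + 2) * (2 * (V / (g : ℝ) ^ 2)) =
      2 * V * (((K2 : ℝ) - K1) / ((b : ℝ) * g) ^ 2 + 2 / (g : ℝ) ^ 2) := by
    field_simp
  rw [h5]
  have h6 : 2 / (g : ℝ) ^ 2 ≤ 2 := by
    rw [div_le_iff₀ (by positivity)]
    nlinarith
  gcongr

/-- the close quadruples `((h, k), (h', k'))` -/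
private noncomputable def CS (K B δ : ℝ) (J : ℕ) : Finset ((ℕ × ℕ) × (ℕ × ℕ)) :=
  ((Finset.Ico J (2 * J) ×ˢ Finset.Icc 1 ⌊21 * K⌋₊) ×ˢ
      (Finset.Icc 1 (20 * J) ×ˢ Finset.Icc 1 ⌊21 * K⌋₊)).filter
      (fun z : (ℕ × ℕ) × (ℕ × ℕ) => K / 2 ≤ (z.1.2 : ℝ) ∧ K / 2 ≤ (z.2.2 : ℝ) ∧
        |(z.1.2 : ℝ) - z.2.2| ≤ B ∧
        |(z.1.1 : ℝ) * √(z.1.2 : ℝ) - z.2.1 * √(z.2.2 : ℝ)| ≤ δ)

private lemma C_mem {K B δ : ℝ} {J : ℕ} {z : (ℕ × ℕ) × (ℕ × ℕ)} (hz : z ∈ CS K B δ J) :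
    J ≤ z.1.1 ∧ z.1.1 < 2 * J ∧ 1 ≤ z.2.1 ∧ z.1.2 ∈ Icc 1 ⌊21 * K⌋₊ ∧ z.2.2 ∈ Icc 1 ⌊21 * K⌋₊ ∧
      K / 2 ≤ (z.1.2 : ℝ) ∧ K / 2 ≤ (z.2.2 : ℝ) ∧ |(z.1.2 : ℝ) - z.2.2| ≤ B ∧
        |(z.1.1 : ℝ) * √(z.1.2 : ℝ) - z.2.1 * √(z.2.2 : ℝ)| ≤ δ := by
  obtain ⟨h1, h2⟩ := Finset.mem_filter.1 hz
  rw [mem_product, mem_product, mem_product, mem_Ico] at h1
  exact ⟨h1.1.1.1, h1.1.1.2, (mem_Icc.1 h1.2.1).1, h1.1.2, h1.2.2, h2⟩

private lemma C_le {K : ℝ} (hK : 1 ≤ K) {k : ℕ} (hk : k ∈ Icc 1 ⌊21 * K⌋₊) : (k : ℝ) ≤ 21 * K := by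
  have h1 := (mem_Icc.1 hk).2
  exact (Nat.cast_le.2 h1).trans (Nat.floor_le (by linarith))

/-- elementary facts on a close quadruple -/
private lemma C_facts {K B lam : ℝ} {J h h' k k' : ℕ} (hK : 1 ≤ K) (hl : 1 ≤ lam)
    (hlB : 4 * lam ≤ B) (hJ : 1 ≤ J) (hh : J ≤ h) (hh2 : h < 2 * J) (hh' : 1 ≤ h')
    (hk : K / 2 ≤ k) (hk2 : (k : ℝ) ≤ 21 * K) (hk' : K / 2 ≤ k') (hk'2 : (k' : ℝ) ≤ 21 * K)
    (hkk : |(k : ℝ) - k'| ≤ B)
    (hn : |(h : ℝ) * √(k : ℝ) - h' * √(k' : ℝ)| ≤ lam * √K / B) :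
    |(h : ℝ) ^ 2 * k - (h' : ℝ) ^ 2 * k'| ≤ 20 * lam * J * K / B ∧
    (J : ℝ) / 10 ≤ h' ∧ |(h' : ℝ) - h| ≤ 2 * lam / B + 14 * J * B / K ∧
    (h = h' → |(k' : ℝ) - k| ≤ 10 * lam * K / (B * J)) := by
  have hK0 : (0 : ℝ) < K := by linarith
  have hB0 : (0 : ℝ) < B := by linarith
  set s := √K with hs
  have hs0 : 0 < s := Real.sqrt_pos.2 hK0
  have hss : s * s = K := Real.mul_self_sqrt hK0.le
  set a := √(k : ℝ) with ha
  set b := √(k' : ℝ) with hb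
  have haa : a * a = k := Real.mul_self_sqrt (Nat.cast_nonneg _)
  have hbb : b * b = k' := Real.mul_self_sqrt (Nat.cast_nonneg _)
  have ha0 : 0 ≤ a := Real.sqrt_nonneg _
  have hb0 : 0 ≤ b := Real.sqrt_nonneg _
  have ha1 : 0.7 * s ≤ a := by
    apply Real.le_sqrt_of_sq_le
    nlinarith
  have hb1 : 0.7 * s ≤ b := by
    apply Real.le_sqrt_of_sq_le
    nlinarith
  have ha2 : a ≤ 4.6 * s := by
    apply Real.sqrt_le_iff.2
    constructor
    · positivity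
    · nlinarith
  have hb2 : b ≤ 4.6 * s := by
    apply Real.sqrt_le_iff.2
    constructor
    · positivity
    · nlinarith
  have hJ1 : (1 : ℝ) ≤ J := by exact_mod_cast hJ
  have h1 : (J : ℝ) ≤ h := by exact_mod_cast hh
  have h2 : (h : ℝ) ≤ 2 * J := by exact_mod_cast hh2.le
  have h3 : (1 : ℝ) ≤ h' := by exact_mod_cast hh'
  have hd1 : lam * s / B ≤ s / 4 := by
    rw [div_le_div_iff₀ hB0 (by norm_num)]
    nlinarith
  have hd0 : 0 ≤ lam * s / B := by positivity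
  have hn1 := abs_le.1 hn
  -- upper bound for `h' b`
  have h4 : (h' : ℝ) * b ≤ 9.45 * J * s := by
    have e1 : (h : ℝ) * a ≤ (2 * J) * (4.6 * s) := mul_le_mul h2 ha2 ha0 (by positivity)
    have e2 : s ≤ J * s := by nlinarith
    linarith [hn1.1]
  have h5 : (h' : ℝ) ≤ 13.5 * J := by
    have e1 : (h' : ℝ) * (0.7 * s) ≤ (h' : ℝ) * b := mul_le_mul_of_nonneg_left hb1 (by linarith)
    have e2 : (h' : ℝ) * s ≤ (13.5 * J) * s := by nlinarith
    exact le_of_mul_le_mul_right e2 hs0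
  have h6 : (J : ℝ) / 10 ≤ h' := by
    have e1 : (J : ℝ) * (0.7 * s) ≤ h * a := mul_le_mul h1 ha1 (by positivity) (by linarith)
    have e2 : (h' : ℝ) * b ≤ h' * (4.6 * s) := mul_le_mul_of_nonneg_left hb2 (by linarith)
    have e3 : (0.7 * (J : ℝ) - 0.25) * s ≤ (4.6 * h') * s := by nlinarith [hn1.2]
    have e4 : 0.7 * (J : ℝ) - 0.25 ≤ 4.6 * h' := le_of_mul_le_mul_right e3 hs0
    linarith
  refine ⟨?_, h6, ?_, ?_⟩
  · -- V
    have e1 : (h : ℝ) ^ 2 * k - (h' : ℝ) ^ 2 * k' = (h * a - h' * b) * (h * a + h' * b) := by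
      rw [← haa, ← hbb]; ring
    rw [e1, abs_mul]
    have e2 : |(h : ℝ) * a + h' * b| ≤ 20 * J * s := by
      rw [abs_of_nonneg (by positivity)]
      have : (h : ℝ) * a ≤ (2 * J) * (4.6 * s) := mul_le_mul h2 ha2 ha0 (by positivity)
      have e3 : 0 ≤ (J : ℝ) * s := by positivity
      nlinarith
    calc |(h : ℝ) * a - h' * b| * |(h : ℝ) * a + h' * b| ≤ (lam * s / B) * (20 * J * s) :=
          mul_le_mul hn e2 (abs_nonneg _) hd0
      _ = 20 * lam * J * (s * s) / B := by ring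
      _ = 20 * lam * J * K / B := by rw [hss]
  · -- X
    have e1 : |b - a| * (1.4 * s) ≤ B := by
      have : |(k : ℝ) - k'| = |b - a| * (a + b) := by
        rw [← haa, ← hbb, show a * a - b * b = (a - b) * (a + b) by ring, abs_mul,
          abs_of_nonneg (by positivity : (0 : ℝ) ≤ a + b), abs_sub_comm]
      calc |b - a| * (1.4 * s) ≤ |b - a| * (a + b) :=
            mul_le_mul_of_nonneg_left (by linarith) (abs_nonneg _)
        _ = |(k : ℝ) - k'| := this.symm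
        _ ≤ B := hkk
    have e2 : |(h' : ℝ) - h| * a ≤ lam * s / B + h' * |b - a| := by
      have : ((h' : ℝ) - h) * a = -((h : ℝ) * a - h' * b) - h' * (b - a) := by ring
      calc |(h' : ℝ) - h| * a = |((h' : ℝ) - h) * a| := by rw [abs_mul, abs_of_nonneg ha0]
        _ = |-((h : ℝ) * a - h' * b) - h' * (b - a)| := by rw [this]
        _ ≤ |-((h : ℝ) * a - h' * b)| + |(h' : ℝ) * (b - a)| := abs_sub _ _
        _ = |(h : ℝ) * a - h' * b| + h' * |b - a| := by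
            rw [abs_neg, abs_mul, abs_of_nonneg (by linarith : (0 : ℝ) ≤ h')]
        _ ≤ _ := by linarith
    have e3 : |(h' : ℝ) - h| * (s * s) ≤ (2 * lam / B + 14 * J * B / K) * (s * s) := by
      have f1 : |(h' : ℝ) - h| * (0.7 * s) ≤ |(h' : ℝ) - h| * a := mul_le_mul_of_nonneg_left ha1 (abs_nonneg _)
      have f2 : (h' : ℝ) * |b - a| * s ≤ 13.5 * J * (B / 1.4) := by
        have g1 : (h' : ℝ) * (|b - a| * (1.4 * s)) ≤ (13.5 * J) * B :=
          mul_le_mul h5 e1 (by positivity) (by positivity)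
        calc (h' : ℝ) * |b - a| * s = h' * (|b - a| * (1.4 * s)) / 1.4 := by
              rw [eq_div_iff (by norm_num)]
              ring
          _ ≤ (13.5 * J) * B / 1.4 := div_le_div_of_nonneg_right g1 (by norm_num)
          _ = 13.5 * J * (B / 1.4) := by ring
      have f3 : (|(h' : ℝ) - h| * (0.7 * s)) * s ≤ (lam * s / B + h' * |b - a|) * s :=
        mul_le_mul_of_nonneg_right (f1.trans e2) hs0.le
      have f4 : (2 * lam / B + 14 * J * B / K) * (s * s) = 2 * (lam * s / B * s) + 14 * J * B := by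
        rw [hss]
        have : lam * s / B * s = lam * (s * s) / B := by ring
        rw [this, hss]
        field_simp
      rw [f4]
      have f5 : (0 : ℝ) ≤ J * B := by positivity
      have f6 : 0 ≤ lam * s / B * s := by positivity
      have f7 : (|(h' : ℝ) - h| * (0.7 * s)) * s = 0.7 * (|(h' : ℝ) - h| * (s * s)) := by ring
      have f8 : (lam * s / B + h' * |b - a|) * s = lam * s / B * s + h' * |b - a| * s := by ring
      have f9 : 13.5 * (J : ℝ) * (B / 1.4) ≤ 9.65 * (J * B) := by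
        have : 13.5 * (J : ℝ) * (B / 1.4) = (13.5 / 1.4) * (J * B) := by ring
        rw [this]
        exact mul_le_mul_of_nonneg_right (by norm_num) f5
      have f10 : 2 * (lam * s / B * s) + 14 * J * B = 2 * (lam * s / B * s) + 14 * (J * B) := by ring
      rw [f7, f8] at f3
      replace f2 := f2.trans f9
      rw [f10]
      clear f9 f10 f4 f7 f8 f1
      generalize |(h' : ℝ) - h| * (s * s) = p at f3 ⊢
      generalize lam * s / B * s = q at f3 f6 ⊢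
      generalize (h' : ℝ) * |b - a| * s = r at f2 f3
      generalize (J : ℝ) * B = w at f2 f5 ⊢
      nlinarith
    exact le_of_mul_le_mul_right e3 (by positivity)
  · intro hhh
    rw [← hhh] at hn
    have e1 : (h : ℝ) * |b - a| ≤ lam * s / B := by
      have : |(h : ℝ) * a - h * b| = h * |b - a| := by
        rw [show (h : ℝ) * a - h * b = h * (a - b) by ring, abs_mul, Nat.abs_cast, abs_sub_comm]
      rw [← this]
      exact hn
    have e2 : |(k' : ℝ) - k| = |b - a| * (a + b) := by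
      rw [← haa, ← hbb, show b * b - a * a = (b - a) * (a + b) by ring, abs_mul,
          abs_of_nonneg (by positivity : (0 : ℝ) ≤ a + b)]
    rw [e2, le_div_iff₀ (by positivity)]
    have e3 : (J : ℝ) * |b - a| ≤ lam * s / B := le_trans (mul_le_mul_of_nonneg_right h1 (abs_nonneg _)) e1
    have e4 : (J : ℝ) * |b - a| * (a + b) ≤ lam * s / B * (10 * s) :=
      mul_le_mul e3 (by linarith) (by positivity) hd0
    calc |b - a| * (a + b) * (B * J) = (J * |b - a| * (a + b)) * B := by ring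
      _ ≤ (lam * s / B * (10 * s)) * B := mul_le_mul_of_nonneg_right e4 hB0.le
      _ = 10 * lam * (s * s) := by field_simp
      _ = 10 * lam * K := by rw [hss]

private lemma C_t {K : ℝ} (hK : 1 ≤ K) (J : ℕ) :
    ((Ico J (2 * J) ×ˢ Icc 1 ⌊21 * K⌋₊).card : ℝ) ≤ J * (21 * K) := by
  rw [card_product, Nat.card_Ico, Nat.card_Icc]
  have h3 : 2 * J - J = J := by omega
  rw [h3, Nat.add_sub_cancel]
  push_cast
  exact mul_le_mul_of_nonneg_left (Nat.floor_le (by linarith)) (Nat.cast_nonneg _)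

/-- the zero part -/
private lemma C_zero {K B δ D : ℝ} {J : ℕ} (hK : 1 ≤ K) (hJ : 1 ≤ J) (hJK : (J : ℝ) ≤ K) (hD0 : 0 ≤ D)
    (hD : ∀ n : ℕ, 0 < n → (n : ℝ) ≤ 84 * K ^ 3 → (n.divisors.card : ℝ) ≤ D) :
    (((CS K B δ J).filter (fun z => z.1.1 ^ 2 * z.1.2 = z.2.1 ^ 2 * z.2.2)).card : ℝ) ≤
      D * (J * (21 * K)) := by
  have hK0 : (0 : ℝ) < K := by linarith
  have h1 : ((CS K B δ J).filter (fun z => z.1.1 ^ 2 * z.1.2 = z.2.1 ^ 2 * z.2.2)).card ≤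
      ⌊D⌋₊ * (Ico J (2 * J) ×ˢ Icc 1 ⌊21 * K⌋₊).card := by
    apply Finset.card_le_mul_card_image_of_maps_to (f := fun z : (ℕ × ℕ) × (ℕ × ℕ) => z.1)
    · intro z hz
      have h2 := C_mem (Finset.mem_filter.1 hz).1
      rw [mem_product, mem_Ico]
      exact ⟨⟨h2.1, h2.2.1⟩, h2.2.2.2.1⟩
    · intro r hr
      rw [mem_product, mem_Ico] at hr
      apply Nat.le_floor
      have hr2 := mem_Icc.1 hr.2
      have hn0 : 0 < r.1 ^ 2 * r.2 := by
        have h2 : 0 < r.1 := by omega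
        have h3 : 0 < r.2 := by omega
        positivity
      have hn1 : ((r.1 ^ 2 * r.2 : ℕ) : ℝ) ≤ 84 * K ^ 3 := by
        have h2 : (r.1 : ℝ) ≤ 2 * K := by
          have : (r.1 : ℝ) ≤ 2 * J := by exact_mod_cast hr.1.2.le
          linarith
        have h3 : (r.2 : ℝ) ≤ 21 * K := C_le hK hr.2
        push_cast
        calc (r.1 : ℝ) ^ 2 * r.2 ≤ (2 * K) ^ 2 * (21 * K) := by gcongr
          _ = 84 * K ^ 3 := by ring
      refine le_trans ?_ (hD _ hn0 hn1)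
      have : (((CS K B δ J).filter (fun z => z.1.1 ^ 2 * z.1.2 = z.2.1 ^ 2 * z.2.2)).filter
          (fun z : (ℕ × ℕ) × (ℕ × ℕ) => z.1 = r)).card ≤ (r.1 ^ 2 * r.2).divisors.card := by
        apply Finset.card_le_card_of_injOn (fun z : (ℕ × ℕ) × (ℕ × ℕ) => z.2.1)
        · intro q hq
          obtain ⟨h1, h2⟩ := Finset.mem_filter.1 (Finset.mem_coe.1 hq)
          obtain ⟨h3, h4⟩ := Finset.mem_filter.1 h1
          rw [Finset.mem_coe, Nat.mem_divisors]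
          refine ⟨?_, hn0.ne'⟩
          rw [← h2]
          simp only
          rw [h4]
          exact Dvd.intro (q.2.1 * q.2.2) (by ring)
        · intro q hq q' hq' hqq
          obtain ⟨h1, h2⟩ := Finset.mem_filter.1 (Finset.mem_coe.1 hq)
          obtain ⟨h3, h4⟩ := Finset.mem_filter.1 h1
          obtain ⟨h5, h6⟩ := Finset.mem_filter.1 (Finset.mem_coe.1 hq')
          obtain ⟨h7, h8⟩ := Finset.mem_filter.1 h5
          simp only at hqq
          have e1 : q.1 = q'.1 := h2.trans h6.symm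
          have e2 : q.2.1 ^ 2 * q.2.2 = q.2.1 ^ 2 * q'.2.2 := by
            rw [← h4, e1, h8, hqq]
          have e3 : 0 < q.2.1 := (C_mem h3).2.2.1
          have e4 : q.2.2 = q'.2.2 := Nat.eq_of_mul_eq_mul_left (by positivity) e2
          exact Prod.ext e1 (Prod.ext hqq e4)
      exact_mod_cast this
  calc _ ≤ ((⌊D⌋₊ * (Ico J (2 * J) ×ˢ Icc 1 ⌊21 * K⌋₊).card : ℕ) : ℝ) := by exact_mod_cast h1
    _ = (⌊D⌋₊ : ℝ) * ((Ico J (2 * J) ×ˢ Icc 1 ⌊21 * K⌋₊).card : ℝ) := by push_cast; ring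
    _ ≤ D * (J * (21 * K)) := by
        apply mul_le_mul (Nat.floor_le hD0) (C_t hK J) (Nat.cast_nonneg _) hD0

/-- the diagonal part `h = h'`, `k ≠ k'` -/
private lemma C_diag {K B lam : ℝ} {J : ℕ} (hK : 1 ≤ K) (hl : 1 ≤ lam) (hlB : 4 * lam ≤ B)
    (hJ : 1 ≤ J) :
    (((CS K B (lam * √K / B) J).filter (fun z => z.1.1 = z.2.1 ∧ z.2.2 ≠ z.1.2)).card : ℝ) ≤
      420 * lam * K ^ 2 / B := by
  have hK0 : (0 : ℝ) < K := by linarith
  have hB0 : (0 : ℝ) < B := by linarith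
  have hJ0 : (0 : ℝ) < J := by exact_mod_cast hJ
  set Y := 10 * lam * K / (B * J) with hY
  have hY0 : 0 ≤ Y := by positivity
  have h1 : ((CS K B (lam * √K / B) J).filter (fun z => z.1.1 = z.2.1 ∧ z.2.2 ≠ z.1.2)).card ≤
      ⌊2 * Y⌋₊ * (Ico J (2 * J) ×ˢ Icc 1 ⌊21 * K⌋₊).card := by
    apply Finset.card_le_mul_card_image_of_maps_to (f := fun z : (ℕ × ℕ) × (ℕ × ℕ) => z.1)
    · intro z hz
      have h2 := C_mem (Finset.mem_filter.1 hz).1
      rw [mem_product, mem_Ico]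
      exact ⟨⟨h2.1, h2.2.1⟩, h2.2.2.2.1⟩
    · intro r hr
      apply Nat.le_floor
      have : (((CS K B (lam * √K / B) J).filter (fun z => z.1.1 = z.2.1 ∧ z.2.2 ≠ z.1.2)).filter
          (fun z : (ℕ × ℕ) × (ℕ × ℕ) => z.1 = r)).card ≤
          ((Icc 1 ⌊21 * K⌋₊).filter (fun x => x ≠ r.2 ∧ |(x : ℝ) - r.2| ≤ Y)).card := by
        apply Finset.card_le_card_of_injOn (fun z : (ℕ × ℕ) × (ℕ × ℕ) => z.2.2)
        · intro q hq
          obtain ⟨h1, h2⟩ := Finset.mem_filter.1 (Finset.mem_coe.1 hq)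
          obtain ⟨h3, h4, h5⟩ := Finset.mem_filter.1 h1
          obtain ⟨f1, f2, f3, f4, f5, f6, f7, f8, f9⟩ := C_mem h3
          rw [Finset.mem_coe, Finset.mem_filter]
          refine ⟨f5, by rw [← h2]; exact h5, ?_⟩
          rw [← h2]
          exact (C_facts hK hl hlB hJ f1 f2 f3 f6 (C_le hK f4) f7 (C_le hK f5) f8 f9).2.2.2 h4
        · intro q hq q' hq' hqq
          obtain ⟨h1, h2⟩ := Finset.mem_filter.1 (Finset.mem_coe.1 hq)
          obtain ⟨h3, h4, h5⟩ := Finset.mem_filter.1 h1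
          obtain ⟨h1', h2'⟩ := Finset.mem_filter.1 (Finset.mem_coe.1 hq')
          obtain ⟨h3', h4', h5'⟩ := Finset.mem_filter.1 h1'
          have e1 : q.1 = q'.1 := h2.trans h2'.symm
          exact Prod.ext e1 (Prod.ext (by rw [← h4, ← h4', e1]) hqq)
      exact le_trans (by exact_mod_cast this) (C_near (Icc 1 ⌊21 * K⌋₊) r.2 Y hY0)
  calc _ ≤ ((⌊2 * Y⌋₊ * (Ico J (2 * J) ×ˢ Icc 1 ⌊21 * K⌋₊).card : ℕ) : ℝ) := by exact_mod_cast h1
    _ = (⌊2 * Y⌋₊ : ℝ) * ((Ico J (2 * J) ×ˢ Icc 1 ⌊21 * K⌋₊).card : ℝ) := by push_cast; ring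
    _ ≤ (2 * Y) * (J * (21 * K)) := by
        apply mul_le_mul (Nat.floor_le (by positivity)) (C_t hK J) (Nat.cast_nonneg _) (by positivity)
    _ = 420 * lam * K ^ 2 / B := by
        rw [hY]; field_simp; ring

/-- the part `h ≠ h'`, `h² k ≠ h'² k'` -/
private lemma C_off {K B lam : ℝ} {J : ℕ} (hK : 1 ≤ K) (hl : 1 ≤ lam) (hlB : 4 * lam ≤ B)
    (hJ : 1 ≤ J) :
    (((CS K B (lam * √K / B) J).filter (fun z => z.2.1 ≠ z.1.1 ∧
      z.1.1 ^ 2 * z.1.2 ≠ z.2.1 ^ 2 * z.2.2)).card : ℝ) ≤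
      J * (2 * (2 * lam / B + 14 * J * B / K)) *
        (2 * (20 * lam * J * K / B) * (2100 * K / J ^ 2 + 2)) := by
  have hK0 : (0 : ℝ) < K := by linarith
  have hB0 : (0 : ℝ) < B := by linarith
  have hJ0 : (0 : ℝ) < J := by exact_mod_cast hJ
  set X := 2 * lam / B + 14 * J * B / K with hX
  have hX0 : 0 ≤ X := by positivity
  set V := 20 * lam * J * K / B with hV
  have hV0 : 0 ≤ V := by positivity
  set F := 2 * V * (2100 * K / (J : ℝ) ^ 2 + 2) with hF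
  have hF0 : 0 ≤ F := by positivity
  have h21 : 1 ≤ ⌊21 * K⌋₊ := Nat.le_floor (by push_cast; linarith)
  set t : Finset (ℕ × ℕ) := (Ico J (2 * J) ×ˢ Icc 1 (20 * J)).filter
    (fun r => r.2 ≠ r.1 ∧ |(r.2 : ℝ) - r.1| ≤ X) with ht
  have h1 : ((CS K B (lam * √K / B) J).filter (fun z => z.2.1 ≠ z.1.1 ∧
      z.1.1 ^ 2 * z.1.2 ≠ z.2.1 ^ 2 * z.2.2)).card ≤ ⌊F⌋₊ * t.card := by
    apply Finset.card_le_mul_card_image_of_maps_to (f := fun z : (ℕ × ℕ) × (ℕ × ℕ) => (z.1.1, z.2.1))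
    · intro q hq
      obtain ⟨h3, h4, h5⟩ := Finset.mem_filter.1 hq
      have h6 := (Finset.mem_filter.1 h3).1
      obtain ⟨f1, f2, f3, f4, f5, f6, f7, f8, f9⟩ := C_mem h3
      rw [mem_product, mem_product, mem_product] at h6
      rw [ht, Finset.mem_filter, mem_product]
      refine ⟨⟨h6.1.1, h6.2.1⟩, h4, ?_⟩
      exact (C_facts hK hl hlB hJ f1 f2 f3 f6 (C_le hK f4) f7 (C_le hK f5) f8 f9).2.2.1
    · intro r hr
      apply Nat.le_floor
      rw [ht, Finset.mem_filter, mem_product, mem_Ico, mem_Icc] at hr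
      have hr1 : 1 ≤ r.1 := by omega
      have hr2 : 1 ≤ r.2 := hr.1.2.1
      rcases Finset.eq_empty_or_nonempty (((CS K B (lam * √K / B) J).filter (fun z => z.2.1 ≠ z.1.1 ∧
          z.1.1 ^ 2 * z.1.2 ≠ z.2.1 ^ 2 * z.2.2)).filter
          (fun z : (ℕ × ℕ) × (ℕ × ℕ) => (z.1.1, z.2.1) = r)) with he | ⟨q₀, hq₀⟩
      · rw [he]
        simpa using hF0
      · -- `J/10 ≤ r.2`
        have hJr : (J : ℝ) / 10 ≤ r.2 := by
          obtain ⟨h1, h2⟩ := Finset.mem_filter.1 hq₀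
          obtain ⟨h3, h4, h5⟩ := Finset.mem_filter.1 h1
          obtain ⟨f1, f2, f3, f4, f5, f6, f7, f8, f9⟩ := C_mem h3
          have := (C_facts hK hl hlB hJ f1 f2 f3 f6 (C_le hK f4) f7 (C_le hK f5) f8 f9).2.1
          rw [← h2]
          exact this
        have h2 : (((CS K B (lam * √K / B) J).filter (fun z => z.2.1 ≠ z.1.1 ∧
            z.1.1 ^ 2 * z.1.2 ≠ z.2.1 ^ 2 * z.2.2)).filter
            (fun z : (ℕ × ℕ) × (ℕ × ℕ) => (z.1.1, z.2.1) = r)).card ≤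
            ((Icc 1 ⌊21 * K⌋₊ ×ˢ Icc 1 ⌊21 * K⌋₊).filter (fun p : ℕ × ℕ => r.1 ^ 2 * p.1 ≠ r.2 ^ 2 * p.2 ∧
              |(r.1 : ℝ) ^ 2 * p.1 - (r.2 : ℝ) ^ 2 * p.2| ≤ V)).card := by
          apply Finset.card_le_card_of_injOn (fun z : (ℕ × ℕ) × (ℕ × ℕ) => (z.1.2, z.2.2))
          · intro q hq
            obtain ⟨h1, h2⟩ := Finset.mem_filter.1 (Finset.mem_coe.1 hq)
            obtain ⟨h3, h4, h5⟩ := Finset.mem_filter.1 h1
            obtain ⟨f1, f2, f3, f4, f5, f6, f7, f8, f9⟩ := C_mem h3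
            have := (C_facts hK hl hlB hJ f1 f2 f3 f6 (C_le hK f4) f7 (C_le hK f5) f8 f9).1
            rw [Finset.mem_coe, Finset.mem_filter, mem_product]
            refine ⟨⟨f4, f5⟩, ?_, ?_⟩
            · rw [← h2]; exact h5
            · rw [← h2]; exact this
          · intro q hq q' hq' hqq
            have h2 := (Finset.mem_filter.1 (Finset.mem_coe.1 hq)).2
            have h3 := (Finset.mem_filter.1 (Finset.mem_coe.1 hq')).2
            have h4 := h2.trans h3.symm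
            simp only [Prod.mk.injEq] at h4 hqq
            exact Prod.ext (Prod.ext h4.1 hqq.1) (Prod.ext h4.2 hqq.2)
        have h3 := C_pairs r.1 r.2 1 ⌊21 * K⌋₊ hr1 hr2 h21 V hV0
        have h4 : ((⌊21 * K⌋₊ : ℝ) - (1 : ℕ)) / (r.2 : ℝ) ^ 2 ≤ 2100 * K / (J : ℝ) ^ 2 := by
          have hr2' : (0 : ℝ) < r.2 := by exact_mod_cast hr2
          rw [div_le_div_iff₀ (by positivity) (by positivity)]
          have e1 : (J : ℝ) ^ 2 ≤ 100 * (r.2 : ℝ) ^ 2 := by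
            have : (J : ℝ) ≤ 10 * r.2 := by linarith
            nlinarith
          have e2 : ((⌊21 * K⌋₊ : ℝ) - (1 : ℕ)) ≤ 21 * K := by
            have := Nat.floor_le (show 0 ≤ 21 * K by linarith)
            push_cast
            linarith
          calc ((⌊21 * K⌋₊ : ℝ) - (1 : ℕ)) * (J : ℝ) ^ 2 ≤ (21 * K) * (100 * (r.2 : ℝ) ^ 2) :=
                mul_le_mul e2 e1 (by positivity) (by positivity)
            _ = 2100 * K * (r.2 : ℝ) ^ 2 := by ring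
        calc _ ≤ (((Icc 1 ⌊21 * K⌋₊ ×ˢ Icc 1 ⌊21 * K⌋₊).filter (fun p : ℕ × ℕ => r.1 ^ 2 * p.1 ≠ r.2 ^ 2 * p.2 ∧
              |(r.1 : ℝ) ^ 2 * p.1 - (r.2 : ℝ) ^ 2 * p.2| ≤ V)).card : ℝ) := by exact_mod_cast h2
          _ ≤ 2 * V * (((⌊21 * K⌋₊ : ℝ) - (1 : ℕ)) / (r.2 : ℝ) ^ 2 + 2) := h3
          _ ≤ F := by rw [hF]; gcongr
  have h2 : (t.card : ℝ) ≤ J * (2 * X) := by
    have h3 : t.card ≤ ⌊2 * X⌋₊ * (Ico J (2 * J)).card := by
      apply Finset.card_le_mul_card_image_of_maps_to (f := fun r : ℕ × ℕ => r.1)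
      · intro r hr
        exact (Finset.mem_product.1 (Finset.mem_filter.1 hr).1).1
      · intro h hh
        apply Nat.le_floor
        have : (t.filter (fun r => r.1 = h)).card ≤
            ((Icc 1 (20 * J)).filter (fun x => x ≠ h ∧ |(x : ℝ) - h| ≤ X)).card := by
          apply Finset.card_le_card_of_injOn (fun r : ℕ × ℕ => r.2)
          · intro r hr
            obtain ⟨h1, h2⟩ := Finset.mem_filter.1 (Finset.mem_coe.1 hr)
            obtain ⟨h3, h4, h5⟩ := Finset.mem_filter.1 h1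
            rw [Finset.mem_coe, Finset.mem_filter]
            exact ⟨(Finset.mem_product.1 h3).2, by rw [← h2]; exact h4, by rw [← h2]; exact h5⟩
          · intro r hr r' hr' hrr
            have h2 := (Finset.mem_filter.1 (Finset.mem_coe.1 hr)).2
            have h3 := (Finset.mem_filter.1 (Finset.mem_coe.1 hr')).2
            exact Prod.ext (h2.trans h3.symm) hrr
        exact le_trans (by exact_mod_cast this) (C_near (Icc 1 (20 * J)) h X hX0)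
    have h4 : (Ico J (2 * J)).card = J := by rw [Nat.card_Ico]; omega
    rw [h4] at h3
    calc (t.card : ℝ) ≤ ((⌊2 * X⌋₊ * J : ℕ) : ℝ) := by exact_mod_cast h3
      _ = J * (⌊2 * X⌋₊ : ℝ) := by push_cast; ring
      _ ≤ J * (2 * X) := by
          apply mul_le_mul_of_nonneg_left (Nat.floor_le (by positivity)) hJ0.le
  calc _ ≤ ((⌊F⌋₊ * t.card : ℕ) : ℝ) := by exact_mod_cast h1
    _ = (t.card : ℝ) * (⌊F⌋₊ : ℝ) := by push_cast; ring
    _ ≤ (J * (2 * X)) * F := by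
        apply mul_le_mul h2 (Nat.floor_le hF0) (Nat.cast_nonneg _) (by positivity)

/-- all close quadruples -/
private lemma C_all {K B lam D : ℝ} {J : ℕ} (hK : 1 ≤ K) (hKB : K ≤ B ^ 2) (hl : 1 ≤ lam)
    (hlB : 4 * lam ≤ B) (hJ : 1 ≤ J) (hJK : (J : ℝ) ≤ K) (hD0 : 0 ≤ D)
    (hD : ∀ n : ℕ, 0 < n → (n : ℝ) ≤ 84 * K ^ 3 → (n.divisors.card : ℝ) ≤ D) :
    ((CS K B (lam * √K / B) J).card : ℝ) ≤
      (21 * D + 2400500 * lam ^ 2) * (K * J + K ^ 2 / B + J ^ 3) := by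
  have hK0 : (0 : ℝ) < K := by linarith
  have hB1 : (1 : ℝ) ≤ B := by linarith
  have hB0 : (0 : ℝ) < B := by linarith
  have hJ0 : (0 : ℝ) < J := by exact_mod_cast hJ
  have hJ1 : (1 : ℝ) ≤ J := by exact_mod_cast hJ
  set S := CS K B (lam * √K / B) J with hS
  have hcov : S ⊆ S.filter (fun z => z.1.1 ^ 2 * z.1.2 = z.2.1 ^ 2 * z.2.2) ∪
      (S.filter (fun z => z.1.1 = z.2.1 ∧ z.2.2 ≠ z.1.2) ∪
       S.filter (fun z => z.2.1 ≠ z.1.1 ∧ z.1.1 ^ 2 * z.1.2 ≠ z.2.1 ^ 2 * z.2.2)) := by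
    intro q hq
    rw [mem_union, mem_union, mem_filter, mem_filter, mem_filter]
    by_cases h1 : q.1.1 ^ 2 * q.1.2 = q.2.1 ^ 2 * q.2.2
    · exact Or.inl ⟨hq, h1⟩
    · right
      by_cases h2 : q.1.1 = q.2.1
      · left
        refine ⟨hq, h2, fun h3 => h1 ?_⟩
        rw [h2, h3]
      · right
        exact ⟨hq, fun h3 => h2 h3.symm, h1⟩
  have hc := (Finset.card_le_card hcov).trans ((Finset.card_union_le _ _).trans
    (Nat.add_le_add_left (Finset.card_union_le _ _) _))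
  have hz := C_zero (B := B) (δ := lam * √K / B) hK hJ hJK hD0 hD
  have hd := C_diag hK hl hlB hJ
  have ho := C_off hK hl hlB hJ
  have hc' : (S.card : ℝ) ≤ D * (J * (21 * K)) + (420 * lam * K ^ 2 / B +
      J * (2 * (2 * lam / B + 14 * J * B / K)) * (2 * (20 * lam * J * K / B) * (2100 * K / J ^ 2 + 2))) := by
    have : (S.card : ℝ) ≤ ((S.filter (fun z => z.1.1 ^ 2 * z.1.2 = z.2.1 ^ 2 * z.2.2)).card : ℝ) +
        (((S.filter (fun z => z.1.1 = z.2.1 ∧ z.2.2 ≠ z.1.2)).card : ℝ) +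
        ((S.filter (fun z => z.2.1 ≠ z.1.1 ∧ z.1.1 ^ 2 * z.1.2 ≠ z.2.1 ^ 2 * z.2.2)).card : ℝ)) := by
      exact_mod_cast hc
    linarith
  have e1 : J * (2 * (2 * lam / B + 14 * J * B / K)) * (2 * (20 * lam * J * K / B) * (2100 * K / J ^ 2 + 2)) =
      80 * lam * (4200 * lam * (K ^ 2 / B) * (1 / B) + 4 * lam * J ^ 2 * (K / B ^ 2) + 29400 * (K * J) + 28 * J ^ 3) := by
    field_simp
    ring
  have e2 : 1 / B ≤ 1 := by rw [div_le_one hB0]; exact hB1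
  have e3 : K / B ^ 2 ≤ 1 := by rw [div_le_one (by positivity)]; exact hKB
  have e4 : (J : ℝ) ^ 2 ≤ J ^ 3 := by nlinarith [sq_nonneg (J : ℝ)]
  have e5 : 0 ≤ K ^ 2 / B := by positivity
  have e6 : 4200 * lam * (K ^ 2 / B) * (1 / B) + 4 * lam * J ^ 2 * (K / B ^ 2) + 29400 * (K * J) + 28 * J ^ 3 ≤
      lam * (29400 * (K * J + K ^ 2 / B + J ^ 3)) := by
    have f1 : 4200 * lam * (K ^ 2 / B) * (1 / B) ≤ 4200 * lam * (K ^ 2 / B) * 1 :=
      mul_le_mul_of_nonneg_left e2 (by positivity)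
    have f2 : 4 * lam * (J : ℝ) ^ 2 * (K / B ^ 2) ≤ 4 * lam * J ^ 3 * 1 :=
      mul_le_mul (by gcongr) e3 (by positivity) (by positivity)
    have f3 : 29400 * (K * J) ≤ lam * (29400 * (K * J)) := by
      have : 0 ≤ 29400 * (K * J) := by positivity
      nlinarith
    have f4 : 28 * (J : ℝ) ^ 3 ≤ lam * (28 * J ^ 3) := by
      have : 0 ≤ 28 * (J : ℝ) ^ 3 := by positivity
      nlinarith
    have f5 : 0 ≤ lam * (K ^ 2 / B) := by positivity
    have f6 : 0 ≤ lam * (J : ℝ) ^ 3 := by positivity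
    nlinarith
  have e7 : 420 * lam * K ^ 2 / B ≤ 500 * lam ^ 2 * (K * J + K ^ 2 / B + J ^ 3) := by
    have f1 : 420 * lam * K ^ 2 / B = 420 * lam * (K ^ 2 / B) := by ring
    rw [f1]
    have f2 : lam ≤ lam ^ 2 := by nlinarith
    have f3 : 0 ≤ K * (J : ℝ) := by positivity
    have f4 : (0 : ℝ) ≤ J ^ 3 := by positivity
    calc 420 * lam * (K ^ 2 / B) ≤ 500 * lam ^ 2 * (K ^ 2 / B) := by
          apply mul_le_mul_of_nonneg_right _ e5
          nlinarith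
      _ ≤ _ := by
          apply mul_le_mul_of_nonneg_left _ (by positivity)
          linarith
  have e8 : 80 * lam * (4200 * lam * (K ^ 2 / B) * (1 / B) + 4 * lam * J ^ 2 * (K / B ^ 2) + 29400 * (K * J) + 28 * J ^ 3) ≤
      2400000 * lam ^ 2 * (K * J + K ^ 2 / B + J ^ 3) := by
    have f1 : 0 ≤ lam ^ 2 * (K * J + K ^ 2 / B + J ^ 3) := by positivity
    calc _ ≤ 80 * lam * (lam * (29400 * (K * J + K ^ 2 / B + J ^ 3))) :=
          mul_le_mul_of_nonneg_left e6 (by positivity)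
      _ = 2352000 * (lam ^ 2 * (K * J + K ^ 2 / B + J ^ 3)) := by ring
      _ ≤ _ := by nlinarith
  have e9 : D * (J * (21 * K)) ≤ 21 * D * (K * J + K ^ 2 / B + J ^ 3) := by
    have f4 : (0 : ℝ) ≤ J ^ 3 := by positivity
    calc D * (J * (21 * K)) = 21 * D * (K * J) := by ring
      _ ≤ _ := by
          apply mul_le_mul_of_nonneg_left _ (by positivity)
          linarith
  rw [e1] at hc'
  linarith [add_mul (21 * D) (2400500 * lam ^ 2) (K * J + K ^ 2 / B + (J : ℝ) ^ 3)]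

/-- the number of close pairs -/
theorem count (ε : ℝ) (hε : 0 < ε) : ∃ C : ℝ, 1 ≤ C ∧ ∀ (K lam : ℝ) (B J : ℕ), 1 ≤ K → 1 ≤ lam →
    4 * lam ≤ B → K ≤ (B : ℝ) ^ 2 → (B : ℝ) ≤ K → 1 ≤ J → (J : ℝ) ≤ K →
    ((((Finset.Ico J (2 * J) ×ˢ Finset.Icc 1 ⌊21 * K⌋₊) ×ˢ
      (Finset.Icc 1 (20 * J) ×ˢ Finset.Icc 1 ⌊21 * K⌋₊)).filter
      (fun z : (ℕ × ℕ) × (ℕ × ℕ) => K / 2 ≤ (z.1.2 : ℝ) ∧ K / 2 ≤ (z.2.2 : ℝ) ∧
        |(z.1.2 : ℝ) - z.2.2| ≤ B ∧
        |(z.1.1 : ℝ) * √(z.1.2 : ℝ) - z.2.1 * √(z.2.2 : ℝ)| ≤ lam * √K / B)).card : ℝ) ≤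
      C * K ^ ε * lam ^ 2 * (K * J + K ^ 2 / B + (J : ℝ) ^ 3) := by
  obtain ⟨Cd, hCd1, hCd⟩ := U6.A09_card_divisors (ε / 3) (by positivity)
  refine ⟨21 * (Cd * 84 ^ (ε / 3)) + 2400500, ?_, ?_⟩
  · have : 0 ≤ Cd * 84 ^ (ε / 3) := by positivity
    linarith
  intro K lam B J hK hl hlB hKB hBK hJ hJK
  have hK0 : (0 : ℝ) < K := by linarith
  have hKe1 : 1 ≤ K ^ ε := Real.one_le_rpow hK hε.le
  set D := Cd * 84 ^ (ε / 3) * K ^ ε with hD
  have hD0 : 0 ≤ D := by positivity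
  have hDb : ∀ n : ℕ, 0 < n → (n : ℝ) ≤ 84 * K ^ 3 → (n.divisors.card : ℝ) ≤ D := by
    intro n hn hn2
    refine (hCd n hn).trans ?_
    have h1 : (n : ℝ) ^ (ε / 3) ≤ (84 * K ^ 3) ^ (ε / 3) :=
      Real.rpow_le_rpow (Nat.cast_nonneg _) hn2 (by positivity)
    have h2 : (84 * K ^ 3) ^ (ε / 3) = 84 ^ (ε / 3) * K ^ ε := by
      rw [Real.mul_rpow (by norm_num) (by positivity), ← Real.rpow_natCast K 3, ← Real.rpow_mul hK0.le]
      congr 2
      push_cast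
      ring
    rw [hD]
    calc Cd * (n : ℝ) ^ (ε / 3) ≤ Cd * (84 ^ (ε / 3) * K ^ ε) := by
          apply mul_le_mul_of_nonneg_left (h1.trans h2.le) (by linarith)
      _ = Cd * 84 ^ (ε / 3) * K ^ ε := by ring
  have hmain := C_all (B := (B : ℝ)) hK hKB hl hlB hJ hJK hD0 hDb
  refine le_trans hmain ?_
  apply mul_le_mul_of_nonneg_right _ (by positivity)
  rw [hD]
  have h1 : 1 ≤ lam ^ 2 := by nlinarith
  have h2 : 0 ≤ Cd * 84 ^ (ε / 3) * K ^ ε := by positivity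
  have h3 : 0 ≤ lam ^ 2 := by positivity
  calc 21 * (Cd * 84 ^ (ε / 3) * K ^ ε) + 2400500 * lam ^ 2
      ≤ 21 * (Cd * 84 ^ (ε / 3) * K ^ ε) * lam ^ 2 + 2400500 * lam ^ 2 * K ^ ε := by
        apply add_le_add
        · nlinarith
        · nlinarith
    _ = (21 * (Cd * 84 ^ (ε / 3)) + 2400500) * K ^ ε * lam ^ 2 := by ring

end TS
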