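import Mathlib

/-!
# Thick shells: definitions

`e(x) = exp(2πix)`, `x0 u v = (√v - √u)²`, `θ = x0 k₂ k₃ - k₁`, so that
`(k₃-k₁-k₂)² - 4k₁k₂ = θ² + 4θ√(k₂k₃)`.
-/

set_option autoImplicit false

namespace TS

open Finset

/-- `e(x) = exp(2πix)` -/
noncomputable def e (x : ℝ) : ℂ := Complex.exp (2 * Real.pi * Complex.I * x)

/-- `(√v - √u)²` -/
noncomputable def x0 (u v : ℝ) : ℝ := (√v - √u) ^ 2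

/-- first order displacement of `x0` under `(u, v) ↦ (u + e2, v + e3)` -/
noncomputable def xt (e2 e3 u v : ℝ) : ℝ := (√v - √u) * (e3 / √v - e2 / √u)

/-- the phase after one Cauchy-Schwarz -/
noncomputable def Ft (e2 e3 θ u v : ℝ) : ℝ := √(√(u * v)) * (√θ - √(θ + xt e2 e3 u v))

/-- derivative of the phase in `θ` -/
noncomputable def Fp (P x θ : ℝ) : ℝ := P / 2 * (1 / √θ - 1 / √(θ + x))

/-- weight `1 / (1 + (t/M)²)` -/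
noncomputable def wt (M t : ℝ) : ℝ := 1 / (1 + (t / M) ^ 2)

/-- tent -/
noncomputable def tent (x : ℝ) : ℝ := max 0 (1 - |x|)

/-- the quadratic form -/
def qf (k1 k2 k3 : ℝ) : ℝ := (k3 - k1 - k2) ^ 2 - 4 * k1 * k2

/-- the parameters: `M ≍ K^{1/4} L^{-3/4}`, `B ≍ K^{3/4} L^{-1/4} R^{-1/2}`, `K ≥ 10^48 (LR)^11` -/
structure Par (K R : ℝ) (L M B : ℕ) : Prop where
  hR : 1 ≤ R
  hL : 1 ≤ L
  big : 10 ^ 48 * ((L : ℝ) * R) ^ 11 ≤ K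
  M1 : √K ≤ (L : ℝ) * √(L : ℝ) * (M : ℝ) ^ 2
  M2 : (L : ℝ) * √(L : ℝ) * (M : ℝ) ^ 2 ≤ 4 * √K
  B1 : 10 ^ 6 * ((B : ℝ) ^ 2 * √(L : ℝ) * R) ≤ K * √K
  B2 : K * √K ≤ 10 ^ 7 * ((B : ℝ) ^ 2 * √(L : ℝ) * R)

/-- `f` is Nice with constant `N`: its dual norm against the products
`(τ/2)^n u(p) v(r)`, `|u|, |v| ≤ 1`, is at most `N`. -/
def Nice {ι : Type} (X : Finset ι) (τ : ι → ℝ) (p r : ι → ℤ) (N : ℝ) (f : ι → ℂ) : Prop :=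
  ∀ (ψ : ι → ℂ) (c : ℝ),
    (∀ (n : ℕ) (u v : ℤ → ℂ), (∀ k, ‖u k‖ ≤ 1) → (∀ k, ‖v k‖ ≤ 1) →
      ‖∑ x ∈ X, ψ x * (((τ x / 2 : ℝ) : ℂ) ^ n * u (p x) * v (r x))‖ ≤ c) →
    ‖∑ x ∈ X, ψ x * f x‖ ≤ c * N

/-- the frequencies `0 < |h| ≤ J2` -/
noncomputable def HH (J2 : ℕ) : Finset ℤ := (Icc (-(J2 : ℤ)) J2).erase 0

/-- block `[iB, iB + B)` -/
noncomputable def bl (B : ℕ) (i : ℤ) : Finset ℤ := Ico (i * B) (i * B + B)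

/-- close pairs with Gaussian weight -/
noncomputable def nu (K : ℝ) (B : ℕ) (i3 : ℤ) (J2 : ℕ) (h : ℤ) : ℝ :=
  ∑ k ∈ bl B i3, ∑ h' ∈ HH J2, ∑ k' ∈ bl B i3,
    Real.exp (-((B : ℝ) ^ 2 / K * ((h : ℝ) * √(k : ℝ) - (h' : ℝ) * √(k' : ℝ)) ^ 2))

/-- a cell and a pair of blocks: `θ₀ = c/M`, `u₀ = i₂B`, `v₀ = i₃B` -/
structure Good (K R : ℝ) (L M B : ℕ) (e2 e3 c i2 i3 : ℤ) : Prop where
  θ1 : (L : ℝ) / 2 ≤ (c : ℝ) / M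
  θ2 : (c : ℝ) / M ≤ 5 * L
  t1 : (L : ℝ) / 2 ≤ (c : ℝ) / M + xt e2 e3 ((i2 * B : ℤ) : ℝ) ((i3 * B : ℤ) : ℝ)
  t2 : (c : ℝ) / M + xt e2 e3 ((i2 * B : ℤ) : ℝ) ((i3 * B : ℤ) : ℝ) ≤ 10 * L
  u1 : K / 2 ≤ ((i2 * B : ℤ) : ℝ)
  u2 : ((i2 * B : ℤ) : ℝ) ≤ 3 * K
  uv : ((i2 * B : ℤ) : ℝ) < ((i3 * B : ℤ) : ℝ)
  v2 : ((i3 * B : ℤ) : ℝ) ≤ 20 * K
  y1 : K / (4 * R) ≤ x0 ((i2 * B : ℤ) : ℝ) ((i3 * B : ℤ) : ℝ)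
  y2 : x0 ((i2 * B : ℤ) : ℝ) ((i3 * B : ℤ) : ℝ) ≤ 8 * K / R

/-- centre frequency of a cell -/
noncomputable def js (M B : ℕ) (e2 e3 c i2 i3 : ℤ) : ℤ :=
  round (Fp (√(√(((i2 * B : ℤ) : ℝ) * ((i3 * B : ℤ) : ℝ)))) (xt e2 e3 ((i2 * B : ℤ) : ℝ) ((i3 * B : ℤ) : ℝ))
    ((c : ℝ) / M))

/-- sum over one cell and one pair of blocks -/
noncomputable def Sc (M B : ℕ) (β γ : ℤ → ℂ) (Zb : Finset ℤ) (e2 e3 c i2 i3 : ℤ) : ℂ :=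
  ∑ k1 ∈ Zb, ∑ k2 ∈ bl B i2, ∑ k3 ∈ bl B i3,
    (tent (M * (x0 k2 k3 - k1) - c) : ℂ) * β k2 * γ k3 * e (Ft e2 e3 (x0 k2 k3 - k1) k2 k3)

/-- `Ω(h)` -/
noncomputable def Om (K : ℝ) (L M : ℕ) (Jm : ℝ) (h : ℤ) : ℝ :=
  if |(h : ℝ)| < Jm then L * M / Jm ^ 2 else if |(h : ℝ)| ≤ 8 * √(K / L) then L / |(h : ℝ)| else L * M / (h : ℝ) ^ 2

/-- the weight of the cone sum as a function of `(θ, k₂, k₃)`, `k₁ = x0 k₂ k₃ - θ ≍ K/R` -/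
structure Wt (K R : ℝ) (L : ℕ) (Lam : ℝ) (W : ℝ → ℝ → ℝ → ℂ) : Prop where
  bd : ∀ θ u v, ‖W θ u v‖ ≤ 1
  th : ∀ θ u v, W θ u v ≠ 0 → (L : ℝ) ≤ θ ∧ θ ≤ 4 * L ∧ u < v ∧ K / (2 * R) ≤ x0 u v - θ ∧ x0 u v - θ ≤ 3 * K / R
  lip : ∀ θ θ' u u' v v', K / 2 ≤ u → u ≤ 3 * K → K / 2 ≤ u' → u' ≤ 3 * K → u < v → v ≤ 25 * K → u' < v' →
    v' ≤ 25 * K → ‖W θ u v - W θ' u' v'‖ ≤ Lam * (|θ - θ'| / L + √R * (|u - u'| + |v - v'|) / K)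

/-- the range of all variables -/
noncomputable def ZZ (K : ℝ) : Finset ℤ := Icc 0 ⌊25 * K⌋

/-- regular triples -/
noncomputable def Reg (K R : ℝ) (L : ℕ) : Finset (ℤ × ℤ × ℤ) :=
  open Classical in (ZZ K ×ˢ ZZ K ×ˢ ZZ K).filter (fun k => K / 2 ≤ (k.2.1 : ℝ) ∧ (k.2.1 : ℝ) ≤ 3 * K ∧ k.2.1 < k.2.2 ∧
    (k.2.2 : ℝ) ≤ 20 * K ∧ K / (4 * R) ≤ x0 k.2.1 k.2.2 ∧ x0 k.2.1 k.2.2 ≤ 8 * K / R ∧
    (L : ℝ) / 2 ≤ x0 k.2.1 k.2.2 - k.1 ∧ x0 k.2.1 k.2.2 - k.1 ≤ 6 * L)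

/-- the threshold for `|x|` -/
noncomputable def xi (R : ℝ) (L : ℕ) : ℝ := 1 / (10 ^ 4 * (L * R))

/-- range of `e₂` -/
noncomputable def E2 (R : ℝ) (L : ℕ) : Finset ℤ := Icc (-⌊10 * L * √R⌋) ⌊10 * L * √R⌋

/-- range of `e₃` -/
noncomputable def E3s (L : ℕ) : Finset ℤ := Ioo (-(L : ℤ)) L

/-- the sum after Cauchy-Schwarz, original phase -/
noncomputable def Te (K : ℝ) (W : ℝ → ℝ → ℝ → ℂ) (β γ : ℤ → ℂ) (e2 e3 : ℤ) : ℂ :=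
  ∑ k1 ∈ ZZ K, ∑ k2 ∈ ZZ K, ∑ k3 ∈ ZZ K, β k2 * γ k3 *
    (W (x0 k2 k3 - k1) k2 k3 * e (√(qf k1 k2 k3) / 2) *
      (starRingEnd ℂ) (W (x0 (k2 + e2 : ℤ) (k3 + e3 : ℤ) - k1) (k2 + e2 : ℤ) (k3 + e3 : ℤ) *
        e (√(qf k1 (k2 + e2 : ℤ) (k3 + e3 : ℤ)) / 2)))

/-- the sum after Cauchy-Schwarz, phase `Ft` -/
noncomputable def Tt (K : ℝ) (W : ℝ → ℝ → ℝ → ℂ) (β γ : ℤ → ℂ) (e2 e3 : ℤ) : ℂ :=
  ∑ k1 ∈ ZZ K, ∑ k2 ∈ ZZ K, ∑ k3 ∈ ZZ K, β k2 * γ k3 *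
    (W (x0 k2 k3 - k1) k2 k3 *
      (starRingEnd ℂ) (W (x0 (k2 + e2 : ℤ) (k3 + e3 : ℤ) - k1) (k2 + e2 : ℤ) (k3 + e3 : ℤ)) *
      e (Ft e2 e3 (x0 k2 k3 - k1) k2 k3))

/-! ### basic lemmas -/

theorem norm_e (x : ℝ) : ‖e x‖ = 1 := by
  have : e x = Complex.exp (((2 * Real.pi * x : ℝ) : ℂ) * Complex.I) := by
    unfold e; push_cast; ring_nf
  rw [this, Complex.norm_exp_ofReal_mul_I]

theorem e_add (x y : ℝ) : e (x + y) = e x * e y := by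
  unfold e; rw [← Complex.exp_add]; push_cast; ring_nf

theorem e_zero : e 0 = 1 := by simp [e]

theorem e_neg (x : ℝ) : e (-x) = (starRingEnd ℂ) (e x) := by
  unfold e
  rw [← Complex.exp_conj]
  simp [Complex.conj_ofNat]

theorem e_int (n : ℤ) : e n = 1 := by
  unfold e
  rw [Complex.exp_eq_one_iff]
  exact ⟨n, by push_cast; ring⟩

theorem e_add_int (x : ℝ) (n : ℤ) : e (x + n) = e x := by
  rw [e_add, e_int, mul_one]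

theorem wt_pos (M t : ℝ) : 0 < wt M t := by unfold wt; positivity

theorem wt_le_one (M t : ℝ) : wt M t ≤ 1 := by
  unfold wt
  rw [div_le_one (by positivity)]
  linarith [sq_nonneg (t / M)]

theorem tent_nonneg (x : ℝ) : 0 ≤ tent x := le_max_left _ _

theorem tent_le_one (x : ℝ) : tent x ≤ 1 := by
  unfold tent
  exact max_le zero_le_one (by linarith [abs_nonneg x])

theorem tent_ne {x : ℝ} (h : tent x ≠ 0) : |x| < 1 := by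
  by_contra hc
  push Not at hc
  apply h
  unfold tent
  rw [max_eq_left]
  linarith

theorem mem_HH {J2 : ℕ} {h : ℤ} : h ∈ HH J2 ↔ h ≠ 0 ∧ |(h : ℝ)| ≤ J2 := by
  unfold HH
  rw [Finset.mem_erase, Finset.mem_Icc, abs_le]
  constructor
  · rintro ⟨h1, h2, h3⟩
    exact ⟨h1, by exact_mod_cast h2, by exact_mod_cast h3⟩
  · rintro ⟨h1, h2, h3⟩
    exact ⟨h1, by exact_mod_cast h2, by exact_mod_cast h3⟩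

/-- `q = θ² + 4θ√(k₂k₃)` -/
theorem qf_eq (k1 u v : ℝ) (hu : 0 ≤ u) (hv : 0 ≤ v) :
    qf k1 u v = (x0 u v - k1) ^ 2 + 4 * (x0 u v - k1) * √(u * v) := by
  unfold qf x0
  rw [Real.sqrt_mul hu]
  have h1 := Real.sq_sqrt hu
  have h2 := Real.sq_sqrt hv
  have e1 : (√v - √u) ^ 2 = v + u - 2 * (√u * √v) := by
    calc (√v - √u) ^ 2 = √v ^ 2 + √u ^ 2 - 2 * (√u * √v) := by ring
      _ = _ := by rw [h1, h2]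
  rw [e1]
  have e2 : (√u * √v) ^ 2 = u * v := by rw [mul_pow, h1, h2]
  nlinarith [e2]

end TS
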