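import Pool.Agent.Lib.MP_39df77_nt.TS.Defs

/-!
Row TS-P: Poisson summation for the tents.
-/

set_option autoImplicit false

namespace TS

open Finset

/-- two integrations by parts -/
private theorem P_ibp (P : Polynomial ℂ) (w : ℂ) (hw : w ≠ 0) (a b : ℝ) :
    ∫ t in a..b, P.eval (t : ℂ) * Complex.exp (w * t) =
      (P.eval (b : ℂ) * Complex.exp (w * b) - P.eval (a : ℂ) * Complex.exp (w * a)) / w
      - (P.derivative.eval (b : ℂ) * Complex.exp (w * b)
          - P.derivative.eval (a : ℂ) * Complex.exp (w * a)) / w ^ 2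
      + (∫ t in a..b, P.derivative.derivative.eval (t : ℂ) * Complex.exp (w * t)) / w ^ 2 := by
  have h : ∀ t : ℝ, HasDerivAt (fun t : ℝ => P.eval (t : ℂ) * Complex.exp (w * t) / w
        - P.derivative.eval (t : ℂ) * Complex.exp (w * t) / w ^ 2)
      (P.eval (t : ℂ) * Complex.exp (w * t)
        - P.derivative.derivative.eval (t : ℂ) * Complex.exp (w * t) / w ^ 2) t := by
    intro t
    have h1 : HasDerivAt (fun t : ℝ => P.eval (t : ℂ)) (P.derivative.eval (t : ℂ)) t :=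
      (P.hasDerivAt (t : ℂ)).comp_ofReal
    have h2 : HasDerivAt (fun t : ℝ => P.derivative.eval (t : ℂ))
        (P.derivative.derivative.eval (t : ℂ)) t := (P.derivative.hasDerivAt (t : ℂ)).comp_ofReal
    have h3 : HasDerivAt (fun t : ℝ => Complex.exp (w * t)) (Complex.exp (w * t) * w) t := by
      have : HasDerivAt (fun z : ℂ => Complex.exp (w * z)) (Complex.exp (w * (t : ℂ)) * w)
          (t : ℂ) := by
        have := ((hasDerivAt_id (t : ℂ)).const_mul w).cexp
        simpa using this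
      exact this.comp_ofReal
    have h4 := ((h1.mul h3).div_const w).sub ((h2.mul h3).div_const (w ^ 2))
    refine h4.congr_deriv ?_
    have hw2 : w ^ 2 ≠ 0 := pow_ne_zero 2 hw
    field_simp
    ring
  have hc1 : Continuous (fun t : ℝ => P.eval (t : ℂ) * Complex.exp (w * t)) := by fun_prop
  have hc2 : Continuous (fun t : ℝ =>
      P.derivative.derivative.eval (t : ℂ) * Complex.exp (w * t) / w ^ 2) := by fun_prop
  have h5 := intervalIntegral.integral_eq_sub_of_hasDerivAt (a := a) (b := b)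
    (fun t _ => h t) ((hc1.sub hc2).intervalIntegrable a b)
  rw [intervalIntegral.integral_sub (hc1.intervalIntegrable a b) (hc2.intervalIntegrable a b),
    intervalIntegral.integral_div] at h5
  linear_combination h5

/-- the polynomial `(X/2)^n` -/
private noncomputable def PQ (n : ℕ) : Polynomial ℂ := (Polynomial.C (1 / 2) * Polynomial.X) ^ n

private theorem PQ_eval (n : ℕ) (t : ℂ) : (PQ n).eval t = (t / 2) ^ n := by
  simp [PQ]
  ring

private theorem P_nat1 (n : ℕ) : (n : ℝ) ≤ 2 ^ n := by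
  exact_mod_cast (Nat.lt_two_pow_self (n := n)).le

private theorem P_nat2 (n : ℕ) : (n : ℝ) * (n - 1 : ℕ) ≤ 2 ^ n := by
  have : n * (n - 1) ≤ 2 ^ n := by
    induction n with
    | zero => simp
    | succ n ih =>
      rcases Nat.lt_or_ge n 3 with h | h
      · interval_cases n <;> decide
      · obtain ⟨m, rfl⟩ := Nat.exists_eq_add_of_le h
        have e1 : 3 + m - 1 = m + 2 := by omega
        have e2 : 3 + m + 1 - 1 = m + 3 := by omega
        rw [e1] at ih
        rw [e2, pow_succ]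
        nlinarith
  exact_mod_cast this

private theorem PQ_bound (n : ℕ) (t : ℝ) (ht : |t| ≤ 1) :
    ‖(PQ n).eval (t : ℂ)‖ ≤ 1 ∧ ‖(PQ n).derivative.eval (t : ℂ)‖ ≤ 1 ∧
      ‖(PQ n).derivative.derivative.eval (t : ℂ)‖ ≤ 1 := by
  have hh : ‖(t : ℂ) / 2‖ ≤ 1 / 2 := by
    rw [norm_div, Complex.norm_real, Complex.norm_ofNat, Real.norm_eq_abs]
    linarith
  have h0 : 0 ≤ ‖(t : ℂ) / 2‖ := norm_nonneg _
  have hp : ∀ m : ℕ, ‖((t : ℂ) / 2) ^ m‖ ≤ (1 / 2) ^ m := fun m => by
    rw [norm_pow]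
    exact pow_le_pow_left₀ h0 hh m
  have d1 : (PQ n).derivative.eval (t : ℂ) = n * (1 / 2) * ((t : ℂ) / 2) ^ (n - 1) := by
    simp only [PQ, Polynomial.derivative_pow, Polynomial.derivative_mul, Polynomial.derivative_C,
      Polynomial.derivative_X, Polynomial.eval_mul, Polynomial.eval_pow, Polynomial.eval_C,
      Polynomial.eval_X, zero_mul, zero_add, mul_one]
    ring
  have d2 : (PQ n).derivative.derivative.eval (t : ℂ) =
      n * (n - 1 : ℕ) * (1 / 4) * ((t : ℂ) / 2) ^ (n - 1 - 1) := by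
    simp only [PQ, Polynomial.derivative_pow, Polynomial.derivative_mul, Polynomial.derivative_C,
      Polynomial.derivative_X, Polynomial.eval_mul, Polynomial.eval_pow, Polynomial.eval_C,
      Polynomial.eval_X, zero_mul, zero_add, mul_one, mul_zero, add_zero]
    ring
  refine ⟨?_, ?_, ?_⟩
  · rw [PQ_eval]
    exact (hp n).trans (pow_le_one₀ (by norm_num) (by norm_num))
  · rw [d1, norm_mul, norm_mul, Complex.norm_natCast]
    rcases Nat.eq_zero_or_pos n with h | h
    · subst h; simp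
    · obtain ⟨m, rfl⟩ := Nat.exists_eq_add_of_le' h
      have h3 := hp m
      have h4 := P_nat1 (m + 1)
      have h5 : (0 : ℝ) < 2 ^ (m + 1) := by positivity
      simp only [Nat.add_sub_cancel]
      have h6 : ‖(1 / 2 : ℂ)‖ = 1 / 2 := by simp
      rw [h6]
      calc ((m + 1 : ℕ) : ℝ) * (1 / 2) * ‖((t : ℂ) / 2) ^ m‖
          ≤ 2 ^ (m + 1) * (1 / 2) * (1 / 2) ^ m := by gcongr
        _ = 1 := by
          rw [pow_succ, one_div, inv_pow]
          field_simp
  · rw [d2, norm_mul, norm_mul, norm_mul, Complex.norm_natCast, Complex.norm_natCast]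
    rcases Nat.lt_or_ge n 2 with h | h
    · interval_cases n <;> simp
    · obtain ⟨m, rfl⟩ := Nat.exists_eq_add_of_le' h
      have h3 := hp m
      have h4 := P_nat2 (m + 2)
      have e1 : m + 2 - 1 - 1 = m := by omega
      rw [e1]
      have h6 : ‖(1 / 4 : ℂ)‖ = 1 / 4 := by simp
      rw [h6]
      calc ((m + 2 : ℕ) : ℝ) * ((m + 2 - 1 : ℕ) : ℝ) * (1 / 4) * ‖((t : ℂ) / 2) ^ m‖
          ≤ 2 ^ (m + 2) * (1 / 4) * (1 / 2) ^ m := by gcongr
        _ = 1 := by
          rw [pow_add, one_div (2 : ℝ), inv_pow]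
          field_simp
          norm_num

/-- the function `tent(t) (t/2)^n` -/
private noncomputable def Pf (n : ℕ) (t : ℝ) : ℂ := (tent t : ℂ) * (((t / 2 : ℝ) : ℂ)) ^ n

private theorem tent_zero {t : ℝ} (h : 1 ≤ |t|) : tent t = 0 := by
  unfold tent
  exact max_eq_left (by linarith)

private theorem tent_le (t : ℝ) : 0 ≤ tent t ∧ tent t ≤ 1 := by
  unfold tent
  exact ⟨le_max_left _ _, max_le (by norm_num) (by linarith [abs_nonneg t])⟩

private theorem tent_cont : Continuous tent := by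
  unfold tent
  fun_prop

private theorem Pf_cont (n : ℕ) : Continuous (Pf n) := by
  unfold Pf
  have := tent_cont
  fun_prop

private theorem Pf_zero {n : ℕ} {t : ℝ} (h : 1 ≤ |t|) : Pf n t = 0 := by
  simp [Pf, tent_zero h]

private theorem Pf_neg {n : ℕ} {t : ℝ} (h1 : -1 ≤ t) (h2 : t ≤ 0) :
    Pf n t = ((1 + Polynomial.X) * PQ n).eval (t : ℂ) := by
  have : tent t = 1 + t := by
    unfold tent
    rw [abs_of_nonpos h2, max_eq_right (by linarith)]
    ring
  rw [Pf, this, Polynomial.eval_mul, PQ_eval]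
  simp

private theorem Pf_pos {n : ℕ} {t : ℝ} (h1 : 0 ≤ t) (h2 : t ≤ 1) :
    Pf n t = ((1 - Polynomial.X) * PQ n).eval (t : ℂ) := by
  have : tent t = 1 - t := by
    unfold tent
    rw [abs_of_nonneg h1, max_eq_right (by linarith)]
  rw [Pf, this, Polynomial.eval_mul, PQ_eval]
  simp

private theorem Pf_norm (n : ℕ) (t : ℝ) : ‖Pf n t‖ ≤ 1 := by
  rcases le_or_gt 1 |t| with h | h
  · rw [Pf_zero h]; simp
  · have h1 := (PQ_bound n t h.le).1
    rw [PQ_eval] at h1
    have h2 := tent_le t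
    rw [Pf, norm_mul, Complex.norm_real, Real.norm_eq_abs, abs_of_nonneg h2.1]
    have h3 : ‖(((t / 2 : ℝ) : ℂ)) ^ n‖ ≤ 1 := by
      have e : (((t / 2 : ℝ) : ℂ)) = (t : ℂ) / 2 := by push_cast; rfl
      rw [e]; exact h1
    calc tent t * ‖(((t / 2 : ℝ) : ℂ)) ^ n‖ ≤ 1 * 1 := by
          gcongr
          exact h2.2
      _ = 1 := one_mul 1

private theorem P_split (n : ℕ) (w : ℂ) :
    ∫ t : ℝ, Pf n t * Complex.exp (w * t) =
      (∫ t in (-1 : ℝ)..0, ((1 + Polynomial.X) * PQ n).eval (t : ℂ) * Complex.exp (w * t)) +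
      ∫ t in (0 : ℝ)..1, ((1 - Polynomial.X) * PQ n).eval (t : ℂ) * Complex.exp (w * t) := by
  have hc : Continuous (fun t : ℝ => Pf n t * Complex.exp (w * t)) := by
    have := Pf_cont n
    fun_prop
  have h1 : ∫ t : ℝ, Pf n t * Complex.exp (w * t) =
      ∫ t in (-1 : ℝ)..1, Pf n t * Complex.exp (w * t) := by
    rw [intervalIntegral.integral_of_le (by norm_num)]
    symm
    refine MeasureTheory.setIntegral_eq_integral_of_forall_compl_eq_zero fun t ht => ?_
    rw [Pf_zero, zero_mul]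
    by_contra hlt
    push Not at hlt
    rw [abs_lt] at hlt
    exact ht ⟨hlt.1, hlt.2.le⟩
  rw [h1, ← intervalIntegral.integral_add_adjacent_intervals (hc.intervalIntegrable (-1) 0)
    (hc.intervalIntegrable 0 1)]
  congr 1
  · refine intervalIntegral.integral_congr fun t ht => ?_
    rw [Set.uIcc_of_le (by norm_num)] at ht
    simp only [Pf_neg (n := n) ht.1 ht.2]
  · refine intervalIntegral.integral_congr fun t ht => ?_
    rw [Set.uIcc_of_le (by norm_num)] at ht
    simp only [Pf_pos (n := n) ht.1 ht.2]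

private theorem P_hat1 (n : ℕ) (y : ℝ) :
    ‖∫ t : ℝ, Pf n t * Complex.exp ((-2 * Real.pi * y * Complex.I) * t)‖ ≤ 2 := by
  have h1 : ∫ t : ℝ, Pf n t * Complex.exp ((-2 * Real.pi * y * Complex.I) * t) =
      ∫ t in Set.Ioc (-1 : ℝ) 1, Pf n t * Complex.exp ((-2 * Real.pi * y * Complex.I) * t) := by
    symm
    refine MeasureTheory.setIntegral_eq_integral_of_forall_compl_eq_zero fun t ht => ?_
    rw [Pf_zero, zero_mul]
    by_contra hlt
    push Not at hlt
    rw [abs_lt] at hlt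
    exact ht ⟨hlt.1, hlt.2.le⟩
  rw [h1]
  have h2 := MeasureTheory.norm_setIntegral_le_of_norm_le_const (μ := MeasureTheory.volume)
    (s := Set.Ioc (-1 : ℝ) 1) (C := 1)
    (f := fun t : ℝ => Pf n t * Complex.exp ((-2 * Real.pi * y * Complex.I) * t))
    (by simp) (fun t _ => by
      rw [norm_mul]
      have : ‖Complex.exp ((-2 * Real.pi * y * Complex.I) * t)‖ = 1 := by
        have e : (-2 * Real.pi * y * Complex.I) * t = ((-2 * Real.pi * y * t : ℝ) : ℂ) * Complex.I := by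
          push_cast; ring
        rw [e, Complex.norm_exp_ofReal_mul_I]
      rw [this, mul_one]
      exact Pf_norm n t)
  refine h2.trans ?_
  simp [MeasureTheory.measureReal_def]
  norm_num

private theorem P_exp (y t : ℝ) : ‖Complex.exp ((-2 * Real.pi * y * Complex.I) * t)‖ = 1 := by
  have e : (-2 * Real.pi * y * Complex.I) * t = ((-2 * Real.pi * y * t : ℝ) : ℂ) * Complex.I := by
    push_cast; ring
  rw [e, Complex.norm_exp_ofReal_mul_I]

/-- bounds for `(1 + s X) Q` -/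
private theorem P_der (n : ℕ) (s : ℂ) (hs : ‖s‖ = 1) (t : ℝ) (ht : |t| ≤ 1) :
    ‖((1 + Polynomial.C s * Polynomial.X) * PQ n).derivative.eval (t : ℂ)‖ ≤ 3 ∧
    ‖((1 + Polynomial.C s * Polynomial.X) * PQ n).derivative.derivative.eval (t : ℂ)‖ ≤ 4 := by
  obtain ⟨h0, h1, h2⟩ := PQ_bound n t ht
  have hst : ‖1 + s * (t : ℂ)‖ ≤ 2 := by
    calc ‖1 + s * (t : ℂ)‖ ≤ ‖(1 : ℂ)‖ + ‖s * (t : ℂ)‖ := norm_add_le _ _
      _ ≤ 2 := by
        rw [norm_mul, hs, Complex.norm_real, Real.norm_eq_abs, norm_one]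
        linarith
  have e1 : ((1 + Polynomial.C s * Polynomial.X) * PQ n).derivative =
      Polynomial.C s * PQ n + (1 + Polynomial.C s * Polynomial.X) * (PQ n).derivative := by
    simp
  have e2 : ((1 + Polynomial.C s * Polynomial.X) * PQ n).derivative.derivative =
      Polynomial.C s * (PQ n).derivative + Polynomial.C s * (PQ n).derivative +
        (1 + Polynomial.C s * Polynomial.X) * (PQ n).derivative.derivative := by
    rw [e1]
    simp
    ring
  constructor
  · rw [e1]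
    simp only [Polynomial.eval_add, Polynomial.eval_mul, Polynomial.eval_C, Polynomial.eval_one,
      Polynomial.eval_X]
    calc _ ≤ ‖s * (PQ n).eval (t : ℂ)‖ + ‖(1 + s * (t : ℂ)) * (PQ n).derivative.eval (t : ℂ)‖ :=
          norm_add_le _ _
      _ ≤ 1 * 1 + 2 * 1 := by
        rw [norm_mul, norm_mul, hs]
        gcongr
      _ = 3 := by norm_num
  · rw [e2]
    simp only [Polynomial.eval_add, Polynomial.eval_mul, Polynomial.eval_C, Polynomial.eval_one,
      Polynomial.eval_X]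
    calc _ ≤ ‖s * (PQ n).derivative.eval (t : ℂ) + s * (PQ n).derivative.eval (t : ℂ)‖ +
          ‖(1 + s * (t : ℂ)) * (PQ n).derivative.derivative.eval (t : ℂ)‖ := norm_add_le _ _
      _ ≤ (‖s * (PQ n).derivative.eval (t : ℂ)‖ + ‖s * (PQ n).derivative.eval (t : ℂ)‖) +
          ‖(1 + s * (t : ℂ)) * (PQ n).derivative.derivative.eval (t : ℂ)‖ := by
        gcongr
        exact norm_add_le _ _
      _ ≤ (1 * 1 + 1 * 1) + 2 * 1 := by
        rw [norm_mul, norm_mul, hs]
        gcongr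
      _ = 4 := by norm_num

private theorem P_hat2 (n : ℕ) (y : ℝ) (hy : y ≠ 0) :
    ‖∫ t : ℝ, Pf n t * Complex.exp ((-2 * Real.pi * y * Complex.I) * t)‖ ≤ 1 / y ^ 2 := by
  set w : ℂ := -2 * Real.pi * y * Complex.I with hwdef
  have hw : w ≠ 0 := by
    rw [hwdef]
    simp [hy, Real.pi_ne_zero]
  have hwn : ‖w ^ 2‖ = 4 * Real.pi ^ 2 * y ^ 2 := by
    have : w ^ 2 = ((-(4 * Real.pi ^ 2 * y ^ 2) : ℝ) : ℂ) := by
      rw [hwdef]
      push_cast
      linear_combination (4 * (Real.pi : ℂ) ^ 2 * (y : ℂ) ^ 2) * Complex.I_sq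
    rw [this, Complex.norm_real, Real.norm_eq_abs, abs_neg, abs_of_nonneg (by positivity)]
  have hE : ∀ t : ℝ, ‖Complex.exp (w * t)‖ = 1 := fun t => by
    rw [hwdef]; exact P_exp y t
  have ea : (1 + Polynomial.X : Polynomial ℂ) = 1 + Polynomial.C 1 * Polynomial.X := by simp
  have eb : (1 - Polynomial.X : Polynomial ℂ) = 1 + Polynomial.C (-1) * Polynomial.X := by
    simp; ring
  rw [P_split, P_ibp ((1 + Polynomial.X) * PQ n) w hw, P_ibp ((1 - Polynomial.X) * PQ n) w hw]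
  set P1 : Polynomial ℂ := (1 + Polynomial.X) * PQ n with hP1
  set P2 : Polynomial ℂ := (1 - Polynomial.X) * PQ n with hP2
  have z1 : P1.eval ((-1 : ℝ) : ℂ) = 0 := by simp [hP1]
  have z2 : P2.eval ((1 : ℝ) : ℂ) = 0 := by simp [hP2]
  have z3 : P1.eval ((0 : ℝ) : ℂ) = P2.eval ((0 : ℝ) : ℂ) := by simp [hP1, hP2]
  have b1 : ∀ t : ℝ, |t| ≤ 1 → ‖P1.derivative.eval (t : ℂ)‖ ≤ 3 ∧
      ‖P1.derivative.derivative.eval (t : ℂ)‖ ≤ 4 := fun t ht => by
    rw [hP1, ea]; exact P_der n 1 (by simp) t ht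
  have b2 : ∀ t : ℝ, |t| ≤ 1 → ‖P2.derivative.eval (t : ℂ)‖ ≤ 3 ∧
      ‖P2.derivative.derivative.eval (t : ℂ)‖ ≤ 4 := fun t ht => by
    rw [hP2, eb]; exact P_der n (-1) (by simp) t ht
  have i1 : ‖∫ t in (-1 : ℝ)..0, P1.derivative.derivative.eval (t : ℂ) * Complex.exp (w * t)‖ ≤
      4 := by
    have := intervalIntegral.norm_integral_le_of_norm_le_const (a := -1) (b := 0) (C := 4)
      (f := fun t : ℝ => P1.derivative.derivative.eval (t : ℂ) * Complex.exp (w * t))
      (fun t ht => by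
        rw [Set.uIoc_of_le (by norm_num)] at ht
        rw [norm_mul, hE, mul_one]
        exact (b1 t (abs_le.mpr ⟨ht.1.le, ht.2.trans (by norm_num)⟩)).2)
    simpa using this
  have i2 : ‖∫ t in (0 : ℝ)..1, P2.derivative.derivative.eval (t : ℂ) * Complex.exp (w * t)‖ ≤
      4 := by
    have := intervalIntegral.norm_integral_le_of_norm_le_const (a := 0) (b := 1) (C := 4)
      (f := fun t : ℝ => P2.derivative.derivative.eval (t : ℂ) * Complex.exp (w * t))
      (fun t ht => by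
        rw [Set.uIoc_of_le (by norm_num)] at ht
        rw [norm_mul, hE, mul_one]
        exact (b2 t (abs_le.mpr ⟨(by norm_num : (-1 : ℝ) ≤ 0).trans ht.1.le, ht.2⟩)).2)
    simpa using this
  set I1 := ∫ t in (-1 : ℝ)..0, P1.derivative.derivative.eval (t : ℂ) * Complex.exp (w * t)
  set I2 := ∫ t in (0 : ℝ)..1, P2.derivative.derivative.eval (t : ℂ) * Complex.exp (w * t)
  have key : (P1.eval ((0 : ℝ) : ℂ) * Complex.exp (w * (0 : ℝ)) -
        P1.eval ((-1 : ℝ) : ℂ) * Complex.exp (w * (-1 : ℝ))) / w -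
      (P1.derivative.eval ((0 : ℝ) : ℂ) * Complex.exp (w * (0 : ℝ)) -
        P1.derivative.eval ((-1 : ℝ) : ℂ) * Complex.exp (w * (-1 : ℝ))) / w ^ 2 + I1 / w ^ 2 +
      ((P2.eval ((1 : ℝ) : ℂ) * Complex.exp (w * (1 : ℝ)) -
        P2.eval ((0 : ℝ) : ℂ) * Complex.exp (w * (0 : ℝ))) / w -
      (P2.derivative.eval ((1 : ℝ) : ℂ) * Complex.exp (w * (1 : ℝ)) -
        P2.derivative.eval ((0 : ℝ) : ℂ) * Complex.exp (w * (0 : ℝ))) / w ^ 2 + I2 / w ^ 2) =
      (-(P1.derivative.eval ((0 : ℝ) : ℂ) * Complex.exp (w * (0 : ℝ)))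
        + P1.derivative.eval ((-1 : ℝ) : ℂ) * Complex.exp (w * (-1 : ℝ))
        + (-(P2.derivative.eval ((1 : ℝ) : ℂ) * Complex.exp (w * (1 : ℝ))))
        + P2.derivative.eval ((0 : ℝ) : ℂ) * Complex.exp (w * (0 : ℝ)) + I1 + I2) / w ^ 2 := by
    rw [z1, z2, z3]
    ring
  rw [key, norm_div, hwn]
  have n1 : ∀ (t : ℝ) (z : ℂ), ‖z * Complex.exp (w * t)‖ = ‖z‖ := fun t z => by
    rw [norm_mul, hE, mul_one]
  have hnum : ‖-(P1.derivative.eval ((0 : ℝ) : ℂ) * Complex.exp (w * (0 : ℝ)))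
        + P1.derivative.eval ((-1 : ℝ) : ℂ) * Complex.exp (w * (-1 : ℝ))
        + (-(P2.derivative.eval ((1 : ℝ) : ℂ) * Complex.exp (w * (1 : ℝ))))
        + P2.derivative.eval ((0 : ℝ) : ℂ) * Complex.exp (w * (0 : ℝ)) + I1 + I2‖ ≤ 20 := by
    have t1 := (b1 0 (by simp)).1
    have t2 := (b1 (-1) (by simp)).1
    have t3 := (b2 1 (by simp)).1
    have t4 := (b2 0 (by simp)).1
    rw [← n1 0] at t1 t4
    rw [← n1 (-1)] at t2
    rw [← n1 1] at t3
    refine (norm_add_le _ _).trans ?_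
    have s1 := norm_add_le (-(P1.derivative.eval ((0 : ℝ) : ℂ) * Complex.exp (w * (0 : ℝ)))
        + P1.derivative.eval ((-1 : ℝ) : ℂ) * Complex.exp (w * (-1 : ℝ))
        + (-(P2.derivative.eval ((1 : ℝ) : ℂ) * Complex.exp (w * (1 : ℝ))))
        + P2.derivative.eval ((0 : ℝ) : ℂ) * Complex.exp (w * (0 : ℝ))) I1
    have s2 := norm_add_le (-(P1.derivative.eval ((0 : ℝ) : ℂ) * Complex.exp (w * (0 : ℝ)))
        + P1.derivative.eval ((-1 : ℝ) : ℂ) * Complex.exp (w * (-1 : ℝ))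
        + (-(P2.derivative.eval ((1 : ℝ) : ℂ) * Complex.exp (w * (1 : ℝ)))))
        (P2.derivative.eval ((0 : ℝ) : ℂ) * Complex.exp (w * (0 : ℝ)))
    have s3 := norm_add_le (-(P1.derivative.eval ((0 : ℝ) : ℂ) * Complex.exp (w * (0 : ℝ)))
        + P1.derivative.eval ((-1 : ℝ) : ℂ) * Complex.exp (w * (-1 : ℝ)))
        (-(P2.derivative.eval ((1 : ℝ) : ℂ) * Complex.exp (w * (1 : ℝ))))
    have s4 := norm_add_le (-(P1.derivative.eval ((0 : ℝ) : ℂ) * Complex.exp (w * (0 : ℝ))))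
        (P1.derivative.eval ((-1 : ℝ) : ℂ) * Complex.exp (w * (-1 : ℝ)))
    rw [norm_neg] at s3 s4
    linarith
  have hpi : (9 : ℝ) ≤ Real.pi ^ 2 := by nlinarith [Real.pi_gt_three]
  have hy2 : 0 < y ^ 2 := by positivity
  rw [div_le_div_iff₀ (by positivity) hy2]
  nlinarith

/-- the Fourier transform of `y ↦ f(My - c)` -/
private theorem P_four (M : ℕ) (hM : 1 ≤ M) (c : ℤ) (n : ℕ) (j : ℤ) :
    ‖∫ y : ℝ, Complex.exp (((-2 * Real.pi * y * (j : ℝ) : ℝ) : ℂ) * Complex.I) •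
      Pf n (M * y - c)‖ ≤ 4 / M * wt M j := by
  have hM0 : (0 : ℝ) < M := by exact_mod_cast hM
  have h1 : ∀ y : ℝ, Complex.exp (((-2 * Real.pi * y * (j : ℝ) : ℝ) : ℂ) * Complex.I) •
      Pf n (M * y - c) = (fun t : ℝ => Complex.exp (((-2 * Real.pi * ((t + c) / M) * (j : ℝ) : ℝ) : ℂ)
        * Complex.I) * Pf n t) (M * y - c) := by
    intro y
    simp only [smul_eq_mul, sub_add_cancel]
    rw [mul_div_cancel_left₀ y hM0.ne']
  have h2 : ∫ y : ℝ, Complex.exp (((-2 * Real.pi * y * (j : ℝ) : ℝ) : ℂ) * Complex.I) •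
      Pf n (M * y - c) = (M : ℝ)⁻¹ • ∫ t : ℝ,
        Complex.exp (((-2 * Real.pi * ((t + c) / M) * (j : ℝ) : ℝ) : ℂ) * Complex.I) * Pf n t := by
    simp_rw [h1]
    have h3 := MeasureTheory.Measure.integral_comp_mul_left (fun z : ℝ => (fun t : ℝ =>
      Complex.exp (((-2 * Real.pi * ((t + c) / M) * (j : ℝ) : ℝ) : ℂ)
        * Complex.I) * Pf n t) (z - c)) (M : ℝ)
    rw [h3, MeasureTheory.integral_sub_right_eq_self (μ := MeasureTheory.volume) (fun t : ℝ =>
      Complex.exp (((-2 * Real.pi * ((t + c) / M) * (j : ℝ) : ℝ) : ℂ)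
        * Complex.I) * Pf n t) (c : ℝ), abs_of_pos (by positivity)]
  have h4 : ∫ t : ℝ, Complex.exp (((-2 * Real.pi * ((t + c) / M) * (j : ℝ) : ℝ) : ℂ) * Complex.I)
      * Pf n t = Complex.exp (((-2 * Real.pi * ((c : ℝ) / M) * (j : ℝ) : ℝ) : ℂ) * Complex.I) *
      ∫ t : ℝ, Pf n t * Complex.exp ((-2 * Real.pi * ((j / M : ℝ) : ℂ) * Complex.I) * t) := by
    rw [← MeasureTheory.integral_const_mul]
    refine MeasureTheory.integral_congr_ae (Filter.Eventually.of_forall fun t => ?_)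
    simp only
    rw [mul_comm (Pf n t), ← mul_assoc, ← Complex.exp_add]
    congr 2
    push_cast
    ring
  have h5 : ‖Complex.exp (((-2 * Real.pi * ((c : ℝ) / M) * (j : ℝ) : ℝ) : ℂ) * Complex.I)‖ = 1 :=
    Complex.norm_exp_ofReal_mul_I _
  rw [h2, norm_smul, h4, norm_mul, h5, one_mul, Real.norm_eq_abs, abs_of_pos (by positivity)]
  have h6 : ‖∫ t : ℝ, Pf n t * Complex.exp ((-2 * Real.pi * ((j / M : ℝ) : ℂ) * Complex.I) * t)‖ ≤
      4 * wt M j := by
    set y : ℝ := j / M with hy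
    have ew : wt M j = 1 / (1 + y ^ 2) := rfl
    have p1 := P_hat1 n y
    rw [ew]
    rcases le_or_gt (y ^ 2) 1 with h | h
    · refine p1.trans ?_
      rw [mul_one_div, le_div_iff₀ (by positivity)]
      linarith
    · have hy0 : y ≠ 0 := by
        rintro h0
        rw [h0] at h
        norm_num at h
      refine (P_hat2 n y hy0).trans ?_
      rw [mul_one_div, div_le_div_iff₀ (by positivity) (by positivity)]
      linarith
  calc (M : ℝ)⁻¹ * ‖∫ t : ℝ, Pf n t *
        Complex.exp ((-2 * Real.pi * ((j / M : ℝ) : ℂ) * Complex.I) * t)‖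
      ≤ (M : ℝ)⁻¹ * (4 * wt M j) := by gcongr
    _ = 4 / M * wt M j := by
      rw [div_eq_mul_inv]
      ring

private theorem P_summable (M : ℕ) (hM : 1 ≤ M) :
    Summable (fun j : ℤ => 4 / (M : ℝ) * wt M j) := by
  have hM0 : (0 : ℝ) < M := by exact_mod_cast hM
  refine Summable.mul_left _ ?_
  have h1 : Summable (fun j : ℤ => (M : ℝ) ^ 2 * (1 / (j : ℝ) ^ 2)) :=
    (Real.summable_one_div_int_pow.mpr (by norm_num)).mul_left _
  have h2 : Summable (fun j : ℤ => if j = 0 then (1 : ℝ) else 0) := by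
    refine summable_of_ne_finset_zero (s := {0}) fun j hj => ?_
    rw [if_neg (by simpa using hj)]
  refine Summable.of_nonneg_of_le (fun j => ?_) (fun j => ?_) (h1.add h2)
  · unfold wt; positivity
  · by_cases hj : j = 0
    · subst hj
      simp [wt]
    · rw [if_neg hj, add_zero]
      have hj0 : (j : ℝ) ≠ 0 := by exact_mod_cast hj
      have hj2 : 0 < (j : ℝ) ^ 2 := by positivity
      unfold wt
      rw [mul_one_div, div_le_div_iff₀ (by positivity) hj2]
      have : (M : ℝ) ^ 2 * (1 + ((j : ℝ) / M) ^ 2) = (M : ℝ) ^ 2 + (j : ℝ) ^ 2 := by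
        field_simp
      rw [this]
      nlinarith [sq_nonneg (M : ℝ)]

/-- `f(t) = tent(t) (t/2)^n`: `∫ f(t) e(-yt) dt` is at most `1` and (two integrations by parts on `[-1,0]` and
`[0,1]`, `(n+1)² 2^{-n} ≤ 4`) at most `C/y²`, `C` independent of `n`. The function `y ↦ f(My - c)` is continuous with
compact support and has Fourier coefficients `e(-jc/M) f^(j/M)/M`: Poisson summation
(`Real.tsum_eq_tsum_fourier_of_rpow_decay_of_summable` or a variant). -/
theorem tent_fourier : ∃ C : ℝ, 1 ≤ C ∧ ∀ (M : ℕ) (c : ℤ) (n : ℕ), 1 ≤ M → ∃ pc : ℤ → ℂ,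
    (∀ j : ℤ, ‖pc j‖ ≤ C / M * wt M j) ∧
    ∀ (y : ℝ) (S : Finset ℤ), (∀ k : ℤ, tent (M * (y - k) - c) ≠ 0 → k ∈ S) →
      HasSum (fun j : ℤ => pc j * e (j * y))
        (∑ k ∈ S, (tent (M * (y - k) - c) : ℂ) * (((M * (y - k) - c) / 2 : ℝ) : ℂ) ^ n) := by
  refine ⟨4, by norm_num, fun M c n hM => ?_⟩
  have hM0 : (0 : ℝ) < M := by exact_mod_cast hM
  set h : ℝ → ℂ := fun y => Pf n (M * y - c) with hh
  have hcont : Continuous h := by
    have := Pf_cont n
    rw [hh]
    fun_prop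
  have hF : ∀ j : ℤ, ‖FourierTransform.fourier h (j : ℝ)‖ ≤ 4 / M * wt M j := by
    intro j
    rw [Real.fourier_real_eq_integral_exp_smul]
    exact P_four M hM c n j
  have hsF : Summable fun j : ℤ => FourierTransform.fourier h (j : ℝ) :=
    Summable.of_norm_bounded (P_summable M hM) hF
  have hO : Asymptotics.IsBigO (Filter.cocompact ℝ) h fun x : ℝ => |x| ^ (-(2 : ℝ)) := by
    have hz : ∀ᶠ x in Filter.cocompact ℝ, h x = 0 := by
      have hb : ∀ᶠ x : ℝ in Filter.cocompact ℝ, (1 + |(c : ℝ)|) / M ≤ ‖x‖ :=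
        tendsto_norm_cocompact_atTop.eventually (Filter.eventually_ge_atTop _)
      filter_upwards [hb] with x hx
      refine Pf_zero ?_
      rw [div_le_iff₀ hM0, Real.norm_eq_abs] at hx
      have h1 : |(M : ℝ) * x| = |x| * M := by rw [abs_mul, abs_of_pos hM0, mul_comm]
      have h2 := abs_sub_abs_le_abs_sub ((M : ℝ) * x) (c : ℝ)
      linarith
    exact (Asymptotics.isBigO_zero _ _).congr' (Filter.EventuallyEq.symm hz)
      (Filter.EventuallyEq.refl _ _)
  refine ⟨fun j => FourierTransform.fourier h (j : ℝ), hF, fun y S hS => ?_⟩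
  have hP := Real.tsum_eq_tsum_fourier_of_rpow_decay_of_summable hcont (by norm_num : (1 : ℝ) < 2)
    hO hsF y
  have hleft : ∑' k : ℤ, h (y + k) =
      ∑ k ∈ S, (tent (M * (y - k) - c) : ℂ) * (((M * (y - k) - c) / 2 : ℝ) : ℂ) ^ n := by
    rw [← (Equiv.neg ℤ).tsum_eq (fun k : ℤ => h (y + k))]
    have e1 : (fun k : ℤ => h (y + ((Equiv.neg ℤ) k : ℤ))) = fun k : ℤ => h (y - k) := by
      funext k
      simp [sub_eq_add_neg]
    rw [e1, tsum_eq_sum (s := S)]
    · rfl
    · intro k hk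
      have : tent (M * (y - k) - c) = 0 := by
        by_contra hne
        exact hk (hS k hne)
      simp only [hh, Pf, this]
      simp
  rw [← hleft, hP]
  have e2 : (fun j : ℤ => FourierTransform.fourier h (j : ℝ) * e (j * y)) =
      fun j : ℤ => FourierTransform.fourier h (j : ℝ) * fourier j (y : UnitAddCircle) := by
    funext j
    congr 1
    rw [fourier_coe_apply, e]
    congr 1
    push_cast
    ring
  rw [e2]
  refine Summable.hasSum ?_
  refine Summable.of_norm_bounded (P_summable M hM) fun j => ?_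
  rw [norm_mul]
  have : ‖fourier j (y : UnitAddCircle)‖ = 1 := by
    rw [fourier_coe_apply]
    have e3 : (2 * Real.pi * Complex.I * (j : ℂ) * (y : ℂ) / ((1 : ℝ) : ℂ)) =
        ((2 * Real.pi * j * y : ℝ) : ℂ) * Complex.I := by
      push_cast
      ring
    rw [e3, Complex.norm_exp_ofReal_mul_I]
  rw [this, mul_one]
  exact hF j

end TS
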