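import Pool.Agent.Lib.MP_39df77_nt.TS.Defs

/-!
Row TS-G2: displacements of `x0` (explicit constants).
-/

set_option autoImplicit false

namespace TS

open Finset

theorem g2_sqrt {K u : ℝ} (hK : 1 ≤ K) (hu : K / 3 ≤ u) : 0 < √u ∧ √u ^ 2 = u ∧ K ≤ 3 * √u ^ 2 := by
  have hu0 : 0 < u := by linarith
  have h := Real.sq_sqrt hu0.le
  exact ⟨Real.sqrt_pos.mpr hu0, h, by rw [h]; linarith⟩

theorem g2_ratio {K u v : ℝ} (hK : 1 ≤ K) (hu : K / 3 ≤ u) (hv1 : v ≤ 25 * K) :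
    √v ≤ 35 / 4 * √u := by
  obtain ⟨h1, h2, h3⟩ := g2_sqrt hK hu
  refine Real.sqrt_le_iff.mpr ⟨by positivity, ?_⟩
  rw [mul_pow]
  nlinarith

theorem g2_prod {K a b : ℝ} (hK : 1 ≤ K) (ha : 0 < a) (hb : 0 < b) (hKa : K ≤ 3 * a ^ 2)
    (hKb : K ≤ 3 * b ^ 2) : K ≤ 3 * (a * b) := by
  have h : K ^ 2 ≤ (3 * (a * b)) ^ 2 := by
    calc K ^ 2 = K * K := by ring
      _ ≤ (3 * a ^ 2) * (3 * b ^ 2) := by
          apply mul_le_mul hKa hKb (by linarith) (by positivity)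
      _ = (3 * (a * b)) ^ 2 := by ring
  exact (pow_le_pow_iff_left₀ (by linarith) (by positivity) (by norm_num)).mp h

theorem g2_disp {K E u e : ℝ} (hK : 1 ≤ K) (hEK : E ≤ K / 10) (hu : K / 3 ≤ u) (he : |e| ≤ E) :
    4 / 5 * √u ≤ √(u + e) ∧ |√(u + e) - √u| * (9 / 5 * √u) ≤ E ∧ √(u + e) ^ 2 = u + e := by
  obtain ⟨h1, h2, h3⟩ := g2_sqrt hK hu
  have he' := abs_le.mp he
  have hue : 7 / 10 * u ≤ u + e := by linarith [he'.1]
  have hu0 : 0 < u := by linarith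
  have h4 : √(u + e) ^ 2 = u + e := Real.sq_sqrt (by linarith)
  have h5 : 4 / 5 * √u ≤ √(u + e) := by
    apply Real.le_sqrt_of_sq_le
    rw [mul_pow, h2]
    linarith
  refine ⟨h5, ?_, h4⟩
  have h6 : (√(u + e) - √u) * (√(u + e) + √u) = e := by
    calc (√(u + e) - √u) * (√(u + e) + √u) = √(u + e) ^ 2 - √u ^ 2 := by ring
      _ = e := by rw [h4, h2]; ring
  calc |√(u + e) - √u| * (9 / 5 * √u) ≤ |√(u + e) - √u| * (√(u + e) + √u) := by
        apply mul_le_mul_of_nonneg_left _ (abs_nonneg _)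
        linarith
    _ = |(√(u + e) - √u) * (√(u + e) + √u)| := by
        rw [abs_mul, abs_of_nonneg (by linarith [Real.sqrt_nonneg (u + e)] : 0 ≤ √(u + e) + √u)]
    _ ≤ E := by rw [h6]; exact he

theorem g2_alg (a b a2 b2 : ℝ) (ha : 0 < a) (hb : 0 < b) :
    (a2 - b2) ^ 2 - (a - b) ^ 2 - (a - b) * ((a2 ^ 2 - a ^ 2) / a - (b2 ^ 2 - b ^ 2) / b) =
      (a * (b2 - b) - b * (a2 - a)) ^ 2 / (a * b) := by
  field_simp
  ring

theorem g2_bd {a b p q E K : ℝ} (hK : 1 ≤ K) (ha : 0 < a) (hb : 0 < b) (hab : a ≤ 35 / 4 * b)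
    (hba : b ≤ 35 / 4 * a) (hKa : K ≤ 3 * a ^ 2) (hKb : K ≤ 3 * b ^ 2)
    (hp : |p| * (9 / 5 * a) ≤ E) (hq : |q| * (9 / 5 * b) ≤ E) :
    (a * q - b * p) ^ 2 / (a * b) ≤ 20 * (E ^ 2 / K) := by
  have hE : 0 ≤ E := le_trans (by positivity) hp
  have hK0 : 0 < K := by linarith
  have hKab := g2_prod hK ha hb hKa hKb
  -- multiply by `a b`
  have h1 : |(a * q - b * p)| * (9 / 5 * (a * b)) ≤ E * (a ^ 2 + b ^ 2) := by
    calc |(a * q - b * p)| * (9 / 5 * (a * b)) ≤ (|a * q| + |b * p|) * (9 / 5 * (a * b)) := by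
          apply mul_le_mul_of_nonneg_right _ (by positivity)
          exact abs_sub _ _
      _ = a ^ 2 * (|q| * (9 / 5 * b)) + b ^ 2 * (|p| * (9 / 5 * a)) := by
          rw [abs_mul, abs_mul, abs_of_pos ha, abs_of_pos hb]; ring
      _ ≤ a ^ 2 * E + b ^ 2 * E := by gcongr
      _ = _ := by ring
  have h2 : (a * q - b * p) ^ 2 * (81 / 25 * (a * b) ^ 2) ≤ E ^ 2 * (a ^ 2 + b ^ 2) ^ 2 := by
    calc (a * q - b * p) ^ 2 * (81 / 25 * (a * b) ^ 2)
        = (|(a * q - b * p)| * (9 / 5 * (a * b))) ^ 2 := by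
          rw [← sq_abs (a * q - b * p)]; ring
      _ ≤ (E * (a ^ 2 + b ^ 2)) ^ 2 := by
          apply pow_le_pow_left₀ (by positivity) h1
      _ = _ := by ring
  have h3 : 25 * (K * (a ^ 2 + b ^ 2) ^ 2) ≤ 1620 * (a * b) ^ 3 := by
    have e1 : K * a ^ 4 ≤ 105 / 4 * (a * b) ^ 3 := by
      calc K * a ^ 4 ≤ (3 * b ^ 2) * a ^ 4 := by gcongr
        _ = 3 * (b ^ 2 * a ^ 3) * a := by ring
        _ ≤ 3 * (b ^ 2 * a ^ 3) * (35 / 4 * b) := by gcongr
        _ = _ := by ring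
    have e2 : K * b ^ 4 ≤ 105 / 4 * (a * b) ^ 3 := by
      calc K * b ^ 4 ≤ (3 * a ^ 2) * b ^ 4 := by gcongr
        _ = 3 * (a ^ 2 * b ^ 3) * b := by ring
        _ ≤ 3 * (a ^ 2 * b ^ 3) * (35 / 4 * a) := by gcongr
        _ = _ := by ring
    have e3 : K * (2 * (a ^ 2 * b ^ 2)) ≤ 6 * (a * b) ^ 3 := by
      calc K * (2 * (a ^ 2 * b ^ 2)) ≤ (3 * (a * b)) * (2 * (a ^ 2 * b ^ 2)) := by gcongr
        _ = _ := by ring
    have e4 : 0 ≤ (a * b) ^ 3 := by positivity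
    nlinarith
  rw [mul_div_assoc', div_le_div_iff₀ (by positivity) hK0]
  -- `(aq-bp)^2 K ≤ 20 E^2 (ab)`
  have hab2 : 0 < 81 / 25 * (a * b) ^ 2 := by positivity
  have h4 : ((a * q - b * p) ^ 2 * K) * (81 / 25 * (a * b) ^ 2) ≤
      (20 * E ^ 2 * (a * b)) * (81 / 25 * (a * b) ^ 2) := by
    calc ((a * q - b * p) ^ 2 * K) * (81 / 25 * (a * b) ^ 2)
        = K * ((a * q - b * p) ^ 2 * (81 / 25 * (a * b) ^ 2)) := by ring
      _ ≤ K * (E ^ 2 * (a ^ 2 + b ^ 2) ^ 2) := by gcongr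
      _ = E ^ 2 / 25 * (25 * (K * (a ^ 2 + b ^ 2) ^ 2)) := by ring
      _ ≤ E ^ 2 / 25 * (1620 * (a * b) ^ 3) := by gcongr
      _ = _ := by ring
  exact le_of_mul_le_mul_right h4 hab2

/-- displacement of `x0`: with `a = √v`, `b = √u`, `a' = √(v+e₃)`, `b' = √(u+e₂)`, `a'-a = e₃/(a+a')`:
`(a'-b')² - (a-b)² = (a'-a-(b'-b))(2(a-b) + (a'-a) - (b'-b))`, `|a'-a - e₃/(2a)| ≤ 0.77 E² K^{-3/2}` -/
theorem xt_approx {K E u v e2 e3 : ℝ} (hK : 1 ≤ K) (hE : 1 ≤ E) (hEK : E ≤ K / 10) (hu : K / 3 ≤ u)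
    (hu' : u ≤ 25 * K) (hv : K / 3 ≤ v) (hv' : v ≤ 25 * K) (he2 : |e2| ≤ E) (he3 : |e3| ≤ E) :
    |x0 (u + e2) (v + e3) - x0 u v - xt e2 e3 u v| ≤ 20 * (E ^ 2 / K) := by
  obtain ⟨hb, hb2, hKb⟩ := g2_sqrt hK hu
  obtain ⟨ha, ha2, hKa⟩ := g2_sqrt hK hv
  obtain ⟨-, hq, hb3⟩ := g2_disp hK hEK hu he2
  obtain ⟨-, hp, ha3⟩ := g2_disp hK hEK hv he3
  have hab := g2_ratio hK hu hv'
  have hba := g2_ratio hK hv hu'
  have key := g2_alg (√v) (√u) (√(v + e3)) (√(u + e2)) ha hb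
  have e1 : √(v + e3) ^ 2 - √v ^ 2 = e3 := by rw [ha3, ha2]; ring
  have e2' : √(u + e2) ^ 2 - √u ^ 2 = e2 := by rw [hb3, hb2]; ring
  rw [e1, e2'] at key
  unfold x0 xt
  rw [key, abs_of_nonneg (by positivity)]
  exact g2_bd hK ha hb hab hba hKa hKb hp hq

theorem g2_diff {u u' : ℝ} (hu : 0 < u) (hu' : 0 < u') :
    |√u - √u'| * (√u + √u') = |u - u'| := by
  have h1 := Real.sq_sqrt hu.le
  have h2 := Real.sq_sqrt hu'.le
  have h3 := Real.sqrt_pos.mpr hu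
  have h4 := Real.sqrt_pos.mpr hu'
  calc |√u - √u'| * (√u + √u') = |(√u - √u') * (√u + √u')| := by
        rw [abs_mul, abs_of_pos (by linarith : 0 < √u + √u')]
    _ = |u - u'| := by
        congr 1
        calc (√u - √u') * (√u + √u') = √u ^ 2 - √u' ^ 2 := by ring
          _ = _ := by rw [h1, h2]

/-- ratio of square roots is Lipschitz -/
theorem g2_rat_lip {K u v u' v' : ℝ} (hK : 1 ≤ K) (hu : K / 3 ≤ u)
    (hv : K / 3 ≤ v) (hu' : K / 3 ≤ u') (hv' : K / 3 ≤ v')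
    (hv1' : v' ≤ 25 * K) :
    |√v / √u - √v' / √u'| ≤ 105 / 8 * ((|u - u'| + |v - v'|) / K) := by
  obtain ⟨hb, hb2, hKb⟩ := g2_sqrt hK hu
  obtain ⟨ha, ha2, hKa⟩ := g2_sqrt hK hv
  obtain ⟨hb', hb2', hKb'⟩ := g2_sqrt hK hu'
  obtain ⟨ha', ha2', hKa'⟩ := g2_sqrt hK hv'
  have hK0 : 0 < K := by linarith
  have hr := g2_ratio hK hu hv1'
  have d1 := g2_diff (by linarith : 0 < u) (by linarith : 0 < u')
  have d2 := g2_diff (by linarith : 0 < v) (by linarith : 0 < v')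
  have k1 := g2_prod hK ha hb hKa hKb
  have k2 := g2_prod hK ha' hb hKa' hKb
  have k3 := g2_prod hK hb hb' hKb hKb'
  have e1 : √v / √u - √v' / √u' = (√v - √v') / √u + √v' * (√u' - √u) / (√u * √u') := by
    field_simp
    ring
  have b1 : |(√v - √v') / √u| ≤ 3 / 2 * (|v - v'| / K) := by
    rw [abs_div, abs_of_pos hb, mul_div_assoc', div_le_div_iff₀ hb hK0, ← d2]
    have : |√v - √v'| * K ≤ |√v - √v'| * (3 / 2 * ((√v + √v') * √u)) := by
      apply mul_le_mul_of_nonneg_left _ (abs_nonneg _)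
      nlinarith
    calc |√v - √v'| * K ≤ |√v - √v'| * (3 / 2 * ((√v + √v') * √u)) := this
      _ = _ := by ring
  have b2 : |√v' * (√u' - √u) / (√u * √u')| ≤ 105 / 8 * (|u - u'| / K) := by
    rw [abs_div, abs_mul, abs_of_pos ha', abs_of_pos (mul_pos hb hb'), abs_sub_comm, mul_div_assoc',
      div_le_div_iff₀ (by positivity) hK0, ← d1]
    have h5 : √v' * K ≤ 105 / 8 * ((√u + √u') * (√u * √u')) := by
      calc √v' * K ≤ (35 / 4 * √u) * K := by gcongr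
        _ = √u * (35 / 4 * K) := by ring
        _ ≤ √u * (35 / 4 * (3 / 2 * ((√u + √u') * √u'))) := by
            apply mul_le_mul_of_nonneg_left _ hb.le
            nlinarith
        _ = _ := by ring
    calc √v' * |√u - √u'| * K = |√u - √u'| * (√v' * K) := by ring
      _ ≤ |√u - √u'| * (105 / 8 * ((√u + √u') * (√u * √u'))) := by gcongr
      _ = _ := by ring
  rw [e1]
  refine (abs_add_le _ _).trans ?_
  have e3 : 105 / 8 * ((|u - u'| + |v - v'|) / K) =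
      105 / 8 * (|u - u'| / K) + 105 / 8 * (|v - v'| / K) := by ring
  rw [e3]
  have hn : 0 ≤ |v - v'| / K := by positivity
  linarith

/-- `xt e2 e3 u v = e2 + e3 - e2 √v/√u - e3 √u/√v` -/
theorem xt_lip {K E u v u' v' e2 e3 : ℝ} (hK : 1 ≤ K) (hE : 1 ≤ E) (hu : K / 3 ≤ u)
    (hu1 : u ≤ 25 * K) (hv : K / 3 ≤ v) (hv1 : v ≤ 25 * K) (hu' : K / 3 ≤ u') (hu1' : u' ≤ 25 * K)
    (hv' : K / 3 ≤ v') (hv1' : v' ≤ 25 * K) (he2 : |e2| ≤ E) (he3 : |e3| ≤ E) :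
    |xt e2 e3 u v - xt e2 e3 u' v'| ≤ 30 * (E * (|u - u'| + |v - v'|) / K) := by
  have hb := (g2_sqrt hK hu).1
  have ha := (g2_sqrt hK hv).1
  have hb' := (g2_sqrt hK hu').1
  have ha' := (g2_sqrt hK hv').1
  have hK0 : 0 < K := by linarith
  have r1 := g2_rat_lip hK hu hv hu' hv' hv1'
  have r2 := g2_rat_lip hK hv hu hv' hu' hu1'
  have e1 : xt e2 e3 u v - xt e2 e3 u' v' =
      -(e2 * (√v / √u - √v' / √u')) - e3 * (√u / √v - √u' / √v') := by
    unfold xt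
    field_simp
    ring
  set S := (|u - u'| + |v - v'|) / K with hS
  have hS0 : 0 ≤ S := by positivity
  have r2' : |√u / √v - √u' / √v'| ≤ 105 / 8 * S := by
    rw [hS, add_comm (|u - u'|)]; exact r2
  rw [e1]
  calc |-(e2 * (√v / √u - √v' / √u')) - e3 * (√u / √v - √u' / √v')|
      ≤ |-(e2 * (√v / √u - √v' / √u'))| + |e3 * (√u / √v - √u' / √v')| := abs_sub _ _
    _ = |e2| * |√v / √u - √v' / √u'| + |e3| * |√u / √v - √u' / √v'| := by
        rw [abs_neg, abs_mul, abs_mul]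
    _ ≤ E * (105 / 8 * S) + E * (105 / 8 * S) := by gcongr
    _ ≤ 30 * (E * S) := by
        have : 0 ≤ E * S := by positivity
        linarith
    _ = 30 * (E * (|u - u'| + |v - v'|) / K) := by rw [hS]; ring

/-- one variable step of `dx_lip` -/
theorem g2_step {K E u v u' e2 e3 : ℝ} (hK : 1 ≤ K) (hE : 1 ≤ E) (hEK : E ≤ K / 10) (hu : K / 3 ≤ u)
    (hv : K / 3 ≤ v) (hv1 : v ≤ 25 * K) (hu' : K / 3 ≤ u')
    (he2 : |e2| ≤ E) (he3 : |e3| ≤ E) :
    |(x0 (u + e2) (v + e3) - x0 u v) - (x0 (u' + e2) (v + e3) - x0 u' v)| ≤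
      60 * (E * |u - u'| / K) := by
  obtain ⟨hb, hb2, hKb⟩ := g2_sqrt hK hu
  obtain ⟨ha, ha2, hKa⟩ := g2_sqrt hK hv
  obtain ⟨hb', hb2', hKb'⟩ := g2_sqrt hK hu'
  obtain ⟨l1, q1, s1⟩ := g2_disp hK hEK hu he2
  obtain ⟨l2, q2, s2⟩ := g2_disp hK hEK hu' he2
  obtain ⟨l3, q3, s3⟩ := g2_disp hK hEK hv he3
  have hK0 : 0 < K := by linarith
  have hE0 : 0 < E := by linarith
  have hr := g2_ratio hK hu hv1
  have k1 := g2_prod hK ha hb hKa hKb
  have k2 := g2_prod hK ha hb' hKa hKb'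
  have k3 := g2_prod hK hb hb' hKb hKb'
  unfold x0
  set a := √v with hadef
  set b := √u with hbdef
  set b' := √u' with hb'def
  set a2 := √(v + e3) with ha2def
  set c := √(u + e2) with hcdef
  set c' := √(u' + e2) with hc'def
  have hc : 0 < c := by linarith
  have hc' : 0 < c' := by linarith
  have hd : u - u' = (b - b') * (b + b') := by
    calc u - u' = b ^ 2 - b' ^ 2 := by rw [hb2, hb2']
      _ = _ := by ring
  have hd2 : u - u' = (c - c') * (c + c') := by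
    calc u - u' = c ^ 2 - c' ^ 2 := by rw [s1, s2]; ring
      _ = _ := by ring
  have e1 : ((a2 - c) ^ 2 - (a - b) ^ 2) - ((a2 - c') ^ 2 - (a - b') ^ 2) =
      -(2 * (u - u')) * ((a2 - a) / (c + c') + a * ((b - c) + (b' - c')) / ((c + c') * (b + b'))) := by
    have f1 : (u - u') / (c + c') = c - c' := by
      rw [hd2]; field_simp
    have f2 : (u - u') / (b + b') = b - b' := by
      rw [hd]; field_simp
    have f3 : (u - u') * ((a2 - a) / (c + c') + a * ((b - c) + (b' - c')) / ((c + c') * (b + b'))) =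
        a2 * ((u - u') / (c + c')) - a * ((u - u') / (b + b')) := by
      field_simp
      ring
    have f4 : -(2 * (u - u')) * ((a2 - a) / (c + c') + a * ((b - c) + (b' - c')) / ((c + c') * (b + b'))) =
        -2 * ((u - u') * ((a2 - a) / (c + c') + a * ((b - c) + (b' - c')) / ((c + c') * (b + b')))) := by
      ring
    rw [f4, f3, f1, f2]
    have f5 : c ^ 2 - c' ^ 2 = b ^ 2 - b' ^ 2 := by rw [s1, s2, hb2, hb2']; ring
    linear_combination f5
  have b1 : |(a2 - a) / (c + c')| ≤ 25 / 24 * (E / K) := by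
    rw [abs_div, abs_of_pos (by positivity : 0 < c + c'), mul_div_assoc',
      div_le_div_iff₀ (by positivity) hK0]
    -- `|a2-a| K ≤ 25/24 E (c+c')`
    have h6 : K ≤ 15 / 8 * (a * (c + c')) := by nlinarith
    calc |a2 - a| * K ≤ |a2 - a| * (15 / 8 * (a * (c + c'))) := by gcongr
      _ = 25 / 24 * (|a2 - a| * (9 / 5 * a)) * (c + c') := by ring
      _ ≤ 25 / 24 * E * (c + c') := by gcongr
  have b2 : |a * ((b - c) + (b' - c')) / ((c + c') * (b + b'))| ≤ 10 * (E / K) := by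
    rw [abs_div, abs_mul, abs_of_pos ha, abs_of_pos (by positivity : 0 < (c + c') * (b + b')),
      mul_div_assoc', div_le_div_iff₀ (by positivity) hK0]
    have h7 : |(b - c) + (b' - c')| * (9 / 5 * (b * b')) ≤ E * (b + b') := by
      calc |(b - c) + (b' - c')| * (9 / 5 * (b * b'))
          ≤ (|b - c| + |b' - c'|) * (9 / 5 * (b * b')) := by
            apply mul_le_mul_of_nonneg_right (abs_add_le _ _) (by positivity)
        _ = b' * (|c - b| * (9 / 5 * b)) + b * (|c' - b'| * (9 / 5 * b')) := by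
            rw [abs_sub_comm b c, abs_sub_comm b' c']; ring
        _ ≤ b' * E + b * E := by gcongr
        _ = _ := by ring
    have h8 : a * K ≤ 10 * (9 / 5 * (b * b') * (c + c')) := by
      -- a ≤ 35/4 b, K ≤ 3/2 b'(b+b'), b + b' ≤ 5/4 (c+c')
      have g1 : K ≤ 3 / 2 * (b' * (b + b')) := by nlinarith
      have g2 : b + b' ≤ 5 / 4 * (c + c') := by linarith
      calc a * K ≤ (35 / 4 * b) * (3 / 2 * (b' * (b + b'))) := by gcongr
        _ = 105 / 8 * (b * b') * (b + b') := by ring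
        _ ≤ 105 / 8 * (b * b') * (5 / 4 * (c + c')) := by gcongr
        _ ≤ 10 * (9 / 5 * (b * b') * (c + c')) := by
            have : 0 ≤ b * b' * (c + c') := by positivity
            nlinarith
    have h9 : 0 < 9 / 5 * (b * b') := by positivity
    have h10 : (a * |(b - c) + (b' - c')| * K) * (9 / 5 * (b * b')) ≤
        (10 * E * ((c + c') * (b + b'))) * (9 / 5 * (b * b')) := by
      calc (a * |(b - c) + (b' - c')| * K) * (9 / 5 * (b * b'))
          = (a * K) * (|(b - c) + (b' - c')| * (9 / 5 * (b * b'))) := by ring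
        _ ≤ (10 * (9 / 5 * (b * b') * (c + c'))) * (E * (b + b')) := by gcongr
        _ = _ := by ring
    exact le_of_mul_le_mul_right h10 h9
  rw [e1, abs_mul, abs_neg, abs_mul, abs_of_pos (by norm_num : (0 : ℝ) < 2)]
  have b3 : |(a2 - a) / (c + c') + a * ((b - c) + (b' - c')) / ((c + c') * (b + b'))| ≤
      30 * (E / K) := by
    refine (abs_add_le _ _).trans ?_
    have : 0 ≤ E / K := by positivity
    linarith
  calc 2 * |u - u'| * |(a2 - a) / (c + c') + a * ((b - c) + (b' - c')) / ((c + c') * (b + b'))|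
      ≤ 2 * |u - u'| * (30 * (E / K)) := by gcongr
    _ = 60 * (E * |u - u'| / K) := by ring

/-- `x0 (u+e2) (v+e3) - x0 u v = e2 + e3 - 2(√(u+e2)√(v+e3) - √u√v)`; its derivative in `u` is
`√(v/u) - √((v+e3)/(u+e2))` -/
theorem dx_lip {K E u v u' v' e2 e3 : ℝ} (hK : 1 ≤ K) (hE : 1 ≤ E) (hEK : E ≤ K / 10) (hu : K / 3 ≤ u)
    (hu1 : u ≤ 25 * K) (hv : K / 3 ≤ v) (hv1 : v ≤ 25 * K) (hu' : K / 3 ≤ u') (hu1' : u' ≤ 25 * K)
    (hv' : K / 3 ≤ v') (hv1' : v' ≤ 25 * K) (he2 : |e2| ≤ E) (he3 : |e3| ≤ E) :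
    |(x0 (u + e2) (v + e3) - x0 u v) - (x0 (u' + e2) (v' + e3) - x0 u' v')| ≤
      60 * (E * (|u - u'| + |v - v'|) / K) := by
  have hsym : ∀ x y : ℝ, x0 x y = x0 y x := by
    intro x y; unfold x0; ring
  have s1 := g2_step hK hE hEK hu hv hv1 hu' he2 he3
  have s2 := g2_step hK hE hEK hv hu' hu1' hv' he3 he2
  rw [hsym (v + e3), hsym v, hsym (v' + e3), hsym v'] at s2
  have e1 : (x0 (u + e2) (v + e3) - x0 u v) - (x0 (u' + e2) (v' + e3) - x0 u' v') =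
      ((x0 (u + e2) (v + e3) - x0 u v) - (x0 (u' + e2) (v + e3) - x0 u' v)) +
      ((x0 (u' + e2) (v + e3) - x0 u' v) - (x0 (u' + e2) (v' + e3) - x0 u' v')) := by ring
  rw [e1]
  refine (abs_add_le _ _).trans ?_
  have e2' : 60 * (E * (|u - u'| + |v - v'|) / K) =
      60 * (E * |u - u'| / K) + 60 * (E * |v - v'| / K) := by ring
  rw [e2']
  linarith

end TS
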