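import Pool.Agent.Lib.MP_39df77_nt.TS.Geo1
import Pool.Agent.Lib.MP_39df77_nt.TS.Geo2

/-!
Row TS-G3: approximation of the phase.
-/

set_option autoImplicit false

namespace TS

open Finset

private theorem G3_sqrt {a b : ℝ} (hb : 0 < b) : |√a - √b| * √b ≤ |a - b| := by
  have hb0 := Real.sqrt_pos.2 hb
  have hbs := Real.sq_sqrt hb.le
  by_cases ha : 0 ≤ a
  · have ha0 := Real.sqrt_nonneg a
    have has := Real.sq_sqrt ha
    have h1 : |a - b| = |√a - √b| * (√a + √b) := by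
      rw [← abs_of_nonneg (add_nonneg ha0 hb0.le), ← abs_mul]
      congr 1
      calc a - b = √a ^ 2 - √b ^ 2 := by rw [has, hbs]
        _ = _ := by ring
    rw [h1]
    exact mul_le_mul_of_nonneg_left (by linarith) (abs_nonneg _)
  · push Not at ha
    rw [Real.sqrt_eq_zero_of_nonpos ha.le, zero_sub, abs_neg, abs_of_pos hb0, abs_of_neg (by linarith)]
    nlinarith

private theorem G3_err {K L θ m : ℝ} (hK : 0 < K) (hL : 1 ≤ L) (hθ : L ≤ θ) (hθ2 : θ ≤ 4 * L)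
    (hm : K ≤ m) : |√(θ ^ 2 + 4 * θ * m) / 2 - √m * √θ| ≤ L * √L / √K := by
  have hθ0 : 0 < θ := by linarith
  have hm0 : 0 < m := by linarith
  have hL0 : 0 < L := by linarith
  have hsK := Real.sqrt_pos.2 hK
  have hsm := Real.sqrt_pos.2 hm0
  have hsθ := Real.sqrt_pos.2 hθ0
  have hsL := Real.sqrt_pos.2 hL0
  have hmm := Real.sq_sqrt hm0.le
  have hθθ := Real.sq_sqrt hθ0.le
  have hLL := Real.sq_sqrt hL0.le
  have hKm : √K ≤ √m := Real.sqrt_le_sqrt hm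
  have hθL : √θ ≤ 2 * √L := by
    rw [Real.sqrt_le_left (by positivity)]
    nlinarith
  have hq0 : 0 < θ ^ 2 + 4 * θ * m := by positivity
  have hq := Real.sq_sqrt hq0.le
  have hsq := Real.sqrt_nonneg (θ ^ 2 + 4 * θ * m)
  have hlow : √m * √θ ≤ √(θ ^ 2 + 4 * θ * m) / 2 := by
    have h1 : 2 * (√m * √θ) ≤ √(θ ^ 2 + 4 * θ * m) := by
      apply Real.le_sqrt_of_sq_le
      calc (2 * (√m * √θ)) ^ 2 = 4 * (√m ^ 2 * √θ ^ 2) := by ring
        _ = 4 * (m * θ) := by rw [hmm, hθθ]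
        _ ≤ θ ^ 2 + 4 * θ * m := by nlinarith
    linarith
  have hup : √(θ ^ 2 + 4 * θ * m) ≤ 2 * (√m * √θ + L * √L / √K) := by
    rw [Real.sqrt_le_left (by positivity)]
    have h2 : √θ * (L * √L) ≤ √m * √θ * (L * √L / √K) := by
      have h3 : √m * √θ * (L * √L / √K) = (√m / √K) * (√θ * (L * √L)) := by
        field_simp
      rw [h3]
      have h4 : 1 ≤ √m / √K := by rw [le_div_iff₀ hsK]; linarith
      have h5 : 0 < √θ * (L * √L) := by positivity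
      nlinarith
    have h6 : θ ^ 2 ≤ 8 * (√θ * (L * √L)) := by
      calc θ ^ 2 = θ * (√θ ^ 2) := by rw [hθθ]; ring
        _ ≤ (4 * L) * (√θ * (2 * √L)) := by
            have h7 : √θ ^ 2 ≤ √θ * (2 * √L) := by nlinarith
            exact mul_le_mul hθ2 h7 (by positivity) (by positivity)
        _ = _ := by ring
    have h8 : 0 ≤ (L * √L / √K) ^ 2 := sq_nonneg _
    calc θ ^ 2 + 4 * θ * m ≤ 8 * (√m * √θ * (L * √L / √K)) + 4 * (√θ ^ 2 * √m ^ 2) := by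
          rw [hmm, hθθ]; nlinarith
      _ ≤ (2 * (√m * √θ + L * √L / √K)) ^ 2 := by nlinarith
  rw [abs_le]
  constructor
  · have : 0 ≤ L * √L / √K := by positivity
    linarith
  · linarith

private theorem G3_m {K u v u' v' D : ℝ} (hK : 0 < K) (hD : 0 ≤ D) (hu : K ≤ u)
    (hv : K ≤ v) (hu2 : u ≤ 2 * K) (hv2 : v' ≤ 20 * K) (hdu : |u' - u| ≤ D)
    (hdv : |v' - v| ≤ D) (hv'0 : 0 ≤ v') : |√(u' * v') - √(u * v)| ≤ 22 * D := by
  have h0 : 0 < u * v := mul_pos (by linarith) (by linarith)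
  have h1 := G3_sqrt (a := u' * v') h0
  have h2 : K ≤ √(u * v) := by
    apply Real.le_sqrt_of_sq_le
    nlinarith
  have h3 : |u' * v' - u * v| ≤ 22 * K * D := by
    have h4 : u' * v' - u * v = (u' - u) * v' + u * (v' - v) := by ring
    rw [h4]
    refine (abs_add_le _ _).trans ?_
    rw [abs_mul, abs_mul, abs_of_nonneg hv'0, abs_of_nonneg (by linarith : (0 : ℝ) ≤ u)]
    have h5 : |u' - u| * v' ≤ D * (20 * K) := mul_le_mul hdu hv2 hv'0 hD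
    have h6 : u * |v' - v| ≤ (2 * K) * D := mul_le_mul hu2 hdv (abs_nonneg _) (by linarith)
    linarith
  have h7 : |√(u' * v') - √(u * v)| * K ≤ 22 * K * D :=
    (mul_le_mul_of_nonneg_left h2 (abs_nonneg _)).trans (h1.trans h3)
  by_contra hc
  push Not at hc
  nlinarith

private theorem G3_core {K R L u v u' v' θ θ' x : ℝ} (hK : 1 ≤ K) (hR : 1 ≤ R) (hL : 1 ≤ L)
    (hu : K ≤ u) (hu2 : u ≤ 2 * K) (hv : K ≤ v) (hv2 : v ≤ 20 * K) (hu' : K ≤ u')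
    (hv' : K ≤ v') (hv'2 : v' ≤ 20 * K) (hθ : L ≤ θ) (hθ2 : θ ≤ 4 * L)
    (hθ' : L ≤ θ') (hθ'2 : θ' ≤ 4 * L) (hdu : |u' - u| ≤ 10 * L * √R)
    (hdv : |v' - v| ≤ 10 * L * √R) (hx : |θ' - θ - x| ≤ 20 * ((10 * L * √R) ^ 2 / K)) :
    |√(θ ^ 2 + 4 * θ * √(u * v)) / 2 - √(θ' ^ 2 + 4 * θ' * √(u' * v')) / 2 -
      √(√(u * v)) * (√θ - √(θ + x))| ≤ 7000 * (L * √L * R / √K) := by
  have hK0 : 0 < K := by linarith
  have hR0 : 0 < R := by linarith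
  have hL0 : 0 < L := by linarith
  have hsK := Real.sqrt_pos.2 hK0
  have hsL := Real.sqrt_pos.2 hL0
  have hsR := Real.sqrt_pos.2 hR0
  have hKK := Real.sq_sqrt hK0.le
  have hLL := Real.sq_sqrt hL0.le
  have hRR := Real.sq_sqrt hR0.le
  have hθ'0 : 0 < θ' := by linarith
  have hsθ' := Real.sqrt_pos.2 hθ'0
  have hm : K ≤ √(u * v) := by
    apply Real.le_sqrt_of_sq_le
    nlinarith
  have hm2 : √(u * v) ≤ 9 * K := by
    rw [Real.sqrt_le_left (by positivity)]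
    nlinarith
  have hm' : K ≤ √(u' * v') := by
    apply Real.le_sqrt_of_sq_le
    nlinarith
  obtain ⟨m, hmdef⟩ : ∃ m, m = √(u * v) := ⟨_, rfl⟩
  obtain ⟨m', hm'def⟩ : ∃ m', m' = √(u' * v') := ⟨_, rfl⟩
  have hmm := G3_m hK0 (by positivity : (0 : ℝ) ≤ 10 * L * √R) hu hv hu2 hv'2 hdu hdv (by linarith)
  rw [← hmdef] at hm hm2
  rw [← hm'def] at hm'
  rw [← hmdef, ← hm'def] at hmm ⊢
  have hm0 : 0 < m := by linarith
  have hm'0 : 0 < m' := by linarith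
  have hsm := Real.sqrt_pos.2 hm0
  have hKm : √K ≤ √m := Real.sqrt_le_sqrt hm
  have hm3 : √m ≤ 3 * √K := by
    rw [Real.sqrt_le_left (by positivity)]
    nlinarith
  obtain ⟨q, hq⟩ : ∃ q, q = L * √L / √K := ⟨_, rfl⟩
  have hq0 : 0 < q := by rw [hq]; positivity
  have e1 := G3_err hK0 hL hθ hθ2 hm
  have e2 := G3_err hK0 hL hθ' hθ'2 hm'
  rw [← hq] at e1 e2
  have hsR1 : √R ≤ R := by
    rw [Real.sqrt_le_left hR0.le]
    nlinarith
  -- first term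
  have f1 : |√m' - √m| ≤ 220 * (L * √R) / √K := by
    rw [le_div_iff₀ hsK]
    have h1 := G3_sqrt (a := m') hm0
    have h2 : |√m' - √m| * √K ≤ |√m' - √m| * √m := mul_le_mul_of_nonneg_left hKm (abs_nonneg _)
    linarith
  have f2 : √θ' * |√m' - √m| ≤ 440 * (q * R) := by
    have h1 : √θ' ≤ 2 * √L := by
      rw [Real.sqrt_le_left (by positivity)]
      nlinarith
    calc √θ' * |√m' - √m| ≤ (2 * √L) * (220 * (L * √R) / √K) :=
          mul_le_mul h1 f1 (abs_nonneg _) (by positivity)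
      _ = 440 * (q * √R) := by rw [hq]; ring
      _ ≤ 440 * (q * R) := by
          have := mul_le_mul_of_nonneg_left hsR1 hq0.le
          linarith
  -- second term
  have f3 : |√(θ + x) - √θ'| ≤ 2000 * (L * √L * R / K) := by
    have h1 := G3_sqrt (a := θ + x) hθ'0
    have h2 : |θ + x - θ'| = |θ' - θ - x| := by rw [abs_sub_comm]; congr 1; ring
    have h3 : √L ≤ √θ' := Real.sqrt_le_sqrt hθ'
    have h4 : 20 * ((10 * L * √R) ^ 2 / K) = 2000 * (L * √L * R / K) * √L := by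
      calc 20 * ((10 * L * √R) ^ 2 / K) = 2000 * (L * L * (√R ^ 2) / K) := by ring
        _ = 2000 * (L * (√L ^ 2) * R / K) := by rw [hRR, hLL]
        _ = _ := by ring
    rw [h2] at h1
    have h5 : |√(θ + x) - √θ'| * √L ≤ 2000 * (L * √L * R / K) * √L := by
      rw [← h4]
      exact (mul_le_mul_of_nonneg_left h3 (abs_nonneg _)).trans (h1.trans hx)
    exact le_of_mul_le_mul_right h5 hsL
  have f4 : √m * |√(θ + x) - √θ'| ≤ 6000 * (q * R) := by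
    calc √m * |√(θ + x) - √θ'| ≤ (3 * √K) * (2000 * (L * √L * R / K)) :=
          mul_le_mul hm3 f3 (abs_nonneg _) (by positivity)
      _ = 6000 * (q * R) := by
          rw [hq]
          have h1 : √K / K = 1 / √K := by
            rw [div_eq_div_iff hK0.ne' hsK.ne']
            nlinarith
          calc (3 * √K) * (2000 * (L * √L * R / K)) = 6000 * (L * √L * R) * (√K / K) := by ring
            _ = 6000 * (L * √L * R) * (1 / √K) := by rw [h1]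
            _ = _ := by ring
  have hfin : √(θ ^ 2 + 4 * θ * m) / 2 - √(θ' ^ 2 + 4 * θ' * m') / 2 - √m * (√θ - √(θ + x)) =
      (√(θ ^ 2 + 4 * θ * m) / 2 - √m * √θ) - (√(θ' ^ 2 + 4 * θ' * m') / 2 - √m' * √θ') -
        √θ' * (√m' - √m) + √m * (√(θ + x) - √θ') := by ring
  rw [hfin]
  have g1 : |√θ' * (√m' - √m)| = √θ' * |√m' - √m| := by rw [abs_mul, abs_of_pos hsθ']
  have g2 : |√m * (√(θ + x) - √θ')| = √m * |√(θ + x) - √θ'| := by rw [abs_mul, abs_of_pos hsm]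
  have g3 : q ≤ q * R := by nlinarith
  have g4 : L * √L * R / √K = q * R := by rw [hq]; ring
  rw [g4]
  have b1 := abs_add_le ((√(θ ^ 2 + 4 * θ * m) / 2 - √m * √θ) -
    (√(θ' ^ 2 + 4 * θ' * m') / 2 - √m' * √θ') - √θ' * (√m' - √m)) (√m * (√(θ + x) - √θ'))
  have b2 := abs_sub ((√(θ ^ 2 + 4 * θ * m) / 2 - √m * √θ) -
    (√(θ' ^ 2 + 4 * θ' * m') / 2 - √m' * √θ')) (√θ' * (√m' - √m))
  have b3 := abs_sub (√(θ ^ 2 + 4 * θ * m) / 2 - √m * √θ)
    (√(θ' ^ 2 + 4 * θ' * m') / 2 - √m' * √θ')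
  rw [g2] at b1
  rw [g1] at b2
  linarith

/-- `√q/2 = √(θm) + O(θ^{3/2} m^{-1/2})` (`qf_eq`), `m' = m + O(E)`, `xt_approx`, `E = 10L√R` -/
theorem phase_approx : ∃ C : ℝ, 1 ≤ C ∧ ∀ (K R Lam : ℝ) (L : ℕ) (W : ℝ → ℝ → ℝ → ℂ) (k1 k2 k3 e2 e3 : ℤ),
    1 ≤ R → 1 ≤ L → 10 ^ 48 * ((L : ℝ) * R) ^ 11 ≤ K → Wt K R L Lam W →
    K ≤ k2 → (k2 : ℝ) ≤ 2 * K → K ≤ ((k2 + e2 : ℤ) : ℝ) → ((k2 + e2 : ℤ) : ℝ) ≤ 2 * K → |(e3 : ℝ)| ≤ L →
    W (x0 k2 k3 - k1) k2 k3 ≠ 0 → W (x0 (k2 + e2 : ℤ) (k3 + e3 : ℤ) - k1) (k2 + e2 : ℤ) (k3 + e3 : ℤ) ≠ 0 →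
    |√(qf k1 k2 k3) / 2 - √(qf k1 (k2 + e2 : ℤ) (k3 + e3 : ℤ)) / 2 - Ft e2 e3 (x0 k2 k3 - k1) k2 k3| ≤
      C * ((L : ℝ) * √(L : ℝ) * R / √K) := by
  refine ⟨7000, by norm_num, ?_⟩
  intro K R Lam L W k1 k2 k3 e2 e3 hR hL hbig hW hk2 hk2' hk hk' he3 hne hne'
  have hReg := mem_Reg hR hL hbig hW hk2 hk2' hne
  have hReg' := mem_Reg hR hL hbig hW hk hk' hne'
  have he2 := e2_small hR hL hbig hW hk2 hk2' hk hk' he3 hne hne'
  simp only [Reg, Finset.mem_filter] at hReg hReg'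
  obtain ⟨_, _, _, ha3, ha4, _⟩ := hReg
  obtain ⟨_, _, _, hb3, hb4, _⟩ := hReg'
  obtain ⟨hθ, hθ2, _, _, _⟩ := hW.th _ _ _ hne
  obtain ⟨hθ', hθ'2, _, _, _⟩ := hW.th _ _ _ hne'
  have hL1 : (1 : ℝ) ≤ L := by exact_mod_cast hL
  have hLR : 1 ≤ (L : ℝ) * R := by nlinarith
  have hpow : (L : ℝ) * R ≤ ((L : ℝ) * R) ^ 11 := by
    calc (L : ℝ) * R = ((L : ℝ) * R) ^ 1 := by ring
      _ ≤ ((L : ℝ) * R) ^ 11 := pow_le_pow_right₀ hLR (by norm_num)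
  have hK1 : 1 ≤ K := by nlinarith
  have hsR1 : √R ≤ R := by
    rw [Real.sqrt_le_left (by linarith)]
    nlinarith
  have hsR2 : 1 ≤ √R := by rw [Real.one_le_sqrt]; exact hR
  have hLsR : (L : ℝ) * √R ≤ L * R := mul_le_mul_of_nonneg_left hsR1 (by linarith)
  have hLsR1 : (L : ℝ) ≤ L * √R := by nlinarith
  have hEK : 10 * (L : ℝ) * √R ≤ K / 10 := by nlinarith
  have hE1 : 1 ≤ 10 * (L : ℝ) * √R := by nlinarith
  have ha3' : (k2 : ℝ) < k3 := by exact_mod_cast ha3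
  have hb3' : ((k2 + e2 : ℤ) : ℝ) < ((k3 + e3 : ℤ) : ℝ) := by exact_mod_cast hb3
  have hx := xt_approx (K := K) (E := 10 * (L : ℝ) * √R) (u := k2) (v := k3) (e2 := e2) (e3 := e3)
    hK1 hE1 hEK (by linarith) (by linarith) (by linarith) (by linarith) he2 (he3.trans (by linarith))
  have hc2 : ((k2 + e2 : ℤ) : ℝ) = (k2 : ℝ) + e2 := by push_cast; ring
  have hc3 : ((k3 + e3 : ℤ) : ℝ) = (k3 : ℝ) + e3 := by push_cast; ring
  rw [qf_eq _ _ _ (by linarith) (by linarith), qf_eq _ _ _ (by linarith) (by linarith)]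
  unfold Ft
  refine G3_core hK1 hR hL1 hk2 hk2' (by linarith) ha4 hk (by linarith) hb4 hθ hθ2 hθ' hθ'2 ?_ ?_ ?_
  · rw [hc2, add_sub_cancel_left]
    exact he2
  · rw [hc3, add_sub_cancel_left]
    exact he3.trans (by linarith)
  · rw [hc2, hc3]
    have h1 : x0 ((k2 : ℝ) + e2) ((k3 : ℝ) + e3) - k1 - (x0 k2 k3 - k1) - xt e2 e3 k2 k3 =
        x0 ((k2 : ℝ) + e2) ((k3 : ℝ) + e3) - x0 k2 k3 - xt e2 e3 k2 k3 := by ring
    rw [h1]
    exact hx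

end TS
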