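import Pool.Agent.Lib.MP_39df77_nt.TS.Defs

/-!
Row TS-N: the algebra of Nice functions. All proofs are short: the class of test functions
`(τ/2)^n u(p) v(r)` is closed under products.
-/

set_option autoImplicit false

namespace TS

open Finset Filter Topology

variable {ι : Type} {X : Finset ι} {τ : ι → ℝ} {p r : ι → ℤ} {N N' : ℝ} {f g : ι → ℂ}

private theorem N_c_nonneg {ψ : ι → ℂ} {c : ℝ}
    (h : ∀ (n : ℕ) (u v : ℤ → ℂ), (∀ k, ‖u k‖ ≤ 1) → (∀ k, ‖v k‖ ≤ 1) →
      ‖∑ x ∈ X, ψ x * (((τ x / 2 : ℝ) : ℂ) ^ n * u (p x) * v (r x))‖ ≤ c) : 0 ≤ c :=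
  le_trans (norm_nonneg _) (h 0 (fun _ => 0) (fun _ => 0) (by simp) (by simp))

theorem Nice.mono (h : Nice X τ p r N f) (hN : N ≤ N') : Nice X τ p r N' f := by
  intro ψ c hψ
  exact le_trans (h ψ c hψ) (mul_le_mul_of_nonneg_left hN (N_c_nonneg hψ))

theorem Nice.congr (h : Nice X τ p r N f) (hfg : ∀ x ∈ X, f x = g x) : Nice X τ p r N g := by
  intro ψ c hψ
  have h1 : ∑ x ∈ X, ψ x * g x = ∑ x ∈ X, ψ x * f x :=
    Finset.sum_congr rfl fun x hx => by rw [hfg x hx]
  rw [h1]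
  exact h ψ c hψ

theorem Nice.add (hf : Nice X τ p r N f) (hg : Nice X τ p r N' g) :
    Nice X τ p r (N + N') (fun x => f x + g x) := by
  intro ψ c hψ
  have h1 : ∑ x ∈ X, ψ x * (f x + g x) = ∑ x ∈ X, ψ x * f x + ∑ x ∈ X, ψ x * g x := by
    rw [← Finset.sum_add_distrib]
    exact Finset.sum_congr rfl fun x _ => by ring
  rw [h1, mul_add]
  exact le_trans (norm_add_le _ _) (add_le_add (hf ψ c hψ) (hg ψ c hψ))

/-- for a test function `g₀` the functional `ψ g₀` has the same dual bound `c`; so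
`‖∑ ψ g₀ f‖ ≤ c N` for all `g₀`; apply `hg` to the functional `ψ f` with the bound `c N` -/
theorem Nice.mul (hf : Nice X τ p r N f) (hg : Nice X τ p r N' g) :
    Nice X τ p r (N * N') (fun x => f x * g x) := by
  intro ψ c hψ
  have h1 : ∑ x ∈ X, ψ x * (f x * g x) = ∑ x ∈ X, (fun y => ψ y * f y) x * g x :=
    Finset.sum_congr rfl fun x _ => by ring
  rw [h1, ← mul_assoc]
  refine hg (fun x => ψ x * f x) (c * N) ?_
  intro n u v hu hv
  have h2 : ∑ x ∈ X, ψ x * f x * (((τ x / 2 : ℝ) : ℂ) ^ n * u (p x) * v (r x)) =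
      ∑ x ∈ X, (fun y => ψ y * (((τ y / 2 : ℝ) : ℂ) ^ n * u (p y) * v (r y))) x * f x :=
    Finset.sum_congr rfl fun x _ => by ring
  rw [h2]
  refine hf (fun y => ψ y * (((τ y / 2 : ℝ) : ℂ) ^ n * u (p y) * v (r y))) c ?_
  intro n' u' v' hu' hv'
  have h4 := hψ (n + n') (fun k => u k * u' k) (fun k => v k * v' k)
    (fun k => by
      rw [norm_mul]
      exact mul_le_one₀ (hu k) (norm_nonneg _) (hu' k))
    (fun k => by
      rw [norm_mul]
      exact mul_le_one₀ (hv k) (norm_nonneg _) (hv' k))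
  have h3 : ∑ x ∈ X, ψ x * (((τ x / 2 : ℝ) : ℂ) ^ n * u (p x) * v (r x)) *
      (((τ x / 2 : ℝ) : ℂ) ^ n' * u' (p x) * v' (r x)) =
      ∑ x ∈ X, ψ x * (((τ x / 2 : ℝ) : ℂ) ^ (n + n') * (u (p x) * u' (p x)) *
        (v (r x) * v' (r x))) := by
    refine Finset.sum_congr rfl fun x _ => ?_
    generalize (((τ x / 2 : ℝ) : ℂ)) = a
    generalize u (p x) = b1
    generalize u' (p x) = b2
    generalize v (r x) = b3
    generalize v' (r x) = b4
    rw [pow_add]
    ring
  exact le_trans (le_of_eq (congrArg norm h3)) h4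

theorem Nice.const (a : ℂ) : Nice X τ p r ‖a‖ (fun _ => a) := by
  intro ψ c hψ
  have h1 := hψ 0 (fun _ => 1) (fun _ => 1) (by simp) (by simp)
  have h2 : ∑ x ∈ X, ψ x * a =
      (∑ x ∈ X, ψ x * (((τ x / 2 : ℝ) : ℂ) ^ 0 * (fun _ => (1 : ℂ)) (p x) *
        (fun _ => (1 : ℂ)) (r x))) * a := by
    rw [Finset.sum_mul]
    exact Finset.sum_congr rfl fun x _ => by
      dsimp only
      rw [pow_zero]
      ring
  rw [h2, norm_mul]
  exact mul_le_mul_of_nonneg_right h1 (norm_nonneg _)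

theorem Nice.smul (a : ℂ) (hf : Nice X τ p r N f) : Nice X τ p r (‖a‖ * N) (fun x => a * f x) :=
  Nice.mul (Nice.const a) hf

theorem Nice.tau : Nice X τ p r 2 (fun x => (τ x : ℂ)) := by
  intro ψ c hψ
  have h1 := hψ 1 (fun _ => 1) (fun _ => 1) (by simp) (by simp)
  have h2 : ∑ x ∈ X, ψ x * (τ x : ℂ) =
      (∑ x ∈ X, ψ x * (((τ x / 2 : ℝ) : ℂ) ^ 1 * (fun _ => (1 : ℂ)) (p x) *
        (fun _ => (1 : ℂ)) (r x))) * 2 := by
    rw [Finset.sum_mul]
    exact Finset.sum_congr rfl fun x _ => by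
      dsimp only
      rw [pow_one]
      push_cast
      ring
  rw [h2, norm_mul]
  have h3 : ‖(2 : ℂ)‖ = 2 := by simp
  rw [h3]
  exact mul_le_mul_of_nonneg_right h1 (by norm_num)

theorem Nice.left (u : ℤ → ℂ) (hN : 0 ≤ N) (h : ∀ x ∈ X, ‖u (p x)‖ ≤ N) :
    Nice X τ p r N (fun x => u (p x)) := by
  classical
  intro ψ c hψ
  rcases hN.eq_or_lt with h0 | h0
  · have h1 : ∑ x ∈ X, ψ x * u (p x) = 0 := by
      apply Finset.sum_eq_zero
      intro x hx
      have h2 := h x hx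
      rw [← h0] at h2
      rw [norm_le_zero_iff.1 h2, mul_zero]
    rw [h1, ← h0, norm_zero, mul_zero]
  · have h1 := hψ 0 (fun k => if ‖u k‖ ≤ N then u k / N else 0) (fun _ => 1) (by
      intro k
      split_ifs with hk
      · rw [norm_div, Complex.norm_real, Real.norm_of_nonneg hN]
        exact (div_le_one h0).2 hk
      · simp) (by simp)
    have h2 : ∑ x ∈ X, ψ x * u (p x) =
        (∑ x ∈ X, ψ x * (((τ x / 2 : ℝ) : ℂ) ^ 0 *
          (fun k => if ‖u k‖ ≤ N then u k / N else 0) (p x) * (fun _ => (1 : ℂ)) (r x))) *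
          (N : ℂ) := by
      rw [Finset.sum_mul]
      refine Finset.sum_congr rfl fun x hx => ?_
      dsimp only
      rw [if_pos (h x hx), pow_zero]
      have h3 : (N : ℂ) ≠ 0 := by exact_mod_cast h0.ne'
      field_simp
    rw [h2, norm_mul, Complex.norm_real, Real.norm_of_nonneg hN]
    exact mul_le_mul_of_nonneg_right h1 hN

theorem Nice.right (v : ℤ → ℂ) (hN : 0 ≤ N) (h : ∀ x ∈ X, ‖v (r x)‖ ≤ N) :
    Nice X τ p r N (fun x => v (r x)) := by
  intro ψ c hψ
  apply Nice.left (X := X) (τ := τ) (p := r) (r := p) v hN h ψ c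
  intro n u w hu hw
  have h1 : ∑ x ∈ X, ψ x * (((τ x / 2 : ℝ) : ℂ) ^ n * u (r x) * w (p x)) =
      ∑ x ∈ X, ψ x * (((τ x / 2 : ℝ) : ℂ) ^ n * w (p x) * u (r x)) :=
    Finset.sum_congr rfl fun x _ => by ring
  rw [h1]
  exact hψ n w u hw hu

theorem Nice.lim {F : ℕ → ι → ℂ} (h : ∀ n, Nice X τ p r N (F n))
    (hl : ∀ x ∈ X, Tendsto (fun n => F n x) atTop (𝓝 (f x))) : Nice X τ p r N f := by
  intro ψ c hψ
  have h1 : Tendsto (fun n => ‖∑ x ∈ X, ψ x * F n x‖) atTop (𝓝 ‖∑ x ∈ X, ψ x * f x‖) := by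
    apply Tendsto.norm
    apply tendsto_finsetSum
    intro x hx
    exact (hl x hx).const_mul _
  exact le_of_tendsto' h1 fun n => h n ψ c hψ

/-- `ψ` = indicator of `x` -/
theorem Nice.norm_le (hτ : ∀ x ∈ X, |τ x| ≤ 2) (h : Nice X τ p r N f) {x : ι} (hx : x ∈ X) :
    ‖f x‖ ≤ N := by
  classical
  have key : ∀ G : ι → ℂ, ∑ y ∈ X, (if y = x then (1 : ℂ) else 0) * G y = G x := by
    intro G
    rw [Finset.sum_eq_single x]
    · rw [if_pos rfl, one_mul]
    · intro y _ hy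
      rw [if_neg hy, zero_mul]
    · intro h0
      exact absurd hx h0
  have h1 := h (fun y => if y = x then (1 : ℂ) else 0) 1 (by
    intro n u v hu hv
    rw [key (fun y => ((τ y / 2 : ℝ) : ℂ) ^ n * u (p y) * v (r y))]
    rw [norm_mul, norm_mul, norm_pow, Complex.norm_real, Real.norm_eq_abs]
    have h2 : |τ x / 2| ≤ 1 := by
      rw [abs_div, abs_two]
      have := hτ x hx
      linarith
    have h3 : |τ x / 2| ^ n ≤ 1 := pow_le_one₀ (abs_nonneg _) h2
    have h4 : |τ x / 2| ^ n * ‖u (p x)‖ ≤ 1 := mul_le_one₀ h3 (norm_nonneg _) (hu _)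
    exact mul_le_one₀ h4 (norm_nonneg _) (hv _))
  rw [key f, one_mul] at h1
  exact h1

private theorem N_pow (h : Nice X τ p r N f) (n : ℕ) :
    Nice X τ p r (N ^ n) (fun x => f x ^ n) := by
  induction n with
  | zero =>
    have h1 := Nice.const (X := X) (τ := τ) (p := p) (r := r) 1
    rw [norm_one] at h1
    rw [pow_zero]
    exact Nice.congr h1 fun x _ => (pow_zero _).symm
  | succ n ih =>
    rw [pow_succ]
    exact Nice.congr (Nice.mul ih h) fun x _ => (pow_succ _ _).symm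

private theorem N_sum (F : ℕ → ι → ℂ) (a : ℕ → ℝ) (h : ∀ k, Nice X τ p r (a k) (F k)) (n : ℕ) :
    Nice X τ p r (∑ k ∈ range n, a k) (fun x => ∑ k ∈ range n, F k x) := by
  induction n with
  | zero =>
    have h1 := Nice.const (X := X) (τ := τ) (p := p) (r := r) 0
    rw [norm_zero] at h1
    rw [Finset.sum_range_zero]
    exact Nice.congr h1 fun x _ => (Finset.sum_range_zero _).symm
  | succ n ih =>
    rw [Finset.sum_range_succ]
    exact Nice.congr (Nice.add ih (h n)) fun x _ => (Finset.sum_range_succ _ _).symm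

/-- partial sums of the exponential series, `Nice.lim` -/
theorem Nice.exp (hN : 0 ≤ N) (h : Nice X τ p r N f) :
    Nice X τ p r (Real.exp N) (fun x => Complex.exp (f x)) := by
  have h1 : ∀ k : ℕ, Nice X τ p r (N ^ k / (k.factorial : ℝ))
      (fun x => f x ^ k / (k.factorial : ℂ)) := by
    intro k
    have h2 := Nice.smul (((k.factorial : ℂ))⁻¹) (N_pow h k)
    rw [norm_inv, Complex.norm_natCast] at h2
    have h3 : N ^ k / (k.factorial : ℝ) = ((k.factorial : ℝ))⁻¹ * N ^ k := by ring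
    rw [h3]
    exact Nice.congr h2 fun x _ => by ring
  apply Nice.lim (F := fun n x => ∑ k ∈ range n, f x ^ k / (k.factorial : ℂ))
  · intro n
    refine Nice.mono (N_sum _ _ h1 n) ?_
    exact Real.sum_le_exp_of_nonneg hN n
  · intro x _
    have h4 := NormedSpace.expSeries_div_hasSum_exp (𝔸 := ℂ) (f x)
    rw [← Complex.exp_eq_exp_ℂ] at h4
    exact h4.tendsto_sum_nat

/-- the iteration for the square root -/
private noncomputable def N_S (z : ι → ℝ) : ℕ → ι → ℝ
  | 0 => fun _ => 0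
  | n + 1 => fun x => z x / 2 - N_S z n x ^ 2 / 2

/-- `s = √(1+z) - 1` is the limit of `s₀ = 0`, `s_{n+1} = z/2 - s_n²/2` (all `s_n` are Nice with
constant `N ≤ 1/2`, and `|s_{n+1} - s| ≤ |s_n - s| |s_n + s| / 2`), and `√(1+z) - 1 - z/2 = -s²/2` -/
theorem Nice.sqrt (z : ι → ℝ) (hN : 0 ≤ N) (hN1 : N ≤ 1 / 2) (hτ : ∀ x ∈ X, |τ x| ≤ 2)
    (h : Nice X τ p r N (fun x => (z x : ℂ))) :
    Nice X τ p r (N ^ 2) (fun x => ((√(1 + z x) - 1 - z x / 2 : ℝ) : ℂ)) := by
  obtain ⟨S, hS0, hS1⟩ : ∃ S : ℕ → ι → ℝ, (∀ x, S 0 x = 0) ∧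
      ∀ n x, S (n + 1) x = z x / 2 - S n x ^ 2 / 2 :=
    ⟨N_S z, fun x => rfl, fun n x => rfl⟩
  have hnice : ∀ n, Nice X τ p r N (fun x => ((S n x : ℝ) : ℂ)) := by
    intro n
    induction n with
    | zero =>
      have h1 := Nice.const (X := X) (τ := τ) (p := p) (r := r) 0
      rw [norm_zero] at h1
      refine Nice.mono (Nice.congr h1 fun x _ => ?_) hN
      rw [hS0, Complex.ofReal_zero]
    | succ n ih =>
      have h1 := Nice.add (Nice.smul (1 / 2) h) (Nice.smul (-1 / 2) (Nice.mul ih ih))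
      have e1 : ‖(1 / 2 : ℂ)‖ = 1 / 2 := by norm_num
      have e2 : ‖(-1 / 2 : ℂ)‖ = 1 / 2 := by norm_num
      rw [e1, e2] at h1
      refine Nice.mono (Nice.congr h1 fun x _ => ?_) ?_
      · rw [hS1]
        push_cast
        ring
      · nlinarith
  have hz : ∀ x ∈ X, |z x| ≤ N := by
    intro x hx
    have h1 := Nice.norm_le hτ h hx
    rwa [Complex.norm_real, Real.norm_eq_abs] at h1
  have hSn : ∀ n, ∀ x ∈ X, |S n x| ≤ N := by
    intro n x hx
    have h1 := Nice.norm_le hτ (hnice n) hx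
    rwa [Complex.norm_real, Real.norm_eq_abs] at h1
  -- the limit
  have hs : ∀ x ∈ X, (√(1 + z x) - 1) = z x / 2 - (√(1 + z x) - 1) ^ 2 / 2 := by
    intro x hx
    have h1 := hz x hx
    rw [abs_le] at h1
    have h2 := Real.sq_sqrt (show 0 ≤ 1 + z x by linarith)
    nlinarith
  have hsb : ∀ x ∈ X, |√(1 + z x) - 1| ≤ 1 / 2 := by
    intro x hx
    have h1 := hz x hx
    rw [abs_le] at h1
    rw [abs_le]
    constructor
    · have h2 : (1 / 2 : ℝ) ≤ √(1 + z x) := by
        apply Real.le_sqrt_of_sq_le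
        nlinarith
      linarith
    · have h2 : √(1 + z x) ≤ 3 / 2 := by
        rw [Real.sqrt_le_left (by norm_num)]
        nlinarith
      linarith
  have hcv : ∀ n, ∀ x ∈ X, |S n x - (√(1 + z x) - 1)| ≤ (1 / 2) ^ n := by
    intro n x hx
    induction n with
    | zero =>
      rw [hS0, zero_sub, abs_neg, pow_zero]
      exact le_trans (hsb x hx) (by norm_num)
    | succ n ih =>
      have h1 : S (n + 1) x - (√(1 + z x) - 1) =
          (S n x - (√(1 + z x) - 1)) * (-(S n x + (√(1 + z x) - 1)) / 2) := by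
        rw [hS1]
        have := hs x hx
        linear_combination -this
      rw [h1, abs_mul, pow_succ]
      apply mul_le_mul ih _ (abs_nonneg _) (by positivity)
      rw [abs_div, abs_neg, abs_two]
      have h2 := abs_add_le (S n x) (√(1 + z x) - 1)
      have h3 := hSn n x hx
      have h4 := hsb x hx
      linarith
  have hlim : Nice X τ p r N (fun x => ((√(1 + z x) - 1 : ℝ) : ℂ)) := by
    apply Nice.lim hnice
    intro x hx
    have h1 : Tendsto (fun n => S n x) atTop (𝓝 (√(1 + z x) - 1)) := by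
      rw [tendsto_iff_norm_sub_tendsto_zero]
      apply squeeze_zero (fun n => norm_nonneg _) (fun n => hcv n x hx)
      exact tendsto_pow_atTop_nhds_zero_of_lt_one (by norm_num) (by norm_num)
    exact (Complex.continuous_ofReal.tendsto _).comp h1
  have h5 := Nice.smul (-1 / 2) (Nice.mul hlim hlim)
  have e2 : ‖(-1 / 2 : ℂ)‖ = 1 / 2 := by norm_num
  rw [e2] at h5
  refine Nice.mono (Nice.congr h5 fun x hx => ?_) ?_
  · have h6 := hs x hx
    have h7 : (√(1 + z x) - 1 - z x / 2 : ℝ) = -1 / 2 * ((√(1 + z x) - 1) * (√(1 + z x) - 1)) := by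
      linear_combination h6
    rw [h7]
    push_cast
    ring
  · nlinarith [mul_nonneg hN hN]

end TS
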