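import Pool.Agent.Lib.MP_39df77_nt.TS.Nice

/-!
Row TS-F: separation of the variables in the phase `Ft` on one cell and one pair of blocks.
-/

set_option autoImplicit false

namespace TS

open Finset

/-- Nice for real functions -/
def F_NR {ι : Type} (X : Finset ι) (τ : ι → ℝ) (p r : ι → ℤ) (N : ℝ) (f : ι → ℝ) : Prop :=
  Nice X τ p r N (fun x => ((f x : ℝ) : ℂ))

section aux

variable {ι : Type} {X : Finset ι} {τ : ι → ℝ} {p r : ι → ℤ} {N N' : ℝ} {f g : ι → ℝ}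

theorem F_mono (h : F_NR X τ p r N f) (hN : N ≤ N') : F_NR X τ p r N' f := Nice.mono h hN

theorem F_congr (h : F_NR X τ p r N f) (hfg : ∀ x ∈ X, f x = g x) : F_NR X τ p r N g :=
  Nice.congr h (fun x hx => by rw [hfg x hx])

theorem F_add (hf : F_NR X τ p r N f) (hg : F_NR X τ p r N' g) :
    F_NR X τ p r (N + N') (fun x => f x + g x) :=
  Nice.congr (Nice.add hf hg) (fun x _ => by push_cast; ring)

theorem F_mul (hf : F_NR X τ p r N f) (hg : F_NR X τ p r N' g) :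
    F_NR X τ p r (N * N') (fun x => f x * g x) :=
  Nice.congr (Nice.mul hf hg) (fun x _ => by push_cast; ring)

theorem F_smul (a : ℝ) (hf : F_NR X τ p r N f) : F_NR X τ p r (|a| * N) (fun x => a * f x) := by
  have h := Nice.smul (a : ℂ) hf
  rw [Complex.norm_real, Real.norm_eq_abs] at h
  exact Nice.congr h (fun x _ => by push_cast; ring)

theorem F_sub (hf : F_NR X τ p r N f) (hg : F_NR X τ p r N' g) :
    F_NR X τ p r (N + N') (fun x => f x - g x) := by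
  have h := F_add hf (F_smul (-1) hg)
  have h2 : N + |(-1 : ℝ)| * N' = N + N' := by rw [abs_neg, abs_one, one_mul]
  rw [h2] at h
  exact F_congr h (fun x _ => by ring)

theorem F_const (a : ℝ) : F_NR X τ p r |a| (fun _ => a) := by
  have h := Nice.const (X := X) (τ := τ) (p := p) (r := r) (a : ℂ)
  rw [Complex.norm_real, Real.norm_eq_abs] at h
  exact h

theorem F_tau : F_NR X τ p r 2 τ := Nice.tau

theorem F_left (u : ℤ → ℝ) (hN : 0 ≤ N) (h : ∀ x ∈ X, |u (p x)| ≤ N) :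
    F_NR X τ p r N (fun x => u (p x)) :=
  Nice.left (fun k => ((u k : ℝ) : ℂ)) hN (fun x hx => by
    rw [Complex.norm_real, Real.norm_eq_abs]; exact h x hx)

theorem F_right (u : ℤ → ℝ) (hN : 0 ≤ N) (h : ∀ x ∈ X, |u (r x)| ≤ N) :
    F_NR X τ p r N (fun x => u (r x)) :=
  Nice.right (fun k => ((u k : ℝ) : ℂ)) hN (fun x hx => by
    rw [Complex.norm_real, Real.norm_eq_abs]; exact h x hx)

theorem F_sqrt (z : ι → ℝ) (hN : 0 ≤ N) (hN1 : N ≤ 1 / 2) (hτ : ∀ x ∈ X, |τ x| ≤ 2)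
    (h : F_NR X τ p r N z) : F_NR X τ p r (N ^ 2) (fun x => √(1 + z x) - 1 - z x / 2) :=
  Nice.sqrt z hN hN1 hτ h

/-- the sum of two one-variable functions and their product -/
theorem F_pair {ρ : ℝ} (u v : ℤ → ℝ) (h0 : 0 ≤ ρ) (h1 : ρ ≤ 1) (hu : ∀ x ∈ X, |u (p x)| ≤ ρ)
    (hv : ∀ x ∈ X, |v (r x)| ≤ ρ) :
    F_NR X τ p r (3 * ρ) (fun x => u (p x) + v (r x) + u (p x) * v (r x)) := by
  have hl := F_left (X := X) (τ := τ) (r := r) u h0 hu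
  have hr := F_right (X := X) (τ := τ) (p := p) v h0 hv
  exact F_mono (F_add (F_add hl hr) (F_mul hl hr)) (by nlinarith)

/-- the remainder is Nice -/
theorem F_core {a2 a3 m2 m3 n2 n3 : ℤ → ℝ} {ρ P D0 D1 D2 b2 b3 E s0 s1 c1 c2 Mi : ℝ} (h0 : 0 ≤ ρ) (h1 : ρ ≤ 1)
    (hτ : ∀ x ∈ X, |τ x| ≤ 1)
    (ha2 : ∀ x ∈ X, |a2 (p x)| ≤ ρ) (ha3 : ∀ x ∈ X, |a3 (r x)| ≤ ρ)
    (hm2 : ∀ x ∈ X, |m2 (p x)| ≤ ρ) (hm3 : ∀ x ∈ X, |m3 (r x)| ≤ ρ)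
    (hn2 : ∀ x ∈ X, |n2 (p x)| ≤ ρ) (hn3 : ∀ x ∈ X, |n3 (r x)| ≤ ρ)
    (hb : |b2| + |b3| ≤ E) {y : ℝ} (hy1 : 2 * |c1| ≤ y) (hy2 : |c2| * (2 * |Mi| + 3 * ρ * E) ≤ y)
    (hy : y ≤ 1 / 2) :
    F_NR X τ p r (|P| * |D0| * ρ ^ 2 + |P| * |D1| * (6 * ρ * |Mi|) + |P| * |D2| * (10 * ρ ^ 2 * E) +
      |P| * (4 * ((|s0| + |s1|) * y ^ 2)))
      (fun x =>
        P * D0 * (a2 (p x) * a3 (r x)) + P * D1 * ((a2 (p x) + a3 (r x) + a2 (p x) * a3 (r x)) * (Mi * τ x)) -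
        P * D2 * ((a2 (p x) + a3 (r x) + a2 (p x) * a3 (r x)) *
          (-b2 * (m2 (p x) + m3 (r x) + m2 (p x) * m3 (r x)) - b3 * (n2 (p x) + n3 (r x) + n2 (p x) * n3 (r x))) +
          (-b2 * (m2 (p x) * m3 (r x)) - b3 * (n2 (p x) * n3 (r x)))) +
        P * ((1 + (a2 (p x) + a3 (r x) + a2 (p x) * a3 (r x))) *
          (s0 * (√(1 + c1 * τ x) - 1 - c1 * τ x / 2) -
           s1 * (√(1 + c2 * (Mi * τ x + (-b2 * (m2 (p x) + m3 (r x) + m2 (p x) * m3 (r x)) -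
            b3 * (n2 (p x) + n3 (r x) + n2 (p x) * n3 (r x))))) - 1 -
            c2 * (Mi * τ x + (-b2 * (m2 (p x) + m3 (r x) + m2 (p x) * m3 (r x)) -
            b3 * (n2 (p x) + n3 (r x) + n2 (p x) * n3 (r x)))) / 2)))) := by
  have hE : 0 ≤ E := le_trans (by positivity) hb
  have hA : F_NR X τ p r (3 * ρ) (fun x => a2 (p x) + a3 (r x) + a2 (p x) * a3 (r x)) :=
    F_pair a2 a3 h0 h1 ha2 ha3
  have hM : F_NR X τ p r (3 * ρ) (fun x => m2 (p x) + m3 (r x) + m2 (p x) * m3 (r x)) :=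
    F_pair m2 m3 h0 h1 hm2 hm3
  have hNN : F_NR X τ p r (3 * ρ) (fun x => n2 (p x) + n3 (r x) + n2 (p x) * n3 (r x)) :=
    F_pair n2 n3 h0 h1 hn2 hn3
  have hdx : F_NR X τ p r (3 * ρ * E) (fun x => -b2 * (m2 (p x) + m3 (r x) + m2 (p x) * m3 (r x)) -
      b3 * (n2 (p x) + n3 (r x) + n2 (p x) * n3 (r x))) := by
    refine F_mono (F_sub (F_smul (-b2) hM) (F_smul b3 hNN)) ?_
    rw [abs_neg]
    nlinarith
  have hdd : F_NR X τ p r (ρ ^ 2 * E) (fun x => -b2 * (m2 (p x) * m3 (r x)) - b3 * (n2 (p x) * n3 (r x))) := by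
    refine F_mono (F_sub (F_smul (-b2) (F_mul (F_left m2 h0 hm2) (F_right m3 h0 hm3)))
      (F_smul b3 (F_mul (F_left n2 h0 hn2) (F_right n3 h0 hn3)))) ?_
    rw [abs_neg]
    nlinarith [mul_nonneg h0 h0]
  have hτ2 : ∀ x ∈ X, |τ x| ≤ 2 := fun x hx => (hτ x hx).trans (by norm_num)
  have hy0 : 0 ≤ y := le_trans (by positivity) hy1
  have hz1 : F_NR X τ p r y (fun x => c1 * τ x) := F_mono (F_smul c1 F_tau) (by linarith)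
  have hz2 : F_NR X τ p r y (fun x => c2 * (Mi * τ x + (-b2 * (m2 (p x) + m3 (r x) + m2 (p x) * m3 (r x)) -
      b3 * (n2 (p x) + n3 (r x) + n2 (p x) * n3 (r x))))) := by
    refine F_mono (F_smul c2 (F_add (F_smul Mi F_tau) hdx)) ?_
    rw [show |Mi| * 2 = 2 * |Mi| by ring]
    exact hy2
  have hr1 := F_sqrt _ hy0 hy hτ2 hz1
  have hr2 := F_sqrt _ hy0 hy hτ2 hz2
  have hT1 := F_smul (P * D0) (F_mul (F_left (X := X) (τ := τ) (r := r) a2 h0 ha2)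
    (F_right (X := X) (τ := τ) (p := p) a3 h0 ha3))
  have hT2 := F_smul (P * D1) (F_mul hA (F_smul Mi (F_tau (X := X) (τ := τ) (p := p) (r := r))))
  have hT3 := F_smul (P * D2) (F_add (F_mul hA hdx) hdd)
  have hT4 := F_smul P (F_mul (F_add (F_const (X := X) (τ := τ) (p := p) (r := r) 1) hA)
    (F_sub (F_smul s0 hr1) (F_smul s1 hr2)))
  refine F_mono (F_add (F_sub (F_add hT1 hT2) hT3) hT4) ?_
  rw [abs_mul, abs_mul, abs_mul, abs_one]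
  have e1 : |P| * |D0| * (ρ * ρ) = |P| * |D0| * ρ ^ 2 := by ring
  have e2 : |P| * |D1| * (3 * ρ * (|Mi| * 2)) = |P| * |D1| * (6 * ρ * |Mi|) := by ring
  have e3 : |P| * |D2| * (3 * ρ * (3 * ρ * E) + ρ ^ 2 * E) = |P| * |D2| * (10 * ρ ^ 2 * E) := by ring
  have e4 : |P| * ((1 + 3 * ρ) * (|s0| * y ^ 2 + |s1| * y ^ 2)) ≤ |P| * (4 * ((|s0| + |s1|) * y ^ 2)) := by
    apply mul_le_mul_of_nonneg_left _ (abs_nonneg P)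
    rw [← add_mul]
    apply mul_le_mul_of_nonneg_right _ (by positivity)
    linarith
  rw [e1, e2, e3]
  linarith

end aux

/-- algebra of the expansion -/
theorem F_alg (P s0 s1 i0 i1 Mi t a2 a3 m2 m3 n2 n3 b2 b3 c1 c2 S1 S2 : ℝ) (h1 : s0 * c1 = Mi * i0)
    (h2 : s1 * c2 = i1) :
    P * ((1 + a2) * (1 + a3)) * (s0 * S1 - s1 * S2) -
      (P * (s0 - s1) * (1 + a2) - P * (i1 / 2) * (-b2 * m2 - b3 * n2)) -
      (P * (s0 - s1) * a3 - P * (i1 / 2) * (-b2 * m3 - b3 * n3)) - P / 2 * (i0 - i1) * Mi * t =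
    P * (s0 - s1) * (a2 * a3) + P * ((i0 - i1) / 2) * ((a2 + a3 + a2 * a3) * (Mi * t)) -
      P * (i1 / 2) * ((a2 + a3 + a2 * a3) *
        (-b2 * (m2 + m3 + m2 * m3) - b3 * (n2 + n3 + n2 * n3)) +
        (-b2 * (m2 * m3) - b3 * (n2 * n3))) +
      P * ((1 + (a2 + a3 + a2 * a3)) *
        (s0 * (S1 - 1 - c1 * t / 2) -
         s1 * (S2 - 1 - c2 * (Mi * t + (-b2 * (m2 + m3 + m2 * m3) - b3 * (n2 + n3 + n2 * n3))) / 2))) := by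
  linear_combination (P * (1 + a2) * (1 + a3) * t / 2) * h1 -
    (P * (1 + a2) * (1 + a3) * (Mi * t + (-b2 * (m2 + m3 + m2 * m3) - b3 * (n2 + n3 + n2 * n3))) / 2) * h2

/-- displacement of `xt` -/
theorem F_xt (e2 e3 u₀ v₀ u v : ℝ) (hu0 : 0 < u₀) (hv0 : 0 < v₀) (hu : 0 < u) (hv : 0 < v) :
    xt e2 e3 u v = xt e2 e3 u₀ v₀ +
      (-(e2 * (√v₀ / √u₀)) * ((√u₀ / √u - 1) + (√v / √v₀ - 1) + (√u₀ / √u - 1) * (√v / √v₀ - 1)) -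
      (e3 * (√u₀ / √v₀)) * ((√u / √u₀ - 1) + (√v₀ / √v - 1) + (√u / √u₀ - 1) * (√v₀ / √v - 1))) := by
  have h1 := Real.sqrt_pos.2 hu0
  have h2 := Real.sqrt_pos.2 hv0
  have h3 := Real.sqrt_pos.2 hu
  have h4 := Real.sqrt_pos.2 hv
  unfold xt
  field_simp
  ring

/-- the fourth root factorises -/
theorem F_root (u₀ v₀ u v : ℝ) (hu0 : 0 < u₀) (hv0 : 0 < v₀) (hu : 0 < u) (hv : 0 < v) :
    √(√(u * v)) = √(√(u₀ * v₀)) * ((1 + (√(√(u / u₀)) - 1)) * (1 + (√(√(v / v₀)) - 1))) := by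
  have e1 : u * v = (u₀ * v₀) * ((u / u₀) * (v / v₀)) := by field_simp
  have e2 : √(u * v) = √(u₀ * v₀) * (√(u / u₀) * √(v / v₀)) := by
    rw [e1, Real.sqrt_mul (mul_pos hu0 hv0).le, Real.sqrt_mul (div_pos hu hu0).le]
  rw [e2, Real.sqrt_mul (Real.sqrt_nonneg _), Real.sqrt_mul (Real.sqrt_nonneg _)]
  ring

theorem F_help {a b : ℝ} (d t M : ℝ) (h : a + b ≠ 0) :
    a + t / M + (b + d) = (a + b) * (1 + 1 / (a + b) * (1 / M * t + d)) := by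
  have : (a + b) * (1 / (a + b) * (1 / M * t + d)) = 1 / M * t + d := by
    rw [← mul_assoc, mul_one_div_cancel h, one_mul]
  rw [mul_add, mul_one, this]
  ring

theorem F_sqrt_mul {a z : ℝ} (ha : 0 < a) (w : ℝ) (h : w = a * (1 + z)) : √w = √a * √(1 + z) := by
  rw [h, Real.sqrt_mul ha.le]

/-- the remainder of the phase, exact -/
theorem F_ident (e2 e3 θ₀ u₀ v₀ M t u v : ℝ) (hM : 0 < M) (hθ : 0 < θ₀) (hP : 0 < θ₀ + xt e2 e3 u₀ v₀)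
    (hu0 : 0 < u₀) (hv0 : 0 < v₀) (hu : 0 < u) (hv : 0 < v) :
    Ft e2 e3 (θ₀ + t / M) u v -
      (√(√(u₀ * v₀)) * (√θ₀ - √(θ₀ + xt e2 e3 u₀ v₀)) * (1 + (√(√(u / u₀)) - 1)) -
        √(√(u₀ * v₀)) * (1 / √(θ₀ + xt e2 e3 u₀ v₀) / 2) *
          (-(e2 * (√v₀ / √u₀)) * (√u₀ / √u - 1) - (e3 * (√u₀ / √v₀)) * (√u / √u₀ - 1))) -
      (√(√(u₀ * v₀)) * (√θ₀ - √(θ₀ + xt e2 e3 u₀ v₀)) * (√(√(v / v₀)) - 1) -
        √(√(u₀ * v₀)) * (1 / √(θ₀ + xt e2 e3 u₀ v₀) / 2) *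
          (-(e2 * (√v₀ / √u₀)) * (√v / √v₀ - 1) - (e3 * (√u₀ / √v₀)) * (√v₀ / √v - 1))) -
      Fp (√(√(u₀ * v₀))) (xt e2 e3 u₀ v₀) θ₀ / M * t =
    √(√(u₀ * v₀)) * (√θ₀ - √(θ₀ + xt e2 e3 u₀ v₀)) * ((√(√(u / u₀)) - 1) * (√(√(v / v₀)) - 1)) +
      √(√(u₀ * v₀)) * ((1 / √θ₀ - 1 / √(θ₀ + xt e2 e3 u₀ v₀)) / 2) *
        (((√(√(u / u₀)) - 1) + (√(√(v / v₀)) - 1) + (√(√(u / u₀)) - 1) * (√(√(v / v₀)) - 1)) * (1 / M * t)) -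
      √(√(u₀ * v₀)) * (1 / √(θ₀ + xt e2 e3 u₀ v₀) / 2) *
        (((√(√(u / u₀)) - 1) + (√(√(v / v₀)) - 1) + (√(√(u / u₀)) - 1) * (√(√(v / v₀)) - 1)) *
        (-(e2 * (√v₀ / √u₀)) * ((√u₀ / √u - 1) + (√v / √v₀ - 1) + (√u₀ / √u - 1) * (√v / √v₀ - 1)) -
          (e3 * (√u₀ / √v₀)) * ((√u / √u₀ - 1) + (√v₀ / √v - 1) + (√u / √u₀ - 1) * (√v₀ / √v - 1))) +
        (-(e2 * (√v₀ / √u₀)) * ((√u₀ / √u - 1) * (√v / √v₀ - 1)) -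
          (e3 * (√u₀ / √v₀)) * ((√u / √u₀ - 1) * (√v₀ / √v - 1)))) +
      √(√(u₀ * v₀)) * ((1 + ((√(√(u / u₀)) - 1) + (√(√(v / v₀)) - 1) +
          (√(√(u / u₀)) - 1) * (√(√(v / v₀)) - 1))) *
        (√θ₀ * (√(1 + 1 / (M * θ₀) * t) - 1 - 1 / (M * θ₀) * t / 2) -
         √(θ₀ + xt e2 e3 u₀ v₀) * (√(1 + 1 / (θ₀ + xt e2 e3 u₀ v₀) * (1 / M * t +
          (-(e2 * (√v₀ / √u₀)) * ((√u₀ / √u - 1) + (√v / √v₀ - 1) + (√u₀ / √u - 1) * (√v / √v₀ - 1)) -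
          (e3 * (√u₀ / √v₀)) * ((√u / √u₀ - 1) + (√v₀ / √v - 1) + (√u / √u₀ - 1) * (√v₀ / √v - 1))))) - 1 -
          1 / (θ₀ + xt e2 e3 u₀ v₀) * (1 / M * t +
          (-(e2 * (√v₀ / √u₀)) * ((√u₀ / √u - 1) + (√v / √v₀ - 1) + (√u₀ / √u - 1) * (√v / √v₀ - 1)) -
          (e3 * (√u₀ / √v₀)) * ((√u / √u₀ - 1) + (√v₀ / √v - 1) + (√u / √u₀ - 1) * (√v₀ / √v - 1)))) / 2))) := by
  have hs0 := Real.sqrt_pos.2 hθ
  have hs1 := Real.sqrt_pos.2 hP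
  rw [← F_alg (√(√(u₀ * v₀))) (√θ₀) (√(θ₀ + xt e2 e3 u₀ v₀)) (1 / √θ₀) (1 / √(θ₀ + xt e2 e3 u₀ v₀)) (1 / M) t
    (√(√(u / u₀)) - 1) (√(√(v / v₀)) - 1) (√u₀ / √u - 1) (√v / √v₀ - 1) (√u / √u₀ - 1) (√v₀ / √v - 1)
    (e2 * (√v₀ / √u₀)) (e3 * (√u₀ / √v₀)) (1 / (M * θ₀)) (1 / (θ₀ + xt e2 e3 u₀ v₀))]
  · unfold Ft Fp
    rw [F_root u₀ v₀ u v hu0 hv0 hu hv]
    rw [F_sqrt_mul hθ (θ₀ + t / M) (z := 1 / (M * θ₀) * t) (by field_simp),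
      F_sqrt_mul hP (θ₀ + t / M + xt e2 e3 u v) (z := 1 / (θ₀ + xt e2 e3 u₀ v₀) * (1 / M * t +
          (-(e2 * (√v₀ / √u₀)) * ((√u₀ / √u - 1) + (√v / √v₀ - 1) + (√u₀ / √u - 1) * (√v / √v₀ - 1)) -
          (e3 * (√u₀ / √v₀)) * ((√u / √u₀ - 1) + (√v₀ / √v - 1) + (√u / √u₀ - 1) * (√v₀ / √v - 1))))) ?_]
    · ring
    · rw [F_xt e2 e3 u₀ v₀ u v hu0 hv0 hu hv]
      exact F_help _ t M hP.ne'
  · have := Real.mul_self_sqrt hθ.le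
    field_simp
    nlinarith
  · have := Real.mul_self_sqrt hP.le
    field_simp
    nlinarith

/-- numerical consequences of `Par` -/
theorem F_par {K R : ℝ} {L M B : ℕ} (h : Par K R L M B) :
    (10 : ℝ) ^ 48 ≤ K ∧ (1 : ℝ) ≤ L ∧ (0 : ℝ) < M ∧
    √K * √(L : ℝ) * (1 / ((M : ℝ) * L)) ^ 2 ≤ 1 ∧
    √K * √(L : ℝ) * (√R * (2 * B / K)) ^ 2 ≤ 4 / 10 ^ 6 ∧
    4 * (1 / ((M : ℝ) * L)) + 480 * (√R * (2 * B / K)) ≤ 1 / 2 ∧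
    2 * (B : ℝ) / K ≤ √R * (2 * B / K) ∧ 0 ≤ 2 * (B : ℝ) / K ∧ 2 * (B : ℝ) / K ≤ 1 := by
  have hR := h.hR
  have hL : (1 : ℝ) ≤ L := by exact_mod_cast h.hL
  have hK : (10 : ℝ) ^ 48 ≤ K := by
    have h1 : (1 : ℝ) ≤ ((L : ℝ) * R) ^ 11 := one_le_pow₀ (by nlinarith)
    have h2 := h.big
    linarith [mul_le_mul_of_nonneg_left h1 (by positivity : (0 : ℝ) ≤ 10 ^ 48)]
  have hK0 : (0 : ℝ) < K := lt_of_lt_of_le (by positivity) hK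
  have hsK : (10 : ℝ) ^ 24 ≤ √K := by
    apply Real.le_sqrt_of_sq_le
    rw [← pow_mul]
    exact hK
  have hsL : 1 ≤ √(L : ℝ) := Real.one_le_sqrt.2 hL
  have hsR : 1 ≤ √R := Real.one_le_sqrt.2 hR
  have hM : (0 : ℝ) < M := by
    rcases Nat.eq_zero_or_pos M with h0 | h0
    · have := h.M1
      rw [h0] at this
      norm_num at this
      linarith
    · exact_mod_cast h0
  have hLL := Real.mul_self_sqrt (by linarith : (0 : ℝ) ≤ L)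
  have hKK := Real.mul_self_sqrt hK0.le
  have hRR := Real.mul_self_sqrt (by linarith : (0 : ℝ) ≤ R)
  have hB0 : (0 : ℝ) ≤ B := Nat.cast_nonneg B
  have ha : √K * √(L : ℝ) * (1 / ((M : ℝ) * L)) ^ 2 ≤ 1 := by
    rw [div_pow, one_pow, mul_one_div, div_le_one (by positivity)]
    have := mul_le_mul_of_nonneg_right h.M1 (Real.sqrt_nonneg (L : ℝ))
    calc √K * √(L : ℝ) ≤ (L : ℝ) * √(L : ℝ) * (M : ℝ) ^ 2 * √(L : ℝ) := this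
      _ = (L : ℝ) * (M : ℝ) ^ 2 * (√(L : ℝ) * √(L : ℝ)) := by ring
      _ = ((M : ℝ) * L) ^ 2 := by rw [hLL]; ring
  have hb : √K * √(L : ℝ) * (√R * (2 * B / K)) ^ 2 ≤ 4 / 10 ^ 6 := by
    have h1 : √K * √(L : ℝ) * (√R * (2 * B / K)) ^ 2 =
        4 * √K * ((B : ℝ) ^ 2 * √(L : ℝ) * (√R * √R)) / (√K * √K) ^ 2 := by
      rw [hKK]; ring
    rw [h1, hRR]
    rw [div_le_div_iff₀ (by positivity) (by positivity)]
    have h2 := h.B1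
    have h3 : (√K * √K) ^ 2 = √K * (K * √K) := by
      calc (√K * √K) ^ 2 = √K * ((√K * √K) * √K) := by ring
        _ = _ := by rw [hKK]
    rw [h3]
    have h4 := mul_le_mul_of_nonneg_left h2 (Real.sqrt_nonneg K)
    linarith
  have hQ : (10 : ℝ) ^ 24 ≤ √K * √(L : ℝ) := by nlinarith
  have hρ0 : 0 ≤ 2 * (B : ℝ) / K := by positivity
  have hy : 1 / ((M : ℝ) * L) ≤ 1 / 10 ^ 12 := by
    by_contra hc
    push Not at hc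
    have h1 : (1 / 10 ^ 12 : ℝ) ^ 2 < (1 / ((M : ℝ) * L)) ^ 2 := pow_lt_pow_left₀ hc (by positivity) two_ne_zero
    have h2 : (10 : ℝ) ^ 24 * (1 / 10 ^ 12 : ℝ) ^ 2 < √K * √(L : ℝ) * (1 / ((M : ℝ) * L)) ^ 2 := by
      apply mul_lt_mul' hQ h1 (by positivity) (by positivity)
    norm_num at h2
    norm_num at ha
    linarith
  have hw : √R * (2 * B / K) ≤ 1 / 10 ^ 12 := by
    by_contra hc
    push Not at hc
    have h1 : (1 / 10 ^ 12 : ℝ) ^ 2 < (√R * (2 * B / K)) ^ 2 := pow_lt_pow_left₀ hc (by positivity) two_ne_zero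
    have h2 : (10 : ℝ) ^ 24 * (1 / 10 ^ 12 : ℝ) ^ 2 < √K * √(L : ℝ) * (√R * (2 * B / K)) ^ 2 := by
      apply mul_lt_mul' hQ h1 (by positivity) (by positivity)
    norm_num at h2
    norm_num at hb
    linarith
  have hd : 2 * (B : ℝ) / K ≤ √R * (2 * B / K) := by nlinarith
  refine ⟨hK, hL, hM, ha, hb, ?_, hd, hρ0, ?_⟩
  · norm_num at hy hw ⊢
    linarith
  · norm_num at hw
    linarith

/-- the numerical bound for the remainder -/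
theorem F_num {a b g ρ m L P D0 D1 D2 s0 s1 : ℝ} (ha : 0 ≤ a) (hb : 0 < b) (hL : b * b = L)
    (hg : 1 ≤ g) (hρ : 0 ≤ ρ) (hm : 0 ≤ m)
    (hP0 : 0 ≤ P) (hP : P ≤ 3 * a) (hD0 : |D0| ≤ 4 * b) (hD1 : |D1| ≤ 1 / b) (hD2 : |D2| ≤ 1 / b)
    (hs0 : |s0| ≤ 4 * b) (hs1 : |s1| ≤ 4 * b) (h1 : a * b * (m / L) ^ 2 ≤ 1)
    (h2 : a * b * (g * ρ) ^ 2 ≤ 4 / 10 ^ 6) :
    |P| * |D0| * ρ ^ 2 + |P| * |D1| * (6 * ρ * |m|) + |P| * |D2| * (10 * ρ ^ 2 * (80 * L * g)) +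
      |P| * (4 * ((|s0| + |s1|) * (4 * (m / L) + 480 * (g * ρ)) ^ 2)) ≤ 4000 := by
  have hL0 : 0 < L := by rw [← hL]; positivity
  rw [abs_of_nonneg hP0, abs_of_nonneg hm]
  set n := m / L with hn
  set w := g * ρ with hw
  have hn0 : 0 ≤ n := by rw [hn]; positivity
  have hw0 : 0 ≤ w := by rw [hw]; positivity
  have hρw : ρ ≤ w := by rw [hw]; nlinarith
  have hρw2 : ρ ^ 2 ≤ w ^ 2 := pow_le_pow_left₀ hρ hρw 2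
  have hab : 0 ≤ a * b := by positivity
  have q1 : a * b * ρ ^ 2 ≤ 4 / 10 ^ 6 := le_trans (mul_le_mul_of_nonneg_left hρw2 hab) h2
  have t1 : P * |D0| * ρ ^ 2 ≤ 1 := by
    calc P * |D0| * ρ ^ 2 ≤ (3 * a) * (4 * b) * ρ ^ 2 := by gcongr
      _ = 12 * (a * b * ρ ^ 2) := by ring
      _ ≤ 1 := by norm_num at q1 ⊢; linarith
  have hmn : m = n * (b * b) := by rw [hn, hL]; field_simp
  have t2 : P * |D1| * (6 * ρ * m) ≤ 18 := by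
    calc P * |D1| * (6 * ρ * m) ≤ (3 * a) * (1 / b) * (6 * ρ * m) := by gcongr
      _ = 18 * (a * b * (ρ * n)) := by rw [hmn]; field_simp; ring
      _ ≤ 18 * (a * b * ((ρ ^ 2 + n ^ 2) / 2)) := by
          gcongr
          nlinarith [sq_nonneg (ρ - n)]
      _ = 9 * (a * b * ρ ^ 2) + 9 * (a * b * n ^ 2) := by ring
      _ ≤ 18 := by norm_num at q1 ⊢; linarith
  have t3 : P * |D2| * (10 * ρ ^ 2 * (80 * L * g)) ≤ 1 := by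
    calc P * |D2| * (10 * ρ ^ 2 * (80 * L * g)) ≤ (3 * a) * (1 / b) * (10 * ρ ^ 2 * (80 * L * g)) := by
          gcongr
      _ = 2400 * (a * b * (ρ ^ 2 * g)) := by rw [← hL]; field_simp; ring
      _ ≤ 2400 * (a * b * w ^ 2) := by
          gcongr
          rw [hw]
          nlinarith [mul_nonneg (sq_nonneg ρ) (by linarith : (0 : ℝ) ≤ g), sq_nonneg ρ, mul_nonneg (mul_nonneg (sq_nonneg ρ) (by linarith : (0 : ℝ) ≤ g)) (by linarith : (0 : ℝ) ≤ g - 1)]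
      _ ≤ 1 := by norm_num at h2 ⊢; linarith
  have t4 : P * (4 * ((|s0| + |s1|) * (4 * n + 480 * w) ^ 2)) ≤ 3300 := by
    calc P * (4 * ((|s0| + |s1|) * (4 * n + 480 * w) ^ 2)) ≤
        (3 * a) * (4 * ((4 * b + 4 * b) * (4 * n + 480 * w) ^ 2)) := by gcongr
      _ = 96 * (a * b * (4 * n + 480 * w) ^ 2) := by ring
      _ ≤ 96 * (a * b * (32 * n ^ 2 + 460800 * w ^ 2)) := by
          gcongr
          nlinarith [sq_nonneg (4 * n - 480 * w)]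
      _ = 3072 * (a * b * n ^ 2) + 96 * 460800 * (a * b * w ^ 2) := by ring
      _ ≤ 3300 := by norm_num at h1 h2 ⊢; linarith
  linarith

/-- the one-variable factors are close to `1` -/
theorem F_b1 {t₀ t ρ : ℝ} (h0 : 0 < t₀) (h1 : t₀ ≤ t) (h2 : t ≤ t₀ * (1 + ρ)) :
    |√(√(t / t₀)) - 1| ≤ ρ ∧ |√t / √t₀ - 1| ≤ ρ ∧ |√t₀ / √t - 1| ≤ ρ := by
  have ht : 0 < t := by linarith
  have q1 : 1 ≤ t / t₀ := (one_le_div h0).2 h1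
  have q2 : t / t₀ ≤ 1 + ρ := (div_le_iff₀ h0).2 (by linarith)
  have r1 : 1 ≤ √(t / t₀) := Real.one_le_sqrt.2 q1
  have r2 : √(t / t₀) ≤ t / t₀ := by
    rw [Real.sqrt_le_left (by linarith)]
    nlinarith
  have s1 : 1 ≤ √(√(t / t₀)) := Real.one_le_sqrt.2 r1
  have s2 : √(√(t / t₀)) ≤ √(t / t₀) := by
    rw [Real.sqrt_le_left (by linarith)]
    nlinarith
  refine ⟨?_, ?_, ?_⟩
  · rw [abs_of_nonneg (by linarith)]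
    linarith
  · rw [← Real.sqrt_div ht.le, abs_of_nonneg (by linarith)]
    linarith
  · have e1 : √t₀ / √t = 1 / √(t / t₀) := by
      rw [Real.sqrt_div ht.le, one_div_div]
    have e2 : 1 / √(t / t₀) ≤ 1 := by
      rw [div_le_one (by linarith)]
      exact r1
    have e3 : 1 - 1 / √(t / t₀) ≤ √(t / t₀) - 1 := by
      have h3 : 0 < √(t / t₀) := by linarith
      have h4 : 1 - 1 / √(t / t₀) = (√(t / t₀) - 1) / √(t / t₀) := by field_simp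
      rw [h4, div_le_iff₀ h3]
      nlinarith
    rw [e1, abs_of_nonpos (by linarith)]
    linarith

/-- Put `ρ = 2B/K` (`√R ρ ≤ K^{-1/4}`, tiny). Write `√(k₂) = √u₀ √(1 + z₂(k₂))`, `0 ≤ z₂ ≤ ρ`, etc. Then
`(k₂k₃)^{1/4} = P₀ (1 + A)`, `A = α₂(k₂) + α₃(k₃) + α₂α₃`, `|α| ≤ ρ`;
`xt(k₂,k₃) = xt(u₀,v₀) + dx`, `dx = -e₂ s₀ (μ₃ + μ₂ + μ₂μ₃) - e₃/s₀ (μ₃' + μ₂' + μ₂'μ₃')`, `s₀ = √(v₀/u₀)`,
`μ` functions of one variable with `|μ| ≤ 2ρ` (`xt e2 e3 u v = e2 + e3 - e2 √v/√u - e3 √u/√v`);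
`√θ = √θ₀ √(1 + τ/(Mθ₀))`, `√(θ + xt) = √(θ₀ + x_P) √(1 + z)`, `z = (τ/M + dx)/(θ₀ + x_P)`,
Nice norm of `z` at most `C (1/(ML) + √R ρ) ≤ 1/2`. Expand both roots with `Nice.sqrt`:
`Ft = P₀ (1+A) (√θ₀ - √(θ₀+x_P)) + P₀ (1+A)(√θ₀ τ/(2Mθ₀) - √(θ₀+x_P) z/2) + P₀ (1+A)(√θ₀ r₁ - √(θ₀+x_P) r₂)`.
Collect: functions of `k₂` alone in `f2`, of `k₃` alone in `f3`, `τ`-term `Fp/M τ`; the rest has Nice norm
`≤ C (√(KL)/(ML)² + √(KL) R ρ² + √(KL) ρ/(ML))`, which is `O(1)` by `Par`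
(`√(KL)/(ML)² ≤ 1` is `M1`; `√(KL) R ρ² ≤ 1` is `B1`; the third is at most their geometric mean). -/
theorem phase_real : ∃ C₀ : ℝ, 1 ≤ C₀ ∧ ∀ (K R : ℝ) (L M B : ℕ), Par K R L M B →
    ∀ (e2 e3 θ₀ u₀ v₀ : ℝ), |e2| ≤ 10 * L * √R → |e3| ≤ 10 * L * √R →
    (L : ℝ) / 2 ≤ θ₀ → θ₀ ≤ 5 * L → (L : ℝ) / 2 ≤ θ₀ + xt e2 e3 u₀ v₀ → θ₀ + xt e2 e3 u₀ v₀ ≤ 10 * L →
    K / 2 ≤ u₀ → u₀ ≤ 3 * K → u₀ < v₀ → v₀ ≤ 20 * K →
    ∀ {ι : Type} (X : Finset ι) (τ : ι → ℝ) (p r : ι → ℤ),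
    (∀ x ∈ X, |τ x| ≤ 1 ∧ u₀ ≤ p x ∧ (p x : ℝ) ≤ u₀ + B ∧ v₀ ≤ r x ∧ (r x : ℝ) ≤ v₀ + B) →
    ∃ f2 f3 : ℤ → ℝ, Nice X τ p r C₀ (fun x => ((Ft e2 e3 (θ₀ + τ x / M) (p x) (r x) - f2 (p x) -
      f3 (r x) - Fp (√(√(u₀ * v₀))) (xt e2 e3 u₀ v₀) θ₀ / M * τ x : ℝ) : ℂ)) := by
  refine ⟨4000, by norm_num, ?_⟩
  intro K R L M B hPar e2 e3 θ₀ u₀ v₀ he2 he3 hθ1 hθ2 hP1 hP2 hu1 hu2 huv hv2 ι X τ p r hX
  obtain ⟨hK, hL, hM, ha, hb, hc, hd, hρ0, hρ1⟩ := F_par hPar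
  have hK0 : (0 : ℝ) < K := lt_of_lt_of_le (by positivity) hK
  have hu0 : 0 < u₀ := by linarith
  have hv0 : 0 < v₀ := by linarith
  have hB0 : (0 : ℝ) ≤ B := Nat.cast_nonneg B
  have hθ : 0 < θ₀ := by linarith
  have hP : 0 < θ₀ + xt e2 e3 u₀ v₀ := by linarith
  have hR := hPar.hR
  have hsR : 1 ≤ √R := Real.one_le_sqrt.2 hR
  have hsL0 : 0 < √(L : ℝ) := Real.sqrt_pos.2 (by linarith)
  have hLL := Real.mul_self_sqrt (by linarith : (0 : ℝ) ≤ L)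
  set ρ : ℝ := 2 * (B : ℝ) / K with hρ
  have hBu : (B : ℝ) ≤ u₀ * ρ := by
    have h1 : (B : ℝ) = K / 2 * ρ := by rw [hρ]; field_simp
    calc (B : ℝ) = K / 2 * ρ := h1
      _ ≤ u₀ * ρ := by gcongr
  have hBv : (B : ℝ) ≤ v₀ * ρ := hBu.trans (by gcongr)
  -- pointwise bounds
  have hp : ∀ x ∈ X, |√(√((p x : ℝ) / u₀)) - 1| ≤ ρ ∧ |√(p x : ℝ) / √u₀ - 1| ≤ ρ ∧ |√u₀ / √(p x : ℝ) - 1| ≤ ρ := by
    intro x hx
    obtain ⟨-, h1, h2, -, -⟩ := hX x hx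
    exact F_b1 hu0 h1 (by linarith)
  have hr : ∀ x ∈ X, |√(√((r x : ℝ) / v₀)) - 1| ≤ ρ ∧ |√(r x : ℝ) / √v₀ - 1| ≤ ρ ∧ |√v₀ / √(r x : ℝ) - 1| ≤ ρ := by
    intro x hx
    obtain ⟨-, -, -, h1, h2⟩ := hX x hx
    exact F_b1 hv0 h1 (by linarith)
  -- constants
  have hs1 : √v₀ / √u₀ ≤ 7 := by
    rw [div_le_iff₀ (Real.sqrt_pos.2 hu0)]
    rw [show (7 : ℝ) * √u₀ = √(49 * u₀) by
      rw [Real.sqrt_mul (by norm_num)]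
      congr 1
      rw [show (49 : ℝ) = 7 ^ 2 by norm_num, Real.sqrt_sq (by norm_num)]]
    exact Real.sqrt_le_sqrt (by linarith)
  have hs2 : √u₀ / √v₀ ≤ 1 := by
    rw [div_le_one (Real.sqrt_pos.2 hv0)]
    exact Real.sqrt_le_sqrt huv.le
  have hbb : |e2 * (√v₀ / √u₀)| + |e3 * (√u₀ / √v₀)| ≤ 80 * L * √R := by
    rw [abs_mul, abs_mul, abs_of_nonneg (by positivity : 0 ≤ √v₀ / √u₀),
      abs_of_nonneg (by positivity : 0 ≤ √u₀ / √v₀)]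
    have h1 : |e2| * (√v₀ / √u₀) ≤ 10 * L * √R * 7 := by gcongr
    have h2 : |e3| * (√u₀ / √v₀) ≤ 10 * L * √R * 1 := by gcongr
    linarith
  have hPP : √(√(u₀ * v₀)) ≤ 3 * √K := by
    have h1 : √(u₀ * v₀) ≤ 9 * K := by
      rw [Real.sqrt_le_left (by linarith)]
      nlinarith
    calc √(√(u₀ * v₀)) ≤ √(9 * K) := Real.sqrt_le_sqrt h1
      _ = 3 * √K := by
        rw [Real.sqrt_mul (by norm_num), show (9 : ℝ) = 3 ^ 2 by norm_num, Real.sqrt_sq (by norm_num)]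
  have hroot : ∀ t : ℝ, (L : ℝ) / 2 ≤ t → t ≤ 10 * L → √t ≤ 4 * √(L : ℝ) ∧ 1 / √t ≤ 2 / √(L : ℝ) ∧ 0 < √t := by
    intro t h1 h2
    have ht : 0 < t := by linarith
    have hst := Real.sqrt_pos.2 ht
    refine ⟨?_, ?_, hst⟩
    · rw [show 4 * √(L : ℝ) = √(16 * L) by
        rw [Real.sqrt_mul (by norm_num), show (16 : ℝ) = 4 ^ 2 by norm_num, Real.sqrt_sq (by norm_num)]]
      exact Real.sqrt_le_sqrt (by linarith)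
    · rw [div_le_div_iff₀ hst hsL0, one_mul]
      rw [show 2 * √t = √(4 * t) by
        rw [Real.sqrt_mul (by norm_num), show (4 : ℝ) = 2 ^ 2 by norm_num, Real.sqrt_sq (by norm_num)]]
      exact Real.sqrt_le_sqrt (by linarith)
  obtain ⟨ht1, ht2, ht3⟩ := hroot θ₀ hθ1 (by linarith)
  obtain ⟨hq1, hq2, hq3⟩ := hroot (θ₀ + xt e2 e3 u₀ v₀) hP1 hP2
  have hi1 : 0 ≤ 1 / √θ₀ := by positivity
  have hi2 : 0 ≤ 1 / √(θ₀ + xt e2 e3 u₀ v₀) := by positivity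
  have hD0 : |√θ₀ - √(θ₀ + xt e2 e3 u₀ v₀)| ≤ 4 * √(L : ℝ) := by
    rw [abs_le]; constructor <;> linarith
  have hD1 : |(1 / √θ₀ - 1 / √(θ₀ + xt e2 e3 u₀ v₀)) / 2| ≤ 1 / √(L : ℝ) := by
    have : 2 / √(L : ℝ) = 2 * (1 / √(L : ℝ)) := by ring
    rw [abs_le]; constructor <;> linarith
  have hD2 : |1 / √(θ₀ + xt e2 e3 u₀ v₀) / 2| ≤ 1 / √(L : ℝ) := by
    have : 2 / √(L : ℝ) = 2 * (1 / √(L : ℝ)) := by ring
    rw [abs_le]; constructor <;> linarith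
  have hy1 : 2 * |1 / ((M : ℝ) * θ₀)| ≤ 4 * (1 / (M : ℝ) / L) + 480 * (√R * ρ) := by
    rw [abs_of_nonneg (by positivity)]
    have h1 : 1 / ((M : ℝ) * θ₀) ≤ 2 * (1 / (M : ℝ) / L) := by
      rw [div_div, ← mul_one_div, mul_comm (2 : ℝ), one_div_mul_eq_div, mul_one_div,
        div_le_div_iff₀ (by positivity) (by positivity)]
      nlinarith
    have h2 : 0 ≤ √R * ρ := by positivity
    linarith
  have hy2 : |1 / (θ₀ + xt e2 e3 u₀ v₀)| * (2 * |1 / (M : ℝ)| + 3 * ρ * (80 * L * √R)) ≤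
      4 * (1 / (M : ℝ) / L) + 480 * (√R * ρ) := by
    rw [abs_of_nonneg (by positivity : 0 ≤ 1 / (θ₀ + xt e2 e3 u₀ v₀)), abs_of_nonneg (by positivity : 0 ≤ 1 / (M : ℝ))]
    have h1 : 1 / (θ₀ + xt e2 e3 u₀ v₀) ≤ 2 / L := by
      rw [div_le_div_iff₀ hP (by linarith)]
      linarith
    calc 1 / (θ₀ + xt e2 e3 u₀ v₀) * (2 * (1 / (M : ℝ)) + 3 * ρ * (80 * L * √R)) ≤
        2 / L * (2 * (1 / (M : ℝ)) + 3 * ρ * (80 * L * √R)) := by gcongr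
      _ = 4 * (1 / (M : ℝ) / L) + 480 * (√R * ρ) := by field_simp; ring
  have hMM : 1 / (M : ℝ) / L = 1 / ((M : ℝ) * L) := by rw [div_div]
  have hcore := F_core (X := X) (τ := τ) (p := p) (r := r)
    (a2 := fun k => √(√((k : ℝ) / u₀)) - 1) (a3 := fun k => √(√((k : ℝ) / v₀)) - 1)
    (m2 := fun k => √u₀ / √(k : ℝ) - 1) (m3 := fun k => √(k : ℝ) / √v₀ - 1)
    (n2 := fun k => √(k : ℝ) / √u₀ - 1) (n3 := fun k => √v₀ / √(k : ℝ) - 1)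
    (ρ := ρ) (P := √(√(u₀ * v₀))) (D0 := √θ₀ - √(θ₀ + xt e2 e3 u₀ v₀))
    (D1 := (1 / √θ₀ - 1 / √(θ₀ + xt e2 e3 u₀ v₀)) / 2) (D2 := 1 / √(θ₀ + xt e2 e3 u₀ v₀) / 2)
    (b2 := e2 * (√v₀ / √u₀)) (b3 := e3 * (√u₀ / √v₀)) (E := 80 * L * √R) (s0 := √θ₀)
    (s1 := √(θ₀ + xt e2 e3 u₀ v₀)) (c1 := 1 / ((M : ℝ) * θ₀)) (c2 := 1 / (θ₀ + xt e2 e3 u₀ v₀)) (Mi := 1 / (M : ℝ))
    hρ0 hρ1 (fun x hx => (hX x hx).1) (fun x hx => (hp x hx).1) (fun x hx => (hr x hx).1)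
    (fun x hx => (hp x hx).2.2) (fun x hx => (hr x hx).2.1) (fun x hx => (hp x hx).2.1)
    (fun x hx => (hr x hx).2.2) hbb hy1 hy2 (by rw [hMM]; exact hc)
  have hnum := F_num (a := √K) (b := √(L : ℝ)) (g := √R) (ρ := ρ) (m := 1 / (M : ℝ)) (L := (L : ℝ))
    (Real.sqrt_nonneg K) hsL0 hLL hsR hρ0 (by positivity) (Real.sqrt_nonneg _) hPP hD0 hD1 hD2
    (s0 := √θ₀) (s1 := √(θ₀ + xt e2 e3 u₀ v₀))
    (by rw [abs_of_nonneg (Real.sqrt_nonneg _)]; exact ht1)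
    (by rw [abs_of_nonneg (Real.sqrt_nonneg _)]; exact hq1) (by rw [hMM]; exact ha) hb
  refine ⟨fun k => √(√(u₀ * v₀)) * (√θ₀ - √(θ₀ + xt e2 e3 u₀ v₀)) * (1 + (√(√((k : ℝ) / u₀)) - 1)) -
        √(√(u₀ * v₀)) * (1 / √(θ₀ + xt e2 e3 u₀ v₀) / 2) *
          (-(e2 * (√v₀ / √u₀)) * (√u₀ / √(k : ℝ) - 1) - (e3 * (√u₀ / √v₀)) * (√(k : ℝ) / √u₀ - 1)),
    fun k => √(√(u₀ * v₀)) * (√θ₀ - √(θ₀ + xt e2 e3 u₀ v₀)) * (√(√((k : ℝ) / v₀)) - 1) -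
        √(√(u₀ * v₀)) * (1 / √(θ₀ + xt e2 e3 u₀ v₀) / 2) *
          (-(e2 * (√v₀ / √u₀)) * (√(k : ℝ) / √v₀ - 1) - (e3 * (√u₀ / √v₀)) * (√v₀ / √(k : ℝ) - 1)), ?_⟩
  refine Nice.congr (Nice.mono hcore hnum) ?_
  intro x hx
  obtain ⟨-, h1, -, h2, -⟩ := hX x hx
  rw [F_ident e2 e3 θ₀ u₀ v₀ M (τ x) (p x) (r x) hM hθ hP hu0 hv0 (by linarith) (by linarith)]

/-- `phase_real` and `Nice.exp` -/
theorem phase_nice : ∃ C₀ : ℝ, 1 ≤ C₀ ∧ ∀ (K R : ℝ) (L M B : ℕ), Par K R L M B →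
    ∀ (e2 e3 θ₀ u₀ v₀ : ℝ), |e2| ≤ 10 * L * √R → |e3| ≤ 10 * L * √R →
    (L : ℝ) / 2 ≤ θ₀ → θ₀ ≤ 5 * L → (L : ℝ) / 2 ≤ θ₀ + xt e2 e3 u₀ v₀ → θ₀ + xt e2 e3 u₀ v₀ ≤ 10 * L →
    K / 2 ≤ u₀ → u₀ ≤ 3 * K → u₀ < v₀ → v₀ ≤ 20 * K →
    ∀ {ι : Type} (X : Finset ι) (τ : ι → ℝ) (p r : ι → ℤ),
    (∀ x ∈ X, |τ x| ≤ 1 ∧ u₀ ≤ p x ∧ (p x : ℝ) ≤ u₀ + B ∧ v₀ ≤ r x ∧ (r x : ℝ) ≤ v₀ + B) →
    ∃ f2 f3 : ℤ → ℝ, Nice X τ p r C₀ (fun x => e (Ft e2 e3 (θ₀ + τ x / M) (p x) (r x) - f2 (p x) -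
      f3 (r x) - Fp (√(√(u₀ * v₀))) (xt e2 e3 u₀ v₀) θ₀ / M * τ x)) := by
  obtain ⟨C₀, hC, H⟩ := phase_real
  refine ⟨Real.exp (‖(2 * Real.pi * Complex.I : ℂ)‖ * C₀), Real.one_le_exp (by positivity), ?_⟩
  intro K R L M B hPar e2 e3 θ₀ u₀ v₀ he2 he3 hθ1 hθ2 hP1 hP2 hu1 hu2 huv hv2 ι X τ p r hX
  obtain ⟨f2, f3, hf⟩ := H K R L M B hPar e2 e3 θ₀ u₀ v₀ he2 he3 hθ1 hθ2 hP1 hP2 hu1 hu2 huv hv2 X τ p r hX
  refine ⟨f2, f3, ?_⟩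
  exact Nice.exp (by positivity) (Nice.smul (2 * Real.pi * Complex.I : ℂ) hf)

end TS
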