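import Pool.Agent.Lib.MP_39df77_nt.TS.Defs

/-!
Row TS-S1: Gaussian mean value and Gallagher's inequality.
-/

set_option autoImplicit false

namespace TS

open Finset

/-- the Gaussian Fourier integral: integrability and size -/
lemma S1_gint (y uc Δ : ℝ) (hΔ : 0 < Δ) :
    MeasureTheory.Integrable
      (fun u : ℝ => ((Real.exp (-((u - uc) / Δ) ^ 2) : ℝ) : ℂ) * e (y * u)) ∧
    ‖∫ u : ℝ, ((Real.exp (-((u - uc) / Δ) ^ 2) : ℝ) : ℂ) * e (y * u)‖ ≤
      2 * Δ * Real.exp (-(Real.pi ^ 2 * Δ ^ 2 * y ^ 2)) := by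
  have hΔ' : Δ ≠ 0 := hΔ.ne'
  have hΔc : (Δ : ℂ) ≠ 0 := by exact_mod_cast hΔ'
  set b : ℂ := ((-(1 / Δ ^ 2) : ℝ) : ℂ) with hb
  set c : ℂ := 2 * uc / Δ ^ 2 + 2 * Real.pi * Complex.I * y with hc
  set d : ℂ := -(uc : ℂ) ^ 2 / Δ ^ 2 with hd
  have hbre : b.re < 0 := by
    rw [hb, Complex.ofReal_re]
    have : 0 < 1 / Δ ^ 2 := by positivity
    linarith
  have hfun : (fun u : ℝ => ((Real.exp (-((u - uc) / Δ) ^ 2) : ℝ) : ℂ) * e (y * u)) =
      fun u : ℝ => Complex.exp (b * (u : ℂ) ^ 2 + c * u + d) := by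
    funext u
    rw [e, Complex.ofReal_exp, ← Complex.exp_add]
    congr 1
    rw [hb, hc, hd]
    push_cast
    field_simp
    ring
  constructor
  · rw [hfun]
    exact integrable_cexp_quadratic' hbre c d
  · rw [hfun, integral_cexp_quadratic hbre c d]
    have h1 : (Real.pi : ℂ) / -b = ((Real.pi * Δ ^ 2 : ℝ) : ℂ) := by
      rw [hb]
      push_cast
      field_simp
    have h2 : d - c ^ 2 / (4 * b) =
        ((-(Real.pi ^ 2 * Δ ^ 2 * y ^ 2) : ℝ) : ℂ) + ((2 * Real.pi * y * uc : ℝ) : ℂ) * Complex.I := by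
      rw [hb, hc, hd]
      push_cast
      field_simp
      ring_nf
      rw [Complex.I_sq]
      ring
    rw [h1, h2, norm_mul, Complex.exp_add, norm_mul, Complex.norm_exp_ofReal_mul_I, mul_one,
      Complex.norm_cpow_eq_rpow_re_of_pos (by positivity), ← Complex.ofReal_exp,
      Complex.norm_real, Real.norm_of_nonneg (Real.exp_pos _).le]
    have h3 : (Real.pi * Δ ^ 2) ^ ((1 / 2 : ℂ).re) = √Real.pi * Δ := by
      have : (1 / 2 : ℂ).re = 1 / 2 := by norm_num
      rw [this, ← Real.sqrt_eq_rpow, Real.sqrt_mul Real.pi_pos.le, Real.sqrt_sq hΔ.le]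
    rw [h3]
    have h4 : √Real.pi ≤ 2 := by
      rw [Real.sqrt_le_left (by norm_num)]
      have := Real.pi_le_four
      linarith
    have h5 : 0 < Real.exp (-(Real.pi ^ 2 * Δ ^ 2 * y ^ 2)) := Real.exp_pos _
    have h6 : √Real.pi * Δ ≤ 2 * Δ := by nlinarith
    nlinarith

/-- the square of an exponential sum -/
lemma S1_sq {ι : Type} (s : Finset ι) (g : ι → ℂ) (y : ι → ℝ) (u : ℝ) :
    ((‖∑ i ∈ s, g i * e (y i * u)‖ ^ 2 : ℝ) : ℂ) =
      ∑ i ∈ s, ∑ j ∈ s, (g i * (starRingEnd ℂ) (g j)) * e ((y i - y j) * u) := by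
  rw [← Complex.normSq_eq_norm_sq, Complex.normSq_eq_conj_mul_self, map_sum, mul_comm, sum_mul_sum]
  refine sum_congr rfl fun i _ => sum_congr rfl fun j _ => ?_
  rw [map_mul]
  have h1 : (starRingEnd ℂ) (e (y j * u)) = e (-(y j * u)) := by
    rw [e, e, ← Complex.exp_conj]
    congr 1
    simp only [map_mul, Complex.conj_ofReal, Complex.conj_I, map_ofNat]
    push_cast
    ring
  have h2 : e (y i * u) * e (-(y j * u)) = e ((y i - y j) * u) := by
    rw [e, e, e, ← Complex.exp_add]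
    congr 1
    push_cast
    ring
  rw [h1, ← h2]
  ring

/-- Gaussian mean value: `U = [uc - Δ, uc + Δ]`, `1_U ≤ 3 exp(-((u - uc)/Δ)²)` and
`∫ exp(-((u - uc)/Δ)²) e(yu) du = e(y uc) √π Δ exp(-π²Δ²y²)` -/
theorem gauss_mean {ι : Type} (s : Finset ι) (g : ι → ℂ) (y : ι → ℝ) (uc Δ : ℝ) (hΔ : 0 < Δ) :
    ∫ u in (uc - Δ)..(uc + Δ), ‖∑ i ∈ s, g i * e (y i * u)‖ ^ 2 ≤
      6 * Δ * ∑ i ∈ s, ∑ j ∈ s, ‖g i‖ * ‖g j‖ * Real.exp (-(Real.pi ^ 2 * Δ ^ 2 * (y i - y j) ^ 2)) := by
  set F : ℝ → ℝ := fun u => ‖∑ i ∈ s, g i * e (y i * u)‖ ^ 2 with hF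
  set w : ℝ → ℝ := fun u => Real.exp (-((u - uc) / Δ) ^ 2) with hw
  have hwF : ∀ u : ℝ, ((w u * F u : ℝ) : ℂ) =
      ∑ i ∈ s, ∑ j ∈ s, (g i * (starRingEnd ℂ) (g j)) * ((w u : ℂ) * e ((y i - y j) * u)) := by
    intro u
    rw [Complex.ofReal_mul, hF]
    simp only
    rw [S1_sq, mul_sum]
    refine sum_congr rfl fun i _ => ?_
    rw [mul_sum]
    refine sum_congr rfl fun j _ => ?_
    ring
  have hintij : ∀ i j : ι, MeasureTheory.Integrable (fun u : ℝ =>
      (g i * (starRingEnd ℂ) (g j)) * ((w u : ℂ) * e ((y i - y j) * u))) := by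
    intro i j
    exact (S1_gint (y i - y j) uc Δ hΔ).1.const_mul _
  have hintC : MeasureTheory.Integrable (fun u : ℝ => ((w u * F u : ℝ) : ℂ)) := by
    have : (fun u : ℝ => ((w u * F u : ℝ) : ℂ)) = fun u : ℝ =>
        ∑ i ∈ s, ∑ j ∈ s, (g i * (starRingEnd ℂ) (g j)) * ((w u : ℂ) * e ((y i - y j) * u)) := by
      funext u
      exact hwF u
    rw [this]
    exact MeasureTheory.integrable_finsetSum _ fun i _ =>
      MeasureTheory.integrable_finsetSum _ fun j _ => hintij i j
  have hintR : MeasureTheory.Integrable (fun u : ℝ => w u * F u) := by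
    have := hintC.re
    simpa using this
  have hFnn : ∀ u, 0 ≤ F u := fun u => by rw [hF]; positivity
  have hwnn : ∀ u, 0 < w u := fun u => Real.exp_pos _
  have hval : ∫ u : ℝ, w u * F u ≤ 2 * Δ *
      ∑ i ∈ s, ∑ j ∈ s, ‖g i‖ * ‖g j‖ * Real.exp (-(Real.pi ^ 2 * Δ ^ 2 * (y i - y j) ^ 2)) := by
    have h1 : ((∫ u : ℝ, w u * F u : ℝ) : ℂ) = ∫ u : ℝ, ((w u * F u : ℝ) : ℂ) := by
      exact (integral_ofReal).symm
    have h2 : ∫ u : ℝ, ((w u * F u : ℝ) : ℂ) =
        ∑ i ∈ s, ∑ j ∈ s, (g i * (starRingEnd ℂ) (g j)) *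
          ∫ u : ℝ, ((w u : ℂ) * e ((y i - y j) * u)) := by
      calc ∫ u : ℝ, ((w u * F u : ℝ) : ℂ) = ∫ u : ℝ, ∑ i ∈ s, ∑ j ∈ s,
            (g i * (starRingEnd ℂ) (g j)) * ((w u : ℂ) * e ((y i - y j) * u)) := by
            congr 1
            funext u
            exact hwF u
        _ = _ := by
            rw [MeasureTheory.integral_finsetSum _ fun i _ =>
              MeasureTheory.integrable_finsetSum _ fun j _ => hintij i j]
            refine sum_congr rfl fun i _ => ?_
            rw [MeasureTheory.integral_finsetSum _ fun j _ => hintij i j]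
            refine sum_congr rfl fun j _ => ?_
            rw [MeasureTheory.integral_const_mul]
    have h3 : ∫ u : ℝ, w u * F u ≤ ‖((∫ u : ℝ, w u * F u : ℝ) : ℂ)‖ := by
      rw [Complex.norm_real]
      exact le_abs_self _
    refine h3.trans ?_
    rw [h1, h2, mul_sum]
    refine (norm_sum_le _ _).trans (sum_le_sum fun i _ => ?_)
    rw [mul_sum]
    refine (norm_sum_le _ _).trans (sum_le_sum fun j _ => ?_)
    rw [norm_mul, norm_mul, Complex.norm_conj]
    have h4 := (S1_gint (y i - y j) uc Δ hΔ).2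
    have h5 : 0 ≤ ‖g i‖ * ‖g j‖ := by positivity
    calc ‖g i‖ * ‖g j‖ * ‖∫ u : ℝ, ((w u : ℂ) * e ((y i - y j) * u))‖ ≤
          ‖g i‖ * ‖g j‖ * (2 * Δ * Real.exp (-(Real.pi ^ 2 * Δ ^ 2 * (y i - y j) ^ 2))) :=
          mul_le_mul_of_nonneg_left h4 h5
      _ = _ := by ring
  have hcont : Continuous F := by
    rw [hF]
    unfold e
    fun_prop
  have hle : uc - Δ ≤ uc + Δ := by linarith
  have hstep : ∫ u in (uc - Δ)..(uc + Δ), F u ≤ ∫ u in (uc - Δ)..(uc + Δ), 3 * (w u * F u) := by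
    refine intervalIntegral.integral_mono_on hle (hcont.intervalIntegrable _ _)
      ((hintR.const_mul 3).intervalIntegrable) fun u hu => ?_
    have h1 : ((u - uc) / Δ) ^ 2 ≤ 1 := by
      rw [div_pow, div_le_one (by positivity)]
      have h2 := hu.1
      have h3 := hu.2
      nlinarith
    have h2 : Real.exp (-1) ≤ w u := by
      rw [hw]
      apply Real.exp_le_exp.mpr
      linarith
    have h3 : (1 : ℝ) / 3 ≤ Real.exp (-1) := by
      rw [Real.exp_neg, one_div]
      apply inv_anti₀ (Real.exp_pos _)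
      have := Real.exp_one_lt_d9
      linarith
    have h4 := hFnn u
    nlinarith
  have hfin : ∫ u in (uc - Δ)..(uc + Δ), 3 * (w u * F u) ≤ 3 * ∫ u : ℝ, w u * F u := by
    rw [intervalIntegral.integral_of_le hle, MeasureTheory.integral_const_mul]
    have h1 : ∫ u in Set.Ioc (uc - Δ) (uc + Δ), w u * F u ≤ ∫ u : ℝ, w u * F u :=
      MeasureTheory.setIntegral_le_integral hintR
        (Filter.Eventually.of_forall fun u => mul_nonneg (hwnn u).le (hFnn u))
    linarith
  calc ∫ u in (uc - Δ)..(uc + Δ), F u ≤ ∫ u in (uc - Δ)..(uc + Δ), 3 * (w u * F u) := hstep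
    _ ≤ 3 * ∫ u : ℝ, w u * F u := hfin
    _ ≤ 3 * (2 * Δ * ∑ i ∈ s, ∑ j ∈ s, ‖g i‖ * ‖g j‖ *
          Real.exp (-(Real.pi ^ 2 * Δ ^ 2 * (y i - y j) ^ 2))) := by linarith
    _ = _ := by ring

/-- Gallagher (the intended parenthesisation) -/
theorem gallagher' (S : Finset ℤ) (u : ℤ → ℝ) (G G' : ℝ → ℂ) (δ a b : ℝ) (hδ : 0 < δ) (hab : a ≤ b)
    (hG : ∀ x, HasDerivAt G (G' x) x) (hc : Continuous G')
    (hu : ∀ k ∈ S, a ≤ u k - δ ∧ u k + δ ≤ b)
    (hd : ∀ k ∈ S, ∀ l ∈ S, k < l → u k + δ ≤ u l - δ) :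
    ∑ k ∈ S, ‖G (u k)‖ ^ 2 ≤ 1 / (2 * δ) * (∫ x in a..b, ‖G x‖ ^ 2) +
      2 * (∫ x in a..b, ‖G x‖ * ‖G' x‖) := by
  have hGc : Continuous G := continuous_iff_continuousAt.mpr fun x => (hG x).continuousAt
  set A : ℝ → ℝ := fun x => ‖G x‖ ^ 2 with hA
  set D : ℝ → ℝ := fun x => 2 * (‖G x‖ * ‖G' x‖) with hD
  have hAc : Continuous A := by rw [hA]; fun_prop
  have hDc : Continuous D := by rw [hD]; fun_prop
  have hDnn : ∀ x, 0 ≤ D x := fun x => by rw [hD]; positivity
  have hAnn : ∀ x, 0 ≤ A x := fun x => by rw [hA]; positivity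
  -- derivative of the square of the norm
  set A' : ℝ → ℝ := fun x => 2 * inner ℝ (G x) (G' x) with hA'
  have hderiv : ∀ x, HasDerivAt A (A' x) x := fun x => (hG x).norm_sq
  have hA'c : Continuous A' := continuous_const.mul (hGc.inner hc)
  have hbd : ∀ x, |A' x| ≤ D x := by
    intro x
    rw [hA', hD]
    simp only
    rw [abs_mul, abs_of_pos (by norm_num : (0:ℝ) < 2)]
    have h2 := abs_real_inner_le_norm (G x) (G' x)
    linarith
  have hpt : ∀ k ∈ S, A (u k) ≤ 1 / (2 * δ) * (∫ x in (u k - δ)..(u k + δ), A x) +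
      (∫ x in (u k - δ)..(u k + δ), D x) := by
    intro k _
    set I : ℝ := ∫ x in (u k - δ)..(u k + δ), D x with hI
    have hx : ∀ x ∈ Set.Icc (u k - δ) (u k + δ), A (u k) - I ≤ A x := by
      intro x hx
      have h1 : ∫ t in x..(u k), A' t = A (u k) - A x :=
        intervalIntegral.integral_eq_sub_of_hasDerivAt (fun t _ => hderiv t)
          (hA'c.intervalIntegrable _ _)
      have h2 : ∫ t in x..(u k), A' t ≤ I := by
        refine (le_abs_self _).trans ?_
        have h3 : |∫ t in x..(u k), A' t| ≤ |∫ t in x..(u k), D t| := by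
          have := intervalIntegral.norm_integral_le_abs_integral_norm (f := A') (a := x) (b := u k)
            (μ := MeasureTheory.volume)
          rw [Real.norm_eq_abs] at this
          refine this.trans ?_
          rcases le_total x (u k) with hle | hle
          · have h4 : ∫ t in x..(u k), ‖A' t‖ ≤ ∫ t in x..(u k), D t :=
              intervalIntegral.integral_mono_on hle (hA'c.norm.intervalIntegrable _ _)
                (hDc.intervalIntegrable _ _) fun t _ => hbd t
            have h5 : 0 ≤ ∫ t in x..(u k), ‖A' t‖ :=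
              intervalIntegral.integral_nonneg hle fun t _ => norm_nonneg _
            rw [abs_of_nonneg h5, abs_of_nonneg (h5.trans h4)]
            exact h4
          · have h4 : ∫ t in (u k)..x, ‖A' t‖ ≤ ∫ t in (u k)..x, D t :=
              intervalIntegral.integral_mono_on hle (hA'c.norm.intervalIntegrable _ _)
                (hDc.intervalIntegrable _ _) fun t _ => hbd t
            have h5 : 0 ≤ ∫ t in (u k)..x, ‖A' t‖ :=
              intervalIntegral.integral_nonneg hle fun t _ => norm_nonneg _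
            rw [intervalIntegral.integral_symm, abs_neg, abs_of_nonneg h5,
              intervalIntegral.integral_symm (a := u k) (b := x), abs_neg,
              abs_of_nonneg (h5.trans h4)]
            exact h4
        refine h3.trans ?_
        have hsub : ∀ p q : ℝ, u k - δ ≤ p → p ≤ q → q ≤ u k + δ → ∫ t in p..q, D t ≤ I := by
          intro p q hp hpq hq
          rw [hI]
          exact intervalIntegral.integral_mono_interval hp hpq hq
            (Filter.Eventually.of_forall hDnn) (hDc.intervalIntegrable _ _)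
        rcases le_total x (u k) with hle | hle
        · rw [abs_of_nonneg (intervalIntegral.integral_nonneg hle fun t _ => hDnn t)]
          exact hsub x (u k) hx.1 hle (by linarith)
        · rw [intervalIntegral.integral_symm, abs_neg,
            abs_of_nonneg (intervalIntegral.integral_nonneg hle fun t _ => hDnn t)]
          exact hsub (u k) x (by linarith) hle hx.2
      linarith
    have h1 : ∫ x in (u k - δ)..(u k + δ), (A (u k) - I) ≤ ∫ x in (u k - δ)..(u k + δ), A x :=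
      intervalIntegral.integral_mono_on (by linarith) (by simp)
        (hAc.intervalIntegrable _ _) hx
    rw [intervalIntegral.integral_const, smul_eq_mul] at h1
    have h2 : u k + δ - (u k - δ) = 2 * δ := by ring
    rw [h2] at h1
    have h3 : A (u k) - I ≤ 1 / (2 * δ) * ∫ x in (u k - δ)..(u k + δ), A x := by
      rw [one_div, inv_mul_eq_div, le_div_iff₀ (by positivity)]
      linarith
    linarith
  have hdisj : ∀ H : ℝ → ℝ, Continuous H → (∀ x, 0 ≤ H x) →
      ∑ k ∈ S, ∫ x in (u k - δ)..(u k + δ), H x ≤ ∫ x in a..b, H x := by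
    intro H hH hnn
    have h1 : ∀ k ∈ S, ∫ x in (u k - δ)..(u k + δ), H x =
        ∫ x in Set.Ioc (u k - δ) (u k + δ), H x := fun k _ =>
      intervalIntegral.integral_of_le (by linarith)
    rw [sum_congr rfl h1, intervalIntegral.integral_of_le hab]
    have hint : MeasureTheory.IntegrableOn H (Set.Ioc a b) :=
      (hH.integrableOn_Icc).mono_set Set.Ioc_subset_Icc_self
    have hsubset : ∀ k ∈ S, Set.Ioc (u k - δ) (u k + δ) ⊆ Set.Ioc a b := fun k hk =>
      Set.Ioc_subset_Ioc (hu k hk).1 (hu k hk).2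
    rw [← MeasureTheory.integral_biUnion_finset S (fun k _ => measurableSet_Ioc)]
    · refine MeasureTheory.setIntegral_mono_set hint
        (Filter.Eventually.of_forall hnn) ?_
      have hsub2 : (⋃ k ∈ S, Set.Ioc (u k - δ) (u k + δ)) ⊆ Set.Ioc a b :=
        Set.iUnion₂_subset hsubset
      exact hsub2.eventuallyLE
    · intro k hk l hl hkl
      have key : ∀ k ∈ S, ∀ l ∈ S, k < l →
          Disjoint (Set.Ioc (u k - δ) (u k + δ)) (Set.Ioc (u l - δ) (u l + δ)) := by
        intro k hk l hl hlt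
        rw [Set.Ioc_disjoint_Ioc]
        have := hd k hk l hl hlt
        exact (min_le_left _ _).trans (this.trans (le_max_right _ _))
      rcases lt_or_gt_of_ne hkl with h | h
      · exact key k hk l hl h
      · exact (key l hl k hk h).symm
    · intro k hk
      exact hint.mono_set (hsubset k hk)
  calc ∑ k ∈ S, A (u k) ≤ ∑ k ∈ S, (1 / (2 * δ) * (∫ x in (u k - δ)..(u k + δ), A x) +
      (∫ x in (u k - δ)..(u k + δ), D x)) := sum_le_sum hpt
    _ = 1 / (2 * δ) * (∑ k ∈ S, ∫ x in (u k - δ)..(u k + δ), A x) +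
        (∑ k ∈ S, ∫ x in (u k - δ)..(u k + δ), D x) := by
        rw [sum_add_distrib, ← mul_sum]
    _ ≤ 1 / (2 * δ) * (∫ x in a..b, A x) + (∫ x in a..b, D x) := by
        have h1 := hdisj A hAc hAnn
        have h2 := hdisj D hDc hDnn
        have h3 : 0 ≤ 1 / (2 * δ) := by positivity
        have h4 := mul_le_mul_of_nonneg_left h1 h3
        linarith
    _ = _ := by
        rw [hD, intervalIntegral.integral_const_mul]

/-- Gallagher: for a `C¹` function `G` and points `u_k` with disjoint intervals `[u_k - δ, u_k + δ]` in `[a, b]`: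
`∑ ‖G(u_k)‖² ≤ 1/(2δ) ∫ ‖G‖² + ∫ 2‖G‖‖G'‖` (mean value over the interval, fundamental theorem) -/
theorem gallagher (S : Finset ℤ) (u : ℤ → ℝ) (G G' : ℝ → ℂ) (δ a b : ℝ) (hδ : 0 < δ) (hab : a ≤ b)
    (hG : ∀ x, HasDerivAt G (G' x) x) (hc : Continuous G')
    (hu : ∀ k ∈ S, a ≤ u k - δ ∧ u k + δ ≤ b)
    (hd : ∀ k ∈ S, ∀ l ∈ S, k < l → u k + δ ≤ u l - δ) :
    ∑ k ∈ S, ‖G (u k)‖ ^ 2 ≤ 1 / (2 * δ) * ∫ x in a..b, ‖G x‖ ^ 2 +
      2 * ∫ x in a..b, ‖G x‖ * ‖G' x‖ := by
  have hGc : Continuous G := continuous_iff_continuousAt.mpr fun x => (hG x).continuousAt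
  have hi1 : IntervalIntegrable (fun x => ‖G x‖ ^ 2) MeasureTheory.volume a b :=
    (by fun_prop : Continuous fun x => ‖G x‖ ^ 2).intervalIntegrable _ _
  rw [intervalIntegral.integral_add hi1 (by simp), intervalIntegral.integral_const, smul_eq_mul]
  set J : ℝ := ∫ x in a..b, ‖G x‖ * ‖G' x‖ with hJ
  have hJ0 : 0 ≤ J := intervalIntegral.integral_nonneg hab fun t _ => by positivity
  have hI0 : 0 ≤ ∫ x in a..b, ‖G x‖ ^ 2 := intervalIntegral.integral_nonneg hab fun t _ => by
    positivity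
  rcases S.eq_empty_or_nonempty with hS | ⟨k, hk⟩
  · rw [hS, sum_empty]
    have : 0 ≤ b - a := by linarith
    positivity
  · have h1 := gallagher' S u G G' δ a b hδ hab hG hc hu hd
    have h2 : 2 * δ ≤ b - a := by
      have := hu k hk
      linarith [this.1, this.2]
    have h3 : 2 * J ≤ 1 / (2 * δ) * ((b - a) * (2 * J)) := by
      rw [one_div, inv_mul_eq_div, le_div_iff₀ (by positivity)]
      nlinarith
    rw [mul_add]
    linarith

end TS
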