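import Pool.Agent.Lib.MP_39df77_nt.TS.Geo1
import Pool.Agent.Lib.MP_39df77_nt.TS.Geo2

/-!
Row TS-E2, part A: geometry of the cells, partition of unity.
-/

set_option autoImplicit false

namespace TS

open Finset

theorem E2_par {K R : ℝ} {L M B : ℕ} (h : Par K R L M B) :
    ∃ κ : ℝ, 0 < κ ∧ K = κ ^ 4 ∧ √K = κ ^ 2 ∧ 10 ^ 12 * ((L : ℝ) * R) ^ 2 ≤ κ ∧ κ ≤ L * M ∧
      √R * B ≤ κ ^ 3 / 1000 ∧ (1 : ℝ) ≤ L := by
  have hR := h.hR
  have hL : (1 : ℝ) ≤ L := by exact_mod_cast h.hL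
  have hLR : 1 ≤ (L : ℝ) * R := one_le_mul_of_one_le_of_one_le hL hR
  have hK0 : 0 < K := lt_of_lt_of_le (by positivity) h.big
  refine ⟨√(√K), Real.sqrt_pos.2 (Real.sqrt_pos.2 hK0), ?_, ?_, ?_, ?_, ?_, hL⟩
  · calc K = (√K) ^ 2 := (Real.sq_sqrt hK0.le).symm
      _ = ((√(√K)) ^ 2) ^ 2 := by rw [Real.sq_sqrt (Real.sqrt_nonneg K)]
      _ = _ := by ring
  · rw [Real.sq_sqrt (Real.sqrt_nonneg K)]
  · have h4 : K = (√(√K)) ^ 4 := by
      calc K = (√K) ^ 2 := (Real.sq_sqrt hK0.le).symm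
        _ = ((√(√K)) ^ 2) ^ 2 := by rw [Real.sq_sqrt (Real.sqrt_nonneg K)]
        _ = _ := by ring
    have h5 : (10 ^ 12 * ((L : ℝ) * R) ^ 2) ^ 4 ≤ (√(√K)) ^ 4 := by
      rw [← h4]
      refine le_trans ?_ h.big
      have h6 : ((L : ℝ) * R) ^ 8 ≤ ((L : ℝ) * R) ^ 11 := pow_le_pow_right₀ hLR (by norm_num)
      calc (10 ^ 12 * ((L : ℝ) * R) ^ 2) ^ 4 = 10 ^ 48 * ((L : ℝ) * R) ^ 8 := by ring
        _ ≤ _ := by linarith
    exact (pow_le_pow_iff_left₀ (by positivity) (Real.sqrt_nonneg _) (by norm_num)).1 h5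
  · have h1 := h.M1
    have h2 : √(L : ℝ) ≤ L := by
      rw [Real.sqrt_le_left (by linarith)]
      nlinarith
    have h3 : (√(√K)) ^ 2 ≤ ((L : ℝ) * M) ^ 2 := by
      rw [Real.sq_sqrt (Real.sqrt_nonneg K)]
      refine h1.trans ?_
      have h4 : 0 ≤ (M : ℝ) ^ 2 := by positivity
      have h5 : (L : ℝ) * √(L : ℝ) ≤ L * L := mul_le_mul_of_nonneg_left h2 (by linarith)
      calc (L : ℝ) * √(L : ℝ) * (M : ℝ) ^ 2 ≤ L * L * (M : ℝ) ^ 2 := mul_le_mul_of_nonneg_right h5 h4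
        _ = _ := by ring
    exact (pow_le_pow_iff_left₀ (Real.sqrt_nonneg _) (by positivity) (by norm_num)).1 h3
  · have h1 := h.B1
    have h2 : 1 ≤ √(L : ℝ) := by rw [Real.one_le_sqrt]; exact hL
    have h3 : (√R * B) ^ 2 ≤ ((√(√K)) ^ 3 / 1000) ^ 2 := by
      have e1 : ((√(√K)) ^ 3 / 1000) ^ 2 = K * √K / 10 ^ 6 := by
        have : (√(√K)) ^ 6 = K * √K := by
          calc (√(√K)) ^ 6 = ((√(√K)) ^ 2) ^ 3 := by ring
            _ = (√K) ^ 3 := by rw [Real.sq_sqrt (Real.sqrt_nonneg K)]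
            _ = (√K) ^ 2 * √K := by ring
            _ = _ := by rw [Real.sq_sqrt hK0.le]
        calc ((√(√K)) ^ 3 / 1000) ^ 2 = (√(√K)) ^ 6 / 10 ^ 6 := by ring
          _ = _ := by rw [this]
      rw [e1, mul_pow, Real.sq_sqrt (by linarith), le_div_iff₀ (by norm_num)]
      have h4 : 0 ≤ (B : ℝ) ^ 2 := by positivity
      have h5 : (B : ℝ) ^ 2 * 1 * R ≤ (B : ℝ) ^ 2 * √(L : ℝ) * R := by
        apply mul_le_mul_of_nonneg_right _ (by linarith)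
        exact mul_le_mul_of_nonneg_left h2 h4
      nlinarith
    exact (pow_le_pow_iff_left₀ (by positivity) (by positivity) (by norm_num)).1 h3

/-! ### tents -/

theorem E2_tent_zero {y : ℝ} {c : ℤ} (h1 : c ≠ ⌊y⌋) (h2 : c ≠ ⌊y⌋ + 1) : tent (y - c) = 0 := by
  by_contra h
  have h3 := tent_ne h
  rw [abs_lt] at h3
  have h4 : (⌊y⌋ : ℝ) ≤ y := Int.floor_le y
  have h5 : y < ⌊y⌋ + 1 := Int.lt_floor_add_one y
  have h6 : (c : ℝ) < ⌊y⌋ + 2 := by linarith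
  have h7 : (⌊y⌋ : ℝ) - 1 < c := by linarith
  have h8 : c < ⌊y⌋ + 2 := by exact_mod_cast h6
  have h9 : ⌊y⌋ - 1 < c := by exact_mod_cast h7
  omega

theorem E2_tent_two (y : ℝ) : tent (y - (⌊y⌋ : ℤ)) + tent (y - ((⌊y⌋ + 1 : ℤ) : ℝ)) = 1 := by
  have h4 : (⌊y⌋ : ℝ) ≤ y := Int.floor_le y
  have h5 : y < ⌊y⌋ + 1 := Int.lt_floor_add_one y
  unfold tent
  push_cast
  rw [abs_of_nonneg (by linarith : 0 ≤ y - ⌊y⌋), abs_of_nonpos (by linarith : y - (⌊y⌋ + 1) ≤ 0),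
    max_eq_right (by linarith), max_eq_right (by linarith)]
  ring

theorem E2_tent_sum_le (y : ℝ) (S : Finset ℤ) : ∑ c ∈ S, tent (y - c) ≤ 1 := by
  classical
  have h1 : ∑ c ∈ S, tent (y - c) ≤ ∑ c ∈ ({⌊y⌋, ⌊y⌋ + 1} : Finset ℤ), tent (y - c) := by
    calc ∑ c ∈ S, tent (y - c) ≤ ∑ c ∈ S ∪ {⌊y⌋, ⌊y⌋ + 1}, tent (y - c) :=
          Finset.sum_le_sum_of_subset_of_nonneg Finset.subset_union_left
            (fun _ _ _ => tent_nonneg _)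
      _ = ∑ c ∈ ({⌊y⌋, ⌊y⌋ + 1} : Finset ℤ), tent (y - c) := by
          symm
          apply Finset.sum_subset Finset.subset_union_right
          intro c _ hc
          simp only [Finset.mem_insert, Finset.mem_singleton, not_or] at hc
          exact E2_tent_zero hc.1 hc.2
  refine h1.trans ?_
  rw [Finset.sum_pair (by omega)]
  exact (E2_tent_two y).le

theorem E2_tent_sum (y : ℝ) (n : ℤ) (h0 : 0 ≤ y) (h1 : y < n) :
    ∑ c ∈ Icc (0 : ℤ) n, tent (y - c) = 1 := by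
  classical
  have h2 : 0 ≤ ⌊y⌋ := Int.floor_nonneg.2 h0
  have h3 : ⌊y⌋ < n := Int.floor_lt.2 h1
  have h4 : ∑ c ∈ ({⌊y⌋, ⌊y⌋ + 1} : Finset ℤ), tent (y - c) = ∑ c ∈ Icc (0 : ℤ) n, tent (y - c) := by
    apply Finset.sum_subset
    · intro c hc
      simp only [Finset.mem_insert, Finset.mem_singleton] at hc
      rw [Finset.mem_Icc]
      rcases hc with rfl | rfl
      · exact ⟨h2, h3.le⟩
      · exact ⟨by omega, by omega⟩
    · intro c _ hc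
      simp only [Finset.mem_insert, Finset.mem_singleton, not_or] at hc
      exact E2_tent_zero hc.1 hc.2
  rw [← h4, Finset.sum_pair (by omega)]
  exact E2_tent_two y

/-! ### blocks -/

theorem E2_mem_bl {B : ℕ} {i k : ℤ} : k ∈ bl B i ↔ i * B ≤ k ∧ k < i * B + B := by
  unfold bl
  rw [Finset.mem_Ico]

theorem E2_bl_iff {B : ℕ} (hB : 1 ≤ B) {i k : ℤ} : k ∈ bl B i ↔ i = k / B := by
  rw [E2_mem_bl]
  have hB' : (0 : ℤ) < B := by exact_mod_cast hB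
  constructor
  · rintro ⟨h1, h2⟩
    symm
    rw [Int.ediv_eq_iff_of_pos hB']
    constructor
    · exact h1
    · linarith
  · rintro rfl
    have h1 := Int.ediv_mul_le k hB'.ne'
    have h2 := Int.lt_ediv_add_one_mul_self k hB'
    exact ⟨h1, by linarith⟩

/-! ### geometry -/

theorem E2_sqrt {K a b : ℝ} (hK : 0 < K) (ha : K / 4 ≤ a) (hb : K / 4 ≤ b) :
    |√a - √b| ≤ |a - b| / √K := by
  have hsK : 0 < √K := Real.sqrt_pos.2 hK
  have h1 : √K / 2 ≤ √a := by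
    rw [show √K / 2 = √(K / 4) by
      rw [Real.sqrt_div hK.le, show (4 : ℝ) = 2 ^ 2 by norm_num, Real.sqrt_sq (by norm_num)]]
    exact Real.sqrt_le_sqrt ha
  have h2 : √K / 2 ≤ √b := by
    rw [show √K / 2 = √(K / 4) by
      rw [Real.sqrt_div hK.le, show (4 : ℝ) = 2 ^ 2 by norm_num, Real.sqrt_sq (by norm_num)]]
    exact Real.sqrt_le_sqrt hb
  have ha0 : 0 ≤ a := by linarith
  have hb0 : 0 ≤ b := by linarith
  have h3 : |a - b| = |√a - √b| * (√a + √b) := by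
    rw [← abs_of_nonneg (by positivity : 0 ≤ √a + √b), ← abs_mul]
    congr 1
    have e1 := Real.mul_self_sqrt ha0
    have e2 := Real.mul_self_sqrt hb0
    linear_combination -e1 + e2
  rw [le_div_iff₀ hsK, h3]
  exact mul_le_mul_of_nonneg_left (by linarith) (abs_nonneg _)

/-- facts on the parameters -/
structure E2_P (K R κ : ℝ) (L M B : ℕ) : Prop where
  hR : 1 ≤ R
  hL : (1 : ℝ) ≤ L
  hκ : 0 < κ
  hK : K = κ ^ 4
  hsK : √K = κ ^ 2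
  κ12 : 10 ^ 12 ≤ κ
  LRκ : (L : ℝ) * R ≤ κ / 10 ^ 12
  LR2κ : 10 ^ 12 * ((L : ℝ) * R) ^ 2 ≤ κ
  p2 : 10 ^ 12 * κ ≤ κ ^ 2
  p3 : 10 ^ 12 * κ ^ 2 ≤ κ ^ 3
  p4 : 10 ^ 12 * κ ^ 3 ≤ κ ^ 4
  hB : √R * B ≤ κ ^ 3 / 1000
  hM : κ ≤ L * M
  sR : 1 ≤ √R
  sR2 : √R ≤ R

theorem E2_mkP {K R : ℝ} {L M B : ℕ} (h : Par K R L M B) : ∃ κ : ℝ, E2_P K R κ L M B := by
  obtain ⟨κ, hκ, hK, hsK, hbig, hM, hB, hL⟩ := E2_par h
  have hR := h.hR
  have hLR : 1 ≤ (L : ℝ) * R := one_le_mul_of_one_le_of_one_le hL hR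
  have h1 : (1 : ℝ) ≤ ((L : ℝ) * R) ^ 2 := one_le_pow₀ hLR
  have h2 : (L : ℝ) * R ≤ ((L : ℝ) * R) ^ 2 := by
    rw [sq]
    exact le_mul_of_one_le_left (by linarith) hLR
  have hκ12 : 10 ^ 12 ≤ κ := by linarith
  have sR : 1 ≤ √R := by rw [Real.one_le_sqrt]; exact hR
  refine ⟨κ, hR, hL, hκ, hK, hsK, hκ12, by linarith, hbig, ?_, ?_, ?_, hB, hM, sR, ?_⟩
  · have := mul_le_mul_of_nonneg_right hκ12 hκ.le
    linarith
  · have := mul_le_mul_of_nonneg_right hκ12 (pow_nonneg hκ.le 2)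
    linarith
  · have := mul_le_mul_of_nonneg_right hκ12 (pow_nonneg hκ.le 3)
    linarith
  · rw [Real.sqrt_le_left (by linarith)]
    nlinarith

namespace E2_P

variable {K R κ : ℝ} {L M B : ℕ}

theorem K0 (P : E2_P K R κ L M B) : 0 < K := by
  rw [P.hK]
  exact pow_pos P.hκ 4

theorem κK (P : E2_P K R κ L M B) : 10 ^ 30 * κ ≤ K := by
  have h2 := P.p2
  have h3 := P.p3
  have h4 := P.p4
  have h5 := P.hκ
  rw [P.hK]
  linarith

theorem κ1 (P : E2_P K R κ L M B) : 1 ≤ κ := by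
  have := P.κ12
  linarith

theorem K1 (P : E2_P K R κ L M B) : 1 ≤ K := by
  have := P.κK
  have := P.κ1
  linarith

theorem B0 (_P : E2_P K R κ L M B) : (0 : ℝ) ≤ B := Nat.cast_nonneg B

theorem Bκ (P : E2_P K R κ L M B) : (B : ℝ) ≤ κ ^ 3 / 1000 := by
  have h1 := mul_le_mul_of_nonneg_right P.sR P.B0
  have := P.hB
  linarith

theorem BK (P : E2_P K R κ L M B) : (B : ℝ) ≤ K / 10 ^ 9 := by
  have h1 := P.Bκ
  have h2 := P.p4
  have h3 : 0 < κ ^ 3 := pow_pos P.hκ 3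
  rw [P.hK]
  linarith

/-- `s = κ² / √R` -/
theorem s2 (P : E2_P K R κ L M B) : (κ ^ 2 / √R) ^ 2 = K / R := by
  have h1 := P.hR
  rw [div_pow, Real.sq_sqrt (by linarith), P.hK]
  ring

theorem s0 (P : E2_P K R κ L M B) : 0 < κ ^ 2 / √R := by
  have h1 := P.sR
  have h2 := P.hκ
  positivity

theorem Bs (P : E2_P K R κ L M B) : (B : ℝ) / √K ≤ κ ^ 2 / √R / 10 ^ 9 := by
  have h1 := P.sR
  have h2 := P.hκ
  have h3 := P.hB
  have h4 := P.p4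
  have h5 : 0 < κ ^ 3 := pow_pos P.hκ 3
  rw [P.hsK, div_le_div_iff₀ (by positivity) (by norm_num), div_mul_eq_mul_div, le_div_iff₀ (by positivity)]
  have h6 : κ ^ 2 * κ ^ 2 = κ ^ 4 := by ring
  rw [h6]
  linarith

theorem Ls (P : E2_P K R κ L M B) : (L : ℝ) ≤ K / R / 10 ^ 9 := by
  have h1 := P.hR
  have h2 := P.LRκ
  have h3 := P.κK
  have h4 := P.hκ
  rw [le_div_iff₀ (by norm_num), le_div_iff₀ (by linarith)]
  linarith

theorem BR (P : E2_P K R κ L M B) : (B : ℝ) ≤ 1 / 10 * (K / √R) := by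
  have h1 := P.sR
  have h3 := P.hB
  have h4 := P.p4
  have h5 : 0 < κ ^ 3 := pow_pos P.hκ 3
  rw [← mul_div_assoc, le_div_iff₀ (by linarith), P.hK]
  linarith

theorem Mpos (P : E2_P K R κ L M B) : 0 < (M : ℝ) := by
  by_contra hc
  push Not at hc
  have h1 := P.hL
  have h2 := P.hM
  have h3 := P.hκ
  have : (L : ℝ) * M ≤ 0 := mul_nonpos_of_nonneg_of_nonpos (by linarith) hc
  linarith

theorem M10 (P : E2_P K R κ L M B) : 1 / (M : ℝ) ≤ 1 / 100 := by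
  apply one_div_le_one_div_of_le (by norm_num)
  by_contra hc
  push Not at hc
  have h1 := P.hL
  have h2 := P.hM
  have h3 := P.LRκ
  have h4 : (L : ℝ) * M < L * 100 := mul_lt_mul_of_pos_left hc (by linarith)
  have h5 : (L : ℝ) * 1 ≤ L * R := mul_le_mul_of_nonneg_left P.hR (by linarith)
  have h6 := P.hκ
  linarith

theorem E1 (P : E2_P K R κ L M B) : 1 ≤ 10 * (L : ℝ) * √R := by
  have h1 : 1 ≤ (L : ℝ) * √R := one_le_mul_of_one_le_of_one_le P.hL P.sR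
  linarith

theorem Eκ (P : E2_P K R κ L M B) : 10 * (L : ℝ) * √R ≤ κ / 10 ^ 10 := by
  have h1 := P.hL
  have h2 : (L : ℝ) * √R ≤ L * R := mul_le_mul_of_nonneg_left P.sR2 (by linarith)
  have h3 := P.LRκ
  have h5 := P.hκ
  linarith

theorem EK (P : E2_P K R κ L M B) : 10 * (L : ℝ) * √R ≤ K / 10 := by
  have h1 := P.Eκ
  have h2 := P.κK
  have h3 := P.hκ
  linarith

theorem d3 (P : E2_P K R κ L M B) : 20 * ((10 * (L : ℝ) * √R) ^ 2 / K) ≤ 1 / 100 := by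
  have h1 := P.Eκ
  have h0 := P.E1
  have h4 := P.hκ
  have h5 : 10 * (L : ℝ) * √R ≤ κ := by linarith
  have h6 : (10 * (L : ℝ) * √R) ^ 2 ≤ κ ^ 2 := pow_le_pow_left₀ (by linarith) h5 2
  have h7 : (10 * (L : ℝ) * √R) ^ 2 / K ≤ 1 / 2000 := by
    rw [div_le_iff₀ P.K0, P.hK]
    have h2 := P.p2
    have h3 := P.p3
    have h4 := P.p4
    linarith
  linarith

end E2_P

theorem E2_sqrt_near {K R κ a b : ℝ} {L M B : ℕ} (P : E2_P K R κ L M B) (ha : K / 4 ≤ a) (hb : K / 4 ≤ b)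
    (hab : |a - b| ≤ B) : |√a - √b| ≤ κ ^ 2 / √R / 10 ^ 9 :=
  (E2_sqrt P.K0 ha hb).trans ((div_le_div_of_nonneg_right hab (Real.sqrt_nonneg K)).trans P.Bs)

/-- the geometry of a pair `u < v` with `K/2R ≤ x0 - θ ≤ 3K/R` -/
structure E2_G (K R κ : ℝ) (k2 k3 : ℝ) : Prop where
  q3 : 7 / 10 * (κ ^ 2 / √R) ≤ √k3 - √k2
  q4 : √k3 - √k2 ≤ 175 / 100 * (κ ^ 2 / √R)
  k3K : k3 ≤ 106 / 10 * K
  gap0 : 14 / 10 * (K / √R) ≤ k3 - k2

theorem E2_geo {K R Lam κ : ℝ} {L M B : ℕ} {W : ℝ → ℝ → ℝ → ℂ} (P : E2_P K R κ L M B) (hW : Wt K R L Lam W)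
    {k1 k2 k3 : ℝ} (h1 : K ≤ k2) (h2 : k2 ≤ 2 * K) (hW1 : W (x0 k2 k3 - k1) k2 k3 ≠ 0) : E2_G K R κ k2 k3 := by
  obtain ⟨w1, w2, w3, w4, w5⟩ := hW.th _ _ _ hW1
  have hK0 := P.K0
  have hR0 : 0 < R := by linarith [P.hR]
  have hLs := P.Ls
  have hL := P.hL
  obtain ⟨s, hs⟩ : ∃ s : ℝ, s = κ ^ 2 / √R := ⟨_, rfl⟩
  have hs0 : 0 < s := by rw [hs]; exact P.s0
  have hs2 : s ^ 2 = K / R := by rw [hs]; exact P.s2
  have hk20 : 0 ≤ k2 := by linarith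
  have hk30 : 0 ≤ k3 := by linarith
  have hd : 0 ≤ √k3 - √k2 := by
    have := Real.sqrt_le_sqrt w3.le
    linarith
  have hx0 : x0 k2 k3 = (√k3 - √k2) ^ 2 := rfl
  have hKR : 0 < K / R := by positivity
  have q1 : (7 / 10 * s) ^ 2 ≤ (√k3 - √k2) ^ 2 := by
    rw [← hx0, mul_pow, hs2]
    have : K / (2 * R) = 1 / 2 * (K / R) := by field_simp
    rw [this] at w4
    linarith
  have q2 : (√k3 - √k2) ^ 2 ≤ (175 / 100 * s) ^ 2 := by
    rw [← hx0, mul_pow, hs2]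
    have : 3 * K / R = 3 * (K / R) := by ring
    rw [this] at w5
    linarith
  have q3 : 7 / 10 * s ≤ √k3 - √k2 := (pow_le_pow_iff_left₀ (by positivity) hd (by norm_num)).1 q1
  have q4 : √k3 - √k2 ≤ 175 / 100 * s := (pow_le_pow_iff_left₀ hd (by positivity) (by norm_num)).1 q2
  have hsk2 : √k2 ^ 2 = k2 := Real.sq_sqrt hk20
  have hsk3 : √k3 ^ 2 = k3 := Real.sq_sqrt hk30
  have hsleK : s ≤ √K := by
    rw [hs, P.hsK]
    exact div_le_self (by positivity) P.sR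
  have hsK0 : 0 < √K := Real.sqrt_pos.2 hK0
  have hk2s : √k2 ≤ 15 / 10 * √K := by
    rw [Real.sqrt_le_left (by positivity), mul_pow, Real.sq_sqrt hK0.le]
    linarith
  have hk2s' : √K ≤ √k2 := Real.sqrt_le_sqrt h1
  have hk3s : √k3 ≤ 325 / 100 * √K := by linarith
  have hk3K : k3 ≤ 106 / 10 * K := by
    rw [← hsk3]
    have h5 : √k3 ^ 2 ≤ (325 / 100 * √K) ^ 2 := pow_le_pow_left₀ (Real.sqrt_nonneg _) hk3s 2
    rw [mul_pow, Real.sq_sqrt hK0.le] at h5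
    linarith
  have gap0 : 14 / 10 * (K / √R) ≤ k3 - k2 := by
    have e1 : k3 - k2 = (√k3 - √k2) * (√k3 + √k2) := by linear_combination -hsk3 + hsk2
    rw [e1]
    have e2 : √K * s = K / √R := by
      rw [hs, P.hsK, P.hK]; ring
    have e3 : 2 * √K ≤ √k3 + √k2 := by linarith
    calc 14 / 10 * (K / √R) = (7 / 10 * s) * (2 * √K) := by rw [← e2]; ring
      _ ≤ _ := mul_le_mul q3 e3 (by positivity) hd
  exact ⟨by rw [← hs]; exact q3, by rw [← hs]; exact q4, hk3K, gap0⟩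

theorem E2_xt_near {K R κ : ℝ} {L M B : ℕ} (P : E2_P K R κ L M B) {e2 e3 u v u' v' : ℝ}
    (he2 : |e2| ≤ 10 * L * √R) (he3 : |e3| ≤ L)
    (hu : K / 3 ≤ u) (hu1 : u ≤ 25 * K) (hv : K / 3 ≤ v) (hv1 : v ≤ 25 * K) (hu' : K / 3 ≤ u') (hu1' : u' ≤ 25 * K)
    (hv' : K / 3 ≤ v') (hv1' : v' ≤ 25 * K) (h1 : |u - u'| ≤ B) (h2 : |v - v'| ≤ B) :
    |xt e2 e3 u v - xt e2 e3 u' v'| ≤ 600 * (L * (√R * B) / K) := by
  have hL := P.hL
  have hsR := P.sR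
  have he3' : |e3| ≤ 10 * L * √R := he3.trans (by nlinarith)
  refine (xt_lip P.K1 P.E1 hu hu1 hv hv1 hu' hu1' hv' hv1' he2 he3').trans ?_
  have hK0 := P.K0
  have h3 : 10 * L * √R * (|u - u'| + |v - v'|) ≤ 20 * (L * (√R * B)) := by
    have h4 : 10 * (L : ℝ) * √R * (|u - u'| + |v - v'|) ≤ 10 * L * √R * (2 * B) :=
      mul_le_mul_of_nonneg_left (by linarith) (by positivity)
    linarith
  have h4 : 10 * L * √R * (|u - u'| + |v - v'|) / K ≤ 20 * (L * (√R * B)) / K :=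
    div_le_div_of_nonneg_right h3 hK0.le
  have h5 : 20 * (L * (√R * B)) / K = 20 * (L * (√R * B) / K) := by ring
  linarith

/-- `L √R B / K ≤ 10^{-15} / (L R)` -/
theorem E2_small {K R κ : ℝ} {L M B : ℕ} (P : E2_P K R κ L M B) :
    L * (√R * B) / K * (L * R) ≤ 1 / 10 ^ 15 := by
  have hK0 := P.K0
  have hL := P.hL
  have hR := P.hR
  have hB := P.hB
  have h1 : (L : ℝ) * (√R * B) * (L * R) ≤ κ / 10 ^ 12 * (κ ^ 3 / 1000) := by
    have e1 : (L : ℝ) * (√R * B) * (L * R) = (L * (L * R)) * (√R * B) := by ring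
    rw [e1]
    have h2 : (L : ℝ) * (L * R) ≤ κ / 10 ^ 12 := by
      have h3 := P.LR2κ
      have h4 : (L : ℝ) * (L * R) ≤ (L * R) ^ 2 := by
        rw [sq]
        apply mul_le_mul_of_nonneg_right _ (by positivity)
        exact le_mul_of_one_le_right (by linarith) hR
      linarith
    exact mul_le_mul h2 hB (by have := P.B0; positivity) (by have := P.hκ; positivity)
  rw [div_mul_eq_mul_div, div_le_iff₀ hK0, P.hK]
  have h2 : κ / 10 ^ 12 * (κ ^ 3 / 1000) = 1 / 10 ^ 15 * κ ^ 4 := by ring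
  linarith

/-- all the facts on the base point of a cell -/
structure E2_B (K R κ : ℝ) (L M B : ℕ) (e2 e3 θ₀ u₀ v₀ : ℝ) : Prop where
  u1 : 9 / 10 * K ≤ u₀
  u2 : u₀ ≤ 2 * K
  e1 : 9 / 10 * K ≤ u₀ + e2
  e2' : u₀ + e2 ≤ 2 * K
  gap : K / √R ≤ v₀ - u₀
  v2 : v₀ ≤ 11 * K
  s1 : 69 / 100 * (κ ^ 2 / √R) ≤ √v₀ - √u₀
  s2 : √v₀ - √u₀ ≤ 18 / 10 * (κ ^ 2 / √R)
  t1 : (L : ℝ) - 1 / 10 ≤ θ₀
  t2 : θ₀ ≤ 4 * L + 1 / 10
  x1 : (L : ℝ) - 1 / 5 ≤ θ₀ + xt e2 e3 u₀ v₀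
  x2 : θ₀ + xt e2 e3 u₀ v₀ ≤ 4 * L + 1 / 5

theorem E2_base {K R Lam κ : ℝ} {L M B : ℕ} {W : ℝ → ℝ → ℝ → ℂ} (P : E2_P K R κ L M B) (hW : Wt K R L Lam W)
    {e2 e3 k1 k2 k3 θ₀ u₀ v₀ : ℝ} (he2 : |e2| ≤ 10 * L * √R) (he3 : |e3| ≤ L)
    (h1 : K ≤ k2) (h2 : k2 ≤ 2 * K) (h3 : K ≤ k2 + e2) (h4 : k2 + e2 ≤ 2 * K)
    (hW1 : W (x0 k2 k3 - k1) k2 k3 ≠ 0) (hW2 : W (x0 (k2 + e2) (k3 + e3) - k1) (k2 + e2) (k3 + e3) ≠ 0)
    (hu1 : u₀ ≤ k2) (hu2 : k2 ≤ u₀ + B) (hv1 : v₀ ≤ k3) (hv2 : k3 ≤ v₀ + B)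
    (hθ : |M * (x0 k2 k3 - k1) - M * θ₀| ≤ 1) :
    E2_B K R κ L M B e2 e3 θ₀ u₀ v₀ := by
  obtain ⟨w1, w2, w3, w4, w5⟩ := hW.th _ _ _ hW1
  obtain ⟨z1, z2, z3, z4, z5⟩ := hW.th _ _ _ hW2
  obtain ⟨q3, q4, hk3K, gap0⟩ := E2_geo P hW h1 h2 hW1
  have hK0 := P.K0
  have hL := P.hL
  have hBK := P.BK
  have hBR := P.BR
  have hsR := P.sR
  have hKR0 : 0 < K / √R := by positivity
  have hB0 := P.B0
  have ab1 : |k2 - u₀| ≤ B := by rw [abs_le]; constructor <;> linarith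
  have ab2 : |k3 - v₀| ≤ B := by rw [abs_le]; constructor <;> linarith
  have hu0 : 9 / 10 * K ≤ u₀ := by linarith
  have hv0 : 9 / 10 * K ≤ v₀ := by linarith
  have c1 := E2_sqrt_near P (by linarith) (by linarith) ab2
  have c2 := E2_sqrt_near P (by linarith) (by linarith) ab1
  rw [abs_le] at c1 c2
  have hs0 := P.s0
  have hMpos := P.Mpos
  have hθ' : |x0 k2 k3 - k1 - θ₀| ≤ 1 / 100 := by
    refine le_trans ?_ P.M10
    rw [le_div_iff₀ hMpos]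
    calc |x0 k2 k3 - k1 - θ₀| * M = |M * (x0 k2 k3 - k1) - M * θ₀| := by
          rw [← mul_sub, abs_mul, abs_of_pos hMpos]; ring
      _ ≤ 1 := hθ
  rw [abs_le] at hθ'
  have he3' : |e3| ≤ 10 * L * √R := he3.trans (by nlinarith)
  have d1 := xt_approx (u := k2) (v := k3) P.K1 P.E1 P.EK
    (by linarith) (by linarith) (by linarith) (by linarith) he2 he3'
  have d2 := E2_xt_near P he2 he3 (u := k2) (v := k3) (u' := u₀)
    (v' := v₀) (by linarith) (by linarith) (by linarith) (by linarith) (by linarith) (by linarith) (by linarith)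
    (by linarith) ab1 ab2
  have d3 := P.d3
  have d4 : L * (√R * B) / K ≤ 1 / 10 ^ 15 := by
    refine le_trans ?_ (E2_small P)
    apply le_mul_of_one_le_right (by positivity)
    exact one_le_mul_of_one_le_of_one_le hL P.hR
  have d5 : |xt e2 e3 k2 k3 - xt e2 e3 u₀ v₀| ≤ 1 / 100 := d2.trans (by linarith)
  have d6 := d1.trans d3
  rw [abs_le] at d5 d6
  exact
    { u1 := hu0
      u2 := by linarith
      e1 := by linarith
      e2' := by linarith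
      gap := by linarith
      v2 := by linarith
      s1 := by linarith
      s2 := by linarith
      t1 := by linarith
      t2 := by linarith
      x1 := by linarith
      x2 := by linarith }

/-- all the facts on a point of a cell -/
structure E2_K (K R : ℝ) (L M : ℕ) (θ₀ k1 k2 k3 : ℝ) : Prop where
  a1 : 8 / 10 * K ≤ k2
  a2 : k2 ≤ 21 / 10 * K
  gap : 8 / 10 * (K / √R) ≤ k3 - k2
  a3 : k3 ≤ 12 * K
  y1 : K / (4 * R) ≤ x0 k2 k3
  y2 : x0 k2 k3 ≤ 4 * K / R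
  t1 : (L : ℝ) / 2 ≤ x0 k2 k3 - k1
  t2 : x0 k2 k3 - k1 ≤ 6 * L
  k0 : 0 ≤ k1
  k25 : k1 ≤ 25 * K
  θ : |x0 k2 k3 - k1 - θ₀| ≤ 1 / M

theorem E2_pt {K R κ : ℝ} {L M B : ℕ} (P : E2_P K R κ L M B) {e2 e3 k1 k2 k3 θ₀ u₀ v₀ : ℝ}
    (b : E2_B K R κ L M B e2 e3 θ₀ u₀ v₀)
    (hu1 : u₀ ≤ k2) (hu2 : k2 ≤ u₀ + B) (hv1 : v₀ ≤ k3) (hv2 : k3 ≤ v₀ + B)
    (hθ : |M * (x0 k2 k3 - k1) - M * θ₀| ≤ 1) : E2_K K R L M θ₀ k1 k2 k3 := by
  obtain ⟨b1, b2, b3, b4, b5, b6, b7, b8, b9, b10, b11, b12⟩ := b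
  have hK0 := P.K0
  have hL := P.hL
  have hBK := P.BK
  have hBR := P.BR
  have hR := P.hR
  have hsR := P.sR
  have hKR0 : 0 < K / √R := by positivity
  have hKR : 0 < K / R := by positivity
  have hB0 := P.B0
  have ab1 : |k2 - u₀| ≤ B := by rw [abs_le]; constructor <;> linarith
  have ab2 : |k3 - v₀| ≤ B := by rw [abs_le]; constructor <;> linarith
  have c1 := E2_sqrt_near P (by linarith) (by linarith) ab2
  have c2 := E2_sqrt_near P (by linarith) (by linarith) ab1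
  rw [abs_le] at c1 c2
  have hs0 := P.s0
  have hs2 := P.s2
  obtain ⟨s, hs⟩ : ∃ s : ℝ, s = κ ^ 2 / √R := ⟨_, rfl⟩
  rw [← hs] at hs0 hs2 c1 c2 b7 b8
  have hd1 : 68 / 100 * s ≤ √k3 - √k2 := by linarith
  have hd2 : √k3 - √k2 ≤ 185 / 100 * s := by linarith
  have hx0 : x0 k2 k3 = (√k3 - √k2) ^ 2 := rfl
  have hx1 : 4624 / 10000 * (K / R) ≤ x0 k2 k3 := by
    have := pow_le_pow_left₀ (by positivity) hd1 2
    rw [mul_pow, hs2] at this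
    rw [hx0]
    linarith
  have hx2 : x0 k2 k3 ≤ 34225 / 10000 * (K / R) := by
    have := pow_le_pow_left₀ (by linarith) hd2 2
    rw [mul_pow, hs2] at this
    rw [hx0]
    linarith
  have hMpos := P.Mpos
  have hθ' : |x0 k2 k3 - k1 - θ₀| ≤ 1 / M := by
    rw [le_div_iff₀ hMpos]
    calc |x0 k2 k3 - k1 - θ₀| * M = |M * (x0 k2 k3 - k1) - M * θ₀| := by
          rw [← mul_sub, abs_mul, abs_of_pos hMpos]; ring
      _ ≤ 1 := hθ
  have hθ2 := hθ'.trans P.M10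
  rw [abs_le] at hθ2
  have hLs := P.Ls
  have hKRK : K / R ≤ K := div_le_self hK0.le hR
  exact
    { a1 := by linarith
      a2 := by linarith
      gap := by linarith
      a3 := by linarith
      y1 := by
        have : K / (4 * R) = 1 / 4 * (K / R) := by field_simp
        rw [this]
        linarith
      y2 := by
        have : 4 * K / R = 4 * (K / R) := by ring
        rw [this]
        linarith
      t1 := by linarith
      t2 := by linarith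
      k0 := by linarith
      k25 := by linarith
      θ := hθ' }

theorem E2_shift {K R κ : ℝ} {L M B : ℕ} (P : E2_P K R κ L M B) {e2 e3 : ℝ}
    (he2 : |e2| ≤ 10 * L * √R) (he3 : |e3| ≤ L) : |e2| + |e3| ≤ 1 / 10 * (K / √R) := by
  have hE := P.Eκ
  have hL := P.hL
  have hsR := P.sR
  have hR := P.hR
  have hsR2 := P.sR2
  have hK0 := P.K0
  have h1 : (L : ℝ) ≤ 10 * L * √R := by nlinarith
  have h2 : |e2| + |e3| ≤ 2 * (10 * L * √R) := by linarith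
  refine h2.trans ?_
  rw [← mul_div_assoc, le_div_iff₀ (by linarith)]
  have h3 : 2 * (10 * L * √R) * √R = 20 * (L * R) := by
    have : √R * √R = R := Real.mul_self_sqrt (by linarith)
    calc 2 * (10 * L * √R) * √R = 20 * L * (√R * √R) := by ring
      _ = _ := by rw [this]; ring
  rw [h3]
  have h4 := P.LRκ
  have h5 := P.κK
  have h6 := P.hκ
  linarith

theorem E2_wt {K R Lam κ : ℝ} {L M B : ℕ} {W : ℝ → ℝ → ℝ → ℂ} (P : E2_P K R κ L M B) (hLam : 1 ≤ Lam)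
    (hW : Wt K R L Lam W) {e2 e3 k1 k2 k3 θ₀ u₀ v₀ : ℝ} (he2 : |e2| ≤ 10 * L * √R) (he3 : |e3| ≤ L)
    (b : E2_B K R κ L M B e2 e3 θ₀ u₀ v₀)
    (hu1 : u₀ ≤ k2) (hu2 : k2 ≤ u₀ + B) (hv1 : v₀ ≤ k3) (hv2 : k3 ≤ v₀ + B)
    (hθ : |M * (x0 k2 k3 - k1) - M * θ₀| ≤ 1)
    (h3 : K ≤ k2 + e2) (h4 : k2 + e2 ≤ 2 * K) :
    ‖W (x0 k2 k3 - k1) k2 k3 * (starRingEnd ℂ) (W (x0 (k2 + e2) (k3 + e3) - k1) (k2 + e2) (k3 + e3)) -
      W θ₀ u₀ v₀ * (starRingEnd ℂ) (W (x0 (u₀ + e2) (v₀ + e3) - x0 u₀ v₀ + θ₀) (u₀ + e2) (v₀ + e3))‖ ≤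
      Lam * (2 / (M * L) + 1204 * (√R * B / K)) := by
  have p := E2_pt P b hu1 hu2 hv1 hv2 hθ
  obtain ⟨b1, b2, b3, b4, b5, b6, b7, b8, b9, b10, b11, b12⟩ := b
  obtain ⟨p1, p2, p3, p4, p5, p6, p7, p8, p9, p10, p11⟩ := p
  have hK0 := P.K0
  have hL := P.hL
  have hR := P.hR
  have hsR := P.sR
  have hMpos := P.Mpos
  have hKR0 : 0 < K / √R := by positivity
  have hB0 := P.B0
  have hsh := E2_shift P he2 he3
  have hae2 := abs_le.1 (le_refl |e2|)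
  have hae3 := abs_le.1 (le_refl |e3|)
  have hsRK : K / √R ≤ K := div_le_self hK0.le hsR
  have a20 := abs_nonneg e2
  have a30 := abs_nonneg e3
  have ab1 : |k2 - u₀| ≤ B := by rw [abs_le]; constructor <;> linarith
  have ab2 : |k3 - v₀| ≤ B := by rw [abs_le]; constructor <;> linarith
  have he3' : |e3| ≤ 10 * L * √R := he3.trans (by nlinarith)
  -- first weight
  have f1 := hW.lip (x0 k2 k3 - k1) θ₀ k2 u₀ k3 v₀ (by linarith) (by linarith) (by linarith) (by linarith)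
    (by linarith) (by linarith) (by linarith) (by linarith)
  have f2 := hW.lip (x0 (k2 + e2) (k3 + e3) - k1) (x0 (u₀ + e2) (v₀ + e3) - x0 u₀ v₀ + θ₀) (k2 + e2) (u₀ + e2)
    (k3 + e3) (v₀ + e3) (by linarith) (by linarith) (by linarith) (by linarith)
    (by linarith) (by linarith) (by linarith) (by linarith)
  have g1 : √R * (|k2 - u₀| + |k3 - v₀|) / K ≤ 2 * (√R * B / K) := by
    have : √R * (|k2 - u₀| + |k3 - v₀|) ≤ √R * (2 * B) := mul_le_mul_of_nonneg_left (by linarith) (by linarith)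
    have h5 := div_le_div_of_nonneg_right this hK0.le
    have h6 : √R * (2 * B) / K = 2 * (√R * B / K) := by ring
    linarith
  have g2 : √R * (|k2 + e2 - (u₀ + e2)| + |k3 + e3 - (v₀ + e3)|) / K ≤ 2 * (√R * B / K) := by
    rw [show k2 + e2 - (u₀ + e2) = k2 - u₀ by ring, show k3 + e3 - (v₀ + e3) = k3 - v₀ by ring]
    exact g1
  have g3 : |x0 k2 k3 - k1 - θ₀| / L ≤ 1 / (M * L) := by
    rw [← div_div]
    exact div_le_div_of_nonneg_right p11 (by linarith)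
  have g4 := dx_lip (u := k2) (v := k3) (u' := u₀) (v' := v₀) P.K1 P.E1 P.EK (by linarith) (by linarith)
    (by linarith) (by linarith) (by linarith) (by linarith) (by linarith) (by linarith) he2 he3'
  have g5 : |(x0 (k2 + e2) (k3 + e3) - x0 k2 k3) - (x0 (u₀ + e2) (v₀ + e3) - x0 u₀ v₀)| ≤ 1200 * (L * (√R * B / K)) := by
    refine g4.trans ?_
    have h5 : 10 * L * √R * (|k2 - u₀| + |k3 - v₀|) ≤ 10 * L * √R * (2 * B) :=
      mul_le_mul_of_nonneg_left (by linarith) (by positivity)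
    have h6 := div_le_div_of_nonneg_right h5 hK0.le
    have h7 : 10 * L * √R * (2 * B) / K = 20 * (L * (√R * B / K)) := by ring
    linarith
  have g6 : |x0 (k2 + e2) (k3 + e3) - k1 - (x0 (u₀ + e2) (v₀ + e3) - x0 u₀ v₀ + θ₀)| / L ≤
      1 / (M * L) + 1200 * (√R * B / K) := by
    have h5 : |x0 (k2 + e2) (k3 + e3) - k1 - (x0 (u₀ + e2) (v₀ + e3) - x0 u₀ v₀ + θ₀)| ≤
        1 / M + 1200 * (L * (√R * B / K)) := by
      calc |x0 (k2 + e2) (k3 + e3) - k1 - (x0 (u₀ + e2) (v₀ + e3) - x0 u₀ v₀ + θ₀)| =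
          |(x0 k2 k3 - k1 - θ₀) + ((x0 (k2 + e2) (k3 + e3) - x0 k2 k3) - (x0 (u₀ + e2) (v₀ + e3) - x0 u₀ v₀))| := by
            congr 1; ring
        _ ≤ _ := (abs_add_le _ _).trans (add_le_add p11 g5)
    have h6 := div_le_div_of_nonneg_right h5 (by linarith : (0 : ℝ) ≤ L)
    refine h6.trans (le_of_eq ?_)
    field_simp
  -- combine
  have n1 := hW.bd (x0 (k2 + e2) (k3 + e3) - k1) (k2 + e2) (k3 + e3)
  have n2 := hW.bd θ₀ u₀ v₀
  have hLam0 : 0 ≤ Lam := by linarith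
  have f1' : ‖W (x0 k2 k3 - k1) k2 k3 - W θ₀ u₀ v₀‖ ≤ Lam * (1 / (M * L) + 2 * (√R * B / K)) :=
    f1.trans (mul_le_mul_of_nonneg_left (add_le_add g3 g1) hLam0)
  have f2' : ‖W (x0 (k2 + e2) (k3 + e3) - k1) (k2 + e2) (k3 + e3) -
      W (x0 (u₀ + e2) (v₀ + e3) - x0 u₀ v₀ + θ₀) (u₀ + e2) (v₀ + e3)‖ ≤
      Lam * (1 / (M * L) + 1200 * (√R * B / K) + 2 * (√R * B / K)) :=
    f2.trans (mul_le_mul_of_nonneg_left (add_le_add g6 g2) hLam0)
  set w1 := W (x0 k2 k3 - k1) k2 k3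
  set w1' := W (x0 (k2 + e2) (k3 + e3) - k1) (k2 + e2) (k3 + e3)
  set w2 := W θ₀ u₀ v₀
  set w2' := W (x0 (u₀ + e2) (v₀ + e3) - x0 u₀ v₀ + θ₀) (u₀ + e2) (v₀ + e3)
  have e1 : w1 * (starRingEnd ℂ) w1' - w2 * (starRingEnd ℂ) w2' =
      (w1 - w2) * (starRingEnd ℂ) w1' + w2 * (starRingEnd ℂ) (w1' - w2') := by
    rw [map_sub]; ring
  rw [e1]
  refine (norm_add_le _ _).trans ?_
  rw [norm_mul, norm_mul, RCLike.norm_conj, RCLike.norm_conj]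
  have h5 : ‖w1 - w2‖ * ‖w1'‖ ≤ Lam * (1 / (M * L) + 2 * (√R * B / K)) :=
    (mul_le_of_le_one_right (norm_nonneg _) n1).trans f1'
  have h6 : ‖w2‖ * ‖w1' - w2'‖ ≤ Lam * (1 / (M * L) + 1200 * (√R * B / K) + 2 * (√R * B / K)) :=
    (mul_le_of_le_one_left (norm_nonneg _) n2).trans f2'
  refine (add_le_add h5 h6).trans (le_of_eq ?_)
  ring

/-! ### sums -/

noncomputable def E2_t (M B : ℕ) (z k : ℤ × ℤ × ℤ) : ℝ :=
  tent (M * (x0 k.2.1 k.2.2 - k.1) - z.1) *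
    ((if z.2.1 = k.2.1 / (B : ℤ) then 1 else 0) * (if z.2.2 = k.2.2 / (B : ℤ) then 1 else 0))

theorem E2_t_nonneg (M B : ℕ) (z k : ℤ × ℤ × ℤ) : 0 ≤ E2_t M B z k := by
  unfold E2_t
  apply mul_nonneg (tent_nonneg _)
  split_ifs <;> norm_num

theorem E2_t_ne {M B : ℕ} {z k : ℤ × ℤ × ℤ} (h : E2_t M B z k ≠ 0) :
    tent (M * (x0 k.2.1 k.2.2 - k.1) - z.1) ≠ 0 ∧ z.2.1 = k.2.1 / (B : ℤ) ∧ z.2.2 = k.2.2 / (B : ℤ) := by
  unfold E2_t at h
  refine ⟨left_ne_zero_of_mul h, ?_, ?_⟩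
  · by_contra hc
    apply h
    rw [if_neg hc]
    ring
  · by_contra hc
    apply h
    rw [if_neg hc]
    ring

theorem E2_ite (S2 S3 : Finset ℤ) (a b : ℤ) :
    (∑ x ∈ S2, ∑ y ∈ S3, (if x = a then (1 : ℝ) else 0) * (if y = b then 1 else 0)) =
    (if a ∈ S2 then 1 else 0) * (if b ∈ S3 then 1 else 0) := by
  rw [← Finset.sum_mul_sum, Finset.sum_ite_eq', Finset.sum_ite_eq']

theorem E2_t_sum (M B : ℕ) (S1 S2 S3 : Finset ℤ) (k : ℤ × ℤ × ℤ) :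
    ∑ z ∈ S1 ×ˢ S2 ×ˢ S3, E2_t M B z k = (∑ c ∈ S1, tent (M * (x0 k.2.1 k.2.2 - k.1) - c)) *
      ((if k.2.1 / (B : ℤ) ∈ S2 then 1 else 0) * (if k.2.2 / (B : ℤ) ∈ S3 then 1 else 0)) := by
  unfold E2_t
  rw [Finset.sum_product, Finset.sum_mul]
  refine Finset.sum_congr rfl (fun c _ => ?_)
  dsimp only
  rw [← Finset.mul_sum, Finset.sum_product]
  rw [E2_ite]

theorem E2_t_sum_le (M B : ℕ) (S1 S2 S3 : Finset ℤ) (A : Finset (ℤ × ℤ × ℤ)) (hA : A ⊆ S1 ×ˢ S2 ×ˢ S3)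
    (k : ℤ × ℤ × ℤ) : ∑ z ∈ A, E2_t M B z k ≤ 1 := by
  refine (Finset.sum_le_sum_of_subset_of_nonneg hA (fun z _ _ => E2_t_nonneg M B z k)).trans ?_
  rw [E2_t_sum]
  have h1 := E2_tent_sum_le (M * (x0 k.2.1 k.2.2 - k.1)) S1
  have h2 : (0 : ℝ) ≤ ((if k.2.1 / (B : ℤ) ∈ S2 then 1 else 0) * (if k.2.2 / (B : ℤ) ∈ S3 then 1 else 0)) := by
    split_ifs <;> norm_num
  have h3 : ((if k.2.1 / (B : ℤ) ∈ S2 then 1 else 0) * (if k.2.2 / (B : ℤ) ∈ S3 then 1 else 0) : ℝ) ≤ 1 := by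
    split_ifs <;> norm_num
  calc (∑ c ∈ S1, tent (M * (x0 k.2.1 k.2.2 - k.1) - c)) *
      ((if k.2.1 / (B : ℤ) ∈ S2 then 1 else 0) * (if k.2.2 / (B : ℤ) ∈ S3 then 1 else 0)) ≤
      1 * ((if k.2.1 / (B : ℤ) ∈ S2 then 1 else 0) * (if k.2.2 / (B : ℤ) ∈ S3 then 1 else 0)) :=
        mul_le_mul_of_nonneg_right h1 h2
    _ ≤ 1 := by rw [one_mul]; exact h3

/-- double counting -/
theorem E2_comb (M B : ℕ) (S1 S2 S3 : Finset ℤ) (A Z : Finset (ℤ × ℤ × ℤ)) (hA : A ⊆ S1 ×ˢ S2 ×ˢ S3)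
    (b : ℤ × ℤ × ℤ → ℝ) (hb0 : ∀ k, 0 ≤ b k) (hb1 : ∀ k, b k ≤ 1) (S : Finset (ℤ × ℤ × ℤ))
    (hS : ∀ z ∈ A, ∀ k ∈ Z, E2_t M B z k ≠ 0 → b k ≠ 0 → k ∈ S) :
    ∑ z ∈ A, ∑ k ∈ Z, E2_t M B z k * b k ≤ S.card := by
  classical
  rw [Finset.sum_comm]
  calc ∑ k ∈ Z, ∑ z ∈ A, E2_t M B z k * b k ≤ ∑ k ∈ Z, (if k ∈ S then (1 : ℝ) else 0) := by
        apply Finset.sum_le_sum
        intro k hk
        by_cases hkS : k ∈ S
        · rw [if_pos hkS, ← Finset.sum_mul]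
          calc (∑ z ∈ A, E2_t M B z k) * b k ≤ 1 * 1 :=
                mul_le_mul (E2_t_sum_le M B S1 S2 S3 A hA k) (hb1 k) (hb0 k) zero_le_one
            _ = 1 := one_mul 1
        · rw [if_neg hkS]
          apply le_of_eq
          apply Finset.sum_eq_zero
          intro z hz
          by_contra hc
          exact hkS (hS z hz k hk (left_ne_zero_of_mul hc) (right_ne_zero_of_mul hc))
    _ = ((Z.filter (fun k => k ∈ S)).card : ℝ) := by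
        rw [Finset.sum_ite, Finset.sum_const_zero, add_zero, Finset.sum_const, nsmul_eq_mul, mul_one]
    _ ≤ S.card := by
        have : (Z.filter (fun k => k ∈ S)).card ≤ S.card := by
          apply Finset.card_le_card
          intro k hk
          exact (Finset.mem_filter.1 hk).2
        exact_mod_cast this

end TS
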