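import Pool.Agent.Lib.MP_39df77_nt.TS.WCount1

/-!
Row TS-C2: the weighted count over all `h`.
-/

set_option autoImplicit false

namespace TS

open Finset

private theorem C2_om {K Jm : ℝ} {L M B J2 J : ℕ} (hK : 1 ≤ K) (hL : 1 ≤ L) (hM : 1 ≤ M)
    (hMJ : (M : ℝ) ≤ Jm) (hKB : K ≤ B * Jm) (hB : 0 < (B : ℝ)) (hMJ2 : (M : ℝ) * J2 ≤ K)
    (hJ : 1 ≤ J) {h : ℤ} (h1 : (J : ℝ) ≤ |(h : ℝ)|) (h3 : |(h : ℝ)| ≤ J2) :
    Om K L M Jm h * (K * J + K ^ 2 / B + (J : ℝ) ^ 3) ≤ 67 * (L * K) := by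
  have hL1 : (1 : ℝ) ≤ L := by exact_mod_cast hL
  have hM1 : (1 : ℝ) ≤ M := by exact_mod_cast hM
  have hJ1 : (1 : ℝ) ≤ J := by exact_mod_cast hJ
  have hJm : 0 < Jm := by linarith
  have hK0 : 0 < K := by linarith
  have hKB2 : K ^ 2 / B ≤ K * Jm := by
    rw [div_le_iff₀ hB]
    nlinarith
  have hKB0 : 0 ≤ K ^ 2 / B := by positivity
  have hJM : (M : ℝ) * J ≤ K := by nlinarith
  obtain ⟨a, ha⟩ : ∃ a, a = |(h : ℝ)| := ⟨_, rfl⟩
  have ha2 : (h : ℝ) ^ 2 = a ^ 2 := by rw [ha, sq_abs]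
  unfold Om
  rw [ha2, ← ha]
  rw [← ha] at h1 h3
  have ha0 : 0 < a := by linarith
  split_ifs with c1 c2
  · have hJJ : (J : ℝ) ≤ Jm := by linarith
    have t1 : K * J * M ≤ K * Jm ^ 2 := by
      have : (J : ℝ) * M ≤ Jm * Jm := mul_le_mul hJJ hMJ (by linarith) hJm.le
      nlinarith
    have t2 : K ^ 2 / B * M ≤ K * Jm ^ 2 := by
      have : K ^ 2 / B * M ≤ K * Jm * Jm := mul_le_mul hKB2 hMJ (by linarith) (by positivity)
      nlinarith
    have t3 : (J : ℝ) ^ 3 * M ≤ K * Jm ^ 2 := by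
      have h4 : (J : ℝ) ^ 2 ≤ Jm ^ 2 := pow_le_pow_left₀ (by linarith) hJJ 2
      have h5 : (J : ℝ) ^ 2 * (M * J) ≤ Jm ^ 2 * K := mul_le_mul h4 hJM (by positivity) (by positivity)
      nlinarith
    have hS : M * (K * J + K ^ 2 / B + (J : ℝ) ^ 3) ≤ 3 * K * Jm ^ 2 := by nlinarith
    calc (L : ℝ) * M / Jm ^ 2 * (K * J + K ^ 2 / B + (J : ℝ) ^ 3) =
          L * (M * (K * J + K ^ 2 / B + (J : ℝ) ^ 3)) / Jm ^ 2 := by ring
      _ ≤ L * (3 * K * Jm ^ 2) / Jm ^ 2 := by gcongr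
      _ = 3 * (L * K) := by field_simp
      _ ≤ 67 * (L * K) := by nlinarith [mul_pos (by linarith : (0 : ℝ) < L) hK0]
  · push Not at c1
    have hs : a ^ 2 ≤ 64 * K := by
      have h4 : a ^ 2 ≤ (8 * √(K / L)) ^ 2 := pow_le_pow_left₀ ha0.le c2 2
      rw [mul_pow, Real.sq_sqrt (by positivity)] at h4
      have h5 : K / L ≤ K := div_le_self hK0.le hL1
      linarith
    have t1 : K * J ≤ K * a := mul_le_mul_of_nonneg_left h1 hK0.le
    have t2 : K ^ 2 / B ≤ K * a := hKB2.trans (mul_le_mul_of_nonneg_left c1 hK0.le)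
    have t3 : (J : ℝ) ^ 3 ≤ 64 * K * a := by
      calc (J : ℝ) ^ 3 ≤ a ^ 3 := pow_le_pow_left₀ (by linarith) h1 3
        _ = a ^ 2 * a := by ring
        _ ≤ 64 * K * a := mul_le_mul_of_nonneg_right hs ha0.le
    calc (L : ℝ) / a * (K * J + K ^ 2 / B + (J : ℝ) ^ 3) ≤ L / a * (66 * K * a) := by
          apply mul_le_mul_of_nonneg_left _ (by positivity)
          linarith
      _ = 66 * (L * K) := by field_simp
      _ ≤ 67 * (L * K) := by nlinarith [mul_pos (by linarith : (0 : ℝ) < L) hK0]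
  · push Not at c1
    have hMa : (M : ℝ) ≤ a := hMJ.trans c1
    have t1 : K * J * M ≤ K * a ^ 2 := by
      have : (J : ℝ) * M ≤ a * a := mul_le_mul h1 hMa (by linarith) ha0.le
      nlinarith
    have t2 : K ^ 2 / B * M ≤ K * a ^ 2 := by
      have : K ^ 2 / B * M ≤ K * a * a :=
        mul_le_mul (hKB2.trans (mul_le_mul_of_nonneg_left c1 hK0.le)) hMa (by linarith) (by positivity)
      nlinarith
    have t3 : (J : ℝ) ^ 3 * M ≤ K * a ^ 2 := by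
      have h4 : (J : ℝ) ^ 2 ≤ a ^ 2 := pow_le_pow_left₀ (by linarith) h1 2
      have h5 : (J : ℝ) ^ 2 * (M * J) ≤ a ^ 2 * K := mul_le_mul h4 hJM (by positivity) (by positivity)
      nlinarith
    have hS : M * (K * J + K ^ 2 / B + (J : ℝ) ^ 3) ≤ 3 * K * a ^ 2 := by nlinarith
    calc (L : ℝ) * M / a ^ 2 * (K * J + K ^ 2 / B + (J : ℝ) ^ 3) =
          L * (M * (K * J + K ^ 2 / B + (J : ℝ) ^ 3)) / a ^ 2 := by ring
      _ ≤ L * (3 * K * a ^ 2) / a ^ 2 := by gcongr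
      _ = 3 * (L * K) := by field_simp
      _ ≤ 67 * (L * K) := by nlinarith [mul_pos (by linarith : (0 : ℝ) < L) hK0]

private theorem C2_nu (K : ℝ) (B : ℕ) (i3 : ℤ) (J2 : ℕ) (h : ℤ) : 0 ≤ nu K B i3 J2 h := by
  unfold nu
  exact Finset.sum_nonneg fun _ _ => Finset.sum_nonneg fun _ _ => Finset.sum_nonneg fun _ _ =>
    (Real.exp_pos _).le

/-- dyadic decomposition of `|h|`: with `J = 2^i`,
* `|h| < Jm`: `(LM/Jm²) ∑_J (KJ + K²/B + J³)`, `J ≤ min(Jm, J2)`: `M ≤ Jm`, `K ≤ B Jm`, `M J2 ≤ K`;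
* `Jm ≤ |h| ≤ 8√(K/L)`: `L (K + K²/(BJ) + J²)`;
* `|h| > 8√(K/L)`: `LM (K/J + K²/(BJ²) + J)`, `J ≤ J2` (if `|h| ≥ Jm`; otherwise the first case).
Each is at most `C L K`; there are at most `C log K` values of `i`. -/
theorem wcount (ε : ℝ) (hε : 0 < ε) : ∃ C K₀ : ℝ, 1 ≤ C ∧ 1 ≤ K₀ ∧
    ∀ (K Jm : ℝ) (L M B J2 : ℕ) (I3 : Finset ℤ), K₀ ≤ K → 1 ≤ L → (L : ℝ) ≤ K → 1 ≤ M → (M : ℝ) ≤ Jm →
    K ≤ B * Jm → K ≤ (B : ℝ) ^ 2 → (B : ℝ) ≤ K → (M : ℝ) * J2 ≤ K →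
    (∀ i ∈ I3, K / 2 ≤ ((i * B : ℤ) : ℝ) ∧ ((i * B : ℤ) : ℝ) ≤ 20 * K) →
    ∑ h ∈ HH J2, Om K L M Jm h * ∑ i3 ∈ I3, nu K B i3 J2 h ≤ C * K ^ ε * (L * K) := by
  obtain ⟨C, K₀, hC, hK₀, hdy⟩ := dyadic_count (min (ε / 2) 1) (by positivity) (min_le_right _ _)
  obtain ⟨δ, hδ⟩ : ∃ δ, δ = ε / 2 := ⟨_, rfl⟩
  have hδ0 : 0 < δ := by rw [hδ]; positivity
  have hl2 : 0 < Real.log 2 := Real.log_pos (by norm_num)
  refine ⟨67 * C * (1 / (δ * Real.log 2) + 1), K₀, ?_, hK₀, ?_⟩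
  · have : 0 < 1 / (δ * Real.log 2) := by positivity
    nlinarith
  intro K Jm L M B J2 I3 hK hL hLK hM hMJ hKB hKB2 hBK hMJ2 hI3
  have hK1 : 1 ≤ K := hK₀.trans hK
  have hK0 : 0 < K := by linarith
  have hM1 : (1 : ℝ) ≤ M := by exact_mod_cast hM
  have hL1 : (1 : ℝ) ≤ L := by exact_mod_cast hL
  have hJ2K : (J2 : ℝ) ≤ K := by
    have : (0 : ℝ) ≤ J2 := Nat.cast_nonneg _
    nlinarith
  have hB0 : 0 < (B : ℝ) := by
    have h1 : (0 : ℝ) ≤ B := Nat.cast_nonneg _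
    rcases h1.lt_or_eq with h2 | h2
    · exact h2
    · rw [← h2] at hKB2
      norm_num at hKB2
      linarith
  have hmaps : ∀ h ∈ HH J2, Nat.log 2 h.natAbs ∈ Finset.range (Nat.log 2 J2 + 1) := by
    intro h hh
    rw [mem_HH] at hh
    rw [Finset.mem_range, Nat.lt_succ_iff]
    apply Nat.log_mono_right
    have h1 : ((h.natAbs : ℕ) : ℝ) ≤ J2 := by
      rw [Nat.cast_natAbs, Int.cast_abs]
      exact hh.2
    exact_mod_cast h1
  rw [← Finset.sum_fiberwise_of_maps_to hmaps]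
  have hterm : ∀ i ∈ Finset.range (Nat.log 2 J2 + 1),
      ∑ h ∈ (HH J2).filter (fun h : ℤ => Nat.log 2 h.natAbs = i),
        Om K L M Jm h * ∑ i3 ∈ I3, nu K B i3 J2 h ≤ 67 * C * K ^ δ * (L * K) := by
    intro i hi
    by_cases hemp : ((HH J2).filter (fun h : ℤ => Nat.log 2 h.natAbs = i)).Nonempty
    · obtain ⟨h0, hh0⟩ := hemp
      rw [Finset.mem_filter, mem_HH] at hh0
      have hpow : ∀ h : ℤ, h ≠ 0 → Nat.log 2 h.natAbs = i → ((2 ^ i : ℕ) : ℤ) ≤ |h| ∧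
          |h| < 2 * ((2 ^ i : ℕ) : ℤ) := by
        intro h hne hlog
        have hna : h.natAbs ≠ 0 := Int.natAbs_ne_zero.2 hne
        have h1 := Nat.pow_log_le_self 2 hna
        have h2 := Nat.lt_pow_succ_log_self (b := 2) (by norm_num) h.natAbs
        rw [hlog] at h1 h2
        rw [Int.abs_eq_natAbs]
        constructor
        · exact_mod_cast h1
        · have h3 : h.natAbs < 2 * 2 ^ i := by rw [pow_succ] at h2; omega
          exact_mod_cast h3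
      have hJle : ((2 ^ i : ℕ) : ℝ) ≤ J2 := by
        have h1 := (hpow h0 hh0.1.1 hh0.2).1
        have h2 : (((2 ^ i : ℕ) : ℤ) : ℝ) ≤ ((|h0| : ℤ) : ℝ) := by exact_mod_cast h1
        rw [Int.cast_abs] at h2
        have h3 := hh0.1.2
        rw [Int.cast_natCast] at h2
        linarith
      have hJ1 : 1 ≤ 2 ^ i := Nat.one_le_two_pow
      have hJR : (1 : ℝ) ≤ ((2 ^ i : ℕ) : ℝ) := by exact_mod_cast hJ1
      obtain ⟨D, hD⟩ : ∃ D : ℝ, D = K * ((2 ^ i : ℕ) : ℝ) + K ^ 2 / B + (((2 ^ i : ℕ) : ℝ)) ^ 3 := ⟨_, rfl⟩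
      have hD0 : 0 < D := by rw [hD]; positivity
      have hcount := hdy K B J2 (2 ^ i) I3 hK hKB2 hBK hJ2K hJ1 (hJle.trans hJ2K) hI3
      rw [← hD] at hcount
      have hsub : (HH J2).filter (fun h : ℤ => Nat.log 2 h.natAbs = i) ⊆
          (HH J2).filter (fun h : ℤ => ((2 ^ i : ℕ) : ℤ) ≤ |h| ∧ |h| < 2 * ((2 ^ i : ℕ) : ℤ)) := by
        intro h hh
        rw [Finset.mem_filter] at hh ⊢
        exact ⟨hh.1, hpow h (mem_HH.1 hh.1).1 hh.2⟩
      have hnn : ∀ h : ℤ, 0 ≤ ∑ i3 ∈ I3, nu K B i3 J2 h := fun h =>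
        Finset.sum_nonneg fun i3 _ => C2_nu K B i3 J2 h
      have h67 : 0 ≤ 67 * (L * K) / D := by positivity
      calc ∑ h ∈ (HH J2).filter (fun h : ℤ => Nat.log 2 h.natAbs = i),
            Om K L M Jm h * ∑ i3 ∈ I3, nu K B i3 J2 h
          ≤ ∑ h ∈ (HH J2).filter (fun h : ℤ => Nat.log 2 h.natAbs = i),
            67 * (L * K) / D * ∑ i3 ∈ I3, nu K B i3 J2 h := by
            apply Finset.sum_le_sum
            intro h hh
            rw [Finset.mem_filter] at hh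
            apply mul_le_mul_of_nonneg_right _ (hnn h)
            rw [le_div_iff₀ hD0, hD]
            have h1 := (hpow h (mem_HH.1 hh.1).1 hh.2).1
            have h2 : (((2 ^ i : ℕ) : ℤ) : ℝ) ≤ ((|h| : ℤ) : ℝ) := by exact_mod_cast h1
            rw [Int.cast_abs, Int.cast_natCast] at h2
            exact C2_om hK1 hL hM hMJ hKB hB0 hMJ2 hJ1 h2 (mem_HH.1 hh.1).2
        _ ≤ ∑ h ∈ (HH J2).filter (fun h : ℤ => ((2 ^ i : ℕ) : ℤ) ≤ |h| ∧ |h| < 2 * ((2 ^ i : ℕ) : ℤ)),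
            67 * (L * K) / D * ∑ i3 ∈ I3, nu K B i3 J2 h :=
            Finset.sum_le_sum_of_subset_of_nonneg hsub fun h _ _ => mul_nonneg h67 (hnn h)
        _ = 67 * (L * K) / D * ∑ h ∈ (HH J2).filter (fun h : ℤ => ((2 ^ i : ℕ) : ℤ) ≤ |h| ∧
              |h| < 2 * ((2 ^ i : ℕ) : ℤ)), ∑ i3 ∈ I3, nu K B i3 J2 h := by rw [Finset.mul_sum]
        _ ≤ 67 * (L * K) / D * (C * K ^ (min (ε / 2) 1) * D) := mul_le_mul_of_nonneg_left hcount h67
        _ = 67 * C * K ^ (min (ε / 2) 1) * (L * K) := by field_simp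
        _ ≤ 67 * C * K ^ δ * (L * K) := by
            have h3 : K ^ (min (ε / 2) 1) ≤ K ^ δ :=
              Real.rpow_le_rpow_of_exponent_le hK1 (by rw [hδ]; exact min_le_left _ _)
            gcongr
    · rw [Finset.not_nonempty_iff_eq_empty] at hemp
      rw [hemp, Finset.sum_empty]
      positivity
  have hsum := Finset.sum_le_sum hterm
  rw [Finset.sum_const, Finset.card_range, nsmul_eq_mul] at hsum
  refine hsum.trans ?_
  have hlog : ((Nat.log 2 J2 + 1 : ℕ) : ℝ) ≤ (1 / (δ * Real.log 2) + 1) * K ^ δ := by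
    have hKδ : 1 ≤ K ^ δ := Real.one_le_rpow hK1 hδ0.le
    have h1 : (Nat.log 2 J2 : ℝ) * Real.log 2 ≤ Real.log K := by
      by_cases hJ0 : J2 = 0
      · rw [hJ0]
        simp only [Nat.log_zero_right, Nat.cast_zero, zero_mul]
        exact Real.log_nonneg hK1
      · have h2 := Nat.pow_log_le_self 2 hJ0
        have h3 : ((2 : ℝ) ^ (Nat.log 2 J2)) ≤ J2 := by exact_mod_cast h2
        rw [← Real.log_pow]
        exact Real.log_le_log (by positivity) (h3.trans hJ2K)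
    have h4 : Real.log K ≤ K ^ δ / δ := Real.log_le_rpow_div hK0.le hδ0
    have h5 : (Nat.log 2 J2 : ℝ) ≤ K ^ δ / (δ * Real.log 2) := by
      rw [le_div_iff₀ (by positivity)]
      have h6 : (Nat.log 2 J2 : ℝ) * Real.log 2 * δ ≤ K ^ δ := by
        have := mul_le_mul_of_nonneg_right (h1.trans h4) hδ0.le
        rwa [div_mul_cancel₀ _ hδ0.ne'] at this
      linarith
    push_cast
    have h7 : (1 / (δ * Real.log 2) + 1) * K ^ δ = K ^ δ / (δ * Real.log 2) + K ^ δ := by ring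
    rw [h7]
    linarith
  have hfin : K ^ δ * K ^ δ = K ^ ε := by
    rw [← Real.rpow_add hK0]
    congr 1
    rw [hδ]; ring
  calc ((Nat.log 2 J2 + 1 : ℕ) : ℝ) * (67 * C * K ^ δ * (L * K))
      ≤ ((1 / (δ * Real.log 2) + 1) * K ^ δ) * (67 * C * K ^ δ * (L * K)) := by
        apply mul_le_mul_of_nonneg_right hlog
        positivity
    _ = 67 * C * (1 / (δ * Real.log 2) + 1) * (K ^ δ * K ^ δ) * (L * K) := by ring
    _ = 67 * C * (1 / (δ * Real.log 2) + 1) * K ^ ε * (L * K) := by rw [hfin]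

end TS
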