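import Pool.Agent.Lib.MP_39df77_nt.TS.Count

/-!
Row TS-C1: the weighted count, one dyadic range of `h`.
-/

set_option autoImplicit false

namespace TS

open Finset

/-- all pairs `(k, k')` in a common block -/
noncomputable def c1U (B : ℕ) (I3 : Finset ℤ) : Finset (ℤ × ℤ) := I3.biUnion (fun i => bl B i ×ˢ bl B i)

theorem c1_disj (B : ℕ) (I3 : Finset ℤ) :
    (↑I3 : Set ℤ).PairwiseDisjoint (fun i => bl B i ×ˢ bl B i) := by
  intro i _ j _ hij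
  simp only [Function.onFun]
  rw [Finset.disjoint_left]
  rintro ⟨k, k'⟩ h1 h2
  simp only [bl, Finset.mem_product, Finset.mem_Ico] at h1 h2
  apply hij
  rcases lt_trichotomy i j with h | h | h
  · exfalso
    have : (i + 1) * (B : ℤ) ≤ j * B := mul_le_mul_of_nonneg_right (by omega) (by positivity)
    nlinarith [h1.1.1, h1.1.2, h2.1.1, h2.1.2]
  · exact h
  · exfalso
    have : (j + 1) * (B : ℤ) ≤ i * B := mul_le_mul_of_nonneg_right (by omega) (by positivity)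
    nlinarith [h1.1.1, h1.1.2, h2.1.1, h2.1.2]

theorem c1_sum (K : ℝ) (B J2 : ℕ) (I3 F : Finset ℤ) :
    ∑ h ∈ F, ∑ i3 ∈ I3, nu K B i3 J2 h =
      ∑ z ∈ (F ×ˢ HH J2) ×ˢ c1U B I3,
        Real.exp (-((B : ℝ) ^ 2 / K * ((z.1.1 : ℝ) * √(z.2.1 : ℝ) - (z.1.2 : ℝ) * √(z.2.2 : ℝ)) ^ 2)) := by
  rw [Finset.sum_product, Finset.sum_product]
  refine Finset.sum_congr rfl (fun h _ => ?_)
  have h1 : ∀ h' : ℤ, ∑ y ∈ c1U B I3,
      Real.exp (-((B : ℝ) ^ 2 / K * ((h : ℝ) * √(y.1 : ℝ) - (h' : ℝ) * √(y.2 : ℝ)) ^ 2)) =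
      ∑ i ∈ I3, ∑ k ∈ bl B i, ∑ k' ∈ bl B i,
        Real.exp (-((B : ℝ) ^ 2 / K * ((h : ℝ) * √(k : ℝ) - (h' : ℝ) * √(k' : ℝ)) ^ 2)) := by
    intro h'
    unfold c1U
    rw [Finset.sum_biUnion (c1_disj B I3)]
    exact Finset.sum_congr rfl (fun i _ => by rw [Finset.sum_product])
  simp only [h1]
  rw [Finset.sum_comm]
  refine Finset.sum_congr rfl (fun i _ => ?_)
  unfold nu
  rw [Finset.sum_comm]

/-- members of the union -/
theorem c1_mem {K : ℝ} {B : ℕ} {I3 : Finset ℤ} (_hK : 1 ≤ K) (hBK : (B : ℝ) ≤ K)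
    (hI : ∀ i ∈ I3, K / 2 ≤ ((i * B : ℤ) : ℝ) ∧ ((i * B : ℤ) : ℝ) ≤ 20 * K) {y : ℤ × ℤ}
    (hy : y ∈ c1U B I3) : K / 2 ≤ (y.1 : ℝ) ∧ (y.1 : ℝ) ≤ 21 * K ∧ K / 2 ≤ (y.2 : ℝ) ∧
      (y.2 : ℝ) ≤ 21 * K ∧ |(y.1 : ℝ) - y.2| ≤ B := by
  unfold c1U at hy
  rw [Finset.mem_biUnion] at hy
  obtain ⟨i, hi, hy⟩ := hy
  simp only [bl, Finset.mem_product, Finset.mem_Ico] at hy
  obtain ⟨⟨a1, a2⟩, b1, b2⟩ := hy
  obtain ⟨c1, c2⟩ := hI i hi
  have a1' : ((i * B : ℤ) : ℝ) ≤ y.1 := by exact_mod_cast a1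
  have a2' : (y.1 : ℝ) ≤ ((i * B : ℤ) : ℝ) + B := by exact_mod_cast a2.le
  have b1' : ((i * B : ℤ) : ℝ) ≤ y.2 := by exact_mod_cast b1
  have b2' : (y.2 : ℝ) ≤ ((i * B : ℤ) : ℝ) + B := by exact_mod_cast b2.le
  refine ⟨by linarith, by linarith, by linarith, by linarith, ?_⟩
  rw [abs_le]
  constructor <;> linarith

theorem c1_cardU {K : ℝ} {B : ℕ} {I3 : Finset ℤ} (hK : 1 ≤ K) (hBK : (B : ℝ) ≤ K)
    (hI : ∀ i ∈ I3, K / 2 ≤ ((i * B : ℤ) : ℝ) ∧ ((i * B : ℤ) : ℝ) ≤ 20 * K) :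
    ((c1U B I3).card : ℝ) ≤ (21 * K) ^ 2 := by
  have h1 : c1U B I3 ⊆ Finset.Icc (1 : ℤ) ⌊21 * K⌋ ×ˢ Finset.Icc (1 : ℤ) ⌊21 * K⌋ := by
    intro y hy
    obtain ⟨a1, a2, b1, b2, _⟩ := c1_mem hK hBK hI hy
    rw [Finset.mem_product, Finset.mem_Icc, Finset.mem_Icc]
    have p1 : (0 : ℝ) < y.1 := by linarith
    have p2 : (0 : ℝ) < y.2 := by linarith
    have p1' : (0 : ℤ) < y.1 := by exact_mod_cast p1
    have p2' : (0 : ℤ) < y.2 := by exact_mod_cast p2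
    exact ⟨⟨by omega, Int.le_floor.mpr a2⟩, by omega, Int.le_floor.mpr b2⟩
  have h2 := Finset.card_le_card h1
  rw [Finset.card_product, Int.card_Icc] at h2
  have h3 : (((⌊21 * K⌋ + 1 - 1).toNat : ℕ) : ℝ) ≤ 21 * K := by
    have h0 : (0 : ℤ) ≤ ⌊21 * K⌋ := Int.floor_nonneg.mpr (by linarith)
    have h4 : ((⌊21 * K⌋ + 1 - 1).toNat : ℤ) = ⌊21 * K⌋ := by
      rw [add_sub_cancel_right, Int.toNat_of_nonneg h0]
    have h5 : (((⌊21 * K⌋ + 1 - 1).toNat : ℕ) : ℝ) = (⌊21 * K⌋ : ℝ) := by exact_mod_cast h4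
    rw [h5]
    exact Int.floor_le _
  have h4 : ((c1U B I3).card : ℝ) ≤
      ((⌊21 * K⌋ + 1 - 1).toNat : ℝ) * ((⌊21 * K⌋ + 1 - 1).toNat : ℝ) := by exact_mod_cast h2
  calc ((c1U B I3).card : ℝ) ≤ _ := h4
    _ ≤ (21 * K) * (21 * K) := mul_le_mul h3 h3 (by positivity) (by positivity)
    _ = _ := by ring

theorem c1_cardHH {K : ℝ} {J2 : ℕ} (hJ : (J2 : ℝ) ≤ K) : ((HH J2).card : ℝ) ≤ 2 * K := by
  unfold HH
  rw [Finset.card_erase_of_mem (by simp), Int.card_Icc]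
  have : ((J2 : ℤ) + 1 - (-(J2 : ℤ))).toNat - 1 = 2 * J2 := by omega
  rw [this]
  push_cast
  linarith

/-- the close pairs are at most twice the number in `count` -/
theorem c1_close {K lam : ℝ} {B J2 J : ℕ} {I3 : Finset ℤ} (hK : 1 ≤ K) (hlam : 0 ≤ lam)
    (hlB : 4 * lam ≤ B) (hBK : (B : ℝ) ≤ K) (hJ : 1 ≤ J) (hB : 1 ≤ B)
    (hI : ∀ i ∈ I3, K / 2 ≤ ((i * B : ℤ) : ℝ) ∧ ((i * B : ℤ) : ℝ) ≤ 20 * K) :
    ((((HH J2).filter (fun h : ℤ => (J : ℤ) ≤ |h| ∧ |h| < 2 * J) ×ˢ HH J2) ×ˢ c1U B I3).filter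
      (fun z : (ℤ × ℤ) × (ℤ × ℤ) =>
        |(z.1.1 : ℝ) * √(z.2.1 : ℝ) - z.1.2 * √(z.2.2 : ℝ)| ≤ lam * √K / B)).card ≤
    2 * (((Finset.Ico J (2 * J) ×ˢ Finset.Icc 1 ⌊21 * K⌋₊) ×ˢ
      (Finset.Icc 1 (20 * J) ×ˢ Finset.Icc 1 ⌊21 * K⌋₊)).filter
      (fun z : (ℕ × ℕ) × (ℕ × ℕ) => K / 2 ≤ (z.1.2 : ℝ) ∧ K / 2 ≤ (z.2.2 : ℝ) ∧
        |(z.1.2 : ℝ) - z.2.2| ≤ B ∧
        |(z.1.1 : ℝ) * √(z.1.2 : ℝ) - z.2.1 * √(z.2.2 : ℝ)| ≤ lam * √K / B)).card := by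
  classical
  have hB0 : (0 : ℝ) < B := by exact_mod_cast hB
  have hlB' : lam * √K / B ≤ √K / 4 := by
    rw [div_le_div_iff₀ hB0 (by norm_num)]
    nlinarith [Real.sqrt_nonneg K]
  have sK : 0 < √K := Real.sqrt_pos.mpr (by linarith)
  -- the key facts about a close quadruple
  have key : ∀ h h' k k' : ℤ, h ≠ 0 → h' ≠ 0 → K / 2 ≤ (k : ℝ) → K / 2 ≤ (k' : ℝ) → (k : ℝ) ≤ 21 * K →
      |h| < 2 * J → |(h : ℝ) * √(k : ℝ) - h' * √(k' : ℝ)| ≤ lam * √K / B →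
      0 < h * h' ∧ h'.natAbs ≤ 20 * J := by
    intro h h' k k' hh hh' hk hk' hk2 hJ2 hc
    have hc' := hc.trans hlB'
    have s1 : √K * (7 / 10) ≤ √(k : ℝ) := by
      apply Real.le_sqrt_of_sq_le
      rw [mul_pow, Real.sq_sqrt (by linarith)]
      linarith
    have s2 : √K * (7 / 10) ≤ √(k' : ℝ) := by
      apply Real.le_sqrt_of_sq_le
      rw [mul_pow, Real.sq_sqrt (by linarith)]
      linarith
    have s3 : √(k : ℝ) ≤ √K * 5 := by
      rw [Real.sqrt_le_left (by positivity), mul_pow, Real.sq_sqrt (by linarith)]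
      linarith
    rw [abs_le] at hc'
    have hpos : 0 < h * h' := by
      rcases lt_or_gt_of_ne hh with a | a <;> rcases lt_or_gt_of_ne hh' with b | b
      · exact mul_pos_of_neg_of_neg a b
      · exfalso
        have a' : (h : ℝ) ≤ -1 := by exact_mod_cast (by omega : h ≤ -1)
        have b' : (1 : ℝ) ≤ h' := by exact_mod_cast (by omega : 1 ≤ h')
        have e1 : (h : ℝ) * √(k : ℝ) ≤ -√(k : ℝ) := by nlinarith [Real.sqrt_nonneg (k : ℝ)]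
        have e2 : √(k' : ℝ) ≤ (h' : ℝ) * √(k' : ℝ) := by nlinarith [Real.sqrt_nonneg (k' : ℝ)]
        linarith [hc'.1]
      · exfalso
        have a' : (1 : ℝ) ≤ h := by exact_mod_cast (by omega : 1 ≤ h)
        have b' : (h' : ℝ) ≤ -1 := by exact_mod_cast (by omega : h' ≤ -1)
        have e1 : √(k : ℝ) ≤ (h : ℝ) * √(k : ℝ) := by nlinarith [Real.sqrt_nonneg (k : ℝ)]
        have e2 : (h' : ℝ) * √(k' : ℝ) ≤ -√(k' : ℝ) := by nlinarith [Real.sqrt_nonneg (k' : ℝ)]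
        linarith [hc'.2]
      · exact mul_pos a b
    refine ⟨hpos, ?_⟩
    have hJ' : |(h : ℝ)| ≤ 2 * J := by exact_mod_cast hJ2.le
    have e3 : |(h' : ℝ) * √(k' : ℝ)| ≤ |(h : ℝ) * √(k : ℝ)| + √K / 4 := by
      have e4 : (h' : ℝ) * √(k' : ℝ) = (h : ℝ) * √(k : ℝ) - ((h : ℝ) * √(k : ℝ) - h' * √(k' : ℝ)) := by ring
      rw [e4]
      refine (abs_sub _ _).trans ?_
      linarith [hc.trans hlB']
    rw [abs_mul, abs_mul, abs_of_nonneg (Real.sqrt_nonneg (k : ℝ)),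
      abs_of_nonneg (Real.sqrt_nonneg (k' : ℝ))] at e3
    have hJ1 : (1 : ℝ) ≤ J := by exact_mod_cast hJ
    have e5 : |(h' : ℝ)| * (√K * (7 / 10)) ≤ 2 * J * (√K * 5) + √K / 4 := by
      calc |(h' : ℝ)| * (√K * (7 / 10)) ≤ |(h' : ℝ)| * √(k' : ℝ) := by gcongr
        _ ≤ |(h : ℝ)| * √(k : ℝ) + √K / 4 := e3
        _ ≤ _ := by gcongr
    have e6 : |(h' : ℝ)| * (7 / 10) ≤ 2 * J * 5 + 1 / 4 := by
      by_contra hcon
      push Not at hcon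
      nlinarith
    have e7 : |(h' : ℝ)| ≤ 20 * J := by linarith
    have e8 : ((h'.natAbs : ℕ) : ℝ) ≤ ((20 * J : ℕ) : ℝ) := by
      rw [Nat.cast_natAbs, Int.cast_abs]
      push_cast
      exact e7
    exact_mod_cast e8
  refine Finset.card_le_mul_card_image_of_maps_to
    (f := fun z : (ℤ × ℤ) × (ℤ × ℤ) => ((z.1.1.natAbs, z.2.1.toNat), (z.1.2.natAbs, z.2.2.toNat))) ?_ 2 ?_
  · rintro ⟨⟨h, h'⟩, ⟨k, k'⟩⟩ hz
    simp only [Finset.mem_filter, Finset.mem_product, mem_HH] at hz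
    obtain ⟨⟨⟨⟨⟨h0, _⟩, hJl, hJr⟩, h0', _⟩, hU⟩, hc⟩ := hz
    obtain ⟨a1, a2, b1, b2, ab⟩ := c1_mem hK hBK hI hU
    obtain ⟨hpos, h20⟩ := key h h' k k' h0 h0' a1 b1 a2 hJr hc
    have p1 : (0 : ℝ) < k := by linarith
    have p2 : (0 : ℝ) < k' := by linarith
    have p1' : (0 : ℤ) < k := by exact_mod_cast p1
    have p2' : (0 : ℤ) < k' := by exact_mod_cast p2
    have t1 : ((k.toNat : ℕ) : ℝ) = k := by
      have : ((k.toNat : ℕ) : ℤ) = k := Int.toNat_of_nonneg p1'.le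
      exact_mod_cast this
    have t2 : ((k'.toNat : ℕ) : ℝ) = k' := by
      have : ((k'.toNat : ℕ) : ℤ) = k' := Int.toNat_of_nonneg p2'.le
      exact_mod_cast this
    have hab : ((h.natAbs : ℕ) : ℤ) = |h| := Int.natCast_natAbs h
    have hn1 : J ≤ h.natAbs := by
      have : ((J : ℕ) : ℤ) ≤ ((h.natAbs : ℕ) : ℤ) := by rw [hab]; exact hJl
      exact_mod_cast this
    have hn2 : h.natAbs < 2 * J := by
      have : ((h.natAbs : ℕ) : ℤ) < ((2 * J : ℕ) : ℤ) := by rw [hab]; push_cast; exact hJr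
      exact_mod_cast this
    simp only [Finset.mem_filter, Finset.mem_product, Finset.mem_Ico, Finset.mem_Icc]
    refine ⟨⟨⟨⟨hn1, hn2⟩, by omega, Nat.le_floor (by rw [t1]; exact a2)⟩,
      ⟨by omega, h20⟩, by omega, Nat.le_floor (by rw [t2]; exact b2)⟩, by rw [t1]; exact a1,
      by rw [t2]; exact b1, by rw [t1, t2]; exact ab, ?_⟩
    rw [t1, t2]
    have q1 : ((h.natAbs : ℕ) : ℝ) = |(h : ℝ)| := by rw [Nat.cast_natAbs, Int.cast_abs]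
    have q2 : ((h'.natAbs : ℕ) : ℝ) = |(h' : ℝ)| := by rw [Nat.cast_natAbs, Int.cast_abs]
    rw [q1, q2]
    rcases lt_or_gt_of_ne h0 with a | a
    · have b : h' < 0 := by
        by_contra hcon
        push Not at hcon
        nlinarith
      have a' : (h : ℝ) < 0 := by exact_mod_cast a
      have b' : (h' : ℝ) < 0 := by exact_mod_cast b
      rw [abs_of_neg a', abs_of_neg b', abs_sub_comm]
      have : -(h' : ℝ) * √(k' : ℝ) - -(h : ℝ) * √(k : ℝ) = (h : ℝ) * √(k : ℝ) - h' * √(k' : ℝ) := by ring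
      rw [this]
      exact hc
    · have b : 0 < h' := by
        by_contra hcon
        push Not at hcon
        nlinarith
      have a' : (0 : ℝ) < h := by exact_mod_cast a
      have b' : (0 : ℝ) < h' := by exact_mod_cast b
      rw [abs_of_pos a', abs_of_pos b']
      exact hc
  · rintro ⟨⟨m, l⟩, ⟨m', l'⟩⟩ _
    have hsub : (((((HH J2).filter (fun h : ℤ => (J : ℤ) ≤ |h| ∧ |h| < 2 * J) ×ˢ HH J2) ×ˢ c1U B I3).filter
      (fun z : (ℤ × ℤ) × (ℤ × ℤ) =>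
        |(z.1.1 : ℝ) * √(z.2.1 : ℝ) - z.1.2 * √(z.2.2 : ℝ)| ≤ lam * √K / B)).filter
        (fun z : (ℤ × ℤ) × (ℤ × ℤ) => ((z.1.1.natAbs, z.2.1.toNat), (z.1.2.natAbs, z.2.2.toNat)) =
          ((m, l), (m', l')))) ⊆
        {((((m : ℤ), (m' : ℤ))), ((l : ℤ), (l' : ℤ))), (((-(m : ℤ), -(m' : ℤ))), ((l : ℤ), (l' : ℤ)))} := by
      rintro ⟨⟨h, h'⟩, ⟨k, k'⟩⟩ hz
      rw [Finset.mem_filter] at hz
      obtain ⟨hz, he⟩ := hz
      simp only [Finset.mem_filter, Finset.mem_product, mem_HH] at hz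
      obtain ⟨⟨⟨⟨⟨h0, _⟩, hJl, hJr⟩, h0', _⟩, hU⟩, hc⟩ := hz
      obtain ⟨a1, a2, b1, b2, ab⟩ := c1_mem hK hBK hI hU
      obtain ⟨hpos, h20⟩ := key h h' k k' h0 h0' a1 b1 a2 hJr hc
      have p1 : (0 : ℝ) < k := by linarith
      have p2 : (0 : ℝ) < k' := by linarith
      have p1' : (0 : ℤ) < k := by exact_mod_cast p1
      have p2' : (0 : ℤ) < k' := by exact_mod_cast p2
      simp only [Prod.mk.injEq] at he
      obtain ⟨⟨e1, e2⟩, e3, e4⟩ := he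
      simp only [Finset.mem_insert, Finset.mem_singleton, Prod.mk.injEq]
      rcases lt_or_gt_of_ne h0 with a | a
      · right
        have b : h' < 0 := by
          by_contra hcon
          push Not at hcon
          nlinarith
        omega
      · left
        have b : 0 < h' := by
          by_contra hcon
          push Not at hcon
          nlinarith
        omega
    exact (Finset.card_le_card hsub).trans Finset.card_le_two

/-- The sum over `J ≤ |h| < 2J` (`J ≤ K`) of the close pairs in all blocks: Gaussian weights; the pairs with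
difference larger than `lam √K/B`, `lam = K^{ε/8}`, and the pairs `h h' < 0`, contribute at most
`K^6 exp(-K^{ε/4}) ≤ 1`; for the others `count` (with `ε/4`), `h' ≤ 20J` (`k, k'` in one block: `|k - k'| ≤ B`). -/
theorem dyadic_count (ε : ℝ) (hε : 0 < ε) (hε1 : ε ≤ 1) : ∃ C K₀ : ℝ, 1 ≤ C ∧ 1 ≤ K₀ ∧
    ∀ (K : ℝ) (B J2 J : ℕ) (I3 : Finset ℤ), K₀ ≤ K → K ≤ (B : ℝ) ^ 2 → (B : ℝ) ≤ K → (J2 : ℝ) ≤ K →
    1 ≤ J → (J : ℝ) ≤ K → (∀ i ∈ I3, K / 2 ≤ ((i * B : ℤ) : ℝ) ∧ ((i * B : ℤ) : ℝ) ≤ 20 * K) →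
    ∑ h ∈ (HH J2).filter (fun h : ℤ => (J : ℤ) ≤ |h| ∧ |h| < 2 * J), ∑ i3 ∈ I3, nu K B i3 J2 h ≤
      C * K ^ ε * (K * J + K ^ 2 / B + (J : ℝ) ^ 3) := by
  classical
  obtain ⟨C, hC, hcount⟩ := count (ε / 4) (by positivity)
  have hlog := (isLittleO_log_rpow_atTop (r := ε / 4) (by positivity)).bound (show (0 : ℝ) < 1 / 6 by norm_num)
  obtain ⟨K1, hK1⟩ := Filter.eventually_atTop.mp hlog
  refine ⟨2 * C + 1, max (max K1 2000) 1, by linarith, le_max_right _ _, ?_⟩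
  intro K B J2 J I3 hK0 hKB hBK hJ2 hJ1 hJK hI
  have hKK1 : K1 ≤ K := le_trans (le_trans (le_max_left _ _) (le_max_left _ _)) hK0
  have hK2 : (2000 : ℝ) ≤ K := le_trans (le_trans (le_max_right _ _) (le_max_left _ _)) hK0
  have hK : 1 ≤ K := by linarith
  have hKpos : 0 < K := by linarith
  have hB0 : (0 : ℝ) < B := by
    rcases (Nat.cast_nonneg B : (0 : ℝ) ≤ (B : ℝ)).lt_or_eq with h | h
    · exact h
    · exfalso
      rw [← h] at hKB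
      norm_num at hKB
      linarith
  have hB1 : 1 ≤ B := by exact_mod_cast hB0
  set lam : ℝ := K ^ (ε / 8) with hlamdef
  have hlam1 : 1 ≤ lam := Real.one_le_rpow hK (by positivity)
  have hlam2 : lam ^ 2 = K ^ (ε / 4) := by
    rw [hlamdef, ← Real.rpow_natCast, ← Real.rpow_mul hKpos.le]
    congr 1
    push_cast
    ring
  have hlamB : 4 * lam ≤ B := by
    have h1 : lam ≤ K ^ (1 / 8 : ℝ) := Real.rpow_le_rpow_of_exponent_le hK (by linarith)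
    have h2 : (4 * K ^ (1 / 8 : ℝ)) ^ 2 ≤ (B : ℝ) ^ 2 := by
      refine le_trans ?_ hKB
      have h3 : (K ^ (1 / 8 : ℝ)) ^ 8 = K := by
        rw [← Real.rpow_natCast, ← Real.rpow_mul hKpos.le]
        norm_num
      set w := K ^ (1 / 8 : ℝ) with hw
      have hw0 : 0 < w := Real.rpow_pos_of_pos hKpos _
      have hw2 : (2 : ℝ) ≤ w := by
        by_contra hcon
        push Not at hcon
        have : w ^ 8 < 2 ^ 8 := by gcongr
        rw [h3] at this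
        norm_num at this
        linarith
      rw [← h3]
      have : (64 : ℝ) ≤ w ^ 6 := by
        calc (64 : ℝ) = 2 ^ 6 := by norm_num
          _ ≤ w ^ 6 := by gcongr
      nlinarith [pow_pos hw0 2]
    have h4 : 4 * K ^ (1 / 8 : ℝ) ≤ B := by
      have h5 := sq_le_sq.mp h2
      rwa [abs_of_nonneg (by positivity), abs_of_nonneg (by positivity)] at h5
    linarith
  rw [c1_sum]
  set S := ((HH J2).filter (fun h : ℤ => (J : ℤ) ≤ |h| ∧ |h| < 2 * J) ×ˢ HH J2) ×ˢ c1U B I3 with hS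
  have hterm : ∀ z ∈ S, Real.exp (-((B : ℝ) ^ 2 / K * ((z.1.1 : ℝ) * √(z.2.1 : ℝ) -
      (z.1.2 : ℝ) * √(z.2.2 : ℝ)) ^ 2)) ≤
      (if |(z.1.1 : ℝ) * √(z.2.1 : ℝ) - z.1.2 * √(z.2.2 : ℝ)| ≤ lam * √K / B then (1 : ℝ) else 0) +
        Real.exp (-(K ^ (ε / 4))) := by
    intro z _
    split_ifs with hc
    · have : Real.exp (-((B : ℝ) ^ 2 / K * ((z.1.1 : ℝ) * √(z.2.1 : ℝ) -
        (z.1.2 : ℝ) * √(z.2.2 : ℝ)) ^ 2)) ≤ 1 := by
        rw [Real.exp_le_one_iff]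
        have : 0 ≤ (B : ℝ) ^ 2 / K * ((z.1.1 : ℝ) * √(z.2.1 : ℝ) - (z.1.2 : ℝ) * √(z.2.2 : ℝ)) ^ 2 := by
          positivity
        linarith
      linarith [Real.exp_pos (-(K ^ (ε / 4)))]
    · push Not at hc
      rw [zero_add, Real.exp_le_exp, neg_le_neg_iff, ← hlam2]
      have h1 : (lam * √K / B) ^ 2 ≤ ((z.1.1 : ℝ) * √(z.2.1 : ℝ) - (z.1.2 : ℝ) * √(z.2.2 : ℝ)) ^ 2 := by
        rw [← sq_abs ((z.1.1 : ℝ) * √(z.2.1 : ℝ) - (z.1.2 : ℝ) * √(z.2.2 : ℝ))]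
        have : 0 ≤ lam * √K / B := by positivity
        gcongr
      calc lam ^ 2 = (B : ℝ) ^ 2 / K * (lam * √K / B) ^ 2 := by
            rw [div_pow, mul_pow, Real.sq_sqrt hKpos.le]
            field_simp
        _ ≤ _ := by gcongr
  have hsum := Finset.sum_le_sum hterm
  rw [Finset.sum_add_distrib, Finset.sum_const, nsmul_eq_mul, Finset.sum_ite, Finset.sum_const_zero, add_zero,
    Finset.sum_const, nsmul_eq_mul, mul_one] at hsum
  refine hsum.trans ?_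
  have hclose := c1_close (J2 := J2) hK (by linarith : (0 : ℝ) ≤ lam) hlamB hBK hJ1 hB1 hI
  have hcnt := hcount K lam B J hK hlam1 hlamB hKB hBK hJ1 hJK
  have hX : 0 ≤ K * J + K ^ 2 / B + (J : ℝ) ^ 3 := by positivity
  have hX1 : 1 ≤ K * J + K ^ 2 / B + (J : ℝ) ^ 3 := by
    have : (1 : ℝ) ≤ J := by exact_mod_cast hJ1
    have h1 : 1 ≤ K * J := by nlinarith
    have h2 : 0 ≤ K ^ 2 / B := by positivity
    have h3 : 0 ≤ (J : ℝ) ^ 3 := by positivity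
    linarith
  have hA : ((S.filter (fun z : (ℤ × ℤ) × (ℤ × ℤ) =>
        |(z.1.1 : ℝ) * √(z.2.1 : ℝ) - z.1.2 * √(z.2.2 : ℝ)| ≤ lam * √K / B)).card : ℝ) ≤
      2 * C * K ^ ε * (K * J + K ^ 2 / B + (J : ℝ) ^ 3) := by
    have h1 : ((S.filter (fun z : (ℤ × ℤ) × (ℤ × ℤ) =>
        |(z.1.1 : ℝ) * √(z.2.1 : ℝ) - z.1.2 * √(z.2.2 : ℝ)| ≤ lam * √K / B)).card : ℝ) ≤
        2 * (C * K ^ (ε / 4) * lam ^ 2 * (K * J + K ^ 2 / B + (J : ℝ) ^ 3)) := by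
      refine le_trans ?_ (mul_le_mul_of_nonneg_left hcnt (by norm_num))
      exact_mod_cast hclose
    refine h1.trans ?_
    rw [hlam2]
    have h2 : K ^ (ε / 4) * K ^ (ε / 4) ≤ K ^ ε := by
      rw [← Real.rpow_add hKpos]
      exact Real.rpow_le_rpow_of_exponent_le hK (by linarith)
    calc 2 * (C * K ^ (ε / 4) * K ^ (ε / 4) * (K * J + K ^ 2 / B + (J : ℝ) ^ 3))
        = 2 * C * (K ^ (ε / 4) * K ^ (ε / 4)) * (K * J + K ^ 2 / B + (J : ℝ) ^ 3) := by ring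
      _ ≤ _ := by gcongr
  have hBt : (S.card : ℝ) * Real.exp (-(K ^ (ε / 4))) ≤ 1 := by
    have h1 : (S.card : ℝ) ≤ K ^ 6 := by
      rw [hS, Finset.card_product, Finset.card_product]
      push_cast
      have f1 : (((HH J2).filter (fun h : ℤ => (J : ℤ) ≤ |h| ∧ |h| < 2 * J)).card : ℝ) ≤ 2 * K := by
        refine le_trans ?_ (c1_cardHH hJ2)
        exact_mod_cast Finset.card_filter_le _ _
      have f2 := c1_cardHH hJ2
      have f3 := c1_cardU hK hBK hI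
      calc (((HH J2).filter (fun h : ℤ => (J : ℤ) ≤ |h| ∧ |h| < 2 * J)).card : ℝ) * ((HH J2).card : ℝ) *
            ((c1U B I3).card : ℝ) ≤ (2 * K) * (2 * K) * (21 * K) ^ 2 := by gcongr
        _ = 1764 * K ^ 4 := by ring
        _ ≤ K ^ 2 * K ^ 4 := by
            gcongr
            nlinarith
        _ = K ^ 6 := by ring
    have h2 : K ^ 6 ≤ Real.exp (K ^ (ε / 4)) := by
      have h3 := hK1 K hKK1
      rw [Real.norm_of_nonneg (Real.log_nonneg hK), Real.norm_of_nonneg (Real.rpow_nonneg hKpos.le _)] at h3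
      have h4 : K ^ 6 = Real.exp (6 * Real.log K) := by
        rw [mul_comm, Real.exp_mul, Real.exp_log hKpos]
        norm_cast
      rw [h4]
      apply Real.exp_le_exp.mpr
      linarith
    rw [Real.exp_neg, ← div_eq_mul_inv, div_le_one (Real.exp_pos _)]
    exact h1.trans h2
  have hKe : 1 ≤ K ^ ε := Real.one_le_rpow hK hε.le
  have h5 : 1 ≤ K ^ ε * (K * J + K ^ 2 / B + (J : ℝ) ^ 3) := by nlinarith
  calc _ ≤ 2 * C * K ^ ε * (K * J + K ^ 2 / B + (J : ℝ) ^ 3) + 1 := add_le_add hA hBt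
    _ ≤ 2 * C * K ^ ε * (K * J + K ^ 2 / B + (J : ℝ) ^ 3) + K ^ ε * (K * J + K ^ 2 / B + (J : ℝ) ^ 3) := by
        linarith
    _ = _ := by ring

end TS
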